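import Pool.Agent.T2H19.RF4

/-! The norm of a convolution operator with a continuous symbol. -/

set_option autoImplicit false

open MeasureTheory Filter Topology
open scoped ENNReal

/-- We normalise the measure on `ℝ / ℤ` to have total volume 1. -/
noncomputable local instance : MeasureSpace UnitAddCircle := ⟨AddCircle.haarAddCircle⟩

/-- The measure on `ℝ / ℤ` is a Haar measure. -/
local instance : Measure.IsAddHaarMeasure (volume : Measure UnitAddCircle) :=
  inferInstanceAs (Measure.IsAddHaarMeasure AddCircle.haarAddCircle)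

/-- The measure on `ℝ / ℤ` is a probability measure. -/
local instance : IsProbabilityMeasure (volume : Measure UnitAddCircle) :=
  inferInstanceAs (IsProbabilityMeasure AddCircle.haarAddCircle)

namespace Pool.Agent.T2H19

variable {d : ℕ}

theorem parseval (g : C(UnitAddTorus (Fin d), ℂ)) :
    HasSum (fun i => ‖UnitAddTorus.mFourierCoeff g i‖ ^ 2) (∫ t, ‖g t‖ ^ 2) := by
  have h := UnitAddTorus.hasSum_sq_mFourierCoeff
    (ContinuousMap.toLp (E := ℂ) 2 (volume : Measure (UnitAddTorus (Fin d))) ℂ g)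
  simp only [UnitAddTorus.mFourierCoeff_toLp] at h
  have e : ∫ t, ‖(ContinuousMap.toLp (E := ℂ) 2 (volume : Measure (UnitAddTorus (Fin d))) ℂ g) t‖ ^ 2
      = ∫ t, ‖g t‖ ^ 2 := by
    refine integral_congr_ae ?_
    filter_upwards [ContinuousMap.coeFn_toLp (p := 2) (𝕜 := ℂ) volume g] with t ht
    rw [ht]
  rwa [e] at h

theorem coef_mul (B : C(UnitAddTorus (Fin d), ℂ)) (x y : Fin d → ℤ) :
    UnitAddTorus.mFourierCoeff (B * UnitAddTorus.mFourier y : C(UnitAddTorus (Fin d), ℂ)) x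
      = UnitAddTorus.mFourierCoeff B (x - y) := by
  unfold UnitAddTorus.mFourierCoeff
  refine integral_congr_ae (Eventually.of_forall fun t => ?_)
  have h : -(x - y) = -x + y := by abel
  simp only [smul_eq_mul, ContinuousMap.coe_mul, Pi.mul_apply]
  rw [h, UnitAddTorus.mFourier_add]
  ring

/-- The operator norm is at most the supremum of the symbol. -/
theorem op_bound (b : C(UnitAddTorus (Fin d), ℝ)) {ε : ℝ} (hb : ∀ k, |b k| ≤ ε)
    {c : (Fin d → ℤ) → ℝ}
    (hc : ∀ h, UnitAddTorus.mFourierCoeff (fun k => ((b k : ℝ) : ℂ)) h = ((c h : ℝ) : ℂ))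
    (ψ : (Fin d → ℤ) →₀ ℂ) :
    (Summable fun x => ‖∑ y ∈ ψ.support, ((c (x - y) : ℝ) : ℂ) * ψ y‖ ^ 2) ∧
      ∑' x, ‖∑ y ∈ ψ.support, ((c (x - y) : ℝ) : ℂ) * ψ y‖ ^ 2
        ≤ ε ^ 2 * ∑ y ∈ ψ.support, ‖ψ y‖ ^ 2 := by
  obtain ⟨B, hB⟩ : ∃ B : C(UnitAddTorus (Fin d), ℂ), ∀ k, B k = ((b k : ℝ) : ℂ) :=
    ⟨⟨fun k => ((b k : ℝ) : ℂ), Complex.continuous_ofReal.comp b.continuous⟩, fun _ => rfl⟩
  have hBc : ∀ h, UnitAddTorus.mFourierCoeff B h = ((c h : ℝ) : ℂ) := by
    intro h
    rw [← hc h]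
    congr 1
    funext k
    exact hB k
  obtain ⟨f, hf⟩ : ∃ f : C(UnitAddTorus (Fin d), ℂ),
    f = ∑ y ∈ ψ.support, ψ y • UnitAddTorus.mFourier y := ⟨_, rfl⟩
  have hg : ∀ x, UnitAddTorus.mFourierCoeff (B * f : C(UnitAddTorus (Fin d), ℂ)) x
      = ∑ y ∈ ψ.support, ((c (x - y) : ℝ) : ℂ) * ψ y := by
    intro x
    have e : B * f = ∑ y ∈ ψ.support, ψ y • (B * UnitAddTorus.mFourier y) := by
      rw [hf, Finset.mul_sum]
      exact Finset.sum_congr rfl fun y _ => mul_smul_comm _ _ _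
    rw [e, ← RF.cof_eq, map_sum]
    refine Finset.sum_congr rfl fun y _ => ?_
    rw [map_smul, RF.cof_eq, coef_mul, hBc, smul_eq_mul, mul_comm]
  have hfc : ∀ x, UnitAddTorus.mFourierCoeff f x = ψ x := by
    intro x
    rw [← RF.cof_eq, hf, map_sum]
    have e : ∀ y ∈ ψ.support, RF.cof x (ψ y • UnitAddTorus.mFourier y)
        = if x = y then ψ y else 0 := by
      intro y _
      rw [map_smul, RF.cof_mF, smul_eq_mul]
      split_ifs <;> simp
    rw [Finset.sum_congr rfl e, Finset.sum_ite_eq]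
    split_ifs with h
    · rfl
    · exact (Finsupp.notMem_support_iff.1 h).symm
  have p1 := parseval (B * f)
  have p2 := parseval f
  simp only [hg] at p1
  simp only [hfc] at p2
  have h2 : ∫ t, ‖f t‖ ^ 2 = ∑ y ∈ ψ.support, ‖ψ y‖ ^ 2 := by
    refine p2.unique (hasSum_sum_of_ne_finset_zero fun y hy => ?_)
    rw [Finsupp.notMem_support_iff.1 hy, norm_zero]
    norm_num
  refine ⟨p1.summable, ?_⟩
  rw [p1.tsum_eq, ← h2, ← integral_const_mul]
  have hi : ∀ F : C(UnitAddTorus (Fin d), ℂ), Integrable (fun t => ‖F t‖ ^ 2)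
      (volume : Measure (UnitAddTorus (Fin d))) := by
    intro F
    refine Continuous.integrable_of_hasCompactSupport (by fun_prop) ?_
    exact HasCompactSupport.of_compactSpace _
  refine integral_mono (hi _) ((hi _).const_mul _) fun t => ?_
  simp only [ContinuousMap.coe_mul, Pi.mul_apply]
  rw [norm_mul, mul_pow, hB, Complex.norm_real, Real.norm_eq_abs]
  exact mul_le_mul_of_nonneg_right (pow_le_pow_left₀ (abs_nonneg _) (hb t) 2) (by positivity)

end Pool.Agent.T2H19
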