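import Pool.Agent.T2H19.W11
import Pool.Agent.T2H19.W12

/-! Small multiples of a symbol. -/

set_option autoImplicit false

namespace Pool.Agent.T2H19

open MeasureTheory ProbabilityTheory
open scoped ComplexConjugate ENNReal

/-- Small multiples of a continuous symbol. -/
theorem small_symbol {d : ℕ} {b : C(UnitAddTorus (Fin d), ℝ)} {c : (Fin d → ℤ) → ℝ}
    (hb : ∀ h, UnitAddTorus.mFourierCoeff (fun k => ((b k : ℝ) : ℂ)) h = ((c h : ℝ) : ℂ))
    {ε : ℝ} (hε : 0 < ε) :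
    ∃ (n : ℕ) (b' : C(UnitAddTorus (Fin d), ℝ)), 1 / ((n : ℝ) + 1) ≤ ε ∧ (∀ k, |b' k| ≤ ε) ∧
      ∀ h, UnitAddTorus.mFourierCoeff (fun k => ((b' k : ℝ) : ℂ)) h
        = ((1 / ((n : ℝ) + 1) * c h : ℝ) : ℂ) := by
  obtain ⟨n, hn⟩ := exists_nat_gt ((‖b‖ + 1) / ε)
  obtain ⟨ε', hε'⟩ : ∃ ε' : ℝ, ε' = 1 / ((n : ℝ) + 1) := ⟨_, rfl⟩
  have hε'0 : 0 < ε' := by rw [hε']; positivity
  have hε'1 : ε' * (‖b‖ + 1) ≤ ε := by
    rw [div_lt_iff₀ hε] at hn
    rw [hε', one_div, inv_mul_le_iff₀ (by positivity)]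
    nlinarith
  have hb0 := norm_nonneg b
  obtain ⟨b', hb'⟩ : ∃ b' : C(UnitAddTorus (Fin d), ℝ), ∀ k, b' k = ε' * b k :=
    ⟨⟨fun k => ε' * b k, continuous_const.mul b.continuous⟩, fun _ => rfl⟩
  refine ⟨n, b', ?_, fun k => ?_, fun h => ?_⟩
  · rw [← hε']
    nlinarith
  · rw [hb' k, abs_mul, abs_of_pos hε'0]
    have h2 : |b k| ≤ ‖b‖ + 1 := by
      rw [← Real.norm_eq_abs]
      exact (b.norm_coe_le_norm k).trans (by linarith)
    exact (mul_le_mul_of_nonneg_left h2 hε'0.le).trans hε'1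
  · rw [← hε', Complex.ofReal_mul ε', ← hb h]
    unfold UnitAddTorus.mFourierCoeff
    rw [← MeasureTheory.integral_const_mul]
    refine integral_congr_ae (Filter.Eventually.of_forall fun k => ?_)
    simp only [smul_eq_mul, hb' k, Complex.ofReal_mul]
    ring

end Pool.Agent.T2H19
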