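import Mathlib

/-! A criterion for absolute continuity. -/

set_option autoImplicit false

namespace Pool.Agent.T2H19

open MeasureTheory Filter Topology
open scoped ENNReal

noncomputable section

/-- Poisson kernel. -/
def Pk (η t E : ℝ) : ℝ := η / ((t - E) ^ 2 + η ^ 2)

theorem Pk_nonneg {η : ℝ} (hη : 0 < η) (t E : ℝ) : 0 ≤ Pk η t E := by unfold Pk; positivity

theorem Pk_le {η : ℝ} (hη : 0 < η) (t E : ℝ) : Pk η t E ≤ 1 / η := by
  unfold Pk
  rw [div_le_div_iff₀ (by positivity) hη]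
  nlinarith [sq_nonneg (t - E)]

theorem Pk_cont {η : ℝ} (hη : 0 < η) : Continuous fun q : ℝ × ℝ => Pk η q.1 q.2 := by
  unfold Pk
  refine continuous_const.div (by fun_prop) (fun q => ?_)
  positivity

theorem Pk_im (μ : Measure ℝ) [IsFiniteMeasure μ] {η : ℝ} (hη : 0 < η) (E : ℝ) :
    (∫ t : ℝ, 1 / ((t : ℂ) - ⟨E, η⟩) ∂μ).im = ∫ t, Pk η t E ∂μ := by
  have hne : ∀ t : ℝ, (t : ℂ) - ⟨E, η⟩ ≠ 0 := by
    intro t h
    have h1 := congrArg Complex.im h
    simp at h1
    exact hη.ne' h1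
  have hint : Integrable (fun t : ℝ => 1 / ((t : ℂ) - ⟨E, η⟩)) μ := by
    refine Integrable.of_bound (Continuous.aestronglyMeasurable ?_) (1 / η)
      (ae_of_all _ fun t => ?_)
    · exact continuous_const.div (by fun_prop) hne
    · rw [norm_div, norm_one]
      apply one_div_le_one_div_of_le hη
      have h1 := Complex.abs_im_le_norm ((t : ℂ) - ⟨E, η⟩)
      simp only [Complex.sub_im, Complex.ofReal_im, zero_sub, abs_neg] at h1
      rwa [abs_of_pos hη] at h1
  have h1 := integral_im hint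
  rw [RCLike.im_eq_complex_im] at h1
  rw [← h1]
  refine integral_congr_ae (Eventually.of_forall fun t => ?_)
  simp only [Pk]
  rw [one_div, Complex.inv_im, Complex.normSq_apply]
  simp only [Complex.sub_im, Complex.ofReal_im, Complex.sub_re, Complex.ofReal_re]
  congr 1 <;> ring

theorem Pk_intp (μ : Measure ℝ) [IsFiniteMeasure μ] {η : ℝ} (hη : 0 < η) (E : ℝ) :
    Integrable (fun t => Pk η t E) μ :=
  Integrable.of_bound ((Pk_cont hη).comp (by fun_prop : Continuous fun t : ℝ =>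
    (t, E))).aestronglyMeasurable (1 / η) (ae_of_all _ fun t => by
      rw [Real.norm_of_nonneg (Pk_nonneg hη t E)]; exact Pk_le hη t E)

theorem Pk_arctan {η : ℝ} (hη : 0 < η) (t r : ℝ) (hr : 0 < r) :
    ∫⁻ E in Set.Ioo (t - r) (t + r), ENNReal.ofReal (Pk η t E)
      = ENNReal.ofReal (2 * Real.arctan (r / η)) := by
  have hc : Continuous fun E => Pk η t E :=
    (Pk_cont hη).comp (by fun_prop : Continuous fun E : ℝ => (t, E))
  have h1 : ∫ E in (t - r)..(t + r), Pk η t E = 2 * Real.arctan (r / η) := by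
    have hd : ∀ E : ℝ, HasDerivAt (fun E : ℝ => Real.arctan ((E - t) / η)) (Pk η t E) E := by
      intro E
      have h2 := (((hasDerivAt_id E).sub_const t).div_const η).arctan
      refine h2.congr_deriv ?_
      unfold Pk
      simp only [id]
      field_simp
      ring
    rw [intervalIntegral.integral_eq_sub_of_hasDerivAt (fun E _ => hd E)
      (hc.intervalIntegrable _ _)]
    have e1 : (t + r - t) / η = r / η := by ring
    have e2 : (t - r - t) / η = -(r / η) := by ring
    rw [e1, e2, Real.arctan_neg]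
    ring
  rw [← h1, intervalIntegral.integral_of_le (by linarith), integral_Ioc_eq_integral_Ioo,
    ofReal_integral_eq_lintegral_ofReal]
  · exact (hc.integrableOn_Icc (a := t - r) (b := t + r)).mono_set Set.Ioo_subset_Icc_self
  · exact Eventually.of_forall fun E => Pk_nonneg hη t E

theorem stieltjes (μ : Measure ℝ) [IsFiniteMeasure μ] (η : ℕ → ℝ) (hη : ∀ m, 0 < η m)
    (hη0 : Tendsto η atTop (𝓝 0)) (U : Set ℝ) (hU : IsOpen U) :
    ENNReal.ofReal Real.pi * μ U
      ≤ liminf (fun m => ∫⁻ E in U, ENNReal.ofReal (∫ t, Pk (η m) t E ∂μ)) atTop := by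
  have e1 : ∀ m, ∫⁻ E in U, ENNReal.ofReal (∫ t, Pk (η m) t E ∂μ)
      = ∫⁻ t, (∫⁻ E in U, ENNReal.ofReal (Pk (η m) t E)) ∂μ := by
    intro m
    have e2 : ∀ E, ENNReal.ofReal (∫ t, Pk (η m) t E ∂μ) = ∫⁻ t, ENNReal.ofReal (Pk (η m) t E) ∂μ :=
      fun E => ofReal_integral_eq_lintegral_ofReal (Pk_intp μ (hη m) E)
        (Eventually.of_forall fun t => Pk_nonneg (hη m) t E)
    simp only [e2]
    rw [lintegral_lintegral_swap]
    have : Measurable fun p : ℝ × ℝ => ENNReal.ofReal (Pk (η m) p.2 p.1) :=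
      ((Pk_cont (hη m)).comp continuous_swap).measurable.ennreal_ofReal
    exact this.aemeasurable
  simp only [e1]
  have hmeas : ∀ m, Measurable fun t => ∫⁻ E in U, ENNReal.ofReal (Pk (η m) t E) := by
    intro m
    have : Measurable fun p : ℝ × ℝ => ENNReal.ofReal (Pk (η m) p.1 p.2) :=
      (Pk_cont (hη m)).measurable.ennreal_ofReal
    exact this.lintegral_prod_right'
  refine le_trans ?_ (lintegral_liminf_le hmeas)
  rw [← setLIntegral_const]
  refine (setLIntegral_mono' hU.measurableSet ?_).trans (setLIntegral_le_lintegral U _)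
  intro t ht
  obtain ⟨r, hr, hr2⟩ := Metric.isOpen_iff.1 hU t ht
  rw [Real.ball_eq_Ioo] at hr2
  have h3 : Tendsto (fun m => ENNReal.ofReal (2 * Real.arctan (r / η m))) atTop
      (𝓝 (ENNReal.ofReal (2 * (Real.pi / 2)))) := by
    refine ENNReal.tendsto_ofReal (Tendsto.const_mul 2 ?_)
    have h4 : Tendsto (fun m => r / η m) atTop atTop := by
      have h5 : Tendsto (fun m => (η m)⁻¹) atTop atTop :=
        tendsto_inv_nhdsGT_zero.comp (tendsto_nhdsWithin_iff.2 ⟨hη0, Eventually.of_forall hη⟩)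
      simpa only [div_eq_mul_inv] using h5.const_mul_atTop hr
    exact (Real.tendsto_arctan_atTop.mono_right nhdsWithin_le_nhds).comp h4
  rw [mul_div_cancel₀ _ (two_ne_zero)] at h3
  rw [← h3.liminf_eq]
  refine liminf_le_liminf (Eventually.of_forall fun m => ?_)
  rw [← Pk_arctan (hη m) t r hr]
  exact lintegral_mono_set hr2

theorem ac_crit {Ω : Type*} [MeasurableSpace Ω] (P : Measure Ω) [IsProbabilityMeasure P]
    (η : ℕ → ℝ) (hη : ∀ m, 0 < η m) (hη0 : Tendsto η atTop (𝓝 0)) (f : ℕ → Ω → ℝ → ℝ)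
    (hf : ∀ m, Measurable (fun p : Ω × ℝ => f m p.1 p.2))
    (hb : ∀ ζ : ℝ, 0 < ζ → ∃ L : ℝ, 0 ≤ L ∧ ∀ m E,
      ∫⁻ ω, ENNReal.ofReal (f m ω E - L) ∂P ≤ ENNReal.ofReal ζ) :
    ∀ᵐ ω ∂P, ∀ μ : Measure ℝ, IsFiniteMeasure μ →
      (∀ m E, f m ω E = (∫ t : ℝ, 1 / ((t : ℂ) - ⟨E, η m⟩) ∂μ).im) → μ ≪ volume := by
  choose! L hL0 hL using hb
  -- the excess functionals
  obtain ⟨A, hA⟩ : ∃ A : ℕ → ℕ → ℕ → Ω → ℝ≥0∞, A = fun (M j m : ℕ) ω =>
      ∫⁻ E in Set.Icc (-(M : ℝ)) M, ENNReal.ofReal (f m ω E - L (1 / ((j : ℝ) + 1))) := ⟨_, rfl⟩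
  have hAm : ∀ M j m, Measurable (A M j m) := by
    intro M j m
    rw [hA]
    have : Measurable fun p : Ω × ℝ => ENNReal.ofReal (f m p.1 p.2 - L (1 / ((j : ℝ) + 1))) :=
      ((hf m).sub_const _).ennreal_ofReal
    exact this.lintegral_prod_right'
  have hAi : ∀ M j m, ∫⁻ ω, A M j m ω ∂P
      ≤ ENNReal.ofReal (1 / ((j : ℝ) + 1)) * ENNReal.ofReal (2 * M) := by
    intro M j m
    rw [hA]
    simp only
    rw [lintegral_lintegral_swap]
    · calc ∫⁻ E in Set.Icc (-(M : ℝ)) M, ∫⁻ ω, ENNReal.ofReal (f m ω E - L (1 / ((j : ℝ) + 1))) ∂P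
          ≤ ∫⁻ _E in Set.Icc (-(M : ℝ)) M, ENNReal.ofReal (1 / ((j : ℝ) + 1)) :=
            lintegral_mono fun E => hL _ (by positivity) m E
        _ = _ := by
            rw [setLIntegral_const, Real.volume_Icc]
            congr 2
            ring
    · have : Measurable fun p : Ω × ℝ => ENNReal.ofReal (f m p.1 p.2 - L (1 / ((j : ℝ) + 1))) :=
        ((hf m).sub_const _).ennreal_ofReal
      exact this.aemeasurable
  obtain ⟨B, hB⟩ : ∃ B : ℕ → Ω → ℝ≥0∞, B = fun M ω => ⨅ j, liminf (fun m => A M j m ω) atTop :=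
    ⟨_, rfl⟩
  have hBm : ∀ M, Measurable (B M) := by
    intro M
    rw [hB]
    exact Measurable.iInf fun j => Measurable.liminf fun m => hAm M j m
  have hB0 : ∀ M, ∀ᵐ ω ∂P, B M ω = 0 := by
    intro M
    have h1 : ∫⁻ ω, B M ω ∂P = 0 := by
      refine le_antisymm ?_ bot_le
      have h2 : ∀ j : ℕ, ∫⁻ ω, B M ω ∂P
          ≤ ENNReal.ofReal (1 / ((j : ℝ) + 1)) * ENNReal.ofReal (2 * M) := by
        intro j
        calc ∫⁻ ω, B M ω ∂P ≤ ∫⁻ ω, liminf (fun m => A M j m ω) atTop ∂P := by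
              refine lintegral_mono fun ω => ?_
              rw [hB]
              exact iInf_le _ j
          _ ≤ liminf (fun m => ∫⁻ ω, A M j m ω ∂P) atTop := lintegral_liminf_le fun m => hAm M j m
          _ ≤ liminf (fun _ : ℕ => ENNReal.ofReal (1 / ((j : ℝ) + 1)) * ENNReal.ofReal (2 * M)) atTop :=
              liminf_le_liminf (Eventually.of_forall fun m => hAi M j m)
          _ = _ := by simp
      have h3 : Tendsto (fun j : ℕ => ENNReal.ofReal (1 / ((j : ℝ) + 1)) * ENNReal.ofReal (2 * M))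
          atTop (𝓝 0) := by
        have h4 : Tendsto (fun j : ℕ => ENNReal.ofReal (1 / ((j : ℝ) + 1))) atTop (𝓝 0) := by
          have := ENNReal.tendsto_ofReal (tendsto_one_div_add_atTop_nhds_zero_nat (𝕜 := ℝ))
          simpa using this
        have := ENNReal.Tendsto.mul_const h4 (b := ENNReal.ofReal (2 * M))
          (Or.inr ENNReal.ofReal_ne_top)
        simpa using this
      exact ge_of_tendsto' h3 h2
    exact (lintegral_eq_zero_iff (hBm M)).1 h1
  filter_upwards [ae_all_iff.2 hB0] with ω hω μ hμ hfμ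
  have hfP : ∀ m E, f m ω E = ∫ t, Pk (η m) t E ∂μ := fun m E => by rw [hfμ, Pk_im μ (hη m)]
  -- open sets
  have hopen : ∀ (M j : ℕ) (U : Set ℝ), IsOpen U → U ⊆ Set.Icc (-(M : ℝ)) M →
      ENNReal.ofReal Real.pi * μ U ≤ ENNReal.ofReal (L (1 / ((j : ℝ) + 1))) * volume U
        + liminf (fun m => A M j m ω) atTop := by
    intro M j U hU hUM
    refine (stieltjes μ η hη hη0 U hU).trans ?_
    rw [← liminf_const_add]
    · refine liminf_le_liminf (Eventually.of_forall fun m => ?_)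
      calc ∫⁻ E in U, ENNReal.ofReal (∫ t, Pk (η m) t E ∂μ)
          ≤ ∫⁻ E in U, (ENNReal.ofReal (L (1 / ((j : ℝ) + 1)))
            + ENNReal.ofReal (f m ω E - L (1 / ((j : ℝ) + 1)))) := by
            refine lintegral_mono fun E => ?_
            rw [← hfP]
            have : f m ω E = L (1 / ((j : ℝ) + 1)) + (f m ω E - L (1 / ((j : ℝ) + 1))) := by ring
            conv_lhs => rw [this]
            exact ENNReal.ofReal_add_le
        _ = ENNReal.ofReal (L (1 / ((j : ℝ) + 1))) * volume U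
            + ∫⁻ E in U, ENNReal.ofReal (f m ω E - L (1 / ((j : ℝ) + 1))) := by
            rw [lintegral_add_left measurable_const, setLIntegral_const]
        _ ≤ _ := by
            rw [hA]
            exact add_le_add le_rfl (lintegral_mono_set hUM)
    · isBoundedDefault
    · isBoundedDefault
  have hnull : ∀ (M : ℕ) (N : Set ℝ), N ⊆ Set.Ioo (-(M : ℝ)) M → volume N = 0 → μ N = 0 := by
    intro M N hNM hN
    have h1 : ∀ j : ℕ, ENNReal.ofReal Real.pi * μ N ≤ liminf (fun m => A M j m ω) atTop := by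
      intro j
      refine ENNReal.le_of_forall_pos_le_add fun ε hε _ => ?_
      obtain ⟨l, hl⟩ : ∃ l, l = L (1 / ((j : ℝ) + 1)) := ⟨_, rfl⟩
      have hl0 : 0 ≤ l := by rw [hl]; exact hL0 _ (by positivity)
      obtain ⟨V, hNV, hV, hVv⟩ := N.exists_isOpen_lt_of_lt (μ := volume)
        (ENNReal.ofReal (ε / (l + 1))) (by
          rw [hN]
          exact ENNReal.ofReal_pos.2 (by positivity))
      have h2 := hopen M j (V ∩ Set.Ioo (-(M : ℝ)) M) (hV.inter isOpen_Ioo)
        (Set.inter_subset_right.trans Set.Ioo_subset_Icc_self)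
      rw [← hl] at h2
      have h3 : μ N ≤ μ (V ∩ Set.Ioo (-(M : ℝ)) M) := measure_mono (Set.subset_inter hNV hNM)
      have h4 : ENNReal.ofReal l * volume (V ∩ Set.Ioo (-(M : ℝ)) M) ≤ (ε : ℝ≥0∞) := by
        calc ENNReal.ofReal l * volume (V ∩ Set.Ioo (-(M : ℝ)) M)
            ≤ ENNReal.ofReal l * ENNReal.ofReal (ε / (l + 1)) :=
              mul_le_mul_right ((measure_mono Set.inter_subset_left).trans hVv.le) _
          _ = ENNReal.ofReal (l * (ε / (l + 1))) := (ENNReal.ofReal_mul hl0).symm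
          _ ≤ ENNReal.ofReal ε := by
              apply ENNReal.ofReal_le_ofReal
              rw [mul_div_assoc', div_le_iff₀ (by positivity)]
              nlinarith [NNReal.coe_nonneg ε]
          _ = ε := ENNReal.ofReal_coe_nnreal
      calc ENNReal.ofReal Real.pi * μ N ≤ ENNReal.ofReal Real.pi * μ (V ∩ Set.Ioo (-(M : ℝ)) M) :=
            mul_le_mul_right h3 _
        _ ≤ _ := h2
        _ ≤ _ := by rw [add_comm]; exact add_le_add le_rfl h4
    have h2 : ENNReal.ofReal Real.pi * μ N ≤ 0 := by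
      have h3 := le_iInf h1
      have h4 : ⨅ j, liminf (fun m => A M j m ω) atTop = 0 := by
        have := hω M
        rw [hB] at this
        exact this
      rwa [h4] at h3
    have h5 : ENNReal.ofReal Real.pi * μ N = 0 := le_antisymm h2 bot_le
    rcases mul_eq_zero.1 h5 with h | h
    · exfalso
      rw [ENNReal.ofReal_eq_zero] at h
      exact absurd h (not_le.2 Real.pi_pos)
    · exact h
  intro N hN
  have hcov : N ⊆ ⋃ M : ℕ, N ∩ Set.Ioo (-(M : ℝ)) M := by
    intro x hx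
    obtain ⟨M, hM⟩ := exists_nat_gt |x|
    exact Set.mem_iUnion.2 ⟨M, hx, (abs_lt.1 hM).1, (abs_lt.1 hM).2⟩
  refine measure_mono_null hcov (measure_iUnion_null fun M => ?_)
  exact hnull M _ Set.inter_subset_right (measure_mono_null Set.inter_subset_left hN)

end

end Pool.Agent.T2H19
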