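import Pool.Agent.T2H19.Mod3

/-! Second moments of the resolvent with a Gaussian block. -/

set_option autoImplicit false

namespace Pool.Agent.T2H19

open MeasureTheory ProbabilityTheory Filter Topology Matrix
open scoped BigOperators ComplexConjugate

noncomputable section

variable {V : Type} [Fintype V] [DecidableEq V]

/-- `G diag(p) G`. -/
def Gp (p : V → ℝ) (G : Matrix V V ℂ) : Matrix V V ℂ :=
  G * Matrix.diagonal (fun y => (p y : ℂ)) * G

theorem Gp_apply (p : V → ℝ) (G : Matrix V V ℂ) (a b : V) :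
    Gp p G a b = ∑ i, G a i * (p i : ℂ) * G i b := by
  unfold Gp
  rw [Matrix.mul_apply]
  exact Finset.sum_congr rfl fun i _ => by rw [Matrix.mul_diagonal]

theorem Gp_cont {K : Matrix V V ℂ} (hK : K.IsHermitian) (c : Ix V → ℝ) {z : ℂ} (hz : z.im ≠ 0)
    (p : V → ℝ) (a b : V) : Continuous fun g => Gp p (Gg K c z g) a b := by
  simp only [Gp_apply]
  exact continuous_finsetSum _ fun i _ =>
    ((Gg_cont hK c hz a i).mul continuous_const).mul (Gg_cont hK c hz i b)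

theorem Gp_le {K : Matrix V V ℂ} (hK : K.IsHermitian) (c : Ix V → ℝ) {z : ℂ} (hz : z.im ≠ 0)
    (p : V → ℝ) (g : Ix V → ℝ) (a b : V) :
    ‖Gp p (Gg K c z g) a b‖ ≤ ∑ i, 1 / |z.im| * |p i| * (1 / |z.im|) := by
  rw [Gp_apply]
  refine (norm_sum_le _ _).trans (Finset.sum_le_sum fun i _ => ?_)
  rw [norm_mul, norm_mul, Complex.norm_real, Real.norm_eq_abs]
  exact mul_le_mul (mul_le_mul_of_nonneg_right (Gg_le hK c hz g a i) (abs_nonneg _))
    (Gg_le hK c hz g i b) (norm_nonneg _) (by positivity)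

theorem var_gen2 {K : Matrix V V ℂ} (hK : K.IsHermitian) (S : V → V → ℝ)
    (h0 : ∀ x y, 0 ≤ S x y) (hs : ∀ x y, S x y = S y x) {z : ℂ} (hz : z.im ≠ 0) (p : V → ℝ)
    (hp : ∀ y, 0 ≤ p y) :
    ∫ g, ‖∑ y, (p y : ℂ) * Gg K (cS 0 S) z g y y
        - ∫ g', ∑ y, (p y : ℂ) * Gg K (cS 0 S) z g' y y ∂(PP (Ix V))‖ ^ 2 ∂(PP (Ix V))
      ≤ ∫ g, ∑ a, ∑ b, S a b * ‖Gp p (Gg K (cS 0 S) z g) a b‖ ^ 2 ∂(PP (Ix V)) := by
  set c := cS 0 S with hc
  have hFc : Continuous fun g => ∑ y, (p y : ℂ) * Gg K c z g y y :=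
    continuous_finsetSum _ fun y _ => continuous_const.mul (Gg_cont hK c hz y y)
  have hF'c : ∀ k, Continuous fun g => -(c k : ℂ) * ∑ y, (p y : ℂ) * GB K c z k g y y := fun k =>
    continuous_const.mul (continuous_finsetSum _ fun y _ => continuous_const.mul
      (GB_cont hK c hz k y y))
  obtain ⟨C', hC'⟩ : ∃ C' : ℝ, C' = (∑ k, |c k|) * ∑ y, p y * (Fintype.card V *
      (Fintype.card V * (1 / |z.im| * (1 / |z.im|)))) := ⟨_, rfl⟩
  have hbd : ∀ k g, ‖-(c k : ℂ) * ∑ y, (p y : ℂ) * GB K c z k g y y‖ ≤ C' := by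
    intro k g
    rw [norm_mul, norm_neg, Complex.norm_real, Real.norm_eq_abs, hC']
    refine mul_le_mul (Finset.single_le_sum (f := fun k => |c k|) (fun _ _ => abs_nonneg _)
      (Finset.mem_univ k)) ?_ (norm_nonneg _) (Finset.sum_nonneg fun _ _ => abs_nonneg _)
    refine (norm_sum_le _ _).trans (Finset.sum_le_sum fun y _ => ?_)
    rw [norm_mul, Complex.norm_real, Real.norm_of_nonneg (hp y)]
    exact mul_le_mul_of_nonneg_left (GB_le hK c hz k g y y) (hp y)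
  have h := poinP (fun g => ∑ y, (p y : ℂ) * Gg K c z g y y)
    (fun k g => -(c k : ℂ) * ∑ y, (p y : ℂ) * GB K c z k g y y) hFc hF'c
    (∑ y, p y * (1 / |z.im|)) C'
    (fun g => by
      refine (norm_sum_le _ _).trans (Finset.sum_le_sum fun y _ => ?_)
      rw [norm_mul, Complex.norm_real, Real.norm_of_nonneg (hp y)]
      exact mul_le_mul_of_nonneg_left (Gg_le hK c hz g y y) (hp y))
    hbd
    (fun k g t => by
      have h : ∀ j, HasDerivAt (fun t => (p j : ℂ) * Gg K c z (Function.update g k t) j j)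
          ((p j : ℂ) * (-(c k : ℂ) * GB K c z k (Function.update g k t) j j)) t :=
        fun j => (Gg_deriv hK c hz k j j g t).const_mul _
      have h2 := HasDerivAt.fun_sum (u := Finset.univ) fun j _ => h j
      refine h2.congr_deriv ?_
      rw [Finset.mul_sum]
      exact Finset.sum_congr rfl fun j _ => by ring)
  refine h.trans ?_
  have hint : ∀ k, Integrable (fun g => ‖-(c k : ℂ) * ∑ y, (p y : ℂ) * GB K c z k g y y‖ ^ 2)
      (PP (Ix V)) := by
    intro k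
    refine int_of_bd (C := C' ^ 2) ((hF'c k).norm.pow 2).aestronglyMeasurable fun g => ?_
    rw [Real.norm_of_nonneg (by positivity)]
    exact pow_le_pow_left₀ (norm_nonneg _) (hbd k g) 2
  rw [← integral_finsetSum _ fun k _ => hint k]
  refine le_of_eq (integral_congr_ae (Eventually.of_forall fun g => ?_))
  have e1 : ∀ k, ‖-(c k : ℂ) * ∑ y, (p y : ℂ) * GB K c z k g y y‖ ^ 2
      = (c k) ^ 2 * ‖Matrix.trace (Bm k * Gp p (Gg K c z g))‖ ^ 2 := by
    intro k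
    rw [tr_GB, norm_mul, norm_neg, Complex.norm_real, mul_pow, Real.norm_eq_abs, sq_abs]
    rfl
  simp only [e1]
  rw [hc, sum_trace 0 S h0 hs, zero_pow two_ne_zero, zero_mul, zero_add]

/-- Variance of a diagonal element, quadratic form. -/
theorem var_one2 {K : Matrix V V ℂ} (hK : K.IsHermitian) (S : V → V → ℝ)
    (h0 : ∀ x y, 0 ≤ S x y) (hs : ∀ x y, S x y = S y x) (κ : ℝ) (hκ : ∀ x y, S x y ≤ κ) {z : ℂ}
    (hz : 0 < z.im) (x : V) :
    ∫ g, ‖Gg K (cS 0 S) z g x x - ∫ g', Gg K (cS 0 S) z g' x x ∂(PP (Ix V))‖ ^ 2 ∂(PP (Ix V))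
      ≤ κ / z.im ^ 2 * ∫ g, ‖Gg K (cS 0 S) z g x x‖ ^ 2 ∂(PP (Ix V)) := by
  have hκ0 : 0 ≤ κ := (h0 x x).trans (hκ x x)
  have h := var_gen2 hK S h0 hs hz.ne' (Pi.single x 1) (fun y => by
    by_cases hy : y = x
    · subst hy; simp
    · simp [hy])
  have e1 : ∀ g, ∑ y, (((Pi.single x 1 : V → ℝ) y : ℝ) : ℂ) * Gg K (cS 0 S) z g y y
      = Gg K (cS 0 S) z g x x := by
    intro g
    rw [Finset.sum_eq_single x]
    · simp
    · intro y _ hy
      simp [hy]
    · simp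
  simp only [e1] at h
  refine h.trans ?_
  rw [← integral_const_mul]
  have e2 : ∀ (G : Matrix V V ℂ) a b, Gp (Pi.single x 1) G a b = G a x * G x b := by
    intro G a b
    rw [Gp_apply, Finset.sum_eq_single x]
    · simp
    · intro y _ hy
      simp [hy]
    · simp
  have hpt : ∀ g, ∑ a, ∑ b, S a b * ‖Gp (Pi.single x 1) (Gg K (cS 0 S) z g) a b‖ ^ 2
      ≤ κ / z.im ^ 2 * ‖Gg K (cS 0 S) z g x x‖ ^ 2 := by
    intro g
    set G := Gg K (cS 0 S) z g with hG
    have hH := Hf_herm hK (fun k => cS 0 S k * g k)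
    have w1 : z.im * ∑ y, ‖G x y‖ ^ 2 = (G x x).im := ward_row _ hH hz.ne' x
    have w2 : z.im * ∑ y, ‖G y x‖ ^ 2 = (G x x).im := ward_col _ hH hz.ne' x
    have w4 : 0 ≤ (G x x).im := im_nonneg _ hH hz x
    have w5 : (G x x).im ≤ ‖G x x‖ := (le_abs_self _).trans (Complex.abs_im_le_norm _)
    simp only [e2, norm_mul, mul_pow]
    have h1 : ∑ a, ∑ b, S a b * (‖G a x‖ ^ 2 * ‖G x b‖ ^ 2)
        ≤ κ * ((∑ a, ‖G a x‖ ^ 2) * ∑ b, ‖G x b‖ ^ 2) := by
      rw [Finset.sum_mul_sum, Finset.mul_sum]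
      refine Finset.sum_le_sum fun a _ => ?_
      rw [Finset.mul_sum]
      exact Finset.sum_le_sum fun b _ => mul_le_mul_of_nonneg_right (hκ a b) (by positivity)
    refine h1.trans ?_
    have e4 : ∑ a, ‖G a x‖ ^ 2 = (G x x).im / z.im := by rw [← w2]; field_simp
    have e5 : ∑ a, ‖G x a‖ ^ 2 = (G x x).im / z.im := by rw [← w1]; field_simp
    rw [e4, e5]
    have e6 : κ * ((G x x).im / z.im * ((G x x).im / z.im)) = κ / z.im ^ 2 * (G x x).im ^ 2 := by
      field_simp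
    rw [e6]
    exact mul_le_mul_of_nonneg_left (pow_le_pow_left₀ w4 w5 2) (by positivity)
  refine integral_mono_of_nonneg (Eventually.of_forall fun g => ?_) ?_ (Eventually.of_forall hpt)
  · exact Finset.sum_nonneg fun a _ => Finset.sum_nonneg fun b _ => mul_nonneg (h0 a b)
      (sq_nonneg _)
  · refine Integrable.const_mul ?_ _
    refine int_sq _ _ (Gg_cont hK _ hz.ne' x x).aestronglyMeasurable (1 / |z.im|) fun g => ?_
    exact Gg_le hK _ hz.ne' g x x

/-- The block profile. -/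
def sB (Λ : Finset V) (κ : ℝ) (x y : V) : ℝ := if x ∈ Λ ∧ y ∈ Λ ∧ x ≠ y then κ else 0

theorem sB_nonneg (Λ : Finset V) {κ : ℝ} (hκ : 0 ≤ κ) (x y : V) : 0 ≤ sB Λ κ x y := by
  unfold sB; split_ifs <;> simp [hκ]

theorem sB_symm (Λ : Finset V) (κ : ℝ) (x y : V) : sB Λ κ x y = sB Λ κ y x := by
  unfold sB
  by_cases h : x ∈ Λ ∧ y ∈ Λ ∧ x ≠ y
  · rw [if_pos h, if_pos ⟨h.2.1, h.1, h.2.2.symm⟩]
  · rw [if_neg h, if_neg fun h' => h ⟨h'.2.1, h'.1, h'.2.2.symm⟩]

theorem sB_le (Λ : Finset V) {κ : ℝ} (hκ : 0 ≤ κ) (x y : V) : sB Λ κ x y ≤ κ := by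
  unfold sB; split_ifs <;> simp [hκ]

theorem sB_sum (Λ : Finset V) (κ : ℝ) (a : V) (f : V → ℂ) :
    ∑ y, (sB Λ κ a y : ℂ) * f y = if a ∈ Λ then (κ : ℂ) * (∑ y ∈ Λ, f y - f a) else 0 := by
  by_cases ha : a ∈ Λ
  · rw [if_pos ha]
    have h1 : ∑ y, (sB Λ κ a y : ℂ) * f y = ∑ y ∈ Λ.erase a, (κ : ℂ) * f y := by
      rw [← Finset.sum_subset (Finset.subset_univ (Λ.erase a))]
      · refine Finset.sum_congr rfl fun y hy => ?_
        rw [Finset.mem_erase] at hy
        unfold sB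
        rw [if_pos ⟨ha, hy.2, hy.1.symm⟩]
      · intro y _ hy
        rw [Finset.mem_erase, not_and_or, not_not] at hy
        unfold sB
        rw [if_neg]
        · simp
        · rintro ⟨_, h2, h3⟩
          rcases hy with h | h
          · exact h3 h.symm
          · exact h h2
    rw [h1, ← Finset.mul_sum, ← Finset.add_sum_erase _ _ ha, add_sub_cancel_left]
  · rw [if_neg ha]
    refine Finset.sum_eq_zero fun y _ => ?_
    unfold sB
    rw [if_neg fun h => ha h.1]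
    simp

/-- Cauchy-Schwarz for bounded functions. -/
theorem cs_int {Ω : Type*} [MeasurableSpace Ω] (P : Measure Ω) [IsProbabilityMeasure P]
    (X Y : Ω → ℂ) (hX : AEStronglyMeasurable X P) (hY : AEStronglyMeasurable Y P) (C : ℝ)
    (hCX : ∀ w, ‖X w‖ ≤ C) (hCY : ∀ w, ‖Y w‖ ≤ C) :
    ‖∫ w, X w * Y w ∂P‖ ^ 2 ≤ (∫ w, ‖X w‖ ^ 2 ∂P) * ∫ w, ‖Y w‖ ^ 2 ∂P := by
  have iX := int_sq P X hX C hCX
  have iY := int_sq P Y hY C hCY
  have iXY : Integrable (fun w => ‖X w‖ * ‖Y w‖) P := by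
    refine Integrable.of_bound (hX.norm.mul hY.norm) (C * C) (Eventually.of_forall fun w => ?_)
    rw [norm_mul, norm_norm, norm_norm]
    exact mul_le_mul (hCX w) (hCY w) (norm_nonneg _) ((norm_nonneg _).trans (hCX w))
  have h1 : ‖∫ w, X w * Y w ∂P‖ ≤ ∫ w, ‖X w‖ * ‖Y w‖ ∂P := by
    refine (norm_integral_le_integral_norm _).trans (le_of_eq ?_)
    simp only [norm_mul]
  obtain ⟨A, hA⟩ : ∃ A, A = ∫ w, ‖X w‖ ^ 2 ∂P := ⟨_, rfl⟩
  obtain ⟨B, hB⟩ : ∃ B, B = ∫ w, ‖Y w‖ ^ 2 ∂P := ⟨_, rfl⟩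
  obtain ⟨D, hD⟩ : ∃ D, D = ∫ w, ‖X w‖ * ‖Y w‖ ∂P := ⟨_, rfl⟩
  rw [← hA, ← hB]
  rw [← hD] at h1
  have hA0 : 0 ≤ A := by rw [hA]; exact integral_nonneg fun w => by positivity
  have hB0 : 0 ≤ B := by rw [hB]; exact integral_nonneg fun w => by positivity
  have hq : ∀ r : ℝ, 0 ≤ r ^ 2 * A - 2 * r * D + B := by
    intro r
    have h2 : ∫ w, (r * ‖X w‖ - ‖Y w‖) ^ 2 ∂P = r ^ 2 * A - 2 * r * D + B := by
      have e : ∀ w, (r * ‖X w‖ - ‖Y w‖) ^ 2
          = r ^ 2 * ‖X w‖ ^ 2 - 2 * r * (‖X w‖ * ‖Y w‖) + ‖Y w‖ ^ 2 := fun w => by ring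
      simp only [e]
      have iA : Integrable (fun w => r ^ 2 * ‖X w‖ ^ 2 - 2 * r * (‖X w‖ * ‖Y w‖)) P :=
        (iX.const_mul (r ^ 2)).sub (iXY.const_mul (2 * r))
      rw [integral_add iA iY, integral_sub (iX.const_mul (r ^ 2)) (iXY.const_mul (2 * r)),
        integral_const_mul, integral_const_mul, hA, hB, hD]
    rw [← h2]
    exact integral_nonneg fun w => sq_nonneg _
  have h3 : D ^ 2 ≤ A * B := by
    rcases eq_or_lt_of_le hA0 with h | h
    · have hh : D ≤ 0 := by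
        by_contra hc
        push Not at hc
        have := hq ((B + 1) / (2 * D))
        rw [← h] at this
        have e : 2 * ((B + 1) / (2 * D)) * D = B + 1 := by field_simp
        linarith
      have hD0 : 0 ≤ D := by rw [hD]; exact integral_nonneg fun w => by positivity
      have : D = 0 := le_antisymm hh hD0
      rw [this, ← h]; simp
    · have := hq (D / A)
      have e : (D / A) ^ 2 * A - 2 * (D / A) * D + B = B - D ^ 2 / A := by field_simp; ring
      rw [e] at this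
      have h4 : D ^ 2 / A ≤ B := by linarith
      rwa [div_le_iff₀ h, mul_comm] at h4
  exact (pow_le_pow_left₀ (norm_nonneg _) h1 2).trans h3

end

end Pool.Agent.T2H19
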