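import Pool.Agent.T2H19.Blk

/-! The block bound for the diagonal of the resolvent. -/

set_option autoImplicit false

namespace Pool.Agent.T2H19

open MeasureTheory ProbabilityTheory Filter Topology Matrix
open scoped BigOperators ComplexConjugate

noncomputable section

variable {V : Type} [Fintype V] [DecidableEq V]

theorem Gg_int {K : Matrix V V ℂ} (hK : K.IsHermitian) (c : Ix V → ℝ) {z : ℂ} (hz : z.im ≠ 0)
    (a b : V) : Integrable (fun g => Gg K c z g a b) (PP (Ix V)) :=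
  int_of_bd (Gg_cont hK c hz a b).aestronglyMeasurable fun g => Gg_le hK c hz g a b

/-- The equation of the averaged resolvent. -/
theorem avg_eq {B : Matrix V V ℂ} (hB : B.IsHermitian) (S : V → V → ℝ)
    (h0 : ∀ x y, 0 ≤ S x y) (hs : ∀ x y, S x y = S y x) {z : ℂ} (hz : z.im ≠ 0) (a b : V) :
    ∑ y, B a y * ∫ g, Gg B (cS 0 S) z g y b ∂(PP (Ix V)) - z * ∫ g, Gg B (cS 0 S) z g a b ∂(PP (Ix V))
      = (if a = b then 1 else 0)
        + ∫ g, (∑ y, (S a y : ℂ) * Gg B (cS 0 S) z g y y) * Gg B (cS 0 S) z g a b ∂(PP (Ix V)) := by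
  set c := cS 0 S with hc
  have hid : ∀ g : Ix V → ℝ, (Hf 0 (fun k => c k * g k) * Gg B c z g) a b
      = (if a = b then 1 else 0) - (∑ y, B a y * Gg B c z g y b - z * Gg B c z g a b) := by
    intro g
    have h1 := mul_Gr (Hf B (fun k => c k * g k)) (Hf_herm hB _) hz
    have h2 : Hf B (fun k => c k * g k) = B + Hf 0 (fun k => c k * g k) := by
      unfold Hf
      rw [zero_add]
    have h3 : Gg B c z g = Gr (Hf B (fun k => c k * g k)) z := rfl
    rw [← h3, h2, sub_mul, add_mul, Matrix.smul_mul, one_mul] at h1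
    have h4 := congrFun (congrFun h1 a) b
    rw [Matrix.sub_apply, Matrix.add_apply, Matrix.smul_apply, smul_eq_mul,
      Matrix.mul_apply (M := B), Matrix.one_apply] at h4
    rw [← h4]
    ring
  have hst := stein_mat hB S h0 hs hz a b
  rw [← hc] at hst
  simp only [hid] at hst
  have i1 : Integrable (fun g => ∑ y, B a y * Gg B c z g y b) (PP (Ix V)) :=
    integrable_finsetSum _ fun y _ => (Gg_int hB c hz y b).const_mul _
  have i2 : Integrable (fun g => ∑ y, B a y * Gg B c z g y b - z * Gg B c z g a b) (PP (Ix V)) :=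
    i1.sub ((Gg_int hB c hz a b).const_mul _)
  rw [integral_sub (integrable_const _) i2, integral_sub i1 ((Gg_int hB c hz a b).const_mul _),
    integral_finsetSum _ fun y _ => (Gg_int hB c hz y b).const_mul _, integral_const_mul] at hst
  simp only [integral_const_mul, integral_const, probReal_univ, one_smul] at hst
  rw [← sub_eq_iff_eq_add'] 
  linear_combination (-1 : ℂ) * hst

/-- Energy estimate for one column. -/
theorem alg_col {B : Matrix V V ℂ} (hB : B.IsHermitian) (Λ : Finset V) {κ : ℝ} (hκ : 0 < κ)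
    (u f : V → ℂ) (T : ℂ) {z : ℂ} (hη : 0 < z.im) (ht : 0 ≤ T.im) (x : V) (hx : x ∈ Λ)
    (h : ∀ a, (B *ᵥ u) a - z * u a = (if a = x then 1 else 0)
      + (if a ∈ Λ then κ * T * u a + f a else 0)) :
    ‖u x‖ ^ 2 ≤ 2 * (u x).im / (z.im + κ * T.im)
      + (∑ a ∈ Λ, ‖f a‖ ^ 2) / (z.im + κ * T.im) ^ 2 := by
  obtain ⟨ρ, hρ⟩ : ∃ ρ, ρ = z.im + κ * T.im := ⟨_, rfl⟩
  have hρ0 : 0 < ρ := by rw [hρ]; positivity
  obtain ⟨A, hA⟩ : ∃ A, A = ∑ a ∈ Λ, ‖u a‖ ^ 2 := ⟨_, rfl⟩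
  obtain ⟨F, hF⟩ : ∃ F, F = ∑ a ∈ Λ, ‖f a‖ ^ 2 := ⟨_, rfl⟩
  have hsum : ∑ a, conj (u a) * ((B *ᵥ u) a - z * u a)
      = conj (u x) + (κ * T * (A : ℂ) + ∑ a ∈ Λ, conj (u a) * f a) := by
    have e1 : ∀ a, conj (u a) * ((B *ᵥ u) a - z * u a)
        = (if a = x then conj (u a) else 0)
          + (if a ∈ Λ then conj (u a) * (κ * T * u a + f a) else 0) := by
      intro a
      rw [h a, mul_add]
      split_ifs <;> simp
    simp only [e1]
    rw [Finset.sum_add_distrib, Finset.sum_ite_eq' Finset.univ x, if_pos (Finset.mem_univ x),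
      ← Finset.sum_filter, Finset.filter_mem_eq_inter, Finset.univ_inter]
    congr 1
    rw [hA]
    push_cast
    rw [Finset.mul_sum, ← Finset.sum_add_distrib]
    refine Finset.sum_congr rfl fun a _ => ?_
    rw [← Complex.mul_conj' (u a)]
    ring
  have e2 : ∑ a, conj (u a) * ((B *ᵥ u) a - z * u a)
      = ∑ a, conj (u a) * (B *ᵥ u) a - z * ((∑ a, ‖u a‖ ^ 2 : ℝ) : ℂ) := by
    push_cast
    rw [Finset.mul_sum, ← Finset.sum_sub_distrib]
    refine Finset.sum_congr rfl fun a _ => ?_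
    rw [← Complex.mul_conj' (u a)]
    ring
  rw [e2] at hsum
  have h3 := congrArg Complex.im hsum
  rw [Complex.sub_im, herm_im B hB u, Complex.mul_im, Complex.ofReal_im, Complex.ofReal_re,
    Complex.add_im, Complex.add_im, Complex.conj_im, Complex.mul_im, Complex.ofReal_im,
    Complex.ofReal_re, Complex.mul_im, Complex.ofReal_im, Complex.ofReal_re] at h3
  have hAu : A ≤ ∑ a, ‖u a‖ ^ 2 := by
    rw [hA]
    exact Finset.sum_le_sum_of_subset_of_nonneg (Finset.subset_univ _) fun _ _ _ => by positivity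
  have hA0 : 0 ≤ A := by rw [hA]; positivity
  have hF0 : 0 ≤ F := by rw [hF]; positivity
  have hcs : ‖∑ a ∈ Λ, conj (u a) * f a‖ ^ 2 ≤ A * F := by
    have h4 : ‖∑ a ∈ Λ, conj (u a) * f a‖ ≤ ∑ a ∈ Λ, ‖u a‖ * ‖f a‖ := by
      refine (norm_sum_le _ _).trans (le_of_eq ?_)
      exact Finset.sum_congr rfl fun a _ => by rw [norm_mul, RCLike.norm_conj]
    refine (pow_le_pow_left₀ (norm_nonneg _) h4 2).trans ?_
    rw [hA, hF]
    exact Finset.sum_mul_sq_le_sq_mul_sq _ _ _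
  have h5 : -(∑ a ∈ Λ, conj (u a) * f a).im ≤ ‖∑ a ∈ Λ, conj (u a) * f a‖ :=
    (neg_le_abs _).trans (Complex.abs_im_le_norm _)
  obtain ⟨N, hN⟩ : ∃ N, N = ‖∑ a ∈ Λ, conj (u a) * f a‖ := ⟨_, rfl⟩
  rw [← hN] at hcs h5
  have hN0 : 0 ≤ N := by rw [hN]; exact norm_nonneg _
  have h6 : ρ * A ≤ (u x).im + N := by
    have : z.im * A ≤ z.im * ∑ a, ‖u a‖ ^ 2 := mul_le_mul_of_nonneg_left hAu hη.le
    rw [hρ]
    nlinarith [this, h3, h5]
  have h7 : N ≤ ρ * A / 2 + F / (2 * ρ) := by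
    have h8 : N ^ 2 ≤ (ρ * A / 2 + F / (2 * ρ)) ^ 2 := by
      have e : (ρ * A / 2 + F / (2 * ρ)) ^ 2 = A * F + (ρ * A / 2 - F / (2 * ρ)) ^ 2 := by
        field_simp
        ring
      rw [e]
      nlinarith [sq_nonneg (ρ * A / 2 - F / (2 * ρ))]
    exact le_of_sq_le_sq h8 (by positivity)
  have h9 : A ≤ 2 * (u x).im / ρ + F / ρ ^ 2 := by
    have h10 : ρ * A ≤ 2 * (u x).im + F / ρ := by
      have : F / (2 * ρ) = F / ρ / 2 := by field_simp
      linarith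
    have h11 : A ≤ (2 * (u x).im + F / ρ) / ρ := by
      rw [le_div_iff₀ hρ0]; linarith
    refine h11.trans (le_of_eq ?_)
    field_simp
  rw [← hρ, ← hF]
  refine le_trans ?_ h9
  rw [hA]
  exact Finset.single_le_sum (f := fun a => ‖u a‖ ^ 2) (fun _ _ => by positivity) hx

/-- Variance of the local trace. -/
theorem var_tau {B : Matrix V V ℂ} (hB : B.IsHermitian) (Λ : Finset V) {κ : ℝ} (hκ : 0 ≤ κ)
    (S : V → V → ℝ) (h0 : ∀ x y, 0 ≤ S x y) (hs : ∀ x y, S x y = S y x) (hSκ : ∀ x y, S x y ≤ κ)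
    {z : ℂ} (hz : 0 < z.im) :
    ∫ g, ‖∑ y ∈ Λ, Gg B (cS 0 S) z g y y
        - ∫ g', ∑ y ∈ Λ, Gg B (cS 0 S) z g' y y ∂(PP (Ix V))‖ ^ 2 ∂(PP (Ix V))
      ≤ κ / z.im ^ 3 * (∫ g', ∑ y ∈ Λ, Gg B (cS 0 S) z g' y y ∂(PP (Ix V))).im := by
  classical
  have h := var_gen2 hB S h0 hs hz.ne' (fun y => if y ∈ Λ then 1 else 0) (fun y => by
    split_ifs <;> norm_num)
  have e1 : ∀ g, ∑ y, (((if y ∈ Λ then 1 else 0 : ℝ)) : ℂ) * Gg B (cS 0 S) z g y y
      = ∑ y ∈ Λ, Gg B (cS 0 S) z g y y := by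
    intro g
    rw [← Finset.sum_filter_add_sum_filter_not Finset.univ (· ∈ Λ)]
    rw [Finset.filter_mem_eq_inter, Finset.univ_inter]
    have e2 : ∑ y ∈ Finset.univ.filter (fun y => ¬ y ∈ Λ),
        (((if y ∈ Λ then 1 else 0 : ℝ)) : ℂ) * Gg B (cS 0 S) z g y y = 0 := by
      refine Finset.sum_eq_zero fun y hy => ?_
      rw [Finset.mem_filter] at hy
      rw [if_neg hy.2]
      simp
    rw [e2, add_zero]
    exact Finset.sum_congr rfl fun y hy => by rw [if_pos hy]; simp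
  simp only [e1] at h
  refine h.trans ?_
  have iT : ∀ y, Integrable (fun g => Gg B (cS 0 S) z g y y) (PP (Ix V)) := fun y =>
    Gg_int hB _ hz.ne' y y
  have iS : Integrable (fun g => ∑ y ∈ Λ, Gg B (cS 0 S) z g y y) (PP (Ix V)) :=
    integrable_finsetSum _ fun y _ => iT y
  have e3 : (∫ g', ∑ y ∈ Λ, Gg B (cS 0 S) z g' y y ∂(PP (Ix V))).im
      = ∫ g', (∑ y ∈ Λ, Gg B (cS 0 S) z g' y y).im ∂(PP (Ix V)) := by
    have := integral_im iS
    simpa using this.symm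
  rw [e3, ← integral_const_mul]
  refine integral_mono_of_nonneg (Eventually.of_forall fun g => ?_) (iS.im.const_mul _)
    (Eventually.of_forall fun g => ?_)
  · exact Finset.sum_nonneg fun a _ => Finset.sum_nonneg fun b _ => mul_nonneg (h0 a b)
      (sq_nonneg _)
  · show ∑ a, ∑ b, S a b * ‖Gp (fun y => if y ∈ Λ then 1 else 0) (Gg B (cS 0 S) z g) a b‖ ^ 2
      ≤ κ / z.im ^ 3 * (∑ y ∈ Λ, Gg B (cS 0 S) z g y y).im
    set G := Gg B (cS 0 S) z g with hG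
    have hH := Hf_herm hB (fun k => cS 0 S k * g k)
    have h1 : ∀ b, z.im ^ 2 * ∑ a, ‖Gp (fun y => if y ∈ Λ then 1 else 0) G a b‖ ^ 2
        ≤ ∑ y ∈ Λ, ‖G y b‖ ^ 2 := by
      intro b
      have h2 := Gr_vec _ hH hz.ne' (fun y => if y ∈ Λ then G y b else 0)
      have e4 : ∀ a, (Gr (Hf B fun k => cS 0 S k * g k) z *ᵥ
          (fun y => if y ∈ Λ then G y b else 0)) a
          = Gp (fun y => if y ∈ Λ then 1 else 0) G a b := by
        intro a
        rw [Gp_apply, Matrix.mulVec, dotProduct]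
        refine Finset.sum_congr rfl fun y _ => ?_
        show G a y * _ = _
        by_cases hy : y ∈ Λ <;> simp [hy]
      simp only [e4] at h2
      refine h2.trans (le_of_eq ?_)
      rw [← Finset.sum_filter_add_sum_filter_not Finset.univ (· ∈ Λ)]
      rw [Finset.filter_mem_eq_inter, Finset.univ_inter]
      have e5 : ∑ y ∈ Finset.univ.filter (fun y => ¬ y ∈ Λ),
          ‖(if y ∈ Λ then G y b else 0)‖ ^ 2 = 0 := by
        refine Finset.sum_eq_zero fun y hy => ?_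
        rw [Finset.mem_filter] at hy
        rw [if_neg hy.2]
        simp
      rw [e5, add_zero]
      exact Finset.sum_congr rfl fun y hy => by rw [if_pos hy]
    have h3 : ∑ a, ∑ b, S a b * ‖Gp (fun y => if y ∈ Λ then 1 else 0) G a b‖ ^ 2
        ≤ κ * ∑ b, ∑ a, ‖Gp (fun y => if y ∈ Λ then 1 else 0) G a b‖ ^ 2 := by
      rw [Finset.sum_comm, Finset.mul_sum]
      refine Finset.sum_le_sum fun b _ => ?_
      rw [Finset.mul_sum]
      exact Finset.sum_le_sum fun a _ => mul_le_mul_of_nonneg_right (hSκ a b) (sq_nonneg _)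
    have h4 : z.im ^ 2 * ∑ b, ∑ a, ‖Gp (fun y => if y ∈ Λ then 1 else 0) G a b‖ ^ 2
        ≤ ∑ b, ∑ y ∈ Λ, ‖G y b‖ ^ 2 := by
      rw [Finset.mul_sum]
      exact Finset.sum_le_sum fun b _ => h1 b
    have h5 : z.im * ∑ b, ∑ y ∈ Λ, ‖G y b‖ ^ 2 = (∑ y ∈ Λ, G y y).im := by
      rw [Finset.sum_comm, Finset.mul_sum, Complex.im_sum]
      exact Finset.sum_congr rfl fun y _ => ward_row _ hH hz.ne' y
    have h6 : ∑ b, ∑ a, ‖Gp (fun y => if y ∈ Λ then 1 else 0) G a b‖ ^ 2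
        ≤ (∑ y ∈ Λ, G y y).im / z.im ^ 3 := by
      rw [le_div_iff₀ (by positivity), ← h5]
      nlinarith [h4, hz]
    refine h3.trans ((mul_le_mul_of_nonneg_left h6 hκ).trans (le_of_eq ?_))
    ring

/-- The block bound. -/
theorem blk {B : Matrix V V ℂ} (hB : B.IsHermitian) (Λ : Finset V) {κ : ℝ} (hκ : 0 < κ)
    {z : ℂ} (hz : 0 < z.im) (hη : 4 * κ ≤ z.im ^ 2) :
    ∑ x ∈ Λ, ∫ g, ‖Gg B (cS 0 (sB Λ κ)) z g x x‖ ^ 2 ∂(PP (Ix V)) ≤ 3 / κ := by
  set S := sB Λ κ with hS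
  have h0 : ∀ x y, 0 ≤ S x y := fun x y => sB_nonneg Λ hκ.le x y
  have hs : ∀ x y, S x y = S y x := fun x y => sB_symm Λ κ x y
  have hSκ : ∀ x y, S x y ≤ κ := fun x y => sB_le Λ hκ.le x y
  set c := cS 0 S with hc
  obtain ⟨τ, hτ⟩ : ∃ τ : (Ix V → ℝ) → ℂ, τ = fun g => ∑ y ∈ Λ, Gg B c z g y y := ⟨_, rfl⟩
  obtain ⟨T, hT⟩ : ∃ T, T = ∫ g, τ g ∂(PP (Ix V)) := ⟨_, rfl⟩
  have iG : ∀ a b, Integrable (fun g => Gg B c z g a b) (PP (Ix V)) := Gg_int hB c hz.ne'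
  have hcτ : Continuous τ := by
    rw [hτ]; exact continuous_finsetSum _ fun y _ => Gg_cont hB c hz.ne' y y
  have hbτ : ∀ g, ‖τ g‖ ≤ Λ.card * (1 / |z.im|) := by
    intro g
    rw [hτ]
    refine (norm_sum_le _ _).trans ((Finset.sum_le_card_nsmul _ _ (1 / |z.im|) fun y _ =>
      Gg_le hB c hz.ne' g y y).trans (le_of_eq (nsmul_eq_mul _ _)))
  have iτ : Integrable τ (PP (Ix V)) := int_of_bd hcτ.aestronglyMeasurable hbτ
  have hTs : T = ∑ y ∈ Λ, ∫ g, Gg B c z g y y ∂(PP (Ix V)) := by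
    rw [hT, hτ]
    exact integral_finsetSum _ fun y _ => iG y y
  have him : ∀ y, 0 ≤ (∫ g, Gg B c z g y y ∂(PP (Ix V))).im := by
    intro y
    have e : (∫ g, Gg B c z g y y ∂(PP (Ix V))).im = ∫ g, (Gg B c z g y y).im ∂(PP (Ix V)) := by
      have := integral_im (iG y y)
      simpa using this.symm
    rw [e]
    exact integral_nonneg fun g => im_nonneg _ (Hf_herm hB _) hz y
  obtain ⟨t, ht⟩ : ∃ t, t = T.im := ⟨_, rfl⟩
  have ht' : t = ∑ y ∈ Λ, (∫ g, Gg B c z g y y ∂(PP (Ix V))).im := by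
    rw [ht, hTs, Complex.im_sum]
  have ht0 : 0 ≤ t := by rw [ht']; exact Finset.sum_nonneg fun y _ => him y
  obtain ⟨ρ, hρ⟩ : ∃ ρ, ρ = z.im + κ * t := ⟨_, rfl⟩
  have hρ0 : 0 < ρ := by rw [hρ]; positivity
  -- the error
  obtain ⟨f, hf⟩ : ∃ f : V → V → ℂ, f = fun a b => κ * ∫ g, (τ g - T - Gg B c z g a a)
    * Gg B c z g a b ∂(PP (Ix V)) := ⟨_, rfl⟩
  have hDc : ∀ a, Continuous fun g => τ g - T - Gg B c z g a a := fun a =>
    (hcτ.sub continuous_const).sub (Gg_cont hB c hz.ne' a a)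
  have hDb : ∀ a g, ‖τ g - T - Gg B c z g a a‖ ≤ Λ.card * (1 / |z.im|) + ‖T‖ + 1 / |z.im| := by
    intro a g
    refine (norm_sub_le _ _).trans (add_le_add ((norm_sub_le _ _).trans (add_le_add (hbτ g)
      le_rfl)) (Gg_le hB c hz.ne' g a a))
  have hDb' : ∀ a b g, ‖Gg B c z g a b‖ ≤ Λ.card * (1 / |z.im|) + ‖T‖ + 1 / |z.im| := by
    intro a b g
    refine (Gg_le hB c hz.ne' g a b).trans ?_
    have : 0 ≤ Λ.card * (1 / |z.im|) + ‖T‖ := by positivity
    linarith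
  have heq : ∀ a b, (B *ᵥ fun a => ∫ g, Gg B c z g a b ∂(PP (Ix V))) a
      - z * ∫ g, Gg B c z g a b ∂(PP (Ix V)) = (if a = b then 1 else 0)
      + (if a ∈ Λ then κ * T * (∫ g, Gg B c z g a b ∂(PP (Ix V))) + f a b else 0) := by
    intro a b
    have h1 := avg_eq hB S h0 hs hz.ne' a b
    rw [← hc] at h1
    have e1 : (B *ᵥ fun a => ∫ g, Gg B c z g a b ∂(PP (Ix V))) a
        = ∑ y, B a y * ∫ g, Gg B c z g y b ∂(PP (Ix V)) := rfl
    rw [e1, h1]
    congr 1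
    have e2 : ∀ g, (∑ y, (S a y : ℂ) * Gg B c z g y y) * Gg B c z g a b
        = if a ∈ Λ then κ * T * Gg B c z g a b
          + κ * ((τ g - T - Gg B c z g a a) * Gg B c z g a b) else 0 := by
      intro g
      rw [hS, sB_sum Λ κ a (fun y => Gg B c z g y y)]
      by_cases ha : a ∈ Λ
      · rw [if_pos ha, if_pos ha, hτ]
        ring
      · rw [if_neg ha, if_neg ha, zero_mul]
    simp only [e2]
    by_cases ha : a ∈ Λ
    · simp only [if_pos ha]
      have i2 : Integrable (fun g => (τ g - T - Gg B c z g a a) * Gg B c z g a b) (PP (Ix V)) := by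
        refine int_of_bd ((hDc a).mul (Gg_cont hB c hz.ne' a b)).aestronglyMeasurable
          (C := (Λ.card * (1 / |z.im|) + ‖T‖ + 1 / |z.im|) * (1 / |z.im|)) fun g => ?_
        rw [norm_mul]
        exact mul_le_mul (hDb a g) (Gg_le hB c hz.ne' g a b) (norm_nonneg _) (by positivity)
      rw [integral_add ((iG a b).const_mul _) (i2.const_mul _), integral_const_mul,
        integral_const_mul, hf]
    · simp only [if_neg ha, integral_zero]
  -- column estimates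
  have hcol : ∀ x ∈ Λ, ‖∫ g, Gg B c z g x x ∂(PP (Ix V))‖ ^ 2
      ≤ 2 * (∫ g, Gg B c z g x x ∂(PP (Ix V))).im / ρ + (∑ a ∈ Λ, ‖f a x‖ ^ 2) / ρ ^ 2 := by
    intro x hx
    have := alg_col hB Λ hκ (fun a => ∫ g, Gg B c z g a x ∂(PP (Ix V))) (fun a => f a x) T hz
      (by rw [← ht]; exact ht0) x hx (fun a => heq a x)
    rw [← ht, ← hρ] at this
    exact this
  -- the error sum
  have hvar : ∫ g, ‖τ g - T‖ ^ 2 ∂(PP (Ix V)) ≤ κ / z.im ^ 3 * t := by
    have := var_tau hB Λ hκ.le S h0 hs hSκ hz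
    rw [ht, hT, hτ]
    exact this
  have hDv : ∀ a, ∫ g, ‖τ g - T - Gg B c z g a a‖ ^ 2 ∂(PP (Ix V))
      ≤ 2 * (κ / z.im ^ 3 * t) + 2 / z.im ^ 2 := by
    intro a
    have i1 : Integrable (fun g => ‖τ g - T‖ ^ 2) (PP (Ix V)) :=
      int_sq _ _ (hcτ.sub continuous_const).aestronglyMeasurable (Λ.card * (1 / |z.im|) + ‖T‖)
        fun g => (norm_sub_le _ _).trans (add_le_add (hbτ g) le_rfl)
    have h1 : ∫ g, ‖τ g - T - Gg B c z g a a‖ ^ 2 ∂(PP (Ix V))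
        ≤ ∫ g, (2 * ‖τ g - T‖ ^ 2 + 2 / z.im ^ 2) ∂(PP (Ix V)) := by
      refine integral_mono (int_sq _ _ (hDc a).aestronglyMeasurable _ (hDb a))
        ((i1.const_mul 2).add (integrable_const _)) fun g => ?_
      have h2 : ‖τ g - T - Gg B c z g a a‖ ≤ ‖τ g - T‖ + ‖Gg B c z g a a‖ := norm_sub_le _ _
      have h3 : ‖Gg B c z g a a‖ ≤ 1 / z.im := by
        have := Gg_le hB c hz.ne' g a a
        rwa [abs_of_pos hz] at this
      have h4 : ‖Gg B c z g a a‖ ^ 2 ≤ 1 / z.im ^ 2 := by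
        refine (pow_le_pow_left₀ (norm_nonneg _) h3 2).trans (le_of_eq ?_)
        field_simp
      have h5 : ‖τ g - T - Gg B c z g a a‖ ^ 2 ≤ (‖τ g - T‖ + ‖Gg B c z g a a‖) ^ 2 :=
        pow_le_pow_left₀ (norm_nonneg _) h2 2
      have h6 : (2 : ℝ) / z.im ^ 2 = 2 * (1 / z.im ^ 2) := by ring
      show ‖τ g - T - Gg B c z g a a‖ ^ 2 ≤ 2 * ‖τ g - T‖ ^ 2 + 2 / z.im ^ 2
      rw [h6]
      nlinarith [sq_nonneg (‖τ g - T‖ - ‖Gg B c z g a a‖)]
    rw [integral_add (i1.const_mul 2) (integrable_const _), integral_const_mul] at h1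
    simp only [integral_const, probReal_univ, one_smul] at h1
    linarith
  have hferr : ∀ a x, ‖f a x‖ ^ 2 ≤ κ ^ 2 * ((2 * (κ / z.im ^ 3 * t) + 2 / z.im ^ 2)
      * ∫ g, ‖Gg B c z g a x‖ ^ 2 ∂(PP (Ix V))) := by
    intro a x
    rw [hf]
    simp only
    rw [norm_mul, mul_pow, Complex.norm_real, Real.norm_of_nonneg hκ.le]
    refine mul_le_mul_of_nonneg_left ?_ (by positivity)
    refine (cs_int _ _ _ (hDc a).aestronglyMeasurable
      (Gg_cont hB c hz.ne' a x).aestronglyMeasurable _ (hDb a) (hDb' a x)).trans ?_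
    exact mul_le_mul_of_nonneg_right (hDv a) (integral_nonneg fun g => sq_nonneg _)
  have hward : ∀ a, ∑ x ∈ Λ, ∫ g, ‖Gg B c z g a x‖ ^ 2 ∂(PP (Ix V))
      ≤ (∫ g, Gg B c z g a a ∂(PP (Ix V))).im / z.im := by
    intro a
    have i1 : ∀ x, Integrable (fun g => ‖Gg B c z g a x‖ ^ 2) (PP (Ix V)) := fun x =>
      int_sq _ _ (Gg_cont hB c hz.ne' a x).aestronglyMeasurable _ (Gg_le hB c hz.ne' · a x)
    rw [← integral_finsetSum _ fun x _ => i1 x]
    have e : (∫ g, Gg B c z g a a ∂(PP (Ix V))).im = ∫ g, (Gg B c z g a a).im ∂(PP (Ix V)) := by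
      have := integral_im (iG a a)
      simpa using this.symm
    rw [e, ← integral_div]
    refine integral_mono (integrable_finsetSum _ fun x _ => i1 x) ((iG a a).im.div_const _)
      fun g => ?_
    show ∑ x ∈ Λ, ‖Gg B c z g a x‖ ^ 2 ≤ (Gg B c z g a a).im / z.im
    have hw : z.im * ∑ y, ‖Gg B c z g a y‖ ^ 2 = (Gg B c z g a a).im :=
      ward_row (Hf B fun k => c k * g k) (Hf_herm hB _) hz.ne' a
    rw [le_div_iff₀ hz, ← hw, mul_comm]
    refine mul_le_mul_of_nonneg_left ?_ hz.le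
    exact Finset.sum_le_sum_of_subset_of_nonneg (Finset.subset_univ _) fun _ _ _ => sq_nonneg _
  have hF : ∑ x ∈ Λ, ∑ a ∈ Λ, ‖f a x‖ ^ 2
      ≤ κ ^ 2 * ((2 * (κ / z.im ^ 3 * t) + 2 / z.im ^ 2) * (t / z.im)) := by
    rw [Finset.sum_comm]
    have h1 : ∀ a ∈ Λ, ∑ x ∈ Λ, ‖f a x‖ ^ 2
        ≤ κ ^ 2 * ((2 * (κ / z.im ^ 3 * t) + 2 / z.im ^ 2)
          * ((∫ g, Gg B c z g a a ∂(PP (Ix V))).im / z.im)) := by
      intro a _
      refine (Finset.sum_le_sum fun x _ => hferr a x).trans ?_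
      rw [← Finset.mul_sum, ← Finset.mul_sum]
      refine mul_le_mul_of_nonneg_left (mul_le_mul_of_nonneg_left (hward a) ?_) (by positivity)
      positivity
    refine (Finset.sum_le_sum h1).trans (le_of_eq ?_)
    rw [← Finset.mul_sum, ← Finset.mul_sum, ← Finset.sum_div, ← ht']
  have hmean : ∑ x ∈ Λ, ‖∫ g, Gg B c z g x x ∂(PP (Ix V))‖ ^ 2 ≤ 9 / 4 / κ := by
    refine (Finset.sum_le_sum hcol).trans ?_
    rw [Finset.sum_add_distrib, ← Finset.sum_div, ← Finset.sum_div, ← Finset.mul_sum, ← ht']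
    have h1 : 2 * t / ρ ≤ 2 / κ := by
      rw [div_le_div_iff₀ hρ0 hκ, hρ]
      nlinarith
    have h2 : (∑ x ∈ Λ, ∑ a ∈ Λ, ‖f a x‖ ^ 2) / ρ ^ 2 ≤ 1 / 4 / κ := by
      rw [div_le_iff₀ (by positivity)]
      refine hF.trans ?_
      obtain ⟨η, hηd⟩ : ∃ η, η = z.im := ⟨_, rfl⟩
      rw [← hηd] at hz hη hρ ⊢
      have h3 : κ * t ≤ ρ := by rw [hρ]; linarith
      have h4 : η ≤ ρ := by rw [hρ]; nlinarith
      have h5 : κ ^ 2 * ((2 * (κ / η ^ 3 * t) + 2 / η ^ 2) * (t / η))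
          = 2 * κ * (κ * t) * (κ * t) / η ^ 4 + 2 * κ * (κ * t) * η / η ^ 4 := by
        field_simp
      rw [h5]
      have h6 : 2 * κ * (κ * t) * (κ * t) / η ^ 4 ≤ 2 * κ * ρ ^ 2 / η ^ 4 := by
        refine div_le_div_of_nonneg_right ?_ (by positivity)
        have : (κ * t) * (κ * t) ≤ ρ * ρ := mul_le_mul h3 h3 (by positivity) hρ0.le
        nlinarith
      have h7 : 2 * κ * (κ * t) * η / η ^ 4 ≤ 2 * κ * ρ ^ 2 / η ^ 4 := by
        refine div_le_div_of_nonneg_right ?_ (by positivity)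
        have : (κ * t) * η ≤ ρ * ρ := mul_le_mul h3 h4 hz.le hρ0.le
        nlinarith
      have h8 : 2 * κ * ρ ^ 2 / η ^ 4 ≤ 1 / 8 / κ * ρ ^ 2 := by
        rw [div_le_iff₀ (by positivity)]
        have h9 : 16 * κ ^ 2 ≤ η ^ 4 := by nlinarith
        have h10 : 1 / 8 / κ * ρ ^ 2 * η ^ 4 = ρ ^ 2 / (8 * κ) * η ^ 4 := by field_simp
        have h11 : ρ ^ 2 / (8 * κ) * (16 * κ ^ 2) ≤ ρ ^ 2 / (8 * κ) * η ^ 4 :=
          mul_le_mul_of_nonneg_left h9 (by positivity)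
        have h12 : ρ ^ 2 / (8 * κ) * (16 * κ ^ 2) = 2 * κ * ρ ^ 2 := by field_simp; ring
        rw [h10]
        linarith
      have h13 : 1 / 4 / κ * ρ ^ 2 = 1 / 8 / κ * ρ ^ 2 + 1 / 8 / κ * ρ ^ 2 := by ring
      rw [h13]
      linarith
    have h3 : 9 / 4 / κ = 2 / κ + 1 / 4 / κ := by ring
    rw [h3]
    exact add_le_add h1 h2
  -- second moments
  have hsec : ∀ x, ∫ g, ‖Gg B c z g x x‖ ^ 2 ∂(PP (Ix V))
      ≤ 4 / 3 * ‖∫ g, Gg B c z g x x ∂(PP (Ix V))‖ ^ 2 := by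
    intro x
    have h1 := var_split (PP (Ix V)) (fun g => Gg B c z g x x)
      (Gg_cont hB c hz.ne' x x).aestronglyMeasurable _ (Gg_le hB c hz.ne' · x x) 0
    simp only [sub_zero] at h1
    have h2 := var_one2 hB S h0 hs κ hSκ hz x
    rw [← hc] at h2
    have h3 : κ / z.im ^ 2 ≤ 1 / 4 := by
      rw [div_le_div_iff₀ (by positivity) (by norm_num)]
      linarith
    have h4 : 0 ≤ ∫ g, ‖Gg B c z g x x‖ ^ 2 ∂(PP (Ix V)) := integral_nonneg fun g => sq_nonneg _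
    have h5 : κ / z.im ^ 2 * ∫ g, ‖Gg B c z g x x‖ ^ 2 ∂(PP (Ix V))
        ≤ 1 / 4 * ∫ g, ‖Gg B c z g x x‖ ^ 2 ∂(PP (Ix V)) := mul_le_mul_of_nonneg_right h3 h4
    linarith
  refine (Finset.sum_le_sum fun x _ => hsec x).trans ?_
  rw [← Finset.mul_sum]
  have h1 : 3 / κ = 4 / 3 * (9 / 4 / κ) := by ring
  rw [h1]
  exact mul_le_mul_of_nonneg_left hmean (by norm_num)

end

end Pool.Agent.T2H19
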