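import Mathlib

/-! Hermitian infinite matrices with square summable columns. -/

set_option autoImplicit false

namespace Pool.Agent.T2H19

open MeasureTheory Filter Topology
open scoped BigOperators ComplexConjugate

noncomputable section

variable {Γ : Type} [DecidableEq Γ]

/-- The Hilbert space. -/
abbrev E2 (Γ : Type) : Type := lp (fun _ : Γ => ℂ) 2

/-- Hermitian with square summable columns. -/
structure Adm (H : Γ → Γ → ℂ) : Prop where
  herm : ∀ x y, H x y = conj (H y x)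
  sm : ∀ y, Summable fun x => ‖H x y‖ ^ 2

theorem mem2 {f : Γ → ℂ} (h : Summable fun x => ‖f x‖ ^ 2) : Memℓp f 2 := by
  refine memℓp_gen ?_
  simpa using h

theorem sm2 (u : E2 Γ) : Summable fun x => ‖u x‖ ^ 2 := by
  have h := (lp.memℓp u).summable (by norm_num)
  simpa using h

theorem norm2 (u : E2 Γ) : ‖u‖ ^ 2 = ∑' x, ‖u x‖ ^ 2 := by
  have h := lp.norm_rpow_eq_tsum (p := 2) (by norm_num) u
  simpa using h

theorem coord_le (u : E2 Γ) (x : Γ) : ‖u x‖ ≤ ‖u‖ :=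
  lp.norm_apply_le_norm (by norm_num) u x

/-- Columns. -/
def cl (H : Γ → Γ → ℂ) (hH : Adm H) (y : Γ) : E2 Γ := ⟨fun x => H x y, mem2 (hH.sm y)⟩

theorem cl_apply (H : Γ → Γ → ℂ) (hH : Adm H) (y x : Γ) : cl H hH y x = H x y := rfl

/-- Unit vectors. -/
def dl (y : Γ) : E2 Γ := lp.single 2 y (1 : ℂ)

theorem dl_apply (y x : Γ) : (dl y : E2 Γ) x = if x = y then 1 else 0 := by
  unfold dl
  by_cases h : x = y
  · subst h; rw [lp.single_apply_self, if_pos rfl]
  · rw [lp.single_apply_ne _ _ _ h, if_neg h]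

theorem inner_dl (x : Γ) (u : E2 Γ) : inner ℂ (dl x) u = u x := by
  unfold dl
  rw [lp.inner_single_left]
  simp

/-- Finitely supported vectors. -/
def Jf : (Γ →₀ ℂ) →ₗ[ℂ] E2 Γ := Finsupp.linearCombination ℂ dl

/-- The operator on finitely supported vectors. -/
def T0 (H : Γ → Γ → ℂ) (hH : Adm H) : (Γ →₀ ℂ) →ₗ[ℂ] E2 Γ := Finsupp.linearCombination ℂ (cl H hH)

/-- `H - z` on finitely supported vectors. -/
def Tz (H : Γ → Γ → ℂ) (hH : Adm H) (z : ℂ) : (Γ →₀ ℂ) →ₗ[ℂ] E2 Γ := T0 H hH - z • Jf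

theorem sum_coord (s : Finset Γ) (g : Γ → E2 Γ) (x : Γ) : (∑ y ∈ s, g y) x = ∑ y ∈ s, g y x := by
  rw [lp.coeFn_sum, Finset.sum_apply]

theorem Jf_apply (f : Γ →₀ ℂ) (x : Γ) : Jf f x = f x := by
  unfold Jf
  rw [Finsupp.linearCombination_apply]
  unfold Finsupp.sum
  rw [sum_coord]
  have : ∀ y, (f y • (dl y : E2 Γ)) x = if x = y then f y else 0 := by
    intro y
    rw [lp.coeFn_smul, Pi.smul_apply, dl_apply]
    simp
  simp only [this]
  rw [Finset.sum_ite_eq]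
  split_ifs with h
  · rfl
  · exact (Finsupp.notMem_support_iff.1 h).symm

theorem T0_apply (H : Γ → Γ → ℂ) (hH : Adm H) (f : Γ →₀ ℂ) (x : Γ) :
    T0 H hH f x = ∑ y ∈ f.support, f y * H x y := by
  unfold T0
  rw [Finsupp.linearCombination_apply]
  unfold Finsupp.sum
  rw [sum_coord]
  rfl

theorem Tz_apply (H : Γ → Γ → ℂ) (hH : Adm H) (z : ℂ) (f : Γ →₀ ℂ) (x : Γ) :
    Tz H hH z f x = ∑ y ∈ f.support, f y * H x y - z * f x := by
  have : Tz H hH z f = T0 H hH f - z • Jf f := rfl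
  rw [this, lp.coeFn_sub, Pi.sub_apply, T0_apply, lp.coeFn_smul, Pi.smul_apply, Jf_apply]
  rfl

theorem inner_Jf (f : Γ →₀ ℂ) (v : E2 Γ) : inner ℂ (Jf f) v = ∑ x ∈ f.support, conj (f x) * v x := by
  unfold Jf
  rw [Finsupp.linearCombination_apply]
  unfold Finsupp.sum
  rw [sum_inner]
  refine Finset.sum_congr rfl fun x _ => ?_
  rw [inner_smul_left, inner_dl]

theorem T0_symm (H : Γ → Γ → ℂ) (hH : Adm H) (f : Γ →₀ ℂ) : (inner ℂ (Jf f) (T0 H hH f)).im = 0 := by
  apply Complex.conj_eq_iff_im.1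
  rw [inner_Jf]
  simp only [T0_apply, map_sum, map_mul, Complex.conj_conj, Finset.mul_sum]
  rw [Finset.sum_comm]
  refine Finset.sum_congr rfl fun x _ => Finset.sum_congr rfl fun y _ => ?_
  rw [hH.herm x y]
  ring

theorem Tz_lower (H : Γ → Γ → ℂ) (hH : Adm H) (z : ℂ) (f : Γ →₀ ℂ) :
    |z.im| * ‖Jf f‖ ≤ ‖Tz H hH z f‖ := by
  have h1 : inner ℂ (Jf f) (Tz H hH z f) = inner ℂ (Jf f) (T0 H hH f) - z * ((‖Jf f‖ ^ 2 : ℝ) : ℂ) := by
    have : Tz H hH z f = T0 H hH f - z • Jf f := rfl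
    rw [this, inner_sub_right, inner_smul_right, inner_self_eq_norm_sq_to_K]
    push_cast
    rfl
  have h2 := congrArg Complex.im h1
  rw [Complex.sub_im, T0_symm, Complex.mul_im, Complex.ofReal_im, Complex.ofReal_re, mul_zero,
    zero_add, zero_sub] at h2
  have h3 : |z.im| * ‖Jf f‖ ^ 2 ≤ ‖Jf f‖ * ‖Tz H hH z f‖ := by
    have h4 := (Complex.abs_im_le_norm (inner ℂ (Jf f) (Tz H hH z f))).trans (norm_inner_le_norm _ _)
    rw [h2, abs_neg, abs_mul, abs_of_nonneg (sq_nonneg ‖Jf f‖)] at h4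
    exact h4
  rcases eq_or_lt_of_le (norm_nonneg (Jf f)) with h | h
  · rw [← h, mul_zero]; exact norm_nonneg _
  · rw [sq, ← mul_assoc, mul_comm (|z.im| * _)] at h3
    have := le_of_mul_le_mul_left h3 h
    exact this

/-- Green functions in `ℓ²`. -/
def IsU (H : Γ → Γ → ℂ) (hH : Adm H) (z : ℂ) (x : Γ) (U : E2 Γ) : Prop :=
  ∀ y, inner ℂ (cl H hH y) U - z * U y = if y = x then 1 else 0

/-- Approximability of the unit vector. -/
def Ap (H : Γ → Γ → ℂ) (hH : Adm H) (z : ℂ) (x : Γ) : Prop :=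
  ∀ δ : ℝ, 0 < δ → ∃ f : Γ →₀ ℂ, ‖Tz H hH z f - dl x‖ ≤ δ

theorem inner_cl_Jf (H : Γ → Γ → ℂ) (hH : Adm H) (z : ℂ) (f : Γ →₀ ℂ) (y : Γ) :
    inner ℂ (cl H hH y) (Jf f) - z * Jf f y = Tz H hH z f y := by
  rw [← inner_conj_symm, inner_Jf, Tz_apply, Jf_apply]
  congr 1
  rw [map_sum]
  refine Finset.sum_congr rfl fun x _ => ?_
  rw [map_mul, Complex.conj_conj, cl_apply, hH.herm y x]

theorem exists_U (H : Γ → Γ → ℂ) (hH : Adm H) {z : ℂ} (hz : z.im ≠ 0) (x : Γ) (h : Ap H hH z x) :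
    ∃ U : E2 Γ, IsU H hH z x U ∧ ∀ f : Γ →₀ ℂ, |z.im| * ‖Jf f - U‖ ≤ ‖Tz H hH z f - dl x‖ := by
  have hz' : 0 < |z.im| := abs_pos.2 hz
  choose f hf using fun n : ℕ => h (1 / ((n : ℝ) + 1)) (by positivity)
  have hlim : Tendsto (fun n : ℕ => 1 / ((n : ℝ) + 1)) atTop (𝓝 0) :=
    tendsto_one_div_add_atTop_nhds_zero_nat
  have hlow : ∀ a b : Γ →₀ ℂ, |z.im| * ‖Jf a - Jf b‖ ≤ ‖Tz H hH z a - Tz H hH z b‖ := by
    intro a b
    have := Tz_lower H hH z (a - b)
    rwa [map_sub, map_sub] at this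
  have hTl : Tendsto (fun n => Tz H hH z (f n)) atTop (𝓝 (dl x)) := by
    rw [tendsto_iff_norm_sub_tendsto_zero]
    exact squeeze_zero (fun _ => norm_nonneg _) hf hlim
  have hcs : CauchySeq fun n => Jf (f n) := by
    have hT := hTl.cauchySeq
    rw [Metric.cauchySeq_iff] at hT ⊢
    intro ε hε
    obtain ⟨N, hN⟩ := hT (|z.im| * ε) (mul_pos hz' hε)
    refine ⟨N, fun m hm n hn => ?_⟩
    have h1 := hN m hm n hn
    rw [dist_eq_norm] at h1 ⊢
    have h2 := (hlow (f m) (f n)).trans_lt h1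
    exact lt_of_mul_lt_mul_left h2 hz'.le
  obtain ⟨U, hU⟩ := cauchySeq_tendsto_of_complete hcs
  refine ⟨U, fun y => ?_, fun g => ?_⟩
  · have e1 : Tendsto (fun n => inner ℂ (cl H hH y) (Jf (f n)) - z * Jf (f n) y) atTop
        (𝓝 (inner ℂ (cl H hH y) U - z * U y)) := by
      refine Tendsto.sub ?_ (Tendsto.const_mul z ?_)
      · exact (tendsto_const_nhds).inner hU
      · have : Tendsto (fun n => inner ℂ (dl y) (Jf (f n))) atTop (𝓝 (inner ℂ (dl y) U)) :=
          (tendsto_const_nhds).inner hU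
        simpa only [inner_dl] using this
    have e2 : Tendsto (fun n => inner ℂ (cl H hH y) (Jf (f n)) - z * Jf (f n) y) atTop
        (𝓝 ((dl x : E2 Γ) y)) := by
      simp only [inner_cl_Jf]
      have : Tendsto (fun n => inner ℂ (dl y) (Tz H hH z (f n))) atTop
          (𝓝 (inner ℂ (dl y) (dl x))) := (tendsto_const_nhds).inner hTl
      simpa only [inner_dl] using this
    rw [tendsto_nhds_unique e1 e2, dl_apply]
  · have e1 : Tendsto (fun n => |z.im| * ‖Jf g - Jf (f n)‖) atTop (𝓝 (|z.im| * ‖Jf g - U‖)) :=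
      ((tendsto_const_nhds.sub hU).norm).const_mul _
    have e2 : Tendsto (fun n => ‖Tz H hH z g - Tz H hH z (f n)‖) atTop
        (𝓝 (‖Tz H hH z g - dl x‖)) := (tendsto_const_nhds.sub hTl).norm
    exact le_of_tendsto_of_tendsto' e1 e2 fun n => hlow g (f n)

theorem inner_Tz (H : Γ → Γ → ℂ) (hH : Adm H) (z : ℂ) (f : Γ →₀ ℂ) (W : E2 Γ) :
    inner ℂ (Tz H hH (conj z) f) W
      = ∑ y ∈ f.support, conj (f y) * (inner ℂ (cl H hH y) W - z * W y) := by
  have h1 : Tz H hH (conj z) f = T0 H hH f - conj z • Jf f := rfl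
  rw [h1, inner_sub_left, inner_smul_left, inner_Jf, Complex.conj_conj]
  have h2 : inner ℂ (T0 H hH f) W = ∑ y ∈ f.support, conj (f y) * inner ℂ (cl H hH y) W := by
    unfold T0
    rw [Finsupp.linearCombination_apply]
    unfold Finsupp.sum
    rw [sum_inner]
    refine Finset.sum_congr rfl fun x _ => ?_
    rw [inner_smul_left]
  rw [h2, Finset.mul_sum, ← Finset.sum_sub_distrib]
  refine Finset.sum_congr rfl fun y _ => ?_
  ring

theorem unique_U (H : Γ → Γ → ℂ) (hH : Adm H) (z : ℂ) (x : Γ) (h : ∀ y, Ap H hH (conj z) y)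
    (U U' : E2 Γ) (hU : IsU H hH z x U) (hU' : IsU H hH z x U') : U = U' := by
  have hW : ∀ y, inner ℂ (cl H hH y) (U - U') - z * (U - U') y = 0 := by
    intro y
    rw [inner_sub_right, lp.coeFn_sub, Pi.sub_apply]
    have h1 := hU y
    have h2 := hU' y
    linear_combination h1 - h2
  have h0 : ∀ y, (U - U') y = 0 := by
    intro y
    have h1 : ∀ δ : ℝ, 0 < δ → ‖(U - U') y‖ ≤ δ * ‖U - U'‖ := by
      intro δ hδ
      obtain ⟨f, hf⟩ := h y δ hδ
      have h2 : inner ℂ (Tz H hH (conj z) f) (U - U') = 0 := by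
        rw [inner_Tz]
        exact Finset.sum_eq_zero fun w _ => by rw [hW, mul_zero]
      have h3 : (U - U') y = -inner ℂ (Tz H hH (conj z) f - dl y) (U - U') := by
        rw [inner_sub_left, h2, zero_sub, neg_neg, inner_dl]
      rw [h3, norm_neg]
      exact (norm_inner_le_norm _ _).trans (mul_le_mul_of_nonneg_right hf (norm_nonneg _))
    have h4 : ‖(U - U') y‖ ≤ 0 := by
      refine le_of_forall_pos_le_add fun ε hε => ?_
      have := h1 (ε / (‖U - U'‖ + 1)) (by positivity)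
      refine this.trans ?_
      rw [zero_add, div_mul_eq_mul_div, div_le_iff₀ (by positivity)]
      nlinarith [norm_nonneg (U - U')]
    exact norm_le_zero_iff.1 h4
  have : U - U' = 0 := lp.ext (funext h0)
  exact sub_eq_zero.1 this

/-- Approximability propagates in the half planes. -/
theorem Ap_dense (H : Γ → Γ → ℂ) (hH : Adm H) {z z0 : ℂ} (hz : ‖z - z0‖ < |z0.im|)
    (h : ∀ x, Ap H hH z0 x) : ∀ x, Ap H hH z x := by
  have hz0 : 0 < |z0.im| := (norm_nonneg _).trans_lt hz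
  -- density of the range at `z0`
  have hd0 : (LinearMap.range (Tz H hH z0)).topologicalClosure = ⊤ := by
    rw [Submodule.topologicalClosure_eq_top_iff, Submodule.eq_bot_iff]
    intro W hW
    have h0 : ∀ y, W y = 0 := by
      intro y
      have h1 : ∀ δ : ℝ, 0 < δ → ‖W y‖ ≤ δ * ‖W‖ := by
        intro δ hδ
        obtain ⟨f, hf⟩ := h y δ hδ
        have h2 : inner ℂ (Tz H hH z0 f) W = 0 :=
          (Submodule.mem_orthogonal _ _).1 hW _ (LinearMap.mem_range_self _ f)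
        have h3 : W y = -inner ℂ (Tz H hH z0 f - dl y) W := by
          rw [inner_sub_left, h2, zero_sub, neg_neg, inner_dl]
        rw [h3, norm_neg]
        exact (norm_inner_le_norm _ _).trans (mul_le_mul_of_nonneg_right hf (norm_nonneg _))
      have h4 : ‖W y‖ ≤ 0 := by
        refine le_of_forall_pos_le_add fun ε hε => ?_
        have := h1 (ε / (‖W‖ + 1)) (by positivity)
        refine this.trans ?_
        rw [zero_add, div_mul_eq_mul_div, div_le_iff₀ (by positivity)]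
        nlinarith [norm_nonneg W]
      exact norm_le_zero_iff.1 h4
    exact lp.ext (funext h0)
  have hd : (LinearMap.range (Tz H hH z)).topologicalClosure = ⊤ := by
    rw [Submodule.topologicalClosure_eq_top_iff, Submodule.eq_bot_iff]
    intro W hW
    by_contra hne
    have hWn : 0 < ‖W‖ := norm_pos_iff.2 hne
    obtain ⟨ρ, hρ⟩ : ∃ ρ, ρ = ‖z - z0‖ / |z0.im| := ⟨_, rfl⟩
    have hρ0 : 0 ≤ ρ := by rw [hρ]; positivity
    have hρ1 : ρ < 1 := by rw [hρ, div_lt_one hz0]; exact hz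
    obtain ⟨ε, hε⟩ : ∃ ε, ε = (1 - ρ) / 4 := ⟨_, rfl⟩
    have hε0 : 0 < ε := by rw [hε]; linarith
    have hmem : W ∈ closure (LinearMap.range (Tz H hH z0) : Set (E2 Γ)) := by
      have : W ∈ (LinearMap.range (Tz H hH z0)).topologicalClosure := by rw [hd0]; trivial
      exact this
    obtain ⟨v, ⟨f, rfl⟩, hf⟩ := Metric.mem_closure_iff.1 hmem (ε * ‖W‖) (by positivity)
    rw [dist_eq_norm, norm_sub_rev] at hf
    have h1 : inner ℂ (Tz H hH z f) W = 0 :=
      (Submodule.mem_orthogonal _ _).1 hW _ (LinearMap.mem_range_self _ f)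
    have h2 : Tz H hH z f = Tz H hH z0 f + (z0 - z) • Jf f := by
      have e1 : Tz H hH z f = T0 H hH f - z • Jf f := rfl
      have e2 : Tz H hH z0 f = T0 H hH f - z0 • Jf f := rfl
      rw [e1, e2, sub_smul]; abel
    have h3 : ‖Jf f‖ ≤ (1 + ε) * ‖W‖ / |z0.im| := by
      rw [le_div_iff₀ hz0, mul_comm]
      refine (Tz_lower H hH z0 f).trans ?_
      have := norm_add_le (Tz H hH z0 f - W) W
      rw [sub_add_cancel] at this
      linarith
    have h4 : ‖W‖ ^ 2 ≤ ε * ‖W‖ * ‖W‖ + ‖z - z0‖ * ((1 + ε) * ‖W‖ / |z0.im|) * ‖W‖ := by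
      have e1 : inner ℂ W W = -inner ℂ (Tz H hH z0 f - W) W - inner ℂ ((z0 - z) • Jf f) W := by
        rw [h2, inner_add_left] at h1
        rw [inner_sub_left]
        linear_combination h1
      have e2 : ‖W‖ ^ 2 = ‖inner ℂ W W‖ := by
        rw [inner_self_eq_norm_sq_to_K, norm_pow]
        simp
      rw [e2, e1]
      refine (norm_sub_le _ _).trans (add_le_add ?_ ?_)
      · rw [norm_neg]
        exact (norm_inner_le_norm _ _).trans (mul_le_mul_of_nonneg_right hf.le (norm_nonneg _))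
      · refine (norm_inner_le_norm _ _).trans (mul_le_mul_of_nonneg_right ?_ (norm_nonneg _))
        rw [norm_smul, norm_sub_rev]
        exact mul_le_mul_of_nonneg_left h3 (norm_nonneg _)
    have h5 : ‖z - z0‖ * ((1 + ε) * ‖W‖ / |z0.im|) * ‖W‖ = ρ * (1 + ε) * ‖W‖ ^ 2 := by
      rw [hρ]; field_simp
    rw [h5] at h4
    have h6 : (1 - ε - ρ * (1 + ε)) * ‖W‖ ^ 2 ≤ 0 := by nlinarith
    have h7 : 0 < 1 - ε - ρ * (1 + ε) := by
      rw [hε]
      nlinarith
    have h8 := mul_pos h7 (by positivity : 0 < ‖W‖ ^ 2)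
    linarith
  intro x δ hδ
  have hmem : (dl x : E2 Γ) ∈ closure (LinearMap.range (Tz H hH z) : Set (E2 Γ)) := by
    have : (dl x : E2 Γ) ∈ (LinearMap.range (Tz H hH z)).topologicalClosure := by rw [hd]; trivial
    exact this
  obtain ⟨v, ⟨f, rfl⟩, hf⟩ := Metric.mem_closure_iff.1 hmem δ hδ
  rw [dist_eq_norm, norm_sub_rev] at hf
  exact ⟨f, hf.le⟩

end

end Pool.Agent.T2H19
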