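import Pool.Agent.T2H19.Res

/-! Continuity, derivatives and rank one perturbations of resolvents. -/

set_option autoImplicit false

namespace Pool.Agent.T2H19

open Matrix Filter Topology
open scoped BigOperators ComplexConjugate

noncomputable section

variable {V : Type*} [Fintype V] [DecidableEq V]

theorem Gr_cont {X : Type*} [TopologicalSpace X] (M : X → Matrix V V ℂ) (z : X → ℂ)
    (hM : ∀ x, (M x).IsHermitian) (hc : Continuous M) (hz : ∀ x, (z x).im ≠ 0)
    (hzc : Continuous z) (a b : V) :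
    Continuous fun x => Gr (M x) (z x) a b := by
  have h1 : Continuous fun x => M x - z x • (1 : Matrix V V ℂ) := hc.sub (hzc.smul continuous_const)
  have h2 : (fun x => Gr (M x) (z x) a b) = fun x => ((M x - z x • (1 : Matrix V V ℂ)).det)⁻¹
      * (M x - z x • (1 : Matrix V V ℂ)).adjugate a b := by
    funext x
    unfold Gr
    rw [Matrix.inv_def, Ring.inverse_eq_inv']
    rfl
  rw [h2]
  refine Continuous.mul (Continuous.inv₀ h1.matrix_det fun x => ?_) ?_
  · exact (isUnit_det (M x) (hM x) (hz x)).ne_zero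
  · exact (h1.matrix_adjugate).matrix_elem a b

theorem Gr_deriv (M B : Matrix V V ℂ) (hM : M.IsHermitian) (hB : B.IsHermitian) {z : ℂ}
    (hz : z.im ≠ 0) (a b : V) (t : ℝ) :
    HasDerivAt (fun t : ℝ => Gr (M + (t : ℂ) • B) z a b)
      (-(Gr (M + (t : ℂ) • B) z * B * Gr (M + (t : ℂ) • B) z) a b) t := by
  have hH : ∀ s : ℝ, (M + (s : ℂ) • B).IsHermitian := by
    intro s
    unfold Matrix.IsHermitian
    rw [Matrix.conjTranspose_add, Matrix.conjTranspose_smul, hM.eq, hB.eq]
    simp
  have hMc : Continuous fun s : ℝ => M + (s : ℂ) • B :=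
    continuous_const.add ((Complex.continuous_ofReal).smul continuous_const)
  have hc : ∀ a b : V, Continuous fun s : ℝ => Gr (M + (s : ℂ) • B) z a b :=
    fun a b => Gr_cont (fun s : ℝ => M + (s : ℂ) • B) (fun _ => z) hH hMc (fun _ => hz)
      continuous_const a b
  rw [hasDerivAt_iff_tendsto_slope]
  have h1 : Continuous fun s : ℝ =>
      -(Gr (M + (s : ℂ) • B) z * B * Gr (M + (t : ℂ) • B) z) a b := by
    refine Continuous.neg ?_
    simp only [Matrix.mul_apply]
    refine continuous_finsetSum _ fun i _ => Continuous.mul ?_ continuous_const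
    exact continuous_finsetSum _ fun j _ => (hc a j).mul continuous_const
  have h2 := (h1.tendsto t).mono_left (nhdsWithin_le_nhds (s := {t}ᶜ))
  refine h2.congr' ?_
  filter_upwards [self_mem_nhdsWithin] with s hs
  have hst : (s : ℝ) - t ≠ 0 := sub_ne_zero.2 hs
  rw [slope_def_module]
  have h3 := Gr_sub (M + (s : ℂ) • B) (M + (t : ℂ) • B) (hH s) (hH t) hz hz
  have h4 : (M + (t : ℂ) • B) - (M + (s : ℂ) • B) + (z - z) • (1 : Matrix V V ℂ)
      = (-((s : ℂ) - t)) • B := by
    rw [sub_self, zero_smul, add_zero, neg_smul, sub_smul]; abel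
  rw [h4, Matrix.mul_smul, Matrix.smul_mul] at h3
  have h5 := congrFun (congrFun h3 a) b
  rw [Matrix.sub_apply, Matrix.smul_apply] at h5
  rw [h5, Complex.real_smul, smul_eq_mul, ← mul_assoc]
  push_cast
  have : ((s : ℂ) - t) ≠ 0 := by exact_mod_cast hst
  rw [mul_neg, inv_mul_cancel₀ this]
  ring

theorem Gr_submatrix (M : Matrix V V ℂ) (z : ℂ) (e : V ≃ V) :
    Gr (M.submatrix e e) z = (Gr M z).submatrix e e := by
  unfold Gr
  rw [← Matrix.inv_submatrix_equiv]
  congr 1
  rw [Matrix.submatrix_sub, Matrix.submatrix_smul]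
  simp

theorem im_pos (M : Matrix V V ℂ) (hM : M.IsHermitian) {z : ℂ} (hz : 0 < z.im) (x : V) :
    0 < (Gr M z x x).im := by
  have h := ward_row M hM hz.ne' x
  rcases eq_or_lt_of_le (im_nonneg M hM hz x) with h0 | h0
  · exfalso
    rw [← h0] at h
    have h1 : ∑ y, ‖Gr M z x y‖ ^ 2 = 0 := by
      rcases mul_eq_zero.1 h with h | h
      · exact absurd h hz.ne'
      · exact h
    have h2 := (Finset.sum_eq_zero_iff_of_nonneg (fun y _ => by positivity)).1 h1
    have h3 : ∀ y, Gr M z x y = 0 := fun y => by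
      have := h2 y (Finset.mem_univ y)
      simpa using this
    have h4 := congrFun (congrFun (Gr_mul M hM hz.ne') x) x
    rw [Matrix.mul_apply] at h4
    simp only [h3, zero_mul, Finset.sum_const_zero, Matrix.one_apply_eq] at h4
    exact one_ne_zero h4.symm
  · exact h0

theorem herm_single (x : V) (t : ℝ) : ((t : ℂ) • Matrix.single x x (1 : ℂ)).IsHermitian := by
  unfold Matrix.IsHermitian
  rw [Matrix.conjTranspose_smul, Matrix.conjTranspose_single]
  simp

/-- Rank one perturbation. -/
theorem Gr_rank (M : Matrix V V ℂ) (hM : M.IsHermitian) {z : ℂ} (hz : z.im ≠ 0) (x a b : V)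
    (t : ℝ) :
    Gr (M + (t : ℂ) • Matrix.single x x (1 : ℂ)) z a b - Gr M z a b
      = -(t : ℂ) * (Gr (M + (t : ℂ) • Matrix.single x x (1 : ℂ)) z a x * Gr M z x b) := by
  have h := Gr_sub (M + (t : ℂ) • Matrix.single x x (1 : ℂ)) M (hM.add (herm_single x t)) hM hz hz
  have h4 : M - (M + (t : ℂ) • Matrix.single x x (1 : ℂ)) + (z - z) • (1 : Matrix V V ℂ)
      = (-(t : ℂ)) • Matrix.single x x (1 : ℂ) := by
    rw [sub_self, zero_smul, add_zero, neg_smul]; abel
  rw [h4, Matrix.mul_smul, Matrix.smul_mul] at h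
  have h5 := congrFun (congrFun h a) b
  rw [Matrix.sub_apply, Matrix.smul_apply, smul_eq_mul] at h5
  rw [h5]
  congr 1
  rw [Matrix.mul_apply, Finset.sum_eq_single x]
  · rw [Matrix.mul_apply, Finset.sum_eq_single x]
    · simp
    · intro y _ hy
      rw [Matrix.single_apply_of_ne]
      · simp
      · simp [Ne.symm hy]
    · simp
  · intro y _ hy
    rw [Matrix.mul_apply, Finset.sum_eq_zero, zero_mul]
    intro y' _
    rw [Matrix.single_apply_of_ne]
    · simp
    · simp [Ne.symm hy]
  · simp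

/-- The diagonal element as a function of the potential there. -/
theorem rank_im (M : Matrix V V ℂ) (hM : M.IsHermitian) {z : ℂ} (hz : 0 < z.im) (x : V) :
    ∃ α I : ℝ, 0 < I ∧ ∀ t : ℝ, (Gr (M + (t : ℂ) • Matrix.single x x (1 : ℂ)) z x x).im
      = I / ((t + α) ^ 2 + I ^ 2) := by
  set g := Gr M z x x with hg
  have hgi : 0 < g.im := im_pos M hM hz x
  have hg0 : g ≠ 0 := by
    intro h
    rw [h] at hgi
    simp at hgi
  refine ⟨(g⁻¹).re, -(g⁻¹).im, ?_, fun t => ?_⟩
  · rw [Complex.inv_im, neg_div, neg_neg]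
    exact div_pos hgi (Complex.normSq_pos.2 hg0)
  · have h := Gr_rank M hM hz.ne' x x x t
    set gt := Gr (M + (t : ℂ) • Matrix.single x x (1 : ℂ)) z x x with hgt
    rw [← hg] at h
    have h1 : gt * ((t : ℂ) + g⁻¹) = 1 := by
      have : gt * (1 + t * g) = g := by linear_combination h
      field_simp
      linear_combination this
    have h2 : gt = ((t : ℂ) + g⁻¹)⁻¹ := eq_inv_of_mul_eq_one_left h1
    rw [h2, Complex.inv_im, Complex.normSq_apply]
    simp only [Complex.add_re, Complex.add_im, Complex.ofReal_re, Complex.ofReal_im, zero_add]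
    congr 1
    ring

end

end Pool.Agent.T2H19
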