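import Pool.Agent.T2H19.Det1
import Pool.Agent.T2H19.Res2

/-! Finite approximations and spectral measures. -/

set_option autoImplicit false

namespace Pool.Agent.T2H19

open MeasureTheory Filter Topology
open scoped BigOperators ComplexConjugate ENNReal

noncomputable section

variable {Γ : Type} [DecidableEq Γ]

/-- Restriction to a finite set. -/
def MD (H : Γ → Γ → ℂ) (Λ : Finset Γ) : Matrix Λ Λ ℂ := fun a b => H a b

theorem MD_herm {H : Γ → Γ → ℂ} (hH : Adm H) (Λ : Finset Γ) : (MD H Λ).IsHermitian := by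
  ext a b
  rw [Matrix.conjTranspose_apply]
  unfold MD
  rw [hH.herm a b]
  rfl

/-- Diagonal Green function of the restriction. -/
def gD (H : Γ → Γ → ℂ) (Λ : Finset Γ) (z : ℂ) (x : Γ) : ℂ :=
  if h : x ∈ Λ then Gr (MD H Λ) z ⟨x, h⟩ ⟨x, h⟩ else 0

theorem norm_sq_ge (u : E2 Γ) (Λ : Finset Γ) : ∑ a : Λ, ‖u a‖ ^ 2 ≤ ‖u‖ ^ 2 := by
  rw [norm2, Finset.sum_coe_sort Λ fun a => ‖u a‖ ^ 2]
  exact (sm2 u).sum_le_tsum Λ fun _ _ => by positivity

theorem gD_approx {H : Γ → Γ → ℂ} (hH : Adm H) (Λ : Finset Γ) {z : ℂ} (hz : z.im ≠ 0) (x : Γ)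
    (hx : x ∈ Λ) (f : Γ →₀ ℂ) (hf : f.support ⊆ Λ) :
    |z.im| * ‖gD H Λ z x - f x‖ ≤ ‖Tz H hH z f - dl x‖ := by
  unfold gD
  rw [dif_pos hx]
  set M := MD H Λ with hM
  have hMh : M.IsHermitian := MD_herm hH Λ
  obtain ⟨q, hq⟩ : ∃ q : Λ → ℂ, q = fun a : Λ => (Tz H hH z f - dl x : E2 Γ) (a : Γ) := ⟨_, rfl⟩
  have hq1 : ∀ a : Λ, q a = ((M - z • (1 : Matrix Λ Λ ℂ)).mulVec (fun b : Λ => f b)) a
      - (Pi.single (⟨x, hx⟩ : Λ) (1 : ℂ) : Λ → ℂ) a := by
    intro a
    rw [hq]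
    simp only
    rw [lp.coeFn_sub, Pi.sub_apply, Tz_apply, dl_apply, Matrix.sub_mulVec, Matrix.smul_mulVec,
      Matrix.one_mulVec]
    simp only [Pi.sub_apply, Pi.smul_apply, smul_eq_mul]
    congr 1
    · congr 1
      simp only [Matrix.mulVec, dotProduct]
      have e0 : ∑ b : Λ, M a b * f b = ∑ b ∈ Λ, H a b * f b :=
        Finset.sum_coe_sort Λ fun b => H a b * f b
      rw [e0]
      have : ∑ y ∈ f.support, f y * H a y = ∑ y ∈ Λ, f y * H a y := by
        refine Finset.sum_subset hf fun y _ hy => ?_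
        rw [Finsupp.notMem_support_iff.1 hy, zero_mul]
      rw [this]
      exact Finset.sum_congr rfl fun y _ => mul_comm _ _
    · rw [Pi.single_apply]
      by_cases h : (a : Γ) = x
      · rw [if_pos h, if_pos (Subtype.ext h)]
      · rw [if_neg h, if_neg (fun h' => h (congrArg Subtype.val h'))]
  have h1 := Gr_vec M hMh hz q
  have e1 : (Gr M z).mulVec q = fun a : Λ => f a - Gr M z a ⟨x, hx⟩ := by
    have : q = (M - z • (1 : Matrix Λ Λ ℂ)).mulVec (fun b : Λ => f b)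
      - (Pi.single (⟨x, hx⟩ : Λ) (1 : ℂ) : Λ → ℂ) := funext hq1
    rw [this, Matrix.mulVec_sub, Matrix.mulVec_mulVec, Gr_mul M hMh hz, Matrix.one_mulVec,
      Matrix.mulVec_single_one]
    rfl
  rw [e1] at h1
  have h2 : ‖f x - Gr M z ⟨x, hx⟩ ⟨x, hx⟩‖ ^ 2 ≤ ∑ a : Λ, ‖f a - Gr M z a ⟨x, hx⟩‖ ^ 2 :=
    Finset.single_le_sum (f := fun a : Λ => ‖f a - Gr M z a ⟨x, hx⟩‖ ^ 2)
      (fun _ _ => by positivity) (Finset.mem_univ (⟨x, hx⟩ : Λ))
  have h3 : ∑ a : Λ, ‖q a‖ ^ 2 ≤ ‖Tz H hH z f - dl x‖ ^ 2 := by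
    rw [hq]
    exact norm_sq_ge _ Λ
  have h4 : (|z.im| * ‖Gr M z ⟨x, hx⟩ ⟨x, hx⟩ - f x‖) ^ 2 ≤ ‖Tz H hH z f - dl x‖ ^ 2 := by
    rw [mul_pow, sq_abs, norm_sub_rev]
    exact (mul_le_mul_of_nonneg_left h2 (sq_nonneg _)).trans (h1.trans h3)
  exact (pow_le_pow_iff_left₀ (by positivity) (norm_nonneg _) two_ne_zero).1 h4

/-- Exhausting sequences. -/
def Exh (Λ : ℕ → Finset Γ) : Prop := ∀ s : Finset Γ, ∀ᶠ n in atTop, s ⊆ Λ n

theorem gD_tendsto {H : Γ → Γ → ℂ} (hH : Adm H) {Λ : ℕ → Finset Γ} (hΛ : Exh Λ) {z : ℂ}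
    (hz : z.im ≠ 0) (x : Γ) (h : Ap H hH z x) (U : E2 Γ)
    (hU : ∀ f : Γ →₀ ℂ, |z.im| * ‖Jf f - U‖ ≤ ‖Tz H hH z f - dl x‖) :
    Tendsto (fun n => gD H (Λ n) z x) atTop (𝓝 (U x)) := by
  rw [Metric.tendsto_atTop]
  intro ε hε
  have hz' : 0 < |z.im| := abs_pos.2 hz
  obtain ⟨f, hf⟩ := h (|z.im| * ε / 4) (by positivity)
  obtain ⟨N, hN⟩ := eventually_atTop.1 (hΛ (insert x f.support))
  refine ⟨N, fun n hn => ?_⟩
  have h1 := hN n hn
  have h2 := gD_approx hH (Λ n) hz x (h1 (Finset.mem_insert_self _ _)) f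
    (fun y hy => h1 (Finset.mem_insert_of_mem hy))
  have h3 := hU f
  have h4 : ‖f x - U x‖ ≤ ‖Jf f - U‖ := by
    have := coord_le (Jf f - U) x
    rwa [lp.coeFn_sub, Pi.sub_apply, Jf_apply] at this
  have h5 : ‖gD H (Λ n) z x - f x‖ ≤ ε / 4 := by
    have : |z.im| * ‖gD H (Λ n) z x - f x‖ ≤ |z.im| * (ε / 4) := by
      refine h2.trans (hf.trans (le_of_eq ?_)); ring
    exact le_of_mul_le_mul_left this hz'
  have h6 : ‖Jf f - U‖ ≤ ε / 4 := by
    have : |z.im| * ‖Jf f - U‖ ≤ |z.im| * (ε / 4) := by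
      refine h3.trans (hf.trans (le_of_eq ?_)); ring
    exact le_of_mul_le_mul_left this hz'
  rw [dist_eq_norm]
  have h7 := norm_add_le (gD H (Λ n) z x - f x) (f x - U x)
  rw [sub_add_sub_cancel] at h7
  linarith

/-- Spectral measures of finite Hermitian matrices. -/
theorem fin_spec {V : Type} [Fintype V] [DecidableEq V] (M : Matrix V V ℂ) (hM : M.IsHermitian)
    (x : V) :
    ∃ ν : Measure ℝ, IsProbabilityMeasure ν ∧
      (∀ z : ℂ, z.im ≠ 0 → Gr M z x x = ∫ E : ℝ, 1 / ((E : ℂ) - z) ∂ν) ∧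
      Integrable (fun E : ℝ => E ^ 2) ν ∧ ∫ E : ℝ, E ^ 2 ∂ν = ∑ y, ‖M y x‖ ^ 2 := by
  obtain ⟨U, hU⟩ : ∃ U : Matrix V V ℂ, U = (hM.eigenvectorUnitary : Matrix V V ℂ) := ⟨_, rfl⟩
  have hUU : U * star U = 1 := by
    rw [hU]; exact Unitary.mul_star_self_of_mem hM.eigenvectorUnitary.2
  have hUU' : star U * U = 1 := by
    rw [hU]; exact Unitary.star_mul_self_of_mem hM.eigenvectorUnitary.2
  obtain ⟨l, hl⟩ : ∃ l : V → ℝ, l = hM.eigenvalues := ⟨_, rfl⟩
  have hMs : M = U * Matrix.diagonal (fun j => (l j : ℂ)) * star U := by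
    have := hM.spectral_theorem
    rw [hU, hl]
    exact this
  have hdiag : ∀ D : V → ℂ, (U * Matrix.diagonal D * star U) x x = ∑ j, ((‖U x j‖ ^ 2 : ℝ) : ℂ) * D j := by
    intro D
    rw [Matrix.mul_apply]
    refine Finset.sum_congr rfl fun j _ => ?_
    rw [Matrix.mul_diagonal, Matrix.star_apply, RCLike.star_def]
    push_cast
    rw [← Complex.mul_conj']
    ring
  have hw1 : ∑ j, ‖U x j‖ ^ 2 = 1 := by
    have h1 := hdiag (fun _ => 1)
    have h2 : Matrix.diagonal (fun _ : V => (1 : ℂ)) = 1 := Matrix.diagonal_one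
    rw [h2, mul_one, hUU, Matrix.one_apply_eq] at h1
    simp only [mul_one] at h1
    have h3 : ((∑ j, ‖U x j‖ ^ 2 : ℝ) : ℂ) = 1 := by push_cast at h1 ⊢; exact h1.symm
    exact_mod_cast h3
  obtain ⟨ν, hν⟩ : ∃ ν : Measure ℝ, ν = ∑ j, ENNReal.ofReal (‖U x j‖ ^ 2) • Measure.dirac (l j) :=
    ⟨_, rfl⟩
  have hprob : IsProbabilityMeasure ν := by
    constructor
    rw [hν, Measure.finsetSum_apply]
    simp only [Measure.smul_apply, measure_univ, smul_eq_mul, mul_one]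
    rw [← ENNReal.ofReal_sum_of_nonneg (fun j _ => by positivity), hw1, ENNReal.ofReal_one]
  have hintg : ∀ {F : Type} [NormedAddCommGroup F] [NormedSpace ℝ F] (g : ℝ → F) (j : V),
      Integrable g (ENNReal.ofReal (‖U x j‖ ^ 2) • Measure.dirac (l j)) := by
    intro F _ _ g j
    exact (integrable_dirac (by simp)).smul_measure ENNReal.ofReal_ne_top
  have hint : ∀ {F : Type} [NormedAddCommGroup F] [NormedSpace ℝ F] [CompleteSpace F] (g : ℝ → F),
      ∫ E, g E ∂ν = ∑ j, (‖U x j‖ ^ 2) • g (l j) := by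
    intro F _ _ _ g
    rw [hν, integral_finsetSum_measure fun j _ => hintg g j]
    refine Finset.sum_congr rfl fun j _ => ?_
    rw [integral_smul_measure, integral_dirac, ENNReal.toReal_ofReal (by positivity)]
  refine ⟨ν, hprob, fun z hz => ?_, ?_, ?_⟩
  · have hne : ∀ j, (l j : ℂ) - z ≠ 0 := by
      intro j h
      have := congrArg Complex.im h
      simp at this
      exact hz this
    have hG : Gr M z = U * Matrix.diagonal (fun j => 1 / ((l j : ℂ) - z)) * star U := by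
      unfold Gr
      apply Matrix.inv_eq_right_inv
      have e1 : M - z • (1 : Matrix V V ℂ) = U * Matrix.diagonal (fun j => (l j : ℂ) - z) * star U := by
        have e2 : Matrix.diagonal (fun j => (l j : ℂ) - z)
            = Matrix.diagonal (fun j => (l j : ℂ)) - z • (1 : Matrix V V ℂ) := by
          rw [Matrix.smul_one_eq_diagonal, Matrix.diagonal_sub]
        rw [e2, mul_sub, sub_mul, ← hMs, Matrix.mul_smul, mul_one, Matrix.smul_mul, hUU]
      rw [e1]
      calc U * Matrix.diagonal (fun j => (l j : ℂ) - z) * star U *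
            (U * Matrix.diagonal (fun j => 1 / ((l j : ℂ) - z)) * star U)
          = U * Matrix.diagonal (fun j => (l j : ℂ) - z) * (star U * U) *
            Matrix.diagonal (fun j => 1 / ((l j : ℂ) - z)) * star U := by
              simp only [mul_assoc]
        _ = 1 := by
            rw [hUU', mul_one, mul_assoc U, Matrix.diagonal_mul_diagonal]
            have : (fun j => ((l j : ℂ) - z) * (1 / ((l j : ℂ) - z))) = fun _ => 1 := by
              funext j
              rw [mul_one_div, div_self (hne j)]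
            rw [this, Matrix.diagonal_one, mul_one, hUU]
    rw [hG, hdiag, hint]
    refine Finset.sum_congr rfl fun j _ => ?_
    rw [Complex.real_smul]
  · rw [hν, integrable_finsetSum_measure]
    exact fun j _ => hintg _ j
  · rw [hint]
    have h1 := hdiag (fun j => (l j : ℂ) ^ 2)
    have h2 : M * M = U * Matrix.diagonal (fun j => (l j : ℂ) ^ 2) * star U := by
      conv_lhs => rw [hMs]
      calc U * Matrix.diagonal (fun j => (l j : ℂ)) * star U *
            (U * Matrix.diagonal (fun j => (l j : ℂ)) * star U)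
          = U * Matrix.diagonal (fun j => (l j : ℂ)) * (star U * U) *
            Matrix.diagonal (fun j => (l j : ℂ)) * star U := by simp only [mul_assoc]
        _ = _ := by
            rw [hUU', mul_one, mul_assoc U, Matrix.diagonal_mul_diagonal]
            congr 3
            funext j
            ring
    rw [← h2, Matrix.mul_apply] at h1
    have h3 : ∀ y, M x y * M y x = ((‖M y x‖ ^ 2 : ℝ) : ℂ) := by
      intro y
      have := hM.apply x y
      rw [← this, RCLike.star_def, Complex.conj_mul']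
      push_cast
      rfl
    simp only [h3] at h1
    have h4 : ((∑ y, ‖M y x‖ ^ 2 : ℝ) : ℂ) = ((∑ j, ‖U x j‖ ^ 2 * l j ^ 2 : ℝ) : ℂ) := by
      push_cast at h1 ⊢
      exact h1
    have h5 : ∑ y, ‖M y x‖ ^ 2 = ∑ j, ‖U x j‖ ^ 2 * l j ^ 2 := by exact_mod_cast h4
    rw [h5]
    exact Finset.sum_congr rfl fun j _ => rfl

/-- The kernel `1 / (E - z)` as a bounded continuous function. -/
def rk (z : ℂ) (hz : z.im ≠ 0) : BoundedContinuousFunction ℝ ℂ :=
  BoundedContinuousFunction.ofNormedAddCommGroup (fun E : ℝ => 1 / ((E : ℂ) - z))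
    (by
      refine continuous_const.div (Complex.continuous_ofReal.sub continuous_const) ?_
      intro E h
      have := congrArg Complex.im h
      simp at this
      exact hz this) (1 / |z.im|) (by
      intro E
      rw [norm_div, norm_one]
      refine one_div_le_one_div_of_le (abs_pos.2 hz) ?_
      have := Complex.abs_im_le_norm ((E : ℂ) - z)
      simpa only [Complex.sub_im, Complex.ofReal_im, zero_sub, abs_neg] using this)

/-- Limits of probability measures with bounded second moments. -/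
theorem exists_lim (ν : ℕ → ProbabilityMeasure ℝ) (C : ℝ)
    (hi : ∀ n, Integrable (fun E : ℝ => E ^ 2) (ν n : Measure ℝ))
    (hC : ∀ n, ∫ E : ℝ, E ^ 2 ∂(ν n : Measure ℝ) ≤ C) :
    ∃ (φ : ℕ → ℕ) (μ : ProbabilityMeasure ℝ), StrictMono φ ∧
      Tendsto (fun n => ν (φ n)) atTop (𝓝 μ) := by
  have hC0 : 0 ≤ C := (integral_nonneg fun E => sq_nonneg E).trans (hC 0)
  have htight : IsTightMeasureSet {((μ : ProbabilityMeasure ℝ) : Measure ℝ) |
      μ ∈ Set.range ν} := by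
    rw [isTightMeasureSet_iff_exists_isCompact_measure_compl_le]
    intro ε hε
    by_cases htop : ε = ⊤
    · refine ⟨∅, isCompact_empty, ?_⟩
      intro μ _
      rw [htop]
      exact le_top
    · have he : 0 < ε.toReal := ENNReal.toReal_pos hε.ne' htop
      obtain ⟨B, hB1, hB2⟩ : ∃ B : ℝ, 1 ≤ B ∧ C / B ^ 2 ≤ ε.toReal := by
        refine ⟨max 1 (C / ε.toReal), le_max_left _ _, ?_⟩
        have h1 : (1 : ℝ) ≤ max 1 (C / ε.toReal) := le_max_left _ _
        have h2 := le_max_right 1 (C / ε.toReal)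
        rw [div_le_iff₀ he] at h2
        rw [div_le_iff₀ (by positivity)]
        nlinarith
      refine ⟨Set.Icc (-B) B, isCompact_Icc, ?_⟩
      rintro _ ⟨μ, ⟨n, rfl⟩, rfl⟩
      have h3 := mul_meas_ge_le_integral_of_nonneg (μ := (ν n : Measure ℝ))
        (f := fun E : ℝ => E ^ 2) (Eventually.of_forall fun E => sq_nonneg E) (hi n) (B ^ 2)
      have h4 : (ν n : Measure ℝ).real {E : ℝ | B ^ 2 ≤ E ^ 2} ≤ C / B ^ 2 := by
        rw [le_div_iff₀ (by positivity), mul_comm]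
        exact h3.trans (hC n)
      have h5 : (Set.Icc (-B) B)ᶜ ⊆ {E : ℝ | B ^ 2 ≤ E ^ 2} := by
        intro E hE
        by_contra hc
        apply hE
        simp only [Set.mem_ofPred_eq, not_le] at hc
        have := abs_lt_of_sq_lt_sq hc (by linarith)
        exact ⟨(abs_lt.1 this).1.le, (abs_lt.1 this).2.le⟩
      refine (measure_mono h5).trans ?_
      rw [← ENNReal.ofReal_toReal htop]
      have h6 : (ν n : Measure ℝ) {E : ℝ | B ^ 2 ≤ E ^ 2}
          = ENNReal.ofReal ((ν n : Measure ℝ).real {E : ℝ | B ^ 2 ≤ E ^ 2}) := by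
        rw [Measure.real, ENNReal.ofReal_toReal (measure_ne_top _ _)]
      rw [h6]
      exact ENNReal.ofReal_le_ofReal (h4.trans hB2)
  have hcomp := isCompact_closure_of_isTightMeasureSet htight
  obtain ⟨μ, -, φ, hφ, hlim⟩ := hcomp.tendsto_subseq (x := ν)
    (fun i => subset_closure (Set.mem_range_self i))
  exact ⟨φ, μ, hφ, hlim⟩

/-- Existence of the spectral measure. -/
theorem spec_exists {H : Γ → Γ → ℂ} (hH : Adm H) {Λ : ℕ → Finset Γ} (hΛ : Exh Λ) (x : Γ)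
    (h : ∀ z : ℂ, z.im ≠ 0 → Ap H hH z x) :
    ∃ μ : Measure ℝ, IsProbabilityMeasure μ ∧ ∀ z : ℂ, z.im ≠ 0 → ∀ U : E2 Γ,
      (∀ f : Γ →₀ ℂ, |z.im| * ‖Jf f - U‖ ≤ ‖Tz H hH z f - dl x‖) →
      U x = ∫ E : ℝ, 1 / ((E : ℂ) - z) ∂μ := by
  have hev : ∀ᶠ n in atTop, x ∈ Λ n := by
    filter_upwards [hΛ {x}] with n hn
    exact hn (Finset.mem_singleton_self x)
  obtain ⟨N, hN⟩ := eventually_atTop.1 hev
  have hx : ∀ n, x ∈ Λ (n + N) := fun n => hN _ (by omega)
  choose ν h1 h2 h3 h4 using fun n => fin_spec (MD H (Λ (n + N))) (MD_herm hH _) ⟨x, hx n⟩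
  have hC : ∀ n, ∑ y : Λ (n + N), ‖MD H (Λ (n + N)) y ⟨x, hx n⟩‖ ^ 2 ≤ ‖cl H hH x‖ ^ 2 :=
    fun n => norm_sq_ge (cl H hH x) (Λ (n + N))
  obtain ⟨φ, μ, hφ, hlim⟩ := exists_lim (fun n => ⟨ν n, h1 n⟩) (‖cl H hH x‖ ^ 2) h3
    (fun n => by
      show ∫ E : ℝ, E ^ 2 ∂(ν n) ≤ _
      rw [h4 n]; exact hC n)
  refine ⟨μ, inferInstance, fun z hz U hU => ?_⟩
  have l1 := (ProbabilityMeasure.tendsto_iff_forall_integral_rclike_tendsto ℂ).1 hlim (rk z hz)
  have l2 := gD_tendsto hH hΛ hz x (h z hz) U hU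
  have l3 : Tendsto (fun n => gD H (Λ (φ n + N)) z x) atTop (𝓝 (U x)) :=
    l2.comp ((tendsto_add_atTop_nat N).comp hφ.tendsto_atTop)
  have l4 : Tendsto (fun n => gD H (Λ (φ n + N)) z x) atTop
      (𝓝 (∫ E, rk z hz E ∂(μ : Measure ℝ))) := by
    refine l1.congr fun n => ?_
    unfold gD
    rw [dif_pos (hx (φ n)), h2 (φ n) z hz]
    rfl
  exact tendsto_nhds_unique l3 l4

end

end Pool.Agent.T2H19
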