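import Pool.Agent.T2H19.Prof

/-! The finite volume bound. -/

set_option autoImplicit false

namespace Pool.Agent.T2H19

open MeasureTheory Filter Topology
open scoped BigOperators ComplexConjugate

noncomputable section

theorem Fr_pow (ε β : ℝ) (i : ℕ) : Fr ε β (2 ^ i) = ε ^ 2 * ((2 : ℝ) ^ (-(2 * β))) ^ i := by
  unfold Fr
  congr 1
  push_cast
  rw [← Real.rpow_natCast, ← Real.rpow_mul (by norm_num), ← Real.rpow_natCast,
    ← Real.rpow_mul (by norm_num)]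
  congr 1
  ring

theorem vlow_eq (ε β : ℝ) (d i : ℕ) : vlow ε β d i
    = ε ^ 2 * (1 - (2 : ℝ) ^ (-(2 * β))) * ((2 : ℝ) ^ d * (2 : ℝ) ^ (-(2 * β))) ^ i := by
  unfold vlow
  rw [Fr_pow, Fr_pow, mul_comm i d, pow_mul, mul_pow]
  ring

theorem fin_bound {ε β σ : ℝ} {d : ℕ} (hd : 0 < d) (h1 : (d : ℝ) < 2 * β) (h2 : 3 * β < 2 * d)
    (hε : 0 < ε) (hσ : σ ≠ 0) (ζ : ℝ) (hζ : 0 < ζ) :
    ∃ L : ℝ, 0 ≤ L ∧ ∀ η : ℝ, 0 < η → ∃ I0 : ℕ, ∀ I, I0 ≤ I → ∀ z : ℂ, z.im = η →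
      pp (KT d (2 ^ (I + 1) - 1)) σ (ST ε β d (2 ^ (I + 1) - 1)) z L ≤ ζ := by
  have hd' : (0 : ℝ) < d := by exact_mod_cast hd
  have hβ0 : 0 < β := by linarith
  obtain ⟨a, ha⟩ : ∃ a : ℝ, a = (2 : ℝ) ^ (-(2 * β)) := ⟨_, rfl⟩
  have ha0 : 0 < a := by rw [ha]; positivity
  have ha1 : a < 1 := by
    rw [ha]
    exact Real.rpow_lt_one_of_one_lt_of_neg (by norm_num) (by linarith)
  obtain ⟨b, hb⟩ : ∃ b : ℝ, b = (2 : ℝ) ^ d * a := ⟨_, rfl⟩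
  have hb0 : 0 < b := by rw [hb]; positivity
  have hb1 : b < 1 := by
    rw [hb, ha, ← Real.rpow_natCast, ← Real.rpow_add (by norm_num)]
    exact Real.rpow_lt_one_of_one_lt_of_neg (by norm_num) (by linarith)
  obtain ⟨ρ, hρ⟩ : ∃ ρ : ℝ, ρ = a / b ^ 4 := ⟨_, rfl⟩
  have hρ0 : 0 < ρ := by rw [hρ]; positivity
  have hρ1 : ρ < 1 := by
    have e : ρ = (2 : ℝ) ^ (6 * β - 4 * d) := by
      rw [hρ, hb, ha, div_eq_iff (by positivity), mul_pow, ← Real.rpow_natCast (_ ^ d) 4,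
        ← Real.rpow_natCast (_ ^ (-(2 * β))) 4, ← Real.rpow_natCast 2 d, ← Real.rpow_mul (by norm_num),
        ← Real.rpow_mul (by norm_num), ← Real.rpow_add (by norm_num), ← Real.rpow_add (by norm_num)]
      congr 1
      push_cast
      ring
    rw [e]
    exact Real.rpow_lt_one_of_one_lt_of_neg (by norm_num) (by linarith)
  obtain ⟨q, hq⟩ : ∃ q : ℝ, q = √ρ := ⟨_, rfl⟩
  have hq0 : 0 ≤ q := by rw [hq]; exact Real.sqrt_nonneg _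
  have hq1 : q < 1 := by
    rw [hq, Real.sqrt_lt' one_pos, one_pow]
    exact hρ1
  have hqj : ∀ j : ℕ, √(ρ ^ j) = q ^ j := by
    intro j
    have : ρ ^ j = (q ^ j) ^ 2 := by
      rw [← pow_mul, mul_comm, pow_mul, hq, Real.sq_sqrt hρ0.le]
    rw [this, Real.sqrt_sq (pow_nonneg hq0 j)]
  obtain ⟨B, hB⟩ : ∃ B : ℝ, B = Btot ε β d := ⟨_, rfl⟩
  have hB0 : 0 ≤ B := by
    rw [hB]
    exact tsum_nonneg fun h => by positivity
  have hW := CW_nonneg σ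
  obtain ⟨c, hc⟩ : ∃ c : ℝ, c = ζ / 2 := ⟨_, rfl⟩
  have hc0 : 0 < c := by rw [hc]; linarith
  -- the scales
  obtain ⟨l1, hl1⟩ : ∃ l1 : ℝ, l1 = c * (ε ^ 2 * (1 - a) * b) := ⟨_, rfl⟩
  have h1a : 0 < 1 - a := by linarith
  have hl10 : 0 < l1 := by rw [hl1]; positivity
  have hl : ∀ j : ℕ, c * vlow ε β d (j + 1) = l1 * b ^ j := by
    intro j
    rw [vlow_eq, ← ha, ← hb, hl1, pow_succ]
    ring
  have hκ : ∀ j : ℕ, Fr ε β (2 ^ j) = ε ^ 2 * a ^ j := fun j => by rw [Fr_pow, ← ha]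
  obtain ⟨C0, hC0⟩ : ∃ C0 : ℝ, C0 = ε ^ 2 / l1 ^ 4 := ⟨_, rfl⟩
  have hC00 : 0 < C0 := by rw [hC0]; positivity
  have r4 : ∀ j : ℕ, Fr ε β (2 ^ j) / (l1 * b ^ j) ^ 4 = C0 * ρ ^ j := by
    intro j
    rw [hκ, hC0, hρ, div_pow]
    have : (l1 * b ^ j) ^ 4 = l1 ^ 4 * (b ^ 4) ^ j := by
      rw [mul_pow, ← pow_mul, ← pow_mul, mul_comm j 4]
    rw [this]
    field_simp
  have hbj : ∀ j : ℕ, b ^ j ≤ 1 := fun j => pow_le_one₀ hb0.le hb1.le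
  have haj : ∀ j : ℕ, a ^ j ≤ 1 := fun j => pow_le_one₀ ha0.le ha1.le
  obtain ⟨C1, hC1⟩ : ∃ C1 : ℝ, C1 = √(C0 * l1 * CW σ)
    + √((4 * CW σ ^ 3 * (σ ^ 2 + B) / c + 6 * CW σ ^ 2 * ε ^ 2) * C0) := ⟨_, rfl⟩
  have hC10 : 0 ≤ C1 := by rw [hC1]; positivity
  have hEE : ∀ j : ℕ, EE σ B (Fr ε β (2 ^ j)) (c * vlow ε β d (j + 1)) c ≤ C1 * q ^ j := by
    intro j
    rw [hl]
    have h4 := r4 j
    set κ := Fr ε β (2 ^ j) with hκd
    set l := l1 * b ^ j with hld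
    have hl0 : 0 < l := by rw [hld]; positivity
    have hκ0 : 0 ≤ κ := Fr_nonneg _ _ _
    have hκ1 : κ ≤ ε ^ 2 := by
      rw [hκd, hκ]
      calc ε ^ 2 * a ^ j ≤ ε ^ 2 * 1 := mul_le_mul_of_nonneg_left (haj j) (sq_nonneg _)
        _ = _ := mul_one _
    have hll : l ≤ l1 := by
      rw [hld]
      calc l1 * b ^ j ≤ l1 * 1 := mul_le_mul_of_nonneg_left (hbj j) hl10.le
        _ = _ := mul_one _
    unfold EE
    rw [hC1, add_mul, ← hqj]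
    refine add_le_add ?_ ?_
    · rw [← Real.sqrt_mul (by positivity)]
      refine Real.sqrt_le_sqrt ?_
      have e : κ * CW σ / l ^ 3 = κ / l ^ 4 * l * CW σ := by field_simp
      rw [e, h4]
      calc C0 * ρ ^ j * l * CW σ ≤ C0 * ρ ^ j * l1 * CW σ := by
            refine mul_le_mul_of_nonneg_right (mul_le_mul_of_nonneg_left hll (by positivity)) hW
        _ = _ := by ring
    · rw [← Real.sqrt_mul (by positivity)]
      refine Real.sqrt_le_sqrt ?_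
      have e1 : 4 * CW σ ^ 3 * (σ ^ 2 + B) * κ / (c * l ^ 4)
          = 4 * CW σ ^ 3 * (σ ^ 2 + B) / c * (κ / l ^ 4) := by field_simp
      have e2 : 6 * CW σ ^ 2 * κ ^ 2 / l ^ 4 = 6 * CW σ ^ 2 * κ * (κ / l ^ 4) := by field_simp
      rw [e1, e2, h4]
      have h5 : 6 * CW σ ^ 2 * κ * (C0 * ρ ^ j) ≤ 6 * CW σ ^ 2 * ε ^ 2 * (C0 * ρ ^ j) :=
        mul_le_mul_of_nonneg_right (mul_le_mul_of_nonneg_left hκ1 (by positivity)) (by positivity)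
      calc 4 * CW σ ^ 3 * (σ ^ 2 + B) / c * (C0 * ρ ^ j) + 6 * CW σ ^ 2 * κ * (C0 * ρ ^ j)
          ≤ 4 * CW σ ^ 3 * (σ ^ 2 + B) / c * (C0 * ρ ^ j) + 6 * CW σ ^ 2 * ε ^ 2 * (C0 * ρ ^ j) := by
            linarith
        _ = _ := by ring
  -- choice of the first scale
  obtain ⟨j0, hj0⟩ : ∃ j0 : ℕ, C1 * (q ^ j0 / (1 - q)) ≤ ζ / 4 := by
    have ht : Tendsto (fun j : ℕ => C1 * (q ^ j / (1 - q))) atTop (𝓝 (C1 * (0 / (1 - q)))) :=
      ((tendsto_pow_atTop_nhds_zero_of_lt_one hq0 hq1).div_const _).const_mul _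
    rw [zero_div, mul_zero] at ht
    have := (ht.eventually (gt_mem_nhds (show (0 : ℝ) < ζ / 4 by linarith))).exists
    obtain ⟨j, hj⟩ := this
    exact ⟨j, hj.le⟩
  have hvpos : ∀ i, 0 < vlow ε β d i := by
    intro i
    rw [vlow_eq, ← ha, ← hb]
    positivity
  refine ⟨1 / (ζ / 2 * vlow ε β d j0), by have := hvpos j0; positivity, fun η hη => ?_⟩
  have hlim : Tendsto (fun I : ℕ => EE σ B (Fr ε β (2 ^ I)) η (ζ / 2)) atTop (𝓝 0) := by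
    have h0 : Tendsto (fun I : ℕ => Fr ε β (2 ^ I)) atTop (𝓝 0) := by
      simp only [hκ]
      have := (tendsto_pow_atTop_nhds_zero_of_lt_one ha0.le ha1).const_mul (ε ^ 2)
      rwa [mul_zero] at this
    have hcont : Continuous fun κ : ℝ => EE σ B κ η (ζ / 2) := by
      unfold EE
      fun_prop
    have h3 := (hcont.tendsto 0).comp h0
    have e : EE σ B 0 η (ζ / 2) = 0 := by
      unfold EE
      simp
    rw [e] at h3
    exact h3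
  obtain ⟨I1, hI1⟩ := eventually_atTop.1 (hlim.eventually (gt_mem_nhds (show (0 : ℝ) < ζ / 4 by linarith)))
  refine ⟨max I1 j0, fun I hI z hz => ?_⟩
  have hp : 1 ≤ 2 ^ (I + 1) := Nat.one_le_two_pow
  obtain ⟨n, hn⟩ : ∃ n, n = 2 ^ (I + 1) - 1 := ⟨_, rfl⟩
  have hn1 : n + 1 = 2 ^ (I + 1) := by omega
  rw [← hn, ← Sc_eq_ST ε β d I n hn1]
  refine chain_top (KT_herm d n) (KT_t d n) (fun i => sT_dat hβ0 d n i) hσ B I
    (fun i _ x => by rw [hB]; exact Sc_row hd h1 n i x) (fun i => Fr ε β (2 ^ i)) (vlow ε β d)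
    (fun i _ x y => fS_le hβ0 i _) (fun i hi => sT_row hβ0 hd ?_) hvpos ζ hζ j0
    (le_trans (le_max_right _ _) hI) ?_ z (by rw [hz]; exact hη) ?_ _ le_rfl
  · have h5 : 2 ^ i ≤ 2 ^ I := Nat.pow_le_pow_right (by norm_num) (by omega)
    have h6 : 2 ^ (I + 1) = 2 * 2 ^ I := by ring
    have h7 : 1 ≤ 2 ^ I := Nat.one_le_two_pow
    omega
  · rw [← hc]
    calc ∑ j ∈ Finset.Ico j0 I, EE σ B (Fr ε β (2 ^ j)) (c * vlow ε β d (j + 1)) c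
        ≤ ∑ j ∈ Finset.Ico j0 I, C1 * q ^ j := Finset.sum_le_sum fun j _ => hEE j
      _ = C1 * ∑ j ∈ Finset.Ico j0 I, q ^ j := by rw [Finset.mul_sum]
      _ ≤ C1 * (q ^ j0 / (1 - q)) :=
          mul_le_mul_of_nonneg_left (geom_sum_Ico_le_of_lt_one hq0 hq1) hC10
      _ ≤ ζ / 4 := hj0
  · rw [hz]
    exact (hI1 I (le_trans (le_max_left _ _) hI)).le

end

end Pool.Agent.T2H19
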