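import Pool.Agent.T2H19.Inf4
import Pool.Agent.T2H19.Ac

/-! Absolutely continuous spectral measures. -/

set_option autoImplicit false

namespace Pool.Agent.T2H19

open MeasureTheory ProbabilityTheory Filter Topology
open scoped BigOperators ComplexConjugate ENNReal

noncomputable section

/-- Boxes. -/
def bx (d j : ℕ) : Finset (Zd d) := Finset.univ.image (lf : TV d j → Zd d)

theorem bx_exh (d : ℕ) : Exh (bx d) := by
  intro s
  filter_upwards [eventually_ge_atTop (s.sup nm)] with j hj x hx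
  have h1 : nm x ≤ j := (Finset.le_sup hx).trans hj
  unfold bx
  rw [Finset.mem_image]
  exact ⟨qt x, Finset.mem_univ _, lf_qt x h1⟩

theorem MDi_herm (ε β σ : ℝ) (d : ℕ) (ω : Ix (Zd d) → ℝ) (Λ : Finset (Zd d)) :
    (MD (Hi ε β σ d ω) Λ).IsHermitian := by
  ext a b
  rw [Matrix.conjTranspose_apply]
  unfold MD
  rw [Hi_herm ε β σ d ω a b]
  rfl

theorem Hi_cont (ε β σ : ℝ) (d : ℕ) (x y : Zd d) :
    Continuous fun ω : Ix (Zd d) → ℝ => Hi ε β σ d ω x y := by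
  unfold Hi He
  refine (continuous_const.add ?_).add (continuous_const.mul (Wg_cont x y))
  by_cases h : x = y
  · simp only [if_pos h]
    exact Complex.continuous_ofReal.comp (continuous_const.mul (continuous_apply _))
  · simp only [if_neg h]
    exact continuous_const

theorem gD_cont (ε β σ : ℝ) (d : ℕ) (Λ : Finset (Zd d)) (η : ℝ) (hη : 0 < η) (x : Zd d) :
    Continuous fun p : (Ix (Zd d) → ℝ) × ℝ => gD (Hi ε β σ d p.1) Λ ⟨p.2, η⟩ x := by
  by_cases h : x ∈ Λ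
  · have e : (fun p : (Ix (Zd d) → ℝ) × ℝ => gD (Hi ε β σ d p.1) Λ ⟨p.2, η⟩ x)
        = fun p => Gr (MD (Hi ε β σ d p.1) Λ) ⟨p.2, η⟩ ⟨x, h⟩ ⟨x, h⟩ := by
      funext p
      unfold gD
      rw [dif_pos h]
    rw [e]
    refine Gr_cont (fun p : (Ix (Zd d) → ℝ) × ℝ => MD (Hi ε β σ d p.1) Λ)
      (fun p => (⟨p.2, η⟩ : ℂ)) (fun p => MDi_herm ε β σ d p.1 Λ) ?_ (fun p => hη.ne') ?_ _ _
    · refine continuous_matrix fun a b => ?_
      exact (Hi_cont ε β σ d a b).comp continuous_fst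
    · have e2 : (fun p : (Ix (Zd d) → ℝ) × ℝ => (⟨p.2, η⟩ : ℂ))
          = fun p => (p.2 : ℂ) + (η : ℂ) * Complex.I := by
        funext p
        exact Complex.mk_eq_add_mul_I _ _
      rw [e2]
      exact (Complex.continuous_ofReal.comp continuous_snd).add continuous_const
  · have e : (fun p : (Ix (Zd d) → ℝ) × ℝ => gD (Hi ε β σ d p.1) Λ ⟨p.2, η⟩ x) = fun _ => 0 := by
      funext p
      unfold gD
      rw [dif_neg h]
    rw [e]
    exact continuous_const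

/-- Absolute continuity at the origin. -/
theorem ac_zero {ε β σ : ℝ} {d : ℕ} (hd : 0 < d) (h1 : (d : ℝ) < 2 * β) (h2 : 3 * β < 2 * d)
    (hε : 0 < ε) (hσ : σ ≠ 0) :
    ∀ᵐ ω ∂(PP (Ix (Zd d))), ∀ hH : Adm (Hi ε β σ d ω),
      ∃ μ : Measure ℝ, IsProbabilityMeasure μ ∧ μ ≪ volume ∧ ∀ z : ℂ, z.im ≠ 0 → ∀ U : E2 (Zd d),
        IsU _ hH z 0 U → U 0 = ∫ E : ℝ, 1 / ((E : ℂ) - z) ∂μ := by
  obtain ⟨η, hη⟩ : ∃ η : ℕ → ℝ, η = fun m : ℕ => 1 / ((m : ℝ) + 1) := ⟨_, rfl⟩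
  have hη0 : ∀ m, 0 < η m := fun m => by rw [hη]; positivity
  have hηt : Tendsto η atTop (𝓝 0) := by rw [hη]; exact tendsto_one_div_add_atTop_nhds_zero_nat
  obtain ⟨f, hf⟩ : ∃ f : ℕ → (Ix (Zd d) → ℝ) → ℝ → ℝ, f = fun m ω E =>
    liminf (fun j => (gD (Hi ε β σ d ω) (bx d j) ⟨E, η m⟩ 0).im) atTop := ⟨_, rfl⟩
  have hfm : ∀ m, Measurable (fun p : (Ix (Zd d) → ℝ) × ℝ => f m p.1 p.2) := by
    intro m
    rw [hf]
    exact Measurable.liminf fun j =>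
      (Complex.continuous_im.comp (gD_cont ε β σ d (bx d j) (η m) (hη0 m) 0)).measurable
  have hae := ap_all (ε := ε) σ hd h1
  have hfU : ∀ᵐ ω ∂(PP (Ix (Zd d))), ∀ m E, ∀ hH : Adm (Hi ε β σ d ω), ∀ U : E2 (Zd d),
      (∀ g : Zd d →₀ ℂ, |η m| * ‖Jf g - U‖ ≤ ‖Tz (Hi ε β σ d ω) hH ⟨E, η m⟩ g - dl 0‖) →
        f m ω E = (U 0).im := by
    filter_upwards [hae] with ω hω m E hH U hU
    have hz : (⟨E, η m⟩ : ℂ).im ≠ 0 := (hη0 m).ne'
    have h3 := gD_tendsto hH (bx_exh d) hz 0 (hω hH _ hz 0) U hU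
    rw [hf]
    exact ((Complex.continuous_im.tendsto _).comp h3).liminf_eq
  have hb : ∀ ζ : ℝ, 0 < ζ → ∃ L : ℝ, 0 ≤ L ∧ ∀ m E,
      ∫⁻ ω, ENNReal.ofReal (f m ω E - L) ∂(PP (Ix (Zd d))) ≤ ENNReal.ofReal ζ := by
    intro ζ hζ
    obtain ⟨L, hL0, hL⟩ := fat hd h1 h2 hε hσ ζ hζ
    refine ⟨L, hL0, fun m E => hL ⟨E, η m⟩ (hη0 m) (fun ω => f m ω E) ?_⟩
    filter_upwards [hfU] with ω hω hH U hU
    exact hω m E hH U hU
  have hac := ac_crit (PP (Ix (Zd d))) η hη0 hηt f hfm hb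
  filter_upwards [hae, hfU, hac] with ω h3 h4 h5 hH
  obtain ⟨μ, hμ, h6⟩ := spec_exists hH (bx_exh d) 0 (fun z hz => h3 hH z hz 0)
  have h7 : ∀ z : ℂ, z.im ≠ 0 → ∀ U : E2 (Zd d), IsU _ hH z 0 U →
      U 0 = ∫ E : ℝ, 1 / ((E : ℂ) - z) ∂μ := by
    intro z hz U hU
    obtain ⟨U', hU', hU2⟩ := exists_U _ hH hz 0 (h3 hH z hz 0)
    have hz' : (conj z).im ≠ 0 := by simpa using hz
    rw [unique_U _ hH z 0 (h3 hH (conj z) hz') U U' hU hU']
    exact h6 z hz U' hU2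
  refine ⟨μ, hμ, h5 μ inferInstance fun m E => ?_, h7⟩
  have hz : (⟨E, η m⟩ : ℂ).im ≠ 0 := (hη0 m).ne'
  obtain ⟨U', hU', hU2⟩ := exists_U _ hH hz 0 (h3 hH _ hz 0)
  rw [h4 m E hH U' hU2, h6 _ hz U' hU2]

/-- Translation of Green functions. -/
theorem IsU_shift {d : ℕ} {H H' : Zd d → Zd d → ℂ} (c : Zd d)
    (h : ∀ x y, H' x y = H (x + c) (y + c)) (hH : Adm H) (hH' : Adm H') (z : ℂ) (U : E2 (Zd d))
    (hU : IsU H hH z c U) : ∃ U' : E2 (Zd d), IsU H' hH' z 0 U' ∧ U' 0 = U c := by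
  have hs : Summable fun y => ‖U (y + c)‖ ^ 2 :=
    ((Equiv.addRight c).summable_iff (f := fun y => ‖U y‖ ^ 2)).2 (sm2 U)
  refine ⟨⟨fun y => U (y + c), mem2 hs⟩, fun y => ?_, ?_⟩
  · have h1 := hU (y + c)
    have h2 : (if y + c = c then (1 : ℂ) else 0) = if y = 0 then 1 else 0 := by
      simp
    rw [h2] at h1
    rw [← h1]
    congr 1
    rw [lp.inner_eq_tsum, lp.inner_eq_tsum]
    refine Eq.trans ?_ ((Equiv.addRight c).tsum_eq fun w =>
      inner ℂ ((cl H hH (y + c) : E2 (Zd d)) w) (U w))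
    refine tsum_congr fun w => ?_
    show inner ℂ (H' w y) (U (w + c)) = inner ℂ (H (w + c) (y + c)) (U (w + c))
    rw [h]
  · show U (0 + c) = U c
    rw [zero_add]

/-- Absolute continuity. -/
theorem ac_all {ε β σ : ℝ} {d : ℕ} (hd : 0 < d) (h1 : (d : ℝ) < 2 * β) (h2 : 3 * β < 2 * d)
    (hε : 0 < ε) (hσ : σ ≠ 0) :
    ∀ᵐ ω ∂(PP (Ix (Zd d))), ∃ hH : Adm (Hi ε β σ d ω),
      (∀ z : ℂ, z.im ≠ 0 → ∀ x, Ap (Hi ε β σ d ω) hH z x) ∧
      ∀ x, ∃ μ : Measure ℝ, IsProbabilityMeasure μ ∧ μ ≪ volume ∧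
        ∀ z : ℂ, z.im ≠ 0 → ∀ U : E2 (Zd d), IsU _ hH z x U →
          U x = ∫ E : ℝ, 1 / ((E : ℂ) - z) ∂μ := by
  have h3 : ∀ᵐ ω ∂(PP (Ix (Zd d))), ∀ c : Zd d, ∀ hH : Adm (Hi ε β σ d (ta c ω)),
      ∃ μ : Measure ℝ, IsProbabilityMeasure μ ∧ μ ≪ volume ∧ ∀ z : ℂ, z.im ≠ 0 → ∀ U : E2 (Zd d),
        IsU _ hH z 0 U → U 0 = ∫ E : ℝ, 1 / ((E : ℂ) - z) ∂μ := by
    rw [ae_all_iff]
    intro c
    exact (ta_mp c).quasiMeasurePreserving.ae (ac_zero hd h1 h2 hε hσ)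
  filter_upwards [h3, ap_all (ε := ε) σ hd h1, adm_ae (ε := ε) (σ := σ) h1] with ω h4 h5 hH
  refine ⟨hH, h5 hH, fun x => ?_⟩
  have hA : Adm (Hi ε β σ d (ta x ω)) :=
    Adm_eq (Equiv.addRight x) (fun a b => Hi_ta ε β σ x ω a b) hH
  obtain ⟨μ, hμ, hac, h6⟩ := h4 x hA
  refine ⟨μ, hμ, hac, fun z hz U hU => ?_⟩
  obtain ⟨U', hU', hU0⟩ := IsU_shift x (fun a b => Hi_ta ε β σ x ω a b) hH hA z U hU
  rw [← hU0]
  exact h6 z hz U' hU'

section eig

variable {Γ : Type} [DecidableEq Γ]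

/-- Absence of eigenfunctions. -/
theorem no_eig {H : Γ → Γ → ℂ} (hH : Adm H) (hA : ∀ z : ℂ, z.im ≠ 0 → ∀ x, Ap H hH z x) (x : Γ)
    (μ : Measure ℝ) [IsFiniteMeasure μ] (hμ : μ ≪ volume)
    (hU : ∀ z : ℂ, z.im ≠ 0 → ∀ U : E2 Γ, IsU H hH z x U → U x = ∫ E : ℝ, 1 / ((E : ℂ) - z) ∂μ)
    (E : ℝ) (ψ : E2 Γ) (hψ : ∀ y, inner ℂ (cl H hH y) ψ = E * ψ y) : ψ x = 0 := by
  have key : ∀ η : ℝ, 0 < η → ‖ψ x‖ ^ 2
      ≤ ‖ψ‖ ^ 2 * (η * (∫ t : ℝ, 1 / ((t : ℂ) - ⟨E, η⟩) ∂μ).im) := by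
    intro η hη
    obtain ⟨z, hzd⟩ : ∃ z : ℂ, z = ⟨E, η⟩ := ⟨_, rfl⟩
    have hzi : z.im = η := by rw [hzd]
    have hz : z.im ≠ 0 := by rw [hzi]; exact hη.ne'
    obtain ⟨U, hU1, hU2⟩ := exists_U H hH hz x (hA z hz x)
    rw [← hzd, ← hU z hz U hU1]
    choose f hf using fun n : ℕ => hA z hz x (1 / ((n : ℝ) + 1)) (by positivity)
    have hlim : Tendsto (fun n : ℕ => 1 / ((n : ℝ) + 1)) atTop (𝓝 0) :=
      tendsto_one_div_add_atTop_nhds_zero_nat
    have hT : Tendsto (fun n => Tz H hH z (f n)) atTop (𝓝 (dl x)) := by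
      rw [tendsto_iff_norm_sub_tendsto_zero]
      exact squeeze_zero (fun _ => norm_nonneg _) hf hlim
    have hJ : Tendsto (fun n => Jf (f n)) atTop (𝓝 U) := by
      rw [tendsto_iff_norm_sub_tendsto_zero]
      have h6 := hlim.div_const |z.im|
      rw [zero_div] at h6
      refine squeeze_zero (fun _ => norm_nonneg _) (fun n => ?_) h6
      rw [le_div_iff₀ (abs_pos.2 hz), mul_comm]
      exact (hU2 (f n)).trans (hf n)
    -- the eigenfunction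
    have e1 : ψ x = ((E : ℂ) - conj z) * inner ℂ U ψ := by
      have l1 : Tendsto (fun n => inner ℂ (Tz H hH z (f n)) ψ) atTop (𝓝 (inner ℂ (dl x) ψ)) :=
        hT.inner tendsto_const_nhds
      have l2 : Tendsto (fun n => ((E : ℂ) - conj z) * inner ℂ (Jf (f n)) ψ) atTop
          (𝓝 (((E : ℂ) - conj z) * inner ℂ U ψ)) := (hJ.inner tendsto_const_nhds).const_mul _
      have e2 : ∀ n, inner ℂ (Tz H hH z (f n)) ψ = ((E : ℂ) - conj z) * inner ℂ (Jf (f n)) ψ := by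
        intro n
        have h3 := inner_Tz H hH (conj z) (f n) ψ
        rw [Complex.conj_conj] at h3
        rw [h3, inner_Jf, Finset.mul_sum]
        refine Finset.sum_congr rfl fun y _ => ?_
        rw [hψ y]
        ring
      simp only [e2] at l1
      rw [inner_dl] at l1
      exact tendsto_nhds_unique l1 l2
    have e3 : (U x).im = η * ‖U‖ ^ 2 := by
      have l1 : Tendsto (fun n => (inner ℂ (Jf (f n)) (Tz H hH z (f n))).im) atTop
          (𝓝 (inner ℂ U (dl x)).im) :=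
        (Complex.continuous_im.tendsto _).comp (hJ.inner hT)
      have l2 : Tendsto (fun n => -(z.im * ‖Jf (f n)‖ ^ 2)) atTop (𝓝 (-(z.im * ‖U‖ ^ 2))) :=
        ((hJ.norm.pow 2).const_mul _).neg
      have e2 : ∀ n, (inner ℂ (Jf (f n)) (Tz H hH z (f n))).im = -(z.im * ‖Jf (f n)‖ ^ 2) := by
        intro n
        have h1 : inner ℂ (Jf (f n)) (Tz H hH z (f n))
            = inner ℂ (Jf (f n)) (T0 H hH (f n)) - z * ((‖Jf (f n)‖ ^ 2 : ℝ) : ℂ) := by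
          have : Tz H hH z (f n) = T0 H hH (f n) - z • Jf (f n) := rfl
          rw [this, inner_sub_right, inner_smul_right, inner_self_eq_norm_sq_to_K]
          push_cast
          rfl
        rw [h1, Complex.sub_im, T0_symm, Complex.mul_im, Complex.ofReal_im, Complex.ofReal_re,
          mul_zero, zero_add, zero_sub]
      simp only [e2] at l1
      have e4 := tendsto_nhds_unique l1 l2
      have e5 : inner ℂ U (dl x) = conj (U x) := by
        rw [← inner_conj_symm, inner_dl]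
      rw [e5, Complex.conj_im, hzi] at e4
      linarith
    have e6 : ‖(E : ℂ) - conj z‖ = η := by
      have : (E : ℂ) - conj z = (η : ℂ) * Complex.I := by
        rw [hzd]
        apply Complex.ext <;> simp
      rw [this, norm_mul, Complex.norm_I, mul_one, Complex.norm_real, Real.norm_of_nonneg hη.le]
    have h7 : ‖ψ x‖ ≤ η * (‖U‖ * ‖ψ‖) := by
      rw [e1, norm_mul, e6]
      exact mul_le_mul_of_nonneg_left (norm_inner_le_norm _ _) hη.le
    calc ‖ψ x‖ ^ 2 ≤ (η * (‖U‖ * ‖ψ‖)) ^ 2 := pow_le_pow_left₀ (norm_nonneg _) h7 2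
      _ = ‖ψ‖ ^ 2 * (η * (U x).im) := by rw [e3]; ring
  -- the atom vanishes
  have h8 : Tendsto (fun n : ℕ => 1 / ((n : ℝ) + 1)
      * (∫ t : ℝ, 1 / ((t : ℂ) - ⟨E, 1 / ((n : ℝ) + 1)⟩) ∂μ).im) atTop (𝓝 0) := by
    have hne : ∀ (n : ℕ) (t : ℝ), (t : ℂ) - ⟨E, 1 / ((n : ℝ) + 1)⟩ ≠ 0 := by
      intro n t h
      have := congrArg Complex.im h
      simp only [Complex.sub_im, Complex.ofReal_im, zero_sub, Complex.zero_im, neg_eq_zero] at this
      have h9 : (0 : ℝ) < 1 / ((n : ℝ) + 1) := by positivity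
      exact h9.ne' this
    have hbd : ∀ (n : ℕ) (t : ℝ), ‖((1 / ((n : ℝ) + 1) : ℝ) : ℂ)
        * (1 / ((t : ℂ) - ⟨E, 1 / ((n : ℝ) + 1)⟩))‖ ≤ 1 := by
      intro n t
      have h9 : (0 : ℝ) < 1 / ((n : ℝ) + 1) := by positivity
      have h10 := Complex.abs_im_le_norm ((t : ℂ) - ⟨E, 1 / ((n : ℝ) + 1)⟩)
      simp only [Complex.sub_im, Complex.ofReal_im, zero_sub, abs_neg] at h10
      rw [abs_of_pos h9] at h10
      rw [norm_mul, Complex.norm_real, Real.norm_of_nonneg h9.le, norm_div, norm_one, mul_one_div,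
        div_le_one (norm_pos_iff.2 (hne n t))]
      exact h10
    have hcont : ∀ n : ℕ, Continuous fun t : ℝ => ((1 / ((n : ℝ) + 1) : ℝ) : ℂ)
        * (1 / ((t : ℂ) - ⟨E, 1 / ((n : ℝ) + 1)⟩)) := fun n =>
      continuous_const.mul (continuous_const.div
        (Complex.continuous_ofReal.sub continuous_const) (hne n))
    have hdc : Tendsto (fun n : ℕ => ∫ t : ℝ, ((1 / ((n : ℝ) + 1) : ℝ) : ℂ)
        * (1 / ((t : ℂ) - ⟨E, 1 / ((n : ℝ) + 1)⟩)) ∂μ) atTop (𝓝 (∫ _t : ℝ, (0 : ℂ) ∂μ)) := by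
      refine tendsto_integral_of_dominated_convergence (fun _ => 1)
        (fun n => (hcont n).aestronglyMeasurable) (integrable_const _)
        (fun n => Eventually.of_forall (hbd n)) ?_
      have hE : μ {E} = 0 := hμ (by simp)
      have : ∀ᵐ t ∂μ, t ≠ E := by
        rw [ae_iff]
        simpa using hE
      filter_upwards [this] with t ht
      have h11 : Tendsto (fun n : ℕ => (1 / ((n : ℝ) + 1)) / |t - E|) atTop (𝓝 0) := by
        have := (tendsto_one_div_add_atTop_nhds_zero_nat (𝕜 := ℝ)).div_const |t - E|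
        rwa [zero_div] at this
      refine squeeze_zero_norm (fun n => ?_) h11
      have h9 : (0 : ℝ) < 1 / ((n : ℝ) + 1) := by positivity
      have h10 := Complex.abs_re_le_norm ((t : ℂ) - ⟨E, 1 / ((n : ℝ) + 1)⟩)
      simp only [Complex.sub_re, Complex.ofReal_re] at h10
      rw [norm_mul, Complex.norm_real, Real.norm_of_nonneg h9.le, norm_div, norm_one, mul_one_div]
      exact div_le_div_of_nonneg_left h9.le (abs_pos.2 (sub_ne_zero.2 ht)) h10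
    rw [integral_zero] at hdc
    have h12 := (Complex.continuous_im.tendsto _).comp hdc
    rw [Complex.zero_im] at h12
    refine h12.congr fun n => ?_
    simp only [Function.comp]
    rw [integral_const_mul, Complex.im_ofReal_mul]
  have h9 : ‖ψ x‖ ^ 2 ≤ 0 := by
    have l1 := h8.const_mul (‖ψ‖ ^ 2)
    rw [mul_zero] at l1
    exact ge_of_tendsto' l1 fun n => key (1 / ((n : ℝ) + 1)) (by positivity)
  have h10 : ‖ψ x‖ = 0 := by
    have := sq_nonneg ‖ψ x‖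
    exact pow_eq_zero_iff two_ne_zero |>.1 (le_antisymm h9 this)
  exact norm_eq_zero.1 h10

end eig

end

end Pool.Agent.T2H19
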