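import Pool.Agent.T2H19.Fin2

/-! Abstract infinite volume limits of random matrices on tori. -/

set_option autoImplicit false

namespace Pool.Agent.T2H19

open MeasureTheory ProbabilityTheory Filter Topology
open scoped BigOperators ComplexConjugate ENNReal

noncomputable section

/-- A random matrix on the lattice with approximations on tori. -/
structure Mdl (d : ℕ) (Ω : Type) [TopologicalSpace Ω] [MeasurableSpace Ω] (P : Measure Ω) where
  H : Ω → Zd d → Zd d → ℂ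
  M : (n : ℕ) → Ω → Matrix (TV d n) (TV d n) ℂ
  sh : Zd d → Ω → Ω
  D : ℕ → ℝ
  Hc : ∀ x y, Continuous fun p => H p x y
  Hh : ∀ p x y, H p x y = conj (H p y x)
  Hsm : ∀ᵐ p ∂P, ∀ y, Summable fun x => ‖H p x y‖ ^ 2
  Mc : ∀ n, Continuous (M n)
  Mh : ∀ n p, (M n p).IsHermitian
  shm : ∀ c, MeasurePreserving (sh c) P P
  Hs : ∀ c p x y, H (sh c p) x y = H p (x + c) (y + c)
  Dt : Tendsto D atTop (𝓝 0)
  bd : ∀ n, ∑ v : TV d n, ∑' w : Zd d,
    ∫⁻ p, ENNReal.ofReal (‖H p w (lf v) - (if nm w ≤ n then M n p (qt w) v else 0)‖ ^ 2) ∂P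
      ≤ ENNReal.ofReal ((2 * n + 1 : ℝ) ^ d * D n)

namespace Mdl

variable {d : ℕ} {Ω : Type} [TopologicalSpace Ω] [MeasurableSpace Ω] [OpensMeasurableSpace Ω]
  {P : Measure Ω} (m : Mdl d Ω P)

/-- The difference of the matrices. -/
def Q (n : ℕ) (p : Ω) (w : Zd d) (v : TV d n) : ℂ :=
  m.H p w (lf v) - (if nm w ≤ n then m.M n p (qt w) v else 0)

/-- The column of the resolvent of the torus. -/
def fx (n : ℕ) (z : ℂ) (x : TV d n) (p : Ω) : Zd d →₀ ℂ :=
  ∑ v : TV d n, Finsupp.single (lf v) (Gr (m.M n p) z v x)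

theorem fx_lf (n : ℕ) (z : ℂ) (x : TV d n) (p : Ω) (u : TV d n) :
    m.fx n z x p (lf u) = Gr (m.M n p) z u x := by
  unfold fx
  rw [Finsupp.finsetSum_apply, Finset.sum_eq_single u]
  · simp
  · intro v _ hv
    rw [Finsupp.single_apply, if_neg (fun h => hv (lf_inj h))]
  · simp

theorem fx_far (n : ℕ) (z : ℂ) (x : TV d n) (p : Ω) {w : Zd d}
    (h : ¬ nm w ≤ n) : m.fx n z x p w = 0 := by
  unfold fx
  rw [Finsupp.finsetSum_apply]
  refine Finset.sum_eq_zero fun v _ => ?_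
  rw [Finsupp.single_apply, if_neg]
  rintro rfl
  exact h (nm_lf v)

theorem Tz_fx {n : ℕ} {z : ℂ} (hz : z.im ≠ 0) (x : TV d n) (p : Ω)
    (hH : Adm (m.H p)) (w : Zd d) :
    (Tz (m.H p) hH z (m.fx n z x p) - dl (lf x) : E2 (Zd d)) w
      = ∑ v, m.Q n p w v * Gr (m.M n p) z v x := by
  have e0 : (Tz (m.H p) hH z (m.fx n z x p) : E2 (Zd d)) w
      = ∑ v, Gr (m.M n p) z v x * m.H p w (lf v) - z * m.fx n z x p w := by
    have : Tz (m.H p) hH z (m.fx n z x p)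
        = T0 _ hH (m.fx n z x p) - z • Jf (m.fx n z x p) := rfl
    rw [this, lp.coeFn_sub, Pi.sub_apply, lp.coeFn_smul, Pi.smul_apply, Jf_apply]
    congr 1
    exact T0_sum _ hH lf _ w
  rw [lp.coeFn_sub, Pi.sub_apply, e0, dl_apply]
  have e1 : ∑ v, Gr (m.M n p) z v x * m.H p w (lf v)
      = ∑ v, m.H p w (lf v) * Gr (m.M n p) z v x :=
    Finset.sum_congr rfl fun v _ => mul_comm _ _
  rw [e1]
  by_cases h : nm w ≤ n
  · obtain ⟨u, hu⟩ : ∃ u : TV d n, u = qt w := ⟨_, rfl⟩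
    have hw : w = lf u := by rw [hu, lf_qt w h]
    have h1 := mul_Gr (m.M n p) (m.Mh n p) hz
    have h2 := congrFun (congrFun h1 u) x
    rw [Matrix.sub_mul, Matrix.smul_mul, Matrix.one_mul, Matrix.sub_apply, Matrix.mul_apply,
      Matrix.smul_apply, smul_eq_mul, Matrix.one_apply] at h2
    have h3 : (if w = lf x then (1 : ℂ) else 0) = if u = x then 1 else 0 := by
      rw [hw]
      by_cases h4 : u = x
      · rw [if_pos h4, if_pos (congrArg lf h4)]
      · rw [if_neg h4, if_neg (fun h5 => h4 (lf_inj h5))]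
    rw [h3, ← h2]
    have h4 : m.fx n z x p w = Gr (m.M n p) z u x := by rw [hw, fx_lf]
    rw [h4]
    have h5 : ∀ v, m.Q n p w v = m.H p w (lf v) - m.M n p u v := by
      intro v
      unfold Q
      rw [if_pos h, ← hu]
    simp only [h5, sub_mul, Finset.sum_sub_distrib]
    ring
  · rw [m.fx_far n z x p h, if_neg, mul_zero, sub_zero, sub_zero]
    · refine Finset.sum_congr rfl fun v _ => ?_
      unfold Q
      rw [if_neg h, sub_zero]
    · rintro rfl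
      exact h (nm_lf x)

/-- The error. -/
def Un (n : ℕ) (z : ℂ) (x : TV d n) (p : Ω) : ℝ≥0∞ :=
  ∑' w : Zd d, ENNReal.ofReal (‖∑ v, m.Q n p w v * Gr (m.M n p) z v x‖ ^ 2)

theorem Un_eq {n : ℕ} {z : ℂ} (hz : z.im ≠ 0) (x : TV d n) (p : Ω)
    (hH : Adm (m.H p)) :
    ENNReal.ofReal (‖Tz (m.H p) hH z (m.fx n z x p) - dl (lf x)‖ ^ 2) = m.Un n z x p := by
  rw [norm2, ENNReal.ofReal_tsum_of_nonneg (fun w => by positivity) (sm2 _)]
  unfold Un
  refine tsum_congr fun w => ?_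
  rw [m.Tz_fx hz x p hH w]

theorem Gm_cont (n : ℕ) {z : ℂ} (hz : z.im ≠ 0) (v x : TV d n) :
    Continuous fun p : Ω => Gr (m.M n p) z v x :=
  Gr_cont (m.M n) (fun _ => z) (m.Mh n) (m.Mc n) (fun _ => hz) continuous_const v x

theorem Q_cont (n : ℕ) (w : Zd d) (v : TV d n) : Continuous fun p : Ω => m.Q n p w v := by
  unfold Q
  refine (m.Hc w (lf v)).sub ?_
  by_cases h : nm w ≤ n
  · simp only [if_pos h]
    exact (m.Mc n).matrix_elem _ _
  · simp only [if_neg h]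
    exact continuous_const

theorem Un_meas (n : ℕ) {z : ℂ} (hz : z.im ≠ 0) (x : TV d n) : Measurable (m.Un n z x) := by
  unfold Un
  refine Measurable.tsum fun w => ?_
  refine Measurable.ennreal_ofReal ?_
  refine (Continuous.norm ?_).measurable.pow_const 2
  exact continuous_finsetSum _ fun v _ => (m.Q_cont n w v).mul (m.Gm_cont n hz v x)

theorem sum_Un (n : ℕ) {z : ℂ} (hz : z.im ≠ 0) :
    ∑ x : TV d n, ∫⁻ p, m.Un n z x p ∂P
      ≤ ENNReal.ofReal (1 / z.im ^ 2) * ENNReal.ofReal ((2 * n + 1 : ℝ) ^ d * m.D n) := by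
  have h1 : ∀ p, ∑ x, m.Un n z x p ≤ ENNReal.ofReal (1 / z.im ^ 2)
      * ∑' w, ∑ v, ENNReal.ofReal (‖m.Q n p w v‖ ^ 2) := by
    intro p
    unfold Un
    rw [← Summable.tsum_finsetSum (fun _ _ => ENNReal.summable), ← ENNReal.tsum_mul_left]
    refine ENNReal.tsum_le_tsum fun w => ?_
    rw [← ENNReal.ofReal_sum_of_nonneg (fun _ _ => by positivity),
      ← ENNReal.ofReal_sum_of_nonneg (fun _ _ => by positivity), ← ENNReal.ofReal_mul (by positivity)]
    refine ENNReal.ofReal_le_ofReal ?_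
    have := Gr_row (m.M n p) (m.Mh n p) hz (fun v => m.Q n p w v)
    rw [one_div, inv_mul_eq_div, le_div_iff₀ (by positivity), mul_comm]
    exact this
  have hm : ∀ w v, Measurable fun p => ENNReal.ofReal (‖m.Q n p w v‖ ^ 2) := fun w v =>
    ((m.Q_cont n w v).norm.measurable.pow_const 2).ennreal_ofReal
  calc ∑ x, ∫⁻ p, m.Un n z x p ∂P
      = ∫⁻ p, ∑ x, m.Un n z x p ∂P :=
        (lintegral_finsetSum _ (fun x _ => m.Un_meas n hz x)).symm
    _ ≤ ∫⁻ p, ENNReal.ofReal (1 / z.im ^ 2)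
        * ∑' w, ∑ v, ENNReal.ofReal (‖m.Q n p w v‖ ^ 2) ∂P :=
        lintegral_mono h1
    _ = ENNReal.ofReal (1 / z.im ^ 2)
        * ∑' w, ∑ v, ∫⁻ p, ENNReal.ofReal (‖m.Q n p w v‖ ^ 2) ∂P := by
        rw [lintegral_const_mul _ (Measurable.tsum fun w =>
          Finset.measurable_fun_sum _ fun v _ => hm w v),
          lintegral_tsum (fun w => (Finset.measurable_fun_sum _ fun v _ => hm w v).aemeasurable)]
        congr 1
        refine tsum_congr fun w => ?_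
        exact lintegral_finsetSum _ (fun v _ => hm w v)
    _ ≤ _ := by
        rw [Summable.tsum_finsetSum (fun _ _ => ENNReal.summable)]
        exact mul_le_mul_right (m.bd n) _

theorem exists_x (n : ℕ) {z : ℂ} (hz : z.im ≠ 0) :
    ∃ x : TV d n, ∫⁻ p, m.Un n z x p ∂P ≤ ENNReal.ofReal (m.D n / z.im ^ 2) := by
  have h1 := m.sum_Un n hz
  have h2 : ENNReal.ofReal (1 / z.im ^ 2) * ENNReal.ofReal ((2 * n + 1 : ℝ) ^ d * m.D n)
      = ∑ _x : TV d n, ENNReal.ofReal (m.D n / z.im ^ 2) := by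
    rw [Finset.sum_const, Finset.card_univ, card_TV, nsmul_eq_mul, ← ENNReal.ofReal_natCast,
      ← ENNReal.ofReal_mul (by positivity), ← ENNReal.ofReal_mul (by positivity)]
    congr 1
    push_cast
    ring
  rw [h2] at h1
  obtain ⟨x, -, hx⟩ := ENNReal.exists_le_of_sum_le Finset.univ_nonempty h1
  exact ⟨x, hx⟩

theorem adm_ae : ∀ᵐ p ∂P, Adm (m.H p) := by
  filter_upwards [m.Hsm] with p hp
  exact ⟨m.Hh p, hp⟩

theorem ap_seq {z : ℂ} (hz : z.im ≠ 0) :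
    ∃ (n : ℕ → ℕ) (x : ∀ k, TV d (n k)), (∀ k, k ≤ n k) ∧
      ∀ᵐ p ∂P, ∀ hH : Adm (m.H p), ∃ f : ℕ → (Zd d →₀ ℂ),
        (∀ k, f k 0 = Gr (m.M (n k) (m.sh (-lf (x k)) p)) z (x k) (x k)) ∧
        Tendsto (fun k => ‖Tz (m.H p) hH z (f k) - dl 0‖) atTop (𝓝 0) := by
  have hz2 : 0 < z.im ^ 2 := by positivity
  have h1 : Tendsto (fun n : ℕ => m.D n / z.im ^ 2) atTop (𝓝 0) := by
    have := m.Dt.div_const (z.im ^ 2)
    simpa using this
  have h2 : ∀ k : ℕ, ∃ n, k ≤ n ∧ m.D n / z.im ^ 2 ≤ (1 / 2 : ℝ) ^ k := by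
    intro k
    have h3 := (tendsto_order.1 h1).2 ((1 / 2 : ℝ) ^ k) (by positivity)
    obtain ⟨I, hI⟩ := (h3.and (eventually_ge_atTop k)).exists
    exact ⟨I, hI.2, hI.1.le⟩
  choose n hn1 hn2 using h2
  choose x hx using fun k => m.exists_x (n k) hz
  refine ⟨n, x, hn1, ?_⟩
  have hm : ∀ k, Measurable fun p => m.Un (n k) z (x k) (m.sh (-lf (x k)) p) :=
    fun k => (m.Un_meas _ hz (x k)).comp (m.shm (-lf (x k))).measurable
  have hlt : ∫⁻ p, ∑' k, m.Un (n k) z (x k) (m.sh (-lf (x k)) p) ∂P < ∞ := by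
    rw [lintegral_tsum (fun k => (hm k).aemeasurable)]
    have h3 : ∀ k, ∫⁻ p, m.Un (n k) z (x k) (m.sh (-lf (x k)) p) ∂P
        ≤ ENNReal.ofReal ((1 / 2 : ℝ) ^ k) := by
      intro k
      rw [(m.shm (-lf (x k))).lintegral_comp (m.Un_meas _ hz (x k))]
      exact (hx k).trans (ENNReal.ofReal_le_ofReal (hn2 k))
    refine (ENNReal.tsum_le_tsum h3).trans_lt ?_
    rw [← ENNReal.ofReal_tsum_of_nonneg (fun k => by positivity) summable_geometric_two]
    exact ENNReal.ofReal_lt_top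
  filter_upwards [ae_lt_top (Measurable.tsum hm) hlt.ne] with p hp hH
  have hA : ∀ k, Adm (m.H (m.sh (-lf (x k)) p)) := fun k =>
    Adm_eq (Equiv.addRight (-lf (x k))) (fun a b => m.Hs (-lf (x k)) p a b) hH
  refine ⟨fun k => (m.fx (n k) z (x k) (m.sh (-lf (x k)) p)).equivMapDomain
    (Equiv.addRight (-lf (x k))), fun k => ?_, ?_⟩
  · rw [Finsupp.equivMapDomain_apply]
    have : (Equiv.addRight (-lf (x k))).symm 0 = lf (x k) := by simp
    rw [this, fx_lf]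
  · have e1 : ∀ k, ‖Tz (m.H p) hH z
        ((m.fx (n k) z (x k) (m.sh (-lf (x k)) p)).equivMapDomain
          (Equiv.addRight (-lf (x k)))) - dl 0‖ ^ 2
        = (m.Un (n k) z (x k) (m.sh (-lf (x k)) p)).toReal := by
      intro k
      have h3 := Tz_shift (Equiv.addRight (-lf (x k)))
        (fun a b => m.Hs (-lf (x k)) p a b) hH (hA k) z
        (m.fx (n k) z (x k) (m.sh (-lf (x k)) p)) (lf (x k))
      have h4 : (Equiv.addRight (-lf (x k))) (lf (x k)) = (0 : Zd d) := by simp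
      rw [h4] at h3
      rw [h3, ← m.Un_eq hz (x k) (m.sh (-lf (x k)) p) (hA k), ENNReal.toReal_ofReal (by positivity)]
    have h5 := ENNReal.tendsto_atTop_zero_of_tsum_ne_top hp.ne
    have h6 := (ENNReal.tendsto_toReal ENNReal.zero_ne_top).comp h5
    simp only [ENNReal.toReal_zero] at h6
    have h7 : Tendsto (fun k => √((m.Un (n k) z (x k)
        (m.sh (-lf (x k)) p)).toReal)) atTop (𝓝 0) := by
      have := (Real.continuous_sqrt.tendsto 0).comp h6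
      rwa [Real.sqrt_zero] at this
    refine h7.congr fun k => ?_
    rw [← e1 k, Real.sqrt_sq (norm_nonneg _)]

theorem ap_zero {z : ℂ} (hz : z.im ≠ 0) : ∀ᵐ p ∂P, ∀ hH : Adm (m.H p), Ap (m.H p) hH z 0 := by
  obtain ⟨I, x, -, h⟩ := m.ap_seq hz
  filter_upwards [h] with p hp hH δ hδ
  obtain ⟨f, -, hf⟩ := hp hH
  obtain ⟨k, hk⟩ := ((tendsto_order.1 hf).2 δ hδ).exists
  exact ⟨f k, hk.le⟩

theorem ap_x {z : ℂ} (hz : z.im ≠ 0) :
    ∀ᵐ p ∂P, ∀ hH : Adm (m.H p), ∀ x, Ap (m.H p) hH z x := by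
  have h1 : ∀ x : Zd d, ∀ᵐ p ∂P, ∀ hH : Adm (m.H p), Ap (m.H p) hH z x := by
    intro x
    have h2 := (m.shm x).quasiMeasurePreserving.ae (m.ap_zero hz)
    filter_upwards [h2] with p hp hH δ hδ
    have hA : Adm (m.H (m.sh x p)) :=
      Adm_eq (Equiv.addRight x) (fun a b => m.Hs x p a b) hH
    obtain ⟨f, hf⟩ := hp hA δ hδ
    refine ⟨f.equivMapDomain (Equiv.addRight x), ?_⟩
    have h3 := Tz_shift (Equiv.addRight x) (fun a b => m.Hs x p a b) hH hA z f 0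
    have h4 : (Equiv.addRight x) (0 : Zd d) = x := by simp
    rw [h4] at h3
    rw [h3]
    exact hf
  rw [← ae_all_iff] at h1
  filter_upwards [h1] with p hp hH x
  exact hp x hH

theorem ap_all : ∀ᵐ p ∂P, ∀ hH : Adm (m.H p), ∀ z : ℂ, z.im ≠ 0 →
      ∀ x, Ap (m.H p) hH z x := by
  have h1 : ∀ q : ℚ × ℚ, q.2 ≠ 0 → ∀ᵐ p ∂P, ∀ hH : Adm (m.H p),
      ∀ x, Ap (m.H p) hH ⟨(q.1 : ℝ), (q.2 : ℝ)⟩ x := by
    intro q hq
    exact m.ap_x (z := ⟨(q.1 : ℝ), (q.2 : ℝ)⟩) (by simpa using hq)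
  have h2 : ∀ q : ℚ × ℚ, ∀ᵐ p ∂P, q.2 ≠ 0 → ∀ hH : Adm (m.H p),
      ∀ x, Ap (m.H p) hH ⟨(q.1 : ℝ), (q.2 : ℝ)⟩ x := by
    intro q
    by_cases hq : q.2 = 0
    · exact Eventually.of_forall fun p h => absurd hq h
    · filter_upwards [h1 q hq] with p hp _
      exact hp
  rw [← ae_all_iff] at h2
  filter_upwards [h2] with p hp hH z hz
  have hz' : 0 < |z.im| := abs_pos.2 hz
  obtain ⟨a, ha1, ha2⟩ := exists_rat_btwn (show z.re - |z.im| / 4 < z.re + |z.im| / 4 by linarith)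
  obtain ⟨b, hb1, hb2⟩ := exists_rat_btwn (show z.im - |z.im| / 4 < z.im + |z.im| / 4 by linarith)
  have h3 : |(b : ℝ) - z.im| < |z.im| / 4 := by rw [abs_lt]; constructor <;> linarith
  have h4 : |(a : ℝ) - z.re| < |z.im| / 4 := by rw [abs_lt]; constructor <;> linarith
  have h5 : 3 / 4 * |z.im| < |(b : ℝ)| := by
    have := abs_sub_abs_le_abs_sub z.im (b : ℝ)
    rw [abs_sub_comm] at this
    linarith
  have hb0 : b ≠ 0 := by
    rintro rfl
    rw [Rat.cast_zero, abs_zero] at h5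
    linarith
  refine Ap_dense (m.H p) hH (z := z) (z0 := ⟨(a : ℝ), (b : ℝ)⟩) ?_ (hp (a, b) hb0 hH)
  have h6 : ‖z - ⟨(a : ℝ), (b : ℝ)⟩‖ ≤ |z.re - a| + |z.im - b| := by
    have := Complex.norm_le_abs_re_add_abs_im (z - ⟨(a : ℝ), (b : ℝ)⟩)
    simpa using this
  rw [abs_sub_comm z.re, abs_sub_comm z.im] at h6
  show _ < |(b : ℝ)|
  linarith

/-- Bounds pass to the infinite volume. -/
theorem fat (φ : ℂ → ℝ) (hφ : Continuous φ) {z : ℂ} (hz : z.im ≠ 0) (B : ℝ≥0∞)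
    (hB : ∀ᶠ n in atTop, ∀ x : TV d n, ∫⁻ p, ENNReal.ofReal (φ (Gr (m.M n p) z x x)) ∂P ≤ B)
    (F : Ω → ℂ)
    (hF : ∀ᵐ p ∂P, ∀ hH : Adm (m.H p), ∀ U : E2 (Zd d),
        (∀ f : Zd d →₀ ℂ, |z.im| * ‖Jf f - U‖ ≤ ‖Tz (m.H p) hH z f - dl 0‖) → F p = U 0) :
    ∫⁻ p, ENNReal.ofReal (φ (F p)) ∂P ≤ B := by
  obtain ⟨n, x, hn, hae⟩ := m.ap_seq hz
  obtain ⟨G, hG⟩ : ∃ G : ℕ → Ω → ℂ, G = fun k p =>
      Gr (m.M (n k) (m.sh (-lf (x k)) p)) z (x k) (x k) := ⟨_, rfl⟩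
  have hlim : ∀ᵐ p ∂P, Tendsto (fun k => G k p) atTop (𝓝 (F p)) := by
    filter_upwards [hae, hF, m.adm_ae] with p h3 h4 hH
    obtain ⟨f, hf1, hf2⟩ := h3 hH
    have hAp : Ap (m.H p) hH z 0 := by
      intro δ hδ
      obtain ⟨k, hk⟩ := ((tendsto_order.1 hf2).2 δ hδ).exists
      exact ⟨f k, hk.le⟩
    obtain ⟨U, -, hU⟩ := exists_U _ hH hz 0 hAp
    rw [h4 hH U hU]
    have h5 : Tendsto (fun k => f k 0) atTop (𝓝 (U 0)) := by
      rw [tendsto_iff_norm_sub_tendsto_zero]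
      have h6 := hf2.div_const |z.im|
      rw [zero_div] at h6
      refine squeeze_zero (fun _ => norm_nonneg _) (fun k => ?_) h6
      have h7 := coord_le (Jf (f k) - U) 0
      rw [lp.coeFn_sub, Pi.sub_apply, Jf_apply] at h7
      refine h7.trans ?_
      rw [le_div_iff₀ (abs_pos.2 hz), mul_comm]
      exact hU (f k)
    refine h5.congr fun k => ?_
    rw [hG]
    exact hf1 k
  have hGm : ∀ k, Measurable (G k) := by
    intro k
    rw [hG]
    exact (m.Gm_cont _ hz (x k) (x k)).measurable.comp (m.shm (-lf (x k))).measurable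
  have hval : ∀ k, ∫⁻ p, ENNReal.ofReal (φ (G k p)) ∂P
      = ∫⁻ p, ENNReal.ofReal (φ (Gr (m.M (n k) p) z (x k) (x k))) ∂P := by
    intro k
    rw [hG]
    simp only
    have hm : Measurable fun p : Ω => ENNReal.ofReal (φ (Gr (m.M (n k) p) z (x k) (x k))) :=
      (hφ.comp (m.Gm_cont _ hz (x k) (x k))).measurable.ennreal_ofReal
    exact (m.shm (-lf (x k))).lintegral_comp hm
  calc ∫⁻ p, ENNReal.ofReal (φ (F p)) ∂P
      = ∫⁻ p, liminf (fun k => ENNReal.ofReal (φ (G k p))) atTop ∂P := by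
        refine lintegral_congr_ae ?_
        filter_upwards [hlim] with p hp
        have h3 : Tendsto (fun k => ENNReal.ofReal (φ (G k p))) atTop
            (𝓝 (ENNReal.ofReal (φ (F p)))) :=
          (ENNReal.continuous_ofReal.tendsto _).comp ((hφ.tendsto _).comp hp)
        exact h3.liminf_eq.symm
    _ ≤ liminf (fun k => ∫⁻ p, ENNReal.ofReal (φ (G k p)) ∂P) atTop :=
        lintegral_liminf_le fun k => (hφ.measurable.comp (hGm k)).ennreal_ofReal
    _ ≤ liminf (fun _ : ℕ => B) atTop := by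
        refine liminf_le_liminf ?_
        have hnt : Tendsto n atTop atTop := tendsto_atTop_mono hn tendsto_id
        filter_upwards [hnt.eventually hB] with k hk
        rw [hval k]
        exact hk (x k)
    _ = B := liminf_const _

theorem MD_herm' (p : Ω) (Λ : Finset (Zd d)) : (MD (m.H p) Λ).IsHermitian := by
  ext a b
  rw [Matrix.conjTranspose_apply]
  unfold MD
  rw [m.Hh p a b]
  rfl

theorem gD_cont (Λ : Finset (Zd d)) (η : ℝ) (hη : 0 < η) (x : Zd d) :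
    Continuous fun q : Ω × ℝ => gD (m.H q.1) Λ ⟨q.2, η⟩ x := by
  by_cases h : x ∈ Λ
  · have e : (fun q : Ω × ℝ => gD (m.H q.1) Λ ⟨q.2, η⟩ x)
        = fun q => Gr (MD (m.H q.1) Λ) ⟨q.2, η⟩ ⟨x, h⟩ ⟨x, h⟩ := by
      funext q
      unfold gD
      rw [dif_pos h]
    rw [e]
    refine Gr_cont (fun q : Ω × ℝ => MD (m.H q.1) Λ)
      (fun q => (⟨q.2, η⟩ : ℂ)) (fun q => m.MD_herm' q.1 Λ) ?_ (fun q => hη.ne') ?_ _ _
    · refine continuous_matrix fun a b => ?_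
      exact (m.Hc a b).comp continuous_fst
    · have e2 : (fun q : Ω × ℝ => (⟨q.2, η⟩ : ℂ))
          = fun q => (q.2 : ℂ) + (η : ℂ) * Complex.I := by
        funext q
        exact Complex.mk_eq_add_mul_I _ _
      rw [e2]
      exact (Complex.continuous_ofReal.comp continuous_snd).add continuous_const
  · have e : (fun q : Ω × ℝ => gD (m.H q.1) Λ ⟨q.2, η⟩ x) = fun _ => 0 := by
      funext q
      unfold gD
      rw [dif_neg h]
    rw [e]
    exact continuous_const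

end Mdl

end

end Pool.Agent.T2H19
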