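import Pool.Agent.T2H19.Ac

/-! From second moments of the Borel transform to dimensions of measures. -/

set_option autoImplicit false

namespace Pool.Agent.T2H19

open MeasureTheory ProbabilityTheory Filter Topology
open scoped BigOperators ComplexConjugate ENNReal NNReal

noncomputable section

/-- Indicator of closeness. -/
def kq (η : ℝ) (p : ℝ × ℝ) : ℝ≥0∞ := if |p.1 - p.2| ≤ η then 1 else 0

theorem kq_meas (η : ℝ) : Measurable (kq η) := by
  unfold kq
  exact Measurable.ite (measurableSet_le (by fun_prop) measurable_const) measurable_const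
    measurable_const

/-- Mass of balls. -/
def bm (μ : Measure ℝ) (η s : ℝ) : ℝ≥0∞ := μ (Metric.closedBall s η)

theorem bm_eq (μ : Measure ℝ) (η s : ℝ) : bm μ η s = ∫⁻ t, kq η (t, s) ∂μ := by
  have h : (fun t => kq η (t, s)) = (Metric.closedBall s η).indicator 1 := by
    funext t
    unfold kq
    by_cases h : |t - s| ≤ η
    · rw [if_pos h, Set.indicator_of_mem]
      · rfl
      · rw [Metric.mem_closedBall, Real.dist_eq]; exact h
    · rw [if_neg h, Set.indicator_of_notMem]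
      rw [Metric.mem_closedBall, Real.dist_eq]; exact h
  rw [h, lintegral_indicator_one Metric.isClosed_closedBall.measurableSet]
  rfl

theorem bm_meas (μ : Measure ℝ) [SFinite μ] (η : ℝ) : Measurable (bm μ η) := by
  have : bm μ η = fun s => ∫⁻ t, kq η (t, s) ∂μ := funext fun s => bm_eq μ η s
  rw [this]
  exact (kq_meas η).lintegral_prod_left'

theorem energy (μ : Measure ℝ) [IsFiniteMeasure μ] {η : ℝ} (hη : 0 < η) (R : ℝ) :
    ENNReal.ofReal η * ∫⁻ s in Set.Icc (-R) R, bm μ η s ∂μ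
      ≤ ∫⁻ E in Set.Icc (-(R + η)) (R + η), (bm μ η E) ^ 2 := by
  obtain ⟨I, hI⟩ : ∃ I, I = Set.Icc (-(R + η)) (R + η) := ⟨_, rfl⟩
  rw [← hI]
  have hm1 : Measurable fun p : ℝ × ℝ => kq η (p.2, p.1) * bm μ η p.1 :=
    ((kq_meas η).comp measurable_swap).mul ((bm_meas μ η).comp measurable_fst)
  have e1 : ∫⁻ E in I, (bm μ η E) ^ 2
      = ∫⁻ s, ∫⁻ E in I, kq η (s, E) * bm μ η E ∂volume ∂μ := by
    rw [← lintegral_lintegral_swap hm1.aemeasurable]
    refine lintegral_congr fun E => ?_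
    have hm2 : Measurable fun s => kq η (s, E) := (kq_meas η).comp measurable_prodMk_right
    show (bm μ η E) ^ 2 = ∫⁻ s, kq η (s, E) * bm μ η E ∂μ
    rw [lintegral_mul_const _ hm2, ← bm_eq, sq]
  rw [e1, ← lintegral_const_mul _ (bm_meas μ η)]
  refine le_trans ?_ (setLIntegral_le_lintegral (Set.Icc (-R) R) _)
  refine setLIntegral_mono' measurableSet_Icc fun s hs => ?_
  have hm3 : Measurable fun p : ℝ × ℝ => kq η (s, p.1) * kq η (p.2, p.1) :=
    ((kq_meas η).comp (measurable_const.prodMk measurable_fst)).mul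
      ((kq_meas η).comp measurable_swap)
  have e2 : ∫⁻ E in I, kq η (s, E) * bm μ η E
      = ∫⁻ t, ∫⁻ E in I, kq η (s, E) * kq η (t, E) ∂volume ∂μ := by
    rw [← lintegral_lintegral_swap hm3.aemeasurable]
    refine lintegral_congr fun E => ?_
    have hm2 : Measurable fun t => kq η (t, E) := (kq_meas η).comp measurable_prodMk_right
    show kq η (s, E) * bm μ η E = ∫⁻ t, kq η (s, E) * kq η (t, E) ∂μ
    rw [lintegral_const_mul _ hm2, ← bm_eq]
  have hm4 : Measurable fun t => kq η (t, s) := (kq_meas η).comp measurable_prodMk_right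
  rw [e2, bm_eq, ← lintegral_const_mul _ hm4]
  refine lintegral_mono fun t => ?_
  by_cases h : |t - s| ≤ η
  · have e3 : kq η (t, s) = 1 := by unfold kq; rw [if_pos h]
    rw [e3, mul_one]
    obtain ⟨J, hJ⟩ : ∃ J, J = Set.Icc (max s t - η) (min s t + η) := ⟨_, rfl⟩
    have hJI : J ⊆ I := by
      rw [hJ, hI]
      have h1 := le_max_left s t
      have h2 := min_le_left s t
      exact Set.Icc_subset_Icc (by linarith [hs.1]) (by linarith [hs.2])
    calc ENNReal.ofReal η ≤ ENNReal.ofReal (min s t + η - (max s t - η)) := by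
          refine ENNReal.ofReal_le_ofReal ?_
          rw [abs_le] at h
          rcases le_total s t with h3 | h3
          · rw [min_eq_left h3, max_eq_right h3]; linarith
          · rw [min_eq_right h3, max_eq_left h3]; linarith
      _ = ∫⁻ _E in J, 1 := by
          rw [setLIntegral_one, hJ, Real.volume_Icc]
      _ ≤ ∫⁻ E in J, kq η (s, E) * kq η (t, E) := by
          rw [hJ]
          refine setLIntegral_mono' measurableSet_Icc fun E hE => ?_
          have h1 := le_max_left s t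
          have h2 := le_max_right s t
          have h3 := min_le_left s t
          have h4 := min_le_right s t
          have h5 : |s - E| ≤ η := by rw [abs_le]; constructor <;> linarith [hE.1, hE.2]
          have h6 : |t - E| ≤ η := by rw [abs_le]; constructor <;> linarith [hE.1, hE.2]
          unfold kq
          rw [if_pos h5, if_pos h6, one_mul]
      _ ≤ ∫⁻ E in I, kq η (s, E) * kq η (t, E) := lintegral_mono_set hJI
  · have e3 : kq η (t, s) = 0 := by unfold kq; rw [if_neg h]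
    rw [e3, mul_zero]
    exact bot_le

theorem F_ge (μ : Measure ℝ) [IsFiniteMeasure μ] {η : ℝ} (hη : 0 < η) (E : ℝ) :
    ENNReal.ofReal (1 / (4 * η ^ 2)) * (bm μ η E) ^ 2
      ≤ ENNReal.ofReal (‖∫ t : ℝ, 1 / ((t : ℂ) - ⟨E, η⟩) ∂μ‖ ^ 2) := by
  have h1 : 1 / (2 * η) * μ.real (Metric.closedBall E η)
      ≤ ‖∫ t : ℝ, 1 / ((t : ℂ) - ⟨E, η⟩) ∂μ‖ := by
    refine le_trans ?_ ((le_abs_self _).trans (Complex.abs_im_le_norm _))
    rw [Pk_im μ hη]
    have h2 : 1 / (2 * η) * μ.real (Metric.closedBall E η)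
        = ∫ t, (Metric.closedBall E η).indicator (fun _ => 1 / (2 * η)) t ∂μ := by
      rw [integral_indicator_const _ Metric.isClosed_closedBall.measurableSet, smul_eq_mul,
        mul_comm]
    rw [h2]
    refine integral_mono ((integrable_const _).indicator
      Metric.isClosed_closedBall.measurableSet) (Pk_intp μ hη E) fun t => ?_
    by_cases h : t ∈ Metric.closedBall E η
    · rw [Set.indicator_of_mem h]
      rw [Metric.mem_closedBall, Real.dist_eq] at h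
      unfold Pk
      have h3 : (t - E) ^ 2 ≤ η ^ 2 := by
        rw [← sq_abs]; exact pow_le_pow_left₀ (abs_nonneg _) h 2
      rw [div_le_div_iff₀ (by positivity) (by positivity)]
      nlinarith
    · rw [Set.indicator_of_notMem h]
      exact Pk_nonneg hη t E
  have h2 : bm μ η E = ENNReal.ofReal (μ.real (Metric.closedBall E η)) := by
    unfold bm
    rw [Measure.real, ENNReal.ofReal_toReal (measure_ne_top _ _)]
  rw [h2, ← ENNReal.ofReal_pow (by positivity), ← ENNReal.ofReal_mul (by positivity)]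
  refine ENNReal.ofReal_le_ofReal ?_
  refine le_trans (le_of_eq ?_) (pow_le_pow_left₀ (by positivity) h1 2)
  field_simp
  ring

/-- Energies of measures are bounded by second moments of the Borel transform. -/
theorem lemD (μ : Measure ℝ) [IsFiniteMeasure μ] {η : ℝ} (hη : 0 < η) (R : ℝ) :
    ∫⁻ s in Set.Icc (-R) R, bm μ η s ∂μ ≤ ENNReal.ofReal (4 * η)
      * ∫⁻ E in Set.Icc (-(R + η)) (R + η),
        ENNReal.ofReal (‖∫ t : ℝ, 1 / ((t : ℂ) - ⟨E, η⟩) ∂μ‖ ^ 2) := by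
  have h1 := energy μ hη R
  have h2 : ENNReal.ofReal (1 / (4 * η ^ 2)) * ∫⁻ E in Set.Icc (-(R + η)) (R + η), (bm μ η E) ^ 2
      ≤ ∫⁻ E in Set.Icc (-(R + η)) (R + η),
        ENNReal.ofReal (‖∫ t : ℝ, 1 / ((t : ℂ) - ⟨E, η⟩) ∂μ‖ ^ 2) := by
    rw [← lintegral_const_mul _ ((bm_meas μ η).pow_const 2)]
    exact lintegral_mono fun E => F_ge μ hη E
  refine le_trans ?_ (mul_le_mul_right h2 _)
  rw [← mul_assoc, ← ENNReal.ofReal_mul (by positivity)]
  refine le_trans ?_ (mul_le_mul_right h1 _)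
  rw [← mul_assoc, ← ENNReal.ofReal_mul (by positivity)]
  have e : 4 * η * (1 / (4 * η ^ 2)) * η = 1 := by field_simp
  rw [e, ENNReal.ofReal_one, one_mul]

/-- No atoms. -/
theorem atom_crit (μ : Measure ℝ) [IsFiniteMeasure μ] (η : ℕ → ℝ) (hη : ∀ j, 0 < η j)
    (h : ∀ R : ℕ, ∑' j, ∫⁻ s in Set.Icc (-(R : ℝ)) R, bm μ (η j) s ∂μ ≠ ∞) (E : ℝ) :
    μ {E} = 0 := by
  obtain ⟨R, hR⟩ := exists_nat_gt |E|
  have h1 := ENNReal.tendsto_atTop_zero_of_tsum_ne_top (h R)
  have h2 : ∀ j, μ {E} * μ {E} ≤ ∫⁻ s in Set.Icc (-(R : ℝ)) R, bm μ (η j) s ∂μ := by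
    intro j
    have hE : E ∈ Set.Icc (-(R : ℝ)) R := ⟨(abs_lt.1 hR).1.le, (abs_lt.1 hR).2.le⟩
    calc μ {E} * μ {E} ≤ bm μ (η j) E * μ {E} := by
          refine mul_le_mul_left (measure_mono ?_) _
          rw [Set.singleton_subset_iff]
          exact Metric.mem_closedBall_self (hη j).le
      _ = ∫⁻ s in {E}, bm μ (η j) s ∂μ := (lintegral_singleton _ _).symm
      _ ≤ _ := lintegral_mono_set (Set.singleton_subset_iff.2 hE)
  have h3 : μ {E} * μ {E} ≤ 0 := ge_of_tendsto' h1 h2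
  exact mul_self_eq_zero.1 (le_antisymm h3 bot_le)

/-- Sets on which the measure is Hölder. -/
def Hs (μ : Measure ℝ) (γ : ℝ) (K : ℕ) : Set ℝ :=
  {s | ∀ j : ℕ, bm μ ((1 / 2 : ℝ) ^ j) s ≤ ENNReal.ofReal (K * ((1 / 2 : ℝ) ^ j) ^ γ)}

theorem Hs_meas (μ : Measure ℝ) [IsFiniteMeasure μ] (γ : ℝ) (K : ℕ) :
    MeasurableSet (Hs μ γ K) := by
  have : Hs μ γ K = ⋂ j : ℕ, {s | bm μ ((1 / 2 : ℝ) ^ j) s
      ≤ ENNReal.ofReal (K * ((1 / 2 : ℝ) ^ j) ^ γ)} := by
    ext s
    simp [Hs]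
  rw [this]
  exact MeasurableSet.iInter fun j => measurableSet_le (bm_meas μ _) measurable_const

theorem Hs_null (μ : Measure ℝ) [IsFiniteMeasure μ] {γ : ℝ} (hγ : 0 < γ) (K : ℕ) (hK : 1 ≤ K)
    (N : Set ℝ) (hN : Measure.hausdorffMeasure γ N = 0) : μ (N ∩ Hs μ γ K) = 0 := by
  have hK' : (1 : ℝ) ≤ K := by exact_mod_cast hK
  obtain ⟨c, hc⟩ : ∃ c : ℝ≥0∞, c = ENNReal.ofReal (K * 2 ^ γ) := ⟨_, rfl⟩
  have hc0 : c ≠ 0 := by
    rw [hc, Ne, ENNReal.ofReal_eq_zero, not_le]; positivity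
  have hct : c ≠ ∞ := by rw [hc]; exact ENNReal.ofReal_ne_top
  have key : ∀ t : Set ℝ, Metric.ediam t ≤ 1 → μ (t ∩ Hs μ γ K) ≤ c * Metric.ediam t ^ γ := by
    intro t ht
    rcases (t ∩ Hs μ γ K).eq_empty_or_nonempty with h | ⟨x, hx1, hx2⟩
    · rw [h, measure_empty]; exact bot_le
    obtain ⟨δ, hδ⟩ : ∃ δ : ℝ, δ = (Metric.ediam t).toReal := ⟨_, rfl⟩
    have hdt : Metric.ediam t ≠ ∞ := (ht.trans_lt ENNReal.one_lt_top).ne
    have hδe : Metric.ediam t = ENNReal.ofReal δ := by rw [hδ, ENNReal.ofReal_toReal hdt]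
    have hδ0 : 0 ≤ δ := by rw [hδ]; exact ENNReal.toReal_nonneg
    have hδ1 : δ ≤ 1 := by
      rw [hδ]
      have := ENNReal.toReal_mono ENNReal.one_ne_top ht
      simpa using this
    have hball : ∀ r, δ ≤ r → t ⊆ Metric.closedBall x r := by
      intro r hr y hy
      rw [Metric.mem_closedBall]
      refine le_trans ?_ hr
      rw [hδ, dist_edist]
      exact ENNReal.toReal_mono hdt (Metric.edist_le_ediam_of_mem hy hx1)
    have hj : ∀ j : ℕ, δ ≤ (1 / 2 : ℝ) ^ j →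
        μ (t ∩ Hs μ γ K) ≤ ENNReal.ofReal (K * ((1 / 2 : ℝ) ^ j) ^ γ) := fun j hj =>
      (measure_mono (Set.inter_subset_left.trans (hball _ hj))).trans (hx2 j)
    rcases hδ0.eq_or_lt with h0 | h0
    · have h1 : Tendsto (fun j : ℕ => ENNReal.ofReal (K * ((1 / 2 : ℝ) ^ j) ^ γ)) atTop (𝓝 0) := by
        have h2 : Tendsto (fun j : ℕ => ((1 / 2 : ℝ) ^ j) ^ γ) atTop (𝓝 0) := by
          have h3 : (fun j : ℕ => ((1 / 2 : ℝ) ^ j) ^ γ) = fun j : ℕ => ((1 / 2 : ℝ) ^ γ) ^ j := by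
            funext j
            rw [← Real.rpow_natCast, ← Real.rpow_natCast, ← Real.rpow_mul (by norm_num),
              ← Real.rpow_mul (by norm_num), mul_comm]
          rw [h3]
          exact tendsto_pow_atTop_nhds_zero_of_lt_one (by positivity)
            (Real.rpow_lt_one (by norm_num) (by norm_num) hγ)
        have h4 := ENNReal.tendsto_ofReal (h2.const_mul (K : ℝ))
        simpa using h4
      have h2 : μ (t ∩ Hs μ γ K) ≤ 0 :=
        ge_of_tendsto' h1 fun j => hj j (by rw [← h0]; positivity)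
      exact h2.trans bot_le
    · obtain ⟨j, hj1, hj2⟩ : ∃ j : ℕ, δ ≤ (1 / 2 : ℝ) ^ j ∧ (1 / 2 : ℝ) ^ (j + 1) < δ := by
        obtain ⟨n, hn1, hn2⟩ := exists_nat_pow_near_of_lt_one h0 hδ1 (by norm_num : (0 : ℝ) < 1 / 2)
          (by norm_num : (1 / 2 : ℝ) < 1)
        exact ⟨n, hn2, hn1⟩
      refine (hj j hj1).trans ?_
      rw [hc, hδe, ENNReal.ofReal_rpow_of_pos h0, ← ENNReal.ofReal_mul (by positivity)]
      refine ENNReal.ofReal_le_ofReal ?_
      rw [mul_assoc, ← Real.mul_rpow (by norm_num) hδ0]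
      refine mul_le_mul_of_nonneg_left ?_ (by positivity)
      refine Real.rpow_le_rpow (by positivity) ?_ hγ.le
      rw [pow_succ] at hj2
      linarith
  have h1 : c⁻¹ • μ.restrict (Hs μ γ K) ≤ Measure.hausdorffMeasure γ := by
    refine Measure.le_hausdorffMeasure γ _ 1 one_pos fun t ht => ?_
    rw [Measure.smul_apply, smul_eq_mul, Measure.restrict_apply' (Hs_meas μ γ K)]
    calc c⁻¹ * μ (t ∩ Hs μ γ K) ≤ c⁻¹ * (c * Metric.ediam t ^ γ) := mul_le_mul_right (key t ht) _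
      _ = _ := by rw [← mul_assoc, ENNReal.inv_mul_cancel hc0 hct, one_mul]
  have h2 := h1 N
  rw [hN, Measure.smul_apply, smul_eq_mul, Measure.restrict_apply' (Hs_meas μ γ K)] at h2
  have h3 := le_antisymm h2 bot_le
  rcases mul_eq_zero.1 h3 with h | h
  · exact absurd h (ENNReal.inv_ne_zero.2 hct)
  · exact h

/-- Continuity for Hausdorff measures. -/
theorem dim_crit (μ : Measure ℝ) [IsFiniteMeasure μ] {γ : ℝ} (hγ : 0 < γ)
    (h : ∀ R : ℕ, ∑' j : ℕ, ENNReal.ofReal (((1 / 2 : ℝ) ^ j) ^ (-γ))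
      * ∫⁻ s in Set.Icc (-(R : ℝ)) R, bm μ ((1 / 2 : ℝ) ^ j) s ∂μ ≠ ∞) :
    μ ≪ Measure.hausdorffMeasure γ := by
  intro N hN
  have h1 : ∀ R : ℕ, ∀ᵐ s ∂μ, s ∈ Set.Icc (-(R : ℝ)) R → ∃ K : ℕ, 1 ≤ K ∧ s ∈ Hs μ γ K := by
    intro R
    have hm : ∀ j : ℕ, Measurable fun s => ENNReal.ofReal (((1 / 2 : ℝ) ^ j) ^ (-γ))
        * bm μ ((1 / 2 : ℝ) ^ j) s := fun j => (bm_meas μ _).const_mul _
    have h2 : ∫⁻ s in Set.Icc (-(R : ℝ)) R, ∑' j : ℕ, ENNReal.ofReal (((1 / 2 : ℝ) ^ j) ^ (-γ))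
        * bm μ ((1 / 2 : ℝ) ^ j) s ∂μ ≠ ∞ := by
      rw [lintegral_tsum fun j => (hm j).aemeasurable]
      have h3 := h R
      simp only [lintegral_const_mul _ (bm_meas μ _)]
      exact h3
    have h3 := ae_lt_top (Measurable.tsum hm) h2
    rw [ae_restrict_iff' measurableSet_Icc] at h3
    filter_upwards [h3] with s hs hsR
    have h4 := hs hsR
    obtain ⟨K, hK⟩ := exists_nat_gt (∑' j : ℕ, ENNReal.ofReal (((1 / 2 : ℝ) ^ j) ^ (-γ))
        * bm μ ((1 / 2 : ℝ) ^ j) s).toReal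
    refine ⟨K + 1, by omega, fun j => ?_⟩
    have h5 : ENNReal.ofReal (((1 / 2 : ℝ) ^ j) ^ (-γ)) * bm μ ((1 / 2 : ℝ) ^ j) s
        ≤ ENNReal.ofReal ((K + 1 : ℕ) : ℝ) := by
      refine (ENNReal.le_tsum (f := fun j : ℕ => ENNReal.ofReal (((1 / 2 : ℝ) ^ j) ^ (-γ))
        * bm μ ((1 / 2 : ℝ) ^ j) s) j).trans ?_
      rw [← ENNReal.ofReal_toReal h4.ne]
      refine ENNReal.ofReal_le_ofReal (hK.le.trans ?_)
      push_cast
      linarith
    have hp : 0 < ((1 / 2 : ℝ) ^ j) := by positivity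
    have h6 : bm μ ((1 / 2 : ℝ) ^ j) s = ENNReal.ofReal (((1 / 2 : ℝ) ^ j) ^ γ)
        * (ENNReal.ofReal (((1 / 2 : ℝ) ^ j) ^ (-γ)) * bm μ ((1 / 2 : ℝ) ^ j) s) := by
      rw [← mul_assoc, ← ENNReal.ofReal_mul (by positivity), ← Real.rpow_add hp]
      simp
    rw [h6]
    refine (mul_le_mul_right h5 _).trans (le_of_eq ?_)
    rw [← ENNReal.ofReal_mul (by positivity), mul_comm]
  rw [← ae_all_iff] at h1
  have h2 : N ⊆ {s | ¬ ∀ R : ℕ, s ∈ Set.Icc (-(R : ℝ)) R → ∃ K : ℕ, 1 ≤ K ∧ s ∈ Hs μ γ K}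
      ∪ ⋃ K : ℕ, N ∩ Hs μ γ (K + 1) := by
    intro s hs
    by_cases h3 : ∀ R : ℕ, s ∈ Set.Icc (-(R : ℝ)) R → ∃ K : ℕ, 1 ≤ K ∧ s ∈ Hs μ γ K
    · right
      obtain ⟨R, hR⟩ := exists_nat_gt |s|
      obtain ⟨K, hK1, hK2⟩ := h3 R ⟨(abs_lt.1 hR).1.le, (abs_lt.1 hR).2.le⟩
      obtain ⟨K', rfl⟩ : ∃ K', K = K' + 1 := ⟨K - 1, by omega⟩
      exact Set.mem_iUnion.2 ⟨K', hs, hK2⟩
    · left
      exact h3
  refine measure_mono_null h2 (measure_union_null h1 (measure_iUnion_null fun K => ?_))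
  exact Hs_null μ hγ (K + 1) (by omega) N hN

/-- Almost sure finiteness of energies. -/
theorem prob_crit {Ω : Type*} [MeasurableSpace Ω] (P : Measure Ω) [IsProbabilityMeasure P]
    (η : ℕ → ℝ) (hη : ∀ j, 0 < η j) (C0 : ℝ) (hC0 : ∀ j, η j ≤ C0) (a B : ℕ → ℝ)
    (ha : ∀ j, 0 ≤ a j) (hB : ∀ j, 0 ≤ B j) (hs : Summable fun j => a j * (η j * B j))
    (f : ℕ → Ω → ℝ → ℝ≥0∞) (hf : ∀ j, Measurable (fun p : Ω × ℝ => f j p.1 p.2))
    (hb : ∀ j E, ∫⁻ ω, f j ω E ∂P ≤ ENNReal.ofReal (B j)) :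
    ∀ᵐ ω ∂P, ∀ μ : Measure ℝ, IsFiniteMeasure μ →
      (∀ j E, f j ω E = ENNReal.ofReal (‖∫ t : ℝ, 1 / ((t : ℂ) - ⟨E, η j⟩) ∂μ‖ ^ 2)) →
      ∀ R : ℕ, ∑' j, ENNReal.ofReal (a j) * ∫⁻ s in Set.Icc (-(R : ℝ)) R, bm μ (η j) s ∂μ ≠ ∞ := by
  have hC00 : 0 ≤ C0 := (hη 0).le.trans (hC0 0)
  have h1 : ∀ R : ℕ, ∀ᵐ ω ∂P, ∑' j, ENNReal.ofReal (a j) * (ENNReal.ofReal (4 * η j)
      * ∫⁻ E in Set.Icc (-(R + C0)) (R + C0), f j ω E) < ∞ := by
    intro R
    have hm : ∀ j, Measurable fun ω => ENNReal.ofReal (a j) * (ENNReal.ofReal (4 * η j)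
        * ∫⁻ E in Set.Icc (-(R + C0)) (R + C0), f j ω E) := fun j =>
      (((hf j).lintegral_prod_right' (ν := volume.restrict (Set.Icc (-(R + C0)) (R + C0)))).const_mul
        _).const_mul _
    refine ae_lt_top (Measurable.tsum hm) ?_
    rw [lintegral_tsum fun j => (hm j).aemeasurable]
    have h2 : ∀ j, ∫⁻ ω, ENNReal.ofReal (a j) * (ENNReal.ofReal (4 * η j)
        * ∫⁻ E in Set.Icc (-(R + C0)) (R + C0), f j ω E) ∂P
        ≤ ENNReal.ofReal (8 * (R + C0) * (a j * (η j * B j))) := by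
      intro j
      have hm1 := (hf j).lintegral_prod_right'
        (ν := volume.restrict (Set.Icc (-(R + C0)) (R + C0)))
      rw [lintegral_const_mul _ (hm1.const_mul _), lintegral_const_mul _ hm1,
        lintegral_lintegral_swap (hf j).aemeasurable]
      have h3 : ∫⁻ E in Set.Icc (-(R + C0)) (R + C0), ∫⁻ ω, f j ω E ∂P
          ≤ ENNReal.ofReal (B j) * ENNReal.ofReal (2 * (R + C0)) := by
        calc ∫⁻ E in Set.Icc (-(R + C0)) (R + C0), ∫⁻ ω, f j ω E ∂P
            ≤ ∫⁻ _E in Set.Icc (-(R + C0)) (R + C0), ENNReal.ofReal (B j) :=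
              lintegral_mono fun E => hb j E
          _ = _ := by
              rw [setLIntegral_const, Real.volume_Icc]
              congr 2
              ring
      refine (mul_le_mul_right (mul_le_mul_right h3 _) _).trans (le_of_eq ?_)
      have := ha j
      have := hB j
      have := hη j
      rw [← ENNReal.ofReal_mul (by positivity), ← ENNReal.ofReal_mul (by positivity),
        ← ENNReal.ofReal_mul (by positivity)]
      congr 1
      ring
    refine ((ENNReal.tsum_le_tsum h2).trans_lt ?_).ne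
    rw [← ENNReal.ofReal_tsum_of_nonneg (fun j => by
      have := ha j
      have := hB j
      have := hη j
      positivity) (hs.mul_left _)]
    exact ENNReal.ofReal_lt_top
  rw [← ae_all_iff] at h1
  filter_upwards [h1] with ω hω μ hμ hfμ R
  refine ((ENNReal.tsum_le_tsum fun j => ?_).trans_lt (hω R)).ne
  refine mul_le_mul_right ?_ _
  refine (lemD μ (hη j) R).trans (mul_le_mul_right ?_ _)
  simp only [← hfμ j]
  refine lintegral_mono_set (Set.Icc_subset_Icc ?_ ?_)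
  · linarith [hC0 j]
  · linarith [hC0 j]

end

end Pool.Agent.T2H19
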