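import Pool.Agent.T2H19.G1
import Pool.Agent.T2H19.Blk2

/-! The lattice operator with i.i.d. potential and random hopping. -/

set_option autoImplicit false

namespace Pool.Agent.T2H19

open MeasureTheory ProbabilityTheory Filter Topology Matrix
open scoped BigOperators ComplexConjugate ENNReal

noncomputable section

/-- Conditions on the variance profile. -/
structure Prf {d : ℕ} (S : Zd d → ℝ) : Prop where
  S0 : ∀ h, 0 ≤ S h
  Ss : ∀ h, S (-h) = S h
  Sm : Summable S

/-- The probability space: potential and Gaussian variables. -/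
abbrev Om (d : ℕ) : Type := (Zd d → ℝ) × (Ix (Zd d) → ℝ)

/-- Law of the i.i.d. potential with single site law `ν` and the Gaussian variables. -/
abbrev Pr (d : ℕ) (ν : Measure ℝ) [IsProbabilityMeasure ν] : Measure (Om d) :=
  (Measure.infinitePi fun _ : Zd d => ν).prod (PP (Ix (Zd d)))

theorem inj_mp' (ν : Measure ℝ) [IsProbabilityMeasure ν] {α ι : Type*} {f : α → ι}
    (hf : Function.Injective f) :
    MeasurePreserving (fun (ω : ι → ℝ) i => ω (f i)) (Measure.infinitePi fun _ : ι => ν)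
      (Measure.infinitePi fun _ : α => ν) :=
  ⟨measurable_pi_lambda _ fun _ => measurable_pi_apply _,
    Measure.map_infinitePi_infinitePi_of_inj (P := fun _ : ι => ν) hf⟩

/-- The matrix on the lattice. -/
def HG {d : ℕ} (S : Zd d → ℝ) (p : Om d) (x y : Zd d) : ℂ :=
  (kk (x - y) : ℂ) + (if x = y then (p.1 x : ℂ) else 0) + ((√(S (x - y)) : ℝ) : ℂ) * Wg p.2 x y

/-- Deterministic part on the torus. -/
def KG (d n : ℕ) (u : TV d n → ℝ) : Matrix (TV d n) (TV d n) ℂ :=
  KT d n + Matrix.diagonal (fun v => (u v : ℂ))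

/-- Profile on the torus. -/
def SG {d : ℕ} (S : Zd d → ℝ) (n : ℕ) (v w : TV d n) : ℝ := S (lf (v - w))

/-- The matrix on the torus. -/
def MG {d : ℕ} (S : Zd d → ℝ) (n : ℕ) (p : Om d) : Matrix (TV d n) (TV d n) ℂ :=
  Hf (KG d n fun v => p.1 (lf v)) (fun k => cS 0 (SG S n) k * p.2 (shI lf k))

theorem KG_herm (d n : ℕ) (u : TV d n → ℝ) : (KG d n u).IsHermitian := by
  unfold KG
  refine (KT_herm d n).add ?_
  refine Matrix.isHermitian_diagonal_of_self_adjoint _ ?_
  unfold IsSelfAdjoint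
  funext v
  simp

theorem KG_cont (d n : ℕ) : Continuous fun u : TV d n → ℝ => KG d n u := by
  unfold KG
  refine continuous_const.add (Continuous.matrix_diagonal ?_)
  exact continuous_pi fun v => Complex.continuous_ofReal.comp (continuous_apply v)

section prof

variable {d : ℕ} {S : Zd d → ℝ} (hS : Prf S)

include hS

theorem SG_symm (n : ℕ) (v w : TV d n) : SG S n v w = SG S n w v := by
  unfold SG
  rw [lf_symm v w, hS.Ss]

theorem SG_nonneg (n : ℕ) (v w : TV d n) : 0 ≤ SG S n v w := hS.S0 _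

theorem HG_herm (p : Om d) (x y : Zd d) : HG S p x y = conj (HG S p y x) := by
  unfold HG
  rw [map_add, map_add, map_mul, Complex.conj_ofReal, Complex.conj_ofReal, ← Wg_symm,
    ← neg_sub y x, kk_neg, hS.Ss]
  congr 1
  congr 1
  by_cases h : x = y
  · rw [if_pos h, if_pos h.symm, h, Complex.conj_ofReal]
  · rw [if_neg h, if_neg (Ne.symm h), map_zero]

theorem MG_entry (n : ℕ) (p : Om d) (v w : TV d n) :
    MG S n p v w = (kk (lf (v - w)) : ℂ) + (if v = w then (p.1 (lf v) : ℂ) else 0)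
      + ((√(S (lf (v - w))) : ℝ) : ℂ) * Wg p.2 (lf v) (lf w) := by
  unfold MG
  rw [Hf_entry (KG d n fun v => p.1 (lf v)) 0 (SG S n) (SG_symm hS n) (fun k => p.2 (shI lf k)) v w]
  unfold He KG SG
  rw [Wg_sh, Matrix.add_apply, Matrix.diagonal_apply]
  simp [KT]

end prof

theorem HG_cont {d : ℕ} (S : Zd d → ℝ) (x y : Zd d) : Continuous fun p : Om d => HG S p x y := by
  unfold HG
  refine (continuous_const.add ?_).add (continuous_const.mul ((Wg_cont x y).comp continuous_snd))
  by_cases h : x = y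
  · simp only [if_pos h]
    exact Complex.continuous_ofReal.comp ((continuous_apply _).comp continuous_fst)
  · simp only [if_neg h]
    exact continuous_const

theorem Hf_cont2 {V X : Type} [Fintype V] [DecidableEq V] [TopologicalSpace X]
    (K : X → Matrix V V ℂ) (hK : Continuous K) (x : X → Ix V → ℝ) (hx : Continuous x) :
    Continuous fun t => Hf (K t) (x t) := by
  unfold Hf
  refine hK.add (continuous_finsetSum _ fun k _ => ?_)
  exact (Complex.continuous_ofReal.comp ((continuous_apply k).comp hx)).smul continuous_const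

theorem MG_cont {d : ℕ} (S : Zd d → ℝ) (n : ℕ) : Continuous (MG S n) := by
  unfold MG
  refine Hf_cont2 _ ?_ _ ?_
  · exact (KG_cont d n).comp (continuous_pi fun v => (continuous_apply (lf v)).comp continuous_fst)
  · exact continuous_pi fun k => continuous_const.mul
      ((continuous_apply (shI lf k)).comp continuous_snd)

/-- The shift. -/
def sG {d : ℕ} (c : Zd d) (p : Om d) : Om d := (fun x => p.1 (x + c), ta c p.2)

theorem sG_mp {d : ℕ} (ν : Measure ℝ) [IsProbabilityMeasure ν] (c : Zd d) :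
    MeasurePreserving (sG c) (Pr d ν) (Pr d ν) :=
  (inj_mp' ν (add_left_injective c)).prod (ta_mp c)

theorem HG_s {d : ℕ} (S : Zd d → ℝ) (c : Zd d) (p : Om d) (x y : Zd d) :
    HG S (sG c p) x y = HG S p (x + c) (y + c) := by
  unfold HG sG ta
  rw [Wg_sh, add_sub_add_right_eq_sub]
  simp only [add_left_inj]

/-- Coefficient of the Gaussian part of the difference. -/
def rQ {d : ℕ} (S : Zd d → ℝ) (n : ℕ) (w : Zd d) (v : TV d n) : ℝ :=
  √(S (w - lf v)) - if nm w ≤ n then √(S (lf (qt w - v))) else 0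

theorem QG_eq {d : ℕ} {S : Zd d → ℝ} (hS : Prf S) (n : ℕ) (p : Om d) (w : Zd d) (v : TV d n) :
    HG S p w (lf v) - (if nm w ≤ n then MG S n p (qt w) v else 0)
      = (kQ d n w v : ℂ) + (rQ S n w v : ℂ) * Wg p.2 w (lf v) := by
  unfold kQ rQ HG
  by_cases h : nm w ≤ n
  · rw [if_pos h, if_pos h, if_pos h, MG_entry hS, lf_qt w h]
    by_cases h2 : w = lf v
    · have h3 : qt w = v := by rw [h2, qt_lf]
      rw [if_pos h2, if_pos h3]
      push_cast
      ring
    · have h3 : qt w ≠ v := by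
        intro h4
        apply h2
        rw [← h4, lf_qt w h]
      rw [if_neg h2, if_neg h3]
      push_cast
      ring
  · rw [if_neg h, if_neg h, if_neg h]
    have h2 : w ≠ lf v := by
      rintro rfl
      exact h (nm_lf v)
    rw [if_neg h2]
    push_cast
    ring

/-- The bounding profile. -/
def PG {d : ℕ} (S : Zd d → ℝ) (h : Zd d) : ℝ := 2 * kk h ^ 2 + 4 * S h

theorem PG_nonneg {d : ℕ} {S : Zd d → ℝ} (hS : Prf S) (h : Zd d) : 0 ≤ PG S h := by
  have := hS.S0 h
  unfold PG; positivity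

theorem kk_nonneg {d : ℕ} (h : Zd d) : 0 ≤ kk h := by
  unfold kk; split_ifs <;> norm_num

theorem PG_summable {d : ℕ} {S : Zd d → ℝ} (hS : Prf S) : Summable (PG S) := by
  unfold PG
  refine Summable.add ?_ (hS.Sm.mul_left 4)
  refine Summable.mul_left 2 ?_
  refine summable_of_hasFiniteSupport ?_
  refine Set.Finite.subset (bx d 1).finite_toSet fun h hh => ?_
  by_contra hc
  apply hh
  have h1 : 1 < nm h := by
    by_contra h2
    apply hc
    unfold bx
    rw [Finset.mem_coe, Finset.mem_image]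
    exact ⟨qt h, Finset.mem_univ _, lf_qt h (by omega)⟩
  show kk h ^ 2 = 0
  rw [kk_far h h1]
  norm_num

theorem sub_sq_le {a b : ℝ} (ha : 0 ≤ a) (hb : 0 ≤ b) : (a - b) ^ 2 ≤ a ^ 2 + b ^ 2 := by
  nlinarith [mul_nonneg ha hb]

theorem r_bound {d : ℕ} {S : Zd d → ℝ} (hS : Prf S) (n : ℕ) (w : Zd d) (v : TV d n) :
    2 * kQ d n w v ^ 2 + 4 * rQ S n w v ^ 2 ≤
      (if nm w ≤ n then (if nm (w - lf v) ≤ n then 0 else PG S (w - lf v)) +
        (if nm (lf v + lf (qt w - v)) ≤ n then 0 else PG S (lf (qt w - v)))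
      else PG S (w - lf v)) := by
  unfold kQ rQ PG
  by_cases h : nm w ≤ n
  · rw [if_pos h, if_pos h, if_pos h]
    by_cases h2 : nm (w - lf v) ≤ n
    · have e1 : lf (qt w - v) = w - lf v := by
        have := lf_sub (qt w : TV d n) v (by rw [lf_qt w h]; exact h2)
        rw [this, lf_qt w h]
      have h3 : nm (lf v + lf (qt w - v)) ≤ n := by
        rw [e1, add_sub_cancel]
        exact h
      rw [if_pos h3, if_pos h2, e1, sub_self, sub_self]
      norm_num
    · have h3 : ¬ nm (lf v + lf (qt w - v)) ≤ n := by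
        intro h4
        have e1 : (qt (lf v + lf (qt w - v)) : TV d n) = qt w := by
          have : lf v + lf (qt w - v) = lf v - -lf (qt w - v) := by abel
          rw [this, qt_sub, qt_neg, qt_lf, qt_lf]
          abel
        have e2 : lf v + lf (qt w - v) = w := by
          rw [← lf_qt _ h4, e1, lf_qt w h]
        apply h2
        have e3 : w - lf v = lf (qt w - v) := by
          conv_lhs => rw [← e2]
          abel
        rw [e3]
        exact nm_lf _
      rw [if_neg h2, if_neg h3]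
      have h5 := sub_sq_le (kk_nonneg (w - lf v)) (kk_nonneg (lf (qt w - v)))
      have h6 := sub_sq_le (Real.sqrt_nonneg (S (w - lf v))) (Real.sqrt_nonneg (S (lf (qt w - v))))
      rw [Real.sq_sqrt (hS.S0 _), Real.sq_sqrt (hS.S0 _)] at h6
      linarith
  · rw [if_neg h, if_neg h, if_neg h, sub_zero, sub_zero, Real.sq_sqrt (hS.S0 _)]

/-- The averaged error. -/
def DG {d : ℕ} (S : Zd d → ℝ) (n : ℕ) : ℝ :=
  2 * ∑' h : Zd d, PG S h * ((Th d n h : ℝ) / (2 * n + 1 : ℝ) ^ d)
    + ∑' h : Zd d, (if nm h ≤ n then 0 else PG S h)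

theorem DG_tendsto {d : ℕ} {S : Zd d → ℝ} (hS : Prf S) : Tendsto (DG S) atTop (𝓝 0) := by
  have h1 : Tendsto (fun n : ℕ => ∑' h : Zd d, PG S h * ((Th d n h : ℝ) / (2 * n + 1 : ℝ) ^ d))
      atTop (𝓝 (∑' _h : Zd d, 0)) := by
    refine tendsto_tsum_of_dominated_convergence (PG_summable hS) (fun h => ?_)
      (Eventually.of_forall fun n h => ?_)
    · have := (Th_tendsto d h).const_mul (PG S h)
      rwa [mul_zero] at this
    · rw [Real.norm_of_nonneg (mul_nonneg (PG_nonneg hS _) (by positivity))]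
      calc PG S h * ((Th d n h : ℝ) / (2 * n + 1 : ℝ) ^ d) ≤ PG S h * 1 :=
            mul_le_mul_of_nonneg_left (Th_le_one d n h) (PG_nonneg hS _)
        _ = _ := mul_one _
  have h2 : Tendsto (fun n : ℕ => ∑' h : Zd d, (if nm h ≤ n then 0 else PG S h))
      atTop (𝓝 (∑' _h : Zd d, 0)) := by
    refine tendsto_tsum_of_dominated_convergence (PG_summable hS) (fun h => ?_)
      (Eventually.of_forall fun n h => ?_)
    · refine tendsto_const_nhds.congr' ?_
      filter_upwards [eventually_ge_atTop (nm h)] with n hn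
      rw [if_pos hn]
    · split_ifs
      · rw [norm_zero]; exact PG_nonneg hS _
      · rw [Real.norm_of_nonneg (PG_nonneg hS _)]
  rw [tsum_zero] at h1 h2
  have h3 := (h1.const_mul 2).add h2
  simp only [mul_zero, add_zero] at h3
  exact h3

theorem sum_r {d : ℕ} {S : Zd d → ℝ} (hS : Prf S) (n : ℕ) :
    ∑ v : TV d n, ∑' w : Zd d, ENNReal.ofReal (2 * kQ d n w v ^ 2 + 4 * rQ S n w v ^ 2)
      ≤ ENNReal.ofReal ((2 * n + 1 : ℝ) ^ d * DG S n) := by
  obtain ⟨Z, hZ⟩ : ∃ Z : TV d n → ℝ≥0∞, Z = fun v => ∑' h : Zd d,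
      (if nm (lf v + h) ≤ n then 0 else ENNReal.ofReal (PG S h)) := ⟨_, rfl⟩
  obtain ⟨T, hT⟩ : ∃ T : ℝ≥0∞, T = ∑' h : Zd d,
      (if nm h ≤ n then 0 else ENNReal.ofReal (PG S h)) := ⟨_, rfl⟩
  have h1 : ∀ v : TV d n, ∑' w : Zd d, ENNReal.ofReal (2 * kQ d n w v ^ 2 + 4 * rQ S n w v ^ 2)
      ≤ Z v + Z v + T := by
    intro v
    have h2 : ∀ w : Zd d, ENNReal.ofReal (2 * kQ d n w v ^ 2 + 4 * rQ S n w v ^ 2)
        ≤ (if nm (w - lf v) ≤ n then 0 else ENNReal.ofReal (PG S (w - lf v)))
          + (if nm w ≤ n then (if nm (lf v + lf (qt w - v)) ≤ n then 0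
            else ENNReal.ofReal (PG S (lf (qt w - v)))) else 0)
          + (if nm w ≤ n then 0 else ENNReal.ofReal (PG S (w - lf v))) := by
      intro w
      refine (ENNReal.ofReal_le_ofReal (r_bound hS n w v)).trans ?_
      by_cases h : nm w ≤ n
      · rw [if_pos h, if_pos h, if_pos h, add_zero,
          ENNReal.ofReal_add (by
            split_ifs
            · exact le_rfl
            · exact PG_nonneg hS _) (by
            split_ifs
            · exact le_rfl
            · exact PG_nonneg hS _)]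
        refine add_le_add ?_ ?_ <;> split_ifs <;> simp
      · rw [if_neg h, if_neg h, if_neg h]
        exact le_add_self
    refine (ENNReal.tsum_le_tsum h2).trans ?_
    rw [ENNReal.tsum_add, ENNReal.tsum_add, tsum_box]
    have e1 : ∑' w : Zd d, (if nm (w - lf v) ≤ n then 0 else ENNReal.ofReal (PG S (w - lf v)))
        = T := by
      rw [hT, ← (Equiv.addLeft (lf v)).tsum_eq]
      refine tsum_congr fun h => ?_
      simp only [Equiv.coe_addLeft, add_sub_cancel_left]
    have e2 : ∑ w : TV d n, (if nm (lf v + lf (qt (lf w) - v)) ≤ n then 0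
        else ENNReal.ofReal (PG S (lf (qt (lf w) - v)))) ≤ Z v := by
      simp only [qt_lf]
      have e3 : ∑ w : TV d n, (if nm (lf v + lf (w - v)) ≤ n then (0 : ℝ≥0∞)
          else ENNReal.ofReal (PG S (lf (w - v))))
          = ∑ u : TV d n, (if nm (lf v + lf u) ≤ n then (0 : ℝ≥0∞)
            else ENNReal.ofReal (PG S (lf u))) :=
        Equiv.sum_comp (Equiv.subRight v) fun u => (if nm (lf v + lf u) ≤ n then (0 : ℝ≥0∞)
            else ENNReal.ofReal (PG S (lf u)))
      rw [e3, ← tsum_box (n := n) fun h => (if nm (lf v + h) ≤ n then (0 : ℝ≥0∞)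
            else ENNReal.ofReal (PG S h)), hZ]
      refine ENNReal.tsum_le_tsum fun h => ?_
      split_ifs <;> simp
    have e4 : ∑' w : Zd d, (if nm w ≤ n then 0 else ENNReal.ofReal (PG S (w - lf v))) = Z v := by
      rw [hZ]
      simp only
      rw [← (Equiv.addLeft (lf v)).tsum_eq]
      refine tsum_congr fun h => ?_
      simp only [Equiv.coe_addLeft, add_sub_cancel_left]
    rw [e1, e4]
    calc T + ∑ w : TV d n, (if nm (lf v + lf (qt (lf w) - v)) ≤ n then 0
            else ENNReal.ofReal (PG S (lf (qt (lf w) - v)))) + Z v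
        ≤ T + Z v + Z v := add_le_add (add_le_add le_rfl e2) le_rfl
      _ = _ := by ring
  have hsm : Summable fun h : Zd d => PG S h * (Th d n h : ℝ) := by
    refine Summable.of_nonneg_of_le (fun h => mul_nonneg (PG_nonneg hS _) (by positivity))
      (fun h => ?_) ((PG_summable hS).mul_right ((2 * n + 1 : ℝ) ^ d))
    refine mul_le_mul_of_nonneg_left ?_ (PG_nonneg hS _)
    have := Th_le_one d n h
    rwa [div_le_one (by positivity)] at this
  have h3 : ∑ v, Z v = ENNReal.ofReal ((2 * n + 1 : ℝ) ^ d *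
      ∑' h : Zd d, PG S h * ((Th d n h : ℝ) / (2 * n + 1 : ℝ) ^ d)) := by
    have e1 : ((2 * n + 1 : ℝ) ^ d * ∑' h : Zd d, PG S h *
        ((Th d n h : ℝ) / (2 * n + 1 : ℝ) ^ d)) = ∑' h : Zd d, (PG S h * (Th d n h : ℝ)) := by
      rw [← tsum_mul_left (a := (2 * n + 1 : ℝ) ^ d)]
      refine tsum_congr fun h => ?_
      field_simp
    rw [e1, ENNReal.ofReal_tsum_of_nonneg (fun h =>
      (mul_nonneg (PG_nonneg hS _) (by positivity))) hsm]
    rw [hZ]
    have e2 : ∑ v : TV d n, ∑' h : Zd d, (if nm (lf v + h) ≤ n then 0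
        else ENNReal.ofReal (PG S h)) = ∑' h : Zd d, ∑ v : TV d n,
        (if nm (lf v + h) ≤ n then 0 else ENNReal.ofReal (PG S h)) := by
      rw [Summable.tsum_finsetSum fun _ _ => ENNReal.summable]
    simp only
    rw [e2]
    refine tsum_congr fun h => ?_
    have e3 : ∀ v : TV d n, (if nm (lf v + h) ≤ n then 0 else ENNReal.ofReal (PG S h))
        = if ¬ nm (lf v + h) ≤ n then ENNReal.ofReal (PG S h) else 0 := by
      intro v
      by_cases hv : nm (lf v + h) ≤ n
      · rw [if_pos hv, if_neg (not_not.2 hv)]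
      · rw [if_neg hv, if_pos hv]
    simp only [e3]
    rw [← Finset.sum_filter, Finset.sum_const, nsmul_eq_mul]
    rw [mul_comm (PG S h), ← ENNReal.ofReal_natCast, ← ENNReal.ofReal_mul (by positivity)]
    rfl
  have h4 : T = ENNReal.ofReal (∑' h : Zd d, (if nm h ≤ n then 0 else PG S h)) := by
    rw [hT, ENNReal.ofReal_tsum_of_nonneg]
    · refine tsum_congr fun h => ?_
      split_ifs <;> simp
    · intro h
      split_ifs
      · exact le_rfl
      · exact PG_nonneg hS _
    · refine Summable.of_nonneg_of_le (fun h => ?_) (fun h => ?_) (PG_summable hS)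
      · split_ifs
        · exact le_rfl
        · exact PG_nonneg hS _
      · split_ifs
        · exact PG_nonneg hS _
        · exact le_rfl
  refine (Finset.sum_le_sum fun v _ => h1 v).trans ?_
  have hT0 : 0 ≤ ∑' h : Zd d, PG S h * ((Th d n h : ℝ) / (2 * n + 1 : ℝ) ^ d) :=
    tsum_nonneg fun h => mul_nonneg (PG_nonneg hS _) (by positivity)
  have hT1 : 0 ≤ ∑' h : Zd d, (if nm h ≤ n then 0 else PG S h) :=
    tsum_nonneg fun h => by
      split_ifs
      · exact le_rfl
      · exact PG_nonneg hS _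
  rw [Finset.sum_add_distrib, Finset.sum_add_distrib, h3, h4, Finset.sum_const, Finset.card_univ,
    card_TV, nsmul_eq_mul, ← ENNReal.ofReal_natCast, ← ENNReal.ofReal_mul (by positivity),
    ← ENNReal.ofReal_add (by positivity) (by positivity),
    ← ENNReal.ofReal_add (by positivity) (by positivity)]
  refine ENNReal.ofReal_le_ofReal (le_of_eq ?_)
  unfold DG
  push_cast
  ring

theorem lint_kW2 {d : ℕ} (ν : Measure ℝ) [IsProbabilityMeasure ν] (x y : Zd d) (k s : ℝ) :
    ∫⁻ p, ENNReal.ofReal (‖(k : ℂ) + (s : ℂ) * Wg p.2 x y‖ ^ 2) ∂(Pr d ν)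
      ≤ ENNReal.ofReal (2 * k ^ 2 + 4 * s ^ 2) := by
  have hmp : MeasurePreserving (Prod.snd : Om d → Ix (Zd d) → ℝ) (Pr d ν) (PP (Ix (Zd d))) :=
    measurePreserving_snd
  have hc : Continuous fun ω : Ix (Zd d) → ℝ => (k : ℂ) + (s : ℂ) * Wg ω x y :=
    continuous_const.add (continuous_const.mul (Wg_cont x y))
  have h := hmp.lintegral_comp
    (f := fun ω : Ix (Zd d) → ℝ => ENNReal.ofReal (‖(k : ℂ) + (s : ℂ) * Wg ω x y‖ ^ 2))
    ((hc.norm.measurable.pow_const 2).ennreal_ofReal)
  rw [h]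
  exact lint_kW x y k s

theorem HG_sm {d : ℕ} {S : Zd d → ℝ} (hS : Prf S) (ν : Measure ℝ) [IsProbabilityMeasure ν] :
    ∀ᵐ p ∂(Pr d ν), ∀ y, Summable fun x => ‖HG S p x y‖ ^ 2 := by
  rw [ae_all_iff]
  intro y
  obtain ⟨q, hq⟩ : ∃ q : Zd d → Om d → ℂ, q = fun x p => ((kk (x - y) : ℝ) : ℂ)
      + ((√(S (x - y)) : ℝ) : ℂ) * Wg p.2 x y := ⟨_, rfl⟩
  have hqm : ∀ x, Measurable (q x) := by
    intro x
    rw [hq]
    exact (continuous_const.add (continuous_const.mul
      ((Wg_cont _ _).comp continuous_snd))).measurable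
  have hqm2 : ∀ x, Measurable fun p => ENNReal.ofReal (‖q x p‖ ^ 2) := fun x =>
    ((hqm x).norm.pow_const 2).ennreal_ofReal
  have hlt : ∫⁻ p, ∑' x, ENNReal.ofReal (‖q x p‖ ^ 2) ∂(Pr d ν) < ∞ := by
    rw [lintegral_tsum (fun x => (hqm2 x).aemeasurable)]
    have h2 : ∀ x, ∫⁻ p, ENNReal.ofReal (‖q x p‖ ^ 2) ∂(Pr d ν)
        ≤ ENNReal.ofReal (PG S (x - y)) := by
      intro x
      rw [hq]
      refine (lint_kW2 ν x y (kk (x - y)) (√(S (x - y)))).trans (ENNReal.ofReal_le_ofReal ?_)
      rw [Real.sq_sqrt (hS.S0 _)]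
      exact le_rfl
    refine (ENNReal.tsum_le_tsum h2).trans_lt ?_
    have h3 : Summable fun x : Zd d => PG S (x - y) :=
      ((Equiv.subRight y).summable_iff (f := fun x => PG S x)).2 (PG_summable hS)
    rw [← ENNReal.ofReal_tsum_of_nonneg (fun x => PG_nonneg hS _) h3]
    exact ENNReal.ofReal_lt_top
  filter_upwards [ae_lt_top (Measurable.tsum hqm2) hlt.ne] with p hp
  have hs : Summable fun x => ‖q x p‖ ^ 2 := by
    have h2 := ENNReal.summable_toReal hp.ne
    refine h2.congr fun x => ?_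
    rw [ENNReal.toReal_ofReal (by positivity)]
  have hcof : (fun x => ‖HG S p x y‖ ^ 2) =ᶠ[cofinite] fun x => ‖q x p‖ ^ 2 := by
    have : {y}ᶜ ∈ (cofinite : Filter (Zd d)) := (Set.finite_singleton y).compl_mem_cofinite
    filter_upwards [this] with x hx
    have hx' : x ≠ y := hx
    rw [hq]
    unfold HG
    rw [if_neg hx', add_zero]
  exact (summable_congr_cofinite hcof).2 hs

/-- The model. -/
def mG {d : ℕ} {S : Zd d → ℝ} (hS : Prf S) (ν : Measure ℝ) [IsProbabilityMeasure ν] :
    Mdl d (Om d) (Pr d ν) where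
  H := HG S
  M := MG S
  sh := sG
  D := DG S
  Hc := HG_cont S
  Hh := HG_herm hS
  Hsm := HG_sm hS ν
  Mc := MG_cont S
  Mh := fun n p => Hf_herm (KG_herm d n _) _
  shm := sG_mp ν
  Hs := HG_s S
  Dt := DG_tendsto hS
  bd := fun n => by
    refine le_trans (Finset.sum_le_sum fun v _ => ENNReal.tsum_le_tsum fun w => ?_) (sum_r hS n)
    simp only [QG_eq hS]
    exact lint_kW2 ν w (lf v) (kQ d n w v) (rQ S n w v)

end

end Pool.Agent.T2H19
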