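import Pool.Agent.T2H19.G3

/-! The finite volume bound for the model with a block of sites. -/

set_option autoImplicit false

namespace Pool.Agent.T2H19

open MeasureTheory ProbabilityTheory Filter Topology Matrix
open scoped BigOperators ComplexConjugate ENNReal

noncomputable section

section gen

variable {V : Type} [Fintype V] [DecidableEq V]

/-- Covariance of the model. -/
theorem Gg_sub' (K : Matrix V V ℂ) (c : Ix V → ℝ) (z : ℂ) (e : V ≃ V)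
    (hc : ∀ k, c (shI e k) = c k) (g : Ix V → ℝ) :
    Gg (K.submatrix e e) c z (fun k => g (shI e k)) = (Gg K c z g).submatrix e e := by
  unfold Gg
  rw [← Gr_submatrix]
  congr 1
  unfold Hf
  have hbij : Function.Bijective (shI e : Ix V → Ix V) :=
    Finite.injective_iff_bijective.1 (shI_inj e.injective)
  rw [Matrix.submatrix_add]
  show _ = K.submatrix e e + (∑ k, ((c k * g k : ℝ) : ℂ) • Bm k).submatrix e e
  congr 1
  ext i j
  simp only [Matrix.submatrix_apply, Matrix.sum_apply, Matrix.smul_apply]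
  rw [← Equiv.sum_comp (Equiv.ofBijective _ hbij)
    (fun k' => ((c k' * g k' : ℝ) : ℂ) • (Bm k' : Matrix V V ℂ) (e i) (e j))]
  refine Finset.sum_congr rfl fun k _ => ?_
  simp only [Equiv.ofBijective_apply]
  rw [hc]
  congr 1
  conv_lhs => rw [← Bm_sub e k]
  rfl

/-- The block bound when the profile dominates a block. -/
theorem blk2 {K : Matrix V V ℂ} (hK : K.IsHermitian) (S : V → V → ℝ) (h0 : ∀ x y, 0 ≤ S x y)
    (Λ : Finset V) {κ : ℝ} (hκ : 0 < κ) (hΛ : ∀ x ∈ Λ, ∀ y ∈ Λ, x ≠ y → κ ≤ S x y)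
    {z : ℂ} (hz : 0 < z.im) (hη : 4 * κ ≤ z.im ^ 2) :
    ∑ x ∈ Λ, ∫ g, ‖Gg K (cS 0 S) z g x x‖ ^ 2 ∂(PP (Ix V)) ≤ 3 / κ := by
  obtain ⟨T, hT⟩ : ∃ T : V → V → ℝ, T = fun x y => S x y - sB Λ κ x y := ⟨_, rfl⟩
  have hT0 : ∀ x y, 0 ≤ T x y := by
    intro x y
    rw [hT]
    simp only [sub_nonneg]
    unfold sB
    split_ifs with h
    · exact hΛ x h.1 y h.2.1 h.2.2
    · exact h0 x y
  have hs0 : ∀ x y, 0 ≤ sB Λ κ x y := fun x y => sB_nonneg Λ hκ.le x y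
  have hΦ : Continuous fun M : Matrix V V ℂ => ∑ x ∈ Λ, ‖M x x‖ ^ 2 :=
    continuous_finsetSum _ fun x _ => (continuous_id.matrix_elem x x).norm.pow 2
  have hm := merged hK 0 T (sB Λ κ) hT0 hs0 hz.ne' (fun M : Matrix V V ℂ => ∑ x ∈ Λ, ‖M x x‖ ^ 2) hΦ
  have e1 : (fun x y => T x y + sB Λ κ x y) = S := by
    funext x y
    rw [hT]
    ring
  rw [e1] at hm
  have hi : ∀ x, Integrable (fun g => ‖Gg K (cS 0 S) z g x x‖ ^ 2) (PP (Ix V)) := fun x =>
    int_sq _ _ (Gg_cont hK _ hz.ne' x x).aestronglyMeasurable _ (Gg_le hK _ hz.ne' · x x)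
  rw [← integral_finsetSum _ fun x _ => hi x, ← hm]
  have hA : ∀ g : Ix V → ℝ, (Ag K (cS 0 T) g).IsHermitian := fun g => Hf_herm hK _
  have hint : Integrable (fun p : (Ix V → ℝ) × (Ix V → ℝ) =>
      ∑ x ∈ Λ, ‖Gg (Ag K (cS 0 T) p.1) (cS 0 (sB Λ κ)) z p.2 x x‖ ^ 2)
      ((PP (Ix V)).prod (PP (Ix V))) := by
    refine int_of_bd (C := Λ.card * (1 / |z.im|) ^ 2) ?_ fun p => ?_
    · exact (continuous_finsetSum _ fun x _ =>
        (split_cont hK _ _ hz.ne' x x).norm.pow 2).aestronglyMeasurable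
    · rw [Real.norm_of_nonneg (Finset.sum_nonneg fun _ _ => sq_nonneg _)]
      refine (Finset.sum_le_card_nsmul _ _ ((1 / |z.im|) ^ 2) fun x _ => ?_).trans
        (le_of_eq (nsmul_eq_mul _ _))
      exact pow_le_pow_left₀ (norm_nonneg _) (Gg_le (hA p.1) _ hz.ne' p.2 x x) 2
  rw [integral_prod _ hint]
  have hb : ∀ g : Ix V → ℝ, ∫ g', ∑ x ∈ Λ, ‖Gg (Ag K (cS 0 T) g) (cS 0 (sB Λ κ)) z g' x x‖ ^ 2
      ∂(PP (Ix V)) ≤ 3 / κ := by
    intro g
    rw [integral_finsetSum _ fun x _ => int_sq _ _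
      (Gg_cont (hA g) _ hz.ne' x x).aestronglyMeasurable _ (Gg_le (hA g) _ hz.ne' · x x)]
    exact blk (hA g) Λ hκ hz hη
  refine (integral_mono_of_nonneg (Eventually.of_forall fun g => integral_nonneg fun g' =>
    Finset.sum_nonneg fun _ _ => sq_nonneg _) (integrable_const (3 / κ))
    (Eventually.of_forall hb)).trans ?_
  simp

end gen

section fin

variable {d : ℕ} {S : Zd d → ℝ} (hS : Prf S) (ν : Measure ℝ) [IsProbabilityMeasure ν]

/-- Law on the torus. -/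
abbrev PrT (d n : ℕ) (ν : Measure ℝ) [IsProbabilityMeasure ν] :
    Measure ((TV d n → ℝ) × (Ix (TV d n) → ℝ)) :=
  (Measure.infinitePi fun _ : TV d n => ν).prod (PP (Ix (TV d n)))

theorem GT_cont (n : ℕ) {z : ℂ} (hz : z.im ≠ 0) (x y : TV d n) :
    Continuous fun q : (TV d n → ℝ) × (Ix (TV d n) → ℝ) =>
      Gg (KG d n q.1) (cS 0 (SG S n)) z q.2 x y := by
  unfold Gg
  refine Gr_cont (fun q : (TV d n → ℝ) × (Ix (TV d n) → ℝ) =>
    Hf (KG d n q.1) fun k => cS 0 (SG S n) k * q.2 k) (fun _ => z)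
    (fun q => Hf_herm (KG_herm d n q.1) _) (Hf_cont2 _ ((KG_cont d n).comp continuous_fst) _ ?_)
    (fun _ => hz) continuous_const x y
  exact continuous_pi fun k => continuous_const.mul ((continuous_apply k).comp continuous_snd)

theorem toT (n : ℕ) {z : ℂ} (hz : z.im ≠ 0) (x : TV d n) :
    ∫⁻ p, ENNReal.ofReal (‖Gr (MG S n p) z x x‖ ^ 2) ∂(Pr d ν)
      = ∫⁻ q, ENNReal.ofReal (‖Gg (KG d n q.1) (cS 0 (SG S n)) z q.2 x x‖ ^ 2) ∂(PrT d n ν) := by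
  have hmp : MeasurePreserving (fun p : Om d => ((fun v : TV d n => p.1 (lf v)),
      fun k : Ix (TV d n) => p.2 (shI lf k))) (Pr d ν) (PrT d n ν) :=
    (inj_mp' ν (lf_inj (d := d) (n := n))).prod (inj_mp (shI_inj (lf_inj (d := d) (n := n))))
  exact hmp.lintegral_comp
    (f := fun q : (TV d n → ℝ) × (Ix (TV d n) → ℝ) =>
      ENNReal.ofReal (‖Gg (KG d n q.1) (cS 0 (SG S n)) z q.2 x x‖ ^ 2))
    (((GT_cont n hz x x).norm.measurable.pow_const 2).ennreal_ofReal)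

theorem KG_sub (n : ℕ) (u : TV d n → ℝ) (a : TV d n) :
    KG d n (fun v => u (v + a)) = (KG d n u).submatrix (Equiv.addRight a) (Equiv.addRight a) := by
  ext v w
  unfold KG
  rw [Matrix.submatrix_apply, Matrix.add_apply, Matrix.add_apply, Matrix.diagonal_apply,
    Matrix.diagonal_apply]
  simp only [Equiv.coe_addRight, KT_t, add_left_inj]

theorem inv_T (n : ℕ) {z : ℂ} (hz : z.im ≠ 0) (x : TV d n) :
    ∫⁻ q, ENNReal.ofReal (‖Gg (KG d n q.1) (cS 0 (SG S n)) z q.2 x x‖ ^ 2) ∂(PrT d n ν)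
      = ∫⁻ q, ENNReal.ofReal (‖Gg (KG d n q.1) (cS 0 (SG S n)) z q.2 0 0‖ ^ 2) ∂(PrT d n ν) := by
  have hmp : MeasurePreserving (fun q : (TV d n → ℝ) × (Ix (TV d n) → ℝ) =>
      ((fun v : TV d n => q.1 (v + x)), fun k : Ix (TV d n) => q.2 (shI (Equiv.addRight x) k)))
      (PrT d n ν) (PrT d n ν) :=
    (inj_mp' ν (add_left_injective x)).prod (inj_mp (shI_inj (Equiv.addRight x).injective))
  have h := hmp.lintegral_comp
    (f := fun q : (TV d n → ℝ) × (Ix (TV d n) → ℝ) =>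
      ENNReal.ofReal (‖Gg (KG d n q.1) (cS 0 (SG S n)) z q.2 0 0‖ ^ 2))
    (((GT_cont n hz 0 0).norm.measurable.pow_const 2).ennreal_ofReal)
  rw [← h]
  refine lintegral_congr fun q => ?_
  have hc : ∀ k, cS 0 (SG S n) (shI (Equiv.addRight x) k) = cS 0 (SG S n) k := by
    rintro (v | ⟨v, w, b⟩)
    · rfl
    · simp only [shI, cS, Equiv.coe_addRight, SG, add_sub_add_right_eq_sub]
  have h1 := Gg_sub' (KG d n q.1) (cS 0 (SG S n)) z (Equiv.addRight x) hc q.2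
  rw [← KG_sub n q.1 x] at h1
  show _ = ENNReal.ofReal (‖Gg (KG d n fun v => q.1 (v + x)) (cS 0 (SG S n)) z
    (fun k => q.2 (shI (Equiv.addRight x) k)) 0 0‖ ^ 2)
  rw [h1]
  simp

include hS in
theorem fin2 (Λ : Finset (Zd d)) (hΛ0 : Λ.Nonempty) {κ : ℝ} (hκ : 0 < κ)
    (hΛ : ∀ x ∈ Λ, ∀ y ∈ Λ, x ≠ y → κ ≤ S (x - y))
    {z : ℂ} (hz : 0 < z.im) (hη : 4 * κ ≤ z.im ^ 2) :
    ∀ᶠ n in atTop, ∀ x : TV d n,
      ∫⁻ p, ENNReal.ofReal (‖Gr (MG S n p) z x x‖ ^ 2) ∂(Pr d ν)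
        ≤ ENNReal.ofReal (3 / (Λ.card * κ)) := by
  filter_upwards [eventually_ge_atTop (Λ.sup nm + Λ.sup nm)] with n hn x
  have hnm : ∀ a ∈ Λ, nm a ≤ n := fun a ha => (Finset.le_sup (f := nm) ha).trans (by omega)
  have hnm2 : ∀ a ∈ Λ, ∀ b ∈ Λ, nm (a - b) ≤ n := by
    intro a ha b hb
    have h1 := nm_add a (-b)
    rw [nm_neg, ← sub_eq_add_neg] at h1
    have h2 := Finset.le_sup (f := nm) ha
    have h3 := Finset.le_sup (f := nm) hb
    omega
  obtain ⟨Λ', hΛ'⟩ : ∃ Λ' : Finset (TV d n), Λ' = Λ.image qt := ⟨_, rfl⟩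
  have hinj : Set.InjOn (qt : Zd d → TV d n) Λ := by
    intro a ha b hb hab
    rw [← lf_qt (n := n) a (hnm a ha), ← lf_qt (n := n) b (hnm b hb), hab]
  have hcard : Λ'.card = Λ.card := by rw [hΛ', Finset.card_image_of_injOn hinj]
  have hblk : ∀ v ∈ Λ', ∀ w ∈ Λ', v ≠ w → κ ≤ SG S n v w := by
    intro v hv w hw hvw
    rw [hΛ', Finset.mem_image] at hv hw
    obtain ⟨a, ha, rfl⟩ := hv
    obtain ⟨b, hb, rfl⟩ := hw
    have hab : a ≠ b := fun h => hvw (by rw [h])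
    unfold SG
    rw [← qt_sub, lf_qt _ (hnm2 a ha b hb)]
    exact hΛ a ha b hb hab
  obtain ⟨m, hm⟩ : ∃ m, m = ∫⁻ q, ENNReal.ofReal
    (‖Gg (KG d n q.1) (cS 0 (SG S n)) z q.2 0 0‖ ^ 2) ∂(PrT d n ν) := ⟨_, rfl⟩
  have hsum : (Λ.card : ℝ≥0∞) * m ≤ ENNReal.ofReal (3 / κ) := by
    have e1 : (Λ.card : ℝ≥0∞) * m = ∑ v ∈ Λ', ∫⁻ q, ENNReal.ofReal
        (‖Gg (KG d n q.1) (cS 0 (SG S n)) z q.2 v v‖ ^ 2) ∂(PrT d n ν) := by
      rw [Finset.sum_congr rfl fun v _ => inv_T ν n hz.ne' v, Finset.sum_const, nsmul_eq_mul,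
        hcard, hm]
    rw [e1]
    have hme : ∀ v, Measurable fun q : (TV d n → ℝ) × (Ix (TV d n) → ℝ) =>
        ENNReal.ofReal (‖Gg (KG d n q.1) (cS 0 (SG S n)) z q.2 v v‖ ^ 2) := fun v =>
      ((GT_cont n hz.ne' v v).norm.measurable.pow_const 2).ennreal_ofReal
    rw [← lintegral_finsetSum _ fun v _ => hme v,
      lintegral_prod _ (Finset.measurable_fun_sum _ fun v _ => hme v).aemeasurable]
    have hu : ∀ u : TV d n → ℝ, ∫⁻ g, ∑ v ∈ Λ', ENNReal.ofReal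
        (‖Gg (KG d n u) (cS 0 (SG S n)) z g v v‖ ^ 2) ∂(PP (Ix (TV d n)))
        ≤ ENNReal.ofReal (3 / κ) := by
      intro u
      have hi : ∀ v, Integrable (fun g => ‖Gg (KG d n u) (cS 0 (SG S n)) z g v v‖ ^ 2)
          (PP (Ix (TV d n))) := fun v =>
        int_sq _ _ (Gg_cont (KG_herm d n u) _ hz.ne' v v).aestronglyMeasurable _
          (Gg_le (KG_herm d n u) _ hz.ne' · v v)
      have e2 : ∫⁻ g, ∑ v ∈ Λ', ENNReal.ofReal
          (‖Gg (KG d n u) (cS 0 (SG S n)) z g v v‖ ^ 2) ∂(PP (Ix (TV d n)))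
          = ENNReal.ofReal (∑ v ∈ Λ', ∫ g, ‖Gg (KG d n u) (cS 0 (SG S n)) z g v v‖ ^ 2
            ∂(PP (Ix (TV d n)))) := by
        rw [← integral_finsetSum _ fun v _ => hi v,
          ofReal_integral_eq_lintegral_ofReal (integrable_finsetSum _ fun v _ => hi v)
            (Eventually.of_forall fun g => Finset.sum_nonneg fun _ _ => sq_nonneg _)]
        refine lintegral_congr fun g => ?_
        rw [ENNReal.ofReal_sum_of_nonneg fun _ _ => sq_nonneg _]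
      rw [e2]
      exact ENNReal.ofReal_le_ofReal (blk2 (KG_herm d n u) (SG S n) (fun v w => hS.S0 _) Λ' hκ
        hblk hz hη)
    refine (lintegral_mono hu).trans ?_
    rw [lintegral_const, measure_univ, mul_one]
  rw [toT ν n hz.ne' x, inv_T ν n hz.ne' x, ← hm]
  have hc0 : (0 : ℝ) < Λ.card := by exact_mod_cast Finset.card_pos.2 hΛ0
  have e3 : ENNReal.ofReal (3 / (Λ.card * κ)) = (Λ.card : ℝ≥0∞)⁻¹ * ENNReal.ofReal (3 / κ) := by
    rw [← ENNReal.ofReal_natCast, ← ENNReal.ofReal_inv_of_pos hc0,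
      ← ENNReal.ofReal_mul (by positivity)]
    congr 1
    field_simp
  have hcne : (Λ.card : ℝ≥0∞) ≠ 0 := by
    exact_mod_cast (Finset.card_pos.2 hΛ0).ne'
  rw [e3]
  calc m = (Λ.card : ℝ≥0∞)⁻¹ * ((Λ.card : ℝ≥0∞) * m) := by
        rw [← mul_assoc, ENNReal.inv_mul_cancel hcne (ENNReal.natCast_ne_top _), one_mul]
    _ ≤ _ := mul_le_mul_right hsum _

end fin

end

end Pool.Agent.T2H19
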