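import Pool.Agent.T2H19.G4
import Pool.Agent.T2H19.G2

/-! Spectral measures of the infinite volume model. -/

set_option autoImplicit false

namespace Pool.Agent.T2H19

open MeasureTheory ProbabilityTheory Filter Topology
open scoped BigOperators ComplexConjugate ENNReal NNReal

noncomputable section

namespace Mdl

variable {d : ℕ} {Ω : Type} [TopologicalSpace Ω] [MeasurableSpace Ω] [OpensMeasurableSpace Ω]
  {P : Measure Ω} (m : Mdl d Ω P)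

/-- The squared Green function at the origin. -/
def F2 (η : ℝ) (p : Ω) (E : ℝ) : ℝ≥0∞ :=
  liminf (fun i => ENNReal.ofReal (‖gD (m.H p) (bx d i) ⟨E, η⟩ 0‖ ^ 2)) atTop

theorem F2_meas {η : ℝ} (hη : 0 < η) : Measurable fun q : Ω × ℝ => m.F2 η q.1 q.2 :=
  Measurable.liminf fun i =>
    ((m.gD_cont (bx d i) η hη 0).norm.measurable.pow_const 2).ennreal_ofReal

theorem F2_U {η : ℝ} (hη : 0 < η) : ∀ᵐ p ∂P, ∀ E, ∀ hH : Adm (m.H p), ∀ U : E2 (Zd d),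
    (∀ g : Zd d →₀ ℂ, |η| * ‖Jf g - U‖ ≤ ‖Tz (m.H p) hH ⟨E, η⟩ g - dl 0‖) →
      m.F2 η p E = ENNReal.ofReal (‖U 0‖ ^ 2) := by
  filter_upwards [m.ap_all] with p hp E hH U hU
  have hz : (⟨E, η⟩ : ℂ).im ≠ 0 := hη.ne'
  have h3 := gD_tendsto hH (bx_exh d) hz 0 (hp hH _ hz 0) U hU
  unfold F2
  exact ((ENNReal.continuous_ofReal.tendsto _).comp ((h3.norm).pow 2)).liminf_eq

theorem F2_le {η : ℝ} (hη : 0 < η) (E : ℝ) (B : ℝ≥0∞)
    (hB : ∀ᶠ n in atTop, ∀ x : TV d n,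
      ∫⁻ p, ENNReal.ofReal (‖Gr (m.M n p) ⟨E, η⟩ x x‖ ^ 2) ∂P ≤ B) :
    ∫⁻ p, m.F2 η p E ∂P ≤ B := by
  have hz : (⟨E, η⟩ : ℂ).im ≠ 0 := hη.ne'
  obtain ⟨F, hF⟩ : ∃ F : Ω → ℂ, F = fun p => limUnder atTop fun i =>
    gD (m.H p) (bx d i) ⟨E, η⟩ 0 := ⟨_, rfl⟩
  have hFU : ∀ᵐ p ∂P, ∀ hH : Adm (m.H p), ∀ U : E2 (Zd d),
      (∀ f : Zd d →₀ ℂ, |(⟨E, η⟩ : ℂ).im| * ‖Jf f - U‖ ≤ ‖Tz (m.H p) hH ⟨E, η⟩ f - dl 0‖) →
        F p = U 0 := by
    filter_upwards [m.ap_all] with p hp hH U hU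
    have h3 := gD_tendsto hH (bx_exh d) hz 0 (hp hH _ hz 0) U hU
    rw [hF]
    exact h3.limUnder_eq
  have h1 := m.fat (fun w => ‖w‖ ^ 2) (by fun_prop) hz B hB F hFU
  refine le_trans (le_of_eq ?_) h1
  refine lintegral_congr_ae ?_
  filter_upwards [m.ap_all, m.adm_ae, hFU, m.F2_U hη] with p h2 hH h3 h4
  obtain ⟨U, -, hU⟩ := exists_U _ hH hz 0 (h2 hH _ hz 0)
  rw [h3 hH U hU, h4 E hH U hU]

/-- Properties of the spectral measures which hold almost surely. -/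
theorem main (η : ℕ → ℝ) (hη : ∀ j, 0 < η j) (Φ : Measure ℝ → Prop)
    (hΦ : ∀ᵐ p ∂P, ∀ μ : Measure ℝ, IsFiniteMeasure μ →
      (∀ j E, m.F2 (η j) p E = ENNReal.ofReal (‖∫ t : ℝ, 1 / ((t : ℂ) - ⟨E, η j⟩) ∂μ‖ ^ 2)) →
        Φ μ) :
    ∀ᵐ p ∂P, ∃ hH : Adm (m.H p), (∀ z : ℂ, z.im ≠ 0 → ∀ x, Ap (m.H p) hH z x) ∧
      ∀ x, ∃ μ : Measure ℝ, IsProbabilityMeasure μ ∧ Φ μ ∧
        ∀ z : ℂ, z.im ≠ 0 → ∀ U : E2 (Zd d), IsU _ hH z x U →
          U x = ∫ E : ℝ, 1 / ((E : ℂ) - z) ∂μ := by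
  have hFU := ae_all_iff.2 fun j => m.F2_U (hη j)
  have h0 : ∀ᵐ p ∂P, ∀ hH : Adm (m.H p), ∃ μ : Measure ℝ, IsProbabilityMeasure μ ∧ Φ μ ∧
      ∀ z : ℂ, z.im ≠ 0 → ∀ U : E2 (Zd d), IsU _ hH z 0 U →
        U 0 = ∫ E : ℝ, 1 / ((E : ℂ) - z) ∂μ := by
    filter_upwards [m.ap_all, hFU, hΦ] with p h3 h4 h5 hH
    obtain ⟨μ, hμ, h6⟩ := spec_exists hH (bx_exh d) 0 (fun z hz => h3 hH z hz 0)
    have h7 : ∀ z : ℂ, z.im ≠ 0 → ∀ U : E2 (Zd d), IsU _ hH z 0 U →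
        U 0 = ∫ E : ℝ, 1 / ((E : ℂ) - z) ∂μ := by
      intro z hz U hU
      obtain ⟨U', hU', hU2⟩ := exists_U _ hH hz 0 (h3 hH z hz 0)
      have hz' : (conj z).im ≠ 0 := by simpa using hz
      rw [unique_U _ hH z 0 (h3 hH (conj z) hz') U U' hU hU']
      exact h6 z hz U' hU2
    refine ⟨μ, hμ, h5 μ inferInstance fun j E => ?_, h7⟩
    have hz : (⟨E, η j⟩ : ℂ).im ≠ 0 := (hη j).ne'
    obtain ⟨U', hU', hU2⟩ := exists_U _ hH hz 0 (h3 hH _ hz 0)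
    rw [h4 j E hH U' hU2, h6 _ hz U' hU2]
  have h3 : ∀ᵐ p ∂P, ∀ c : Zd d, ∀ hH : Adm (m.H (m.sh c p)),
      ∃ μ : Measure ℝ, IsProbabilityMeasure μ ∧ Φ μ ∧ ∀ z : ℂ, z.im ≠ 0 → ∀ U : E2 (Zd d),
        IsU _ hH z 0 U → U 0 = ∫ E : ℝ, 1 / ((E : ℂ) - z) ∂μ := by
    rw [ae_all_iff]
    intro c
    exact (m.shm c).quasiMeasurePreserving.ae h0
  filter_upwards [h3, m.ap_all, m.adm_ae] with p h4 h5 hH
  refine ⟨hH, h5 hH, fun x => ?_⟩
  have hA : Adm (m.H (m.sh x p)) :=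
    Adm_eq (Equiv.addRight x) (fun a b => m.Hs x p a b) hH
  obtain ⟨μ, hμ, hac, h6⟩ := h4 x hA
  refine ⟨μ, hμ, hac, fun z hz U hU => ?_⟩
  obtain ⟨U', hU', hU0⟩ := IsU_shift x (fun a b => m.Hs x p a b) hH hA z U hU
  rw [← hU0]
  exact h6 z hz U' hU'

end Mdl

section eig

variable {Γ : Type} [DecidableEq Γ]

/-- Absence of eigenfunctions. -/
theorem no_eig' {H : Γ → Γ → ℂ} (hH : Adm H) (hA : ∀ z : ℂ, z.im ≠ 0 → ∀ x, Ap H hH z x) (x : Γ)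
    (μ : Measure ℝ) [IsFiniteMeasure μ] (E : ℝ) (hμ : μ {E} = 0)
    (hU : ∀ z : ℂ, z.im ≠ 0 → ∀ U : E2 Γ, IsU H hH z x U → U x = ∫ E : ℝ, 1 / ((E : ℂ) - z) ∂μ)
    (ψ : E2 Γ) (hψ : ∀ y, inner ℂ (cl H hH y) ψ = E * ψ y) : ψ x = 0 := by
  have key : ∀ η : ℝ, 0 < η → ‖ψ x‖ ^ 2
      ≤ ‖ψ‖ ^ 2 * (η * (∫ t : ℝ, 1 / ((t : ℂ) - ⟨E, η⟩) ∂μ).im) := by
    intro η hη
    obtain ⟨z, hzd⟩ : ∃ z : ℂ, z = ⟨E, η⟩ := ⟨_, rfl⟩
    have hzi : z.im = η := by rw [hzd]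
    have hz : z.im ≠ 0 := by rw [hzi]; exact hη.ne'
    obtain ⟨U, hU1, hU2⟩ := exists_U H hH hz x (hA z hz x)
    rw [← hzd, ← hU z hz U hU1]
    choose f hf using fun n : ℕ => hA z hz x (1 / ((n : ℝ) + 1)) (by positivity)
    have hlim : Tendsto (fun n : ℕ => 1 / ((n : ℝ) + 1)) atTop (𝓝 0) :=
      tendsto_one_div_add_atTop_nhds_zero_nat
    have hT : Tendsto (fun n => Tz H hH z (f n)) atTop (𝓝 (dl x)) := by
      rw [tendsto_iff_norm_sub_tendsto_zero]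
      exact squeeze_zero (fun _ => norm_nonneg _) hf hlim
    have hJ : Tendsto (fun n => Jf (f n)) atTop (𝓝 U) := by
      rw [tendsto_iff_norm_sub_tendsto_zero]
      have h6 := hlim.div_const |z.im|
      rw [zero_div] at h6
      refine squeeze_zero (fun _ => norm_nonneg _) (fun n => ?_) h6
      rw [le_div_iff₀ (abs_pos.2 hz), mul_comm]
      exact (hU2 (f n)).trans (hf n)
    -- the eigenfunction
    have e1 : ψ x = ((E : ℂ) - conj z) * inner ℂ U ψ := by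
      have l1 : Tendsto (fun n => inner ℂ (Tz H hH z (f n)) ψ) atTop (𝓝 (inner ℂ (dl x) ψ)) :=
        hT.inner tendsto_const_nhds
      have l2 : Tendsto (fun n => ((E : ℂ) - conj z) * inner ℂ (Jf (f n)) ψ) atTop
          (𝓝 (((E : ℂ) - conj z) * inner ℂ U ψ)) := (hJ.inner tendsto_const_nhds).const_mul _
      have e2 : ∀ n, inner ℂ (Tz H hH z (f n)) ψ = ((E : ℂ) - conj z) * inner ℂ (Jf (f n)) ψ := by
        intro n
        have h3 := inner_Tz H hH (conj z) (f n) ψ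
        rw [Complex.conj_conj] at h3
        rw [h3, inner_Jf, Finset.mul_sum]
        refine Finset.sum_congr rfl fun y _ => ?_
        rw [hψ y]
        ring
      simp only [e2] at l1
      rw [inner_dl] at l1
      exact tendsto_nhds_unique l1 l2
    have e3 : (U x).im = η * ‖U‖ ^ 2 := by
      have l1 : Tendsto (fun n => (inner ℂ (Jf (f n)) (Tz H hH z (f n))).im) atTop
          (𝓝 (inner ℂ U (dl x)).im) :=
        (Complex.continuous_im.tendsto _).comp (hJ.inner hT)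
      have l2 : Tendsto (fun n => -(z.im * ‖Jf (f n)‖ ^ 2)) atTop (𝓝 (-(z.im * ‖U‖ ^ 2))) :=
        ((hJ.norm.pow 2).const_mul _).neg
      have e2 : ∀ n, (inner ℂ (Jf (f n)) (Tz H hH z (f n))).im = -(z.im * ‖Jf (f n)‖ ^ 2) := by
        intro n
        have h1 : inner ℂ (Jf (f n)) (Tz H hH z (f n))
            = inner ℂ (Jf (f n)) (T0 H hH (f n)) - z * ((‖Jf (f n)‖ ^ 2 : ℝ) : ℂ) := by
          have : Tz H hH z (f n) = T0 H hH (f n) - z • Jf (f n) := rfl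
          rw [this, inner_sub_right, inner_smul_right, inner_self_eq_norm_sq_to_K]
          push_cast
          rfl
        rw [h1, Complex.sub_im, T0_symm, Complex.mul_im, Complex.ofReal_im, Complex.ofReal_re,
          mul_zero, zero_add, zero_sub]
      simp only [e2] at l1
      have e4 := tendsto_nhds_unique l1 l2
      have e5 : inner ℂ U (dl x) = conj (U x) := by
        rw [← inner_conj_symm, inner_dl]
      rw [e5, Complex.conj_im, hzi] at e4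
      linarith
    have e6 : ‖(E : ℂ) - conj z‖ = η := by
      have : (E : ℂ) - conj z = (η : ℂ) * Complex.I := by
        rw [hzd]
        apply Complex.ext <;> simp
      rw [this, norm_mul, Complex.norm_I, mul_one, Complex.norm_real, Real.norm_of_nonneg hη.le]
    have h7 : ‖ψ x‖ ≤ η * (‖U‖ * ‖ψ‖) := by
      rw [e1, norm_mul, e6]
      exact mul_le_mul_of_nonneg_left (norm_inner_le_norm _ _) hη.le
    calc ‖ψ x‖ ^ 2 ≤ (η * (‖U‖ * ‖ψ‖)) ^ 2 := pow_le_pow_left₀ (norm_nonneg _) h7 2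
      _ = ‖ψ‖ ^ 2 * (η * (U x).im) := by rw [e3]; ring
  -- the atom vanishes
  have h8 : Tendsto (fun n : ℕ => 1 / ((n : ℝ) + 1)
      * (∫ t : ℝ, 1 / ((t : ℂ) - ⟨E, 1 / ((n : ℝ) + 1)⟩) ∂μ).im) atTop (𝓝 0) := by
    have hne : ∀ (n : ℕ) (t : ℝ), (t : ℂ) - ⟨E, 1 / ((n : ℝ) + 1)⟩ ≠ 0 := by
      intro n t h
      have := congrArg Complex.im h
      simp only [Complex.sub_im, Complex.ofReal_im, zero_sub, Complex.zero_im, neg_eq_zero] at this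
      have h9 : (0 : ℝ) < 1 / ((n : ℝ) + 1) := by positivity
      exact h9.ne' this
    have hbd : ∀ (n : ℕ) (t : ℝ), ‖((1 / ((n : ℝ) + 1) : ℝ) : ℂ)
        * (1 / ((t : ℂ) - ⟨E, 1 / ((n : ℝ) + 1)⟩))‖ ≤ 1 := by
      intro n t
      have h9 : (0 : ℝ) < 1 / ((n : ℝ) + 1) := by positivity
      have h10 := Complex.abs_im_le_norm ((t : ℂ) - ⟨E, 1 / ((n : ℝ) + 1)⟩)
      simp only [Complex.sub_im, Complex.ofReal_im, zero_sub, abs_neg] at h10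
      rw [abs_of_pos h9] at h10
      rw [norm_mul, Complex.norm_real, Real.norm_of_nonneg h9.le, norm_div, norm_one, mul_one_div,
        div_le_one (norm_pos_iff.2 (hne n t))]
      exact h10
    have hcont : ∀ n : ℕ, Continuous fun t : ℝ => ((1 / ((n : ℝ) + 1) : ℝ) : ℂ)
        * (1 / ((t : ℂ) - ⟨E, 1 / ((n : ℝ) + 1)⟩)) := fun n =>
      continuous_const.mul (continuous_const.div
        (Complex.continuous_ofReal.sub continuous_const) (hne n))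
    have hdc : Tendsto (fun n : ℕ => ∫ t : ℝ, ((1 / ((n : ℝ) + 1) : ℝ) : ℂ)
        * (1 / ((t : ℂ) - ⟨E, 1 / ((n : ℝ) + 1)⟩)) ∂μ) atTop (𝓝 (∫ _t : ℝ, (0 : ℂ) ∂μ)) := by
      refine tendsto_integral_of_dominated_convergence (fun _ => 1)
        (fun n => (hcont n).aestronglyMeasurable) (integrable_const _)
        (fun n => Eventually.of_forall (hbd n)) ?_
      have : ∀ᵐ t ∂μ, t ≠ E := by
        rw [ae_iff]
        simpa using hμ
      filter_upwards [this] with t ht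
      have h11 : Tendsto (fun n : ℕ => (1 / ((n : ℝ) + 1)) / |t - E|) atTop (𝓝 0) := by
        have := (tendsto_one_div_add_atTop_nhds_zero_nat (𝕜 := ℝ)).div_const |t - E|
        rwa [zero_div] at this
      refine squeeze_zero_norm (fun n => ?_) h11
      have h9 : (0 : ℝ) < 1 / ((n : ℝ) + 1) := by positivity
      have h10 := Complex.abs_re_le_norm ((t : ℂ) - ⟨E, 1 / ((n : ℝ) + 1)⟩)
      simp only [Complex.sub_re, Complex.ofReal_re] at h10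
      rw [norm_mul, Complex.norm_real, Real.norm_of_nonneg h9.le, norm_div, norm_one, mul_one_div]
      exact div_le_div_of_nonneg_left h9.le (abs_pos.2 (sub_ne_zero.2 ht)) h10
    rw [integral_zero] at hdc
    have h12 := (Complex.continuous_im.tendsto _).comp hdc
    rw [Complex.zero_im] at h12
    refine h12.congr fun n => ?_
    simp only [Function.comp]
    rw [integral_const_mul, Complex.im_ofReal_mul]
  have h9 : ‖ψ x‖ ^ 2 ≤ 0 := by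
    have l1 := h8.const_mul (‖ψ‖ ^ 2)
    rw [mul_zero] at l1
    exact ge_of_tendsto' l1 fun n => key (1 / ((n : ℝ) + 1)) (by positivity)
  have h10 : ‖ψ x‖ = 0 := by
    have := sq_nonneg ‖ψ x‖
    exact pow_eq_zero_iff two_ne_zero |>.1 (le_antisymm h9 this)
  exact norm_eq_zero.1 h10

end eig

theorem card_bx (d r : ℕ) : (bx d r).card = (2 * r + 1) ^ d := by
  unfold bx
  rw [Finset.card_image_of_injective _ lf_inj, Finset.card_univ, card_TV]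

theorem nm_bx {d r : ℕ} {x : Zd d} (hx : x ∈ bx d r) : nm x ≤ r := by
  unfold bx at hx
  rw [Finset.mem_image] at hx
  obtain ⟨v, -, rfl⟩ := hx
  exact nm_lf v

theorem F2_blk {d : ℕ} {S : Zd d → ℝ} (hS : Prf S) (ν : Measure ℝ) [IsProbabilityMeasure ν]
    (Λ : Finset (Zd d)) (hΛ0 : Λ.Nonempty) {κ : ℝ} (hκ : 0 < κ)
    (hΛ : ∀ x ∈ Λ, ∀ y ∈ Λ, x ≠ y → κ ≤ S (x - y)) {η : ℝ} (hη : 0 < η) (h4 : 4 * κ ≤ η ^ 2)
    (E : ℝ) : ∫⁻ p, (mG hS ν).F2 η p E ∂(Pr d ν) ≤ ENNReal.ofReal (3 / (Λ.card * κ)) :=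
  (mG hS ν).F2_le hη E _ (fin2 hS ν Λ hΛ0 hκ hΛ (z := ⟨E, η⟩) hη h4)

end

end Pool.Agent.T2H19
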