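import Pool.Agent.T2H19.G5

/-! Abstract form of the criteria for atoms and dimensions. -/

set_option autoImplicit false

namespace Pool.Agent.T2H19

open MeasureTheory ProbabilityTheory Filter Topology
open scoped BigOperators ComplexConjugate ENNReal NNReal

noncomputable section

section res

variable {d : ℕ} {S : Zd d → ℝ} (hS : Prf S) {Ω : Type} [MeasurableSpace Ω] {P : Measure Ω}
  [IsProbabilityMeasure P] (F : ℝ → Ω → ℝ → ℝ≥0∞)
  (hFm : ∀ η : ℝ, 0 < η → Measurable fun q : Ω × ℝ => F η q.1 q.2)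
  (hFb : ∀ Λ : Finset (Zd d), Λ.Nonempty → ∀ κ : ℝ, 0 < κ →
    (∀ x ∈ Λ, ∀ y ∈ Λ, x ≠ y → κ ≤ S (x - y)) → ∀ η : ℝ, 0 < η → 4 * κ ≤ η ^ 2 →
      ∀ E, ∫⁻ p, F η p E ∂P ≤ ENNReal.ofReal (3 / (Λ.card * κ)))

include hS hFm hFb

/-- No atoms. -/
theorem no_atom (hbig : ∀ A : ℝ, ∃ Λ : Finset (Zd d), 2 ≤ Λ.card ∧ ∃ κ : ℝ, 0 < κ ∧
      (∀ x ∈ Λ, ∀ y ∈ Λ, x ≠ y → κ ≤ S (x - y)) ∧ A ≤ Λ.card * √κ) :
    ∃ η : ℕ → ℝ, (∀ j, 0 < η j) ∧ ∀ᵐ p ∂P, ∀ μ : Measure ℝ, IsFiniteMeasure μ →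
      (∀ j E, F (η j) p E
        = ENNReal.ofReal (‖∫ t : ℝ, 1 / ((t : ℂ) - ⟨E, η j⟩) ∂μ‖ ^ 2)) → ∀ E, μ {E} = 0 := by
  choose Λ hc κ hκ hΛ hA using fun j : ℕ => hbig ((2 : ℝ) ^ j)
  have hs0 : ∀ j, 0 < √(κ j) := fun j => Real.sqrt_pos.2 (hκ j)
  have hne : ∀ j, (Λ j).Nonempty := fun j => Finset.card_pos.1 (by have := hc j; omega)
  obtain ⟨N, hN⟩ : ∃ N : ℕ → ℝ, N = fun j => ((Λ j).card : ℝ) := ⟨_, rfl⟩
  have hcp : ∀ j, 0 < N j := fun j => by
    rw [hN]; exact Nat.cast_pos.2 (Finset.card_pos.2 (hne j))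
  have hA' : ∀ j, (2 : ℝ) ^ j ≤ N j * √(κ j) := fun j => by rw [hN]; exact hA j
  refine ⟨fun j => 2 * √(κ j), fun j => by have := hs0 j; positivity, ?_⟩
  have hη4 : ∀ j, 4 * κ j ≤ (2 * √(κ j)) ^ 2 := by
    intro j
    rw [mul_pow, Real.sq_sqrt (hκ j).le]
    norm_num
  have hC : ∀ j, 2 * √(κ j) ≤ 2 * √(∑' h, S h) := by
    intro j
    refine mul_le_mul_of_nonneg_left (Real.sqrt_le_sqrt ?_) (by norm_num)
    obtain ⟨x, hx, y, hy, hxy⟩ := Finset.one_lt_card.1 (show 1 < (Λ j).card by have := hc j; omega)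
    exact (hΛ j x hx y hy hxy).trans (hS.Sm.le_tsum _ fun h _ => hS.S0 h)
  have hB0 : ∀ j, 0 ≤ 3 / (N j * κ j) := fun j =>
    div_nonneg (by norm_num) (mul_nonneg (hcp j).le (hκ j).le)
  have hη0 : ∀ j, 0 < 2 * √(κ j) := fun j => mul_pos two_pos (hs0 j)
  have hsum : Summable fun j => (1 : ℝ) * (2 * √(κ j) * (3 / (N j * κ j))) := by
    refine Summable.of_nonneg_of_le (fun j => ?_) (fun j => ?_)
        (summable_geometric_two.mul_left 6)
    · exact mul_nonneg zero_le_one (mul_nonneg (hη0 j).le (hB0 j))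
    · have h4 : 1 * (2 * √(κ j) * (3 / (N j * κ j))) = 6 / (N j * √(κ j)) := by
        obtain ⟨s, hs⟩ : ∃ s, s = √(κ j) := ⟨_, rfl⟩
        have h3 : κ j = s * s := by rw [hs]; exact (Real.mul_self_sqrt (hκ j).le).symm
        have h1 : 0 < s := by rw [hs]; exact hs0 j
        have h2 := hcp j
        rw [← hs, h3]
        have h5 : 0 < N j * s := mul_pos h2 h1
        have h6 : 0 < N j * (s * s) := mul_pos h2 (mul_pos h1 h1)
        rw [one_mul, mul_div_assoc', div_eq_div_iff h6.ne' h5.ne']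
        ring
      rw [h4, one_div_pow, mul_one_div]
      exact div_le_div_of_nonneg_left (by norm_num) (pow_pos two_pos j) (hA' j)
  have h := prob_crit P (fun j => 2 * √(κ j)) hη0
    (2 * √(∑' h, S h)) hC (fun _ => 1) (fun j => 3 / (N j * κ j)) (fun _ => zero_le_one)
    hB0 hsum (fun j p E => F (2 * √(κ j)) p E) (fun j => hFm _ (hη0 j))
    (fun j E => by
      have := hFb (Λ j) (hne j) (κ j) (hκ j) (hΛ j) _ (hη0 j) (hη4 j) E
      rw [hN]
      exact this)
  filter_upwards [h] with p hp μ hμ hF E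
  refine atom_crit μ (fun j => 2 * √(κ j)) hη0 (fun R => ?_) E
  have h1 := hp μ hμ hF R
  simp only [ENNReal.ofReal_one, one_mul] at h1
  exact h1

/-- Dimension bound. -/
theorem dim_low (hd : 0 < d) {β c : ℝ} (hβ : 0 < β) (hβd : β < d) (hc : 0 < c)
    (hpow : ∀ h : Zd d, h ≠ 0 → c * ‖h‖ ^ (-(2 * β)) ≤ S h) :
    ∀ᵐ p ∂P, ∀ μ : Measure ℝ, IsFiniteMeasure μ →
      (∀ j E, F ((1 / 2 : ℝ) ^ j) p E
        = ENNReal.ofReal (‖∫ t : ℝ, 1 / ((t : ℂ) - ⟨E, (1 / 2 : ℝ) ^ j⟩) ∂μ‖ ^ 2)) →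
      ∀ A : Set ℝ, dimH A < ENNReal.ofReal (d / β - 1) → μ A = 0 := by
  have hd' : (0 : ℝ) < d := by exact_mod_cast hd
  have hγ0 : 0 < d / β - 1 := by
    rw [sub_pos, lt_div_iff₀ hβ, one_mul]; exact hβd
  obtain ⟨η, hη⟩ : ∃ η : ℕ → ℝ, η = fun j => (1 / 2 : ℝ) ^ j := ⟨_, rfl⟩
  have hη0 : ∀ j, 0 < η j := fun j => by rw [hη]; positivity
  have hη1 : ∀ j, η j ≤ 1 := fun j => by
    rw [hη]; exact pow_le_one₀ (by norm_num) (by norm_num)
  obtain ⟨X, hX⟩ : ∃ X : ℕ → ℝ, X = fun j => (4 * c / η j ^ 2) ^ (1 / (2 * β)) := ⟨_, rfl⟩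
  have hX0 : ∀ j, 0 < X j := fun j => by rw [hX]; have := hη0 j; positivity
  obtain ⟨r, hr⟩ : ∃ r : ℕ → ℕ, r = fun j => ⌊X j / 2⌋₊ := ⟨_, rfl⟩
  have hr1 : ∀ j, 2 * (r j : ℝ) ≤ X j := by
    intro j
    have := Nat.floor_le (show 0 ≤ X j / 2 by have := hX0 j; positivity)
    rw [hr]
    simp only
    linarith
  have hr2 : ∀ j, X j / 2 ≤ 2 * (r j : ℝ) + 1 := by
    intro j
    have := Nat.lt_floor_add_one (X j / 2)
    rw [hr]
    simp only
    have h1 : (0 : ℝ) ≤ (⌊X j / 2⌋₊ : ℝ) := by positivity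
    linarith
  obtain ⟨κ, hκ⟩ : ∃ κ : ℕ → ℝ, κ = fun j => η j ^ 2 / 4 := ⟨_, rfl⟩
  have hκ0 : ∀ j, 0 < κ j := fun j => by rw [hκ]; have := hη0 j; positivity
  have hblk : ∀ j, ∀ x ∈ bx d (r j), ∀ y ∈ bx d (r j), x ≠ y → κ j ≤ S (x - y) := by
    intro j x hx y hy hxy
    have h0 : x - y ≠ 0 := sub_ne_zero.2 hxy
    refine le_trans ?_ (hpow (x - y) h0)
    have h1 : ‖x - y‖ ≤ X j := by
      refine le_trans ?_ (hr1 j)
      rw [nm_norm]
      have h2 := nm_add x (-y)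
      rw [nm_neg, ← sub_eq_add_neg] at h2
      have h3 := nm_bx hx
      have h4 := nm_bx hy
      have h5 : nm (x - y) ≤ 2 * r j := by omega
      exact_mod_cast h5
    have h2 : 0 < ‖x - y‖ := norm_pos_iff.2 h0
    have h3 : (X j) ^ (-(2 * β)) ≤ ‖x - y‖ ^ (-(2 * β)) :=
      Real.rpow_le_rpow_of_nonpos h2 h1 (by linarith)
    have h4 : c * (X j) ^ (-(2 * β)) = κ j := by
      rw [hX, hκ]
      simp only
      have := hη0 j
      rw [← Real.rpow_mul (by positivity)]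
      have e : 1 / (2 * β) * -(2 * β) = -1 := by field_simp
      rw [e, Real.rpow_neg_one]
      field_simp
    rw [← h4]
    exact mul_le_mul_of_nonneg_left h3 hc.le
  have hne : ∀ j, (bx d (r j)).Nonempty := fun j => Finset.card_pos.1 (by
    rw [card_bx]; positivity)
  -- one exponent
  have hone : ∀ γ : ℝ, 0 < γ → γ < d / β - 1 → ∀ᵐ p ∂P, ∀ μ : Measure ℝ,
      IsFiniteMeasure μ → (∀ j E, F ((1 / 2 : ℝ) ^ j) p E
        = ENNReal.ofReal (‖∫ t : ℝ, 1 / ((t : ℂ) - ⟨E, (1 / 2 : ℝ) ^ j⟩) ∂μ‖ ^ 2)) →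
      μ ≪ Measure.hausdorffMeasure γ := by
    intro γ hγ hγ1
    obtain ⟨C, hC⟩ : ∃ C : ℝ, C = 12 * 2 ^ d * (4 * c) ^ (-(d / (2 * β))) := ⟨_, rfl⟩
    obtain ⟨q, hq⟩ : ∃ q : ℝ, q = (1 / 2 : ℝ) ^ (d / β - 1 - γ) := ⟨_, rfl⟩
    have hq0 : 0 ≤ q := by rw [hq]; positivity
    have hq1 : q < 1 := by
      rw [hq]; exact Real.rpow_lt_one (by norm_num) (by norm_num) (by linarith)
    have h := prob_crit P η hη0 1 hη1 (fun j => (η j) ^ (-γ))
      (fun j => 3 / ((bx d (r j)).card * κ j)) (fun j => by have := hη0 j; positivity)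
      (fun j => by have := hκ0 j; positivity) (by
        refine Summable.of_nonneg_of_le (fun j => by
          have := hκ0 j
          have := hη0 j
          positivity) (fun j => ?_) ((summable_geometric_of_lt_one hq0 hq1).mul_left C)
        have h1 := hη0 j
        have h2 := hX0 j
        have h3 : (X j / 2) ^ d ≤ ((bx d (r j)).card : ℝ) := by
          rw [card_bx]
          push_cast
          exact pow_le_pow_left₀ (by positivity) (hr2 j) d
        have h4 : 3 / ((bx d (r j)).card * κ j) ≤ 3 / ((X j / 2) ^ d * κ j) :=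
          div_le_div_of_nonneg_left (by norm_num) (by have := hκ0 j; positivity)
            (mul_le_mul_of_nonneg_right h3 (hκ0 j).le)
        have h5 : (X j) ^ d = (4 * c) ^ (d / (2 * β)) * (η j) ^ (-(d / β)) := by
          rw [hX]
          simp only
          rw [← Real.rpow_natCast (_ ^ (1 / (2 * β))) d, ← Real.rpow_mul (by positivity),
            Real.div_rpow (by positivity) (by positivity), ← Real.rpow_natCast (η j) 2,
            ← Real.rpow_mul h1.le, Real.rpow_neg h1.le]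
          have e1 : 1 / (2 * β) * (d : ℝ) = d / (2 * β) := by field_simp
          have e2 : ((2 : ℕ) : ℝ) * (1 / (2 * β) * d) = d / β := by
            push_cast
            field_simp
          rw [e2, e1]
          rfl
        have h6 : q ^ j = (η j) ^ (d / β - 1 - γ) := by
          rw [hq, hη]
          simp only
          rw [← Real.rpow_natCast, ← Real.rpow_natCast, ← Real.rpow_mul (by norm_num),
            ← Real.rpow_mul (by norm_num), mul_comm]
        calc (η j) ^ (-γ) * (η j * (3 / ((bx d (r j)).card * κ j)))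
            ≤ (η j) ^ (-γ) * (η j * (3 / ((X j / 2) ^ d * κ j))) :=
              mul_le_mul_of_nonneg_left (mul_le_mul_of_nonneg_left h4 h1.le) (by positivity)
          _ = C * q ^ j := by
              rw [h6, hC, div_pow, h5, hκ]
              simp only
              have e1 : (4 * c) ^ (-(d / (2 * β))) = ((4 * c) ^ (d / (2 * β)))⁻¹ :=
                Real.rpow_neg (by positivity) _
              have e2 : (η j) ^ (d / β - 1 - γ)
                  = (η j) ^ (-γ) * (η j) ^ (d / β) * (η j)⁻¹ := by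
                rw [← Real.rpow_neg_one (η j), ← Real.rpow_add h1, ← Real.rpow_add h1]
                congr 1
                ring
              have e3 : (η j) ^ (-(d / β)) = ((η j) ^ (d / β))⁻¹ := Real.rpow_neg h1.le _
              rw [e1, e2, e3]
              have h7 : 0 < (4 * c) ^ (d / (2 * β)) := by positivity
              have h8 : 0 < (η j) ^ (d / β) := by positivity
              field_simp
              norm_num)
      (fun j p E => F (η j) p E)
      (fun j => hFm _ (hη0 j))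
      (fun j E => hFb (bx d (r j)) (hne j) (κ j) (hκ0 j) (hblk j) _ (hη0 j) (by
        rw [hκ]
        simp only
        linarith) E)
    filter_upwards [h] with p hp μ hμ hF
    refine dim_crit μ hγ fun R => ?_
    have := hp μ hμ (by rw [hη]; exact hF) R
    rw [hη] at this
    exact this
  have hall : ∀ᵐ p ∂P, ∀ k : ℕ, ∀ μ : Measure ℝ,
      IsFiniteMeasure μ → (∀ j E, F ((1 / 2 : ℝ) ^ j) p E
        = ENNReal.ofReal (‖∫ t : ℝ, 1 / ((t : ℂ) - ⟨E, (1 / 2 : ℝ) ^ j⟩) ∂μ‖ ^ 2)) →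
      μ ≪ Measure.hausdorffMeasure ((d / β - 1) * (1 - 1 / ((k : ℝ) + 2))) := by
    rw [ae_all_iff]
    intro k
    have h1 : (0 : ℝ) < 1 / ((k : ℝ) + 2) := by positivity
    have h2 : 1 / ((k : ℝ) + 2) < 1 := by
      rw [div_lt_one (by positivity)]
      have : (0 : ℝ) ≤ k := by positivity
      linarith
    refine hone _ (mul_pos hγ0 (by linarith)) ?_
    nlinarith
  filter_upwards [hall] with p hp μ hμ hF A hA
  have hlim : Tendsto (fun k : ℕ => (d / β - 1) * (1 - 1 / ((k : ℝ) + 2))) atTop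
      (𝓝 ((d / β - 1) * (1 - 0))) := by
    refine Tendsto.const_mul _ (Tendsto.const_sub 1 ?_)
    have h1 : Tendsto (fun k : ℕ => (k : ℝ) + 2) atTop atTop :=
      tendsto_atTop_add_const_right _ _ tendsto_natCast_atTop_atTop
    exact Tendsto.const_div_atTop h1 _
  rw [sub_zero, mul_one] at hlim
  have h1 : ∀ᶠ k : ℕ in atTop, dimH A < ENNReal.ofReal ((d / β - 1) * (1 - 1 / ((k : ℝ) + 2))) :=
    ((ENNReal.continuous_ofReal.tendsto _).comp hlim).eventually (lt_mem_nhds hA)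
  obtain ⟨k, hk⟩ := h1.exists
  refine hp k μ hμ hF ?_
  have hk0 : 0 ≤ (d / β - 1) * (1 - 1 / ((k : ℝ) + 2)) := by
    by_contra hn
    rw [ENNReal.ofReal_of_nonpos (not_le.1 hn).le] at hk
    exact not_lt_bot hk
  have := hausdorffMeasure_of_dimH_lt (s := A)
    (d := ⟨(d / β - 1) * (1 - 1 / ((k : ℝ) + 2)), hk0⟩) (by
      refine hk.trans_eq ?_
      rw [ENNReal.ofReal]
      congr 1
      exact Real.toNNReal_of_nonneg hk0)
  exact this

end res

end

end Pool.Agent.T2H19
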