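import Mathlib

/-! One-dimensional Gaussian calculus. -/

set_option autoImplicit false

namespace Pool.Agent.T2H19

open MeasureTheory ProbabilityTheory Filter Topology

noncomputable section

/-- The standard Gaussian law. -/
abbrev gam : Measure ℝ := gaussianReal 0 1

/-- Its density. -/
def ph (x : ℝ) : ℝ := gaussianPDFReal 0 1 x

theorem ph_eq (x : ℝ) : ph x = (√(2 * Real.pi))⁻¹ * Real.exp (-x ^ 2 / 2) := by
  unfold ph gaussianPDFReal
  simp

theorem ph_nonneg (x : ℝ) : 0 ≤ ph x := gaussianPDFReal_nonneg _ _ _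

theorem ph_deriv (x : ℝ) : HasDerivAt ph (-x * ph x) x := by
  have h : ph = fun x => (√(2 * Real.pi))⁻¹ * Real.exp (-x ^ 2 / 2) := funext ph_eq
  have h1 : HasDerivAt (fun x : ℝ => -x ^ 2 / 2) (-x) x := by
    have := ((hasDerivAt_pow 2 x).neg).div_const 2
    refine this.congr_deriv ?_
    norm_num
    ring
  have h2 := (h1.exp).const_mul (√(2 * Real.pi))⁻¹
  rw [h]
  refine h2.congr_deriv ?_
  ring

theorem ph_cont : Continuous ph := by
  have h : ph = fun x => (√(2 * Real.pi))⁻¹ * Real.exp (-x ^ 2 / 2) := funext ph_eq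
  rw [h]
  fun_prop

theorem ph_bd (x : ℝ) : (1 + |x|) ^ 2 * ph x ≤ 10 * Real.exp (-(1 / 4) * x ^ 2) := by
  rw [ph_eq]
  have hpi : (1 : ℝ) ≤ √(2 * Real.pi) := by
    rw [Real.one_le_sqrt]
    have := Real.pi_gt_three
    linarith
  have h1 : (√(2 * Real.pi))⁻¹ ≤ 1 := inv_le_one_of_one_le₀ hpi
  have h2 : Real.exp (-x ^ 2 / 2) = Real.exp (-(1 / 4) * x ^ 2) * Real.exp (-(1 / 4) * x ^ 2) := by
    rw [← Real.exp_add]; congr 1; ring
  have h3 : (1 + |x|) ^ 2 * Real.exp (-(1 / 4) * x ^ 2) ≤ 10 := by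
    have h4 : (1 + |x|) ^ 2 ≤ 2 + 2 * x ^ 2 := by
      have := sq_abs x
      nlinarith [sq_nonneg (1 - |x|)]
    have h5 : 1 + x ^ 2 / 4 ≤ Real.exp (x ^ 2 / 4) := by
      have := Real.add_one_le_exp (x ^ 2 / 4)
      linarith
    have h6 : Real.exp (-(1 / 4) * x ^ 2) = (Real.exp (x ^ 2 / 4))⁻¹ := by
      rw [← Real.exp_neg]; congr 1; ring
    rw [h6, mul_inv_le_iff₀ (Real.exp_pos _)]
    nlinarith [sq_nonneg x]
  have hs : 0 < (√(2 * Real.pi))⁻¹ := by positivity
  have he := Real.exp_pos (-(1 / 4) * x ^ 2)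
  rw [h2]
  calc (1 + |x|) ^ 2 * ((√(2 * Real.pi))⁻¹ * (Real.exp (-(1 / 4) * x ^ 2) *
        Real.exp (-(1 / 4) * x ^ 2)))
      = (√(2 * Real.pi))⁻¹ * (((1 + |x|) ^ 2 * Real.exp (-(1 / 4) * x ^ 2)) *
        Real.exp (-(1 / 4) * x ^ 2)) := by ring
    _ ≤ 1 * (10 * Real.exp (-(1 / 4) * x ^ 2)) := by
        refine mul_le_mul h1 (mul_le_mul_of_nonneg_right h3 he.le) ?_ zero_le_one
        positivity
    _ = _ := one_mul _

theorem ph_int : Integrable (fun x : ℝ => 10 * Real.exp (-(1 / 4) * x ^ 2)) :=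
  (integrable_exp_neg_mul_sq (by norm_num : (0 : ℝ) < 1 / 4)).const_mul 10

theorem int_gam {E : Type*} [NormedAddCommGroup E] [NormedSpace ℝ E] (f : ℝ → E) :
    ∫ x, f x ∂gam = ∫ x, ph x • f x := by
  rw [integral_gaussianReal_eq_integral_smul (by norm_num)]
  rfl

theorem stein (f f' : ℝ → ℂ) (hf : ∀ t, HasDerivAt f (f' t) t) (hc : Continuous f') (A C : ℝ)
    (hb : ∀ t, ‖f t‖ ≤ A * (1 + |t|)) (hb' : ∀ t, ‖f' t‖ ≤ C) :
    ∫ t, (t : ℂ) * f t ∂gam = ∫ t, f' t ∂gam := by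
  rw [int_gam, int_gam]
  have hA : 0 ≤ A := by
    have := (norm_nonneg _).trans (hb 0)
    simpa using this
  have hC : 0 ≤ C := (norm_nonneg _).trans (hb' 0)
  have hfc : Continuous f := continuous_iff_continuousAt.2 fun t => (hf t).continuousAt
  have hu : ∀ x : ℝ, HasDerivAt (fun x : ℝ => (ph x : ℂ)) ((-x * ph x : ℝ) : ℂ) x :=
    fun x => (ph_deriv x).ofReal_comp
  have hphc : Continuous fun x : ℝ => (ph x : ℂ) := Complex.continuous_ofReal.comp ph_cont
  have dom : ∀ (g : ℝ → ℂ) (D : ℝ), Continuous g → 0 ≤ D → (∀ x, ‖g x‖ ≤ D * (1 + |x|) ^ 2 * ph x) →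
      Integrable g := by
    intro g D hg hD h
    refine (ph_int.const_mul D).mono' hg.aestronglyMeasurable (Eventually.of_forall fun x => ?_)
    refine (h x).trans ?_
    rw [mul_assoc]
    exact mul_le_mul_of_nonneg_left (ph_bd x) hD
  have h1 := integral_mul_deriv_eq_deriv_mul_of_integrable (u := fun x : ℝ => (ph x : ℂ))
    (u' := fun x : ℝ => ((-x * ph x : ℝ) : ℂ)) (v := f) (v' := f') (fun x _ => hu x)
    (fun x _ => hf x)
    (by
      refine dom _ C (hphc.mul hc) hC fun x => ?_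
      rw [Pi.mul_apply, norm_mul, Complex.norm_real, Real.norm_of_nonneg (ph_nonneg x)]
      have h1 : (1 : ℝ) ≤ (1 + |x|) ^ 2 := by nlinarith [abs_nonneg x]
      have h2 := hb' x
      have h3 : ‖f' x‖ ≤ C * (1 + |x|) ^ 2 := by nlinarith [abs_nonneg x]
      rw [mul_comm]
      exact mul_le_mul_of_nonneg_right h3 (ph_nonneg x))
    (by
      refine dom _ A (Continuous.mul (Complex.continuous_ofReal.comp
        (continuous_neg.mul ph_cont)) hfc) hA fun x => ?_
      rw [Pi.mul_apply, norm_mul, Complex.norm_real, Real.norm_eq_abs, abs_mul, abs_neg,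
        abs_of_nonneg (ph_nonneg x)]
      have h2 := hb x
      have h3 : |x| * ‖f x‖ ≤ A * (1 + |x|) ^ 2 := by
        have h4 : |x| * ‖f x‖ ≤ |x| * (A * (1 + |x|)) := mul_le_mul_of_nonneg_left h2 (abs_nonneg x)
        nlinarith [abs_nonneg x, mul_nonneg hA (abs_nonneg x)]
      calc |x| * ph x * ‖f x‖ = (|x| * ‖f x‖) * ph x := by ring
        _ ≤ _ := mul_le_mul_of_nonneg_right h3 (ph_nonneg x))
    (by
      refine dom _ A (hphc.mul hfc) hA fun x => ?_
      rw [Pi.mul_apply, norm_mul, Complex.norm_real, Real.norm_of_nonneg (ph_nonneg x)]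
      have h2 := hb x
      have h3 : ‖f x‖ ≤ A * (1 + |x|) ^ 2 := by
        nlinarith [abs_nonneg x, mul_nonneg hA (abs_nonneg x)]
      rw [mul_comm]
      exact mul_le_mul_of_nonneg_right h3 (ph_nonneg x))
  have e1 : ∀ x : ℝ, ph x • f' x = (ph x : ℂ) * f' x := fun x => Complex.real_smul
  have e2 : ∀ x : ℝ, ph x • ((x : ℂ) * f x) = -(((-x * ph x : ℝ) : ℂ) * f x) := fun x => by
    rw [Complex.real_smul]; push_cast; ring
  simp only [e1, e2]
  rw [integral_neg, h1]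

theorem gam_int_pow (p : ℕ) : Integrable (fun t : ℝ => |t| ^ p) gam := by
  have h := memLp_id_gaussianReal (μ := 0) (v := 1) (p : NNReal)
  have h2 := h.integrable_norm_pow' 
  simpa using h2

theorem gam_dom (g : ℝ → ℂ) (A : ℝ) (hg : Continuous g) (h : ∀ t, ‖g t‖ ≤ A * (1 + |t|) ^ 2) :
    Integrable g gam := by
  have h1 : Integrable (fun t : ℝ => A * (1 + |t|) ^ 2) gam := by
    have : (fun t : ℝ => A * (1 + |t|) ^ 2) = fun t : ℝ => A * (1 + 2 * |t| ^ 1 + |t| ^ 2) := by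
      funext t; ring
    rw [this]
    exact (((integrable_const _).add ((gam_int_pow 1).const_mul 2)).add (gam_int_pow 2)).const_mul A
  exact h1.mono' hg.aestronglyMeasurable (Eventually.of_forall h)

theorem sq_le_of_deriv (F F' : ℝ → ℂ) (hF : ∀ t, HasDerivAt F (F' t) t) (hc : Continuous F')
    (t : ℝ) (ht : t ≠ 0) : ‖F t - F 0‖ ^ 2 ≤ t * ∫ s in (0 : ℝ)..t, ‖F' s‖ ^ 2 := by
  have hD : ∫ s in (0 : ℝ)..t, F' s = F t - F 0 :=
    intervalIntegral.integral_eq_sub_of_hasDerivAt (fun s _ => hF s) (hc.intervalIntegrable _ _)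
  set D := F t - F 0 with hDd
  set c : ℂ := D / t with hcd
  have hcc : Continuous fun s => ‖F' s - c‖ ^ 2 := (hc.sub continuous_const).norm.pow 2
  have e1 : ∀ s, ‖F' s - c‖ ^ 2 = ‖F' s‖ ^ 2 + (-(2 * ((starRingEnd ℂ) c * F' s).re) + ‖c‖ ^ 2) := by
    intro s
    rw [← Complex.normSq_eq_norm_sq, ← Complex.normSq_eq_norm_sq, ← Complex.normSq_eq_norm_sq,
      Complex.normSq_sub, mul_comm (F' s)]
    ring
  have i1 : IntervalIntegrable (fun s => ‖F' s‖ ^ 2) volume 0 t :=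
    (hc.norm.pow 2).intervalIntegrable _ _
  have i2 : IntervalIntegrable (fun s => (starRingEnd ℂ) c * F' s) volume 0 t :=
    (continuous_const.mul hc).intervalIntegrable _ _
  have i2' : IntervalIntegrable (fun s => ((starRingEnd ℂ) c * F' s).re) volume 0 t :=
    (Complex.continuous_re.comp (continuous_const.mul hc)).intervalIntegrable _ _
  have i3 : IntervalIntegrable (fun s => -(2 * ((starRingEnd ℂ) c * F' s).re)) volume 0 t :=
    (i2'.const_mul 2).neg
  have i4 : IntervalIntegrable (fun _ : ℝ => ‖c‖ ^ 2) volume 0 t :=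
    continuous_const.intervalIntegrable _ _
  have e2 : ∫ s in (0 : ℝ)..t, ((starRingEnd ℂ) c * F' s).re = ((starRingEnd ℂ) c * D).re := by
    have h1 : ∫ s in (0 : ℝ)..t, (starRingEnd ℂ) c * F' s = (starRingEnd ℂ) c * D := by
      rw [intervalIntegral.integral_const_mul, hD]
    have h2 := Complex.reCLM.intervalIntegral_comp_comm i2
    rw [h1] at h2
    exact h2
  have e3 : ∫ s in (0 : ℝ)..t, ‖F' s - c‖ ^ 2
      = (∫ s in (0 : ℝ)..t, ‖F' s‖ ^ 2) + (-(2 * ((starRingEnd ℂ) c * D).re) + t * ‖c‖ ^ 2) := by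
    simp only [e1]
    rw [intervalIntegral.integral_add i1 (i3.add i4), intervalIntegral.integral_add i3 i4,
      intervalIntegral.integral_neg, intervalIntegral.integral_const_mul, e2,
      intervalIntegral.integral_const]
    simp
  have ht' : (t : ℂ) ≠ 0 := by exact_mod_cast ht
  have e4 : ((starRingEnd ℂ) c * D).re = ‖D‖ ^ 2 / t := by
    have : (starRingEnd ℂ) c * D = ((‖D‖ ^ 2 / t : ℝ) : ℂ) := by
      rw [hcd, map_div₀, Complex.conj_ofReal]
      push_cast
      rw [← Complex.conj_mul']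
      ring
    rw [this, Complex.ofReal_re]
  have e5 : ‖c‖ ^ 2 = ‖D‖ ^ 2 / t ^ 2 := by
    rw [hcd, norm_div, Complex.norm_real, div_pow, Real.norm_eq_abs, sq_abs]
  have h6 : 0 ≤ t * ∫ s in (0 : ℝ)..t, ‖F' s - c‖ ^ 2 := by
    rcases lt_or_gt_of_ne ht with h | h
    · rw [intervalIntegral.integral_symm]
      have : 0 ≤ ∫ s in t..(0 : ℝ), ‖F' s - c‖ ^ 2 :=
        intervalIntegral.integral_nonneg h.le fun s _ => by positivity
      nlinarith
    · have : 0 ≤ ∫ s in (0 : ℝ)..t, ‖F' s - c‖ ^ 2 :=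
        intervalIntegral.integral_nonneg h.le fun s _ => by positivity
      positivity
  rw [e3, e4, e5] at h6
  have h7 : t * ((∫ s in (0 : ℝ)..t, ‖F' s‖ ^ 2) + (-(2 * (‖D‖ ^ 2 / t)) + t * (‖D‖ ^ 2 / t ^ 2)))
      = t * (∫ s in (0 : ℝ)..t, ‖F' s‖ ^ 2) - ‖D‖ ^ 2 := by
    field_simp
    ring
  rw [h7] at h6
  linarith

/-- One-dimensional Poincaré inequality. -/
theorem poin (F F' : ℝ → ℂ) (hF : ∀ t, HasDerivAt F (F' t) t) (hc : Continuous F') (C : ℝ)
    (hb' : ∀ t, ‖F' t‖ ≤ C) :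
    ∫ t, ‖F t - F 0‖ ^ 2 ∂gam ≤ ∫ t, ‖F' t‖ ^ 2 ∂gam := by
  have hC : 0 ≤ C := (norm_nonneg _).trans (hb' 0)
  have hFc : Continuous F := continuous_iff_continuousAt.2 fun t => (hF t).continuousAt
  obtain ⟨q, hq⟩ : ∃ q : ℝ → ℝ, q = fun t => ∫ s in (0 : ℝ)..t, ‖F' s‖ ^ 2 := ⟨_, rfl⟩
  have hcn : Continuous fun s => ‖F' s‖ ^ 2 := hc.norm.pow 2
  have hqd : ∀ t, HasDerivAt q (‖F' t‖ ^ 2) t := by
    intro t
    rw [hq]
    exact intervalIntegral.integral_hasDerivAt_right (hcn.intervalIntegrable _ _)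
      (hcn.stronglyMeasurableAtFilter _ _) hcn.continuousAt
  have hqc : Continuous q := continuous_iff_continuousAt.2 fun t => (hqd t).continuousAt
  have hqb : ∀ t, |q t| ≤ C ^ 2 * |t| := by
    intro t
    rw [hq]
    have := intervalIntegral.norm_integral_le_of_norm_le_const (a := 0) (b := t) (C := C ^ 2)
      (f := fun s => ‖F' s‖ ^ 2) (fun s _ => by
        rw [Real.norm_of_nonneg (by positivity)]
        exact pow_le_pow_left₀ (norm_nonneg _) (hb' s) 2)
    simpa using this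
  have h1 := stein (fun t => (q t : ℂ)) (fun t => ((‖F' t‖ ^ 2 : ℝ) : ℂ))
    (fun t => (hqd t).ofReal_comp) (Complex.continuous_ofReal.comp hcn) (C ^ 2) (C ^ 2)
    (fun t => by
      rw [Complex.norm_real, Real.norm_eq_abs]
      have := hqb t
      nlinarith [sq_nonneg C])
    (fun t => by
      rw [Complex.norm_real, Real.norm_of_nonneg (by positivity)]
      exact pow_le_pow_left₀ (norm_nonneg _) (hb' t) 2)
  have h2 : ∫ t, t * q t ∂gam = ∫ t, ‖F' t‖ ^ 2 ∂gam := by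
    have e1 : ∀ t : ℝ, (t : ℂ) * (q t : ℂ) = ((t * q t : ℝ) : ℂ) := fun t => by push_cast; ring
    simp only [e1] at h1
    rw [integral_complex_ofReal, integral_complex_ofReal] at h1
    exact_mod_cast h1
  rw [← h2]
  have hp : ∀ t, ‖F t - F 0‖ ^ 2 ≤ t * q t := by
    intro t
    by_cases ht : t = 0
    · rw [ht]; simp
    · rw [hq]; exact sq_le_of_deriv F F' hF hc t ht
  have hint : Integrable (fun t => t * q t) gam := by
    have h3 := gam_dom (fun t => ((t * q t : ℝ) : ℂ)) (C ^ 2)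
      (Complex.continuous_ofReal.comp (continuous_id.mul hqc)) (fun t => by
        rw [Complex.norm_real, Real.norm_eq_abs, abs_mul]
        have h4 := hqb t
        have h5 : |t| * |q t| ≤ |t| * (C ^ 2 * |t|) := mul_le_mul_of_nonneg_left h4 (abs_nonneg t)
        have h6 : 0 ≤ C ^ 2 * |t| := by positivity
        nlinarith [sq_nonneg C, abs_nonneg t])
    exact h3.re
  refine integral_mono_of_nonneg (Eventually.of_forall fun t => by positivity) hint
    (Eventually.of_forall hp)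

/-- The Wegner constant. -/
def CW (σ : ℝ) : ℝ := (√(2 * Real.pi))⁻¹ * (Real.pi / |σ|)

theorem CW_nonneg (σ : ℝ) : 0 ≤ CW σ := by
  unfold CW
  have := Real.pi_pos
  positivity

theorem wegner1 (σ α I : ℝ) (hσ : σ ≠ 0) (hI : 0 < I) :
    ∫ t, I / ((σ * t + α) ^ 2 + I ^ 2) ∂gam ≤ CW σ := by
  rw [int_gam]
  obtain ⟨g, hg⟩ : ∃ g : ℝ → ℝ, g = fun x => (1 + x ^ 2)⁻¹ := ⟨_, rfl⟩
  have hgi : Integrable g := by rw [hg]; exact integrable_inv_one_add_sq
  have hgp : ∫ x, g x = Real.pi := by rw [hg]; exact integral_univ_inv_one_add_sq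
  have hs : σ / I ≠ 0 := div_ne_zero hσ hI.ne'
  have e : ∀ t, I / ((σ * t + α) ^ 2 + I ^ 2) = I⁻¹ * g (σ / I * (t + α / σ)) := by
    intro t
    rw [hg]
    field_simp
    ring
  have h1 : ∫ t, I⁻¹ * g (σ / I * (t + α / σ)) = Real.pi / |σ| := by
    rw [integral_const_mul, integral_add_right_eq_self (fun t => g (σ / I * t)),
      Measure.integral_comp_mul_left, hgp, smul_eq_mul, inv_div, abs_div, abs_of_pos hI]
    field_simp
  have i1 : Integrable fun t => I⁻¹ * g (σ / I * (t + α / σ)) :=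
    ((hgi.comp_mul_left' hs).comp_add_right (α / σ)).const_mul _
  have hph : ∀ x, ph x ≤ (√(2 * Real.pi))⁻¹ := by
    intro x
    rw [ph_eq]
    have : Real.exp (-x ^ 2 / 2) ≤ 1 := Real.exp_le_one_iff.2 (by nlinarith [sq_nonneg x])
    have h2 : 0 ≤ (√(2 * Real.pi))⁻¹ := by positivity
    nlinarith
  simp only [e, smul_eq_mul]
  have h3 : ∀ t, 0 ≤ I⁻¹ * g (σ / I * (t + α / σ)) := by
    intro t
    rw [hg]
    positivity
  calc ∫ t, ph t * (I⁻¹ * g (σ / I * (t + α / σ)))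
      ≤ ∫ t, (√(2 * Real.pi))⁻¹ * (I⁻¹ * g (σ / I * (t + α / σ))) := by
        refine integral_mono_of_nonneg (Eventually.of_forall fun t =>
          mul_nonneg (ph_nonneg t) (h3 t)) (i1.const_mul _) (Eventually.of_forall fun t => ?_)
        exact mul_le_mul_of_nonneg_right (hph t) (h3 t)
    _ = CW σ := by
        rw [integral_const_mul, h1]
        rfl

end

end Pool.Agent.T2H19
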