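import Pool.Agent.T2H19.Fin1
import Pool.Agent.T2H19.Det2

/-! The infinite volume model: entries, moments and symmetries. -/

set_option autoImplicit false

namespace Pool.Agent.T2H19

open MeasureTheory ProbabilityTheory Filter Topology
open scoped BigOperators ComplexConjugate ENNReal

noncomputable section

/-- The complex Gaussian variable of a pair. -/
def Wg {V : Type} (ω : Ix V → ℝ) (x y : V) : ℂ :=
  (((ω (Sum.inr (x, y, false)) + ω (Sum.inr (y, x, false))) / 2 : ℝ) : ℂ)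
    + (((ω (Sum.inr (x, y, true)) - ω (Sum.inr (y, x, true))) / 2 : ℝ) : ℂ) * Complex.I

theorem Wg_symm {V : Type} (ω : Ix V → ℝ) (x y : V) : Wg ω x y = conj (Wg ω y x) := by
  unfold Wg
  rw [map_add, map_mul, Complex.conj_ofReal, Complex.conj_ofReal, Complex.conj_I]
  push_cast
  ring

theorem Wg_sh {V W : Type} (e : V → W) (ω : Ix W → ℝ) (x y : V) :
    Wg (fun k => ω (shI e k)) x y = Wg ω (e x) (e y) := rfl

/-- Entries of the model. -/
def He {V : Type} [DecidableEq V] (K : V → V → ℂ) (σ : ℝ) (S : V → V → ℝ) (ω : Ix V → ℝ)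
    (x y : V) : ℂ :=
  K x y + (if x = y then ((σ * ω (Sum.inl x) : ℝ) : ℂ) else 0) + ((√(S x y) : ℝ) : ℂ) * Wg ω x y

theorem Hf_entry {V : Type} [Fintype V] [DecidableEq V] (K : Matrix V V ℂ) (σ : ℝ) (S : V → V → ℝ)
    (hs : ∀ x y, S x y = S y x) (ω : Ix V → ℝ) (a b : V) :
    Hf K (fun k => cS σ S k * ω k) a b = He K σ S ω a b := by
  unfold Hf He
  rw [Matrix.add_apply, Matrix.sum_apply, Fintype.sum_sum_type, add_assoc]
  congr 1
  congr 1
  · simp only [cS, Bm, Matrix.smul_apply, Matrix.single_apply, smul_eq_mul]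
    by_cases h : a = b
    · subst h
      rw [Finset.sum_eq_single a]
      · simp
      · intro x _ hx
        simp [hx]
      · simp
    · rw [if_neg h]
      refine Finset.sum_eq_zero fun x _ => ?_
      rw [if_neg, mul_zero]
      rintro ⟨h1, h2⟩
      exact h (h1.symm.trans h2)
  · rw [Fintype.sum_prod_type]
    simp only [Fintype.sum_prod_type, Fintype.sum_bool]
    simp only [cS, Bm, Matrix.smul_apply, Matrix.add_apply, Matrix.sub_apply, Matrix.single_apply,
      smul_eq_mul]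
    have e1 : ∀ x y : V,
        (((√(S x y) * ω (Sum.inr (x, y, true)) : ℝ) : ℂ)) * (Complex.I / 2 *
          ((if x = a ∧ y = b then (1 : ℂ) else 0) - (if y = a ∧ x = b then (1 : ℂ) else 0)))
        + (((√(S x y) * ω (Sum.inr (x, y, false)) : ℝ) : ℂ)) * (1 / 2 *
          ((if x = a ∧ y = b then (1 : ℂ) else 0) + (if y = a ∧ x = b then (1 : ℂ) else 0)))
        = (if x = a ∧ y = b then (((√(S x y) * ω (Sum.inr (x, y, true)) : ℝ) : ℂ)) * (Complex.I / 2)
            + (((√(S x y) * ω (Sum.inr (x, y, false)) : ℝ) : ℂ)) * (1 / 2) else 0)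
          + (if y = a ∧ x = b then -((((√(S x y) * ω (Sum.inr (x, y, true)) : ℝ) : ℂ)) * (Complex.I / 2))
            + (((√(S x y) * ω (Sum.inr (x, y, false)) : ℝ) : ℂ)) * (1 / 2) else 0) := by
      intro x y
      split_ifs <;> ring
    simp only [e1, Finset.sum_add_distrib]
    have e2 : ∀ g : V → V → ℂ, ∑ x, ∑ y, (if x = a ∧ y = b then g x y else 0) = g a b := by
      intro g
      rw [Finset.sum_eq_single a, Finset.sum_eq_single b]
      · simp
      · intro y _ hy; simp [hy]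
      · simp
      · intro x _ hx
        refine Finset.sum_eq_zero fun y _ => ?_
        simp [hx]
      · simp
    have e3 : ∀ g : V → V → ℂ, ∑ x, ∑ y, (if y = a ∧ x = b then g x y else 0) = g b a := by
      intro g
      rw [Finset.sum_eq_single b, Finset.sum_eq_single a]
      · simp
      · intro y _ hy; simp [hy]
      · simp
      · intro x _ hx
        refine Finset.sum_eq_zero fun y _ => ?_
        simp [hx]
      · simp
    rw [e2, e3, hs b a]
    unfold Wg
    push_cast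
    ring

theorem int_sq_gam : ∫ t : ℝ, t ^ 2 ∂gam = 1 := by
  have h := variance_fun_id_gaussianReal (μ := 0) (v := 1)
  rw [variance_eq_integral (by fun_prop)] at h
  simpa using h

theorem lint_sq {κ : Type} (k : κ) : ∫⁻ ω, ENNReal.ofReal (ω k ^ 2) ∂(PP κ) = 1 := by
  have h1 : ∫⁻ ω, ENNReal.ofReal (ω k ^ 2) ∂(PP κ) = ∫⁻ t : ℝ, ENNReal.ofReal (t ^ 2) ∂gam :=
    (eval_mp k).lintegral_comp (f := fun t : ℝ => ENNReal.ofReal (t ^ 2)) (by fun_prop)
  have h2 : Integrable (fun t : ℝ => t ^ 2) gam := by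
    have := gam_int_pow 2
    simpa using this
  rw [h1, ← ofReal_integral_eq_lintegral_ofReal h2 (Eventually.of_forall fun t => sq_nonneg t),
    int_sq_gam, ENNReal.ofReal_one]

theorem Wg_meas {V : Type} (x y : V) : Measurable fun ω : Ix V → ℝ => Wg ω x y := by
  unfold Wg
  fun_prop

theorem Wg_cont {V : Type} (x y : V) : Continuous fun ω : Ix V → ℝ => Wg ω x y := by
  unfold Wg
  fun_prop

theorem lint_W {V : Type} (x y : V) :
    ∫⁻ ω, ENNReal.ofReal (‖Wg ω x y‖ ^ 2) ∂(PP (Ix V)) ≤ 2 := by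
  have hpt : ∀ ω : Ix V → ℝ, ‖Wg ω x y‖ ^ 2 ≤ (1 / 2) * (ω (Sum.inr (x, y, false)) ^ 2
      + ω (Sum.inr (y, x, false)) ^ 2 + ω (Sum.inr (x, y, true)) ^ 2
      + ω (Sum.inr (y, x, true)) ^ 2) := by
    intro ω
    unfold Wg
    rw [← Complex.normSq_eq_norm_sq, Complex.normSq_add_mul_I]
    nlinarith [sq_nonneg (ω (Sum.inr (x, y, false)) - ω (Sum.inr (y, x, false))),
      sq_nonneg (ω (Sum.inr (x, y, true)) + ω (Sum.inr (y, x, true)))]
  calc ∫⁻ ω, ENNReal.ofReal (‖Wg ω x y‖ ^ 2) ∂(PP (Ix V))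
      ≤ ∫⁻ ω, ENNReal.ofReal (1 / 2) * (ENNReal.ofReal (ω (Sum.inr (x, y, false)) ^ 2)
        + ENNReal.ofReal (ω (Sum.inr (y, x, false)) ^ 2) + ENNReal.ofReal (ω (Sum.inr (x, y, true)) ^ 2)
        + ENNReal.ofReal (ω (Sum.inr (y, x, true)) ^ 2)) ∂(PP (Ix V)) := by
        refine lintegral_mono fun ω => ?_
        refine (ENNReal.ofReal_le_ofReal (hpt ω)).trans (le_of_eq ?_)
        rw [ENNReal.ofReal_mul (by norm_num), ENNReal.ofReal_add (by positivity) (by positivity),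
          ENNReal.ofReal_add (by positivity) (by positivity),
          ENNReal.ofReal_add (by positivity) (by positivity)]
    _ = ENNReal.ofReal (1 / 2) * (1 + 1 + 1 + 1) := by
        rw [lintegral_const_mul _ (by fun_prop), lintegral_add_right _ (by fun_prop),
          lintegral_add_right _ (by fun_prop), lintegral_add_right _ (by fun_prop), lint_sq, lint_sq,
          lint_sq, lint_sq]
    _ = 2 := by
        have : (1 : ℝ≥0∞) + 1 + 1 + 1 = ENNReal.ofReal 4 := by
          rw [show (4 : ℝ) = 1 + 1 + 1 + 1 by norm_num, ENNReal.ofReal_add (by norm_num) (by norm_num),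
            ENNReal.ofReal_add (by norm_num) (by norm_num),
            ENNReal.ofReal_add (by norm_num) (by norm_num), ENNReal.ofReal_one]
        rw [this, ← ENNReal.ofReal_mul (by norm_num)]
        norm_num

/-- Second moment of `k + s W`. -/
theorem lint_kW {V : Type} (x y : V) (k s : ℝ) :
    ∫⁻ ω, ENNReal.ofReal (‖(k : ℂ) + (s : ℂ) * Wg ω x y‖ ^ 2) ∂(PP (Ix V))
      ≤ ENNReal.ofReal (2 * k ^ 2 + 4 * s ^ 2) := by
  have hpt : ∀ ω : Ix V → ℝ, ‖(k : ℂ) + (s : ℂ) * Wg ω x y‖ ^ 2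
      ≤ 2 * k ^ 2 + 2 * s ^ 2 * ‖Wg ω x y‖ ^ 2 := by
    intro ω
    have h1 := norm_add_le (k : ℂ) ((s : ℂ) * Wg ω x y)
    rw [norm_mul, Complex.norm_real, Complex.norm_real, Real.norm_eq_abs, Real.norm_eq_abs] at h1
    have h2 := pow_le_pow_left₀ (norm_nonneg _) h1 2
    have h3 := sq_abs k
    have h4 : (|s| * ‖Wg ω x y‖) ^ 2 = s ^ 2 * ‖Wg ω x y‖ ^ 2 := by rw [mul_pow, sq_abs]
    nlinarith [sq_nonneg (|k| - |s| * ‖Wg ω x y‖)]
  calc ∫⁻ ω, ENNReal.ofReal (‖(k : ℂ) + (s : ℂ) * Wg ω x y‖ ^ 2) ∂(PP (Ix V))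
      ≤ ∫⁻ ω, (ENNReal.ofReal (2 * k ^ 2) + ENNReal.ofReal (2 * s ^ 2)
        * ENNReal.ofReal (‖Wg ω x y‖ ^ 2)) ∂(PP (Ix V)) := by
        refine lintegral_mono fun ω => ?_
        rw [← ENNReal.ofReal_mul (by positivity), ← ENNReal.ofReal_add (by positivity)
          (by positivity)]
        exact ENNReal.ofReal_le_ofReal (hpt ω)
    _ = ENNReal.ofReal (2 * k ^ 2) + ENNReal.ofReal (2 * s ^ 2)
        * ∫⁻ ω, ENNReal.ofReal (‖Wg ω x y‖ ^ 2) ∂(PP (Ix V)) := by
        have hm : Measurable fun ω : Ix V → ℝ => ENNReal.ofReal (‖Wg ω x y‖ ^ 2) :=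
          ((Wg_meas x y).norm.pow_const 2).ennreal_ofReal
        rw [lintegral_add_left measurable_const, lintegral_const, measure_univ, mul_one,
          lintegral_const_mul _ hm]
    _ ≤ ENNReal.ofReal (2 * k ^ 2) + ENNReal.ofReal (2 * s ^ 2) * 2 :=
        add_le_add le_rfl (mul_le_mul_right (lint_W x y) _)
    _ = _ := by
        rw [ENNReal.ofReal_add (by positivity) (by positivity)]
        congr 1
        rw [show (2 : ℝ≥0∞) = ENNReal.ofReal 2 by simp, ← ENNReal.ofReal_mul (by positivity)]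
        congr 1
        ring

/-- Variance profile of the infinite volume model. -/
def Sf (ε β : ℝ) (d : ℕ) (x y : Zd d) : ℝ := ε ^ 2 * ‖x - y‖ ^ (-(2 * β))

/-- Kinetic kernel of the infinite volume model. -/
def Kf (d : ℕ) (x y : Zd d) : ℂ := (kk (x - y) : ℂ)

/-- The infinite volume matrix. -/
def Hi (ε β σ : ℝ) (d : ℕ) (ω : Ix (Zd d) → ℝ) : Zd d → Zd d → ℂ :=
  He (Kf d) σ (Sf ε β d) ω

theorem Sf_symm (ε β : ℝ) (d : ℕ) (x y : Zd d) : Sf ε β d x y = Sf ε β d y x := by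
  unfold Sf
  rw [norm_sub_rev]

theorem Sf_nonneg (ε β : ℝ) (d : ℕ) (x y : Zd d) : 0 ≤ Sf ε β d x y := by
  unfold Sf; positivity

theorem Hi_herm (ε β σ : ℝ) (d : ℕ) (ω : Ix (Zd d) → ℝ) (x y : Zd d) :
    Hi ε β σ d ω x y = conj (Hi ε β σ d ω y x) := by
  unfold Hi He
  rw [map_add, map_add, map_mul, Complex.conj_ofReal, ← Wg_symm, Sf_symm ε β d x y]
  congr 1
  congr 1
  · unfold Kf
    rw [Complex.conj_ofReal, ← neg_sub y x, kk_neg]
  · by_cases h : x = y
    · rw [if_pos h, if_pos h.symm, h, Complex.conj_ofReal]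
    · rw [if_neg h, if_neg (Ne.symm h), map_zero]

/-- Translations. -/
def ta {d : ℕ} (c : Zd d) (ω : Ix (Zd d) → ℝ) : Ix (Zd d) → ℝ := fun k => ω (shI (· + c) k)

theorem ta_mp {d : ℕ} (c : Zd d) : MeasurePreserving (ta c) (PP (Ix (Zd d))) (PP (Ix (Zd d))) :=
  inj_mp (shI_inj (add_left_injective c))

theorem Hi_ta (ε β σ : ℝ) {d : ℕ} (c : Zd d) (ω : Ix (Zd d) → ℝ) (x y : Zd d) :
    Hi ε β σ d (ta c ω) x y = Hi ε β σ d ω (x + c) (y + c) := by
  unfold Hi He ta
  rw [Wg_sh]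
  unfold Kf Sf
  rw [add_sub_add_right_eq_sub]
  simp only [add_left_inj]
  rfl

end

end Pool.Agent.T2H19
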