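import Pool.Agent.T2H19.Inf1

/-! Comparison of the torus and the lattice. -/

set_option autoImplicit false

namespace Pool.Agent.T2H19

open MeasureTheory ProbabilityTheory Filter Topology
open scoped BigOperators ComplexConjugate ENNReal

noncomputable section

/-- The torus matrix. -/
def Mt (ε β σ : ℝ) (d n : ℕ) (ω : Ix (Zd d) → ℝ) : Matrix (TV d n) (TV d n) ℂ :=
  Hf (KT d n) (fun k => cS σ (ST ε β d n) k * ω (shI lf k))

theorem Mt_herm (ε β σ : ℝ) (d n : ℕ) (ω : Ix (Zd d) → ℝ) : (Mt ε β σ d n ω).IsHermitian :=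
  Hf_herm (KT_herm d n) _

theorem ST_symm (ε β : ℝ) (d n : ℕ) (v w : TV d n) : ST ε β d n v w = ST ε β d n w v := by
  unfold ST
  rw [lf_symm v w, nm_neg]
  by_cases h : v = w
  · rw [if_pos h, if_pos h.symm]
  · rw [if_neg h, if_neg (Ne.symm h)]

theorem Mt_entry (ε β σ : ℝ) (d n : ℕ) (ω : Ix (Zd d) → ℝ) (v w : TV d n) :
    Mt ε β σ d n ω v w = (kk (lf (v - w)) : ℂ) + (if v = w then ((σ * ω (Sum.inl (lf v)) : ℝ) : ℂ)
      else 0) + ((√(ST ε β d n v w) : ℝ) : ℂ) * Wg ω (lf v) (lf w) := by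
  unfold Mt
  rw [Hf_entry (KT d n) σ (ST ε β d n) (ST_symm ε β d n) (fun k => ω (shI lf k)) v w]
  rfl

/-- The difference of the matrices. -/
def Qm (ε β σ : ℝ) (d n : ℕ) (ω : Ix (Zd d) → ℝ) (w : Zd d) (v : TV d n) : ℂ :=
  Hi ε β σ d ω w (lf v) - if nm w ≤ n then Mt ε β σ d n ω (qt w) v else 0

/-- Deterministic part of the difference. -/
def kQ (d n : ℕ) (w : Zd d) (v : TV d n) : ℝ :=
  kk (w - lf v) - if nm w ≤ n then kk (lf (qt w - v)) else 0

/-- Coefficient of the Gaussian part of the difference. -/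
def sQ (ε β : ℝ) (d n : ℕ) (w : Zd d) (v : TV d n) : ℝ :=
  √(Sf ε β d w (lf v)) - if nm w ≤ n then √(ST ε β d n (qt w) v) else 0

theorem Qm_eq (ε β σ : ℝ) (d n : ℕ) (ω : Ix (Zd d) → ℝ) (w : Zd d) (v : TV d n) :
    Qm ε β σ d n ω w v = (kQ d n w v : ℂ) + (sQ ε β d n w v : ℂ) * Wg ω w (lf v) := by
  unfold Qm kQ sQ Hi He Kf
  by_cases h : nm w ≤ n
  · rw [if_pos h, if_pos h, if_pos h, Mt_entry, lf_qt w h]
    by_cases h2 : w = lf v
    · have h3 : qt w = v := by rw [h2, qt_lf]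
      rw [if_pos h2, if_pos h3]
      push_cast
      ring
    · have h3 : qt w ≠ v := by
        intro h4
        apply h2
        rw [← h4, lf_qt w h]
      rw [if_neg h2, if_neg h3]
      push_cast
      ring
  · rw [if_neg h, if_neg h, if_neg h]
    have h2 : w ≠ lf v := by
      rintro rfl
      exact h (nm_lf v)
    rw [if_neg h2]
    push_cast
    ring

/-- The bounding profile. -/
def PF (ε β : ℝ) {d : ℕ} (h : Zd d) : ℝ := (1 + ε ^ 2) * ‖h‖ ^ (-(2 * β))

theorem PF_nonneg (ε β : ℝ) {d : ℕ} (h : Zd d) : 0 ≤ PF ε β h := by unfold PF; positivity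

theorem nm_le_sum {d : ℕ} (h : Zd d) : nm h ≤ ∑ i, (h i).natAbs := by
  rw [nm_le_iff]
  intro i
  exact Finset.single_le_sum (f := fun i => (h i).natAbs) (fun _ _ => Nat.zero_le _)
    (Finset.mem_univ i)

theorem kk_sq_le (β : ℝ) {d : ℕ} (h : Zd d) : kk h ^ 2 ≤ ‖h‖ ^ (-(2 * β)) := by
  unfold kk
  split_ifs with h1
  · have h2 : nm h = 1 := by
      have h3 := nm_le_sum h
      have h4 : nm h ≠ 0 := by
        intro h5
        rw [(nm_eq_zero h).1 h5] at h1
        simp at h1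
      omega
    rw [nm_norm, h2, Nat.cast_one, Real.one_rpow, one_pow]
  · rw [zero_pow two_ne_zero]
    positivity

theorem kk_far {d : ℕ} (h : Zd d) (hh : 1 < nm h) : kk h = 0 := by
  unfold kk
  rw [if_neg]
  have := nm_le_sum h
  omega

theorem sqrt_diff {A B C : ℝ} (hA : 0 ≤ A) (hB : 0 ≤ B) (h1 : A ≤ C) (h2 : B ≤ C) :
    (√A - √B) ^ 2 ≤ C := by
  have e1 := Real.sqrt_nonneg A
  have e2 := Real.sqrt_nonneg B
  have e3 := Real.sq_sqrt hA
  have e4 := Real.sq_sqrt hB
  rcases le_total (√A) (√B) with h | h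
  · nlinarith [mul_nonneg e1 e2]
  · nlinarith [mul_nonneg e1 e2]

theorem sqrt_diff2 {A G : ℝ} (hG : 0 ≤ G) (h1 : G ≤ A) : (√A - √(A - G)) ^ 2 ≤ G := by
  have hA : 0 ≤ A := hG.trans h1
  have e2 := Real.sqrt_nonneg (A - G)
  have e3 := Real.sq_sqrt hA
  have e4 := Real.sq_sqrt (sub_nonneg.2 h1)
  have e5 : √(A - G) ≤ √A := Real.sqrt_le_sqrt (by linarith)
  nlinarith

theorem Sf_Fr (ε β : ℝ) {d : ℕ} (x y : Zd d) : Sf ε β d x y = Fr ε β (nm (x - y)) := by
  unfold Sf Fr
  rw [nm_norm]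

theorem q_bound {ε β : ℝ} (hβ : 0 < β) {d n : ℕ} (hn : 1 ≤ n) (w : Zd d) (v : TV d n) :
    2 * kQ d n w v ^ 2 + 4 * sQ ε β d n w v ^ 2 ≤
      (if nm w ≤ n then 4 * Fr ε β (n + 1) +
        (if nm (lf v + lf (qt w - v)) ≤ n then 0 else 4 * PF ε β (lf (qt w - v)))
      else 4 * PF ε β (w - lf v)) := by
  unfold kQ sQ
  have hP : ∀ h : Zd d, 2 * kk h ^ 2 + 4 * (ε ^ 2 * ‖h‖ ^ (-(2 * β))) ≤ 4 * PF ε β h := by
    intro h
    have h1 := kk_sq_le β h
    have h2 : 0 ≤ ‖h‖ ^ (-(2 * β)) := by positivity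
    unfold PF
    nlinarith
  by_cases h : nm w ≤ n
  · rw [if_pos h, if_pos h, if_pos h]
    by_cases h2 : nm (w - lf v) ≤ n
    · -- no wrapping
      have e1 : lf (qt w - v) = w - lf v := by
        have := lf_sub (qt w : TV d n) v (by rw [lf_qt w h]; exact h2)
        rw [this, lf_qt w h]
      have h3 : nm (lf v + lf (qt w - v)) ≤ n := by
        rw [e1, add_sub_cancel]
        exact h
      rw [if_pos h3, e1, sub_self, add_zero]
      by_cases h4 : qt w = v
      · have h5 : w = lf v := by rw [← h4, lf_qt w h]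
        unfold ST Sf
        rw [if_pos h4, h5, sub_self]
        have : (‖(0 : Zd d)‖ : ℝ) ^ (-(2 * β)) = 0 := by
          rw [norm_zero]
          exact Real.zero_rpow (by linarith)
        rw [this]
        have := Fr_nonneg ε β (n + 1)
        simp
        linarith
      · unfold ST
        rw [if_neg h4, e1, Sf_Fr]
        have h5 : 1 ≤ nm (w - lf v) := by
          rw [Nat.one_le_iff_ne_zero, Ne, nm_eq_zero, sub_eq_zero]
          intro h6
          apply h4
          rw [h6, qt_lf]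
        have := sqrt_diff2 (Fr_nonneg ε β (n + 1)) (Fr_anti (ε := ε) hβ h5 (by omega : nm (w - lf v) ≤ n + 1))
        linarith
    · -- wrapping
      have hne : qt w ≠ v := by
        intro h6
        apply h2
        have h7 : w = lf v := by rw [← h6, lf_qt w h]
        rw [h7, sub_self, (nm_eq_zero (0 : Zd d)).2 rfl]
        exact Nat.zero_le _
      have h3 : ¬ nm (lf v + lf (qt w - v)) ≤ n := by
        intro h4
        have e1 : (qt (lf v + lf (qt w - v)) : TV d n) = qt w := by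
          have : lf v + lf (qt w - v) = lf v - -lf (qt w - v) := by abel
          rw [this, qt_sub, qt_neg, qt_lf, qt_lf]
          abel
        have e2 : lf v + lf (qt w - v) = w := by
          rw [← lf_qt _ h4, e1, lf_qt w h]
        apply h2
        have e3 : w - lf v = lf (qt w - v) := by
          conv_lhs => rw [← e2]
          abel
        rw [e3]
        exact nm_lf _
      rw [if_neg h3, kk_far (w - lf v) (by omega), zero_sub, neg_sq]
      have h5 : nm (lf (qt w - v)) ≤ nm (w - lf v) := by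
        have := nm_lf_sub (qt w : TV d n) v
        rwa [lf_qt w h] at this
      have h6 : 1 ≤ nm (lf (qt w - v)) := by
        rw [Nat.one_le_iff_ne_zero, Ne, nm_eq_zero, lf_eq_zero, sub_eq_zero]
        exact hne
      have h7 : nm (lf (qt w - v)) ≤ n + 1 := by
        have := nm_lf (qt w - v)
        omega
      have h8 : (√(Sf ε β d w (lf v)) - √(ST ε β d n (qt w) v)) ^ 2
          ≤ ε ^ 2 * ‖lf (qt w - v)‖ ^ (-(2 * β)) := by
        have e1 : ε ^ 2 * ‖lf (qt w - v)‖ ^ (-(2 * β)) = Fr ε β (nm (lf (qt w - v))) := by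
          unfold Fr; rw [nm_norm]
        rw [e1, Sf_Fr]
        unfold ST
        rw [if_neg hne]
        have h9 := Fr_nonneg ε β (n + 1)
        have h10 := Fr_anti (ε := ε) hβ h6 h7
        exact sqrt_diff (Fr_nonneg _ _ _) (by linarith) (Fr_anti hβ h6 h5) (by linarith)
      have h9 := hP (lf (qt w - v))
      have h10 := Fr_nonneg ε β (n + 1)
      linarith
  · rw [if_neg h, if_neg h, if_neg h, sub_zero, sub_zero]
    have h1 := hP (w - lf v)
    have h2 : √(Sf ε β d w (lf v)) ^ 2 = ε ^ 2 * ‖w - lf v‖ ^ (-(2 * β)) := by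
      rw [Real.sq_sqrt (Sf_nonneg ε β d w (lf v))]
      rfl
    rw [h2]
    exact h1

/-- Number of points of the torus leaving the box. -/
def Th (d n : ℕ) (h : Zd d) : ℕ := (Finset.univ.filter fun v : TV d n => ¬ nm (lf v + h) ≤ n).card

theorem nm_add {d : ℕ} (a b : Zd d) : nm (a + b) ≤ nm a + nm b := by
  rw [nm_le_iff]
  intro i
  have h1 := (nm_le_iff a (nm a)).1 le_rfl i
  have h2 := (nm_le_iff b (nm b)).1 le_rfl i
  have h3 : ((a + b) i).natAbs ≤ (a i).natAbs + (b i).natAbs := Int.natAbs_add_le _ _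
  omega

theorem Th_le (d n : ℕ) (h : Zd d) (hh : nm h ≤ n) :
    (Th d n h : ℝ) ≤ (2 * n + 1 : ℝ) ^ d - (2 * ((n : ℝ) - nm h) + 1) ^ d := by
  have h1 : (Finset.univ.filter fun v : TV d n => nm (lf v) ≤ n - nm h).card
      + (Finset.univ.filter fun v : TV d n => ¬ nm (lf v) ≤ n - nm h).card = (2 * n + 1) ^ d := by
    rw [Finset.card_filter_add_card_filter_not, Finset.card_univ, card_TV]
  rw [card_ball d n _ (Nat.sub_le _ _)] at h1
  have h2 : Th d n h ≤ (Finset.univ.filter fun v : TV d n => ¬ nm (lf v) ≤ n - nm h).card := by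
    unfold Th
    refine Finset.card_le_card fun v hv => ?_
    simp only [Finset.mem_filter, Finset.mem_univ, true_and] at hv ⊢
    intro h3
    apply hv
    have := nm_add (lf v) h
    omega
  have h3 : ((2 * (n - nm h) + 1 : ℕ) : ℝ) = 2 * ((n : ℝ) - nm h) + 1 := by
    push_cast [Nat.cast_sub hh]
    ring
  have h4 : ((2 * (n - nm h) + 1 : ℕ) : ℝ) ^ d + (Th d n h : ℝ) ≤ (2 * n + 1 : ℝ) ^ d := by
    have : (2 * (n - nm h) + 1) ^ d + Th d n h ≤ (2 * n + 1) ^ d := by omega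
    exact_mod_cast this
  rw [h3] at h4
  linarith

theorem Th_tendsto (d : ℕ) (h : Zd d) :
    Tendsto (fun n : ℕ => (Th d n h : ℝ) / (2 * n + 1 : ℝ) ^ d) atTop (𝓝 0) := by
  have h1 : Tendsto (fun n : ℕ => 1 - ((2 * ((n : ℝ) - nm h) + 1) / (2 * n + 1)) ^ d) atTop
      (𝓝 (1 - (1 : ℝ) ^ d)) := by
    refine Tendsto.const_sub 1 (Tendsto.pow ?_ d)
    have h2 : Tendsto (fun n : ℕ => 1 - 2 * (nm h : ℝ) / (2 * n + 1)) atTop (𝓝 (1 - 0)) := by
      refine Tendsto.const_sub 1 ?_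
      have h3 : Tendsto (fun n : ℕ => (2 * (n : ℝ) + 1)) atTop atTop :=
        tendsto_atTop_add_const_right _ _ (tendsto_natCast_atTop_atTop.const_mul_atTop two_pos)
      exact Tendsto.const_div_atTop h3 _
    rw [sub_zero] at h2
    refine h2.congr fun n => ?_
    have : (2 * (n : ℝ) + 1) ≠ 0 := by positivity
    field_simp
    ring
  rw [one_pow, sub_self] at h1
  refine squeeze_zero' (Eventually.of_forall fun n => by positivity) ?_ h1
  filter_upwards [eventually_ge_atTop (nm h)] with n hn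
  have h3 := Th_le d n h hn
  have h4 : (0 : ℝ) < (2 * n + 1) ^ d := by positivity
  rw [div_le_iff₀ h4, div_pow]
  rw [sub_mul, one_mul, div_mul_cancel₀ _ h4.ne']
  exact h3

/-- The averaged error. -/
def Dn (ε β : ℝ) (d n : ℕ) : ℝ := 8 * ∑' h : Zd d, PF ε β h * ((Th d n h : ℝ) / (2 * n + 1 : ℝ) ^ d)
  + 4 * ((2 * n + 1 : ℝ) ^ d * Fr ε β (n + 1))

theorem PF_summable (ε : ℝ) {β : ℝ} {d : ℕ} (hβ : (d : ℝ) < 2 * β) :
    Summable fun h : Zd d => PF ε β h := (summable_int d (2 * β) hβ).mul_left _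

theorem Th_le_one (d n : ℕ) (h : Zd d) : (Th d n h : ℝ) / (2 * n + 1 : ℝ) ^ d ≤ 1 := by
  rw [div_le_one (by positivity)]
  have h1 : Th d n h ≤ (2 * n + 1) ^ d := by
    unfold Th
    rw [← card_TV, ← Finset.card_univ]
    exact Finset.card_filter_le _ _
  exact_mod_cast h1

theorem Dn_tendsto (ε : ℝ) {β : ℝ} {d : ℕ} (hβ : (d : ℝ) < 2 * β) :
    Tendsto (fun n => Dn ε β d n) atTop (𝓝 0) := by
  have h1 : Tendsto (fun n : ℕ => ∑' h : Zd d, PF ε β h * ((Th d n h : ℝ) / (2 * n + 1 : ℝ) ^ d))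
      atTop (𝓝 (∑' _h : Zd d, 0)) := by
    refine tendsto_tsum_of_dominated_convergence (PF_summable ε hβ) (fun h => ?_)
      (Eventually.of_forall fun n h => ?_)
    · have := (Th_tendsto d h).const_mul (PF ε β h)
      rwa [mul_zero] at this
    · rw [Real.norm_of_nonneg (mul_nonneg (PF_nonneg _ _ _) (by positivity))]
      calc PF ε β h * ((Th d n h : ℝ) / (2 * n + 1 : ℝ) ^ d) ≤ PF ε β h * 1 :=
            mul_le_mul_of_nonneg_left (Th_le_one d n h) (PF_nonneg _ _ _)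
        _ = _ := mul_one _
  rw [tsum_zero] at h1
  have h2 : Tendsto (fun n : ℕ => (2 * n + 1 : ℝ) ^ d * Fr ε β (n + 1)) atTop (𝓝 0) := by
    have h3 : Tendsto (fun n : ℕ => (2 : ℝ) ^ d * ε ^ 2 * ((n + 1 : ℕ) : ℝ) ^ (-(2 * β - d))) atTop
        (𝓝 ((2 : ℝ) ^ d * ε ^ 2 * 0)) := by
      refine Tendsto.const_mul _ ?_
      exact (tendsto_rpow_neg_atTop (by linarith : 0 < 2 * β - d)).comp
        (tendsto_natCast_atTop_atTop.comp (tendsto_add_atTop_nat 1))
    rw [mul_zero] at h3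
    refine squeeze_zero (fun n => mul_nonneg (by positivity) (Fr_nonneg _ _ _)) (fun n => ?_) h3
    unfold Fr
    have h4 : (0 : ℝ) < ((n + 1 : ℕ) : ℝ) := by positivity
    have h5 : (2 * n + 1 : ℝ) ^ d ≤ 2 ^ d * ((n + 1 : ℕ) : ℝ) ^ d := by
      rw [← mul_pow]
      refine pow_le_pow_left₀ (by positivity) ?_ d
      push_cast
      linarith
    have h6 : ((n + 1 : ℕ) : ℝ) ^ (-(2 * β - d)) = ((n + 1 : ℕ) : ℝ) ^ d * ((n + 1 : ℕ) : ℝ) ^ (-(2 * β)) := by
      rw [← Real.rpow_natCast, ← Real.rpow_add h4]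
      congr 1
      ring
    rw [h6]
    have h7 : 0 ≤ ((n + 1 : ℕ) : ℝ) ^ (-(2 * β)) := by positivity
    calc (2 * n + 1 : ℝ) ^ d * (ε ^ 2 * ((n + 1 : ℕ) : ℝ) ^ (-(2 * β)))
        ≤ (2 ^ d * ((n + 1 : ℕ) : ℝ) ^ d) * (ε ^ 2 * ((n + 1 : ℕ) : ℝ) ^ (-(2 * β))) :=
          mul_le_mul_of_nonneg_right h5 (by positivity)
      _ = _ := by ring
  have h3 := (h1.const_mul 8).add (h2.const_mul 4)
  simp only [mul_zero, add_zero] at h3
  exact h3

/-- Sums over the box. -/
theorem tsum_box {d n : ℕ} (g : Zd d → ℝ≥0∞) :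
    ∑' w : Zd d, (if nm w ≤ n then g w else 0) = ∑ v : TV d n, g (lf v) := by
  rw [tsum_eq_sum (s := Finset.univ.image (lf : TV d n → Zd d))]
  · rw [Finset.sum_image (fun a _ b _ h => lf_inj h)]
    exact Finset.sum_congr rfl fun v _ => by rw [if_pos (nm_lf v)]
  · intro w hw
    rw [if_neg]
    intro h
    apply hw
    rw [Finset.mem_image]
    exact ⟨qt w, Finset.mem_univ _, lf_qt w h⟩

theorem sum_q {ε β : ℝ} {d : ℕ} (hd : 0 < d) (hβ : (d : ℝ) < 2 * β) {n : ℕ} (hn : 1 ≤ n) :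
    ∑ v : TV d n, ∑' w : Zd d, ENNReal.ofReal (2 * kQ d n w v ^ 2 + 4 * sQ ε β d n w v ^ 2)
      ≤ ENNReal.ofReal ((2 * n + 1 : ℝ) ^ d * Dn ε β d n) := by
  have hd' : (0 : ℝ) < d := by exact_mod_cast hd
  have hβ0 : 0 < β := by linarith
  obtain ⟨Z, hZ⟩ : ∃ Z : TV d n → ℝ≥0∞, Z = fun v => ∑' h : Zd d,
      (if nm (lf v + h) ≤ n then 0 else ENNReal.ofReal (4 * PF ε β h)) := ⟨_, rfl⟩
  have h1 : ∀ v : TV d n, ∑' w : Zd d, ENNReal.ofReal (2 * kQ d n w v ^ 2 + 4 * sQ ε β d n w v ^ 2)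
      ≤ Z v + Z v + ENNReal.ofReal ((2 * n + 1 : ℝ) ^ d * (4 * Fr ε β (n + 1))) := by
    intro v
    have h2 : ∀ w : Zd d, ENNReal.ofReal (2 * kQ d n w v ^ 2 + 4 * sQ ε β d n w v ^ 2)
        ≤ (if nm w ≤ n then ENNReal.ofReal (4 * Fr ε β (n + 1)) else 0)
          + (if nm w ≤ n then (if nm (lf v + lf (qt w - v)) ≤ n then 0
            else ENNReal.ofReal (4 * PF ε β (lf (qt w - v)))) else 0)
          + (if nm w ≤ n then 0 else ENNReal.ofReal (4 * PF ε β (w - lf v))) := by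
      intro w
      refine (ENNReal.ofReal_le_ofReal (q_bound hβ0 hn w v)).trans ?_
      by_cases h : nm w ≤ n
      · rw [if_pos h, if_pos h, if_pos h, if_pos h, add_zero,
          ENNReal.ofReal_add (by have := Fr_nonneg ε β (n + 1); positivity) (by
            split_ifs
            · exact le_rfl
            · have := PF_nonneg ε β (lf (qt w - v)); positivity)]
        refine add_le_add le_rfl ?_
        split_ifs <;> simp
      · rw [if_neg h, if_neg h, if_neg h, if_neg h]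
        simp
    refine (ENNReal.tsum_le_tsum h2).trans ?_
    rw [ENNReal.tsum_add, ENNReal.tsum_add, tsum_box, tsum_box]
    have e1 : ∑ _w : TV d n, ENNReal.ofReal (4 * Fr ε β (n + 1))
        = ENNReal.ofReal ((2 * n + 1 : ℝ) ^ d * (4 * Fr ε β (n + 1))) := by
      rw [Finset.sum_const, Finset.card_univ, card_TV, nsmul_eq_mul, ← ENNReal.ofReal_natCast,
        ← ENNReal.ofReal_mul (by positivity)]
      congr 1
      push_cast
      ring
    have e2 : ∑ w : TV d n, (if nm (lf v + lf (qt (lf w) - v)) ≤ n then 0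
        else ENNReal.ofReal (4 * PF ε β (lf (qt (lf w) - v)))) ≤ Z v := by
      simp only [qt_lf]
      have e3 : ∑ w : TV d n, (if nm (lf v + lf (w - v)) ≤ n then (0 : ℝ≥0∞)
          else ENNReal.ofReal (4 * PF ε β (lf (w - v))))
          = ∑ u : TV d n, (if nm (lf v + lf u) ≤ n then (0 : ℝ≥0∞)
            else ENNReal.ofReal (4 * PF ε β (lf u))) :=
        Equiv.sum_comp (Equiv.subRight v) fun u => (if nm (lf v + lf u) ≤ n then (0 : ℝ≥0∞)
            else ENNReal.ofReal (4 * PF ε β (lf u)))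
      rw [e3, ← tsum_box (n := n) fun h => (if nm (lf v + h) ≤ n then (0 : ℝ≥0∞)
            else ENNReal.ofReal (4 * PF ε β h)), hZ]
      refine ENNReal.tsum_le_tsum fun h => ?_
      split_ifs <;> simp
    have e4 : ∑' w : Zd d, (if nm w ≤ n then 0 else ENNReal.ofReal (4 * PF ε β (w - lf v))) = Z v := by
      rw [hZ]
      simp only
      rw [← (Equiv.addLeft (lf v)).tsum_eq]
      refine tsum_congr fun h => ?_
      simp only [Equiv.coe_addLeft, add_sub_cancel_left]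
    rw [e1, e4]
    calc ENNReal.ofReal ((2 * n + 1 : ℝ) ^ d * (4 * Fr ε β (n + 1)))
          + ∑ w : TV d n, (if nm (lf v + lf (qt (lf w) - v)) ≤ n then 0
            else ENNReal.ofReal (4 * PF ε β (lf (qt (lf w) - v)))) + Z v
        ≤ ENNReal.ofReal ((2 * n + 1 : ℝ) ^ d * (4 * Fr ε β (n + 1))) + Z v + Z v :=
          add_le_add (add_le_add le_rfl e2) le_rfl
      _ = _ := by ring
  have h3 : ∑ v, Z v = ENNReal.ofReal (4 * ((2 * n + 1 : ℝ) ^ d *
      ∑' h : Zd d, PF ε β h * ((Th d n h : ℝ) / (2 * n + 1 : ℝ) ^ d))) := by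
    have hsm : Summable fun h : Zd d => PF ε β h * (Th d n h : ℝ) := by
      refine Summable.of_nonneg_of_le (fun h => mul_nonneg (PF_nonneg _ _ _) (by positivity))
        (fun h => ?_) ((PF_summable ε hβ).mul_right ((2 * n + 1 : ℝ) ^ d))
      refine mul_le_mul_of_nonneg_left ?_ (PF_nonneg _ _ _)
      have := Th_le_one d n h
      rwa [div_le_one (by positivity)] at this
    have e1 : (4 * ((2 * n + 1 : ℝ) ^ d * ∑' h : Zd d, PF ε β h *
        ((Th d n h : ℝ) / (2 * n + 1 : ℝ) ^ d))) = ∑' h : Zd d, 4 * (PF ε β h * (Th d n h : ℝ)) := by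
      rw [tsum_mul_left, ← tsum_mul_left (a := (2 * n + 1 : ℝ) ^ d)]
      congr 1
      refine tsum_congr fun h => ?_
      field_simp
    rw [e1, ENNReal.ofReal_tsum_of_nonneg (fun h => mul_nonneg (by norm_num)
      (mul_nonneg (PF_nonneg _ _ _) (by positivity))) (hsm.mul_left 4)]
    rw [hZ]
    have e2 : ∑ v : TV d n, ∑' h : Zd d, (if nm (lf v + h) ≤ n then 0
        else ENNReal.ofReal (4 * PF ε β h)) = ∑' h : Zd d, ∑ v : TV d n,
        (if nm (lf v + h) ≤ n then 0 else ENNReal.ofReal (4 * PF ε β h)) := by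
      rw [Summable.tsum_finsetSum fun _ _ => ENNReal.summable]
    simp only
    rw [e2]
    refine tsum_congr fun h => ?_
    have e3 : ∀ v : TV d n, (if nm (lf v + h) ≤ n then 0 else ENNReal.ofReal (4 * PF ε β h))
        = if ¬ nm (lf v + h) ≤ n then ENNReal.ofReal (4 * PF ε β h) else 0 := by
      intro v
      by_cases hv : nm (lf v + h) ≤ n
      · rw [if_pos hv, if_neg (not_not.2 hv)]
      · rw [if_neg hv, if_pos hv]
    simp only [e3]
    rw [← Finset.sum_filter, Finset.sum_const, nsmul_eq_mul]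
    have e4 : (4 * (PF ε β h * (Th d n h : ℝ))) = (Th d n h : ℝ) * (4 * PF ε β h) := by ring
    rw [e4, ← ENNReal.ofReal_natCast, ← ENNReal.ofReal_mul (by positivity)]
    rfl
  refine (Finset.sum_le_sum fun v _ => h1 v).trans ?_
  have hT0 : 0 ≤ ∑' h : Zd d, PF ε β h * ((Th d n h : ℝ) / (2 * n + 1 : ℝ) ^ d) :=
    tsum_nonneg fun h => mul_nonneg (PF_nonneg _ _ _) (by positivity)
  have hF0 := Fr_nonneg ε β (n + 1)
  rw [Finset.sum_add_distrib, Finset.sum_add_distrib, h3, Finset.sum_const, Finset.card_univ,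
    card_TV, nsmul_eq_mul, ← ENNReal.ofReal_natCast, ← ENNReal.ofReal_mul (by positivity),
    ← ENNReal.ofReal_add (by positivity) (by positivity),
    ← ENNReal.ofReal_add (by positivity) (by positivity)]
  refine ENNReal.ofReal_le_ofReal (le_of_eq ?_)
  unfold Dn
  push_cast
  ring

end

end Pool.Agent.T2H19
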