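import Pool.Agent.T2H19.Inf2

/-! Approximation of unit vectors by columns of the resolvents of tori. -/

set_option autoImplicit false

namespace Pool.Agent.T2H19

open MeasureTheory ProbabilityTheory Filter Topology
open scoped BigOperators ComplexConjugate ENNReal

noncomputable section

/-- The column of the resolvent of the torus. -/
def fx (ε β σ : ℝ) (d n : ℕ) (z : ℂ) (x : TV d n) (ω : Ix (Zd d) → ℝ) : Zd d →₀ ℂ :=
  ∑ v : TV d n, Finsupp.single (lf v) (Gr (Mt ε β σ d n ω) z v x)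

theorem fx_lf (ε β σ : ℝ) (d n : ℕ) (z : ℂ) (x : TV d n) (ω : Ix (Zd d) → ℝ) (u : TV d n) :
    fx ε β σ d n z x ω (lf u) = Gr (Mt ε β σ d n ω) z u x := by
  unfold fx
  rw [Finsupp.finsetSum_apply, Finset.sum_eq_single u]
  · simp
  · intro v _ hv
    rw [Finsupp.single_apply, if_neg (fun h => hv (lf_inj h))]
  · simp

theorem fx_far (ε β σ : ℝ) (d n : ℕ) (z : ℂ) (x : TV d n) (ω : Ix (Zd d) → ℝ) {w : Zd d}
    (h : ¬ nm w ≤ n) : fx ε β σ d n z x ω w = 0 := by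
  unfold fx
  rw [Finsupp.finsetSum_apply]
  refine Finset.sum_eq_zero fun v _ => ?_
  rw [Finsupp.single_apply, if_neg]
  rintro rfl
  exact h (nm_lf v)

theorem sum_coord2 {Γ ι : Type} (s : Finset ι) (g : ι → E2 Γ) (x : Γ) :
    (∑ y ∈ s, g y) x = ∑ y ∈ s, g y x := by
  rw [lp.coeFn_sum, Finset.sum_apply]

theorem T0_sum {Γ : Type} [DecidableEq Γ] (H : Γ → Γ → ℂ) (hH : Adm H) {V : Type} [Fintype V]
    (e : V → Γ) (a : V → ℂ) (w : Γ) :
    T0 H hH (∑ v, Finsupp.single (e v) (a v)) w = ∑ v, a v * H w (e v) := by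
  have e1 : T0 H hH (∑ v, Finsupp.single (e v) (a v)) = ∑ v, a v • cl H hH (e v) := by
    rw [map_sum]
    refine Finset.sum_congr rfl fun v _ => ?_
    unfold T0
    rw [Finsupp.linearCombination_single]
  rw [e1, sum_coord2]
  rfl

theorem Tz_fx {ε β σ : ℝ} {d n : ℕ} {z : ℂ} (hz : z.im ≠ 0) (x : TV d n) (ω : Ix (Zd d) → ℝ)
    (hH : Adm (Hi ε β σ d ω)) (w : Zd d) :
    (Tz (Hi ε β σ d ω) hH z (fx ε β σ d n z x ω) - dl (lf x) : E2 (Zd d)) w
      = ∑ v, Qm ε β σ d n ω w v * Gr (Mt ε β σ d n ω) z v x := by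
  have e0 : (Tz (Hi ε β σ d ω) hH z (fx ε β σ d n z x ω) : E2 (Zd d)) w
      = ∑ v, Gr (Mt ε β σ d n ω) z v x * Hi ε β σ d ω w (lf v) - z * fx ε β σ d n z x ω w := by
    have : Tz (Hi ε β σ d ω) hH z (fx ε β σ d n z x ω)
        = T0 _ hH (fx ε β σ d n z x ω) - z • Jf (fx ε β σ d n z x ω) := rfl
    rw [this, lp.coeFn_sub, Pi.sub_apply, lp.coeFn_smul, Pi.smul_apply, Jf_apply]
    congr 1
    exact T0_sum _ hH lf _ w
  rw [lp.coeFn_sub, Pi.sub_apply, e0, dl_apply]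
  have e1 : ∑ v, Gr (Mt ε β σ d n ω) z v x * Hi ε β σ d ω w (lf v)
      = ∑ v, Hi ε β σ d ω w (lf v) * Gr (Mt ε β σ d n ω) z v x :=
    Finset.sum_congr rfl fun v _ => mul_comm _ _
  rw [e1]
  by_cases h : nm w ≤ n
  · obtain ⟨u, hu⟩ : ∃ u : TV d n, u = qt w := ⟨_, rfl⟩
    have hw : w = lf u := by rw [hu, lf_qt w h]
    have h1 := mul_Gr (Mt ε β σ d n ω) (Mt_herm ε β σ d n ω) hz
    have h2 := congrFun (congrFun h1 u) x
    rw [Matrix.sub_mul, Matrix.smul_mul, Matrix.one_mul, Matrix.sub_apply, Matrix.mul_apply,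
      Matrix.smul_apply, smul_eq_mul, Matrix.one_apply] at h2
    have h3 : (if w = lf x then (1 : ℂ) else 0) = if u = x then 1 else 0 := by
      rw [hw]
      by_cases h4 : u = x
      · rw [if_pos h4, if_pos (congrArg lf h4)]
      · rw [if_neg h4, if_neg (fun h5 => h4 (lf_inj h5))]
    rw [h3, ← h2]
    have h4 : fx ε β σ d n z x ω w = Gr (Mt ε β σ d n ω) z u x := by rw [hw, fx_lf]
    rw [h4]
    have h5 : ∀ v, Qm ε β σ d n ω w v = Hi ε β σ d ω w (lf v) - Mt ε β σ d n ω u v := by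
      intro v
      unfold Qm
      rw [if_pos h, ← hu]
    simp only [h5, sub_mul, Finset.sum_sub_distrib]
    ring
  · rw [fx_far ε β σ d n z x ω h, if_neg, mul_zero, sub_zero, sub_zero]
    · refine Finset.sum_congr rfl fun v _ => ?_
      unfold Qm
      rw [if_neg h, sub_zero]
    · rintro rfl
      exact h (nm_lf x)

/-- The error. -/
def Un (ε β σ : ℝ) (d n : ℕ) (z : ℂ) (x : TV d n) (ω : Ix (Zd d) → ℝ) : ℝ≥0∞ :=
  ∑' w : Zd d, ENNReal.ofReal (‖∑ v, Qm ε β σ d n ω w v * Gr (Mt ε β σ d n ω) z v x‖ ^ 2)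

theorem Un_eq {ε β σ : ℝ} {d n : ℕ} {z : ℂ} (hz : z.im ≠ 0) (x : TV d n) (ω : Ix (Zd d) → ℝ)
    (hH : Adm (Hi ε β σ d ω)) :
    ENNReal.ofReal (‖Tz (Hi ε β σ d ω) hH z (fx ε β σ d n z x ω) - dl (lf x)‖ ^ 2)
      = Un ε β σ d n z x ω := by
  rw [norm2, ENNReal.ofReal_tsum_of_nonneg (fun w => by positivity) (sm2 _)]
  unfold Un
  refine tsum_congr fun w => ?_
  rw [Tz_fx hz x ω hH w]

theorem Gm_cont (ε β σ : ℝ) (d n : ℕ) {z : ℂ} (hz : z.im ≠ 0) (v x : TV d n) :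
    Continuous fun ω : Ix (Zd d) → ℝ => Gr (Mt ε β σ d n ω) z v x :=
  (Gg_cont (KT_herm d n) (cS σ (ST ε β d n)) hz v x).comp
    (continuous_pi fun k => continuous_apply (shI lf k))

theorem Qm_cont (ε β σ : ℝ) (d n : ℕ) (w : Zd d) (v : TV d n) :
    Continuous fun ω : Ix (Zd d) → ℝ => Qm ε β σ d n ω w v := by
  have : (fun ω : Ix (Zd d) → ℝ => Qm ε β σ d n ω w v)
      = fun ω => (kQ d n w v : ℂ) + (sQ ε β d n w v : ℂ) * Wg ω w (lf v) :=
    funext fun ω => Qm_eq ε β σ d n ω w v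
  rw [this]
  exact continuous_const.add (continuous_const.mul (Wg_cont _ _))

theorem Un_meas (ε β σ : ℝ) (d n : ℕ) {z : ℂ} (hz : z.im ≠ 0) (x : TV d n) :
    Measurable (Un ε β σ d n z x) := by
  unfold Un
  refine Measurable.tsum fun w => ?_
  refine Measurable.ennreal_ofReal ?_
  refine (Continuous.norm ?_).measurable.pow_const 2
  exact continuous_finsetSum _ fun v _ => (Qm_cont ε β σ d n w v).mul (Gm_cont ε β σ d n hz v x)

theorem sum_Un {ε β : ℝ} (σ : ℝ) {d : ℕ} (hd : 0 < d) (hβ : (d : ℝ) < 2 * β) {n : ℕ} (hn : 1 ≤ n)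
    {z : ℂ} (hz : z.im ≠ 0) :
    ∑ x : TV d n, ∫⁻ ω, Un ε β σ d n z x ω ∂(PP (Ix (Zd d)))
      ≤ ENNReal.ofReal (1 / z.im ^ 2) * ENNReal.ofReal ((2 * n + 1 : ℝ) ^ d * Dn ε β d n) := by
  have h1 : ∀ ω, ∑ x, Un ε β σ d n z x ω ≤ ENNReal.ofReal (1 / z.im ^ 2)
      * ∑' w, ∑ v, ENNReal.ofReal (‖Qm ε β σ d n ω w v‖ ^ 2) := by
    intro ω
    unfold Un
    rw [← Summable.tsum_finsetSum (fun _ _ => ENNReal.summable), ← ENNReal.tsum_mul_left]
    refine ENNReal.tsum_le_tsum fun w => ?_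
    rw [← ENNReal.ofReal_sum_of_nonneg (fun _ _ => by positivity),
      ← ENNReal.ofReal_sum_of_nonneg (fun _ _ => by positivity), ← ENNReal.ofReal_mul (by positivity)]
    refine ENNReal.ofReal_le_ofReal ?_
    have := Gr_row (Mt ε β σ d n ω) (Mt_herm ε β σ d n ω) hz (fun v => Qm ε β σ d n ω w v)
    rw [one_div, inv_mul_eq_div, le_div_iff₀ (by positivity), mul_comm]
    exact this
  have hm : ∀ w v, Measurable fun ω => ENNReal.ofReal (‖Qm ε β σ d n ω w v‖ ^ 2) := fun w v =>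
    ((Qm_cont ε β σ d n w v).norm.measurable.pow_const 2).ennreal_ofReal
  calc ∑ x, ∫⁻ ω, Un ε β σ d n z x ω ∂(PP (Ix (Zd d)))
      = ∫⁻ ω, ∑ x, Un ε β σ d n z x ω ∂(PP (Ix (Zd d))) :=
        (lintegral_finsetSum _ (fun x _ => Un_meas ε β σ d n hz x)).symm
    _ ≤ ∫⁻ ω, ENNReal.ofReal (1 / z.im ^ 2)
        * ∑' w, ∑ v, ENNReal.ofReal (‖Qm ε β σ d n ω w v‖ ^ 2) ∂(PP (Ix (Zd d))) :=
        lintegral_mono h1
    _ = ENNReal.ofReal (1 / z.im ^ 2)
        * ∑' w, ∑ v, ∫⁻ ω, ENNReal.ofReal (‖Qm ε β σ d n ω w v‖ ^ 2) ∂(PP (Ix (Zd d))) := by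
        rw [lintegral_const_mul _ (Measurable.tsum fun w =>
          Finset.measurable_fun_sum _ fun v _ => hm w v),
          lintegral_tsum (fun w => (Finset.measurable_fun_sum _ fun v _ => hm w v).aemeasurable)]
        congr 1
        refine tsum_congr fun w => ?_
        exact lintegral_finsetSum _ (fun v _ => hm w v)
    _ ≤ ENNReal.ofReal (1 / z.im ^ 2)
        * ∑' w, ∑ v, ENNReal.ofReal (2 * kQ d n w v ^ 2 + 4 * sQ ε β d n w v ^ 2) := by
        refine mul_le_mul_right (ENNReal.tsum_le_tsum fun w => Finset.sum_le_sum fun v _ => ?_) _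
        have h2 : ∀ ω, ENNReal.ofReal (‖Qm ε β σ d n ω w v‖ ^ 2)
            = ENNReal.ofReal (‖(kQ d n w v : ℂ) + (sQ ε β d n w v : ℂ) * Wg ω w (lf v)‖ ^ 2) :=
          fun ω => by rw [Qm_eq]
        simp only [h2]
        exact lint_kW w (lf v) (kQ d n w v) (sQ ε β d n w v)
    _ ≤ _ := by
        rw [Summable.tsum_finsetSum (fun _ _ => ENNReal.summable)]
        exact mul_le_mul_right (sum_q hd hβ hn) _

theorem exists_x {ε β : ℝ} (σ : ℝ) {d : ℕ} (hd : 0 < d) (hβ : (d : ℝ) < 2 * β) {n : ℕ} (hn : 1 ≤ n)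
    {z : ℂ} (hz : z.im ≠ 0) :
    ∃ x : TV d n, ∫⁻ ω, Un ε β σ d n z x ω ∂(PP (Ix (Zd d)))
      ≤ ENNReal.ofReal (Dn ε β d n / z.im ^ 2) := by
  have h1 := sum_Un (ε := ε) σ hd hβ hn hz
  have h2 : ENNReal.ofReal (1 / z.im ^ 2) * ENNReal.ofReal ((2 * n + 1 : ℝ) ^ d * Dn ε β d n)
      = ∑ _x : TV d n, ENNReal.ofReal (Dn ε β d n / z.im ^ 2) := by
    rw [Finset.sum_const, Finset.card_univ, card_TV, nsmul_eq_mul, ← ENNReal.ofReal_natCast,
      ← ENNReal.ofReal_mul (by positivity), ← ENNReal.ofReal_mul (by positivity)]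
    congr 1
    push_cast
    ring
  rw [h2] at h1
  obtain ⟨x, -, hx⟩ := ENNReal.exists_le_of_sum_le Finset.univ_nonempty h1
  exact ⟨x, hx⟩

theorem Adm_eq {Γ : Type} {H H' : Γ → Γ → ℂ} (e : Γ ≃ Γ) (h : ∀ x y, H' x y = H (e x) (e y))
    (hH : Adm H) : Adm H' where
  herm := fun x y => by rw [h, h]; exact hH.herm _ _
  sm := fun y => by
    simp only [h]
    exact (e.summable_iff (f := fun x => ‖H x (e y)‖ ^ 2)).2 (hH.sm (e y))

theorem Tz_shift {Γ : Type} [DecidableEq Γ] {H H' : Γ → Γ → ℂ} (e : Γ ≃ Γ)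
    (h : ∀ x y, H' x y = H (e x) (e y)) (hH : Adm H) (hH' : Adm H') (z : ℂ) (f : Γ →₀ ℂ) (c : Γ) :
    ‖Tz H hH z (f.equivMapDomain e) - dl (e c)‖ = ‖Tz H' hH' z f - dl c‖ := by
  have h1 : ∀ x, (Tz H hH z (f.equivMapDomain e) - dl (e c) : E2 Γ) (e x)
      = (Tz H' hH' z f - dl c : E2 Γ) x := by
    intro x
    rw [lp.coeFn_sub, lp.coeFn_sub, Pi.sub_apply, Pi.sub_apply, Tz_apply, Tz_apply, dl_apply,
      dl_apply]
    congr 1
    · congr 1
      · show ∑ y ∈ f.support.map e.toEmbedding, _ = _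
        rw [Finset.sum_map]
        refine Finset.sum_congr rfl fun y _ => ?_
        rw [h x y]
        simp
      · simp
    · by_cases h2 : x = c
      · rw [if_pos h2, if_pos (congrArg e h2)]
      · rw [if_neg h2, if_neg (fun h3 => h2 (e.injective h3))]
  have h2 : ‖Tz H hH z (f.equivMapDomain e) - dl (e c)‖ ^ 2 = ‖Tz H' hH' z f - dl c‖ ^ 2 := by
    rw [norm2, norm2, ← e.tsum_eq]
    exact tsum_congr fun x => by rw [h1 x]
  exact (pow_left_inj₀ (norm_nonneg _) (norm_nonneg _) two_ne_zero).1 h2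

theorem adm_ae {ε β σ : ℝ} {d : ℕ} (hβ : (d : ℝ) < 2 * β) :
    ∀ᵐ ω ∂(PP (Ix (Zd d))), Adm (Hi ε β σ d ω) := by
  have h1 : ∀ y : Zd d, ∀ᵐ ω ∂(PP (Ix (Zd d))), Summable fun x => ‖Hi ε β σ d ω x y‖ ^ 2 := by
    intro y
    obtain ⟨q, hq⟩ : ∃ q : Zd d → (Ix (Zd d) → ℝ) → ℂ, q = fun x ω => ((kk (x - y) : ℝ) : ℂ)
        + ((√(Sf ε β d x y) : ℝ) : ℂ) * Wg ω x y := ⟨_, rfl⟩
    have hqm : ∀ x, Measurable (q x) := by
      intro x
      rw [hq]
      exact (continuous_const.add (continuous_const.mul (Wg_cont _ _))).measurable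
    have hqm2 : ∀ x, Measurable fun ω => ENNReal.ofReal (‖q x ω‖ ^ 2) := fun x =>
      ((hqm x).norm.pow_const 2).ennreal_ofReal
    have hlt : ∫⁻ ω, ∑' x, ENNReal.ofReal (‖q x ω‖ ^ 2) ∂(PP (Ix (Zd d))) < ∞ := by
      rw [lintegral_tsum (fun x => (hqm2 x).aemeasurable)]
      have h2 : ∀ x, ∫⁻ ω, ENNReal.ofReal (‖q x ω‖ ^ 2) ∂(PP (Ix (Zd d)))
          ≤ ENNReal.ofReal (4 * PF ε β (x - y)) := by
        intro x
        rw [hq]
        refine (lint_kW x y (kk (x - y)) (√(Sf ε β d x y))).trans (ENNReal.ofReal_le_ofReal ?_)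
        rw [Real.sq_sqrt (Sf_nonneg ε β d x y)]
        have h3 := kk_sq_le β (x - y)
        have h4 : 0 ≤ ‖x - y‖ ^ (-(2 * β)) := by positivity
        unfold Sf PF
        nlinarith
      refine (ENNReal.tsum_le_tsum h2).trans_lt ?_
      have h3 : Summable fun x : Zd d => 4 * PF ε β (x - y) := by
        have := (PF_summable ε hβ).mul_left 4
        exact ((Equiv.subRight y).summable_iff (f := fun x => 4 * PF ε β x)).2 this
      rw [← ENNReal.ofReal_tsum_of_nonneg (fun x => by have := PF_nonneg ε β (x - y); positivity) h3]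
      exact ENNReal.ofReal_lt_top
    filter_upwards [ae_lt_top (Measurable.tsum hqm2) hlt.ne] with ω hω
    have hs : Summable fun x => ‖q x ω‖ ^ 2 := by
      have h2 := ENNReal.summable_toReal hω.ne
      refine h2.congr fun x => ?_
      rw [ENNReal.toReal_ofReal (by positivity)]
    have hcof : (fun x => ‖Hi ε β σ d ω x y‖ ^ 2) =ᶠ[cofinite] fun x => ‖q x ω‖ ^ 2 := by
      have : {y}ᶜ ∈ (cofinite : Filter (Zd d)) := (Set.finite_singleton y).compl_mem_cofinite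
      filter_upwards [this] with x hx
      have hx' : x ≠ y := hx
      rw [hq]
      unfold Hi He Kf
      rw [if_neg hx', add_zero]
    exact (summable_congr_cofinite hcof).2 hs
  rw [← ae_all_iff] at h1
  filter_upwards [h1] with ω hω
  exact ⟨Hi_herm ε β σ d ω, hω⟩

end

end Pool.Agent.T2H19
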