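import Pool.Agent.T2H19.Inf3

/-! Almost sure essential self-adjointness and bounds for the infinite volume Green function. -/

set_option autoImplicit false

namespace Pool.Agent.T2H19

open MeasureTheory ProbabilityTheory Filter Topology
open scoped BigOperators ComplexConjugate ENNReal

noncomputable section

theorem ST_dat {ε β : ℝ} (hβ : 0 < β) (d n : ℕ) : Dat (TV d n) (KT d n) (ST ε β d n) where
  herm := KT_herm d n
  Kt := KT_t d n
  S0 := fun v w => by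
    unfold ST
    split_ifs with h
    · exact le_rfl
    · have h1 : 1 ≤ nm (lf (v - w)) := by
        rw [Nat.one_le_iff_ne_zero, Ne, nm_eq_zero, lf_eq_zero, sub_eq_zero]
        exact h
      have h2 := nm_lf (v - w)
      exact sub_nonneg.2 (Fr_anti hβ h1 (by omega))
  Ss := ST_symm ε β d n
  St := fun a v w => by
    unfold ST
    rw [add_sub_add_right_eq_sub]
    simp only [add_left_inj]

theorem n_tendsto : Tendsto (fun I : ℕ => 2 ^ (I + 1) - 1) atTop atTop := by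
  refine tendsto_atTop_mono (fun I => ?_) tendsto_id
  have : I + 1 < 2 ^ (I + 1) := Nat.lt_two_pow_self
  simp only [id]
  omega

theorem ap_seq {ε β : ℝ} (σ : ℝ) {d : ℕ} (hd : 0 < d) (hβ : (d : ℝ) < 2 * β) {z : ℂ}
    (hz : z.im ≠ 0) :
    ∃ (I : ℕ → ℕ) (x : ∀ k, TV d (2 ^ (I k + 1) - 1)), (∀ k, k ≤ I k) ∧
      ∀ᵐ ω ∂(PP (Ix (Zd d))), ∀ hH : Adm (Hi ε β σ d ω), ∃ f : ℕ → (Zd d →₀ ℂ),
        (∀ k, f k 0 = Gr (Mt ε β σ d (2 ^ (I k + 1) - 1) (ta (-lf (x k)) ω)) z (x k) (x k)) ∧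
        Tendsto (fun k => ‖Tz (Hi ε β σ d ω) hH z (f k) - dl 0‖) atTop (𝓝 0) := by
  have hz2 : 0 < z.im ^ 2 := by positivity
  have h1 : Tendsto (fun I : ℕ => Dn ε β d (2 ^ (I + 1) - 1) / z.im ^ 2) atTop (𝓝 0) := by
    have := ((Dn_tendsto ε hβ).comp n_tendsto).div_const (z.im ^ 2)
    simpa using this
  have h2 : ∀ k : ℕ, ∃ I, k ≤ I ∧ Dn ε β d (2 ^ (I + 1) - 1) / z.im ^ 2 ≤ (1 / 2 : ℝ) ^ k := by
    intro k
    have h3 := (tendsto_order.1 h1).2 ((1 / 2 : ℝ) ^ k) (by positivity)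
    obtain ⟨I, hI⟩ := (h3.and (eventually_ge_atTop k)).exists
    exact ⟨I, hI.2, hI.1.le⟩
  choose I hI1 hI2 using h2
  have hn : ∀ k, 1 ≤ 2 ^ (I k + 1) - 1 := by
    intro k
    have : I k + 1 < 2 ^ (I k + 1) := Nat.lt_two_pow_self
    omega
  choose x hx using fun k => exists_x (ε := ε) σ hd hβ (hn k) hz
  refine ⟨I, x, hI1, ?_⟩
  have hm : ∀ k, Measurable fun ω => Un ε β σ d (2 ^ (I k + 1) - 1) z (x k) (ta (-lf (x k)) ω) :=
    fun k => (Un_meas ε β σ d _ hz (x k)).comp (ta_mp (-lf (x k))).measurable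
  have hlt : ∫⁻ ω, ∑' k, Un ε β σ d (2 ^ (I k + 1) - 1) z (x k) (ta (-lf (x k)) ω)
      ∂(PP (Ix (Zd d))) < ∞ := by
    rw [lintegral_tsum (fun k => (hm k).aemeasurable)]
    have h3 : ∀ k, ∫⁻ ω, Un ε β σ d (2 ^ (I k + 1) - 1) z (x k) (ta (-lf (x k)) ω)
        ∂(PP (Ix (Zd d))) ≤ ENNReal.ofReal ((1 / 2 : ℝ) ^ k) := by
      intro k
      rw [(ta_mp (-lf (x k))).lintegral_comp (Un_meas ε β σ d _ hz (x k))]
      exact (hx k).trans (ENNReal.ofReal_le_ofReal (hI2 k))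
    refine (ENNReal.tsum_le_tsum h3).trans_lt ?_
    rw [← ENNReal.ofReal_tsum_of_nonneg (fun k => by positivity) summable_geometric_two]
    exact ENNReal.ofReal_lt_top
  filter_upwards [ae_lt_top (Measurable.tsum hm) hlt.ne] with ω hω hH
  have hA : ∀ k, Adm (Hi ε β σ d (ta (-lf (x k)) ω)) := fun k =>
    Adm_eq (Equiv.addRight (-lf (x k))) (fun a b => Hi_ta ε β σ (-lf (x k)) ω a b) hH
  refine ⟨fun k => (fx ε β σ d (2 ^ (I k + 1) - 1) z (x k) (ta (-lf (x k)) ω)).equivMapDomain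
    (Equiv.addRight (-lf (x k))), fun k => ?_, ?_⟩
  · rw [Finsupp.equivMapDomain_apply]
    have : (Equiv.addRight (-lf (x k))).symm 0 = lf (x k) := by simp
    rw [this, fx_lf]
  · have e1 : ∀ k, ‖Tz (Hi ε β σ d ω) hH z
        ((fx ε β σ d (2 ^ (I k + 1) - 1) z (x k) (ta (-lf (x k)) ω)).equivMapDomain
          (Equiv.addRight (-lf (x k)))) - dl 0‖ ^ 2
        = (Un ε β σ d (2 ^ (I k + 1) - 1) z (x k) (ta (-lf (x k)) ω)).toReal := by
      intro k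
      have h3 := Tz_shift (Equiv.addRight (-lf (x k)))
        (fun a b => Hi_ta ε β σ (-lf (x k)) ω a b) hH (hA k) z
        (fx ε β σ d (2 ^ (I k + 1) - 1) z (x k) (ta (-lf (x k)) ω)) (lf (x k))
      have h4 : (Equiv.addRight (-lf (x k))) (lf (x k)) = (0 : Zd d) := by simp
      rw [h4] at h3
      rw [h3, ← Un_eq hz (x k) (ta (-lf (x k)) ω) (hA k), ENNReal.toReal_ofReal (by positivity)]
    have h5 := ENNReal.tendsto_atTop_zero_of_tsum_ne_top hω.ne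
    have h6 := (ENNReal.tendsto_toReal ENNReal.zero_ne_top).comp h5
    simp only [ENNReal.toReal_zero] at h6
    have h7 : Tendsto (fun k => √((Un ε β σ d (2 ^ (I k + 1) - 1) z (x k)
        (ta (-lf (x k)) ω)).toReal)) atTop (𝓝 0) := by
      have := (Real.continuous_sqrt.tendsto 0).comp h6
      rwa [Real.sqrt_zero] at this
    refine h7.congr fun k => ?_
    rw [← e1 k, Real.sqrt_sq (norm_nonneg _)]

theorem ap_zero {ε β : ℝ} (σ : ℝ) {d : ℕ} (hd : 0 < d) (hβ : (d : ℝ) < 2 * β) {z : ℂ}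
    (hz : z.im ≠ 0) :
    ∀ᵐ ω ∂(PP (Ix (Zd d))), ∀ hH : Adm (Hi ε β σ d ω), Ap (Hi ε β σ d ω) hH z 0 := by
  obtain ⟨I, x, -, h⟩ := ap_seq (ε := ε) σ hd hβ hz
  filter_upwards [h] with ω hω hH δ hδ
  obtain ⟨f, -, hf⟩ := hω hH
  obtain ⟨k, hk⟩ := ((tendsto_order.1 hf).2 δ hδ).exists
  exact ⟨f k, hk.le⟩

theorem ap_x {ε β : ℝ} (σ : ℝ) {d : ℕ} (hd : 0 < d) (hβ : (d : ℝ) < 2 * β) {z : ℂ}
    (hz : z.im ≠ 0) :
    ∀ᵐ ω ∂(PP (Ix (Zd d))), ∀ hH : Adm (Hi ε β σ d ω), ∀ x, Ap (Hi ε β σ d ω) hH z x := by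
  have h1 : ∀ x : Zd d, ∀ᵐ ω ∂(PP (Ix (Zd d))), ∀ hH : Adm (Hi ε β σ d ω),
      Ap (Hi ε β σ d ω) hH z x := by
    intro x
    have h2 := (ta_mp x).quasiMeasurePreserving.ae (ap_zero (ε := ε) σ hd hβ hz)
    filter_upwards [h2] with ω hω hH δ hδ
    have hA : Adm (Hi ε β σ d (ta x ω)) :=
      Adm_eq (Equiv.addRight x) (fun a b => Hi_ta ε β σ x ω a b) hH
    obtain ⟨f, hf⟩ := hω hA δ hδ
    refine ⟨f.equivMapDomain (Equiv.addRight x), ?_⟩
    have h3 := Tz_shift (Equiv.addRight x) (fun a b => Hi_ta ε β σ x ω a b) hH hA z f 0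
    have h4 : (Equiv.addRight x) (0 : Zd d) = x := by simp
    rw [h4] at h3
    rw [h3]
    exact hf
  rw [← ae_all_iff] at h1
  filter_upwards [h1] with ω hω hH x
  exact hω x hH

theorem ap_all {ε β : ℝ} (σ : ℝ) {d : ℕ} (hd : 0 < d) (hβ : (d : ℝ) < 2 * β) :
    ∀ᵐ ω ∂(PP (Ix (Zd d))), ∀ hH : Adm (Hi ε β σ d ω), ∀ z : ℂ, z.im ≠ 0 →
      ∀ x, Ap (Hi ε β σ d ω) hH z x := by
  have h1 : ∀ q : ℚ × ℚ, q.2 ≠ 0 → ∀ᵐ ω ∂(PP (Ix (Zd d))), ∀ hH : Adm (Hi ε β σ d ω),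
      ∀ x, Ap (Hi ε β σ d ω) hH ⟨(q.1 : ℝ), (q.2 : ℝ)⟩ x := by
    intro q hq
    exact ap_x σ hd hβ (z := ⟨(q.1 : ℝ), (q.2 : ℝ)⟩) (by simpa using hq)
  have h2 : ∀ q : ℚ × ℚ, ∀ᵐ ω ∂(PP (Ix (Zd d))), q.2 ≠ 0 → ∀ hH : Adm (Hi ε β σ d ω),
      ∀ x, Ap (Hi ε β σ d ω) hH ⟨(q.1 : ℝ), (q.2 : ℝ)⟩ x := by
    intro q
    by_cases hq : q.2 = 0
    · exact Eventually.of_forall fun ω h => absurd hq h
    · filter_upwards [h1 q hq] with ω hω _
      exact hω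
  rw [← ae_all_iff] at h2
  filter_upwards [h2] with ω hω hH z hz
  have hz' : 0 < |z.im| := abs_pos.2 hz
  obtain ⟨a, ha1, ha2⟩ := exists_rat_btwn (show z.re - |z.im| / 4 < z.re + |z.im| / 4 by linarith)
  obtain ⟨b, hb1, hb2⟩ := exists_rat_btwn (show z.im - |z.im| / 4 < z.im + |z.im| / 4 by linarith)
  have h3 : |(b : ℝ) - z.im| < |z.im| / 4 := by rw [abs_lt]; constructor <;> linarith
  have h4 : |(a : ℝ) - z.re| < |z.im| / 4 := by rw [abs_lt]; constructor <;> linarith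
  have h5 : 3 / 4 * |z.im| < |(b : ℝ)| := by
    have := abs_sub_abs_le_abs_sub z.im (b : ℝ)
    rw [abs_sub_comm] at this
    linarith
  have hb0 : b ≠ 0 := by
    rintro rfl
    rw [Rat.cast_zero, abs_zero] at h5
    linarith
  refine Ap_dense (Hi ε β σ d ω) hH (z := z) (z0 := ⟨(a : ℝ), (b : ℝ)⟩) ?_ (hω (a, b) hb0 hH)
  have h6 : ‖z - ⟨(a : ℝ), (b : ℝ)⟩‖ ≤ |z.re - a| + |z.im - b| := by
    have := Complex.norm_le_abs_re_add_abs_im (z - ⟨(a : ℝ), (b : ℝ)⟩)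
    simpa using this
  rw [abs_sub_comm z.re, abs_sub_comm z.im] at h6
  show _ < |(b : ℝ)|
  linarith

/-- Mean excess at an arbitrary point of the torus. -/
theorem pp_lint {ε β : ℝ} (σ : ℝ) (d n : ℕ) {z : ℂ} (hz : z.im ≠ 0) (x : TV d n)
    (hD : Dat (TV d n) (KT d n) (ST ε β d n)) (L : ℝ) :
    ∫⁻ ω, ENNReal.ofReal ((Gr (Mt ε β σ d n ω) z x x).im - L) ∂(PP (Ix (Zd d)))
      = ENNReal.ofReal (pp (KT d n) σ (ST ε β d n) z L) := by
  have hc : Continuous fun g => (Gg (KT d n) (cS σ (ST ε β d n)) z g x x).im - L :=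
    (Complex.continuous_im.comp (Gg_cont (KT_herm d n) _ hz x x)).sub continuous_const
  have h1 : ∫⁻ ω, ENNReal.ofReal ((Gr (Mt ε β σ d n ω) z x x).im - L) ∂(PP (Ix (Zd d)))
      = ∫⁻ g, ENNReal.ofReal ((Gg (KT d n) (cS σ (ST ε β d n)) z g x x).im - L)
        ∂(PP (Ix (TV d n))) :=
    (inj_mp (shI_inj (lf_inj (d := d) (n := n)))).lintegral_comp
      (f := fun g => ENNReal.ofReal ((Gg (KT d n) (cS σ (ST ε β d n)) z g x x).im - L))
      hc.measurable.ennreal_ofReal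
  have h2 : ∀ t : ℝ, ENNReal.ofReal t = ENNReal.ofReal (max t 0) := by
    intro t
    rcases le_total t 0 with h | h
    · rw [max_eq_right h, ENNReal.ofReal_of_nonpos h, ENNReal.ofReal_zero]
    · rw [max_eq_left h]
  have hi : Integrable (fun g => max ((Gg (KT d n) (cS σ (ST ε β d n)) z g x x).im - L) 0)
      (PP (Ix (TV d n))) := by
    refine int_of_bd (C := 1 / |z.im| + |L|) (hc.max continuous_const).aestronglyMeasurable
      fun g => ?_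
    rw [Real.norm_of_nonneg (le_max_right _ _)]
    refine max_le ?_ (by positivity)
    have h3 := (Complex.abs_im_le_norm _).trans
      (Gg_le (KT_herm d n) (cS σ (ST ε β d n)) hz g x x)
    have h4 := le_abs_self (Gg (KT d n) (cS σ (ST ε β d n)) z g x x).im
    have h5 := neg_abs_le L
    linarith
  rw [h1]
  simp only [h2 (_ - L)]
  rw [← ofReal_integral_eq_lintegral_ofReal hi (Eventually.of_forall fun g => le_max_right _ _)]
  congr 1
  have h6 := trans_int (KT d n) (cS σ (ST ε β d n)) z (Equiv.addRight x) (K_inv hD x)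
    (cS_inv hD σ x) (fun M : Matrix (TV d n) (TV d n) ℂ => max ((M 0 0).im - L) 0)
    (((Complex.continuous_im.comp (Gg_cont (KT_herm d n) _ hz 0 0)).sub continuous_const).max
      continuous_const).aestronglyMeasurable
  simpa [pp] using h6

theorem fat {ε β σ : ℝ} {d : ℕ} (hd : 0 < d) (h1 : (d : ℝ) < 2 * β) (h2 : 3 * β < 2 * d)
    (hε : 0 < ε) (hσ : σ ≠ 0) (ζ : ℝ) (hζ : 0 < ζ) :
    ∃ L : ℝ, 0 ≤ L ∧ ∀ z : ℂ, 0 < z.im → ∀ F : (Ix (Zd d) → ℝ) → ℝ,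
      (∀ᵐ ω ∂(PP (Ix (Zd d))), ∀ hH : Adm (Hi ε β σ d ω), ∀ U : E2 (Zd d),
        (∀ f : Zd d →₀ ℂ, |z.im| * ‖Jf f - U‖ ≤ ‖Tz (Hi ε β σ d ω) hH z f - dl 0‖) →
        F ω = (U 0).im) →
      ∫⁻ ω, ENNReal.ofReal (F ω - L) ∂(PP (Ix (Zd d))) ≤ ENNReal.ofReal ζ := by
  have hd' : (0 : ℝ) < d := by exact_mod_cast hd
  have hβ0 : 0 < β := by linarith
  obtain ⟨L, hL0, hL⟩ := fin_bound hd h1 h2 hε hσ ζ hζ
  refine ⟨L, hL0, fun z hz F hF => ?_⟩
  obtain ⟨I0, hI0⟩ := hL z.im hz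
  obtain ⟨I, x, hI, hae⟩ := ap_seq (ε := ε) σ hd h1 hz.ne'
  obtain ⟨G, hG⟩ : ∃ G : ℕ → (Ix (Zd d) → ℝ) → ℝ, G = fun k ω =>
      (Gr (Mt ε β σ d (2 ^ (I k + 1) - 1) (ta (-lf (x k)) ω)) z (x k) (x k)).im := ⟨_, rfl⟩
  have hlim : ∀ᵐ ω ∂(PP (Ix (Zd d))), Tendsto (fun k => G k ω) atTop (𝓝 (F ω)) := by
    filter_upwards [hae, hF, adm_ae (ε := ε) (σ := σ) h1] with ω h3 h4 hH
    obtain ⟨f, hf1, hf2⟩ := h3 hH
    have hAp : Ap (Hi ε β σ d ω) hH z 0 := by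
      intro δ hδ
      obtain ⟨k, hk⟩ := ((tendsto_order.1 hf2).2 δ hδ).exists
      exact ⟨f k, hk.le⟩
    obtain ⟨U, -, hU⟩ := exists_U _ hH hz.ne' 0 hAp
    rw [h4 hH U hU]
    have h5 : Tendsto (fun k => f k 0) atTop (𝓝 (U 0)) := by
      rw [tendsto_iff_norm_sub_tendsto_zero]
      have h6 := hf2.div_const |z.im|
      rw [zero_div] at h6
      refine squeeze_zero (fun _ => norm_nonneg _) (fun k => ?_) h6
      have h7 := coord_le (Jf (f k) - U) 0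
      rw [lp.coeFn_sub, Pi.sub_apply, Jf_apply] at h7
      refine h7.trans ?_
      rw [le_div_iff₀ (abs_pos.2 hz.ne'), mul_comm]
      exact hU (f k)
    have h8 := (Complex.continuous_im.tendsto (U 0)).comp h5
    refine h8.congr fun k => ?_
    rw [hG]
    simp only [Function.comp, hf1 k]
  have hGm : ∀ k, Measurable (G k) := by
    intro k
    rw [hG]
    exact (Complex.continuous_im.comp (Gm_cont ε β σ d _ hz.ne' (x k) (x k))).measurable.comp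
      (ta_mp (-lf (x k))).measurable
  have hval : ∀ k, ∫⁻ ω, ENNReal.ofReal (G k ω - L) ∂(PP (Ix (Zd d)))
      = ENNReal.ofReal (pp (KT d (2 ^ (I k + 1) - 1)) σ (ST ε β d (2 ^ (I k + 1) - 1)) z L) := by
    intro k
    rw [hG]
    simp only
    have hm : Measurable fun ω : Ix (Zd d) → ℝ => ENNReal.ofReal
        ((Gr (Mt ε β σ d (2 ^ (I k + 1) - 1) ω) z (x k) (x k)).im - L) :=
      ((Complex.continuous_im.comp (Gm_cont ε β σ d _ hz.ne' (x k) (x k))).sub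
        continuous_const).measurable.ennreal_ofReal
    rw [(ta_mp (-lf (x k))).lintegral_comp hm]
    exact pp_lint σ d _ hz.ne' (x k) (ST_dat hβ0 d _) L
  calc ∫⁻ ω, ENNReal.ofReal (F ω - L) ∂(PP (Ix (Zd d)))
      = ∫⁻ ω, liminf (fun k => ENNReal.ofReal (G k ω - L)) atTop ∂(PP (Ix (Zd d))) := by
        refine lintegral_congr_ae ?_
        filter_upwards [hlim] with ω hω
        have h3 : Tendsto (fun k => ENNReal.ofReal (G k ω - L)) atTop
            (𝓝 (ENNReal.ofReal (F ω - L))) :=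
          (ENNReal.continuous_ofReal.tendsto _).comp (hω.sub_const L)
        exact h3.liminf_eq.symm
    _ ≤ liminf (fun k => ∫⁻ ω, ENNReal.ofReal (G k ω - L) ∂(PP (Ix (Zd d)))) atTop :=
        lintegral_liminf_le fun k => ((hGm k).sub_const L).ennreal_ofReal
    _ ≤ liminf (fun _ : ℕ => ENNReal.ofReal ζ) atTop := by
        refine liminf_le_liminf ?_
        filter_upwards [eventually_ge_atTop I0] with k hk
        rw [hval k]
        exact ENNReal.ofReal_le_ofReal (hI0 (I k) (hk.trans (hI k)) z rfl)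
    _ = ENNReal.ofReal ζ := liminf_const _

end

end Pool.Agent.T2H19
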