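import Pool.Agent.T2H19.Res2
import Pool.Agent.T2H19.Pi2

/-! The finite random matrix model. -/

set_option autoImplicit false

namespace Pool.Agent.T2H19

open MeasureTheory ProbabilityTheory Filter Topology Matrix
open scoped BigOperators ComplexConjugate

noncomputable section

/-- Indices of the Gaussian variables. -/
abbrev Ix (V : Type) : Type := V ⊕ (V × V × Bool)

/-- Basic Hermitian matrices. -/
def Bm {V : Type} [DecidableEq V] : Ix V → Matrix V V ℂ
  | Sum.inl x => Matrix.single x x 1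
  | Sum.inr (x, y, false) => (1 / 2 : ℂ) • (Matrix.single x y 1 + Matrix.single y x 1)
  | Sum.inr (x, y, true) =>
    (Complex.I / 2) • (Matrix.single x y 1 - Matrix.single y x 1)

variable {V : Type} [Fintype V] [DecidableEq V]

theorem Bm_herm (k : Ix V) : (Bm k).IsHermitian := by
  unfold Matrix.IsHermitian
  rcases k with x | ⟨x, y, b⟩
  · simp [Bm]
  · cases b
    · simp only [Bm]
      rw [Matrix.conjTranspose_smul, Matrix.conjTranspose_add, Matrix.conjTranspose_single,
        Matrix.conjTranspose_single]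
      simp [add_comm]
    · simp only [Bm]
      rw [Matrix.conjTranspose_smul, Matrix.conjTranspose_sub, Matrix.conjTranspose_single,
        Matrix.conjTranspose_single]
      simp only [RCLike.star_def, map_div₀, Complex.conj_I, map_ofNat, map_one]
      rw [← neg_sub, smul_neg, neg_div, neg_smul, neg_neg]

/-- The matrix with coordinates `x`. -/
def Hf (K : Matrix V V ℂ) (x : Ix V → ℝ) : Matrix V V ℂ := K + ∑ k, (x k : ℂ) • Bm k

theorem Hf_herm {K : Matrix V V ℂ} (hK : K.IsHermitian) (x : Ix V → ℝ) : (Hf K x).IsHermitian := by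
  unfold Hf
  refine hK.add ?_
  unfold Matrix.IsHermitian
  rw [Matrix.conjTranspose_sum]
  refine Finset.sum_congr rfl fun k _ => ?_
  rw [Matrix.conjTranspose_smul, (Bm_herm k).eq]
  simp

theorem Hf_cont (K : Matrix V V ℂ) : Continuous fun x : Ix V → ℝ => Hf K x := by
  unfold Hf
  refine continuous_const.add (continuous_finsetSum _ fun k _ => ?_)
  exact (Complex.continuous_ofReal.comp (continuous_apply k)).smul continuous_const

theorem Hf_add (K : Matrix V V ℂ) (x y : Ix V → ℝ) :
    Hf K (fun k => x k + y k) = Hf (Hf K x) y := by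
  unfold Hf
  rw [add_assoc, ← Finset.sum_add_distrib]
  congr 1
  refine Finset.sum_congr rfl fun k _ => ?_
  push_cast
  rw [add_smul]

/-- The resolvent with coefficients `c`. -/
def Gg (K : Matrix V V ℂ) (c : Ix V → ℝ) (z : ℂ) (g : Ix V → ℝ) : Matrix V V ℂ :=
  Gr (Hf K fun k => c k * g k) z

theorem sc_cont (c : Ix V → ℝ) : Continuous fun (g : Ix V → ℝ) k => c k * g k :=
  continuous_pi fun k => continuous_const.mul (continuous_apply k)

theorem Gg_cont {K : Matrix V V ℂ} (hK : K.IsHermitian) (c : Ix V → ℝ) {z : ℂ} (hz : z.im ≠ 0)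
    (a b : V) : Continuous fun g => Gg K c z g a b := by
  unfold Gg
  exact Gr_cont (fun g : Ix V → ℝ => Hf K fun k => c k * g k) (fun _ => z) (fun g => Hf_herm hK _)
    ((Hf_cont K).comp (sc_cont c)) (fun _ => hz) continuous_const a b

theorem Gg_le {K : Matrix V V ℂ} (hK : K.IsHermitian) (c : Ix V → ℝ) {z : ℂ} (hz : z.im ≠ 0)
    (g : Ix V → ℝ) (a b : V) : ‖Gg K c z g a b‖ ≤ 1 / |z.im| :=
  Gr_le _ (Hf_herm hK _) hz a b

/-- `(G B_k G)`. -/
def GB (K : Matrix V V ℂ) (c : Ix V → ℝ) (z : ℂ) (k : Ix V) (g : Ix V → ℝ) : Matrix V V ℂ :=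
  Gg K c z g * Bm k * Gg K c z g

theorem GB_cont {K : Matrix V V ℂ} (hK : K.IsHermitian) (c : Ix V → ℝ) {z : ℂ} (hz : z.im ≠ 0)
    (k : Ix V) (a b : V) : Continuous fun g => GB K c z k g a b := by
  unfold GB
  simp only [Matrix.mul_apply]
  refine continuous_finsetSum _ fun i _ => Continuous.mul ?_ (Gg_cont hK c hz i b)
  exact continuous_finsetSum _ fun j _ => (Gg_cont hK c hz a j).mul continuous_const

theorem Bm_le (k : Ix V) (a b : V) : ‖Bm k a b‖ ≤ 1 := by
  rcases k with x | ⟨x, y, t⟩
  · simp only [Bm, Matrix.single_apply]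
    split_ifs <;> simp
  · cases t
    · simp only [Bm, Matrix.smul_apply, Matrix.add_apply, Matrix.single_apply, smul_eq_mul]
      split_ifs <;> norm_num
    · simp only [Bm, Matrix.smul_apply, Matrix.sub_apply, Matrix.single_apply, smul_eq_mul]
      split_ifs <;> norm_num

theorem GB_le {K : Matrix V V ℂ} (hK : K.IsHermitian) (c : Ix V → ℝ) {z : ℂ} (hz : z.im ≠ 0)
    (k : Ix V) (g : Ix V → ℝ) (a b : V) :
    ‖GB K c z k g a b‖ ≤ Fintype.card V * (Fintype.card V * (1 / |z.im| * (1 / |z.im|))) := by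
  unfold GB
  rw [Matrix.mul_apply]
  refine (norm_sum_le _ _).trans ?_
  have h1 : ∀ i ∈ Finset.univ, ‖(Gg K c z g * Bm k) a i * Gg K c z g i b‖
      ≤ Fintype.card V * (1 / |z.im| * (1 / |z.im|)) := by
    intro i _
    rw [norm_mul, Matrix.mul_apply]
    have h2 : ‖∑ j, Gg K c z g a j * Bm k j i‖ ≤ Fintype.card V * (1 / |z.im|) := by
      refine (norm_sum_le _ _).trans ?_
      refine (Finset.sum_le_card_nsmul _ _ (1 / |z.im|) fun j _ => ?_).trans ?_
      · rw [norm_mul]
        have := Gg_le hK c hz g a j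
        have h3 := Bm_le k j i
        have h4 : 0 ≤ 1 / |z.im| := by positivity
        calc _ ≤ (1 / |z.im|) * 1 := mul_le_mul this h3 (norm_nonneg _) h4
          _ = _ := mul_one _
      · rw [nsmul_eq_mul]; rfl
    rw [← mul_assoc]
    exact mul_le_mul h2 (Gg_le hK c hz g i b) (norm_nonneg _) (by positivity)
  refine (Finset.sum_le_card_nsmul _ _ _ h1).trans ?_
  rw [nsmul_eq_mul]
  rfl

theorem Hf_update (K : Matrix V V ℂ) (c : Ix V → ℝ) (k : Ix V) (g : Ix V → ℝ) (t : ℝ) :
    Hf K (fun j => c j * Function.update g k t j)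
      = Hf K (fun j => c j * Function.update g k 0 j) + (t : ℂ) • ((c k : ℂ) • Bm k) := by
  unfold Hf
  rw [add_assoc]
  congr 1
  rw [← Finset.add_sum_erase _ _ (Finset.mem_univ k), ← Finset.add_sum_erase Finset.univ
    (fun j => ((c j * Function.update g k 0 j : ℝ) : ℂ) • Bm j) (Finset.mem_univ k)]
  simp only [Function.update_self, mul_zero]
  rw [Finset.sum_congr rfl (g := fun j => ((c j * Function.update g k 0 j : ℝ) : ℂ) • Bm j)]
  · rw [smul_smul]
    push_cast
    rw [zero_smul, zero_add, add_comm, mul_comm (c k : ℂ)]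
  · intro j hj
    have := Finset.ne_of_mem_erase hj
    rw [Function.update_of_ne this, Function.update_of_ne this]

theorem Gg_deriv {K : Matrix V V ℂ} (hK : K.IsHermitian) (c : Ix V → ℝ) {z : ℂ} (hz : z.im ≠ 0)
    (k : Ix V) (a b : V) (g : Ix V → ℝ) (t : ℝ) :
    HasDerivAt (fun t => Gg K c z (Function.update g k t) a b)
      (-(c k : ℂ) * GB K c z k (Function.update g k t) a b) t := by
  have hB : ((c k : ℂ) • (Bm k : Matrix V V ℂ)).IsHermitian := by
    unfold Matrix.IsHermitian
    rw [Matrix.conjTranspose_smul, (Bm_herm k).eq]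
    simp
  have h := Gr_deriv (Hf K (fun j => c j * Function.update g k 0 j)) ((c k : ℂ) • Bm k)
    (Hf_herm hK _) hB hz a b t
  have e : ∀ s : ℝ, Gg K c z (Function.update g k s)
      = Gr (Hf K (fun j => c j * Function.update g k 0 j) + (s : ℂ) • ((c k : ℂ) • Bm k)) z := by
    intro s
    unfold Gg
    rw [← Hf_update]
  have e2 : (fun s : ℝ => Gg K c z (Function.update g k s) a b) = fun s : ℝ =>
      Gr (Hf K (fun j => c j * Function.update g k 0 j) + (s : ℂ) • ((c k : ℂ) • Bm k)) z a b := by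
    funext s
    rw [e]
  rw [e2]
  refine h.congr_deriv ?_
  unfold GB
  rw [e, Matrix.mul_smul, Matrix.smul_mul, Matrix.smul_apply, smul_eq_mul]
  ring

end

end Pool.Agent.T2H19
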