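import Pool.Agent.T2H19.Mod

/-! Integration by parts and variance bounds for the matrix model. -/

set_option autoImplicit false

namespace Pool.Agent.T2H19

open MeasureTheory ProbabilityTheory Filter Topology Matrix
open scoped BigOperators ComplexConjugate

noncomputable section

variable {V : Type} [Fintype V] [DecidableEq V]

/-- Coefficients of the model with variance profile `S` and potential strength `σ`. -/
def cS (σ : ℝ) (S : V → V → ℝ) : Ix V → ℝ
  | Sum.inl _ => σ
  | Sum.inr (x, y, _) => √(S x y)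

theorem pair_BMB (x y : V) (M : Matrix V V ℂ) :
    Bm (Sum.inr (x, y, true)) * M * Bm (Sum.inr (x, y, true))
      + Bm (Sum.inr (x, y, false)) * M * Bm (Sum.inr (x, y, false))
      = (1 / 2 : ℂ) • (Matrix.single x x (M y y) + Matrix.single y y (M x x)) := by
  have h1 : Matrix.single x y (1 : ℂ) * M * Matrix.single y x (1 : ℂ)
      = Matrix.single x x (M y y) := by
    rw [Matrix.single_mul_mul_single]; simp
  have h2 : Matrix.single y x (1 : ℂ) * M * Matrix.single x y (1 : ℂ)
      = Matrix.single y y (M x x) := by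
    rw [Matrix.single_mul_mul_single]; simp
  rw [← h1, ← h2]
  simp only [Bm]
  generalize Matrix.single x y (1 : ℂ) = A
  generalize Matrix.single y x (1 : ℂ) = B
  simp only [Matrix.smul_mul, Matrix.mul_smul, smul_smul]
  have e1 : Complex.I / 2 * (Complex.I / 2) = -(1 / 4) := by
    have := Complex.I_mul_I
    linear_combination (1 / 4 : ℂ) * this
  rw [e1]
  have e2 : (A - B) * M * (A - B) = A * M * A - A * M * B - (B * M * A - B * M * B) := by
    noncomm_ring
  have e3 : (A + B) * M * (A + B) = A * M * A + A * M * B + (B * M * A + B * M * B) := by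
    noncomm_ring
  rw [e2, e3]
  module

theorem sum_BMB (S : V → V → ℝ) (h0 : ∀ x y, 0 ≤ S x y) (hs : ∀ x y, S x y = S y x)
    (M : Matrix V V ℂ) :
    ∑ k, (((cS 0 S k) ^ 2 : ℝ) : ℂ) • (Bm k * M * Bm k)
      = Matrix.diagonal (fun a => ∑ y, (S a y : ℂ) * M y y) := by
  rw [Fintype.sum_sum_type]
  have h1 : ∑ x : V, (((cS 0 S (Sum.inl x)) ^ 2 : ℝ) : ℂ) • (Bm (Sum.inl x) * M * Bm (Sum.inl x)) = 0 := by
    refine Finset.sum_eq_zero fun x _ => ?_
    simp [cS]
  rw [h1, zero_add, Fintype.sum_prod_type]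
  have h2 : ∀ x : V, ∑ q : V × Bool, (((cS 0 S (Sum.inr (x, q))) ^ 2 : ℝ) : ℂ) •
      (Bm (Sum.inr (x, q)) * M * Bm (Sum.inr (x, q)))
      = ∑ y : V, ((S x y : ℂ) / 2) • (Matrix.single x x (M y y) + Matrix.single y y (M x x)) := by
    intro x
    rw [Fintype.sum_prod_type]
    refine Finset.sum_congr rfl fun y _ => ?_
    rw [Fintype.sum_bool]
    simp only [cS]
    rw [Real.sq_sqrt (h0 x y), ← smul_add, pair_BMB, smul_smul]
    congr 1
    ring
  simp only [h2]
  ext a b
  simp only [Matrix.sum_apply, Matrix.smul_apply, Matrix.add_apply, Matrix.single_apply,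
    Matrix.diagonal_apply, smul_eq_mul]
  by_cases hab : a = b
  · subst hab
    simp only [and_self, if_true, mul_add, mul_ite, mul_zero, Finset.sum_add_distrib]
    have e1 : ∑ x, ∑ y, (if x = a then (S x y : ℂ) / 2 * M y y else 0)
        = ∑ y, (S a y : ℂ) / 2 * M y y := by
      rw [Finset.sum_comm]
      refine Finset.sum_congr rfl fun y _ => ?_
      simp
    have e2 : ∑ x, ∑ y, (if y = a then (S x y : ℂ) / 2 * M x x else 0)
        = ∑ y, (S a y : ℂ) / 2 * M y y := by
      refine Finset.sum_congr rfl fun y _ => ?_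
      simp [hs y a]
    rw [e1, e2, ← Finset.sum_add_distrib]
    refine Finset.sum_congr rfl fun y _ => ?_
    ring
  · have e1 : ∀ x, ¬ (x = a ∧ x = b) := fun x h => hab (h.1.symm.trans h.2)
    simp [e1, hab]

theorem trace_single (i j : V) (M : Matrix V V ℂ) :
    Matrix.trace (Matrix.single i j (1 : ℂ) * M) = M j i := by
  unfold Matrix.trace
  rw [Finset.sum_eq_single i]
  · simp
  · intro b _ hb
    simp [hb]
  · simp

theorem sum_trace (σ : ℝ) (S : V → V → ℝ) (h0 : ∀ x y, 0 ≤ S x y) (hs : ∀ x y, S x y = S y x)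
    (M : Matrix V V ℂ) :
    ∑ k, (cS σ S k) ^ 2 * ‖Matrix.trace (Bm k * M)‖ ^ 2
      = σ ^ 2 * ∑ a, ‖M a a‖ ^ 2 + ∑ a, ∑ b, S a b * ‖M a b‖ ^ 2 := by
  rw [Fintype.sum_sum_type, Finset.mul_sum]
  congr 1
  · refine Finset.sum_congr rfl fun x _ => ?_
    simp only [cS, Bm, trace_single]
  · rw [Fintype.sum_prod_type]
    have h2 : ∀ x : V, ∑ q : V × Bool, (cS σ S (Sum.inr (x, q))) ^ 2 *
        ‖Matrix.trace (Bm (Sum.inr (x, q)) * M)‖ ^ 2
        = ∑ y : V, S x y / 2 * (‖M x y‖ ^ 2 + ‖M y x‖ ^ 2) := by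
      intro x
      rw [Fintype.sum_prod_type]
      refine Finset.sum_congr rfl fun y _ => ?_
      rw [Fintype.sum_bool]
      simp only [cS, Bm, Matrix.smul_mul, Matrix.trace_smul, Matrix.sub_mul, Matrix.add_mul,
        Matrix.trace_sub, Matrix.trace_add, trace_single]
      rw [Real.sq_sqrt (h0 x y), smul_eq_mul, smul_eq_mul, norm_mul, norm_mul]
      have h3 := parallelogram_law_with_norm ℝ (M y x) (M x y)
      have h4 : ‖Complex.I / 2‖ = 1 / 2 := by simp
      have h5 : ‖(1 / 2 : ℂ)‖ = 1 / 2 := by norm_num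
      rw [h4, h5]
      linear_combination (S x y / 4) * h3
    simp only [h2, mul_add, Finset.sum_add_distrib]
    have e2 : ∑ x, ∑ y, S x y / 2 * ‖M y x‖ ^ 2 = ∑ x, ∑ y, S x y / 2 * ‖M x y‖ ^ 2 := by
      rw [Finset.sum_comm]
      refine Finset.sum_congr rfl fun x _ => Finset.sum_congr rfl fun y _ => ?_
      rw [hs y x]
    rw [e2, ← Finset.sum_add_distrib]
    refine Finset.sum_congr rfl fun x _ => ?_
    rw [← Finset.sum_add_distrib]
    refine Finset.sum_congr rfl fun y _ => ?_
    ring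

theorem BG_cont {K : Matrix V V ℂ} (hK : K.IsHermitian) (c : Ix V → ℝ) {z : ℂ} (hz : z.im ≠ 0)
    (B : Matrix V V ℂ) (a b : V) : Continuous fun g => (B * Gg K c z g) a b := by
  simp only [Matrix.mul_apply]
  exact continuous_finsetSum _ fun i _ => continuous_const.mul (Gg_cont hK c hz i b)

theorem mul_bd (B M : Matrix V V ℂ) (C : ℝ) (hC : ∀ a b, ‖M a b‖ ≤ C) (hB : ∀ a b, ‖B a b‖ ≤ 1)
    (a b : V) : ‖(B * M) a b‖ ≤ Fintype.card V * C := by
  rw [Matrix.mul_apply]
  refine (norm_sum_le _ _).trans ?_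
  refine (Finset.sum_le_card_nsmul _ _ C fun j _ => ?_).trans ?_
  · rw [norm_mul]
    calc _ ≤ 1 * C := mul_le_mul (hB a j) (hC j b) (norm_nonneg _) zero_le_one
      _ = C := one_mul _
  · rw [nsmul_eq_mul]; rfl

/-- Matrix integration by parts, one coordinate. -/
theorem stein_coord {K : Matrix V V ℂ} (hK : K.IsHermitian) (c : Ix V → ℝ) {z : ℂ}
    (hz : z.im ≠ 0) (k : Ix V) (a b : V) :
    ∫ g, (g k : ℂ) * (Bm k * Gg K c z g) a b ∂(PP (Ix V))
      = ∫ g, -(c k : ℂ) * (Bm k * GB K c z k g) a b ∂(PP (Ix V)) := by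
  have hc' : Continuous fun g => (Bm k * GB K c z k g) a b := by
    simp only [Matrix.mul_apply (M := Bm k)]
    exact continuous_finsetSum _ fun i _ => continuous_const.mul (GB_cont hK c hz k i b)
  refine steinP k (fun g => (Bm k * Gg K c z g) a b)
    (fun g => -(c k : ℂ) * (Bm k * GB K c z k g) a b) (BG_cont hK c hz _ a b)
    (continuous_const.mul hc') (Fintype.card V * (1 / |z.im|))
    (|c k| * (Fintype.card V * (Fintype.card V * (Fintype.card V * (1 / |z.im| * (1 / |z.im|))))))
    (fun g => mul_bd _ _ _ (fun a b => Gg_le hK c hz g a b) (fun a b => Bm_le k a b) a b)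
    (fun g => ?_) (fun g t => ?_)
  · rw [norm_mul, norm_neg, Complex.norm_real, Real.norm_eq_abs]
    refine mul_le_mul_of_nonneg_left ?_ (abs_nonneg _)
    exact mul_bd _ _ _ (fun a b => GB_le hK c hz k g a b) (fun a b => Bm_le k a b) a b
  · have h : ∀ j, HasDerivAt (fun t => Bm k a j * Gg K c z (Function.update g k t) j b)
        (Bm k a j * (-(c k : ℂ) * GB K c z k (Function.update g k t) j b)) t :=
      fun j => (Gg_deriv hK c hz k j b g t).const_mul _
    have h2 := HasDerivAt.fun_sum (u := Finset.univ) fun j _ => h j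
    simp only [Matrix.mul_apply (M := Bm k)]
    refine h2.congr_deriv ?_
    rw [Finset.mul_sum]
    exact Finset.sum_congr rfl fun j _ => by ring

/-- Matrix integration by parts. -/
theorem stein_mat {K : Matrix V V ℂ} (hK : K.IsHermitian) (S : V → V → ℝ)
    (h0 : ∀ x y, 0 ≤ S x y) (hs : ∀ x y, S x y = S y x) {z : ℂ}
    (hz : z.im ≠ 0) (a b : V) :
    ∫ g, (Hf 0 (fun k => cS 0 S k * g k) * Gg K (cS 0 S) z g) a b ∂(PP (Ix V))
      = -∫ g, (∑ y, (S a y : ℂ) * Gg K (cS 0 S) z g y y) * Gg K (cS 0 S) z g a b ∂(PP (Ix V)) := by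
  set c := cS 0 S with hc
  have e1 : ∀ g : Ix V → ℝ, (Hf 0 (fun k => c k * g k) * Gg K c z g) a b
      = ∑ k, (c k : ℂ) * ((g k : ℂ) * (Bm k * Gg K c z g) a b) := by
    intro g
    unfold Hf
    rw [zero_add, Finset.sum_mul, Matrix.sum_apply]
    refine Finset.sum_congr rfl fun k _ => ?_
    rw [Matrix.smul_mul, Matrix.smul_apply, smul_eq_mul]
    push_cast
    ring
  have hint : ∀ k, Integrable (fun g : Ix V → ℝ => (g k : ℂ) * (Bm k * Gg K c z g) a b)
      (PP (Ix V)) := by
    intro k
    refine ((int_eval k).mul_const (Fintype.card V * (1 / |z.im|))).mono' ?_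
      (Eventually.of_forall fun g => ?_)
    · exact ((Complex.continuous_ofReal.comp (continuous_apply k)).mul
        (BG_cont hK c hz _ a b)).aestronglyMeasurable
    · rw [norm_mul, Complex.norm_real, Real.norm_eq_abs]
      exact mul_le_mul_of_nonneg_left
        (mul_bd _ _ _ (fun a b => Gg_le hK c hz g a b) (fun a b => Bm_le k a b) a b) (abs_nonneg _)
  have hint2 : ∀ k, Integrable (fun g : Ix V → ℝ => (Bm k * GB K c z k g) a b) (PP (Ix V)) := by
    intro k
    have hc' : Continuous fun g => (Bm k * GB K c z k g) a b := by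
      simp only [Matrix.mul_apply (M := Bm k)]
      exact continuous_finsetSum _ fun i _ => continuous_const.mul (GB_cont hK c hz k i b)
    exact int_of_bd hc'.aestronglyMeasurable fun g =>
      mul_bd _ _ _ (fun a b => GB_le hK c hz k g a b) (fun a b => Bm_le k a b) a b
  simp only [e1]
  rw [integral_finsetSum _ fun k _ => (hint k).const_mul _]
  have e2 : ∀ k, ∫ g, (c k : ℂ) * ((g k : ℂ) * (Bm k * Gg K c z g) a b) ∂(PP (Ix V))
      = -∫ g, ((c k ^ 2 : ℝ) : ℂ) * (Bm k * GB K c z k g) a b ∂(PP (Ix V)) := by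
    intro k
    rw [integral_const_mul, stein_coord hK c hz k a b, integral_const_mul, integral_const_mul]
    push_cast
    ring
  simp only [e2]
  rw [Finset.sum_neg_distrib, ← integral_finsetSum _ fun k _ => (hint2 k).const_mul _]
  congr 1
  refine integral_congr_ae (Eventually.of_forall fun g => ?_)
  show ∑ k, ((c k ^ 2 : ℝ) : ℂ) * (Bm k * GB K c z k g) a b = _
  have h3 := sum_BMB S h0 hs (Gg K c z g)
  have h4 : ∑ k, ((c k ^ 2 : ℝ) : ℂ) * (Bm k * GB K c z k g) a b
      = ((∑ k, ((c k ^ 2 : ℝ) : ℂ) • (Bm k * Gg K c z g * Bm k)) * Gg K c z g) a b := by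
    rw [Finset.sum_mul, Matrix.sum_apply]
    refine Finset.sum_congr rfl fun k _ => ?_
    rw [Matrix.smul_mul, Matrix.smul_apply, smul_eq_mul]
    unfold GB
    rw [mul_assoc, mul_assoc, mul_assoc]
  rw [h4, h3, Matrix.diagonal_mul]

/-- The one step identity. -/
theorem one_id {A : Matrix V V ℂ} (hA : A.IsHermitian) (S : V → V → ℝ)
    (h0 : ∀ x y, 0 ≤ S x y) (hs : ∀ x y, S x y = S y x) {z w : ℂ}
    (hz : z.im ≠ 0) (hw : w.im ≠ 0) (a b : V) :
    ∫ g, Gg A (cS 0 S) z g a b ∂(PP (Ix V)) - Gr A w a b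
      = ∑ j, Gr A w a j * ∫ g, ((∑ y, (S j y : ℂ) * Gg A (cS 0 S) z g y y) - (w - z))
          * Gg A (cS 0 S) z g j b ∂(PP (Ix V)) := by
  set c := cS 0 S with hc
  have hid : ∀ g : Ix V → ℝ, Gg A c z g a b = Gr A w a b
      - ∑ j, Gr A w a j * (Hf 0 (fun k => c k * g k) * Gg A c z g) j b
      + (z - w) * ∑ j, Gr A w a j * Gg A c z g j b := by
    intro g
    have h1 := mul_Gr (Hf A (fun k => c k * g k)) (Hf_herm hA _) hz
    have h2 : Hf A (fun k => c k * g k) = A + Hf 0 (fun k => c k * g k) := by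
      unfold Hf
      rw [zero_add]
    rw [h2] at h1
    have h3 : Gg A c z g = Gr (A + Hf 0 (fun k => c k * g k)) z := by
      unfold Gg
      rw [h2]
    rw [← h3] at h1
    set G := Gg A c z g with hG
    set Y := Hf 0 (fun k => c k * g k) with hY
    have h4 : (A - w • (1 : Matrix V V ℂ)) * G = 1 - Y * G + (z - w) • G := by
      have e : A - w • (1 : Matrix V V ℂ) = (A + Y - z • (1 : Matrix V V ℂ)) - Y
          + (z - w) • (1 : Matrix V V ℂ) := by
        rw [sub_smul]; abel
      rw [e, add_mul, sub_mul, h1, Matrix.smul_mul, one_mul]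
    have h5 : G = Gr A w - Gr A w * (Y * G) + (z - w) • (Gr A w * G) := by
      have h6 : Gr A w * ((A - w • (1 : Matrix V V ℂ)) * G) = G := by
        rw [← mul_assoc, Gr_mul A hA hw, one_mul]
      rw [h4, mul_add, mul_sub, mul_one, Matrix.mul_smul] at h6
      exact h6.symm
    have h7 := congrFun (congrFun h5 a) b
    rw [Matrix.add_apply, Matrix.sub_apply, Matrix.smul_apply, smul_eq_mul,
      Matrix.mul_apply (M := Gr A w) (N := Y * G), Matrix.mul_apply (M := Gr A w) (N := G)] at h7
    exact h7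
  have iG : ∀ a b, Integrable (fun g : Ix V → ℝ => Gg A c z g a b) (PP (Ix V)) := fun a b =>
    int_of_bd (Gg_cont hA c hz a b).aestronglyMeasurable fun g => Gg_le hA c hz g a b
  have iYG : ∀ j, Integrable (fun g : Ix V → ℝ => (Hf 0 (fun k => c k * g k) * Gg A c z g) j b)
      (PP (Ix V)) := by
    intro j
    have e1 : ∀ g : Ix V → ℝ, (Hf 0 (fun k => c k * g k) * Gg A c z g) j b
        = ∑ k, (c k : ℂ) * ((g k : ℂ) * (Bm k * Gg A c z g) j b) := by
      intro g
      unfold Hf
      rw [zero_add, Finset.sum_mul, Matrix.sum_apply]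
      refine Finset.sum_congr rfl fun k _ => ?_
      rw [Matrix.smul_mul, Matrix.smul_apply, smul_eq_mul]
      push_cast
      ring
    simp only [e1]
    refine integrable_finsetSum _ fun k _ => Integrable.const_mul ?_ _
    refine ((int_eval k).mul_const (Fintype.card V * (1 / |z.im|))).mono' ?_
      (Eventually.of_forall fun g => ?_)
    · exact ((Complex.continuous_ofReal.comp (continuous_apply k)).mul
        (BG_cont hA c hz _ j b)).aestronglyMeasurable
    · rw [norm_mul, Complex.norm_real, Real.norm_eq_abs]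
      exact mul_le_mul_of_nonneg_left
        (mul_bd _ _ _ (fun a b => Gg_le hA c hz g a b) (fun a b => Bm_le k a b) j b) (abs_nonneg _)
  have iD : ∀ j, Integrable (fun g : Ix V → ℝ => (∑ y, (S j y : ℂ) * Gg A c z g y y)
      * Gg A c z g j b) (PP (Ix V)) := by
    intro j
    refine int_of_bd (C := (∑ y, |S j y| * (1 / |z.im|)) * (1 / |z.im|)) ?_ fun g => ?_
    · exact ((continuous_finsetSum _ fun y _ => continuous_const.mul (Gg_cont hA c hz y y)).mul
        (Gg_cont hA c hz j b)).aestronglyMeasurable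
    · rw [norm_mul]
      refine mul_le_mul ((norm_sum_le _ _).trans (Finset.sum_le_sum fun y _ => ?_))
        (Gg_le hA c hz g j b) (norm_nonneg _)
        (Finset.sum_nonneg fun y _ => by positivity)
      rw [norm_mul, Complex.norm_real, Real.norm_eq_abs]
      exact mul_le_mul_of_nonneg_left (Gg_le hA c hz g y y) (abs_nonneg _)
  simp only [hid]
  rw [integral_add, integral_sub, integral_const, integral_finsetSum, integral_const_mul,
    integral_finsetSum]
  · have e5 : ∀ j, ∫ g, ((∑ y, (S j y : ℂ) * Gg A c z g y y) - (w - z)) * Gg A c z g j b ∂(PP (Ix V))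
        = ∫ g, (∑ y, (S j y : ℂ) * Gg A c z g y y) * Gg A c z g j b ∂(PP (Ix V))
          - (w - z) * ∫ g, Gg A c z g j b ∂(PP (Ix V)) := by
      intro j
      simp only [sub_mul _ (w - z)]
      rw [integral_sub (iD j) ((iG j b).const_mul _), integral_const_mul]
    simp only [e5, integral_const_mul]
    simp only [hc] at iD iYG ⊢
    have e6 : ∀ j, ∫ g, (Hf 0 (fun k => cS 0 S k * g k) * Gg A (cS 0 S) z g) j b ∂(PP (Ix V))
        = -∫ g, (∑ y, (S j y : ℂ) * Gg A (cS 0 S) z g y y) * Gg A (cS 0 S) z g j b ∂(PP (Ix V)) :=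
      fun j => stein_mat hA S h0 hs hz j b
    simp only [e6]
    rw [probReal_univ, one_smul, Finset.mul_sum]
    simp only [mul_neg, Finset.sum_neg_distrib, mul_sub, Finset.sum_sub_distrib]
    have e7 : ∑ x, (z - w) * (Gr A w a x * ∫ g, Gg A (cS 0 S) z g x b ∂(PP (Ix V)))
        = -∑ x, Gr A w a x * ((w - z) * ∫ g, Gg A (cS 0 S) z g x b ∂(PP (Ix V))) := by
      rw [← Finset.sum_neg_distrib]
      exact Finset.sum_congr rfl fun x _ => by ring
    rw [e7]
    ring
  · exact fun j _ => (iG j b).const_mul _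
  · exact fun j _ => (iYG j).const_mul _
  · exact integrable_const _
  · exact integrable_finsetSum _ fun j _ => (iYG j).const_mul _
  · exact (integrable_const _).sub (integrable_finsetSum _ fun j _ => (iYG j).const_mul _)
  · exact (integrable_finsetSum _ fun j _ => (iG j b).const_mul _).const_mul _

end

end Pool.Agent.T2H19
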