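import Pool.Agent.T2H19.Mod2

/-! Variance bounds, Wegner bounds and decoupling. -/

set_option autoImplicit false

namespace Pool.Agent.T2H19

open MeasureTheory ProbabilityTheory Filter Topology Matrix
open scoped BigOperators ComplexConjugate

noncomputable section

variable {V : Type} [Fintype V] [DecidableEq V]

/-- Weighted row sums. -/
def ur (p : V → ℝ) (G : Matrix V V ℂ) (a : V) : ℝ := ∑ y, p y * ‖G a y‖ ^ 2

/-- Weighted column sums. -/
def uc (p : V → ℝ) (G : Matrix V V ℂ) (b : V) : ℝ := ∑ y, p y * ‖G y b‖ ^ 2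

theorem ur_nonneg {p : V → ℝ} (hp : ∀ y, 0 ≤ p y) (G : Matrix V V ℂ) (a : V) : 0 ≤ ur p G a :=
  Finset.sum_nonneg fun y _ => mul_nonneg (hp y) (by positivity)

theorem uc_nonneg {p : V → ℝ} (hp : ∀ y, 0 ≤ p y) (G : Matrix V V ℂ) (a : V) : 0 ≤ uc p G a :=
  Finset.sum_nonneg fun y _ => mul_nonneg (hp y) (by positivity)

/-- The variance form. -/
def Qf (σ : ℝ) (S : V → V → ℝ) (p : V → ℝ) (G : Matrix V V ℂ) : ℝ :=
  σ ^ 2 * ∑ a, ur p G a * uc p G a + ∑ a, ∑ b, S a b * (ur p G a * uc p G b)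

theorem gpg_le {p : V → ℝ} (hp : ∀ y, 0 ≤ p y) (G : Matrix V V ℂ) (a b : V) :
    ‖(G * Matrix.diagonal (fun y => (p y : ℂ)) * G) a b‖ ^ 2 ≤ ur p G a * uc p G b := by
  rw [Matrix.mul_apply]
  have h1 : ‖∑ j, (G * Matrix.diagonal (fun y => (p y : ℂ))) a j * G j b‖
      ≤ ∑ j, (√(p j) * ‖G a j‖) * (√(p j) * ‖G j b‖) := by
    refine (norm_sum_le _ _).trans (Finset.sum_le_sum fun j _ => ?_)
    rw [Matrix.mul_diagonal, norm_mul, norm_mul, Complex.norm_real, Real.norm_of_nonneg (hp j)]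
    have := Real.mul_self_sqrt (hp j)
    refine le_of_eq ?_
    calc ‖G a j‖ * p j * ‖G j b‖ = ‖G a j‖ * (√(p j) * √(p j)) * ‖G j b‖ := by rw [this]
      _ = _ := by ring
  refine (pow_le_pow_left₀ (norm_nonneg _) h1 2).trans ?_
  refine (Finset.sum_mul_sq_le_sq_mul_sq _ _ _).trans (le_of_eq ?_)
  unfold ur uc
  congr 1
  · refine Finset.sum_congr rfl fun j _ => ?_
    rw [mul_pow, Real.sq_sqrt (hp j)]
  · refine Finset.sum_congr rfl fun j _ => ?_
    rw [mul_pow, Real.sq_sqrt (hp j)]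

theorem tr_GB (K : Matrix V V ℂ) (c : Ix V → ℝ) (z : ℂ) (k : Ix V) (g : Ix V → ℝ) (p : V → ℝ) :
    ∑ y, (p y : ℂ) * GB K c z k g y y
      = Matrix.trace (Bm k * (Gg K c z g * Matrix.diagonal (fun y => (p y : ℂ)) * Gg K c z g)) := by
  have h1 : ∑ y, (p y : ℂ) * GB K c z k g y y
      = Matrix.trace (Matrix.diagonal (fun y => (p y : ℂ)) * GB K c z k g) := by
    unfold Matrix.trace
    refine Finset.sum_congr rfl fun y _ => ?_
    rw [Matrix.diag_apply, Matrix.diagonal_mul]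
  rw [h1]
  unfold GB
  rw [Matrix.trace_mul_comm, mul_assoc, mul_assoc, Matrix.trace_mul_comm, mul_assoc, mul_assoc]

theorem var_gen {K : Matrix V V ℂ} (hK : K.IsHermitian) (σ : ℝ) (S : V → V → ℝ)
    (h0 : ∀ x y, 0 ≤ S x y) (hs : ∀ x y, S x y = S y x) {z : ℂ} (hz : z.im ≠ 0) (p : V → ℝ)
    (hp : ∀ y, 0 ≤ p y) :
    ∫ g, ‖∑ y, (p y : ℂ) * Gg K (cS σ S) z g y y
        - ∫ g', ∑ y, (p y : ℂ) * Gg K (cS σ S) z g' y y ∂(PP (Ix V))‖ ^ 2 ∂(PP (Ix V))
      ≤ ∫ g, Qf σ S p (Gg K (cS σ S) z g) ∂(PP (Ix V)) := by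
  set c := cS σ S with hc
  have hFc : Continuous fun g => ∑ y, (p y : ℂ) * Gg K c z g y y :=
    continuous_finsetSum _ fun y _ => continuous_const.mul (Gg_cont hK c hz y y)
  have hF'c : ∀ k, Continuous fun g => -(c k : ℂ) * ∑ y, (p y : ℂ) * GB K c z k g y y := fun k =>
    continuous_const.mul (continuous_finsetSum _ fun y _ => continuous_const.mul
      (GB_cont hK c hz k y y))
  obtain ⟨C', hC'⟩ : ∃ C' : ℝ, C' = (∑ k, |c k|) * ∑ y, p y * (Fintype.card V *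
      (Fintype.card V * (1 / |z.im| * (1 / |z.im|)))) := ⟨_, rfl⟩
  have h := poinP (fun g => ∑ y, (p y : ℂ) * Gg K c z g y y)
    (fun k g => -(c k : ℂ) * ∑ y, (p y : ℂ) * GB K c z k g y y) hFc hF'c
    (∑ y, p y * (1 / |z.im|)) C'
    (fun g => by
      refine (norm_sum_le _ _).trans (Finset.sum_le_sum fun y _ => ?_)
      rw [norm_mul, Complex.norm_real, Real.norm_of_nonneg (hp y)]
      exact mul_le_mul_of_nonneg_left (Gg_le hK c hz g y y) (hp y))
    (fun k g => by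
      rw [norm_mul, norm_neg, Complex.norm_real, Real.norm_eq_abs, hC']
      refine mul_le_mul (Finset.single_le_sum (f := fun k => |c k|) (fun _ _ => abs_nonneg _)
        (Finset.mem_univ k)) ?_ (norm_nonneg _) (Finset.sum_nonneg fun _ _ => abs_nonneg _)
      refine (norm_sum_le _ _).trans (Finset.sum_le_sum fun y _ => ?_)
      rw [norm_mul, Complex.norm_real, Real.norm_of_nonneg (hp y)]
      exact mul_le_mul_of_nonneg_left (GB_le hK c hz k g y y) (hp y))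
    (fun k g t => by
      have h : ∀ j, HasDerivAt (fun t => (p j : ℂ) * Gg K c z (Function.update g k t) j j)
          ((p j : ℂ) * (-(c k : ℂ) * GB K c z k (Function.update g k t) j j)) t :=
        fun j => (Gg_deriv hK c hz k j j g t).const_mul _
      have h2 := HasDerivAt.fun_sum (u := Finset.univ) fun j _ => h j
      refine h2.congr_deriv ?_
      rw [Finset.mul_sum]
      exact Finset.sum_congr rfl fun j _ => by ring)
  refine h.trans ?_
  have hint : ∀ k, Integrable (fun g => ‖-(c k : ℂ) * ∑ y, (p y : ℂ) * GB K c z k g y y‖ ^ 2)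
      (PP (Ix V)) := by
    intro k
    refine int_of_bd (C := C' ^ 2) ((hF'c k).norm.pow 2).aestronglyMeasurable fun g => ?_
    rw [Real.norm_of_nonneg (by positivity)]
    refine pow_le_pow_left₀ (norm_nonneg _) ?_ 2
    rw [norm_mul, norm_neg, Complex.norm_real, Real.norm_eq_abs, hC']
    refine mul_le_mul (Finset.single_le_sum (f := fun k => |c k|) (fun _ _ => abs_nonneg _)
      (Finset.mem_univ k)) ?_ (norm_nonneg _) (Finset.sum_nonneg fun _ _ => abs_nonneg _)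
    refine (norm_sum_le _ _).trans (Finset.sum_le_sum fun y _ => ?_)
    rw [norm_mul, Complex.norm_real, Real.norm_of_nonneg (hp y)]
    exact mul_le_mul_of_nonneg_left (GB_le hK c hz k g y y) (hp y)
  rw [← integral_finsetSum _ fun k _ => hint k]
  have hpt : ∀ g, ∑ k, ‖-(c k : ℂ) * ∑ y, (p y : ℂ) * GB K c z k g y y‖ ^ 2
      ≤ Qf σ S p (Gg K c z g) := by
    intro g
    have e1 : ∀ k, ‖-(c k : ℂ) * ∑ y, (p y : ℂ) * GB K c z k g y y‖ ^ 2
        = (c k) ^ 2 * ‖Matrix.trace (Bm k *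
          (Gg K c z g * Matrix.diagonal (fun y => (p y : ℂ)) * Gg K c z g))‖ ^ 2 := by
      intro k
      rw [tr_GB, norm_mul, norm_neg, Complex.norm_real, mul_pow, Real.norm_eq_abs, sq_abs]
    simp only [e1]
    rw [hc, sum_trace σ S h0 hs]
    unfold Qf
    refine add_le_add (mul_le_mul_of_nonneg_left (Finset.sum_le_sum fun a _ => gpg_le hp _ a a)
      (sq_nonneg σ)) (Finset.sum_le_sum fun a _ => Finset.sum_le_sum fun b _ => ?_)
    exact mul_le_mul_of_nonneg_left (gpg_le hp _ a b) (h0 a b)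
  have hQc : Continuous fun g => Qf σ S p (Gg K c z g) := by
    unfold Qf ur uc
    have := fun a b => Gg_cont hK c hz a b
    fun_prop
  have hur : ∀ g a, |ur p (Gg K c z g) a| ≤ ∑ y, p y * (1 / |z.im|) ^ 2 := by
    intro g a
    rw [abs_of_nonneg (ur_nonneg hp _ _)]
    exact Finset.sum_le_sum fun y _ => mul_le_mul_of_nonneg_left
      (pow_le_pow_left₀ (norm_nonneg _) (Gg_le hK c hz g a y) 2) (hp y)
  have huc : ∀ g a, |uc p (Gg K c z g) a| ≤ ∑ y, p y * (1 / |z.im|) ^ 2 := by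
    intro g a
    rw [abs_of_nonneg (uc_nonneg hp _ _)]
    exact Finset.sum_le_sum fun y _ => mul_le_mul_of_nonneg_left
      (pow_le_pow_left₀ (norm_nonneg _) (Gg_le hK c hz g y a) 2) (hp y)
  obtain ⟨U, hU⟩ : ∃ U : ℝ, U = ∑ y, p y * (1 / |z.im|) ^ 2 := ⟨_, rfl⟩
  rw [← hU] at hur huc
  have hU0 : 0 ≤ U := by
    rw [hU]
    exact Finset.sum_nonneg fun y _ => mul_nonneg (hp y) (by positivity)
  refine integral_mono (integrable_finsetSum _ fun k _ => hint k) (int_of_bd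
    (C := σ ^ 2 * ∑ _a : V, U * U + ∑ a, ∑ b, S a b * (U * U)) hQc.aestronglyMeasurable
    fun g => ?_) hpt
  unfold Qf
  rw [Real.norm_eq_abs]
  refine (abs_add_le _ _).trans (add_le_add ?_ ?_)
  · rw [abs_mul, abs_of_nonneg (sq_nonneg σ)]
    refine mul_le_mul_of_nonneg_left ((Finset.abs_sum_le_sum_abs _ _).trans
      (Finset.sum_le_sum fun a _ => ?_)) (sq_nonneg σ)
    rw [abs_mul]
    exact mul_le_mul (hur g a) (huc g a) (abs_nonneg _) hU0
  · refine (Finset.abs_sum_le_sum_abs _ _).trans (Finset.sum_le_sum fun a _ => ?_)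
    refine (Finset.abs_sum_le_sum_abs _ _).trans (Finset.sum_le_sum fun b _ => ?_)
    rw [abs_mul, abs_mul, abs_of_nonneg (h0 a b)]
    exact mul_le_mul_of_nonneg_left (mul_le_mul (hur g a) (huc g b) (abs_nonneg _) hU0) (h0 a b)

/-- Variance of a diagonal element. -/
theorem var_one {K : Matrix V V ℂ} (hK : K.IsHermitian) (S : V → V → ℝ)
    (h0 : ∀ x y, 0 ≤ S x y) (hs : ∀ x y, S x y = S y x) (κ : ℝ) (hκ : ∀ x y, S x y ≤ κ) {z : ℂ}
    (hz : 0 < z.im) (x : V) :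
    ∫ g, ‖Gg K (cS 0 S) z g x x - ∫ g', Gg K (cS 0 S) z g' x x ∂(PP (Ix V))‖ ^ 2 ∂(PP (Ix V))
      ≤ κ / z.im ^ 3 * ∫ g, (Gg K (cS 0 S) z g x x).im ∂(PP (Ix V)) := by
  have hκ0 : 0 ≤ κ := (h0 x x).trans (hκ x x)
  have h := var_gen hK 0 S h0 hs hz.ne' (Pi.single x 1) (fun y => by
    by_cases hy : y = x
    · subst hy; simp
    · simp [hy])
  have e1 : ∀ g, ∑ y, (((Pi.single x 1 : V → ℝ) y : ℝ) : ℂ) * Gg K (cS 0 S) z g y y
      = Gg K (cS 0 S) z g x x := by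
    intro g
    rw [Finset.sum_eq_single x]
    · simp
    · intro y _ hy
      simp [hy]
    · simp
  simp only [e1] at h
  refine h.trans ?_
  rw [← integral_const_mul]
  have e2 : ∀ (G : Matrix V V ℂ) a, ur (Pi.single x 1) G a = ‖G a x‖ ^ 2 := by
    intro G a
    unfold ur
    rw [Finset.sum_eq_single x]
    · simp
    · intro y _ hy
      simp [hy]
    · simp
  have e3 : ∀ (G : Matrix V V ℂ) a, uc (Pi.single x 1) G a = ‖G x a‖ ^ 2 := by
    intro G a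
    unfold uc
    rw [Finset.sum_eq_single x]
    · simp
    · intro y _ hy
      simp [hy]
    · simp
  have hpt : ∀ g, Qf 0 S (Pi.single x 1) (Gg K (cS 0 S) z g)
      ≤ κ / z.im ^ 3 * (Gg K (cS 0 S) z g x x).im := by
    intro g
    set G := Gg K (cS 0 S) z g with hG
    have hH := Hf_herm hK (fun k => cS 0 S k * g k)
    have w1 : z.im * ∑ y, ‖G x y‖ ^ 2 = (G x x).im := ward_row _ hH hz.ne' x
    have w2 : z.im * ∑ y, ‖G y x‖ ^ 2 = (G x x).im := ward_col _ hH hz.ne' x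
    have w3 : (G x x).im ≤ 1 / z.im := im_le _ hH hz x
    have w4 : 0 ≤ (G x x).im := im_nonneg _ hH hz x
    unfold Qf
    simp only [e2, e3]
    rw [zero_pow two_ne_zero, zero_mul, zero_add]
    have h1 : ∑ a, ∑ b, S a b * (‖G a x‖ ^ 2 * ‖G x b‖ ^ 2)
        ≤ κ * ((∑ a, ‖G a x‖ ^ 2) * ∑ b, ‖G x b‖ ^ 2) := by
      rw [Finset.sum_mul_sum, Finset.mul_sum]
      refine Finset.sum_le_sum fun a _ => ?_
      rw [Finset.mul_sum]
      exact Finset.sum_le_sum fun b _ => mul_le_mul_of_nonneg_right (hκ a b) (by positivity)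
    refine h1.trans ?_
    have e4 : ∑ a, ‖G a x‖ ^ 2 = (G x x).im / z.im := by rw [← w2]; field_simp
    have e5 : ∑ a, ‖G x a‖ ^ 2 = (G x x).im / z.im := by rw [← w1]; field_simp
    rw [e4, e5]
    have e6 : κ * ((G x x).im / z.im * ((G x x).im / z.im))
        = κ / z.im ^ 2 * (G x x).im * (G x x).im := by field_simp
    have e7 : κ / z.im ^ 3 * (G x x).im = κ / z.im ^ 2 * (G x x).im * (1 / z.im) := by
      field_simp
    rw [e6, e7]
    exact mul_le_mul_of_nonneg_left w3 (by positivity)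
  have hc : Continuous fun g => (Gg K (cS 0 S) z g x x).im :=
    Complex.continuous_im.comp (Gg_cont hK _ hz.ne' x x)
  refine integral_mono_of_nonneg (Eventually.of_forall fun g => ?_) ?_ (Eventually.of_forall hpt)
  · unfold Qf
    simp only [e2, e3]
    refine add_nonneg (mul_nonneg (sq_nonneg _) (Finset.sum_nonneg fun _ _ => by positivity))
      (Finset.sum_nonneg fun a _ => Finset.sum_nonneg fun b _ => mul_nonneg (h0 a b)
        (by positivity))
  · refine Integrable.const_mul (int_of_bd (C := 1 / |z.im|) hc.aestronglyMeasurable fun g => ?_) _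
    exact (Complex.abs_im_le_norm _).trans (Gg_le hK _ hz.ne' g x x)

/-- Variance of an averaged diagonal element. -/
theorem var_D {K : Matrix V V ℂ} (hK : K.IsHermitian) (σ : ℝ) (S : V → V → ℝ)
    (h0 : ∀ x y, 0 ≤ S x y) (hs : ∀ x y, S x y = S y x) (B : ℝ) (hB : ∀ x, ∑ y, S x y ≤ B)
    {z : ℂ} (hz : 0 < z.im) (p : V → ℝ) (hp : ∀ y, 0 ≤ p y) (κ : ℝ) (hκ : ∀ y, p y ≤ κ) :
    ∫ g, ‖∑ y, (p y : ℂ) * Gg K (cS σ S) z g y y
        - ∫ g', ∑ y, (p y : ℂ) * Gg K (cS σ S) z g' y y ∂(PP (Ix V))‖ ^ 2 ∂(PP (Ix V))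
      ≤ (σ ^ 2 + B) * κ / z.im ^ 3 *
        ∑ y, p y * ∫ g, (Gg K (cS σ S) z g y y).im ∂(PP (Ix V)) := by
  rcases isEmpty_or_nonempty V with hV | ⟨⟨x0⟩⟩
  · simp
  have hκ0 : 0 ≤ κ := (hp x0).trans (hκ x0)
  have hB0 : 0 ≤ B := (Finset.sum_nonneg fun y _ => h0 x0 y).trans (hB x0)
  refine (var_gen hK σ S h0 hs hz.ne' p hp).trans ?_
  have hc : ∀ y, Continuous fun g => (Gg K (cS σ S) z g y y).im := fun y =>
    Complex.continuous_im.comp (Gg_cont hK _ hz.ne' y y)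
  have hi : ∀ y, Integrable (fun g => p y * (Gg K (cS σ S) z g y y).im) (PP (Ix V)) := fun y =>
    Integrable.const_mul (int_of_bd (C := 1 / |z.im|) (hc y).aestronglyMeasurable fun g =>
      (Complex.abs_im_le_norm _).trans (Gg_le hK _ hz.ne' g y y)) _
  have e1 : ∑ y, p y * ∫ g, (Gg K (cS σ S) z g y y).im ∂(PP (Ix V))
      = ∫ g, ∑ y, p y * (Gg K (cS σ S) z g y y).im ∂(PP (Ix V)) := by
    rw [integral_finsetSum _ fun y _ => hi y]
    exact Finset.sum_congr rfl fun y _ => (integral_const_mul _ _).symm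
  rw [e1, ← integral_const_mul]
  refine integral_mono_of_nonneg (Eventually.of_forall fun g => ?_)
    ((integrable_finsetSum _ fun y _ => hi y).const_mul _) (Eventually.of_forall fun g => ?_)
  · unfold Qf
    exact add_nonneg (mul_nonneg (sq_nonneg _) (Finset.sum_nonneg fun a _ =>
      mul_nonneg (ur_nonneg hp _ _) (uc_nonneg hp _ _)))
      (Finset.sum_nonneg fun a _ => Finset.sum_nonneg fun b _ => mul_nonneg (h0 a b)
        (mul_nonneg (ur_nonneg hp _ _) (uc_nonneg hp _ _)))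
  · set G := Gg K (cS σ S) z g with hG
    have hH := Hf_herm hK (fun k => cS σ S k * g k)
    have huc : ∀ b, uc p G b ≤ κ / z.im ^ 2 := by
      intro b
      have h1 : z.im ^ 2 * ∑ y, ‖G y b‖ ^ 2 ≤ 1 := Gr_col_le _ hH hz.ne' b
      have h2 : uc p G b ≤ κ * ∑ y, ‖G y b‖ ^ 2 := by
        unfold uc
        rw [Finset.mul_sum]
        exact Finset.sum_le_sum fun y _ => mul_le_mul_of_nonneg_right (hκ y) (by positivity)
      rw [le_div_iff₀ (by positivity)]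
      calc uc p G b * z.im ^ 2 ≤ κ * (∑ y, ‖G y b‖ ^ 2) * z.im ^ 2 :=
            mul_le_mul_of_nonneg_right h2 (by positivity)
        _ = κ * (z.im ^ 2 * ∑ y, ‖G y b‖ ^ 2) := by ring
        _ ≤ κ * 1 := mul_le_mul_of_nonneg_left h1 hκ0
        _ = κ := mul_one _
    have hur : ∑ a, ur p G a = (∑ y, p y * (G y y).im) / z.im := by
      unfold ur
      rw [Finset.sum_comm, Finset.sum_div]
      refine Finset.sum_congr rfl fun y _ => ?_
      have : z.im * ∑ a, ‖G a y‖ ^ 2 = (G y y).im := ward_col _ hH hz.ne' y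
      rw [← Finset.mul_sum, ← this]
      field_simp
    have hk : 0 ≤ κ / z.im ^ 2 := by positivity
    have h3 : σ ^ 2 * ∑ a, ur p G a * uc p G a ≤ σ ^ 2 * (κ / z.im ^ 2 * ∑ a, ur p G a) := by
      refine mul_le_mul_of_nonneg_left ?_ (sq_nonneg _)
      rw [Finset.mul_sum]
      refine Finset.sum_le_sum fun a _ => ?_
      rw [mul_comm]
      exact mul_le_mul_of_nonneg_right (huc a) (ur_nonneg hp _ _)
    have h4 : ∑ a, ∑ b, S a b * (ur p G a * uc p G b) ≤ B * (κ / z.im ^ 2 * ∑ a, ur p G a) := by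
      rw [Finset.mul_sum, Finset.mul_sum]
      refine Finset.sum_le_sum fun a _ => ?_
      calc ∑ b, S a b * (ur p G a * uc p G b)
          ≤ ∑ b, S a b * (ur p G a * (κ / z.im ^ 2)) :=
            Finset.sum_le_sum fun b _ => mul_le_mul_of_nonneg_left
              (mul_le_mul_of_nonneg_left (huc b) (ur_nonneg hp _ _)) (h0 a b)
        _ = (∑ b, S a b) * (κ / z.im ^ 2 * ur p G a) := by
            rw [Finset.sum_mul]
            exact Finset.sum_congr rfl fun b _ => by ring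
        _ ≤ _ := mul_le_mul_of_nonneg_right (hB a) (mul_nonneg hk (ur_nonneg hp _ _))
    unfold Qf
    refine (add_le_add h3 h4).trans (le_of_eq ?_)
    rw [hur, hG]
    field_simp

/-- The potential at `x`. -/
theorem G_pot (K : Matrix V V ℂ) (σ : ℝ) (S : V → V → ℝ) (z : ℂ) (g : Ix V → ℝ) (x : V) (t : ℝ) :
    Gg K (cS σ S) z (Function.update g (Sum.inl x) t)
      = Gr (Hf K (fun j => cS σ S j * Function.update g (Sum.inl x) 0 j)
        + ((σ * t : ℝ) : ℂ) • Matrix.single x x (1 : ℂ)) z := by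
  unfold Gg
  rw [Hf_update, smul_smul]
  congr 3
  simp only [cS]
  push_cast
  ring

theorem G_im {K : Matrix V V ℂ} (hK : K.IsHermitian) (σ : ℝ) (S : V → V → ℝ) {z : ℂ}
    (hz : 0 < z.im) (g : Ix V → ℝ) (x : V) :
    ∃ α I : ℝ, 0 < I ∧ ∀ t : ℝ, (Gg K (cS σ S) z (Function.update g (Sum.inl x) t) x x).im
      = I / ((σ * t + α) ^ 2 + I ^ 2) := by
  obtain ⟨α, I, hI, h⟩ := rank_im (Hf K (fun j => cS σ S j * Function.update g (Sum.inl x) 0 j))
    (Hf_herm hK _) hz x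
  refine ⟨α, I, hI, fun t => ?_⟩
  rw [G_pot, h]

/-- Conditional Wegner bound. -/
theorem wegC {K : Matrix V V ℂ} (hK : K.IsHermitian) {σ : ℝ} (hσ : σ ≠ 0) (S : V → V → ℝ) {z : ℂ}
    (hz : 0 < z.im) (x : V) (Φ : (Ix V → ℝ) → ℝ) (hΦ : Continuous Φ) (A : ℝ)
    (hA : ∀ g, |Φ g| ≤ A) (h0 : ∀ g, 0 ≤ Φ g)
    (hk : ∀ g t, Φ (Function.update g (Sum.inl x) t) = Φ g) :
    ∫ g, Φ g * (Gg K (cS σ S) z g x x).im ∂(PP (Ix V)) ≤ CW σ * ∫ g, Φ g ∂(PP (Ix V)) := by
  refine cond_bd (Sum.inl x) Φ (fun g => (Gg K (cS σ S) z g x x).im) hΦ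
    (Complex.continuous_im.comp (Gg_cont hK _ hz.ne' x x)) A (1 / |z.im|) hA
    (fun g => (Complex.abs_im_le_norm _).trans (Gg_le hK _ hz.ne' g x x)) h0 hk (CW σ) fun g => ?_
  obtain ⟨α, I, hI, h⟩ := G_im hK σ S hz g x
  simp only [h]
  exact wegner1 σ α I hσ hI

theorem weg {K : Matrix V V ℂ} (hK : K.IsHermitian) {σ : ℝ} (hσ : σ ≠ 0) (S : V → V → ℝ) {z : ℂ}
    (hz : 0 < z.im) (x : V) : ∫ g, (Gg K (cS σ S) z g x x).im ∂(PP (Ix V)) ≤ CW σ := by
  have h := wegC hK hσ S hz x (fun _ => 1) continuous_const 1 (by simp) (by simp) (by simp)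
  simpa using h

/-- Decoupling. -/
theorem dec {K : Matrix V V ℂ} (hK : K.IsHermitian) {σ : ℝ} (hσ : σ ≠ 0) (S : V → V → ℝ) {z : ℂ}
    (hz : 0 < z.im) (x : V) (p : V → ℝ) (hp : ∀ y, 0 ≤ p y) (κ : ℝ) (hκ : ∀ y, p y ≤ κ) (q : ℂ) :
    ∫ g, ‖∑ y, (p y : ℂ) * Gg K (cS σ S) z g y y - q‖ ^ 2 * (Gg K (cS σ S) z g x x).im ∂(PP (Ix V))
      ≤ 4 * CW σ * ∫ g, ‖∑ y, (p y : ℂ) * Gg K (cS σ S) z g y y - q‖ ^ 2 ∂(PP (Ix V))
        + 6 * CW σ * (κ / z.im) ^ 2 := by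
  have hκ0 : 0 ≤ κ := (hp x).trans (hκ x)
  obtain ⟨D, hD⟩ : ∃ D : (Ix V → ℝ) → ℂ,
      D = fun g => ∑ y, (p y : ℂ) * Gg K (cS σ S) z g y y - q := ⟨_, rfl⟩
  have hDg : ∀ g, ∑ y, (p y : ℂ) * Gg K (cS σ S) z g y y - q = D g := fun g => by rw [hD]
  simp only [hDg]
  have hDc : Continuous D := by
    rw [hD]
    exact (continuous_finsetSum _ fun y _ => continuous_const.mul (Gg_cont hK _ hz.ne' y y)).sub
      continuous_const
  obtain ⟨C, hC⟩ : ∃ C : ℝ, ∀ g, ‖D g‖ ≤ C := by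
    refine ⟨∑ y, p y * (1 / |z.im|) + ‖q‖, fun g => ?_⟩
    rw [hD]
    refine (norm_sub_le _ _).trans (add_le_add ((norm_sum_le _ _).trans
      (Finset.sum_le_sum fun y _ => ?_)) le_rfl)
    rw [norm_mul, Complex.norm_real, Real.norm_of_nonneg (hp y)]
    exact mul_le_mul_of_nonneg_left (Gg_le hK _ hz.ne' g y y) (hp y)
  obtain ⟨D0, hD0⟩ : ∃ D0 : (Ix V → ℝ) → ℂ,
      D0 = fun g => D (Function.update g (Sum.inl x) 0) := ⟨_, rfl⟩
  have hD0c : Continuous D0 := by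
    rw [hD0]
    exact hDc.comp (continuous_id.update _ continuous_const)
  have hdiff : ∀ g, ‖D g - D0 g‖ ≤ κ / z.im := by
    intro g
    obtain ⟨α, I, hI, h⟩ := G_im hK σ S hz g x
    have e0 : Function.update g (Sum.inl x) (g (Sum.inl x)) = g := Function.update_eq_self _ _
    obtain ⟨t, ht⟩ : ∃ t, t = g (Sum.inl x) := ⟨_, rfl⟩
    rw [← ht] at e0
    obtain ⟨g0, hg0⟩ : ∃ g0, g0 = Function.update g (Sum.inl x) 0 := ⟨_, rfl⟩
    have hG : Gg K (cS σ S) z g = Gr (Hf K (fun j => cS σ S j * g0 j)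
        + ((σ * t : ℝ) : ℂ) • Matrix.single x x (1 : ℂ)) z := by
      rw [hg0, ← G_pot, e0]
    have hG0 : Gg K (cS σ S) z g0 = Gr (Hf K (fun j => cS σ S j * g0 j)) z := rfl
    have i1 := h t
    have i2 := h 0
    rw [e0] at i1
    rw [← hg0, mul_zero, zero_add] at i2
    have hH := Hf_herm hK (fun k => cS σ S k * g k)
    have hH0 := Hf_herm hK (fun k => cS σ S k * g0 k)
    have w1 : z.im * ∑ y, ‖Gg K (cS σ S) z g y x‖ ^ 2 = (Gg K (cS σ S) z g x x).im :=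
      ward_col _ hH hz.ne' x
    have w2 : z.im * ∑ y, ‖Gg K (cS σ S) z g0 x y‖ ^ 2 = (Gg K (cS σ S) z g0 x x).im :=
      ward_row _ hH0 hz.ne' x
    have e1 : D g - D0 g = ∑ y, (p y : ℂ) * (-((σ * t : ℝ) : ℂ) *
        (Gg K (cS σ S) z g y x * Gg K (cS σ S) z g0 x y)) := by
      rw [hD0]
      simp only
      rw [← hg0, hD]
      simp only
      rw [sub_sub_sub_cancel_right, ← Finset.sum_sub_distrib]
      refine Finset.sum_congr rfl fun y _ => ?_
      rw [← mul_sub]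
      congr 1
      have := Gr_rank (Hf K (fun j => cS σ S j * g0 j)) hH0 hz.ne' x y y (σ * t)
      rw [← hG, ← hG0] at this
      exact this
    have e2 : ‖D g - D0 g‖ ≤ κ * (|σ * t| * ∑ y, ‖Gg K (cS σ S) z g y x‖ *
        ‖Gg K (cS σ S) z g0 x y‖) := by
      rw [e1]
      refine (norm_sum_le _ _).trans ?_
      rw [Finset.mul_sum, Finset.mul_sum]
      refine Finset.sum_le_sum fun y _ => ?_
      rw [norm_mul, norm_mul, norm_neg, norm_mul, Complex.norm_real, Complex.norm_real,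
        Real.norm_of_nonneg (hp y), Real.norm_eq_abs]
      exact mul_le_mul_of_nonneg_right (hκ y) (by positivity)
    have e3 : (|σ * t| * ∑ y, ‖Gg K (cS σ S) z g y x‖ * ‖Gg K (cS σ S) z g0 x y‖) ^ 2
        ≤ (1 / z.im) ^ 2 := by
      have h1 := Finset.sum_mul_sq_le_sq_mul_sq Finset.univ (fun y => ‖Gg K (cS σ S) z g y x‖)
        (fun y => ‖Gg K (cS σ S) z g0 x y‖)
      rw [mul_pow, sq_abs]
      refine (mul_le_mul_of_nonneg_left h1 (sq_nonneg _)).trans ?_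
      have e4 : ∑ y, ‖Gg K (cS σ S) z g y x‖ ^ 2 = (Gg K (cS σ S) z g x x).im / z.im := by
        rw [← w1]; field_simp
      have e5 : ∑ y, ‖Gg K (cS σ S) z g0 x y‖ ^ 2 = (Gg K (cS σ S) z g0 x x).im / z.im := by
        rw [← w2]; field_simp
      rw [e4, e5, i1, i2]
      have h2 : 0 < (σ * t + α) ^ 2 + I ^ 2 := by positivity
      have h3 : 0 < α ^ 2 + I ^ 2 := by positivity
      have h4 : (σ * t) ^ 2 * (I / ((σ * t + α) ^ 2 + I ^ 2) * (I / (α ^ 2 + I ^ 2))) ≤ 1 := by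
        rw [div_mul_div_comm, ← mul_div_assoc, div_le_one (by positivity)]
        nlinarith [sq_nonneg (α * (σ * t + α) + I ^ 2)]
      calc (σ * t) ^ 2 * (I / ((σ * t + α) ^ 2 + I ^ 2) / z.im * (I / (α ^ 2 + I ^ 2) / z.im))
          = (σ * t) ^ 2 * (I / ((σ * t + α) ^ 2 + I ^ 2) * (I / (α ^ 2 + I ^ 2)))
            * (1 / z.im) ^ 2 := by ring
        _ ≤ 1 * (1 / z.im) ^ 2 := mul_le_mul_of_nonneg_right h4 (by positivity)
        _ = _ := one_mul _
    have e6 := (pow_le_pow_iff_left₀ (by positivity) (by positivity) two_ne_zero).1 e3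
    refine e2.trans ?_
    calc κ * (|σ * t| * ∑ y, ‖Gg K (cS σ S) z g y x‖ * ‖Gg K (cS σ S) z g0 x y‖)
        ≤ κ * (1 / z.im) := mul_le_mul_of_nonneg_left e6 hκ0
      _ = κ / z.im := by ring
  have hsq : ∀ a b : ℂ, ‖a‖ ^ 2 ≤ 2 * ‖b‖ ^ 2 + 2 * ‖a - b‖ ^ 2 := by
    intro a b
    have h1 : ‖a‖ ≤ ‖b‖ + ‖a - b‖ := by
      have := norm_add_le b (a - b)
      rwa [add_sub_cancel] at this
    nlinarith [norm_nonneg a, norm_nonneg b, norm_nonneg (a - b), sq_nonneg (‖b‖ - ‖a - b‖)]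
  have hC0 : ∀ g, ‖D0 g‖ ≤ C := fun g => by rw [hD0]; exact hC _
  have imc : Continuous fun g => (Gg K (cS σ S) z g x x).im :=
    Complex.continuous_im.comp (Gg_cont hK _ hz.ne' x x)
  have imb : ∀ g, |(Gg K (cS σ S) z g x x).im| ≤ 1 / |z.im| := fun g =>
    (Complex.abs_im_le_norm _).trans (Gg_le hK _ hz.ne' g x x)
  have iim : Integrable (fun g => (Gg K (cS σ S) z g x x).im) (PP (Ix V)) :=
    int_of_bd imc.aestronglyMeasurable imb
  have sqb : ∀ (E : (Ix V → ℝ) → ℂ), (∀ g, ‖E g‖ ≤ C) → ∀ g, |‖E g‖ ^ 2| ≤ C ^ 2 := by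
    intro E hE g
    rw [abs_of_nonneg (by positivity)]
    exact pow_le_pow_left₀ (norm_nonneg _) (hE g) 2
  have iD : Integrable (fun g => ‖D g‖ ^ 2) (PP (Ix V)) :=
    int_of_bd (hDc.norm.pow 2).aestronglyMeasurable (sqb D hC)
  have iD0 : Integrable (fun g => ‖D0 g‖ ^ 2) (PP (Ix V)) :=
    int_of_bd (hD0c.norm.pow 2).aestronglyMeasurable (sqb D0 hC0)
  have iDm : ∀ (E : (Ix V → ℝ) → ℂ), Continuous E → (∀ g, ‖E g‖ ≤ C) →
      Integrable (fun g => ‖E g‖ ^ 2 * (Gg K (cS σ S) z g x x).im) (PP (Ix V)) := by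
    intro E hE hE2
    refine int_of_bd (C := C ^ 2 * (1 / |z.im|)) ((hE.norm.pow 2).mul imc).aestronglyMeasurable
      fun g => ?_
    rw [norm_mul]
    exact mul_le_mul (sqb E hE2 g) (imb g) (norm_nonneg _) (sq_nonneg _)
  have s1 : ∫ g, ‖D g‖ ^ 2 * (Gg K (cS σ S) z g x x).im ∂(PP (Ix V))
      ≤ 2 * ∫ g, ‖D0 g‖ ^ 2 * (Gg K (cS σ S) z g x x).im ∂(PP (Ix V))
        + 2 * (κ / z.im) ^ 2 * ∫ g, (Gg K (cS σ S) z g x x).im ∂(PP (Ix V)) := by
    rw [← integral_const_mul, ← integral_const_mul, ← integral_add ((iDm D0 hD0c hC0).const_mul 2)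
      (iim.const_mul _)]
    refine integral_mono (iDm D hDc hC) (((iDm D0 hD0c hC0).const_mul 2).add (iim.const_mul _))
      fun g => ?_
    have h1 := hsq (D g) (D0 g)
    have h2 := pow_le_pow_left₀ (norm_nonneg _) (hdiff g) 2
    have h3 : 0 ≤ (Gg K (cS σ S) z g x x).im := im_nonneg _ (Hf_herm hK _) hz x
    have h4 : ‖D g‖ ^ 2 ≤ 2 * ‖D0 g‖ ^ 2 + 2 * (κ / z.im) ^ 2 := by linarith
    calc ‖D g‖ ^ 2 * (Gg K (cS σ S) z g x x).im
        ≤ (2 * ‖D0 g‖ ^ 2 + 2 * (κ / z.im) ^ 2) * (Gg K (cS σ S) z g x x).im :=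
          mul_le_mul_of_nonneg_right h4 h3
      _ = _ := by ring
  have s2 : ∫ g, ‖D0 g‖ ^ 2 * (Gg K (cS σ S) z g x x).im ∂(PP (Ix V))
      ≤ CW σ * ∫ g, ‖D0 g‖ ^ 2 ∂(PP (Ix V)) := by
    refine wegC hK hσ S hz x (fun g => ‖D0 g‖ ^ 2) (hD0c.norm.pow 2) (C ^ 2) (sqb D0 hC0)
      (fun g => by positivity) fun g t => ?_
    rw [hD0]
    simp only [Function.update_idem]
  have s3 : ∫ g, ‖D0 g‖ ^ 2 ∂(PP (Ix V)) ≤ 2 * ∫ g, ‖D g‖ ^ 2 ∂(PP (Ix V)) + 2 * (κ / z.im) ^ 2 := by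
    have : ∫ g, (2 * ‖D g‖ ^ 2 + 2 * (κ / z.im) ^ 2) ∂(PP (Ix V))
        = 2 * ∫ g, ‖D g‖ ^ 2 ∂(PP (Ix V)) + 2 * (κ / z.im) ^ 2 := by
      rw [integral_add (iD.const_mul 2) (integrable_const _), integral_const_mul, integral_const]
      simp
    rw [← this]
    refine integral_mono iD0 ((iD.const_mul 2).add (integrable_const _)) fun g => ?_
    have h1 := hsq (D0 g) (D g)
    have h2 := pow_le_pow_left₀ (norm_nonneg _) (hdiff g) 2
    rw [norm_sub_rev] at h2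
    show ‖D0 g‖ ^ 2 ≤ 2 * ‖D g‖ ^ 2 + 2 * (κ / z.im) ^ 2
    linarith
  have s4 := weg hK hσ S hz x
  have hW := CW_nonneg σ
  have h5 := mul_le_mul_of_nonneg_left s3 hW
  have h6 : 2 * (κ / z.im) ^ 2 * ∫ g, (Gg K (cS σ S) z g x x).im ∂(PP (Ix V))
      ≤ 2 * (κ / z.im) ^ 2 * CW σ := mul_le_mul_of_nonneg_left s4 (by positivity)
  nlinarith

end

end Pool.Agent.T2H19
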