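import Pool.Agent.T2H19.Mod3

/-! Translation invariance and the one step comparison. -/

set_option autoImplicit false

namespace Pool.Agent.T2H19

open MeasureTheory ProbabilityTheory Filter Topology Matrix
open scoped BigOperators ComplexConjugate

noncomputable section

variable {V : Type} [Fintype V] [DecidableEq V]

/-- Permutation of the indices. -/
def shI {V W : Type} (e : V → W) : Ix V → Ix W
  | Sum.inl x => Sum.inl (e x)
  | Sum.inr (x, y, b) => Sum.inr (e x, e y, b)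

theorem shI_inj {V W : Type} {e : V → W} (he : Function.Injective e) :
    Function.Injective (shI e) := by
  rintro (x | ⟨x, y, b⟩) (x' | ⟨x', y', b'⟩) h
  · simp only [shI, Sum.inl.injEq] at h
    rw [he h]
  · simp [shI] at h
  · simp [shI] at h
  · simp only [shI, Sum.inr.injEq, Prod.mk.injEq] at h
    rw [he h.1, he h.2.1, h.2.2]

theorem Bm_sub (e : V ≃ V) (k : Ix V) : (Bm (shI e k)).submatrix e e = Bm k := by
  rcases k with x | ⟨x, y, b⟩
  · simp only [shI, Bm]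
    ext i j
    simp [Matrix.single_apply]
  · cases b
    · simp only [shI, Bm]
      ext i j
      simp [Matrix.single_apply, mul_add]
    · simp only [shI, Bm]
      ext i j
      simp [Matrix.single_apply, mul_sub]

/-- Covariance of the model. -/
theorem Gg_sub (K : Matrix V V ℂ) (c : Ix V → ℝ) (z : ℂ) (e : V ≃ V)
    (hK : K.submatrix e e = K) (hc : ∀ k, c (shI e k) = c k) (g : Ix V → ℝ) :
    Gg K c z (fun k => g (shI e k)) = (Gg K c z g).submatrix e e := by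
  unfold Gg
  rw [← Gr_submatrix]
  congr 1
  unfold Hf
  have hbij : Function.Bijective (shI e : Ix V → Ix V) :=
    Finite.injective_iff_bijective.1 (shI_inj e.injective)
  rw [Matrix.submatrix_add]
  show _ = K.submatrix e e + (∑ k, ((c k * g k : ℝ) : ℂ) • Bm k).submatrix e e
  rw [hK]
  congr 1
  ext i j
  simp only [Matrix.submatrix_apply, Matrix.sum_apply, Matrix.smul_apply]
  rw [← Equiv.sum_comp (Equiv.ofBijective _ hbij)
    (fun k' => ((c k' * g k' : ℝ) : ℂ) • (Bm k' : Matrix V V ℂ) (e i) (e j))]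
  refine Finset.sum_congr rfl fun k _ => ?_
  simp only [Equiv.ofBijective_apply]
  rw [hc]
  congr 1
  conv_lhs => rw [← Bm_sub e k]
  rfl

theorem trans_int {E : Type*} [NormedAddCommGroup E] [NormedSpace ℝ E]
    (K : Matrix V V ℂ) (c : Ix V → ℝ) (z : ℂ) (e : V ≃ V)
    (hK : K.submatrix e e = K) (hc : ∀ k, c (shI e k) = c k) (Φ : Matrix V V ℂ → E) 
    (hΦ : AEStronglyMeasurable (fun g => Φ (Gg K c z g)) (PP (Ix V))) :
    ∫ g, Φ ((Gg K c z g).submatrix e e) ∂(PP (Ix V)) = ∫ g, Φ (Gg K c z g) ∂(PP (Ix V)) := by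
  have hmp := inj_mp (shI_inj e.injective)
  have h1 := integral_map (μ := PP (Ix V)) (φ := fun (ω : Ix V → ℝ) i => ω (shI e i))
    hmp.aemeasurable (f := fun g => Φ (Gg K c z g)) (by rw [hmp.map_eq]; exact hΦ)
  rw [hmp.map_eq] at h1
  rw [h1]
  refine integral_congr_ae (Eventually.of_forall fun g => ?_)
  simp only [Gg_sub K c z e hK hc g]

section group

variable [AddCommGroup V]

/-- Data of the translation invariant model. -/
structure Dat (V : Type) [Fintype V] [DecidableEq V] [AddCommGroup V] (K : Matrix V V ℂ)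
    (S : V → V → ℝ) : Prop where
  herm : K.IsHermitian
  Kt : ∀ a x y, K (x + a) (y + a) = K x y
  S0 : ∀ x y, 0 ≤ S x y
  Ss : ∀ x y, S x y = S y x
  St : ∀ a x y, S (x + a) (y + a) = S x y

theorem cS_inv {K : Matrix V V ℂ} {S : V → V → ℝ} (h : Dat V K S) (σ : ℝ) (a : V) (k : Ix V) :
    cS σ S (shI (Equiv.addRight a) k) = cS σ S k := by
  rcases k with x | ⟨x, y, b⟩
  · rfl
  · simp only [shI, cS, Equiv.coe_addRight, h.St]

theorem K_inv {K : Matrix V V ℂ} {S : V → V → ℝ} (h : Dat V K S) (a : V) :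
    K.submatrix (Equiv.addRight a) (Equiv.addRight a) = K := by
  ext x y
  simp [h.Kt]

theorem diag_const {K : Matrix V V ℂ} {S : V → V → ℝ} (h : Dat V K S) (σ : ℝ) {z : ℂ}
    (hz : z.im ≠ 0) (x : V) :
    ∫ g, Gg K (cS σ S) z g x x ∂(PP (Ix V)) = ∫ g, Gg K (cS σ S) z g 0 0 ∂(PP (Ix V)) := by
  have := trans_int K (cS σ S) z (Equiv.addRight x) (K_inv h x) (cS_inv h σ x)
    (fun M => M 0 0) (Gg_cont h.herm _ hz 0 0).aestronglyMeasurable
  simpa using this

/-- The diagonal fluctuation term. -/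
def DD (S : V → V → ℝ) (q : ℂ) (j : V) (G : Matrix V V ℂ) : ℂ := ∑ y, (S j y : ℂ) * G y y - q

theorem DD_cont {K : Matrix V V ℂ} (hK : K.IsHermitian) (c : Ix V → ℝ) {z : ℂ} (hz : z.im ≠ 0)
    (S : V → V → ℝ) (q : ℂ) (j : V) : Continuous fun g => DD S q j (Gg K c z g) := by
  unfold DD
  exact (continuous_finsetSum _ fun y _ => continuous_const.mul (Gg_cont hK c hz y y)).sub
    continuous_const

theorem DD_bd {K : Matrix V V ℂ} (hK : K.IsHermitian) (c : Ix V → ℝ) {z : ℂ} (hz : z.im ≠ 0)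
    (S : V → V → ℝ) (q : ℂ) : ∃ C : ℝ, 0 ≤ C ∧ ∀ j g, ‖DD S q j (Gg K c z g)‖ ≤ C := by
  refine ⟨∑ j, (∑ y, |S j y| * (1 / |z.im|) + ‖q‖), Finset.sum_nonneg fun j _ =>
    add_nonneg (Finset.sum_nonneg fun y _ => by positivity) (norm_nonneg _), fun j g => ?_⟩
  have h1 : ‖DD S q j (Gg K c z g)‖ ≤ ∑ y, |S j y| * (1 / |z.im|) + ‖q‖ := by
    unfold DD
    refine (norm_sub_le _ _).trans (add_le_add ((norm_sum_le _ _).trans
      (Finset.sum_le_sum fun y _ => ?_)) le_rfl)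
    rw [norm_mul, Complex.norm_real, Real.norm_eq_abs]
    exact mul_le_mul_of_nonneg_left (Gg_le hK _ hz g y y) (abs_nonneg _)
  refine h1.trans (Finset.single_le_sum (f := fun j => ∑ y, |S j y| * (1 / |z.im|) + ‖q‖)
    (fun j _ => add_nonneg (Finset.sum_nonneg fun y _ => by positivity) (norm_nonneg _))
    (Finset.mem_univ j))

/-- Mass transport. -/
theorem mass {K : Matrix V V ℂ} {T S : V → V → ℝ} (h : Dat V K T) (hS : Dat V K S) (σ : ℝ) {z : ℂ}
    (hz : 0 < z.im) (q : ℂ) :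
    ∑ j, ∫ g, ‖DD S q j (Gg K (cS σ T) z g)‖ ^ 2 * ‖Gg K (cS σ T) z g j 0‖ ^ 2 ∂(PP (Ix V))
      = (∫ g, ‖DD S q 0 (Gg K (cS σ T) z g)‖ ^ 2 * (Gg K (cS σ T) z g 0 0).im ∂(PP (Ix V)))
        / z.im := by
  set c := cS σ T with hc
  have cont : ∀ i a b : V, Continuous fun g => ‖DD S q i (Gg K c z g)‖ ^ 2 * ‖Gg K c z g a b‖ ^ 2 :=
    fun i a b => ((DD_cont h.herm c hz.ne' S q i).norm.pow 2).mul
      ((Gg_cont h.herm c hz.ne' a b).norm.pow 2)
  have e1 : ∀ j, ∫ g, ‖DD S q j (Gg K c z g)‖ ^ 2 * ‖Gg K c z g j 0‖ ^ 2 ∂(PP (Ix V))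
      = ∫ g, ‖DD S q 0 (Gg K c z g)‖ ^ 2 * ‖Gg K c z g 0 (-j)‖ ^ 2 ∂(PP (Ix V)) := by
    intro j
    have h1 := trans_int K c z (Equiv.addRight j) (K_inv h j) (cS_inv h σ j)
      (fun M => ‖DD S q 0 M‖ ^ 2 * ‖M 0 (-j)‖ ^ 2) (cont 0 0 (-j)).aestronglyMeasurable
    rw [← h1]
    refine integral_congr_ae (Eventually.of_forall fun g => ?_)
    have e2 : DD S q 0 ((Gg K c z g).submatrix (Equiv.addRight j) (Equiv.addRight j))
        = DD S q j (Gg K c z g) := by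
      unfold DD
      congr 1
      rw [← Equiv.sum_comp (Equiv.addRight j) fun y => (S j y : ℂ) * Gg K c z g y y]
      refine Finset.sum_congr rfl fun y _ => ?_
      have := hS.St j 0 y
      rw [zero_add] at this
      simp [this]
    simp only [e2]
    simp
  simp only [e1]
  obtain ⟨C, hC0, hC⟩ := DD_bd h.herm c hz.ne' S q
  have iD : ∀ j, Integrable (fun g => ‖DD S q 0 (Gg K c z g)‖ ^ 2 * ‖Gg K c z g 0 (-j)‖ ^ 2)
      (PP (Ix V)) := by
    intro j
    refine int_of_bd (C := C ^ 2 * (1 / |z.im|) ^ 2) (cont 0 0 (-j)).aestronglyMeasurable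
      fun g => ?_
    rw [Real.norm_of_nonneg (by positivity)]
    exact mul_le_mul (pow_le_pow_left₀ (norm_nonneg _) (hC 0 g) 2)
      (pow_le_pow_left₀ (norm_nonneg _) (Gg_le h.herm c hz.ne' g _ _) 2) (by positivity)
      (by positivity)
  rw [← integral_finsetSum _ fun j _ => iD j, ← integral_div]
  refine integral_congr_ae (Eventually.of_forall fun g => ?_)
  simp only
  rw [← Finset.mul_sum, mul_div_assoc]
  congr 1
  have w1 := ward_row _ (Hf_herm h.herm (fun k => c k * g k)) hz.ne' 0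
  have e3 : ∑ i, ‖Gg K c z g 0 (-i)‖ ^ 2 = ∑ i, ‖Gg K c z g 0 i‖ ^ 2 :=
    Equiv.sum_comp (Equiv.neg V) fun j => ‖Gg K c z g 0 j‖ ^ 2
  rw [e3, eq_div_iff hz.ne', mul_comm]
  exact w1

/-- Second moment of the fluctuation. -/
theorem DD_var {K : Matrix V V ℂ} {T S : V → V → ℝ} (h : Dat V K T) (hS : Dat V K S) {σ : ℝ}
    (hσ : σ ≠ 0) {z : ℂ} (hz : 0 < z.im) (B : ℝ) (hB : ∀ x, ∑ y, T x y ≤ B) (κ v : ℝ)
    (hκ : ∀ x y, S x y ≤ κ) (hv : ∑ y, S 0 y = v) :
    ∫ g, ‖DD S (v * ∫ g', Gg K (cS σ T) z g' 0 0 ∂(PP (Ix V))) 0 (Gg K (cS σ T) z g)‖ ^ 2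
        ∂(PP (Ix V)) ≤ (σ ^ 2 + B) * κ * v * CW σ / z.im ^ 3 := by
  have h1 := var_D h.herm σ T h.S0 h.Ss B hB hz (fun y => S 0 y) (fun y => hS.S0 0 y) κ
    (fun y => hκ 0 y)
  have hi : ∀ y, Integrable (fun g => (S 0 y : ℂ) * Gg K (cS σ T) z g y y) (PP (Ix V)) := fun y =>
    (int_of_bd (Gg_cont h.herm _ hz.ne' y y).aestronglyMeasurable fun g =>
      Gg_le h.herm _ hz.ne' g y y).const_mul _
  have e1 : ∫ g', ∑ y, (S 0 y : ℂ) * Gg K (cS σ T) z g' y y ∂(PP (Ix V))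
      = v * ∫ g', Gg K (cS σ T) z g' 0 0 ∂(PP (Ix V)) := by
    rw [integral_finsetSum _ fun y _ => hi y]
    simp only [integral_const_mul, diag_const h σ hz.ne']
    rw [← Finset.sum_mul, ← hv]
    push_cast
    rfl
  rw [e1] at h1
  refine h1.trans ?_
  have hκ0 : 0 ≤ κ := (hS.S0 0 0).trans (hκ 0 0)
  have hB0 : 0 ≤ B := (Finset.sum_nonneg fun y _ => h.S0 0 y).trans (hB 0)
  have h2 : ∑ y, S 0 y * ∫ g, (Gg K (cS σ T) z g y y).im ∂(PP (Ix V)) ≤ v * CW σ := by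
    rw [← hv, Finset.sum_mul]
    exact Finset.sum_le_sum fun y _ => mul_le_mul_of_nonneg_left (weg h.herm hσ T hz y) (hS.S0 0 y)
  calc (σ ^ 2 + B) * κ / z.im ^ 3 * ∑ y, S 0 y * ∫ g, (Gg K (cS σ T) z g y y).im ∂(PP (Ix V))
      ≤ (σ ^ 2 + B) * κ / z.im ^ 3 * (v * CW σ) := mul_le_mul_of_nonneg_left h2 (by positivity)
    _ = _ := by ring

end group

end

end Pool.Agent.T2H19
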