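import Pool.Agent.T2H19.Mod4

/-! The one step comparison. -/

set_option autoImplicit false

namespace Pool.Agent.T2H19

open MeasureTheory ProbabilityTheory Filter Topology Matrix
open scoped BigOperators ComplexConjugate

noncomputable section

theorem amgm (I α β : ℝ) (hα : 0 ≤ α) (hβ : 0 ≤ β)
    (h : ∀ l : ℝ, 0 < l → 2 * I ≤ l * α + β / l) : I ≤ √(α * β) := by
  rcases le_or_gt I 0 with hI | hI
  · exact hI.trans (Real.sqrt_nonneg _)
  · apply Real.le_sqrt_of_sq_le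
    rcases eq_or_lt_of_le hα with h0 | h0
    · exfalso
      have h1 := h (β / I + 1) (by positivity)
      rw [← h0, mul_zero, zero_add] at h1
      have h2 : β / (β / I + 1) < 2 * I := by
        rw [div_lt_iff₀ (by positivity)]
        have : 2 * I * (β / I + 1) = 2 * β + 2 * I := by field_simp
        rw [this]
        linarith
      linarith
    · have h1 := h (I / α) (by positivity)
      have h2 : I / α * α = I := by field_simp
      have h3 : β / (I / α) = α * β / I := by field_simp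
      rw [h2, h3] at h1
      have h4 : I ≤ α * β / I := by linarith
      rw [le_div_iff₀ hI] at h4
      nlinarith

theorem l1_le_l2 {Ω : Type*} [MeasurableSpace Ω] (P : Measure Ω) [IsProbabilityMeasure P]
    (f : Ω → ℝ) (hf : AEStronglyMeasurable f P) (C : ℝ) (hb : ∀ w, |f w| ≤ C) (A : ℝ)
    (hA : ∫ w, f w ^ 2 ∂P ≤ A) : ∫ w, f w ∂P ≤ √A := by
  have h := norm_int_sq P (fun w => (f w : ℂ)) (Complex.continuous_ofReal.comp_aestronglyMeasurable hf) C
    (fun w => by rw [Complex.norm_real]; exact hb w)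
  simp only [Complex.norm_real, Real.norm_eq_abs, sq_abs] at h
  rw [integral_complex_ofReal, Complex.norm_real, Real.norm_eq_abs, sq_abs] at h
  exact Real.le_sqrt_of_sq_le (h.trans hA)

variable {V : Type} [Fintype V] [DecidableEq V]

/-- The slow part of the matrix. -/
def Ag (K : Matrix V V ℂ) (c : Ix V → ℝ) (g : Ix V → ℝ) : Matrix V V ℂ := Hf K fun k => c k * g k

theorem Gg_split (K : Matrix V V ℂ) (c c' : Ix V → ℝ) (z : ℂ) (g g' : Ix V → ℝ) :
    Gg (Ag K c g) c' z g' = Gr (Hf K fun k => c k * g k + c' k * g' k) z := by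
  unfold Gg Ag
  rw [Hf_add]

theorem split_cont {K : Matrix V V ℂ} (hK : K.IsHermitian) (c c' : Ix V → ℝ) {z : ℂ}
    (hz : z.im ≠ 0) (a b : V) :
    Continuous fun p : (Ix V → ℝ) × (Ix V → ℝ) => Gg (Ag K c p.1) c' z p.2 a b := by
  simp only [Gg_split]
  exact Gr_cont (fun p : (Ix V → ℝ) × (Ix V → ℝ) => Hf K fun k => c k * p.1 k + c' k * p.2 k)
    (fun _ => z) (fun p => Hf_herm hK _) ((Hf_cont K).comp (continuous_pi fun k =>
      (continuous_const.mul ((continuous_apply k).comp continuous_fst)).add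
        (continuous_const.mul ((continuous_apply k).comp continuous_snd)))) (fun _ => hz)
    continuous_const a b

theorem merged {K : Matrix V V ℂ} (hK : K.IsHermitian) (σ : ℝ) (S s : V → V → ℝ)
    (hS : ∀ x y, 0 ≤ S x y) (hs : ∀ x y, 0 ≤ s x y) {z : ℂ} (hz : z.im ≠ 0)
    {E : Type*} [NormedAddCommGroup E] [NormedSpace ℝ E] (Φ : Matrix V V ℂ → E)
    (hΦ : Continuous Φ) :
    ∫ p : (Ix V → ℝ) × (Ix V → ℝ), Φ (Gg (Ag K (cS σ S) p.1) (cS 0 s) z p.2)
        ∂((PP (Ix V)).prod (PP (Ix V)))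
      = ∫ g, Φ (Gg K (cS σ fun x y => S x y + s x y) z g) ∂(PP (Ix V)) := by
  have hc : Continuous fun x : Ix V → ℝ => Φ (Gr (Hf K x) z) := by
    refine hΦ.comp (continuous_matrix fun i j => ?_)
    exact Gr_cont (fun x : Ix V → ℝ => Hf K x) (fun _ => z) (fun x => Hf_herm hK _) (Hf_cont K)
      (fun _ => hz) continuous_const i j
  have h := merge (cS σ S) (cS 0 s) (cS σ fun x y => S x y + s x y) (by
    rintro (x | ⟨x, y, b⟩)
    · simp [cS]
    · simp only [cS]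
      rw [Real.sq_sqrt (add_nonneg (hS x y) (hs x y)), Real.sq_sqrt (hS x y),
        Real.sq_sqrt (hs x y)]) (fun x : Ix V → ℝ => Φ (Gr (Hf K x) z)) hc
  simp only [Gg_split]
  exact h

section group

variable [AddCommGroup V]

/-- Error of one step. -/
def Err (σ B κ v η ηw : ℝ) : ℝ :=
  √(κ * CW σ / η ^ 3) + √(CW σ / ηw * ((4 * CW σ * ((σ ^ 2 + B) * κ * v * CW σ / η ^ 3)
    + 6 * CW σ * (κ / η) ^ 2) / η))

theorem one_step {K : Matrix V V ℂ} {S s : V → V → ℝ} (hS : Dat V K S) (hs : Dat V K s) {σ : ℝ}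
    (hσ : σ ≠ 0) {z w : ℂ} (hz : 0 < z.im) (hw : 0 < w.im) (B : ℝ)
    (hB : ∀ x, ∑ y, (S x y + s x y) ≤ B) (κ v : ℝ) (hκ : ∀ x y, s x y ≤ κ) (hv : ∑ y, s 0 y = v)
    (hwz : w = z + v * ∫ g, Gg K (cS σ fun x y => S x y + s x y) z g 0 0 ∂(PP (Ix V))) :
    ‖∫ g, Gg K (cS σ fun x y => S x y + s x y) z g 0 0 ∂(PP (Ix V))
        - ∫ g, Gg K (cS σ S) w g 0 0 ∂(PP (Ix V))‖ ≤ Err σ B κ v z.im w.im ∧
    ∀ L : ℝ, ∫ g, max ((Gg K (cS σ fun x y => S x y + s x y) z g 0 0).im - L) 0 ∂(PP (Ix V))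
      ≤ ∫ g, max ((Gg K (cS σ S) w g 0 0).im - L) 0 ∂(PP (Ix V)) + Err σ B κ v z.im w.im := by
  set T : V → V → ℝ := fun x y => S x y + s x y with hTd
  have hT : Dat V K T := ⟨hS.herm, hS.Kt, fun x y => add_nonneg (hS.S0 x y) (hs.S0 x y),
    fun x y => by simp only [hTd]; rw [hS.Ss x y, hs.Ss x y],
    fun a x y => by simp only [hTd]; rw [hS.St a x y, hs.St a x y]⟩
  have hK := hS.herm
  have hκ0 : 0 ≤ κ := (hs.S0 0 0).trans (hκ 0 0)
  have hB0 : 0 ≤ B := (Finset.sum_nonneg fun y _ => hT.S0 0 y).trans (hB 0)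
  have hv0 : 0 ≤ v := by rw [← hv]; exact Finset.sum_nonneg fun y _ => hs.S0 0 y
  have hCW := CW_nonneg σ
  obtain ⟨P, hP⟩ : ∃ P : Measure (Ix V → ℝ), P = PP (Ix V) := ⟨_, rfl⟩
  have hPp : IsProbabilityMeasure P := by rw [hP]; infer_instance
  have hPf : IsFiniteMeasure P := IsZeroOrProbabilityMeasure.toIsFiniteMeasure P
  have hPs : SFinite P := by rw [hP]; infer_instance
  have mer : ∀ {E : Type} [NormedAddCommGroup E] [NormedSpace ℝ E] (Φ : Matrix V V ℂ → E),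
      Continuous Φ → ∫ p : (Ix V → ℝ) × (Ix V → ℝ), Φ (Gg (Ag K (cS σ S) p.1) (cS 0 s) z p.2)
        ∂(P.prod P) = ∫ g, Φ (Gg K (cS σ T) z g) ∂P := by
    intro E _ _ Φ hΦ
    rw [hP]
    exact merged hK σ S s hS.S0 hs.S0 hz.ne' Φ hΦ
  have hA : ∀ g, (Ag K (cS σ S) g).IsHermitian := fun g => Hf_herm hK _
  obtain ⟨X, hX⟩ : ∃ X : (Ix V → ℝ) × (Ix V → ℝ) → ℂ,
      X = fun p => Gg (Ag K (cS σ S) p.1) (cS 0 s) z p.2 0 0 := ⟨_, rfl⟩
  have hXc : Continuous X := by rw [hX]; exact split_cont hK _ _ hz.ne' 0 0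
  have hXb : ∀ p, ‖X p‖ ≤ 1 / |z.im| := fun p => by rw [hX]; exact Gg_le (hA _) _ hz.ne' _ 0 0
  have hXi : Integrable X (P.prod P) := int_of_bd hXc.aestronglyMeasurable hXb
  obtain ⟨Y, hY⟩ : ∃ Y : (Ix V → ℝ) → ℂ, Y = fun g => ∫ g', X (g, g') ∂P := ⟨_, rfl⟩
  have hYm : AEStronglyMeasurable Y P := by
    rw [hY]; exact hXc.aestronglyMeasurable.integral_prod_right'
  have hYb : ∀ g, ‖Y g‖ ≤ 1 / |z.im| := by
    intro g
    rw [hY]
    refine (norm_integral_le_of_norm_le_const (Eventually.of_forall fun g' => hXb _)).trans ?_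
    simp
  obtain ⟨R, hR⟩ : ∃ R : (Ix V → ℝ) → ℂ, R = fun g => Gg K (cS σ S) w g 0 0 := ⟨_, rfl⟩
  have hRc : Continuous R := by rw [hR]; exact Gg_cont hK _ hw.ne' 0 0
  have hRb : ∀ g, ‖R g‖ ≤ 1 / |w.im| := fun g => by rw [hR]; exact Gg_le hK _ hw.ne' _ 0 0
  have mXY : AEStronglyMeasurable (fun p : (Ix V → ℝ) × (Ix V → ℝ) => ‖X p - Y p.1‖) (P.prod P) :=
    (hXc.aestronglyMeasurable.sub hYm.comp_fst).norm
  have bXY : ∀ p : (Ix V → ℝ) × (Ix V → ℝ), |‖X p - Y p.1‖| ≤ 1 / |z.im| + 1 / |z.im| := by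
    intro p
    rw [abs_norm]
    exact (norm_sub_le _ _).trans (add_le_add (hXb p) (hYb p.1))
  have iXY : Integrable (fun p : (Ix V → ℝ) × (Ix V → ℝ) => ‖X p - Y p.1‖) (P.prod P) :=
    int_of_bd mXY bXY
  have iXY2 : Integrable (fun p : (Ix V → ℝ) × (Ix V → ℝ) => ‖X p - Y p.1‖ ^ 2) (P.prod P) := by
    refine int_of_bd (C := (1 / |z.im| + 1 / |z.im|) ^ 2) (mXY.pow 2) fun p => ?_
    rw [norm_pow]
    exact pow_le_pow_left₀ (norm_nonneg _) (bXY p) 2
  -- first claim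
  have imX : Integrable (fun p => (X p).im) (P.prod P) := hXi.im
  have c1 : ∫ p : (Ix V → ℝ) × (Ix V → ℝ), ‖X p - Y p.1‖ ∂(P.prod P)
      ≤ √(κ * CW σ / z.im ^ 3) := by
    refine l1_le_l2 _ _ mXY _ bXY _ ?_
    rw [integral_prod _ iXY2]
    have h1 : ∀ g, ∫ g', ‖X (g, g') - Y (g, g').1‖ ^ 2 ∂P
        ≤ κ / z.im ^ 3 * ∫ g', (X (g, g')).im ∂P := by
      intro g
      have := var_one (hA g) s hs.S0 hs.Ss κ hκ hz 0
      rw [hY, hX, hP]
      exact this
    calc ∫ g, ∫ g', ‖X (g, g') - Y (g, g').1‖ ^ 2 ∂P ∂P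
        ≤ ∫ g, κ / z.im ^ 3 * ∫ g', (X (g, g')).im ∂P ∂P :=
          integral_mono iXY2.integral_prod_left (imX.integral_prod_left.const_mul _) h1
      _ = κ / z.im ^ 3 * ∫ p, (X p).im ∂(P.prod P) := by
          rw [integral_const_mul, integral_prod _ imX]
      _ ≤ κ / z.im ^ 3 * CW σ := by
          refine mul_le_mul_of_nonneg_left ?_ (by positivity)
          have h2 := mer (fun M => (M 0 0).im) (Complex.continuous_im.comp
            (continuous_id.matrix_elem 0 0))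
          rw [hX, h2, hP]
          exact weg hK hσ T hz 0
      _ = _ := by ring
  -- second claim
  obtain ⟨b, hb⟩ : ∃ b : (Ix V → ℝ) × (Ix V → ℝ) → ℝ,
      b = fun p => ∑ j, ‖DD s (w - z) j (Gg (Ag K (cS σ S) p.1) (cS 0 s) z p.2)‖ ^ 2
        * ‖Gg (Ag K (cS σ S) p.1) (cS 0 s) z p.2 j 0‖ ^ 2 := ⟨_, rfl⟩
  have hbc : Continuous b := by
    rw [hb]
    have := fun a b => split_cont hK (cS σ S) (cS 0 s) hz.ne' a b
    unfold DD
    fun_prop
  have hbb : ∀ p, |b p| ≤ ∑ j : V, (∑ y, |s j y| * (1 / |z.im|) + ‖w - z‖) ^ 2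
      * (1 / |z.im|) ^ 2 := by
    intro p
    rw [hb]
    refine (Finset.abs_sum_le_sum_abs _ _).trans (Finset.sum_le_sum fun j _ => ?_)
    rw [abs_of_nonneg (by positivity)]
    refine mul_le_mul (pow_le_pow_left₀ (norm_nonneg _) ?_ 2)
      (pow_le_pow_left₀ (norm_nonneg _) (Gg_le (hA _) _ hz.ne' _ j 0) 2) (by positivity)
      (by positivity)
    unfold DD
    refine (norm_sub_le _ _).trans (add_le_add ((norm_sum_le _ _).trans
      (Finset.sum_le_sum fun y _ => ?_)) le_rfl)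
    rw [norm_mul, Complex.norm_real, Real.norm_eq_abs]
    exact mul_le_mul_of_nonneg_left (Gg_le (hA _) _ hz.ne' _ y y) (abs_nonneg _)
  have ib : Integrable b (P.prod P) := int_of_bd hbc.aestronglyMeasurable hbb
  have hYR : ∀ g, ‖Y g - R g‖ ^ 2 ≤ (R g).im / w.im * ∫ g', b (g, g') ∂P := by
    intro g
    have h1 := one_id (hA g) s hs.S0 hs.Ss hz.ne' hw.ne' 0 0
    rw [← hP] at h1
    have h2 : Y g - R g = ∑ j, Gr (Ag K (cS σ S) g) w 0 j * ∫ g',
        DD s (w - z) j (Gg (Ag K (cS σ S) g) (cS 0 s) z g')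
          * Gg (Ag K (cS σ S) g) (cS 0 s) z g' j 0 ∂P := by
      rw [hY, hR, hX]
      exact h1
    have h3 : ∀ j, ‖∫ g', DD s (w - z) j (Gg (Ag K (cS σ S) g) (cS 0 s) z g')
          * Gg (Ag K (cS σ S) g) (cS 0 s) z g' j 0 ∂P‖ ^ 2
        ≤ ∫ g', ‖DD s (w - z) j (Gg (Ag K (cS σ S) g) (cS 0 s) z g')‖ ^ 2
          * ‖Gg (Ag K (cS σ S) g) (cS 0 s) z g' j 0‖ ^ 2 ∂P := by
      intro j
      obtain ⟨C, hC0, hC⟩ := DD_bd (hA g) (cS 0 s) hz.ne' s (w - z)
      have h4 := norm_int_sq P (fun g' => DD s (w - z) j (Gg (Ag K (cS σ S) g) (cS 0 s) z g')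
          * Gg (Ag K (cS σ S) g) (cS 0 s) z g' j 0)
        ((DD_cont (hA g) _ hz.ne' s (w - z) j).mul
          (Gg_cont (hA g) _ hz.ne' j 0)).aestronglyMeasurable (C * (1 / |z.im|))
        (fun g' => by
          rw [norm_mul]
          exact mul_le_mul (hC j g') (Gg_le (hA g) _ hz.ne' g' j 0) (norm_nonneg _) hC0)
      simpa only [norm_mul, mul_pow] using h4
    have h5 : (R g).im / w.im = ∑ j, ‖Gr (Ag K (cS σ S) g) w 0 j‖ ^ 2 := by
      rw [div_eq_iff hw.ne', mul_comm]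
      have := ward_row _ (hA g) hw.ne' 0
      rw [this, hR]
      rfl
    have h6 : ∫ g', b (g, g') ∂P = ∑ j, ∫ g', ‖DD s (w - z) j (Gg (Ag K (cS σ S) g) (cS 0 s) z g')‖ ^ 2
          * ‖Gg (Ag K (cS σ S) g) (cS 0 s) z g' j 0‖ ^ 2 ∂P := by
      rw [hb]
      simp only
      rw [integral_finsetSum]
      intro j _
      obtain ⟨C, hC0, hC⟩ := DD_bd (hA g) (cS 0 s) hz.ne' s (w - z)
      refine int_of_bd (C := C ^ 2 * (1 / |z.im|) ^ 2)
        (((DD_cont (hA g) _ hz.ne' s (w - z) j).norm.pow 2).mul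
          ((Gg_cont (hA g) _ hz.ne' j 0).norm.pow 2)).aestronglyMeasurable fun g' => ?_
      rw [Real.norm_of_nonneg (by positivity)]
      exact mul_le_mul (pow_le_pow_left₀ (norm_nonneg _) (hC j g') 2)
        (pow_le_pow_left₀ (norm_nonneg _) (Gg_le (hA g) _ hz.ne' g' j 0) 2) (by positivity)
        (by positivity)
    rw [h2, h5, h6]
    refine (pow_le_pow_left₀ (norm_nonneg _) (norm_sum_le _ _) 2).trans ?_
    simp only [norm_mul]
    refine (Finset.sum_mul_sq_le_sq_mul_sq _ _ _).trans ?_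
    exact mul_le_mul_of_nonneg_left (Finset.sum_le_sum fun j _ => h3 j)
      (Finset.sum_nonneg fun _ _ => by positivity)
  have mYR : AEStronglyMeasurable (fun g => ‖Y g - R g‖) P :=
    (hYm.sub hRc.aestronglyMeasurable).norm
  have iYR : Integrable (fun g => ‖Y g - R g‖) P := by
    refine int_of_bd (C := 1 / |z.im| + 1 / |w.im|) mYR fun g => ?_
    rw [norm_norm]
    exact (norm_sub_le _ _).trans (add_le_add (hYb g) (hRb g))
  have iR : Integrable (fun g => (R g).im) P :=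
    (int_of_bd hRc.aestronglyMeasurable hRb : Integrable R P).im
  have hRim : ∀ g, 0 ≤ (R g).im := fun g => by
    rw [hR]; exact im_nonneg _ (Hf_herm hK _) hw 0
  have hb0 : ∀ p, 0 ≤ b p := fun p => by
    rw [hb]; exact Finset.sum_nonneg fun _ _ => by positivity
  have ibnn : ∀ g, 0 ≤ ∫ g', b (g, g') ∂P := fun g => integral_nonneg fun g' => hb0 _
  have hRW : ∫ g, (R g).im ∂P ≤ CW σ := by
    rw [hR, hP]; exact weg hK hσ S hw 0
  have hbT : ∫ p, b p ∂(P.prod P) ≤ (4 * CW σ * ((σ ^ 2 + B) * κ * v * CW σ / z.im ^ 3)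
      + 6 * CW σ * (κ / z.im) ^ 2) / z.im := by
    have hΦc : Continuous fun M : Matrix V V ℂ => ∑ j, ‖DD s (w - z) j M‖ ^ 2 * ‖M j 0‖ ^ 2 := by
      have : ∀ a b : V, Continuous fun M : Matrix V V ℂ => M a b :=
        fun a b => continuous_id.matrix_elem a b
      unfold DD
      fun_prop
    have h1 := mer (fun M => ∑ j, ‖DD s (w - z) j M‖ ^ 2 * ‖M j 0‖ ^ 2) hΦc
    rw [hb, h1, hP]
    obtain ⟨C, hC0, hC⟩ := DD_bd hT.herm (cS σ T) hz.ne' s (w - z)
    have h6 : ∀ j : V, Integrable (fun g => ‖DD s (w - z) j (Gg K (cS σ T) z g)‖ ^ 2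
        * ‖Gg K (cS σ T) z g j 0‖ ^ 2) (PP (Ix V)) := by
      intro j
      refine int_of_bd (C := C ^ 2 * (1 / |z.im|) ^ 2)
        (((DD_cont hT.herm _ hz.ne' s (w - z) j).norm.pow 2).mul
          ((Gg_cont hT.herm _ hz.ne' j 0).norm.pow 2)).aestronglyMeasurable fun g' => ?_
      rw [Real.norm_of_nonneg (by positivity)]
      exact mul_le_mul (pow_le_pow_left₀ (norm_nonneg _) (hC j g') 2)
        (pow_le_pow_left₀ (norm_nonneg _) (Gg_le hT.herm _ hz.ne' g' j 0) 2) (by positivity)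
        (by positivity)
    have h7 := integral_finsetSum Finset.univ (fun j _ => h6 j)
    rw [h7, mass hT hs σ hz (w - z)]
    refine div_le_div_of_nonneg_right ?_ hz.le
    have h2 := dec hK hσ T hz 0 (fun y => s 0 y) (fun y => hs.S0 0 y) κ (fun y => hκ 0 y) (w - z)
    refine h2.trans (add_le_add ?_ le_rfl)
    refine mul_le_mul_of_nonneg_left ?_ (by positivity)
    have h3 := DD_var hT hs hσ hz B hB κ v hκ hv
    have h4 : w - z = v * ∫ g', Gg K (cS σ T) z g' 0 0 ∂(PP (Ix V)) := by rw [hwz]; ring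
    rw [h4]
    exact h3
  have c2 : ∫ g, ‖Y g - R g‖ ∂P ≤ √(CW σ / w.im * ((4 * CW σ * ((σ ^ 2 + B) * κ * v * CW σ
      / z.im ^ 3) + 6 * CW σ * (κ / z.im) ^ 2) / z.im)) := by
    refine amgm _ _ _ (by positivity) (by positivity) fun l hl => ?_
    have h1 : ∀ g, 2 * ‖Y g - R g‖ ≤ l * ((R g).im / w.im) + (∫ g', b (g, g') ∂P) / l := by
      intro g
      have h2 := hYR g
      set a1 := (R g).im / w.im with ha1
      set b1 := ∫ g', b (g, g') ∂P with hb1
      have ha0 : 0 ≤ a1 := div_nonneg (hRim g) hw.le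
      have hb0' : 0 ≤ b1 := ibnn g
      have h3 : (2 * ‖Y g - R g‖) ^ 2 ≤ (l * a1 + b1 / l) ^ 2 := by
        have h4 : (l * a1 + b1 / l) ^ 2 = (l * a1 - b1 / l) ^ 2 + 4 * (a1 * b1) := by
          field_simp
          ring
        rw [h4]
        nlinarith [sq_nonneg (l * a1 - b1 / l)]
      exact (pow_le_pow_iff_left₀ (by positivity) (by positivity) two_ne_zero).1 h3
    rw [← integral_const_mul]
    have ib' : Integrable (fun g => ∫ g', b (g, g') ∂P) P := ib.integral_prod_left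
    calc ∫ g, 2 * ‖Y g - R g‖ ∂P ≤ ∫ g, (l * ((R g).im / w.im) + (∫ g', b (g, g') ∂P) / l) ∂P :=
          integral_mono (iYR.const_mul 2) (((iR.div_const _).const_mul l).add (ib'.div_const _)) h1
      _ = l * ((∫ g, (R g).im ∂P) / w.im) + (∫ p, b p ∂(P.prod P)) / l := by
          rw [integral_add ((iR.div_const _).const_mul l) (ib'.div_const _), integral_const_mul,
            integral_div, integral_div, integral_prod _ ib]
      _ ≤ _ := by
          refine add_le_add (mul_le_mul_of_nonneg_left (div_le_div_of_nonneg_right hRW hw.le) hl.le)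
            (div_le_div_of_nonneg_right hbT hl.le)
  have hErr : Err σ B κ v z.im w.im = √(κ * CW σ / z.im ^ 3) + √(CW σ / w.im *
      ((4 * CW σ * ((σ ^ 2 + B) * κ * v * CW σ / z.im ^ 3) + 6 * CW σ * (κ / z.im) ^ 2) / z.im)) :=
    rfl
  have hs1 : 0 ≤ √(κ * CW σ / z.im ^ 3) := Real.sqrt_nonneg _
  constructor
  · have h1 := mer (fun M => M 0 0) (continuous_id.matrix_elem 0 0)
    have h2 : ∫ g, Gg K (cS σ T) z g 0 0 ∂(PP (Ix V)) = ∫ g, Y g ∂P := by
      rw [← hP, ← h1, hY]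
      rw [hX] at hXi ⊢
      rw [integral_prod _ hXi]
    have h3 : ∫ g, Gg K (cS σ S) w g 0 0 ∂(PP (Ix V)) = ∫ g, R g ∂P := by rw [hR, hP]
    have iY : Integrable Y P := int_of_bd hYm hYb
    have iR' : Integrable R P := int_of_bd hRc.aestronglyMeasurable hRb
    rw [h2, h3, ← integral_sub iY iR']
    refine (norm_integral_le_integral_norm _).trans (c2.trans ?_)
    rw [hErr]
    linarith
  · intro L
    have hmc : Continuous fun M : Matrix V V ℂ => max ((M 0 0).im - L) 0 :=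
      ((Complex.continuous_im.comp (continuous_id.matrix_elem 0 0)).sub continuous_const).max
        continuous_const
    have h1 := mer (fun M => max ((M 0 0).im - L) 0) hmc
    have h2 : ∫ g, max ((Gg K (cS σ T) z g 0 0).im - L) 0 ∂(PP (Ix V))
        = ∫ p, max ((X p).im - L) 0 ∂(P.prod P) := by
      rw [← hP, ← h1, hX]
    have h3 : ∫ g, max ((Gg K (cS σ S) w g 0 0).im - L) 0 ∂(PP (Ix V))
        = ∫ g, max ((R g).im - L) 0 ∂P := by rw [hR, hP]
    rw [h2, h3]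
    have hpt : ∀ p : (Ix V → ℝ) × (Ix V → ℝ), max ((X p).im - L) 0
        ≤ max ((R p.1).im - L) 0 + ‖X p - Y p.1‖ + ‖Y p.1 - R p.1‖ := by
      intro p
      have h4 : (X p).im ≤ (R p.1).im + ‖X p - Y p.1‖ + ‖Y p.1 - R p.1‖ := by
        have h5 : (X p).im - (R p.1).im = ((X p - Y p.1) + (Y p.1 - R p.1)).im := by
          simp
        have h6 := (le_abs_self _).trans (Complex.abs_im_le_norm ((X p - Y p.1) + (Y p.1 - R p.1)))
        have h7 := norm_add_le (X p - Y p.1) (Y p.1 - R p.1)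
        linarith
      have h8 := le_max_left ((R p.1).im - L) 0
      have h9 := le_max_right ((R p.1).im - L) 0
      refine max_le (by linarith) ?_
      have := norm_nonneg (X p - Y p.1)
      have := norm_nonneg (Y p.1 - R p.1)
      linarith
    have i1 : Integrable (fun p : (Ix V → ℝ) × (Ix V → ℝ) => max ((X p).im - L) 0) (P.prod P) :=
      (imX.sub (integrable_const L)).sup (integrable_const 0)
    have i2 : Integrable (fun g => max ((R g).im - L) 0) P :=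
      (iR.sub (integrable_const L)).sup (integrable_const 0)
    have i2' : Integrable (fun p : (Ix V → ℝ) × (Ix V → ℝ) => max ((R p.1).im - L) 0) (P.prod P) :=
      i2.comp_fst P
    have i3' : Integrable (fun p : (Ix V → ℝ) × (Ix V → ℝ) => ‖Y p.1 - R p.1‖) (P.prod P) :=
      iYR.comp_fst P
    calc ∫ p, max ((X p).im - L) 0 ∂(P.prod P)
        ≤ ∫ p : (Ix V → ℝ) × (Ix V → ℝ), (max ((R p.1).im - L) 0 + ‖X p - Y p.1‖
          + ‖Y p.1 - R p.1‖) ∂(P.prod P) := integral_mono i1 ((i2'.add iXY).add i3') hpt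
      _ = ∫ g, max ((R g).im - L) 0 ∂P
          + ∫ p : (Ix V → ℝ) × (Ix V → ℝ), ‖X p - Y p.1‖ ∂(P.prod P) + ∫ g, ‖Y g - R g‖ ∂P := by
          rw [integral_add (f := fun p : (Ix V → ℝ) × (Ix V → ℝ) =>
            max ((R p.1).im - L) 0 + ‖X p - Y p.1‖) (i2'.add iXY) i3', integral_add i2' iXY,
            integral_prod _ i2', integral_prod _ i3']
          simp
      _ ≤ _ := by rw [hErr]; linarith

end group

end

end Pool.Agent.T2H19
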