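import Pool.Agent.T2H19.Mod5

/-! The chain of comparisons. -/

set_option autoImplicit false

namespace Pool.Agent.T2H19

open MeasureTheory ProbabilityTheory Filter Topology Matrix
open scoped BigOperators ComplexConjugate

noncomputable section

/-- Bound for the error of one step. -/
def EE (σ B κ l c : ℝ) : ℝ :=
  √(κ * CW σ / l ^ 3) + √(4 * CW σ ^ 3 * (σ ^ 2 + B) * κ / (c * l ^ 4) + 6 * CW σ ^ 2 * κ ^ 2 / l ^ 4)

theorem EE_nonneg (σ B κ l c : ℝ) : 0 ≤ EE σ B κ l c :=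
  add_nonneg (Real.sqrt_nonneg _) (Real.sqrt_nonneg _)

theorem Err_le {σ B κ v η ηw l c κ' : ℝ} (hB : 0 ≤ B) (hκ : 0 ≤ κ) (hκ' : κ ≤ κ') (hv : 0 ≤ v)
    (hl : 0 < l) (hc : 0 < c) (h1 : l ≤ η) (h2 : η ≤ ηw) (h3 : v * c ≤ ηw) :
    Err σ B κ v η ηw ≤ EE σ B κ' l c := by
  have hW := CW_nonneg σ
  have hη : 0 < η := hl.trans_le h1
  have hηw : 0 < ηw := hη.trans_le h2
  unfold Err EE
  refine add_le_add (Real.sqrt_le_sqrt ?_) (Real.sqrt_le_sqrt ?_)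
  · exact div_le_div₀ (mul_nonneg (hκ.trans hκ') hW) (mul_le_mul_of_nonneg_right hκ' hW)
      (by positivity) (pow_le_pow_left₀ hl.le h1 3)
  · have e : CW σ / ηw * ((4 * CW σ * ((σ ^ 2 + B) * κ * v * CW σ / η ^ 3)
        + 6 * CW σ * (κ / η) ^ 2) / η)
        = 4 * CW σ ^ 3 * (σ ^ 2 + B) * κ * (v / ηw) / η ^ 4 + 6 * CW σ ^ 2 * κ ^ 2 / (ηw * η ^ 3) := by
      field_simp
    rw [e]
    refine add_le_add ?_ ?_
    · have h4 : v / ηw ≤ 1 / c := by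
        rw [div_le_div_iff₀ hηw hc]; linarith
      have h5 : 4 * CW σ ^ 3 * (σ ^ 2 + B) * κ * (v / ηw)
          ≤ 4 * CW σ ^ 3 * (σ ^ 2 + B) * κ' * (1 / c) := by
        have h6 : 4 * CW σ ^ 3 * (σ ^ 2 + B) * κ ≤ 4 * CW σ ^ 3 * (σ ^ 2 + B) * κ' :=
          mul_le_mul_of_nonneg_left hκ' (by positivity)
        exact mul_le_mul h6 h4 (by positivity) (mul_nonneg (by positivity) (hκ.trans hκ'))
      have h7 : 4 * CW σ ^ 3 * (σ ^ 2 + B) * κ' / (c * l ^ 4)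
          = 4 * CW σ ^ 3 * (σ ^ 2 + B) * κ' * (1 / c) / l ^ 4 := by field_simp
      rw [h7]
      exact div_le_div₀ (mul_nonneg (mul_nonneg (by positivity) (hκ.trans hκ')) (by positivity)) h5
        (by positivity) (pow_le_pow_left₀ hl.le h1 4)
    · have h8 : l ^ 4 ≤ ηw * η ^ 3 := by
        calc l ^ 4 = l * l ^ 3 := by ring
          _ ≤ ηw * η ^ 3 := mul_le_mul (h1.trans h2) (pow_le_pow_left₀ hl.le h1 3) (by positivity)
              hηw.le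
      refine div_le_div₀ (by positivity) (mul_le_mul_of_nonneg_left
        (pow_le_pow_left₀ hκ hκ' 2) (by positivity)) (by positivity) h8

variable {V : Type} [Fintype V] [DecidableEq V] [AddCommGroup V]

/-- Cumulative profiles. -/
def Sc (s : ℕ → V → V → ℝ) (i : ℕ) : V → V → ℝ := fun x y => ∑ j ∈ Finset.range i, s j x y

theorem Sc_succ (s : ℕ → V → V → ℝ) (i : ℕ) : Sc s (i + 1) = fun x y => Sc s i x y + s i x y := by
  funext x y
  unfold Sc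
  rw [Finset.sum_range_succ]

theorem Sc_dat {K : Matrix V V ℂ} {s : ℕ → V → V → ℝ} (hK : K.IsHermitian)
    (hKt : ∀ a x y, K (x + a) (y + a) = K x y) (hs : ∀ i, Dat V K (s i)) (i : ℕ) :
    Dat V K (Sc s i) where
  herm := hK
  Kt := hKt
  S0 := fun x y => Finset.sum_nonneg fun j _ => (hs j).S0 x y
  Ss := fun x y => Finset.sum_congr rfl fun j _ => (hs j).Ss x y
  St := fun a x y => Finset.sum_congr rfl fun j _ => (hs j).St a x y

/-- Mean diagonal resolvent. -/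
def mm (K : Matrix V V ℂ) (σ : ℝ) (S : V → V → ℝ) (z : ℂ) : ℂ :=
  ∫ g, Gg K (cS σ S) z g 0 0 ∂(PP (Ix V))

/-- Mean excess. -/
def pp (K : Matrix V V ℂ) (σ : ℝ) (S : V → V → ℝ) (z : ℂ) (L : ℝ) : ℝ :=
  ∫ g, max ((Gg K (cS σ S) z g 0 0).im - L) 0 ∂(PP (Ix V))

theorem mm_im {K : Matrix V V ℂ} (hK : K.IsHermitian) (σ : ℝ) (S : V → V → ℝ) {z : ℂ}
    (hz : z.im ≠ 0) : (mm K σ S z).im = ∫ g, (Gg K (cS σ S) z g 0 0).im ∂(PP (Ix V)) := by
  unfold mm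
  have hi : Integrable (fun g => Gg K (cS σ S) z g 0 0) (PP (Ix V)) :=
    int_of_bd (Gg_cont hK _ hz 0 0).aestronglyMeasurable fun g => Gg_le hK _ hz g 0 0
  exact (integral_im hi).symm

theorem step2 {K : Matrix V V ℂ} {s : ℕ → V → V → ℝ} (hK : K.IsHermitian)
    (hKt : ∀ a x y, K (x + a) (y + a) = K x y) (hs : ∀ i, Dat V K (s i)) {σ : ℝ} (hσ : σ ≠ 0)
    (B : ℝ) (i : ℕ) (hB : ∀ x, ∑ y, Sc s (i + 1) x y ≤ B) (κ : ℝ) (hκ : ∀ x y, s i x y ≤ κ)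
    (vl : ℝ) (hvl : vl ≤ ∑ y, s i 0 y) (c : ℝ) (hc : 0 < c) (l : ℝ) (hl : 0 < l) (z : ℂ)
    (hz : l ≤ z.im) (hm : c ≤ (mm K σ (Sc s (i + 1)) z).im) :
    ∃ w : ℂ, c * vl ≤ w.im ∧ z.im ≤ w.im ∧
      (mm K σ (Sc s (i + 1)) z).im ≤ (mm K σ (Sc s i) w).im + EE σ B κ l c ∧
      ∀ L, pp K σ (Sc s (i + 1)) z L ≤ pp K σ (Sc s i) w L + EE σ B κ l c := by
  obtain ⟨v, hv⟩ : ∃ v, v = ∑ y, s i 0 y := ⟨_, rfl⟩
  have hv0 : 0 ≤ v := by rw [hv]; exact Finset.sum_nonneg fun y _ => (hs i).S0 0 y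
  have hz0 : 0 < z.im := hl.trans_le hz
  obtain ⟨w, hw⟩ : ∃ w : ℂ, w = z + v * mm K σ (Sc s (i + 1)) z := ⟨_, rfl⟩
  have hwim : w.im = z.im + v * (mm K σ (Sc s (i + 1)) z).im := by
    rw [hw, Complex.add_im, Complex.mul_im, Complex.ofReal_re, Complex.ofReal_im, zero_mul,
      add_zero]
  have h1 : v * c ≤ v * (mm K σ (Sc s (i + 1)) z).im := mul_le_mul_of_nonneg_left hm hv0
  have hm0 : 0 ≤ v * (mm K σ (Sc s (i + 1)) z).im := (mul_nonneg hv0 hc.le).trans h1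
  have hzw : z.im ≤ w.im := by rw [hwim]; linarith
  have hw0 : 0 < w.im := hz0.trans_le hzw
  have hB0 : 0 ≤ B := (Finset.sum_nonneg fun y _ => (Sc_dat hK hKt hs (i + 1)).S0 0 y).trans (hB 0)
  rw [Sc_succ] at hB hw hwim hm h1 hm0 ⊢
  obtain ⟨a1, a2⟩ := one_step (Sc_dat hK hKt hs i) (hs i) hσ hz0 hw0 B hB κ v hκ hv.symm hw
  have hκ0 : 0 ≤ κ := ((hs i).S0 0 0).trans (hκ 0 0)
  have hE : Err σ B κ v z.im w.im ≤ EE σ B κ l c :=
    Err_le hB0 hκ0 le_rfl hv0 hl hc hz hzw (by rw [hwim]; linarith)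
  refine ⟨w, ?_, hzw, ?_, fun L => (a2 L).trans (add_le_add le_rfl hE)⟩
  · rw [hwim]
    have : c * vl ≤ v * c := by rw [mul_comm]; exact mul_le_mul_of_nonneg_right (hvl.trans hv.ge) hc.le
    linarith
  · have h2 : (mm K σ (fun x y => Sc s i x y + s i x y) z).im - (mm K σ (Sc s i) w).im
        ≤ Err σ B κ v z.im w.im := by
      rw [← Complex.sub_im]
      exact (le_abs_self _).trans ((Complex.abs_im_le_norm _).trans a1)
    linarith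

theorem pp_zero {K : Matrix V V ℂ} (hK : K.IsHermitian) (σ : ℝ) (S : V → V → ℝ) {z : ℂ}
    {l : ℝ} (hl : 0 < l) (hz : l ≤ z.im) (L : ℝ) (hL : 1 / l ≤ L) : pp K σ S z L = 0 := by
  unfold pp
  have hz0 : 0 < z.im := hl.trans_le hz
  have : ∀ g, max ((Gg K (cS σ S) z g 0 0).im - L) 0 = 0 := by
    intro g
    apply max_eq_right
    have h1 : (Gg K (cS σ S) z g 0 0).im ≤ 1 / z.im := im_le _ (Hf_herm hK _) hz0 0
    have h2 : 1 / z.im ≤ 1 / l := one_div_le_one_div_of_le hl hz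
    linarith
  simp only [this, integral_zero]

/-- Induction over the scales. -/
theorem chain_low {K : Matrix V V ℂ} {s : ℕ → V → V → ℝ} (hK : K.IsHermitian)
    (hKt : ∀ a x y, K (x + a) (y + a) = K x y) (hs : ∀ i, Dat V K (s i)) {σ : ℝ} (hσ : σ ≠ 0)
    (B : ℝ) (I : ℕ) (hB : ∀ i ≤ I, ∀ x, ∑ y, Sc s i x y ≤ B) (κ vl : ℕ → ℝ)
    (hκ : ∀ i < I, ∀ x y, s i x y ≤ κ i) (hvl : ∀ i < I, vl i ≤ ∑ y, s i 0 y)
    (hvl0 : ∀ i, 0 < vl i) (c : ℝ) (hc : 0 < c) (j0 : ℕ) :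
    ∀ i, j0 ≤ i → i < I → ∀ z : ℂ, c * vl i ≤ z.im →
      c + ∑ j ∈ Finset.Ico j0 i, EE σ B (κ j) (c * vl (j + 1)) c ≤ (mm K σ (Sc s i) z).im →
      ∀ L, 1 / (c * vl j0) ≤ L →
        pp K σ (Sc s i) z L ≤ ∑ j ∈ Finset.Ico j0 i, EE σ B (κ j) (c * vl (j + 1)) c := by
  intro i hi
  induction i, hi using Nat.le_induction with
  | base =>
    intro _ z hz _ L hL
    rw [pp_zero hK σ _ (mul_pos hc (hvl0 j0)) hz L hL]
    simp
  | succ i hi ih =>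
    intro hiI z hz hm L hL
    rw [Finset.sum_Ico_succ_top hi] at hm ⊢
    have hs0 : 0 ≤ ∑ j ∈ Finset.Ico j0 i, EE σ B (κ j) (c * vl (j + 1)) c :=
      Finset.sum_nonneg fun j _ => EE_nonneg _ _ _ _ _
    have hE0 := EE_nonneg σ B (κ i) (c * vl (i + 1)) c
    obtain ⟨w, w1, w2, w3, w4⟩ := step2 hK hKt hs hσ B i (hB (i + 1) hiI.le) (κ i)
      (hκ i (by omega)) (vl i) (hvl i (by omega)) c hc (c * vl (i + 1))
      (mul_pos hc (hvl0 (i + 1))) z hz (by linarith)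
    have h1 := ih (by omega) w w1 (by linarith) L hL
    have h2 := w4 L
    linarith

/-- The final bound in finite volume. -/
theorem chain_top {K : Matrix V V ℂ} {s : ℕ → V → V → ℝ} (hK : K.IsHermitian)
    (hKt : ∀ a x y, K (x + a) (y + a) = K x y) (hs : ∀ i, Dat V K (s i)) {σ : ℝ} (hσ : σ ≠ 0)
    (B : ℝ) (I : ℕ) (hB : ∀ i ≤ I + 1, ∀ x, ∑ y, Sc s i x y ≤ B) (κ vl : ℕ → ℝ)
    (hκ : ∀ i < I + 1, ∀ x y, s i x y ≤ κ i) (hvl : ∀ i < I + 1, vl i ≤ ∑ y, s i 0 y)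
    (hvl0 : ∀ i, 0 < vl i) (ζ : ℝ) (hζ : 0 < ζ) (j0 : ℕ) (hj0 : j0 ≤ I)
    (h1 : ∑ j ∈ Finset.Ico j0 I, EE σ B (κ j) (ζ / 2 * vl (j + 1)) (ζ / 2) ≤ ζ / 4)
    (z : ℂ) (hz : 0 < z.im) (h2 : EE σ B (κ I) z.im (ζ / 2) ≤ ζ / 4) (L : ℝ)
    (hL : 1 / (ζ / 2 * vl j0) ≤ L) : pp K σ (Sc s (I + 1)) z L ≤ ζ := by
  have hL0 : 0 ≤ L := le_trans (by have := hvl0 j0; positivity) hL
  rcases lt_or_ge (mm K σ (Sc s (I + 1)) z).im ζ with h | h
  · have h3 : pp K σ (Sc s (I + 1)) z L ≤ (mm K σ (Sc s (I + 1)) z).im := by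
      rw [mm_im hK σ _ hz.ne']
      unfold pp
      have hi : Integrable (fun g => (Gg K (cS σ (Sc s (I + 1))) z g 0 0).im) (PP (Ix V)) :=
        (int_of_bd (Gg_cont hK _ hz.ne' 0 0).aestronglyMeasurable
          fun g => Gg_le hK _ hz.ne' g 0 0 :
          Integrable (fun g => Gg K (cS σ (Sc s (I + 1))) z g 0 0) (PP (Ix V))).im
      refine integral_mono_of_nonneg (Eventually.of_forall fun g => le_max_right _ _) hi
        (Eventually.of_forall fun g => ?_)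
      have : 0 ≤ (Gg K (cS σ (Sc s (I + 1))) z g 0 0).im := im_nonneg _ (Hf_herm hK _) hz 0
      exact max_le (by linarith) this
    linarith
  · obtain ⟨w, w1, w2, w3, w4⟩ := step2 hK hKt hs hσ B I (hB (I + 1) le_rfl) (κ I)
      (hκ I (by omega)) (vl I) (hvl I (by omega)) (ζ / 2) (by linarith) z.im hz z le_rfl
      (by linarith)
    have h3 := chain_low hK hKt hs hσ B (I + 1) hB κ vl hκ hvl hvl0 (ζ / 2) (by linarith) j0 I hj0
      (by omega) w w1 (by linarith) L hL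
    have h4 := w4 L
    linarith

end

end Pool.Agent.T2H19
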