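import Pool.Agent.T2H19.Gau

/-! Gaussian calculus on product spaces. -/

set_option autoImplicit false

namespace Pool.Agent.T2H19

open MeasureTheory ProbabilityTheory Filter Topology

noncomputable section

/-- Law of i.i.d. standard Gaussian variables. -/
abbrev PP (κ : Type*) : Measure (κ → ℝ) := Measure.infinitePi fun _ : κ => gam

theorem inj_mp {α ι : Type*} {f : α → ι} (hf : Function.Injective f) :
    MeasurePreserving (fun (ω : ι → ℝ) i => ω (f i)) (PP ι) (PP α) :=
  ⟨measurable_pi_lambda _ fun _ => measurable_pi_apply _,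
    Measure.map_infinitePi_infinitePi_of_inj (P := fun _ : ι => gam) hf⟩

theorem upd_mp {κ : Type*} [DecidableEq κ] (k : κ) :
    MeasurePreserving (fun p : (κ → ℝ) × ℝ => Function.update p.1 k p.2) ((PP κ).prod gam)
      (PP κ) := by
  have hm : Measurable (fun p : (κ → ℝ) × ℝ => Function.update p.1 k p.2) := by
    refine measurable_pi_lambda _ fun i => ?_
    by_cases h : i = k
    · subst h
      simp only [Function.update_self]
      exact measurable_snd
    · simp only [Function.update_of_ne h]
      exact (measurable_pi_apply i).comp measurable_fst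
  refine ⟨hm, Measure.eq_infinitePi _ fun s t ht => ?_⟩
  rw [Measure.map_apply hm (MeasurableSet.pi s.countable_toSet fun i _ => ht i)]
  by_cases hk : k ∈ s
  · have e : (fun p : (κ → ℝ) × ℝ => Function.update p.1 k p.2) ⁻¹' (Set.pi s t)
        = (Set.pi (s.erase k) t) ×ˢ (t k) := by
      ext p
      simp only [Set.mem_preimage, Set.mem_pi, Set.mem_prod, Finset.coe_erase, Set.mem_sdiff,
        Set.mem_singleton_iff, Finset.mem_coe]
      constructor
      · intro h
        refine ⟨fun i hi => ?_, ?_⟩
        · have := h i hi.1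
          rwa [Function.update_of_ne hi.2] at this
        · have := h k hk
          rwa [Function.update_self] at this
      · rintro ⟨h1, h2⟩ i hi
        by_cases hik : i = k
        · subst hik
          rwa [Function.update_self]
        · rw [Function.update_of_ne hik]
          exact h1 i ⟨hi, hik⟩
    rw [e, Measure.prod_prod, Measure.infinitePi_pi _ (fun i _ => ht i), mul_comm,
      Finset.mul_prod_erase s (fun i => gam (t i)) hk]
  · have e : (fun p : (κ → ℝ) × ℝ => Function.update p.1 k p.2) ⁻¹' (Set.pi s t)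
        = (Set.pi s t) ×ˢ Set.univ := by
      ext p
      simp only [Set.mem_preimage, Set.mem_pi, Set.mem_prod, Finset.mem_coe, Set.mem_univ, and_true]
      refine forall₂_congr fun i hi => ?_
      rw [Function.update_of_ne]
      rintro rfl
      exact hk hi
    rw [e, Measure.prod_prod, Measure.infinitePi_pi _ (fun i _ => ht i), measure_univ, mul_one]

variable {κ : Type*}

theorem int_of_bd {E Ω : Type*} [NormedAddCommGroup E] [MeasurableSpace Ω] {μ : Measure Ω}
    [IsFiniteMeasure μ]
    {F : Ω → E} (hF : AEStronglyMeasurable F μ) {C : ℝ} (hb : ∀ g, ‖F g‖ ≤ C) :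
    Integrable F μ := Integrable.of_bound hF C (Eventually.of_forall hb)

/-- Integrating one coordinate first. -/
theorem int_upd [DecidableEq κ] {E : Type*} [NormedAddCommGroup E] [NormedSpace ℝ E] (k : κ)
    {F : (κ → ℝ) → E} (hF : Integrable F (PP κ)) :
    ∫ g, F g ∂(PP κ) = ∫ g, ∫ t, F (Function.update g k t) ∂gam ∂(PP κ) := by
  have h := (upd_mp k).map_eq
  conv_lhs => rw [← h]
  have hF' : Integrable F (Measure.map (fun p : (κ → ℝ) × ℝ => Function.update p.1 k p.2)
      ((PP κ).prod gam)) := by rw [h]; exact hF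
  rw [integral_map (upd_mp k).aemeasurable hF'.aestronglyMeasurable]
  rw [integral_prod]
  exact (upd_mp k).integrable_comp_of_integrable hF

theorem int_upd' [DecidableEq κ] {E : Type*} [NormedAddCommGroup E] [NormedSpace ℝ E] (k : κ)
    {F : (κ → ℝ) → E} (hF : Integrable F (PP κ)) :
    Integrable (fun g => ∫ t, F (Function.update g k t) ∂gam) (PP κ) :=
  ((upd_mp k).integrable_comp_of_integrable hF).integral_prod_left

theorem eval_mp (k : κ) : MeasurePreserving (fun ω : κ → ℝ => ω k) (PP κ) gam :=
  ⟨measurable_pi_apply k, Measure.infinitePi_map_eval _ _⟩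

theorem int_eval (k : κ) : Integrable (fun ω : κ → ℝ => |ω k|) (PP κ) := by
  have := (eval_mp k).integrable_comp_of_integrable (g := fun t : ℝ => |t| ^ 1) (gam_int_pow 1)
  simpa [Function.comp_def] using this

variable [DecidableEq κ]

/-- Gaussian integration by parts. -/
theorem steinP [Countable κ] (k : κ) (F F' : (κ → ℝ) → ℂ) (hF : Continuous F)
    (hF' : Continuous F') (C C' : ℝ) (hb : ∀ g, ‖F g‖ ≤ C) (hb' : ∀ g, ‖F' g‖ ≤ C')
    (hd : ∀ g t, HasDerivAt (fun t => F (Function.update g k t)) (F' (Function.update g k t)) t) :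
    ∫ g, (g k : ℂ) * F g ∂(PP κ) = ∫ g, F' g ∂(PP κ) := by
  have i1 : Integrable (fun g : κ → ℝ => (g k : ℂ) * F g) (PP κ) := by
    refine ((int_eval k).mul_const C).mono' ?_ (Eventually.of_forall fun g => ?_)
    · exact ((Complex.continuous_ofReal.comp (continuous_apply k)).mul hF).aestronglyMeasurable
    · rw [norm_mul, Complex.norm_real, Real.norm_eq_abs]
      exact mul_le_mul_of_nonneg_left (hb g) (abs_nonneg _)
  have i2 : Integrable F' (PP κ) := int_of_bd hF'.aestronglyMeasurable hb'
  rw [int_upd k i1, int_upd k i2]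
  refine integral_congr_ae (Eventually.of_forall fun g => ?_)
  simp only [Function.update_self]
  have hC : 0 ≤ C := (norm_nonneg _).trans (hb g)
  refine stein (fun t => F (Function.update g k t)) (fun t => F' (Function.update g k t)) (hd g)
    (hF'.comp (continuous_const.update k continuous_id)) C C' (fun t => ?_) (fun t => hb' _)
  refine (hb _).trans ?_
  nlinarith [abs_nonneg t, mul_nonneg hC (abs_nonneg t)]

/-- Resampling one coordinate. -/
theorem poin1 [Countable κ] (k : κ) (F F' : (κ → ℝ) → ℂ) (hF : Continuous F)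
    (hF' : Continuous F') (C C' : ℝ) (hb : ∀ g, ‖F g‖ ≤ C) (hb' : ∀ g, ‖F' g‖ ≤ C')
    (hd : ∀ g t, HasDerivAt (fun t => F (Function.update g k t)) (F' (Function.update g k t)) t) :
    ∫ g, ‖F g - F (Function.update g k 0)‖ ^ 2 ∂(PP κ) ≤ ∫ g, ‖F' g‖ ^ 2 ∂(PP κ) := by
  have hu : Continuous fun g : κ → ℝ => F (Function.update g k 0) :=
    hF.comp (continuous_id.update k continuous_const)
  have i1 : Integrable (fun g : κ → ℝ => ‖F g - F (Function.update g k 0)‖ ^ 2) (PP κ) := by
    refine int_of_bd (C := (C + C) ^ 2) ((hF.sub hu).norm.pow 2).aestronglyMeasurable fun g => ?_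
    rw [Real.norm_of_nonneg (by positivity)]
    exact pow_le_pow_left₀ (norm_nonneg _) ((norm_sub_le _ _).trans (add_le_add (hb _) (hb _))) 2
  have i2 : Integrable (fun g => ‖F' g‖ ^ 2) (PP κ) := by
    refine int_of_bd (C := C' ^ 2) (hF'.norm.pow 2).aestronglyMeasurable fun g => ?_
    rw [Real.norm_of_nonneg (by positivity)]
    exact pow_le_pow_left₀ (norm_nonneg _) (hb' _) 2
  rw [int_upd k i1, int_upd k i2]
  refine integral_mono (int_upd' k i1) (int_upd' k i2) fun g => ?_
  simp only [Function.update_idem]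
  exact poin (fun t => F (Function.update g k t)) (fun t => F' (Function.update g k t)) (hd g)
    (hF'.comp (continuous_const.update k continuous_id)) C' fun t => hb' _

/-- Conditional bound. -/
theorem cond_bd [Countable κ] (k : κ) (Φ ψ : (κ → ℝ) → ℝ) (hΦ : Continuous Φ) (hψ : Continuous ψ)
    (A B : ℝ) (hA : ∀ g, |Φ g| ≤ A) (hB : ∀ g, |ψ g| ≤ B) (h0 : ∀ g, 0 ≤ Φ g)
    (hk : ∀ g t, Φ (Function.update g k t) = Φ g) (C : ℝ)
    (hC : ∀ g, ∫ t, ψ (Function.update g k t) ∂gam ≤ C) :
    ∫ g, Φ g * ψ g ∂(PP κ) ≤ C * ∫ g, Φ g ∂(PP κ) := by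
  have i1 : Integrable (fun g : κ → ℝ => Φ g * ψ g) (PP κ) := by
    refine int_of_bd (C := A * B) (hΦ.mul hψ).aestronglyMeasurable fun g => ?_
    rw [norm_mul]
    exact mul_le_mul (hA g) (hB g) (norm_nonneg _) ((abs_nonneg _).trans (hA g))
  have i2 : Integrable Φ (PP κ) := int_of_bd (C := A) hΦ.aestronglyMeasurable hA
  rw [int_upd k i1, ← integral_const_mul]
  refine integral_mono (int_upd' k i1) (i2.const_mul C) fun g => ?_
  simp only [hk]
  rw [integral_const_mul, mul_comm]
  exact mul_le_mul_of_nonneg_right (hC g) (h0 g)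

end

end Pool.Agent.T2H19
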