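import Pool.Agent.T2H19.Tor
import Pool.Agent.T2H19.Mod6

/-! Profiles of the hopping amplitudes and the finite volume bound. -/

set_option autoImplicit false

namespace Pool.Agent.T2H19

open MeasureTheory Filter Topology
open scoped BigOperators ComplexConjugate

noncomputable section

theorem summable_int (d : ℕ) (s : ℝ) (hs : (d : ℝ) < s) :
    Summable fun v : Zd d => ‖v‖ ^ (-s) := by
  set b := Pi.basisFun ℝ (Fin d) with hb
  set L : Submodule ℤ (Fin d → ℝ) := Submodule.span ℤ (Set.range b) with hL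
  have hrank : Module.finrank ℤ L = d := by
    rw [ZLattice.rank ℝ L]; simp
  have h1 : Summable fun z : L => ‖z‖ ^ (-s) :=
    ZLattice.summable_norm_rpow L (-s) (by rw [hrank]; linarith)
  have hmem : ∀ v : Fin d → ℤ, (fun i => (v i : ℝ)) ∈ L := by
    intro v
    have : (fun i => (v i : ℝ)) = ∑ i, v i • b i := by
      ext j
      simp [hb, Pi.basisFun_apply, Finset.sum_apply, Pi.single_apply]
    rw [this]
    exact Submodule.sum_mem _ fun i _ => Submodule.smul_mem _ _ (Submodule.subset_span ⟨i, rfl⟩)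
  have h2 := h1.comp_injective (i := fun v : Fin d → ℤ => (⟨fun i => (v i : ℝ), hmem v⟩ : L)) (by
    intro v w h
    have h3 := congrArg Subtype.val h
    ext i
    have := congrFun h3 i
    simpa using this)
  refine h2.congr fun v => ?_
  have h4 : ‖(fun i => (v i : ℝ))‖ = ‖v‖ := by
    apply le_antisymm
    · refine (pi_norm_le_iff_of_nonneg (norm_nonneg _)).mpr fun i => ?_
      have := norm_le_pi_norm v i
      rwa [← Int.norm_cast_real] at this
    · refine (pi_norm_le_iff_of_nonneg (norm_nonneg _)).mpr fun i => ?_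
      have := norm_le_pi_norm (fun i => (v i : ℝ)) i
      rwa [Int.norm_cast_real] at this
  simp only [Function.comp]
  rw [← h4]
  rfl

/-- Variance at distance `r`. -/
def Fr (ε β : ℝ) (r : ℕ) : ℝ := ε ^ 2 * (r : ℝ) ^ (-(2 * β))

theorem Fr_nonneg (ε β : ℝ) (r : ℕ) : 0 ≤ Fr ε β r := by unfold Fr; positivity

theorem Fr_anti {ε β : ℝ} (hβ : 0 < β) {r s : ℕ} (hr : 1 ≤ r) (h : r ≤ s) :
    Fr ε β s ≤ Fr ε β r := by
  unfold Fr
  refine mul_le_mul_of_nonneg_left ?_ (sq_nonneg _)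
  have h1 : (0 : ℝ) < r := by exact_mod_cast hr
  exact Real.rpow_le_rpow_of_nonpos h1 (by exact_mod_cast h) (by linarith)

/-- Profile of one level at norm `m`. -/
def lv (ε β : ℝ) (m a b : ℕ) : ℝ :=
  ∑ r ∈ Finset.Ico a b, if m ≤ r then Fr ε β r - Fr ε β (r + 1) else 0

theorem lv_nonneg {ε β : ℝ} (hβ : 0 < β) (m a b : ℕ) (ha : 1 ≤ a) : 0 ≤ lv ε β m a b := by
  unfold lv
  refine Finset.sum_nonneg fun r hr => ?_
  have := (Finset.mem_Ico.1 hr).1
  split_ifs
  · exact sub_nonneg.2 (Fr_anti hβ (by omega) (by omega))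
  · exact le_rfl

theorem lv_eq (ε β : ℝ) (m a b : ℕ) (hab : a ≤ b) :
    lv ε β m a b = if m ≤ b then Fr ε β (max m a) - Fr ε β b else 0 := by
  induction b, hab using Nat.le_induction with
  | base =>
    unfold lv
    rw [Finset.Ico_self, Finset.sum_empty]
    split_ifs with h
    · rw [max_eq_right h, sub_self]
    · rfl
  | succ b hab ih =>
    have e : lv ε β m a (b + 1) = lv ε β m a b + (if m ≤ b then Fr ε β b - Fr ε β (b + 1) else 0) := by
      unfold lv
      rw [Finset.sum_Ico_succ_top hab]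
    rw [e, ih]
    by_cases h1 : m ≤ b
    · rw [if_pos h1, if_pos h1, if_pos (by omega)]
      ring
    · rw [if_neg h1, if_neg h1, add_zero]
      by_cases h2 : m ≤ b + 1
      · have h3 : m = b + 1 := by omega
        rw [if_pos h2, h3, max_eq_left (by omega), sub_self]
      · rw [if_neg h2]

/-- Profile of level `i`. -/
def fS (ε β : ℝ) {d : ℕ} (i : ℕ) (h : Zd d) : ℝ :=
  if h = 0 then 0 else lv ε β (nm h) (2 ^ i) (2 ^ (i + 1))

theorem fS_nonneg {ε β : ℝ} (hβ : 0 < β) {d : ℕ} (i : ℕ) (h : Zd d) : 0 ≤ fS ε β i h := by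
  unfold fS
  split_ifs
  · exact le_rfl
  · exact lv_nonneg hβ _ _ _ Nat.one_le_two_pow

theorem fS_neg (ε β : ℝ) {d : ℕ} (i : ℕ) (h : Zd d) : fS ε β i (-h) = fS ε β i h := by
  unfold fS
  simp only [nm_neg, neg_eq_zero]

theorem fS_sum (ε β : ℝ) {d : ℕ} (I : ℕ) (h : Zd d) (hh : h ≠ 0) :
    ∑ i ∈ Finset.range I, fS ε β i h = if nm h ≤ 2 ^ I then Fr ε β (nm h) - Fr ε β (2 ^ I) else 0 := by
  have hn : 1 ≤ nm h := by
    rw [Nat.one_le_iff_ne_zero, Ne, nm_eq_zero]
    exact hh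
  induction I with
  | zero =>
    rw [Finset.range_zero, Finset.sum_empty, pow_zero]
    split_ifs with h1
    · have : nm h = 1 := by omega
      rw [this, sub_self]
    · rfl
  | succ I ih =>
    rw [Finset.sum_range_succ, ih]
    unfold fS
    have hp : 2 ^ I ≤ 2 ^ (I + 1) := Nat.pow_le_pow_right (by norm_num) (by omega)
    rw [if_neg hh, lv_eq _ _ _ _ _ hp]
    by_cases h1 : nm h ≤ 2 ^ I
    · rw [if_pos h1, if_pos (h1.trans hp), if_pos (h1.trans hp), max_eq_right h1]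
      ring
    · rw [if_neg h1, zero_add]
      by_cases h2 : nm h ≤ 2 ^ (I + 1)
      · rw [if_pos h2, if_pos h2, max_eq_left (by omega)]
      · rw [if_neg h2, if_neg h2]

theorem fS_le {ε β : ℝ} (hβ : 0 < β) {d : ℕ} (i : ℕ) (h : Zd d) : fS ε β i h ≤ Fr ε β (2 ^ i) := by
  unfold fS
  split_ifs
  · exact Fr_nonneg _ _ _
  · rw [lv_eq _ _ _ _ _ (Nat.pow_le_pow_right (by norm_num) (by omega))]
    split_ifs
    · have h1 : Fr ε β (max (nm h) (2 ^ i)) ≤ Fr ε β (2 ^ i) :=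
        Fr_anti hβ Nat.one_le_two_pow (le_max_right _ _)
      have := Fr_nonneg ε β (2 ^ (i + 1))
      linarith
    · exact Fr_nonneg _ _ _

/-- The nearest neighbour kernel. -/
def kk {d : ℕ} (h : Zd d) : ℝ := if ∑ i, (h i).natAbs = 1 then 1 else 0

theorem kk_neg {d : ℕ} (h : Zd d) : kk (-h) = kk h := by
  unfold kk
  simp

/-- The kinetic matrix of the torus. -/
def KT (d n : ℕ) : Matrix (TV d n) (TV d n) ℂ := fun v w => (kk (lf (v - w)) : ℂ)

/-- Level profiles on the torus. -/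
def sT (ε β : ℝ) (d n i : ℕ) : TV d n → TV d n → ℝ := fun v w => fS ε β i (lf (v - w))

theorem lf_symm {d n : ℕ} (v w : TV d n) : lf (v - w) = -lf (w - v) := by
  rw [← lf_neg, neg_sub]

theorem KT_herm (d n : ℕ) : (KT d n).IsHermitian := by
  ext v w
  rw [Matrix.conjTranspose_apply]
  unfold KT
  rw [lf_symm w v, kk_neg, RCLike.star_def, Complex.conj_ofReal]

theorem KT_t (d n : ℕ) (a v w : TV d n) : KT d n (v + a) (w + a) = KT d n v w := by
  unfold KT
  rw [add_sub_add_right_eq_sub]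

theorem sT_dat {ε β : ℝ} (hβ : 0 < β) (d n i : ℕ) : Dat (TV d n) (KT d n) (sT ε β d n i) where
  herm := KT_herm d n
  Kt := KT_t d n
  S0 := fun v w => fS_nonneg hβ i _
  Ss := fun v w => by
    unfold sT
    rw [lf_symm v w, fS_neg]
  St := fun a v w => by
    unfold sT
    rw [add_sub_add_right_eq_sub]

/-- Lower bound for the total variance of a level. -/
def vlow (ε β : ℝ) (d i : ℕ) : ℝ := (2 : ℝ) ^ (i * d) * (Fr ε β (2 ^ i) - Fr ε β (2 ^ (i + 1)))

theorem sT_row {ε β : ℝ} (hβ : 0 < β) {d n i : ℕ} (hd : 0 < d) (hn : 2 ^ i ≤ n) :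
    vlow ε β d i ≤ ∑ w, sT ε β d n i 0 w := by
  have hpos : 0 ≤ Fr ε β (2 ^ i) - Fr ε β (2 ^ (i + 1)) :=
    sub_nonneg.2 (Fr_anti hβ Nat.one_le_two_pow (Nat.pow_le_pow_right (by norm_num) (by omega)))
  obtain ⟨A, hA⟩ : ∃ A : Finset (TV d n), A = (Finset.univ.filter fun v => nm (lf v) ≤ 2 ^ i).erase 0 :=
    ⟨_, rfl⟩
  have hAc : (2 : ℝ) ^ (i * d) ≤ (A.card : ℝ) := by
    have h0 : (0 : TV d n) ∈ Finset.univ.filter fun v : TV d n => nm (lf v) ≤ 2 ^ i := by
      simp only [Finset.mem_filter, Finset.mem_univ, true_and]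
      rw [lf_zero, (nm_eq_zero (0 : Zd d)).2 rfl]
      exact Nat.zero_le _
    have h1 : A.card = (2 * 2 ^ i + 1) ^ d - 1 := by
      rw [hA, Finset.card_erase_of_mem h0, card_ball d n _ hn]
    have h2 : 2 ^ (i * d) + 1 ≤ (2 * 2 ^ i + 1) ^ d := by
      have h3 : (2 ^ i + 1) ^ d ≤ (2 * 2 ^ i + 1) ^ d := Nat.pow_le_pow_left (by omega) d
      have h4 : (2 ^ i) ^ d < (2 ^ i + 1) ^ d := Nat.pow_lt_pow_left (by omega) (by omega)
      rw [← pow_mul] at h4
      omega
    have h3 : 2 ^ (i * d) ≤ A.card := by omega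
    exact_mod_cast h3
  have h2 : ∀ w ∈ A, Fr ε β (2 ^ i) - Fr ε β (2 ^ (i + 1)) ≤ sT ε β d n i 0 w := by
    intro w hw
    rw [hA, Finset.mem_erase, Finset.mem_filter] at hw
    unfold sT fS
    rw [zero_sub, lf_neg, nm_neg]
    have hne : -lf w ≠ 0 := by
      rw [neg_ne_zero]
      intro h
      exact hw.1 ((lf_eq_zero w).1 h)
    rw [if_neg hne, lv_eq _ _ _ _ _ (Nat.pow_le_pow_right (by norm_num) (by omega)),
      if_pos (hw.2.2.trans (Nat.pow_le_pow_right (by norm_num) (by omega))),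
      max_eq_right hw.2.2]
  calc vlow ε β d i ≤ (A.card : ℝ) * (Fr ε β (2 ^ i) - Fr ε β (2 ^ (i + 1))) :=
        mul_le_mul_of_nonneg_right hAc hpos
    _ = ∑ _w ∈ A, (Fr ε β (2 ^ i) - Fr ε β (2 ^ (i + 1))) := by
        rw [Finset.sum_const, nsmul_eq_mul]
    _ ≤ ∑ w ∈ A, sT ε β d n i 0 w := Finset.sum_le_sum h2
    _ ≤ ∑ w, sT ε β d n i 0 w := Finset.sum_le_sum_of_subset_of_nonneg (Finset.subset_univ _)
        fun w _ _ => (sT_dat hβ d n i).S0 0 w

/-- The total variance. -/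
def Btot (ε β : ℝ) (d : ℕ) : ℝ := ∑' h : Zd d, ε ^ 2 * ‖h‖ ^ (-(2 * β))

theorem Btot_summable (ε : ℝ) {β : ℝ} {d : ℕ} (hβ : (d : ℝ) < 2 * β) :
    Summable fun h : Zd d => ε ^ 2 * ‖h‖ ^ (-(2 * β)) := (summable_int d (2 * β) hβ).mul_left _

theorem Sc_row {ε β : ℝ} {d : ℕ} (hd : 0 < d) (hβ : (d : ℝ) < 2 * β) (n i : ℕ) (v : TV d n) :
    ∑ w, Sc (sT ε β d n) i v w ≤ Btot ε β d := by
  have hd' : (0 : ℝ) < d := by exact_mod_cast hd
  have hβ0 : 0 < β := by linarith
  have h1 : ∀ w, Sc (sT ε β d n) i v w ≤ ε ^ 2 * ‖lf (v - w)‖ ^ (-(2 * β)) := by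
    intro w
    unfold Sc sT
    by_cases h : lf (v - w) = 0
    · have : ∀ j ∈ Finset.range i, fS ε β j (lf (v - w)) = 0 := fun j _ => by
        unfold fS; rw [if_pos h]
      rw [Finset.sum_eq_zero this]
      positivity
    · rw [fS_sum ε β i _ h]
      split_ifs
      · have h2 := Fr_nonneg ε β (2 ^ i)
        have h3 : ε ^ 2 * ‖lf (v - w)‖ ^ (-(2 * β)) = Fr ε β (nm (lf (v - w))) := by
          unfold Fr; rw [nm_norm]
        rw [h3]
        linarith
      · positivity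
  refine (Finset.sum_le_sum fun w _ => h1 w).trans ?_
  have h2 : ∑ w, ε ^ 2 * ‖lf (v - w)‖ ^ (-(2 * β))
      = ∑ h ∈ Finset.univ.image (fun w : TV d n => lf (v - w)), ε ^ 2 * ‖h‖ ^ (-(2 * β)) := by
    rw [Finset.sum_image]
    intro a _ b _ hab
    have := lf_inj hab
    exact sub_right_injective this
  rw [h2]
  exact (Btot_summable ε hβ).sum_le_tsum _ fun h _ => by positivity

/-- The full profile on the torus. -/
def ST (ε β : ℝ) (d n : ℕ) : TV d n → TV d n → ℝ := fun v w =>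
  if v = w then 0 else Fr ε β (nm (lf (v - w))) - Fr ε β (n + 1)

theorem Sc_eq_ST (ε β : ℝ) (d I n : ℕ) (hn : n + 1 = 2 ^ (I + 1)) :
    Sc (sT ε β d n) (I + 1) = ST ε β d n := by
  funext v w
  unfold Sc sT ST
  by_cases h : v = w
  · rw [if_pos h, h, sub_self]
    refine Finset.sum_eq_zero fun j _ => ?_
    unfold fS
    rw [if_pos lf_zero]
  · rw [if_neg h]
    have h1 : lf (v - w) ≠ 0 := by
      rw [Ne, lf_eq_zero, sub_eq_zero]; exact h
    have h2 : nm (lf (v - w)) ≤ 2 ^ (I + 1) := by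
      have := nm_lf (v - w)
      omega
    rw [fS_sum ε β _ _ h1, if_pos h2, hn]

end

end Pool.Agent.T2H19
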