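import Pool.Agent.T2H19.Fin2

/-! Green functions of essentially self-adjoint infinite matrices. -/

set_option autoImplicit false

namespace Pool.Agent.T2H19

open MeasureTheory Filter Topology
open scoped BigOperators ComplexConjugate ENNReal

noncomputable section

section gen

variable {Γ : Type} [DecidableEq Γ]

/-- Green function of the restriction. -/
def gO (H : Γ → Γ → ℂ) (Λ : Finset Γ) (z : ℂ) (y x : Γ) : ℂ :=
  if h : y ∈ Λ ∧ x ∈ Λ then Gr (MD H Λ) z ⟨y, h.1⟩ ⟨x, h.2⟩ else 0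

theorem gO_approx {H : Γ → Γ → ℂ} (hH : Adm H) (Λ : Finset Γ) {z : ℂ} (hz : z.im ≠ 0) (y x : Γ)
    (hy : y ∈ Λ) (hx : x ∈ Λ) (f : Γ →₀ ℂ) (hf : f.support ⊆ Λ) :
    |z.im| * ‖gO H Λ z y x - f y‖ ≤ ‖Tz H hH z f - dl x‖ := by
  unfold gO
  rw [dif_pos ⟨hy, hx⟩]
  set M := MD H Λ with hM
  have hMh : M.IsHermitian := MD_herm hH Λ
  obtain ⟨q, hq⟩ : ∃ q : Λ → ℂ, q = fun a : Λ => (Tz H hH z f - dl x : E2 Γ) (a : Γ) := ⟨_, rfl⟩
  have hq1 : ∀ a : Λ, q a = ((M - z • (1 : Matrix Λ Λ ℂ)).mulVec (fun b : Λ => f b)) a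
      - (Pi.single (⟨x, hx⟩ : Λ) (1 : ℂ) : Λ → ℂ) a := by
    intro a
    rw [hq]
    simp only
    rw [lp.coeFn_sub, Pi.sub_apply, Tz_apply, dl_apply, Matrix.sub_mulVec, Matrix.smul_mulVec,
      Matrix.one_mulVec]
    simp only [Pi.sub_apply, Pi.smul_apply, smul_eq_mul]
    congr 1
    · congr 1
      simp only [Matrix.mulVec, dotProduct]
      have e0 : ∑ b : Λ, M a b * f b = ∑ b ∈ Λ, H a b * f b :=
        Finset.sum_coe_sort Λ fun b => H a b * f b
      rw [e0]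
      have : ∑ y ∈ f.support, f y * H a y = ∑ y ∈ Λ, f y * H a y := by
        refine Finset.sum_subset hf fun y _ hy => ?_
        rw [Finsupp.notMem_support_iff.1 hy, zero_mul]
      rw [this]
      exact Finset.sum_congr rfl fun y _ => mul_comm _ _
    · rw [Pi.single_apply]
      by_cases h : (a : Γ) = x
      · rw [if_pos h, if_pos (Subtype.ext h)]
      · rw [if_neg h, if_neg (fun h' => h (congrArg Subtype.val h'))]
  have h1 := Gr_vec M hMh hz q
  have e1 : (Gr M z).mulVec q = fun a : Λ => f a - Gr M z a ⟨x, hx⟩ := by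
    have : q = (M - z • (1 : Matrix Λ Λ ℂ)).mulVec (fun b : Λ => f b)
      - (Pi.single (⟨x, hx⟩ : Λ) (1 : ℂ) : Λ → ℂ) := funext hq1
    rw [this, Matrix.mulVec_sub, Matrix.mulVec_mulVec, Gr_mul M hMh hz, Matrix.one_mulVec,
      Matrix.mulVec_single_one]
    rfl
  rw [e1] at h1
  have h2 : ‖f y - Gr M z ⟨y, hy⟩ ⟨x, hx⟩‖ ^ 2 ≤ ∑ a : Λ, ‖f a - Gr M z a ⟨x, hx⟩‖ ^ 2 :=
    Finset.single_le_sum (f := fun a : Λ => ‖f a - Gr M z a ⟨x, hx⟩‖ ^ 2)
      (fun _ _ => by positivity) (Finset.mem_univ (⟨y, hy⟩ : Λ))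
  have h3 : ∑ a : Λ, ‖q a‖ ^ 2 ≤ ‖Tz H hH z f - dl x‖ ^ 2 := by
    rw [hq]
    exact norm_sq_ge _ Λ
  have h4 : (|z.im| * ‖Gr M z ⟨y, hy⟩ ⟨x, hx⟩ - f y‖) ^ 2 ≤ ‖Tz H hH z f - dl x‖ ^ 2 := by
    rw [mul_pow, sq_abs, norm_sub_rev]
    exact (mul_le_mul_of_nonneg_left h2 (sq_nonneg _)).trans (h1.trans h3)
  exact (pow_le_pow_iff_left₀ (by positivity) (norm_nonneg _) two_ne_zero).1 h4

theorem gO_tendsto {H : Γ → Γ → ℂ} (hH : Adm H) {Λ : ℕ → Finset Γ} (hΛ : Exh Λ) {z : ℂ}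
    (hz : z.im ≠ 0) (y x : Γ) (h : Ap H hH z x) (U : E2 Γ)
    (hU : ∀ f : Γ →₀ ℂ, |z.im| * ‖Jf f - U‖ ≤ ‖Tz H hH z f - dl x‖) :
    Tendsto (fun n => gO H (Λ n) z y x) atTop (𝓝 (U y)) := by
  rw [Metric.tendsto_atTop]
  intro ε hε
  have hz' : 0 < |z.im| := abs_pos.2 hz
  obtain ⟨f, hf⟩ := h (|z.im| * ε / 4) (by positivity)
  obtain ⟨N, hN⟩ := eventually_atTop.1 (hΛ (insert y (insert x f.support)))
  refine ⟨N, fun n hn => ?_⟩
  have h1 := hN n hn
  have h2 := gO_approx hH (Λ n) hz y x (h1 (Finset.mem_insert_self _ _))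
    (h1 (Finset.mem_insert_of_mem (Finset.mem_insert_self _ _))) f
    (fun y hy => h1 (Finset.mem_insert_of_mem (Finset.mem_insert_of_mem hy)))
  have h3 := hU f
  have h4 : ‖f y - U y‖ ≤ ‖Jf f - U‖ := by
    have := coord_le (Jf f - U) y
    rwa [lp.coeFn_sub, Pi.sub_apply, Jf_apply] at this
  have h5 : ‖gO H (Λ n) z y x - f y‖ ≤ ε / 4 := by
    have : |z.im| * ‖gO H (Λ n) z y x - f y‖ ≤ |z.im| * (ε / 4) := by
      refine h2.trans (hf.trans (le_of_eq ?_)); ring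
    exact le_of_mul_le_mul_left this hz'
  have h6 : ‖Jf f - U‖ ≤ ε / 4 := by
    have : |z.im| * ‖Jf f - U‖ ≤ |z.im| * (ε / 4) := by
      refine h3.trans (hf.trans (le_of_eq ?_)); ring
    exact le_of_mul_le_mul_left this hz'
  rw [dist_eq_norm]
  have h7 := norm_add_le (gO H (Λ n) z y x - f y) (f y - U y)
  rw [sub_add_sub_cancel] at h7
  linarith

/-- Essentially self-adjoint matrices. -/
structure Good (H : Γ → Γ → ℂ) : Prop where
  adm : Adm H
  ap : ∀ z : ℂ, z.im ≠ 0 → ∀ x, Ap H adm z x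

/-- Columns of the resolvent. -/
def Uc {H : Γ → Γ → ℂ} (g : Good H) {z : ℂ} (hz : z.im ≠ 0) (x : Γ) : E2 Γ :=
  Classical.choose (exists_U H g.adm hz x (g.ap z hz x))

theorem Uc_U {H : Γ → Γ → ℂ} (g : Good H) {z : ℂ} (hz : z.im ≠ 0) (x : Γ) :
    IsU H g.adm z x (Uc g hz x) :=
  (Classical.choose_spec (exists_U H g.adm hz x (g.ap z hz x))).1

theorem Uc_V {H : Γ → Γ → ℂ} (g : Good H) {z : ℂ} (hz : z.im ≠ 0) (x : Γ) :
    ∀ f : Γ →₀ ℂ, |z.im| * ‖Jf f - Uc g hz x‖ ≤ ‖Tz H g.adm z f - dl x‖ :=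
  (Classical.choose_spec (exists_U H g.adm hz x (g.ap z hz x))).2

theorem Uc_unique {H : Γ → Γ → ℂ} (g : Good H) {z : ℂ} (hz : z.im ≠ 0) (x : Γ) {U : E2 Γ}
    (hU : IsU H g.adm z x U) : U = Uc g hz x := by
  have hz' : (conj z).im ≠ 0 := by simpa using hz
  exact unique_U H g.adm z x (g.ap (conj z) hz') U _ hU (Uc_U g hz x)

/-- The inner products of the columns. -/
theorem inner_UU {H : Γ → Γ → ℂ} (g : Good H) {z w : ℂ} (hz : z.im ≠ 0) (hw : w.im ≠ 0) (x y : Γ) :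
    (z - conj w) * inner ℂ (Uc g hw y) (Uc g hz x) = Uc g hz x y - conj (Uc g hw y x) := by
  choose f hf using fun n : ℕ => g.ap z hz x (1 / ((n : ℝ) + 1)) (by positivity)
  have hlim : Tendsto (fun n : ℕ => 1 / ((n : ℝ) + 1)) atTop (𝓝 0) :=
    tendsto_one_div_add_atTop_nhds_zero_nat
  have hT : Tendsto (fun n => Tz H g.adm z (f n)) atTop (𝓝 (dl x)) := by
    rw [tendsto_iff_norm_sub_tendsto_zero]
    exact squeeze_zero (fun _ => norm_nonneg _) hf hlim
  have hJ : Tendsto (fun n => Jf (f n)) atTop (𝓝 (Uc g hz x)) := by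
    rw [tendsto_iff_norm_sub_tendsto_zero]
    have h6 := hlim.div_const |z.im|
    rw [zero_div] at h6
    refine squeeze_zero (fun _ => norm_nonneg _) (fun n => ?_) h6
    rw [le_div_iff₀ (abs_pos.2 hz), mul_comm]
    exact (Uc_V g hz x (f n)).trans (hf n)
  have e2 : ∀ n, inner ℂ (Tz H g.adm z (f n)) (Uc g hw y)
      = conj (f n y) + (w - conj z) * inner ℂ (Jf (f n)) (Uc g hw y) := by
    intro n
    have h3 := inner_Tz H g.adm (conj z) (f n) (Uc g hw y)
    rw [Complex.conj_conj] at h3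
    have hU := Uc_U g hw y
    have h4 : ∀ v ∈ (f n).support, conj (f n v) * (inner ℂ (cl H g.adm v) (Uc g hw y)
        - conj z * Uc g hw y v) = conj (f n v) * (if v = y then 1 else 0)
          + (w - conj z) * (conj (f n v) * Uc g hw y v) := by
      intro v _
      have h5 := hU v
      linear_combination (conj (f n v)) * h5
    rw [h3, Finset.sum_congr rfl h4, Finset.sum_add_distrib, ← Finset.mul_sum, ← inner_Jf]
    congr 1
    simp only [mul_ite, mul_one, mul_zero]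
    rw [Finset.sum_ite_eq']
    split_ifs with h
    · rfl
    · rw [Finsupp.notMem_support_iff.1 h, map_zero]
  have l1 : Tendsto (fun n => inner ℂ (Tz H g.adm z (f n)) (Uc g hw y)) atTop
      (𝓝 (inner ℂ (dl x) (Uc g hw y))) := hT.inner tendsto_const_nhds
  have l2 : Tendsto (fun n => conj (f n y) + (w - conj z) * inner ℂ (Jf (f n)) (Uc g hw y)) atTop
      (𝓝 (conj (Uc g hz x y) + (w - conj z) * inner ℂ (Uc g hz x) (Uc g hw y))) := by
    refine Tendsto.add ?_ ((hJ.inner tendsto_const_nhds).const_mul _)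
    have h1 : Tendsto (fun n => Jf (f n) y) atTop (𝓝 (Uc g hz x y)) := by
      have : Tendsto (fun n => inner ℂ (dl y) (Jf (f n))) atTop
          (𝓝 (inner ℂ (dl y) (Uc g hz x))) := tendsto_const_nhds.inner hJ
      simpa only [inner_dl] using this
    simp only [Jf_apply] at h1
    exact (Complex.continuous_conj.tendsto _).comp h1
  simp only [e2] at l1
  have e3 := tendsto_nhds_unique l1 l2
  rw [inner_dl] at e3
  have e4 := congrArg conj e3
  rw [map_add, map_mul, map_sub, Complex.conj_conj, Complex.conj_conj, inner_conj_symm] at e4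
  linear_combination e4

theorem norm_Uc {H : Γ → Γ → ℂ} (g : Good H) {z : ℂ} (hz : z.im ≠ 0) (x : Γ) :
    z.im * ‖Uc g hz x‖ ^ 2 = (Uc g hz x x).im := by
  have h := inner_UU g hz hz x x
  have h0 : inner ℂ (Uc g hz x) (Uc g hz x) = ((‖Uc g hz x‖ ^ 2 : ℝ) : ℂ) := by
    rw [inner_self_eq_norm_sq_to_K]
    push_cast
    rfl
  rw [h0] at h
  have h2 := congrArg Complex.im h
  rw [Complex.mul_im, Complex.ofReal_im, Complex.ofReal_re, mul_zero, zero_add, Complex.sub_im,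
    Complex.sub_im, Complex.conj_im, Complex.conj_im] at h2
  linarith

theorem Uc_pos {H : Γ → Γ → ℂ} (g : Good H) {z : ℂ} (hz : 0 < z.im) (x : Γ) :
    0 < (Uc g hz.ne' x x).im := by
  rw [← norm_Uc g hz.ne' x]
  have h1 : Uc g hz.ne' x ≠ 0 := by
    intro h
    have h2 := Uc_U g hz.ne' x x
    rw [h, inner_zero_right, if_pos rfl] at h2
    simp at h2
  positivity

/-- Finite perturbations. -/
theorem Uc_pert {H H' : Γ → Γ → ℂ} (g : Good H) (g' : Good H') {z : ℂ} (hz : z.im ≠ 0)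
    (S : Finset Γ) (D : Γ → Γ → ℂ) (hD : ∀ x y, H' x y = H x y + D x y)
    (hS : ∀ x y, ¬ (x ∈ S ∧ y ∈ S) → D x y = 0) (b : Γ) :
    Uc g' hz b = Uc g hz b - ∑ i ∈ S, (∑ j ∈ S, D i j * Uc g' hz b j) • Uc g hz i := by
  rw [eq_sub_iff_add_eq]
  refine Uc_unique g hz b fun y => ?_
  have h1 : ∀ W : E2 Γ, inner ℂ (cl H' g'.adm y) W
      = inner ℂ (cl H g.adm y) W + if y ∈ S then ∑ j ∈ S, D y j * W j else 0 := by
    intro W
    have e1 : cl H' g'.adm y = cl H g.adm y + ∑ j ∈ S, D j y • dl j := by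
      apply lp.ext
      funext x
      rw [lp.coeFn_add, Pi.add_apply, sum_coord]
      have e2 : ∀ j ∈ S, (D j y • (dl j : E2 Γ)) x = if x = j then D j y else 0 := by
        intro j _
        rw [lp.coeFn_smul, Pi.smul_apply, dl_apply]
        simp
      rw [Finset.sum_congr rfl e2, Finset.sum_ite_eq]
      show H' x y = H x y + _
      rw [hD]
      split_ifs with h
      · rfl
      · rw [hS x y (fun h2 => h h2.1)]
    have hDc : ∀ i j, conj (D i j) = D j i := by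
      intro i j
      have h3 := g.adm.herm j i
      have h4 := g'.adm.herm j i
      rw [hD, hD, map_add] at h4
      linear_combination h3 - h4
    rw [e1, inner_add_left, sum_inner]
    congr 1
    simp only [inner_smul_left, inner_dl, hDc]
    split_ifs with h
    · rfl
    · exact Finset.sum_eq_zero fun j _ => by rw [hS y j (fun h2 => h h2.1), zero_mul]
  have h2 := Uc_U g' hz b y
  rw [h1] at h2
  rw [inner_add_right, lp.coeFn_add, Pi.add_apply, inner_sum, sum_coord]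
  have h3 : ∑ i ∈ S, inner ℂ (cl H g.adm y) ((∑ j ∈ S, D i j * Uc g' hz b j) • Uc g hz i)
      - z * ∑ i ∈ S, ((∑ j ∈ S, D i j * Uc g' hz b j) • Uc g hz i : E2 Γ) y
      = if y ∈ S then ∑ j ∈ S, D y j * Uc g' hz b j else 0 := by
    rw [Finset.mul_sum, ← Finset.sum_sub_distrib]
    have e3 : ∀ i ∈ S, inner ℂ (cl H g.adm y) ((∑ j ∈ S, D i j * Uc g' hz b j) • Uc g hz i)
        - z * ((∑ j ∈ S, D i j * Uc g' hz b j) • Uc g hz i : E2 Γ) y
        = if y = i then ∑ j ∈ S, D i j * Uc g' hz b j else 0 := by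
      intro i _
      rw [inner_smul_right, lp.coeFn_smul, Pi.smul_apply, smul_eq_mul]
      have e4 := Uc_U g hz i y
      split_ifs with h
      · rw [if_pos h] at e4
        linear_combination (∑ j ∈ S, D i j * Uc g' hz b j) * e4
      · rw [if_neg h] at e4
        linear_combination (∑ j ∈ S, D i j * Uc g' hz b j) * e4
    rw [Finset.sum_congr rfl e3, Finset.sum_ite_eq]
  linear_combination h2 + h3

end gen

/-- The Green function on the lattice. -/
def Gi {d : ℕ} (H : Zd d → Zd d → ℂ) (z : ℂ) (y x : Zd d) : ℂ :=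
  limUnder atTop fun n => gO H (bx d n) z y x

theorem Gi_eq {d : ℕ} {H : Zd d → Zd d → ℂ} (g : Good H) {z : ℂ} (hz : z.im ≠ 0) (y x : Zd d) :
    Gi H z y x = Uc g hz x y :=
  (gO_tendsto g.adm (bx_exh d) hz y x (g.ap z hz x) (Uc g hz x) (Uc_V g hz x)).limUnder_eq

end

end Pool.Agent.T2H19
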