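import Pool.Agent.T2H19.R9

/-! No localized states. -/

set_option autoImplicit false

namespace Pool.Agent.T2H19

open MeasureTheory ProbabilityTheory Filter Topology Matrix
open scoped BigOperators ComplexConjugate ENNReal

noncomputable section

variable {d : ℕ} {μ : Sym2 (Zd d) → Measure ℝ} [∀ e, IsProbabilityMeasure (μ e)] {t : Zd d → ℝ}

theorem Gi_shift {H H' : Zd d → Zd d → ℂ} (g : Good H) (g' : Good H') (c : Zd d)
    (h : ∀ x y, H' x y = H (x + c) (y + c)) {z : ℂ} (hz : z.im ≠ 0) (u v : Zd d) :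
    Gi H' z u v = Gi H z (u + c) (v + c) := by
  obtain ⟨U, hU⟩ : ∃ U, U = Uc g hz (v + c) := ⟨_, rfl⟩
  have hs : Summable fun y => ‖U (y + c)‖ ^ 2 :=
    ((Equiv.addRight c).summable_iff (f := fun y => ‖U y‖ ^ 2)).2 (sm2 U)
  have h1 : IsU H' g'.adm z v (⟨fun y => U (y + c), mem2 hs⟩ : E2 (Zd d)) := by
    intro y
    have h1 := Uc_U g hz (v + c) (y + c)
    rw [← hU] at h1
    have h2 : (if y + c = v + c then (1 : ℂ) else 0) = if y = v then 1 else 0 := by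
      simp
    rw [h2] at h1
    rw [← h1]
    congr 1
    rw [lp.inner_eq_tsum, lp.inner_eq_tsum]
    refine Eq.trans ?_ ((Equiv.addRight c).tsum_eq fun w =>
      inner ℂ ((cl H g.adm (y + c) : E2 (Zd d)) w) (U w))
    refine tsum_congr fun w => ?_
    show inner ℂ (H' w y) (U (w + c)) = inner ℂ (H (w + c) (y + c)) (U (w + c))
    rw [h]
  have h2 := Uc_unique g' hz v h1
  rw [Gi_eq g' hz, Gi_eq g hz, ← h2, ← hU]

theorem Gi_sS {ω : Om2 d} {c : Zd d} (g : Good (HS t ω)) (g' : Good (HS t (sS c ω))) {z : ℂ}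
    (hz : z.im ≠ 0) (u v : Zd d) :
    Gi (HS t (sS c ω)) z u v = Gi (HS t ω) z (u + c) (v + c) :=
  Gi_shift g g' c (HS_s t c ω) hz u v

/-- The off-diagonal part of the normalized column is large. -/
def Re1 (t : Zd d → ℝ) (z : ℂ) (ε : ℝ) (y : Zd d) : Set (Om2 d) :=
  {ω | ε < ‖Gi (HS t ω) z y 0 / Gi (HS t ω) z 0 0‖}

theorem Re1_meas (hts : ∀ h, t (-h) = t h) {z : ℂ} (hz : z.im ≠ 0) (ε : ℝ) (y : Zd d) :
    MeasurableSet (Re1 t z ε y) :=
  measurableSet_lt measurable_const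
    (((Gi_meas (t := t) hts hz y 0).div (Gi_meas (t := t) hts hz 0 0)).norm)

theorem bsum (m : Mo μ t) {E K α δ : ℝ} {j0 j : ℕ} (hj : j0 ≤ j) {ε : ℝ} (hε : 0 < ε)
    (hK : 0 ≤ K) (F : Finset (Zd d)) :
    ∑ y ∈ F, (Measure.infinitePi μ).real (Ae t E K α δ j0 ∩ Re1 t ⟨E, et j⟩ ε y) ≤ K / ε ^ 2 := by
  have hη := et_pos j
  have hAm := Ae_meas (t := t) m.ts E K α δ j0
  have hRm := fun y => Re1_meas (t := t) m.ts (z := ⟨E, et j⟩) hη.ne' ε y
  have h1 : ∑ y ∈ F, (Measure.infinitePi μ) (Ae t E K α δ j0 ∩ Re1 t ⟨E, et j⟩ ε y)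
      ≤ ENNReal.ofReal (K / ε ^ 2) := by
    have e1 : ∀ y ∈ F, (Measure.infinitePi μ) (Ae t E K α δ j0 ∩ Re1 t ⟨E, et j⟩ ε y)
        = ∫⁻ ω, (Ae t E K α δ j0 ∩ Re1 t ⟨E, et j⟩ ε y).indicator 1 ω ∂(Measure.infinitePi μ) :=
      fun y _ => (lintegral_indicator_one (hAm.inter (hRm y))).symm
    rw [Finset.sum_congr rfl e1, ← lintegral_finsetSum _ fun y _ =>
      (measurable_one.indicator (hAm.inter (hRm y)))]
    calc _ ≤ ∫⁻ _ω : Om2 d, ENNReal.ofReal (K / ε ^ 2) ∂(Measure.infinitePi μ) := by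
          refine lintegral_mono_ae ?_
          filter_upwards [good_ae m] with ω g
          by_cases hω : ω ∈ Ae t E K α δ j0
          · have h2 := kap_row g (z := ⟨E, et j⟩) hη 0 F
            have h3 := (hω j hj).1
            calc ∑ y ∈ F, (Ae t E K α δ j0 ∩ Re1 t ⟨E, et j⟩ ε y).indicator
                  (1 : Om2 d → ℝ≥0∞) ω
                ≤ ∑ y ∈ F, ENNReal.ofReal (‖Gi (HS t ω) ⟨E, et j⟩ y 0
                    / Gi (HS t ω) ⟨E, et j⟩ 0 0‖ ^ 2 / ε ^ 2) := by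
                  refine Finset.sum_le_sum fun y _ => ?_
                  by_cases h4 : ω ∈ Re1 t ⟨E, et j⟩ ε y
                  · rw [Set.indicator_of_mem (show ω ∈ Ae t E K α δ j0 ∩ Re1 t ⟨E, et j⟩ ε y from
                      ⟨hω, h4⟩), Pi.one_apply, ← ENNReal.ofReal_one]
                    refine ENNReal.ofReal_le_ofReal ?_
                    rw [le_div_iff₀ (by positivity), one_mul]
                    exact pow_le_pow_left₀ hε.le (le_of_lt h4) 2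
                  · rw [Set.indicator_of_notMem fun h5 => h4 h5.2]
                    exact bot_le
              _ = ENNReal.ofReal ((∑ y ∈ F, ‖Gi (HS t ω) ⟨E, et j⟩ y 0
                    / Gi (HS t ω) ⟨E, et j⟩ 0 0‖ ^ 2) / ε ^ 2) := by
                  rw [← ENNReal.ofReal_sum_of_nonneg fun _ _ => by positivity, Finset.sum_div]
              _ ≤ ENNReal.ofReal (K / ε ^ 2) := by
                  refine ENNReal.ofReal_le_ofReal ?_
                  exact div_le_div_of_nonneg_right (h2.trans h3) (by positivity)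
          · rw [Finset.sum_eq_zero fun y _ => Set.indicator_of_notMem (fun h5 => hω h5.1) _]
            exact bot_le
      _ = _ := by rw [lintegral_const, measure_univ, mul_one]
  have h2 := ENNReal.toReal_mono ENNReal.ofReal_ne_top h1
  rw [ENNReal.toReal_sum (fun _ _ => measure_ne_top _ _), ENNReal.toReal_ofReal (by positivity)] at h2
  exact h2

/-- The event for the pair. -/
def GP (t : Zd d → ℝ) (E η K α δ : ℝ) (y : Zd d) : Set (Om2 d) :=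
  GE t E η K α δ 0 y ∩ {ω | ‖Mk (HS t ω) ⟨E, η⟩ 0 y 0 1 - (ω s(0, y) : ℂ)‖ ≤ δ / 2}

theorem incl (m : Mo μ t) {E K α δ : ℝ} {j0 j : ℕ} (hj : j0 ≤ j) {ε L L' : ℝ}
    (hδ : 0 < δ) (hε0 : 0 < ε) (hε : ε ≤ 1 / 2) (hL : |α| + δ + K + L' ≤ L)
    (hεL : 2 * ε * L ≤ δ / 4) {y : Zd d} (hy : y ≠ 0) :
    ∀ᵐ ω ∂(Measure.infinitePi μ), ω ∈ Ae t E K α δ j0 ∩ (sS y) ⁻¹' (Ae t E K α δ j0) →
      ω ∈ GP t E (et j) (4 * (K + 1)) α δ y ∪ (Ae t E K α δ j0 ∩ Re1 t ⟨E, et j⟩ ε y)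
        ∪ (sS y) ⁻¹' (Ae t E K α δ j0 ∩ Re1 t ⟨E, et j⟩ ε (-y))
        ∪ {ω | L' < |ω s(0, 0)|} ∪ {ω | L' < |ω s(y, y)|} ∪ {ω | δ / 4 < |ω s(0, y)|} := by
  have hη := et_pos j
  have hη1 : et j ≤ 1 := by
    have := et_anti (Nat.zero_le j)
    unfold et at this ⊢
    simpa using this
  filter_upwards [good_ae m, (sS_mp m y).quasiMeasurePreserving.ae (good_ae m)] with ω g g' hω
  by_contra hcon
  simp only [Set.mem_union, Set.mem_inter_iff, Set.mem_preimage, not_or, not_and] at hcon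
  obtain ⟨⟨⟨⟨⟨h1, h2⟩, h3⟩, h4⟩, h5⟩, h6⟩ := hcon
  have hr := h2 hω.1
  have hr' := h3 hω.2
  simp only [Re1, Set.mem_ofPred_eq, not_lt] at hr hr' h4 h5 h6
  have hzn : (⟨E, et j⟩ : ℂ).im ≠ 0 := hη.ne'
  have hz : 0 < (⟨E, et j⟩ : ℂ).im := hη
  rw [Gi_sS g g' hzn, Gi_sS g g' hzn, neg_add_cancel, zero_add] at hr'
  obtain ⟨hk, ha⟩ := hω.1 j hj
  obtain ⟨hk', ha'⟩ := hω.2 j hj
  have hK1 : 1 ≤ K := (kap_one g hz 0).trans hk
  have ekap : kap (HS t (sS y ω)) ⟨E, et j⟩ 0 = kap (HS t ω) ⟨E, et j⟩ y := by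
    unfold kap
    rw [Gi_sS g g' hzn, zero_add]
  have eaa : aa t ⟨E, et j⟩ 0 (sS y ω) = aa t ⟨E, et j⟩ y ω := by
    unfold aa sf
    rw [Gi_sS g g' hzn, zero_add]
    unfold sS
    rw [Sym2.map_mk, zero_add]
  rw [ekap] at hk'
  rw [eaa] at ha'
  have hinv : ∀ x : Zd d, |ω s(x, x)| ≤ L' → kap (HS t ω) ⟨E, et j⟩ x ≤ K →
      |(aa t ⟨E, et j⟩ x ω).re - α| ≤ δ → ‖(Gi (HS t ω) ⟨E, et j⟩ x x)⁻¹‖ ≤ L := by
    intro x hx hkx hax
    have e1 : (Gi (HS t ω) ⟨E, et j⟩ x x)⁻¹ = (ω s(x, x) : ℂ) - aa t ⟨E, et j⟩ x ω := by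
      unfold aa sf
      ring
    rw [e1]
    refine (norm_sub_le _ _).trans ?_
    rw [Complex.norm_real, Real.norm_eq_abs]
    have h7 : ‖aa t ⟨E, et j⟩ x ω‖ ≤ |(aa t ⟨E, et j⟩ x ω).re| + |(aa t ⟨E, et j⟩ x ω).im| :=
      Complex.norm_le_abs_re_add_abs_im _
    have h8 : |(aa t ⟨E, et j⟩ x ω).im| ≤ K := by
      rw [abs_of_pos (aa_pos g hz x), aa_im g hz]
      have hk0 := kap_one g hz x
      calc et j * kap (HS t ω) ⟨E, et j⟩ x ≤ 1 * K := by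
            refine mul_le_mul hη1 hkx (by linarith) (by norm_num)
        _ = K := one_mul K
    have h9 : |(aa t ⟨E, et j⟩ x ω).re| ≤ |α| + δ := by
      have := abs_sub_abs_le_abs_sub (aa t ⟨E, et j⟩ x ω).re α
      linarith
    linarith
  have hi0 := hinv 0 h4 hk ha
  have hiy := hinv y h5 hk' ha'
  obtain ⟨q1, q2, q3, q4, q5⟩ := Mk_small g hz hy.symm hε hk hk' hr hr' hi0 hiy
  apply h1
  simp only at q1
  have him : ∀ i, |(Mk (HS t ω) ⟨E, et j⟩ 0 y i i).im| ≤ 4 * (K + 1) * et j := by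
    intro i
    have h7 := (Complex.abs_im_le_norm _).trans (q1 i i)
    rw [Complex.sub_im, Complex.conj_im] at h7
    have h8 : -(Mk (HS t ω) ⟨E, et j⟩ 0 y i i).im - (Mk (HS t ω) ⟨E, et j⟩ 0 y i i).im
        = -(2 * (Mk (HS t ω) ⟨E, et j⟩ 0 y i i).im) := by ring
    rw [h8, abs_neg, abs_mul, abs_two] at h7
    nlinarith
  have hre : ∀ x : Zd d, ∀ M : ℂ, ‖M - (Gi (HS t ω) ⟨E, et j⟩ x x)⁻¹‖ ≤ 2 * ε * L →
      |(aa t ⟨E, et j⟩ x ω).re - α| ≤ δ → |ω s(x, x) - M.re - α| ≤ 2 * δ := by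
    intro x M hM hax
    have e1 : ω s(x, x) - M.re - α = ((aa t ⟨E, et j⟩ x ω).re - α)
        - (M - (Gi (HS t ω) ⟨E, et j⟩ x x)⁻¹).re := by
      unfold aa sf
      simp only [Complex.sub_re, Complex.add_re, Complex.ofReal_re, Complex.neg_re]
      ring
    rw [e1]
    refine (abs_sub _ _).trans ?_
    have h7 := (Complex.abs_re_le_norm _).trans hM
    linarith
  refine ⟨⟨him 0, him 1, ?_, hre 0 _ q2 ha, hre y _ q3 ha'⟩, ?_⟩
  · have h7 := q1 0 1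
    rw [← RCLike.norm_conj, map_sub, Complex.conj_conj] at h7
    refine h7.trans ?_
    nlinarith
  · show ‖Mk (HS t ω) ⟨E, et j⟩ 0 y 0 1 - (ω s(0, y) : ℂ)‖ ≤ δ / 2
    refine (norm_sub_le _ _).trans ?_
    rw [Complex.norm_real, Real.norm_eq_abs]
    linarith

end

end Pool.Agent.T2H19
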