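import Pool.Agent.T2H19.R10

/-! The divergence of the first moments excludes localized states. -/

set_option autoImplicit false

namespace Pool.Agent.T2H19

open MeasureTheory ProbabilityTheory Filter Topology Matrix
open scoped BigOperators ComplexConjugate ENNReal

noncomputable section

variable {d : ℕ} {μ : Sym2 (Zd d) → Measure ℝ} [∀ e, IsProbabilityMeasure (μ e)] {t : Zd d → ℝ}

/-- First moments. -/
def S1 {d : ℕ} (μ : Sym2 (Zd d) → Measure ℝ) (h : Zd d) : ℝ≥0∞ :=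
  if h = 0 then 0 else ∫⁻ r, ENNReal.ofReal |r| ∂(μ s(0, h))

theorem tight (κ : Measure ℝ) [IsProbabilityMeasure κ] {a : ℝ} (ha : 0 < a) :
    ∃ L : ℝ, 0 ≤ L ∧ κ.real {r | L < |r|} ≤ a := by
  have h1 : Tendsto (fun n : ℕ => κ {r | (n : ℝ) < |r|}) atTop (𝓝 (κ (⋂ n : ℕ, {r | (n : ℝ) < |r|}))) := by
    refine tendsto_measure_iInter_atTop (fun n => ?_) (fun i j hij r hr => ?_) ⟨0, measure_ne_top _ _⟩
    · exact (measurableSet_lt measurable_const continuous_abs.measurable).nullMeasurableSet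
    · have h2 : (j : ℝ) < |r| := hr
      have h3 : (i : ℝ) ≤ j := by exact_mod_cast hij
      exact lt_of_le_of_lt h3 h2
  have h2 : (⋂ n : ℕ, {r : ℝ | (n : ℝ) < |r|}) = ∅ := by
    ext r
    simp only [Set.mem_iInter, Set.mem_ofPred_eq, Set.mem_empty_iff_false, iff_false, not_forall,
      not_lt]
    exact exists_nat_ge |r|
  rw [h2, measure_empty] at h1
  have h3 := (ENNReal.tendsto_toReal ENNReal.zero_ne_top).comp h1
  rw [ENNReal.toReal_zero] at h3
  obtain ⟨n, hn⟩ := ((tendsto_order.1 h3).2 a ha).exists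
  exact ⟨n, by positivity, hn.le⟩

theorem e1_le (κ : Measure ℝ) [IsProbabilityMeasure κ] (δ : ℝ) : e1 κ δ ≤ ENNReal.ofReal δ := by
  unfold e1
  calc _ ≤ ∫⁻ _g in {g : ℝ | |g| ≤ δ}, ENNReal.ofReal δ ∂κ :=
        setLIntegral_mono' (abs_set_meas δ) fun g hg => ENNReal.ofReal_le_ofReal hg
    _ ≤ ENNReal.ofReal δ * 1 := by
        rw [setLIntegral_const]
        exact mul_le_mul_right prob_le_one _
    _ = _ := mul_one _

theorem abs_le_e1 (κ : Measure ℝ) {δ : ℝ} (hδ : 0 < δ) :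
    ∫⁻ r, ENNReal.ofReal |r| ∂κ ≤ e1 κ (δ / 2) + ENNReal.ofReal (2 / δ)
      * ∫⁻ r, ENNReal.ofReal (r ^ 2) ∂κ := by
  unfold e1
  rw [← lintegral_indicator (abs_set_meas _), ← lintegral_const_mul _ (by fun_prop),
    ← lintegral_add_right _ (by fun_prop)]
  refine lintegral_mono fun r => ?_
  by_cases h : |r| ≤ δ / 2
  · rw [Set.indicator_of_mem (show r ∈ {g : ℝ | |g| ≤ δ / 2} from h)]
    exact le_self_add
  · rw [Set.indicator_of_notMem (show r ∉ {g : ℝ | |g| ≤ δ / 2} from h), zero_add,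
      ← ENNReal.ofReal_mul (by positivity)]
    refine ENNReal.ofReal_le_ofReal ?_
    push Not at h
    rw [← sq_abs, div_mul_eq_mul_div, le_div_iff₀ hδ]
    nlinarith [abs_nonneg r]

theorem big_sets (m : Mo μ t) (hdiv : ∑' h : Zd d, S1 μ h = ∞) {δ : ℝ} (hδ : 0 < δ)
    {B : Set (Zd d)} (hB : B.Finite) (M : ℝ) :
    ∃ F : Finset (Zd d), (∀ y ∈ F, y ∉ B ∧ y ≠ 0) ∧
      M < ∑ y ∈ F, (e1 (μ s(0, y)) (δ / 2)).toReal := by
  classical
  by_contra hcon
  push Not at hcon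
  obtain ⟨B', hB'⟩ : ∃ B' : Finset (Zd d), B' = insert 0 hB.toFinset := ⟨_, rfl⟩
  obtain ⟨f, hf⟩ : ∃ f : Zd d → ℝ≥0∞, f = fun y => if y ∈ B' then 0 else e1 (μ s(0, y)) (δ / 2) :=
    ⟨_, rfl⟩
  have hfin : ∀ y, e1 (μ s(0, y)) (δ / 2) ≠ ∞ := fun y =>
    ne_top_of_le_ne_top ENNReal.ofReal_ne_top (e1_le _ _)
  have h1 : ∑' y, f y ≤ ENNReal.ofReal M := by
    rw [ENNReal.tsum_eq_iSup_sum]
    refine iSup_le fun F => ?_
    have h2 := hcon (F.filter fun y => y ∉ B') (fun y hy => by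
      rw [Finset.mem_filter, hB', Finset.mem_insert, not_or, Set.Finite.mem_toFinset] at hy
      exact ⟨hy.2.2, hy.2.1⟩)
    have h3 : ∑ y ∈ F, f y = ∑ y ∈ F.filter (fun y => y ∉ B'), e1 (μ s(0, y)) (δ / 2) := by
      rw [hf, Finset.sum_filter]
      refine Finset.sum_congr rfl fun y _ => ?_
      simp only
      by_cases h : y ∈ B'
      · rw [if_pos h, if_neg (not_not.2 h)]
      · rw [if_neg h, if_pos h]
    rw [h3, ← ENNReal.ofReal_toReal (ENNReal.sum_ne_top.2 fun y _ => hfin y),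
      ENNReal.toReal_sum fun y _ => hfin y]
    exact ENNReal.ofReal_le_ofReal h2
  have h4 : ∑' h : Zd d, S1 μ h ≤ ∑' h : Zd d, (f h + (if h ∈ B' then ENNReal.ofReal (δ / 2) else 0)
      + ENNReal.ofReal (2 / δ) * S2 μ h) := by
    refine ENNReal.tsum_le_tsum fun h => ?_
    unfold S1 S2
    by_cases h0 : h = 0
    · rw [if_pos h0]; exact bot_le
    · rw [if_neg h0, if_neg h0]
      refine (abs_le_e1 _ hδ).trans (add_le_add ?_ le_rfl)
      rw [hf]
      simp only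
      by_cases h5 : h ∈ B'
      · rw [if_pos h5, if_pos h5, zero_add]
        exact e1_le _ _
      · rw [if_neg h5, if_neg h5, add_zero]
  rw [hdiv, ENNReal.tsum_add, ENNReal.tsum_add, ENNReal.tsum_mul_left, top_le_iff] at h4
  have h5 : ∑' h : Zd d, (if h ∈ B' then ENNReal.ofReal (δ / 2) else 0) ≠ ∞ := by
    rw [tsum_eq_sum (s := B') fun b hb => if_neg hb]
    refine ENNReal.sum_ne_top.2 fun y hy => ?_
    rw [if_pos hy]
    exact ENNReal.ofReal_ne_top
  exact ENNReal.add_ne_top.2 ⟨ENNReal.add_ne_top.2 ⟨ne_top_of_le_ne_top ENNReal.ofReal_ne_top h1, h5⟩,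
    ENNReal.mul_ne_top ENNReal.ofReal_ne_top m.v2⟩ h4

theorem prob_coord (e : Sym2 (Zd d)) (L : ℝ) :
    (Measure.infinitePi μ).real {ω | L < |ω e|} = (μ e).real {r | L < |r|} := by
  have h := (evS_mp (μ := μ) e).measure_preimage (s := {r : ℝ | L < |r|})
    (measurableSet_lt measurable_const continuous_abs.measurable).nullMeasurableSet
  unfold Measure.real
  rw [← h]
  rfl

theorem far_sets (m : Mo μ t) {δ a : ℝ} (hδ : 0 < δ) (ha : 0 < a) :
    {y : Zd d | y ≠ 0 ∧ a < (Measure.infinitePi μ).real {ω | δ < |ω s(0, y)|}}.Finite := by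
  have h1 := ENNReal.finite_const_le_of_tsum_ne_top m.v2
    (ε := ENNReal.ofReal (δ ^ 2 * a)) (by
      rw [Ne, ENNReal.ofReal_eq_zero, not_le]; positivity)
  refine h1.subset ?_
  rintro y ⟨hy, h2⟩
  rw [prob_coord] at h2
  show ENNReal.ofReal (δ ^ 2 * a) ≤ S2 μ y
  unfold S2
  rw [if_neg hy]
  have h3 : ENNReal.ofReal (δ ^ 2) * (μ s(0, y)) {r | δ < |r|}
      ≤ ∫⁻ r, ENNReal.ofReal (r ^ 2) ∂(μ s(0, y)) := by
    refine le_trans (mul_le_mul_right (measure_mono fun r hr => ?_) _)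
      (mul_meas_ge_le_lintegral (by fun_prop) (ENNReal.ofReal (δ ^ 2)))
    have h4 : δ < |r| := hr
    refine ENNReal.ofReal_le_ofReal ?_
    rw [← sq_abs r]
    exact pow_le_pow_left₀ hδ.le h4.le 2
  refine le_trans ?_ h3
  rw [ENNReal.ofReal_mul (by positivity), ← ENNReal.ofReal_toReal (measure_ne_top (μ s(0, y)) _)]
  exact mul_le_mul_right (ENNReal.ofReal_le_ofReal h2.le) _

/-- The events have probability zero. -/
theorem nullA (m : Mo μ t) {ρ : ℝ → ℝ} {C : ℝ} (hκ : Dens (μ s(0, 0)) ρ C)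
    (hsym : ∀ h : Zd d, h ≠ 0 → (μ s(0, h)).map (fun g => -g) = μ s(0, h))
    (hdiv : ∑' h : Zd d, S1 μ h = ∞) (E : ℝ) (K : ℕ) {α δ c : ℝ} (j0 : ℕ) (hδ : 0 < δ)
    (hc : 0 < c) (hLB : LB (μ s(0, 0)) c (α - 4 * δ) (α + 4 * δ)) :
    (Measure.infinitePi μ) (Ae t E K α δ j0) = 0 := by
  by_contra hne
  obtain ⟨P, hP⟩ : ∃ P : Measure (Om2 d), P = Measure.infinitePi μ := ⟨_, rfl⟩
  have hPp : IsProbabilityMeasure P := by rw [hP]; infer_instance
  obtain ⟨A, hA⟩ : ∃ A : Set (Om2 d), A = Ae t E K α δ j0 := ⟨_, rfl⟩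
  obtain ⟨p, hp⟩ : ∃ p : ℝ, p = P.real A := ⟨_, rfl⟩
  have hp0 : 0 < p := by
    rw [hp, hP, hA]
    exact ENNReal.toReal_pos hne (measure_ne_top _ _)
  have hAm : MeasurableSet A := by rw [hA]; exact Ae_meas m.ts E K α δ j0
  obtain ⟨L', hL'0, hL'⟩ := tight (μ s(0, 0)) (a := p ^ 2 / 16) (by positivity)
  obtain ⟨L, hL⟩ : ∃ L : ℝ, L = |α| + δ + K + L' + 1 := ⟨_, rfl⟩
  have hL0 : 0 < L := by rw [hL]; positivity
  obtain ⟨ε, hε⟩ : ∃ ε : ℝ, ε = min (1 / 2) (δ / (8 * L)) := ⟨_, rfl⟩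
  have hε0 : 0 < ε := by rw [hε]; positivity
  have hε1 : ε ≤ 1 / 2 := by rw [hε]; exact min_le_left _ _
  have hε2 : 2 * ε * L ≤ δ / 4 := by
    have : ε ≤ δ / (8 * L) := by rw [hε]; exact min_le_right _ _
    rw [le_div_iff₀ (by positivity)] at this
    linarith
  obtain ⟨B, hB, hmix⟩ := mixing m (A := A) hAm (ε := p ^ 2 / 2) (by positivity)
  rw [← hP] at hmix
  have hfar := far_sets m (δ := δ / 4) (a := p ^ 2 / 16) (by positivity) (by positivity)
  rw [← hP] at hfar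
  -- constants
  obtain ⟨K1, hK1⟩ : ∃ K1 : ℝ, K1 = 4 * ((K : ℝ) + 1) := ⟨_, rfl⟩
  have hK1' : 1 ≤ K1 := by
    rw [hK1]
    have : (0 : ℝ) ≤ K := by positivity
    linarith
  obtain ⟨c1, hc1⟩ : ∃ c1 : ℝ, c1 = c ^ 2 / (13122 * K1 ^ 8) := ⟨_, rfl⟩
  have hc10 : 0 < c1 := by rw [hc1]; positivity
  have hC : 0 ≤ C := (hκ.nn 0).trans (hκ.bd 0)
  obtain ⟨F, hF, hM⟩ := big_sets m hdiv hδ (hB.union hfar)
    (4 / p ^ 2 * (C * Real.pi / c1 + δ * K / ε ^ 2))
  obtain ⟨e, he⟩ : ∃ e : Zd d → ℝ, e = fun y => (e1 (μ s(0, y)) (δ / 2)).toReal := ⟨_, rfl⟩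
  have he2 : ∀ y, e1 (μ s(0, y)) (δ / 2) = ENNReal.ofReal (e y) := fun y => by
    rw [he, ENNReal.ofReal_toReal (ne_top_of_le_ne_top ENNReal.ofReal_ne_top (e1_le _ _))]
  have he3 : ∀ y, e y ≤ δ / 2 := fun y => by
    rw [he]
    refine (ENNReal.toReal_mono ENNReal.ofReal_ne_top (e1_le _ _)).trans ?_
    rw [ENNReal.toReal_ofReal (by positivity)]
  have he0 : ∀ y, 0 ≤ e y := fun y => by rw [he]; exact ENNReal.toReal_nonneg
  -- the main inequality
  have key : ∀ j, j0 ≤ j → p ^ 2 / 4 * (∑ y ∈ F, e y - F.card * (4 * K1 * et j))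
      ≤ C * Real.pi / c1 + δ * K / ε ^ 2 := by
    intro j hj
    have hη := et_pos j
    obtain ⟨a, ha⟩ : ∃ a, a = 4 * K1 * et j := ⟨_, rfl⟩
    have ha0 : 0 ≤ a := by rw [ha]; positivity
    obtain ⟨w, hw⟩ : ∃ w : Zd d → ℝ, w = fun y => max (e y - a) 0 := ⟨_, rfl⟩
    have hw0 : ∀ y, 0 ≤ w y := fun y => by rw [hw]; exact le_max_right _ _
    have hw1 : ∀ y, w y ≤ δ / 2 := fun y => by
      rw [hw]
      exact max_le ((sub_le_self _ ha0).trans (he3 y)) (by positivity)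
    obtain ⟨b, hb⟩ : ∃ b : Zd d → ℝ, b = fun y => P.real (A ∩ Re1 t ⟨E, et j⟩ ε y) := ⟨_, rfl⟩
    have hbs : ∀ F' : Finset (Zd d), ∑ y ∈ F', b y ≤ K / ε ^ 2 := by
      intro F'
      rw [hb, hP, hA]
      exact bsum m hj hε0 (by positivity) F'
    have hb0 : ∀ y, 0 ≤ b y := fun y => by rw [hb]; exact measureReal_nonneg
    have hRm : ∀ y, MeasurableSet (Re1 t ⟨E, et j⟩ ε y) := fun y =>
      Re1_meas m.ts (z := ⟨E, et j⟩) hη.ne' ε y
    -- probabilities of the events for pairs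
    have hGP : ∀ y ∈ F, p ^ 2 / 4 - b y - b (-y) ≤ P.real (GP t E (et j) K1 α δ y) := by
      intro y hy
      obtain ⟨hyB, hy0⟩ := hF y hy
      rw [Set.mem_union, not_or] at hyB
      have h1 := hmix y hyB.1
      rw [← hp] at h1
      have h2 : P.real {ω | δ / 4 < |ω s(0, y)|} ≤ p ^ 2 / 16 := by
        by_contra hlt
        push Not at hlt
        exact hyB.2 ⟨hy0, hlt⟩
      have h3 : P.real {ω | L' < |ω s(0, 0)|} ≤ p ^ 2 / 16 := by
        rw [hP, prob_coord]; exact hL'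
      have h4 : P.real {ω | L' < |ω s(y, y)|} ≤ p ^ 2 / 16 := by
        rw [hP, prob_coord, mu_diag m y]; exact hL'
      have hinc := incl m (E := E) (K := (K : ℝ)) (α := α) (j0 := j0) hj (L := L) (L' := L') hδ hε0
        hε1 (by rw [hL]; linarith) hε2 hy0
      rw [← hP, ← hA, ← hK1] at hinc
      have h5 : P (A ∩ (sS y) ⁻¹' A) ≤ P (GP t E (et j) K1 α δ y ∪ (A ∩ Re1 t ⟨E, et j⟩ ε y)
        ∪ (sS y) ⁻¹' (A ∩ Re1 t ⟨E, et j⟩ ε (-y))
        ∪ {ω | L' < |ω s(0, 0)|} ∪ {ω | L' < |ω s(y, y)|} ∪ {ω | δ / 4 < |ω s(0, y)|}) :=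
        measure_mono_ae hinc
      have h6 := ENNReal.toReal_mono (measure_ne_top _ _) h5
      have h7 : P.real (A ∩ (sS y) ⁻¹' A) ≤ P.real (GP t E (et j) K1 α δ y)
          + P.real (A ∩ Re1 t ⟨E, et j⟩ ε y) + P.real ((sS y) ⁻¹' (A ∩ Re1 t ⟨E, et j⟩ ε (-y)))
          + P.real {ω | L' < |ω s(0, 0)|} + P.real {ω | L' < |ω s(y, y)|}
          + P.real {ω | δ / 4 < |ω s(0, y)|} := by
        refine le_trans h6 ?_
        refine (measureReal_union_le _ _).trans (add_le_add ?_ le_rfl)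
        refine (measureReal_union_le _ _).trans (add_le_add ?_ le_rfl)
        refine (measureReal_union_le _ _).trans (add_le_add ?_ le_rfl)
        refine (measureReal_union_le _ _).trans (add_le_add ?_ le_rfl)
        exact measureReal_union_le _ _
      have h8 : P.real ((sS y) ⁻¹' (A ∩ Re1 t ⟨E, et j⟩ ε (-y))) = b (-y) := by
        rw [hb]
        unfold Measure.real
        have hmp : MeasurePreserving (sS y) P P := by rw [hP]; exact sS_mp m y
        rw [hmp.measure_preimage (hAm.inter (hRm (-y))).nullMeasurableSet]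
      have h9 : P.real (A ∩ Re1 t ⟨E, et j⟩ ε y) = b y := by rw [hb]
      rw [h8, h9] at h7
      have h10 := sq_nonneg p
      linarith
    -- lower bounds
    have hlow : ∀ y ∈ F, ENNReal.ofReal (c1 * (w y * P.real (GP t E (et j) K1 α δ y)))
        ≤ ∫⁻ ω, Fq t E (et j) 0 y ω ∂P := by
      intro y hy
      obtain ⟨-, hy0⟩ := hF y hy
      have h1 := low1 m hc hLB (E := E) hη hK1' hy0.symm (hsym y hy0)
      rw [← hP, he2, ← ENNReal.ofReal_sub _ (by positivity)] at h1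
      refine le_trans (le_of_eq ?_) h1
      rw [ENNReal.ofReal_mul hc10.le, ENNReal.ofReal_mul (hw0 y), ← hc1]
      congr 1
      congr 1
      · rw [hw, ← ha]
        simp only
        rw [ENNReal.ofReal_max, ENNReal.ofReal_zero]
        exact max_eq_left (by simp)
      · rw [Measure.real, ENNReal.ofReal_toReal (measure_ne_top _ _)]
        rfl
    have hsum : ∑ y ∈ F, c1 * (w y * P.real (GP t E (et j) K1 α δ y)) ≤ C * Real.pi := by
      have h1 : ENNReal.ofReal (∑ y ∈ F, c1 * (w y * P.real (GP t E (et j) K1 α δ y)))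
          ≤ ENNReal.ofReal (C * Real.pi) := by
        rw [ENNReal.ofReal_sum_of_nonneg fun y _ => mul_nonneg hc10.le
          (mul_nonneg (hw0 y) measureReal_nonneg)]
        refine (Finset.sum_le_sum hlow).trans ?_
        have h2 := up_sum m (E := E) hη 0 F
        have h3 := wegner m hκ (z := ⟨E, et j⟩) hη 0
        rw [← hP] at h2 h3
        exact h2.trans h3
      exact (ENNReal.ofReal_le_ofReal_iff (by positivity)).1 h1
    have hsum2 : ∑ y ∈ F, w y * (p ^ 2 / 4 - b y - b (-y)) ≤ C * Real.pi / c1 := by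
      rw [le_div_iff₀ hc10, mul_comm, Finset.mul_sum]
      refine le_trans (Finset.sum_le_sum fun y hy => ?_) hsum
      exact mul_le_mul_of_nonneg_left (mul_le_mul_of_nonneg_left (hGP y hy) (hw0 y)) hc10.le
    have hsum3 : ∑ y ∈ F, w y * (b y + b (-y)) ≤ δ * K / ε ^ 2 := by
      calc ∑ y ∈ F, w y * (b y + b (-y)) ≤ ∑ y ∈ F, δ / 2 * (b y + b (-y)) :=
            Finset.sum_le_sum fun y _ => mul_le_mul_of_nonneg_right (hw1 y)
              (add_nonneg (hb0 _) (hb0 _))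
        _ = δ / 2 * (∑ y ∈ F, b y + ∑ y ∈ F, b (-y)) := by
            rw [← Finset.mul_sum, Finset.sum_add_distrib]
        _ ≤ δ / 2 * (K / ε ^ 2 + K / ε ^ 2) := by
            refine mul_le_mul_of_nonneg_left (add_le_add (hbs F) ?_) (by positivity)
            have := hbs (F.map (Equiv.neg (Zd d)).toEmbedding)
            rwa [Finset.sum_map] at this
        _ = _ := by ring
    have hsum4 : ∑ y ∈ F, e y - F.card * a ≤ ∑ y ∈ F, w y := by
      have : ∑ y ∈ F, (e y - a) ≤ ∑ y ∈ F, w y := Finset.sum_le_sum fun y _ => by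
        rw [hw]; exact le_max_left _ _
      rwa [Finset.sum_sub_distrib, Finset.sum_const, nsmul_eq_mul] at this
    have hsum5 : ∑ y ∈ F, w y * (p ^ 2 / 4 - b y - b (-y))
        = p ^ 2 / 4 * ∑ y ∈ F, w y - ∑ y ∈ F, w y * (b y + b (-y)) := by
      rw [Finset.mul_sum, ← Finset.sum_sub_distrib]
      exact Finset.sum_congr rfl fun y _ => by ring
    rw [← ha]
    have hp4 : 0 ≤ p ^ 2 / 4 := by positivity
    have := mul_le_mul_of_nonneg_left hsum4 hp4
    linarith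
  have hlim : Tendsto (fun j => p ^ 2 / 4 * (∑ y ∈ F, e y - F.card * (4 * K1 * et j))) atTop
      (𝓝 (p ^ 2 / 4 * (∑ y ∈ F, e y - F.card * (4 * K1 * 0)))) :=
    ((et_lim.const_mul (4 * K1)).const_mul (F.card : ℝ)).const_sub _ |>.const_mul _
  have h1 := le_of_tendsto hlim (eventually_atTop.2 ⟨j0, key⟩)
  rw [mul_zero, mul_zero, sub_zero] at h1
  have h2 : 4 / p ^ 2 * (C * Real.pi / c1 + δ * K / ε ^ 2) < ∑ y ∈ F, e y := by
    rw [he]; exact hM
  have h3 : p ^ 2 / 4 * (4 / p ^ 2 * (C * Real.pi / c1 + δ * K / ε ^ 2))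
      < p ^ 2 / 4 * ∑ y ∈ F, e y := mul_lt_mul_of_pos_left h2 (by positivity)
  have h4 : p ^ 2 / 4 * (4 / p ^ 2 * (C * Real.pi / c1 + δ * K / ε ^ 2))
      = C * Real.pi / c1 + δ * K / ε ^ 2 := by
    field_simp
  rw [h4] at h3
  linarith

end

end Pool.Agent.T2H19
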