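import Pool.Agent.T2H19.R11

/-! Absence of atoms. -/

set_option autoImplicit false

namespace Pool.Agent.T2H19

open MeasureTheory ProbabilityTheory Filter Topology Matrix
open scoped BigOperators ComplexConjugate ENNReal

noncomputable section

theorem atom_seq (μ : Measure ℝ) [IsFiniteMeasure μ] (η : ℕ → ℝ) (hη : ∀ j, 0 < η j)
    (h : ∀ R : ℕ, Tendsto (fun j => ∫⁻ s in Set.Icc (-(R : ℝ)) R, bm μ (η j) s ∂μ) atTop (𝓝 0))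
    (E : ℝ) : μ {E} = 0 := by
  obtain ⟨R, hR⟩ := exists_nat_gt |E|
  have h2 : ∀ j, μ {E} * μ {E} ≤ ∫⁻ s in Set.Icc (-(R : ℝ)) R, bm μ (η j) s ∂μ := by
    intro j
    have hE : E ∈ Set.Icc (-(R : ℝ)) R := ⟨(abs_lt.1 hR).1.le, (abs_lt.1 hR).2.le⟩
    calc μ {E} * μ {E} ≤ bm μ (η j) E * μ {E} := by
          refine mul_le_mul_left (measure_mono ?_) _
          rw [Set.singleton_subset_iff]
          exact Metric.mem_closedBall_self (hη j).le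
      _ = ∫⁻ s in {E}, bm μ (η j) s ∂μ := (lintegral_singleton _ _).symm
      _ ≤ _ := lintegral_mono_set (Set.singleton_subset_iff.2 hE)
  have h3 : μ {E} * μ {E} ≤ 0 := ge_of_tendsto' (h R) h2
  exact mul_self_eq_zero.1 (le_antisymm h3 bot_le)

variable {d : ℕ} {μ : Sym2 (Zd d) → Measure ℝ} [∀ e, IsProbabilityMeasure (μ e)] {t : Zd d → ℝ}

theorem F2_Gi (m : Mo μ t) {η : ℝ} (hη : 0 < η) : ∀ᵐ ω ∂(Measure.infinitePi μ), ∀ E,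
    (mS m).F2 η ω E = ENNReal.ofReal (‖Gi (HS t ω) ⟨E, η⟩ 0 0‖ ^ 2) := by
  filter_upwards [good_ae m, (mS m).F2_U hη] with ω g h E
  have hz : (⟨E, η⟩ : ℂ).im ≠ 0 := hη.ne'
  have h1 := h E g.adm (Uc g hz 0) (Uc_V g hz 0)
  rw [h1, Gi_eq g hz]

theorem F2_int (m : Mo μ t) {η : ℝ} (hη : 0 < η) (E : ℝ) :
    ∫⁻ ω, ENNReal.ofReal η * (mS m).F2 η ω E ∂(Measure.infinitePi μ)
      = ∫⁻ ω, ENNReal.ofReal (η * ‖Gi (HS t ω) ⟨E, η⟩ 0 0‖ ^ 2) ∂(Measure.infinitePi μ) := by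
  refine lintegral_congr_ae ?_
  filter_upwards [F2_Gi m hη] with ω h
  rw [h E, ← ENNReal.ofReal_mul hη.le]

theorem F2_bound (m : Mo μ t) {ρ : ℝ → ℝ} {C : ℝ} (hκ : Dens (μ s(0, 0)) ρ C) {η : ℝ}
    (hη : 0 < η) (E : ℝ) :
    ∫⁻ ω, ENNReal.ofReal η * (mS m).F2 η ω E ∂(Measure.infinitePi μ)
      ≤ ENNReal.ofReal (C * Real.pi) := by
  rw [F2_int m hη]
  refine le_trans (lintegral_mono_ae ?_) (wegner m hκ (z := ⟨E, η⟩) hη 0)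
  filter_upwards [good_ae m] with ω g
  refine ENNReal.ofReal_le_ofReal ?_
  have := Gi_row g (z := ⟨E, η⟩) hη 0 {0}
  rwa [Finset.sum_singleton] at this

theorem seq_pick {Ω : Type*} [MeasurableSpace Ω] (P : Measure Ω) [SFinite P]
    (G : ℕ → Ω × ℝ → ℝ≥0∞) (hGm : ∀ j, Measurable (G j)) (B : ℝ≥0∞) (hB : B ≠ ∞)
    (hb : ∀ j E, ∫⁻ ω, G j (ω, E) ∂P ≤ B)
    (h0 : ∀ E, Tendsto (fun j => ∫⁻ ω, G j (ω, E) ∂P) atTop (𝓝 0)) :
    ∃ j : ℕ → ℕ, ∀ᵐ ω ∂P, Tendsto (fun k : ℕ =>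
      ∫⁻ E in Set.Icc (-((k : ℝ) + 1)) ((k : ℝ) + 1), G (j k) (ω, E)) atTop (𝓝 0) := by
  have hhm : ∀ j, Measurable fun E => ∫⁻ ω, G j (ω, E) ∂P := fun j =>
    (hGm j).lintegral_prod_left'
  have hI : ∀ k : ℕ, Tendsto (fun j => ∫⁻ E in Set.Icc (-((k : ℝ) + 1)) ((k : ℝ) + 1),
      ∫⁻ ω, G j (ω, E) ∂P) atTop (𝓝 0) := by
    intro k
    have h1 : Tendsto (fun j => ∫⁻ E in Set.Icc (-((k : ℝ) + 1)) ((k : ℝ) + 1),
        ∫⁻ ω, G j (ω, E) ∂P) atTop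
        (𝓝 (∫⁻ _E in Set.Icc (-((k : ℝ) + 1)) ((k : ℝ) + 1), 0)) := by
      refine tendsto_lintegral_of_dominated_convergence (fun _ => B)
        hhm (fun j => Eventually.of_forall (hb j)) ?_ (Eventually.of_forall h0)
      rw [setLIntegral_const]
      exact ENNReal.mul_ne_top hB (by
        rw [Real.volume_Icc]; exact ENNReal.ofReal_ne_top)
    rwa [lintegral_zero] at h1
  have hj : ∀ k : ℕ, ∃ j, ∫⁻ E in Set.Icc (-((k : ℝ) + 1)) ((k : ℝ) + 1),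
      ∫⁻ ω, G j (ω, E) ∂P ≤ ENNReal.ofReal ((1 / 2 : ℝ) ^ k) := by
    intro k
    have h1 := (tendsto_order.1 (hI k)).2 (ENNReal.ofReal ((1 / 2 : ℝ) ^ k))
      (ENNReal.ofReal_pos.2 (by positivity))
    obtain ⟨j, hj⟩ := h1.exists
    exact ⟨j, hj.le⟩
  choose j hj using hj
  refine ⟨j, ?_⟩
  have hFm : ∀ k : ℕ, Measurable fun ω : Ω =>
      ∫⁻ E in Set.Icc (-((k : ℝ) + 1)) ((k : ℝ) + 1), G (j k) (ω, E) :=
    fun k => (hGm (j k)).lintegral_prod_right'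
      (ν := volume.restrict (Set.Icc (-((k : ℝ) + 1)) ((k : ℝ) + 1)))
  have hlt : ∫⁻ ω : Ω, (∑' k : ℕ, ∫⁻ E in Set.Icc (-((k : ℝ) + 1)) ((k : ℝ) + 1),
      G (j k) (ω, E)) ∂P < ∞ := by
    rw [lintegral_tsum fun k => (hFm k).aemeasurable]
    have h1 : ∀ k : ℕ, ∫⁻ ω : Ω, (∫⁻ E in Set.Icc (-((k : ℝ) + 1)) ((k : ℝ) + 1),
        G (j k) (ω, E)) ∂P ≤ ENNReal.ofReal ((1 / 2 : ℝ) ^ k) := by
      intro k
      rw [lintegral_lintegral_swap (f := fun (ω : Ω) (E : ℝ) => G (j k) (ω, E))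
        (hGm (j k)).aemeasurable]
      exact hj k
    refine (ENNReal.tsum_le_tsum h1).trans_lt ?_
    rw [← ENNReal.ofReal_tsum_of_nonneg (fun k => by positivity) summable_geometric_two]
    exact ENNReal.ofReal_lt_top
  filter_upwards [ae_lt_top (Measurable.tsum hFm) hlt.ne] with ω hω
  exact ENNReal.tendsto_atTop_zero_of_tsum_ne_top hω.ne

/-- No atoms from the averaged resolvent. -/
theorem atom_seq2 (ν : Measure ℝ) [IsFiniteMeasure ν] (η : ℕ → ℝ) (hη : ∀ j, 0 < η j)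
    (F : ℕ → ℝ → ℝ≥0∞) (hFm : ∀ k, Measurable (F k))
    (hF : ∀ k E, F k E = ENNReal.ofReal (‖∫ r : ℝ, 1 / ((r : ℂ) - ⟨E, η k⟩) ∂ν‖ ^ 2))
    (h : Tendsto (fun k : ℕ => ∫⁻ E in Set.Icc (-((k : ℝ) + 1)) ((k : ℝ) + 1),
      ENNReal.ofReal (η k) * F k E) atTop (𝓝 0)) (hη1 : ∀ k, η k ≤ 1) (E : ℝ) : ν {E} = 0 := by
  refine atom_seq ν η hη (fun R => ?_) E
  have h4 := ENNReal.Tendsto.const_mul (a := 4) h (Or.inr (by norm_num))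
  rw [mul_zero] at h4
  refine tendsto_of_tendsto_of_tendsto_of_le_of_le' tendsto_const_nhds h4
    (Eventually.of_forall fun _ => bot_le) ?_
  filter_upwards [eventually_ge_atTop R] with k hk
  have hkR : (R : ℝ) ≤ k := by exact_mod_cast hk
  have := hη1 k
  refine (lemD ν (hη k) R).trans ?_
  have e1 : ENNReal.ofReal (4 * η k) = 4 * ENNReal.ofReal (η k) := by
    rw [ENNReal.ofReal_mul (by norm_num)]
    simp
  rw [e1, mul_assoc, lintegral_const_mul _ (hFm k)]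
  refine mul_le_mul_right (mul_le_mul_right ?_ _) _
  rw [setLIntegral_congr_fun (g := fun E' => ENNReal.ofReal
    (‖∫ r : ℝ, 1 / ((r : ℂ) - ⟨E', η k⟩) ∂ν‖ ^ 2)) measurableSet_Icc (fun E' _ => hF k E')]
  exact lintegral_mono_set (Set.Icc_subset_Icc (by linarith) (by linarith))

theorem measE {Ω : Type*} [MeasurableSpace Ω] {F : Ω → ℝ → ℝ≥0∞}
    (h : Measurable fun q : Ω × ℝ => F q.1 q.2) (ω : Ω) : Measurable (F ω) :=
  h.comp (measurable_prodMk_left (x := ω))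

theorem et_le_one (j : ℕ) : et j ≤ 1 := by
  unfold et
  exact pow_le_one₀ (by norm_num) (by norm_num)

theorem pick2 (m : Mo μ t) {ρ : ℝ → ℝ} {C : ℝ} (hκ : Dens (μ s(0, 0)) ρ C)
    (hlim : ∀ E : ℝ, Tendsto (fun j => ∫⁻ ω, ENNReal.ofReal (et j * ‖Gi (HS t ω) ⟨E, et j⟩ 0 0‖ ^ 2)
      ∂(Measure.infinitePi μ)) atTop (𝓝 0)) :
    ∃ j : ℕ → ℕ, ∀ᵐ ω ∂(Measure.infinitePi μ), Tendsto (fun k : ℕ =>
      ∫⁻ E in Set.Icc (-((k : ℝ) + 1)) ((k : ℝ) + 1),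
        ENNReal.ofReal (et (j k)) * (mS m).F2 (et (j k)) ω E) atTop (𝓝 0) :=
  seq_pick (Measure.infinitePi μ)
    (fun j q => ENNReal.ofReal (et j) * (mS m).F2 (et j) q.1 q.2)
    (fun j => ((mS m).F2_meas (et_pos j)).const_mul _) (ENNReal.ofReal (C * Real.pi))
    ENNReal.ofReal_ne_top (fun j E => F2_bound m hκ (et_pos j) E)
    (fun E => (hlim E).congr fun j => (F2_int m (et_pos j) E).symm)

theorem noat (m : Mo μ t) {ρ : ℝ → ℝ} {C : ℝ} (hκ : Dens (μ s(0, 0)) ρ C)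
    (hlim : ∀ E : ℝ, Tendsto (fun j => ∫⁻ ω, ENNReal.ofReal (et j * ‖Gi (HS t ω) ⟨E, et j⟩ 0 0‖ ^ 2)
      ∂(Measure.infinitePi μ)) atTop (𝓝 0)) :
    ∃ η : ℕ → ℝ, (∀ k, 0 < η k) ∧ ∀ᵐ ω ∂(Measure.infinitePi μ), ∀ ν : Measure ℝ,
      IsFiniteMeasure ν →
      (∀ k E, (mS m).F2 (η k) ω E = ENNReal.ofReal (‖∫ r : ℝ, 1 / ((r : ℂ) - ⟨E, η k⟩) ∂ν‖ ^ 2)) →
      ∀ E : ℝ, ν {E} = 0 := by
  obtain ⟨j, hj⟩ := pick2 m hκ hlim
  refine ⟨fun k => et (j k), fun k => et_pos _, ?_⟩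
  refine hj.mono fun ω hω ν hν hF E => ?_
  have hFm : ∀ k, Measurable ((mS m).F2 (et (j k)) ω) := fun k =>
    measE ((mS m).F2_meas (et_pos _)) ω
  refine atom_seq2 ν (fun k => et (j k)) (fun k => et_pos _)
    (fun k => (mS m).F2 (et (j k)) ω) hFm ?_ ?_ (fun k => et_le_one _) E
  · intro k E'
    exact hF k E'
  · exact hω

/-- Purely continuous spectrum. -/
theorem main_R (m : Mo μ t) {ρ : ℝ → ℝ} {C : ℝ} (hκ : Dens (μ s(0, 0)) ρ C)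
    (hsym : ∀ h : Zd d, h ≠ 0 → (μ s(0, h)).map (fun g => -g) = μ s(0, h))
    (hdiv : ∑' h : Zd d, S1 μ h = ∞) :
    ∀ᵐ ω ∂(Measure.infinitePi μ), ∃ hH : Adm (HS t ω),
      (∀ z : ℂ, z.im ≠ 0 → ∀ x, Ap (HS t ω) hH z x) ∧
      ∀ x, ∃ ν : Measure ℝ, IsProbabilityMeasure ν ∧ (∀ E : ℝ, ν {E} = 0) ∧
        ∀ z : ℂ, z.im ≠ 0 → ∀ U : E2 (Zd d), IsU _ hH z x U →
          U x = ∫ E : ℝ, 1 / ((E : ℂ) - z) ∂ν := by
  obtain ⟨η, hη, h1⟩ := noat m hκ fun E => lim7 m hκ E fun K α δ c j0 hδ hc hLB => by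
    have hδ' : (0 : ℝ) < δ := by exact_mod_cast hδ
    have hc' : (0 : ℝ) < c := by exact_mod_cast hc
    exact nullA m hκ hsym hdiv E K j0 hδ' hc' hLB
  exact (mS m).main η hη (fun ν => ∀ E : ℝ, ν {E} = 0) h1

end

end Pool.Agent.T2H19
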