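import Pool.Agent.T2H19.R12
import Pool.Agent.T2H19.Prof

/-! Transfer to random variables, and the power law profiles. -/

set_option autoImplicit false

namespace Pool.Agent.T2H19

open MeasureTheory ProbabilityTheory Filter Topology
open scoped BigOperators ENNReal

noncomputable section

theorem trans_ae {d : ℕ} {Ω : Type*} [MeasurableSpace Ω] (P : Measure Ω) [IsProbabilityMeasure P]
    (X : Sym2 (Zd d) → Ω → ℝ) (hX : ∀ e, Measurable (X e)) (hI : iIndepFun X P) {R : Om2 d → Prop}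
    (h : ∀ᵐ ω ∂(Measure.infinitePi fun e => P.map (X e)), R ω) :
    ∀ᵐ ω ∂P, R (fun e => X e ω) := by
  have h1 := (iIndepFun_iff_map_fun_eq_infinitePi_map hX).1 hI
  rw [← h1] at h
  exact ae_of_ae_map (measurable_pi_lambda _ hX).aemeasurable h

/-- The cubes. -/
def Qb (d k : ℕ) : Finset (Zd d) :=
  Fintype.piFinset fun _ : Fin d => Finset.Ioc (2 ^ k : ℤ) (2 ^ (k + 1))

theorem Qb_card (d k : ℕ) : (Qb d k).card = (2 ^ k) ^ d := by
  unfold Qb
  rw [Fintype.card_piFinset, Finset.prod_const, Finset.card_univ, Fintype.card_fin, Int.card_Ioc]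
  congr 1
  have : (2 ^ (k + 1) - 2 ^ k : ℤ) = ((2 ^ k : ℕ) : ℤ) := by
    push_cast
    ring
  rw [this]
  exact Int.toNat_natCast _

theorem Qb_norm {d k : ℕ} (hd : 0 < d) {h : Zd d} (hh : h ∈ Qb d k) :
    (2 : ℝ) ^ k < ‖h‖ ∧ ‖h‖ ≤ 2 ^ (k + 1) := by
  unfold Qb at hh
  rw [Fintype.mem_piFinset] at hh
  constructor
  · have h1 := (Finset.mem_Ioc.1 (hh ⟨0, hd⟩)).1
    refine lt_of_lt_of_le ?_ (norm_le_pi_norm h ⟨0, hd⟩)
    rw [Int.norm_eq_abs]
    refine lt_of_lt_of_le ?_ (le_abs_self _)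
    exact_mod_cast h1
  · rw [pi_norm_le_iff_of_nonneg (by positivity)]
    intro i
    have h1 := Finset.mem_Ioc.1 (hh i)
    rw [Int.norm_eq_abs, abs_of_nonneg]
    · exact_mod_cast h1.2
    · have : (0 : ℤ) < 2 ^ k := by positivity
      exact_mod_cast (this.trans h1.1).le

theorem not_summable_pow {d : ℕ} (hd : 0 < d) {β : ℝ} (hβ0 : 0 < β) (hβ : β ≤ d) :
    ¬ Summable fun h : Zd d => ‖h‖ ^ (-β) := by
  intro hs
  rw [summable_iff_vanishing_norm] at hs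
  obtain ⟨s, hs⟩ := hs ((1 / 2 : ℝ) ^ d) (by positivity)
  obtain ⟨B, hB⟩ : ∃ B : ℝ, ∀ h ∈ s, ‖h‖ ≤ B := by
    refine ⟨∑ h ∈ s, ‖h‖, fun h hh => ?_⟩
    exact Finset.single_le_sum (f := fun h : Zd d => ‖h‖) (fun _ _ => norm_nonneg _) hh
  obtain ⟨k, hk⟩ := pow_unbounded_of_one_lt B (by norm_num : (1 : ℝ) < 2)
  have h1 : Disjoint (Qb d k) s := by
    rw [Finset.disjoint_left]
    intro h h2 h3
    have := (Qb_norm hd h2).1
    linarith [hB h h3]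
  have h2 := hs _ h1
  have h3 : (1 / 2 : ℝ) ^ d ≤ ∑ h ∈ Qb d k, ‖h‖ ^ (-β) := by
    have h4 : ∀ h ∈ Qb d k, ((2 : ℝ) ^ (k + 1)) ^ (-(d : ℝ)) ≤ ‖h‖ ^ (-β) := by
      intro h hh
      have h5 := Qb_norm hd hh
      have h6 : (1 : ℝ) ≤ 2 ^ (k + 1) := one_le_pow₀ (by norm_num)
      calc ((2 : ℝ) ^ (k + 1)) ^ (-(d : ℝ)) ≤ ((2 : ℝ) ^ (k + 1)) ^ (-β) :=
            Real.rpow_le_rpow_of_exponent_le h6 (by linarith)
        _ ≤ ‖h‖ ^ (-β) := Real.rpow_le_rpow_of_nonpos (lt_trans (by positivity) h5.1) h5.2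
            (by linarith)
    have h7 := Finset.card_nsmul_le_sum _ _ _ h4
    refine le_trans (le_of_eq ?_) h7
    rw [Qb_card, nsmul_eq_mul, Real.rpow_neg (by positivity), Real.rpow_natCast]
    push_cast
    rw [one_div, inv_pow, pow_succ, mul_pow, mul_inv, ← mul_assoc, mul_inv_cancel₀ (by positivity),
      one_mul]
  have h8 := (le_abs_self (∑ h ∈ Qb d k, ‖h‖ ^ (-β)))
  rw [← Real.norm_eq_abs] at h8
  linarith

theorem tsum_top_of {α : Type*} {f : α → ℝ} (h0 : ∀ a, 0 ≤ f a) (h : ¬ Summable f) :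
    ∑' a, ENNReal.ofReal (f a) = ∞ := by
  by_contra h1
  refine h ((ENNReal.summable_toReal h1).congr fun a => ?_)
  rw [ENNReal.toReal_ofReal (h0 a)]

theorem tsum_ne_of {α : Type*} {f : α → ℝ} (h0 : ∀ a, 0 ≤ f a) (h : Summable f) :
    ∑' a, ENNReal.ofReal (f a) ≠ ∞ := by
  rw [← ENNReal.ofReal_tsum_of_nonneg h0 h]
  exact ENNReal.ofReal_ne_top

theorem gauss_dens {σ : ℝ} (hσ : σ ≠ 0) : ∃ (ρ : ℝ → ℝ) (C : ℝ), Continuous ρ ∧
    (∀ r, 0 ≤ ρ r ∧ ρ r ≤ C) ∧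
      (gaussianReal 0 1).map (fun r => σ * r) = volume.withDensity fun r => ENNReal.ofReal (ρ r) := by
  obtain ⟨v, hv⟩ : ∃ v : NNReal, v = NNReal.mk (σ ^ 2) (sq_nonneg _) * 1 := ⟨_, rfl⟩
  have hv0 : v ≠ 0 := by
    rw [hv, mul_one]
    intro h
    have h2 : σ ^ 2 = 0 := congrArg NNReal.toReal h
    exact hσ (by simpa using h2)
  refine ⟨gaussianPDFReal 0 v, (√(2 * Real.pi * (v : ℝ)))⁻¹, ?_, fun r => ⟨?_, ?_⟩, ?_⟩
  · unfold gaussianPDFReal
    fun_prop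
  · exact gaussianPDFReal_nonneg _ _ _
  · unfold gaussianPDFReal
    refine mul_le_of_le_one_right (by positivity) ?_
    rw [Real.exp_le_one_iff]
    have : 0 ≤ (r - 0) ^ 2 / (2 * (v : ℝ)) := by positivity
    rw [neg_div]
    linarith
  · have h1 := gaussianReal_map_const_mul (μ := 0) (v := 1) σ
    rw [mul_zero, ← hv] at h1
    refine h1.trans ?_
    rw [gaussianReal_of_var_ne_zero _ hv0]
    rfl

end

end Pool.Agent.T2H19
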