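import Pool.Agent.T2H19.R1

/-! Green functions at one and at two sites. -/

set_option autoImplicit false

namespace Pool.Agent.T2H19

open MeasureTheory Filter Topology Matrix
open scoped BigOperators ComplexConjugate ENNReal

noncomputable section

variable {d : ℕ} {H : Zd d → Zd d → ℂ}

theorem Gi_row (g : Good H) {z : ℂ} (hz : 0 < z.im) (x : Zd d) (F : Finset (Zd d)) :
    z.im * ∑ y ∈ F, ‖Gi H z y x‖ ^ 2 ≤ (Gi H z x x).im := by
  simp only [Gi_eq g hz.ne']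
  rw [← norm_Uc g hz.ne' x]
  refine mul_le_mul_of_nonneg_left ?_ hz.le
  rw [norm2]
  exact (sm2 (Uc g hz.ne' x)).sum_le_tsum F fun _ _ => by positivity

theorem Gi_pos (g : Good H) {z : ℂ} (hz : 0 < z.im) (x : Zd d) : 0 < (Gi H z x x).im := by
  rw [Gi_eq g hz.ne']
  exact Uc_pos g hz x

theorem Gi_ne (g : Good H) {z : ℂ} (hz : 0 < z.im) (x : Zd d) : Gi H z x x ≠ 0 := by
  intro h
  have := Gi_pos g hz x
  rw [h] at this
  simp at this

theorem Gi_le (g : Good H) {z : ℂ} (hz : 0 < z.im) (x : Zd d) : z.im * ‖Gi H z x x‖ ≤ 1 := by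
  have h1 := Gi_row g hz x {x}
  rw [Finset.sum_singleton] at h1
  have h2 := (le_abs_self _).trans (Complex.abs_im_le_norm (Gi H z x x))
  have h3 : 0 < ‖Gi H z x x‖ := norm_pos_iff.2 (Gi_ne g hz x)
  have h4 : z.im * ‖Gi H z x x‖ * ‖Gi H z x x‖ ≤ 1 * ‖Gi H z x x‖ := by nlinarith
  exact le_of_mul_le_mul_right h4 h3

/-- Squared norm of the normalized column. -/
def kap (H : Zd d → Zd d → ℂ) (z : ℂ) (x : Zd d) : ℝ :=
  (Gi H z x x).im / (z.im * ‖Gi H z x x‖ ^ 2)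

/-- The self-energy up to the potential. -/
def sf (H : Zd d → Zd d → ℂ) (z : ℂ) (x : Zd d) : ℂ := -(Gi H z x x)⁻¹

theorem kap_one (g : Good H) {z : ℂ} (hz : 0 < z.im) (x : Zd d) : 1 ≤ kap H z x := by
  have h1 := Gi_row g hz x {x}
  rw [Finset.sum_singleton] at h1
  have h3 : 0 < ‖Gi H z x x‖ := norm_pos_iff.2 (Gi_ne g hz x)
  unfold kap
  rw [le_div_iff₀ (by positivity), one_mul]
  exact h1

theorem kap_row (g : Good H) {z : ℂ} (hz : 0 < z.im) (x : Zd d) (F : Finset (Zd d)) :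
    ∑ y ∈ F, ‖Gi H z y x / Gi H z x x‖ ^ 2 ≤ kap H z x := by
  have h1 := Gi_row g hz x F
  have h3 : 0 < ‖Gi H z x x‖ := norm_pos_iff.2 (Gi_ne g hz x)
  unfold kap
  rw [le_div_iff₀ (by positivity)]
  simp only [norm_div, div_pow]
  rw [← Finset.sum_div]
  rw [div_mul_eq_mul_div, div_le_iff₀ (by positivity)]
  calc (∑ y ∈ F, ‖Gi H z y x‖ ^ 2) * (z.im * ‖Gi H z x x‖ ^ 2)
      = (z.im * ∑ y ∈ F, ‖Gi H z y x‖ ^ 2) * ‖Gi H z x x‖ ^ 2 := by ring
    _ ≤ _ := mul_le_mul_of_nonneg_right h1 (by positivity)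

theorem sf_im (g : Good H) {z : ℂ} (hz : 0 < z.im) (x : Zd d) :
    (sf H z x).im = z.im * kap H z x := by
  have h3 : 0 < ‖Gi H z x x‖ := norm_pos_iff.2 (Gi_ne g hz x)
  unfold sf kap
  rw [Complex.neg_im, Complex.inv_im, Complex.normSq_eq_norm_sq]
  field_simp

/-- The kernel bound. -/
theorem Gi_ker (g : Good H) {z w : ℂ} (hz : 0 < z.im) (hw : 0 < w.im) (x y : Zd d) :
    ‖Gi H z y x - conj (Gi H w x y)‖
      ≤ ‖z - conj w‖ * (√((Gi H z x x).im / z.im) * √((Gi H w y y).im / w.im)) := by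
  have h1 := inner_UU g hz.ne' hw.ne' x y
  rw [Gi_eq g hz.ne', Gi_eq g hw.ne', Gi_eq g hz.ne', Gi_eq g hw.ne', ← h1, norm_mul,
    ← norm_Uc g hz.ne' x, ← norm_Uc g hw.ne' y, mul_div_cancel_left₀ _ hz.ne',
    mul_div_cancel_left₀ _ hw.ne', Real.sqrt_sq (norm_nonneg _), Real.sqrt_sq (norm_nonneg _)]
  refine mul_le_mul_of_nonneg_left ?_ (norm_nonneg _)
  rw [mul_comm]
  exact norm_inner_le_norm _ _

theorem sf_ker (g : Good H) {z w : ℂ} (hz : 0 < z.im) (hw : 0 < w.im) (x : Zd d) :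
    ‖sf H z x - conj (sf H w x)‖ ≤ ‖z - conj w‖ * (√(kap H z x) * √(kap H w x)) := by
  have h1 := Gi_ker g hz hw x x
  have h3 : 0 < ‖Gi H z x x‖ := norm_pos_iff.2 (Gi_ne g hz x)
  have h4 : 0 < ‖Gi H w x x‖ := norm_pos_iff.2 (Gi_ne g hw x)
  have e : sf H z x - conj (sf H w x)
      = (Gi H z x x - conj (Gi H w x x)) / (Gi H z x x * conj (Gi H w x x)) := by
    unfold sf
    have h5 : conj (Gi H w x x) ≠ 0 := by
      rw [Ne, map_eq_zero]
      exact Gi_ne g hw x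
    have h6 := Gi_ne g hz x
    rw [map_neg, map_inv₀]
    field_simp
    ring
  rw [e, norm_div, norm_mul, RCLike.norm_conj, div_le_iff₀ (by positivity)]
  refine h1.trans (le_of_eq ?_)
  have e2 : ∀ v : ℂ, 0 < v.im → √(kap H v x) * ‖Gi H v x x‖ = √((Gi H v x x).im / v.im) := by
    intro v hv
    have h5 : 0 < ‖Gi H v x x‖ := norm_pos_iff.2 (Gi_ne g hv x)
    calc √(kap H v x) * ‖Gi H v x x‖ = √(kap H v x) * √(‖Gi H v x x‖ ^ 2) := by
          rw [Real.sqrt_sq h5.le]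
      _ = √(kap H v x * ‖Gi H v x x‖ ^ 2) := (Real.sqrt_mul' _ (sq_nonneg _)).symm
      _ = _ := by
          congr 1
          unfold kap
          field_simp
  rw [← e2 z hz, ← e2 w hw]
  ring

/-- Monotonicity. -/
theorem kap_mono (g : Good H) {E η η' : ℝ} (hη : 0 < η) (h : η ≤ η') (x : Zd d) :
    kap H ⟨E, η'⟩ x ≤ kap H ⟨E, η⟩ x := by
  have hη' : 0 < η' := hη.trans_le h
  have h1 := sf_ker g (z := ⟨E, η⟩) (w := ⟨E, η'⟩) hη hη' x
  have h2 : ‖(⟨E, η⟩ : ℂ) - conj (⟨E, η'⟩ : ℂ)‖ = η + η' := by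
    have : (⟨E, η⟩ : ℂ) - conj (⟨E, η'⟩ : ℂ) = ((η + η' : ℝ) : ℂ) * Complex.I := by
      apply Complex.ext <;> simp
    rw [this, norm_mul, Complex.norm_I, mul_one, Complex.norm_real,
      Real.norm_of_nonneg (by positivity)]
  rw [h2] at h1
  have h3 := (le_abs_self _).trans ((Complex.abs_im_le_norm _).trans h1)
  rw [Complex.sub_im, Complex.conj_im, sf_im g hη, sf_im g hη'] at h3
  simp only at h3
  have k1 := kap_one g (z := ⟨E, η⟩) hη x
  have k2 := kap_one g (z := ⟨E, η'⟩) hη' x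
  obtain ⟨a, ha⟩ : ∃ a, a = √(kap H ⟨E, η⟩ x) := ⟨_, rfl⟩
  obtain ⟨b, hb⟩ : ∃ b, b = √(kap H ⟨E, η'⟩ x) := ⟨_, rfl⟩
  have ha2 : kap H ⟨E, η⟩ x = a ^ 2 := by rw [ha, Real.sq_sqrt (by linarith)]
  have hb2 : kap H ⟨E, η'⟩ x = b ^ 2 := by rw [hb, Real.sq_sqrt (by linarith)]
  have ha0 : 0 < a := by rw [ha]; exact Real.sqrt_pos.2 (by linarith)
  have hb0 : 0 < b := by rw [hb]; exact Real.sqrt_pos.2 (by linarith)
  rw [← ha, ← hb, ha2, hb2] at h3
  rw [ha2, hb2]
  have h4 : (a - b) * (η * a - η' * b) ≤ 0 := by nlinarith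
  have h5 : b ≤ a := by
    by_contra hlt
    push Not at hlt
    have h6 : η * a - η' * b < 0 := by nlinarith
    have := mul_pos_of_neg_of_neg (sub_neg.2 hlt) h6
    linarith
  exact pow_le_pow_left₀ hb0.le h5 2

theorem sf_lim (g : Good H) {E η η' K : ℝ} (hη : 0 < η) (hη' : 0 < η') (x : Zd d)
    (h1 : kap H ⟨E, η⟩ x ≤ K) (h2 : kap H ⟨E, η'⟩ x ≤ K) :
    |(sf H ⟨E, η⟩ x).re - (sf H ⟨E, η'⟩ x).re| ≤ (η + η') * K := by
  have h3 := sf_ker g (z := ⟨E, η⟩) (w := ⟨E, η'⟩) hη hη' x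
  have h4 : ‖(⟨E, η⟩ : ℂ) - conj (⟨E, η'⟩ : ℂ)‖ = η + η' := by
    have : (⟨E, η⟩ : ℂ) - conj (⟨E, η'⟩ : ℂ) = ((η + η' : ℝ) : ℂ) * Complex.I := by
      apply Complex.ext <;> simp
    rw [this, norm_mul, Complex.norm_I, mul_one, Complex.norm_real,
      Real.norm_of_nonneg (by positivity)]
  rw [h4] at h3
  have h5 := (Complex.abs_re_le_norm _).trans h3
  rw [Complex.sub_re, Complex.conj_re] at h5
  refine h5.trans (mul_le_mul_of_nonneg_left ?_ (by positivity))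
  have k1 := kap_one g (z := ⟨E, η⟩) hη x
  have hK : 0 ≤ K := by linarith
  calc √(kap H ⟨E, η⟩ x) * √(kap H ⟨E, η'⟩ x) ≤ √K * √K :=
        mul_le_mul (Real.sqrt_le_sqrt h1) (Real.sqrt_le_sqrt h2) (Real.sqrt_nonneg _)
          (Real.sqrt_nonneg _)
    _ = K := Real.mul_self_sqrt hK

/-- The block of two sites. -/
def Bk (H : Zd d → Zd d → ℂ) (z : ℂ) (x y : Zd d) : Matrix (Fin 2) (Fin 2) ℂ :=
  !![Gi H z x x, Gi H z x y; Gi H z y x, Gi H z y y]

theorem Bk_det (g : Good H) {z : ℂ} (hz : 0 < z.im) {x y : Zd d} (hxy : x ≠ y) :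
    (Bk H z x y).det ≠ 0 := by
  intro h
  unfold Bk at h
  rw [Matrix.det_fin_two_of, Gi_eq g hz.ne', Gi_eq g hz.ne', Gi_eq g hz.ne', Gi_eq g hz.ne'] at h
  have hzz : z.im ≠ 0 := hz.ne'
  obtain ⟨U, hU⟩ : ∃ U, U = Uc g hzz x := ⟨_, rfl⟩
  obtain ⟨W, hW⟩ : ∃ W, W = Uc g hzz y := ⟨_, rfl⟩
  rw [← hU, ← hW] at h
  have h1 := inner_UU g hzz hzz x x
  have h2 := inner_UU g hzz hzz x y
  have h3 := inner_UU g hzz hzz y x
  have h4 := inner_UU g hzz hzz y y
  rw [← hU] at h1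
  rw [← hU, ← hW] at h2 h3
  rw [← hW] at h4
  obtain ⟨a, ha⟩ : ∃ a : ℂ, a = -(W x) := ⟨_, rfl⟩
  obtain ⟨b, hb⟩ : ∃ b : ℂ, b = U x := ⟨_, rfl⟩
  have e1 : a * U x + b * W x = 0 := by rw [ha, hb]; ring
  have e2 : a * U y + b * W y = 0 := by rw [ha, hb]; linear_combination h
  have hi : (z - conj z) * inner ℂ (a • U + b • W) (a • U + b • W) = 0 := by
    rw [inner_add_left, inner_add_right, inner_add_right, inner_smul_left, inner_smul_left,
      inner_smul_right, inner_smul_right, inner_smul_left, inner_smul_left, inner_smul_right,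
      inner_smul_right]
    have c1 := congrArg conj e1
    have c2 := congrArg conj e2
    rw [map_add, map_mul, map_mul, map_zero] at c1 c2
    linear_combination (conj a * a) * h1 + (conj a * b) * h3 + (conj b * a) * h2
      + (conj b * b) * h4 + conj a * e1 + conj b * e2 - a * c1 - b * c2
  have hzc : z - conj z ≠ 0 := by
    intro h5
    have := congrArg Complex.im h5
    simp only [Complex.sub_im, Complex.conj_im, Complex.zero_im] at this
    linarith
  have h5 : a • U + b • W = 0 := by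
    rcases mul_eq_zero.1 hi with h6 | h6
    · exact absurd h6 hzc
    · exact inner_self_eq_zero.1 h6
  have h6 := Uc_U g hzz x y
  have h7 := Uc_U g hzz y y
  rw [if_neg hxy.symm, ← hU] at h6
  rw [if_pos rfl, ← hW] at h7
  have h8 : inner ℂ (cl H g.adm y) (a • U + b • W) - z * (a • U + b • W : E2 (Zd d)) y = b := by
    rw [inner_add_right, inner_smul_right, inner_smul_right, lp.coeFn_add, Pi.add_apply,
      lp.coeFn_smul, lp.coeFn_smul, Pi.smul_apply, Pi.smul_apply, smul_eq_mul, smul_eq_mul]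
    linear_combination a * h6 + b * h7
  rw [h5, inner_zero_right] at h8
  have h9 : b = 0 := by rw [← h8]; simp
  have h10 := Gi_ne g hz x
  rw [Gi_eq g hzz, ← hU, ← hb] at h10
  exact h10 h9

/-- The inverse block. -/
def Mk (H : Zd d → Zd d → ℂ) (z : ℂ) (x y : Zd d) : Matrix (Fin 2) (Fin 2) ℂ := (Bk H z x y)⁻¹

theorem Mk_eq (H : Zd d → Zd d → ℂ) (z : ℂ) (x y : Zd d) :
    Mk H z x y = !![Gi H z y y / (Bk H z x y).det, -Gi H z x y / (Bk H z x y).det;
      -Gi H z y x / (Bk H z x y).det, Gi H z x x / (Bk H z x y).det] := by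
  unfold Mk
  rw [Matrix.inv_def, Ring.inverse_eq_inv']
  nth_rw 2 [Bk]
  rw [Matrix.adjugate_fin_two_of]
  ext i j
  fin_cases i <;> fin_cases j <;> simp [div_eq_inv_mul]

/-- Perturbations of the two sites. -/
theorem Mk_pert {H' : Zd d → Zd d → ℂ} (g : Good H) (g' : Good H') {z : ℂ} (hz : 0 < z.im)
    {x y : Zd d} (hxy : x ≠ y) (D : Zd d → Zd d → ℂ) (hD : ∀ u v, H' u v = H u v + D u v)
    (hS : ∀ u v, ¬ (u ∈ ({x, y} : Finset (Zd d)) ∧ v ∈ ({x, y} : Finset (Zd d))) → D u v = 0) :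
    Mk H' z x y = Mk H z x y + !![D x x, D x y; D y x, D y y] := by
  have h1 : Bk H' z x y = Bk H z x y - Bk H z x y * !![D x x, D x y; D y x, D y y]
      * Bk H' z x y := by
    have h2 : ∀ u b, Gi H' z u b = Gi H z u b
        - (Gi H z u x * (D x x * Gi H' z x b + D x y * Gi H' z y b)
          + Gi H z u y * (D y x * Gi H' z x b + D y y * Gi H' z y b)) := by
      intro u b
      have h3 := Uc_pert g g' hz.ne' {x, y} D hD hS b
      have h4 := congrArg (fun W : E2 (Zd d) => W u) h3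
      simp only at h4
      rw [Finset.sum_pair hxy, Finset.sum_pair hxy, Finset.sum_pair hxy] at h4
      rw [lp.coeFn_sub, Pi.sub_apply, lp.coeFn_add, Pi.add_apply, lp.coeFn_smul, lp.coeFn_smul,
        Pi.smul_apply, Pi.smul_apply, smul_eq_mul, smul_eq_mul] at h4
      simp only [Gi_eq g hz.ne', Gi_eq g' hz.ne']
      rw [h4]
      ring
    unfold Bk
    ext i j
    fin_cases i <;> fin_cases j <;>
      simp only [Matrix.sub_apply, Matrix.mul_apply, Fin.sum_univ_two, Matrix.of_apply,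
        Matrix.cons_val', Matrix.cons_val_zero, Matrix.cons_val_one, Matrix.cons_val_fin_one,
        Fin.zero_eta, Fin.mk_one, Fin.isValue]
    · linear_combination h2 x x
    · linear_combination h2 x y
    · linear_combination h2 y x
    · linear_combination h2 y y
  have hu : IsUnit (Bk H z x y).det := (Bk_det g hz hxy).isUnit
  have h2 : (Mk H z x y + !![D x x, D x y; D y x, D y y]) * Bk H' z x y = 1 := by
    have h3 : Bk H z x y * ((Mk H z x y + !![D x x, D x y; D y x, D y y]) * Bk H' z x y)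
        = Bk H z x y * 1 := by
      unfold Mk
      rw [← mul_assoc, mul_add, Matrix.mul_nonsing_inv _ hu, mul_one, add_mul, one_mul]
      conv_lhs => lhs; rw [h1]
      abel
    have h4 := congrArg (fun A => (Bk H z x y)⁻¹ * A) h3
    simp only [← mul_assoc] at h4
    rw [Matrix.nonsing_inv_mul _ hu, one_mul] at h4
    simpa using h4
  exact Matrix.inv_eq_left_inv h2

end

end Pool.Agent.T2H19
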