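import Pool.Agent.T2H19.R2

/-! Quantitative bounds for two sites. -/

set_option autoImplicit false

namespace Pool.Agent.T2H19

open MeasureTheory Filter Topology Matrix
open scoped BigOperators ComplexConjugate ENNReal

noncomputable section

variable {d : ℕ} {H : Zd d → Zd d → ℂ}

theorem sqrt_im (g : Good H) {z : ℂ} (hz : 0 < z.im) (x : Zd d) :
    √((Gi H z x x).im / z.im) = √(kap H z x) * ‖Gi H z x x‖ := by
  have h3 : 0 < ‖Gi H z x x‖ := norm_pos_iff.2 (Gi_ne g hz x)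
  calc √((Gi H z x x).im / z.im) = √(kap H z x * ‖Gi H z x x‖ ^ 2) := by
        congr 1
        unfold kap
        field_simp
    _ = √(kap H z x) * √(‖Gi H z x x‖ ^ 2) := Real.sqrt_mul' _ (sq_nonneg _)
    _ = _ := by rw [Real.sqrt_sq h3.le]

/-- Imaginary parts of the inverse block. -/
theorem Mk_ker (g : Good H) {z : ℂ} (hz : 0 < z.im) {x y : Zd d} (hxy : x ≠ y) {N : ℝ}
    (h0 : √((Gi H z x x).im / z.im) * ‖Mk H z x y 0 0‖
      + √((Gi H z y y).im / z.im) * ‖Mk H z x y 1 0‖ ≤ N)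
    (h1 : √((Gi H z x x).im / z.im) * ‖Mk H z x y 0 1‖
      + √((Gi H z y y).im / z.im) * ‖Mk H z x y 1 1‖ ≤ N) (i j : Fin 2) :
    ‖conj (Mk H z x y j i) - Mk H z x y i j‖ ≤ 2 * z.im * N ^ 2 := by
  have hu : IsUnit (Bk H z x y).det := (Bk_det g hz hxy).isUnit
  have hBM : Bk H z x y * Mk H z x y = 1 := Matrix.mul_nonsing_inv _ hu
  obtain ⟨B, hB⟩ : ∃ B, B = Bk H z x y := ⟨_, rfl⟩
  obtain ⟨M, hM⟩ : ∃ M, M = Mk H z x y := ⟨_, rfl⟩
  rw [← hB, ← hM] at hBM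
  rw [← hM] at h0 h1 ⊢
  obtain ⟨a, ha⟩ : ∃ a : Fin 2 → ℝ, a = ![√((Gi H z x x).im / z.im), √((Gi H z y y).im / z.im)] :=
    ⟨_, rfl⟩
  have ha0 : ∀ k, 0 ≤ a k := by
    intro k
    rw [ha]
    fin_cases k
    · exact Real.sqrt_nonneg _
    · exact Real.sqrt_nonneg _
  have hzz : ‖z - conj z‖ = 2 * z.im := by
    have : z - conj z = ((2 * z.im : ℝ) : ℂ) * Complex.I := by
      apply Complex.ext <;> simp
      ring
    rw [this, norm_mul, Complex.norm_I, mul_one, Complex.norm_real,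
      Real.norm_of_nonneg (by positivity)]
  have hb : ∀ k l, ‖(B - Bᴴ) k l‖ ≤ 2 * z.im * (a k * a l) := by
    have e : ∀ u v : Zd d, ‖Gi H z u v - conj (Gi H z v u)‖
        ≤ 2 * z.im * (√((Gi H z u u).im / z.im) * √((Gi H z v v).im / z.im)) := by
      intro u v
      have := Gi_ker g hz hz v u
      rw [hzz, mul_comm (√((Gi H z v v).im / z.im))] at this
      exact this
    intro k l
    rw [Matrix.sub_apply, Matrix.conjTranspose_apply, hB, ha]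
    fin_cases k <;> fin_cases l
    · exact e x x
    · exact e x y
    · exact e y x
    · exact e y y
  have hid : Mᴴ * (B - Bᴴ) * M = Mᴴ - M := by
    rw [mul_sub, sub_mul, mul_assoc, hBM, mul_one, ← Matrix.conjTranspose_mul, hBM,
      Matrix.conjTranspose_one, one_mul]
  have hn : ∀ i : Fin 2, ∑ k, a k * ‖M k i‖ ≤ N := by
    intro i
    rw [Fin.sum_univ_two, ha]
    fin_cases i
    · exact h0
    · exact h1
  have hn0 : ∀ i : Fin 2, 0 ≤ ∑ k, a k * ‖M k i‖ := fun i =>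
    Finset.sum_nonneg fun k _ => mul_nonneg (ha0 k) (norm_nonneg _)
  have h2 : conj (M j i) - M i j = (Mᴴ * (B - Bᴴ) * M) i j := by
    rw [hid, Matrix.sub_apply, Matrix.conjTranspose_apply]
    rfl
  rw [h2]
  calc ‖(Mᴴ * (B - Bᴴ) * M) i j‖ = ‖∑ l, (∑ k, conj (M k i) * (B - Bᴴ) k l) * M l j‖ := by
        rw [Matrix.mul_apply]
        simp only [Matrix.mul_apply, Matrix.conjTranspose_apply]
        rfl
    _ ≤ ∑ l, ∑ k, ‖M k i‖ * (2 * z.im * (a k * a l)) * ‖M l j‖ := by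
        refine (norm_sum_le _ _).trans (Finset.sum_le_sum fun l _ => ?_)
        rw [norm_mul, ← Finset.sum_mul]
        refine mul_le_mul_of_nonneg_right ?_ (norm_nonneg _)
        refine (norm_sum_le _ _).trans (Finset.sum_le_sum fun k _ => ?_)
        rw [norm_mul, RCLike.norm_conj]
        exact mul_le_mul_of_nonneg_left (hb k l) (norm_nonneg _)
    _ = 2 * z.im * ((∑ k, a k * ‖M k i‖) * ∑ l, a l * ‖M l j‖) := by
        rw [Finset.sum_mul_sum, Finset.mul_sum, Finset.sum_comm]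
        refine Finset.sum_congr rfl fun k _ => ?_
        rw [Finset.mul_sum]
        refine Finset.sum_congr rfl fun l _ => ?_
        ring
    _ ≤ 2 * z.im * N ^ 2 := by
        refine mul_le_mul_of_nonneg_left ?_ (by positivity)
        rw [sq]
        exact mul_le_mul (hn i) (hn j) (hn0 j) ((hn0 i).trans (hn i))

/-- The inverse block of two sites far from each other. -/
theorem Mk_small (g : Good H) {z : ℂ} (hz : 0 < z.im) {x y : Zd d} (hxy : x ≠ y) {K ε L : ℝ}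
    (hε : ε ≤ 1 / 2) (hK : kap H z x ≤ K) (hK' : kap H z y ≤ K)
    (hr : ‖Gi H z y x / Gi H z x x‖ ≤ ε) (hr' : ‖Gi H z x y / Gi H z y y‖ ≤ ε)
    (hL : ‖(Gi H z x x)⁻¹‖ ≤ L) (hL' : ‖(Gi H z y y)⁻¹‖ ≤ L) :
    (∀ i j, ‖conj (Mk H z x y j i) - Mk H z x y i j‖ ≤ 8 * K * z.im) ∧
    ‖Mk H z x y 0 0 - (Gi H z x x)⁻¹‖ ≤ 2 * ε * L ∧
    ‖Mk H z x y 1 1 - (Gi H z y y)⁻¹‖ ≤ 2 * ε * L ∧
    ‖Mk H z x y 0 1‖ ≤ 2 * ε * L ∧ ‖Mk H z x y 1 0‖ ≤ 2 * ε * L := by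
  have hε0 : 0 ≤ ε := (norm_nonneg _).trans hr
  have hL0 : 0 ≤ L := (norm_nonneg _).trans hL
  have k1 := kap_one g hz x
  have hK0 : 0 ≤ K := by linarith
  have gx := Gi_ne g hz x
  have gy := Gi_ne g hz y
  have hdet := Bk_det g hz hxy
  obtain ⟨a, ha⟩ : ∃ a, a = Gi H z x x := ⟨_, rfl⟩
  obtain ⟨b, hb⟩ : ∃ b, b = Gi H z x y := ⟨_, rfl⟩
  obtain ⟨c, hc⟩ : ∃ c, c = Gi H z y x := ⟨_, rfl⟩
  obtain ⟨e, he⟩ : ∃ e, e = Gi H z y y := ⟨_, rfl⟩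
  have hd : (Bk H z x y).det = a * e - b * c := by
    unfold Bk
    rw [Matrix.det_fin_two_of, ha, hb, hc, he]
  rw [hd] at hdet
  have hM := Mk_eq H z x y
  rw [hd, ← ha, ← hb, ← hc, ← he] at hM
  have m00 : Mk H z x y 0 0 = e / (a * e - b * c) := by rw [hM]; rfl
  have m01 : Mk H z x y 0 1 = -b / (a * e - b * c) := by rw [hM]; rfl
  have m10 : Mk H z x y 1 0 = -c / (a * e - b * c) := by rw [hM]; rfl
  have m11 : Mk H z x y 1 1 = a / (a * e - b * c) := by rw [hM]; rfl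
  rw [← ha, ← hc] at hr
  rw [← hb, ← he] at hr'
  rw [← ha] at hL gx
  rw [← he] at hL' gy
  obtain ⟨r, hrd⟩ : ∃ r, r = c / a := ⟨_, rfl⟩
  obtain ⟨r', hrd'⟩ : ∃ r', r' = b / e := ⟨_, rfl⟩
  rw [← hrd] at hr
  rw [← hrd'] at hr'
  obtain ⟨q, hq⟩ : ∃ q, q = 1 - r * r' := ⟨_, rfl⟩
  have hdq : a * e - b * c = a * e * q := by
    rw [hq, hrd, hrd']
    field_simp
  have hq1 : 3 / 4 ≤ ‖q‖ := by
    have h1 : ‖r * r'‖ ≤ 1 / 4 := by
      rw [norm_mul]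
      have := mul_le_mul hr hr' (norm_nonneg _) hε0
      nlinarith
    have h2 := norm_sub_norm_le (1 : ℂ) (r * r')
    rw [norm_one, ← hq] at h2
    linarith
  have hq0 : q ≠ 0 := by
    rw [← norm_pos_iff]
    linarith
  have hqi : ‖q⁻¹‖ ≤ 4 / 3 := by
    rw [norm_inv, inv_le_comm₀ (by linarith) (by norm_num)]
    linarith
  have f00 : Mk H z x y 0 0 = a⁻¹ * q⁻¹ := by rw [m00, hdq]; field_simp
  have f11 : Mk H z x y 1 1 = e⁻¹ * q⁻¹ := by rw [m11, hdq]; field_simp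
  have f01 : Mk H z x y 0 1 = -(r' * (a⁻¹ * q⁻¹)) := by rw [m01, hdq, hrd']; field_simp
  have f10 : Mk H z x y 1 0 = -(r * (e⁻¹ * q⁻¹)) := by rw [m10, hdq, hrd]; field_simp
  have sx := sqrt_im g hz x
  have sy := sqrt_im g hz y
  rw [← ha] at sx
  rw [← he] at sy
  have kx : √(kap H z x) ≤ √K := Real.sqrt_le_sqrt hK
  have ky : √(kap H z y) ≤ √K := Real.sqrt_le_sqrt hK'
  have hs0 : 0 ≤ √K := Real.sqrt_nonneg _
  have na : ‖a‖ * ‖a⁻¹‖ = 1 := by rw [← norm_mul, mul_inv_cancel₀ gx, norm_one]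
  have ne : ‖e‖ * ‖e⁻¹‖ = 1 := by rw [← norm_mul, mul_inv_cancel₀ gy, norm_one]
  have hN : 2 * z.im * (2 * √K) ^ 2 = 8 * K * z.im := by
    rw [mul_pow, Real.sq_sqrt hK0]; ring
  refine ⟨fun i j => ?_, ?_, ?_, ?_, ?_⟩
  · rw [← hN]
    refine Mk_ker g hz hxy ?_ ?_ i j
    · rw [← ha, ← he, sx, sy, f00, f10, norm_neg]
      simp only [norm_mul]
      have e1 : √(kap H z x) * ‖a‖ * (‖a⁻¹‖ * ‖q⁻¹‖) = √(kap H z x) * ‖q⁻¹‖ := by
        calc _ = √(kap H z x) * (‖a‖ * ‖a⁻¹‖) * ‖q⁻¹‖ := by ring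
          _ = _ := by rw [na, mul_one]
      have e2 : √(kap H z y) * ‖e‖ * (‖r‖ * (‖e⁻¹‖ * ‖q⁻¹‖)) = √(kap H z y) * (‖r‖ * ‖q⁻¹‖) := by
        calc _ = √(kap H z y) * (‖e‖ * ‖e⁻¹‖) * (‖r‖ * ‖q⁻¹‖) := by ring
          _ = _ := by rw [ne, mul_one]
      rw [e1, e2]
      have i1 : √(kap H z x) * ‖q⁻¹‖ ≤ √K * (4 / 3) :=
        mul_le_mul kx hqi (norm_nonneg _) hs0
      have i2 : √(kap H z y) * (‖r‖ * ‖q⁻¹‖) ≤ √K * ((1 / 2) * (4 / 3)) :=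
        mul_le_mul ky (mul_le_mul (hr.trans hε) hqi (norm_nonneg _) (by norm_num)) (by positivity) hs0
      linarith
    · rw [← ha, ← he, sx, sy, f01, f11, norm_neg]
      simp only [norm_mul]
      have e1 : √(kap H z x) * ‖a‖ * (‖r'‖ * (‖a⁻¹‖ * ‖q⁻¹‖)) = √(kap H z x) * (‖r'‖ * ‖q⁻¹‖) := by
        calc _ = √(kap H z x) * (‖a‖ * ‖a⁻¹‖) * (‖r'‖ * ‖q⁻¹‖) := by ring
          _ = _ := by rw [na, mul_one]
      have e2 : √(kap H z y) * ‖e‖ * (‖e⁻¹‖ * ‖q⁻¹‖) = √(kap H z y) * ‖q⁻¹‖ := by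
        calc _ = √(kap H z y) * (‖e‖ * ‖e⁻¹‖) * ‖q⁻¹‖ := by ring
          _ = _ := by rw [ne, mul_one]
      rw [e1, e2]
      have i1 : √(kap H z x) * (‖r'‖ * ‖q⁻¹‖) ≤ √K * ((1 / 2) * (4 / 3)) :=
        mul_le_mul kx (mul_le_mul (hr'.trans hε) hqi (norm_nonneg _) (by norm_num)) (by positivity) hs0
      have i2 : √(kap H z y) * ‖q⁻¹‖ ≤ √K * (4 / 3) :=
        mul_le_mul ky hqi (norm_nonneg _) hs0
      linarith
  · have e1 : Mk H z x y 0 0 - a⁻¹ = a⁻¹ * (q⁻¹ * (r * r')) := by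
      rw [f00]
      have : q⁻¹ * (r * r') = q⁻¹ - 1 := by
        have h5 : r * r' = 1 - q := by rw [hq]; ring
        rw [h5]
        field_simp
      rw [this]; ring
    rw [← ha, e1, norm_mul, norm_mul, norm_mul]
    have i1 : ‖q⁻¹‖ * (‖r‖ * ‖r'‖) ≤ 4 / 3 * (ε * (1 / 2)) :=
      mul_le_mul hqi (mul_le_mul hr (hr'.trans hε) (norm_nonneg _) hε0) (by positivity) (by norm_num)
    have i2 := mul_le_mul hL i1 (by positivity) hL0
    nlinarith [mul_nonneg hL0 hε0]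
  · have e1 : Mk H z x y 1 1 - e⁻¹ = e⁻¹ * (q⁻¹ * (r * r')) := by
      rw [f11]
      have : q⁻¹ * (r * r') = q⁻¹ - 1 := by
        have h5 : r * r' = 1 - q := by rw [hq]; ring
        rw [h5]
        field_simp
      rw [this]; ring
    rw [← he, e1, norm_mul, norm_mul, norm_mul]
    have i1 : ‖q⁻¹‖ * (‖r‖ * ‖r'‖) ≤ 4 / 3 * (ε * (1 / 2)) :=
      mul_le_mul hqi (mul_le_mul hr (hr'.trans hε) (norm_nonneg _) hε0) (by positivity) (by norm_num)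
    have i2 := mul_le_mul hL' i1 (by positivity) hL0
    nlinarith [mul_nonneg hL0 hε0]
  · rw [f01, norm_neg, norm_mul, norm_mul]
    have i1 := mul_le_mul hr' (mul_le_mul hL hqi (norm_nonneg _) hL0) (by positivity) hε0
    nlinarith [mul_nonneg hL0 hε0]
  · rw [f10, norm_neg, norm_mul, norm_mul]
    have i1 := mul_le_mul hr (mul_le_mul hL' hqi (norm_nonneg _) hL0) (by positivity) hε0
    nlinarith [mul_nonneg hL0 hε0]

/-- Pointwise bound near the resonance. -/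
theorem hyb_pt {A A' τ₁ τ₂ : ℂ} {K η σ s t : ℝ} (hK : 1 ≤ K) (hη : 0 < η) (hA : |A.im| ≤ K * η)
    (hA' : |A'.im| ≤ K * η) (hτ : ‖τ₂ - conj τ₁‖ ≤ 2 * K * η) (hσ : σ = ‖τ₁‖)
    (h4 : 4 * K * η ≤ σ) (ht1 : σ ≤ t - A'.re) (ht2 : t - A'.re ≤ 2 * σ)
    (hs : |(s - A.re) * (t - A'.re) - σ ^ 2| ≤ η * (t - A'.re)) :
    ‖((s : ℂ) - A) * ((t : ℂ) - A') - τ₁ * τ₂‖ ^ 4
      ≤ (26244 * K ^ 8 * η) * (η ^ 3 * (‖(t : ℂ) - A'‖ ^ 2 * ‖τ₂‖ ^ 2)) ∧
    0 < η ^ 3 * (‖(t : ℂ) - A'‖ ^ 2 * ‖τ₂‖ ^ 2) := by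
  have hσ0 : 0 < σ := lt_of_lt_of_le (by positivity) h4
  obtain ⟨u, hu⟩ : ∃ u, u = s - A.re := ⟨_, rfl⟩
  obtain ⟨v, hv⟩ : ∃ v, v = t - A'.re := ⟨_, rfl⟩
  rw [← hv] at ht1 ht2
  rw [← hu, ← hv] at hs
  have hv0 : 0 < v := hσ0.trans_le ht1
  have hησ : η ≤ σ := by nlinarith
  have hKη : 0 ≤ K * η := by positivity
  -- size of u
  have hu1 : |u| ≤ 2 * σ := by
    have h1 : |u * v| ≤ σ ^ 2 + η * v := by
      have := abs_le.1 hs
      rw [abs_le]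
      constructor <;> nlinarith
    rw [abs_mul, abs_of_pos hv0] at h1
    have h2 : |u| * v ≤ (2 * σ) * v := by nlinarith
    exact le_of_mul_le_mul_right h2 hv0
  have e1 : (s : ℂ) - A = (u : ℂ) - (A.im : ℂ) * Complex.I := by
    apply Complex.ext <;> simp [hu]
  have e2 : (t : ℂ) - A' = (v : ℂ) - (A'.im : ℂ) * Complex.I := by
    apply Complex.ext <;> simp [hv]
  obtain ⟨D, hD⟩ : ∃ D, D = ((s : ℂ) - A) * ((t : ℂ) - A') - τ₁ * τ₂ := ⟨_, rfl⟩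
  have hDn : ‖D‖ ≤ 9 * K ^ 2 * η * σ := by
    have e3 : D = ((u * v - σ ^ 2 : ℝ) : ℂ) + (-((u : ℂ) * ((A'.im : ℂ) * Complex.I)))
        + (-((v : ℂ) * ((A.im : ℂ) * Complex.I))) + (-((A.im * A'.im : ℝ) : ℂ))
        + (-(τ₁ * (τ₂ - conj τ₁))) := by
      have e4 : τ₁ * conj τ₁ = ((σ ^ 2 : ℝ) : ℂ) := by
        rw [Complex.mul_conj, Complex.normSq_eq_norm_sq, hσ]
      rw [hD, e1, e2]
      push_cast at e4 ⊢
      linear_combination (A.im : ℂ) * (A'.im : ℂ) * Complex.I_sq - e4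
    have n1 : ‖((u * v - σ ^ 2 : ℝ) : ℂ)‖ ≤ η * (2 * σ) := by
      rw [Complex.norm_real, Real.norm_eq_abs]
      exact hs.trans (mul_le_mul_of_nonneg_left ht2 hη.le)
    have n2 : ‖(-((u : ℂ) * ((A'.im : ℂ) * Complex.I)))‖ ≤ (2 * σ) * (K * η) := by
      rw [norm_neg, norm_mul, norm_mul, Complex.norm_I, mul_one, Complex.norm_real,
        Complex.norm_real, Real.norm_eq_abs, Real.norm_eq_abs]
      exact mul_le_mul hu1 hA' (abs_nonneg _) (by positivity)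
    have n3 : ‖(-((v : ℂ) * ((A.im : ℂ) * Complex.I)))‖ ≤ (2 * σ) * (K * η) := by
      rw [norm_neg, norm_mul, norm_mul, Complex.norm_I, mul_one, Complex.norm_real,
        Complex.norm_real, Real.norm_eq_abs, Real.norm_eq_abs, abs_of_pos hv0]
      exact mul_le_mul ht2 hA (abs_nonneg _) (by positivity)
    have n4 : ‖(-((A.im * A'.im : ℝ) : ℂ))‖ ≤ (K * η) * (K * η) := by
      rw [norm_neg, Complex.norm_real, Real.norm_eq_abs, abs_mul]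
      exact mul_le_mul hA hA' (abs_nonneg _) hKη
    have n5 : ‖(-(τ₁ * (τ₂ - conj τ₁)))‖ ≤ σ * (2 * K * η) := by
      rw [norm_neg, norm_mul, ← hσ]
      exact mul_le_mul_of_nonneg_left hτ hσ0.le
    rw [e3]
    refine (norm_add_le _ _).trans ?_
    refine (add_le_add ((norm_add_le _ _).trans (add_le_add ((norm_add_le _ _).trans
      (add_le_add ((norm_add_le _ _).trans (add_le_add n1 n2)) n3)) n4)) n5).trans ?_
    have h5 : K * η * (K * η) ≤ K ^ 2 * (η * σ) := by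
      have : K * η * (K * η) = K ^ 2 * (η * η) := by ring
      rw [this]
      refine mul_le_mul_of_nonneg_left ?_ (by positivity)
      exact mul_le_mul_of_nonneg_left hησ hη.le
    have h6 : 0 < η * σ := by positivity
    have h7 : K ≤ K ^ 2 := by nlinarith
    have h8 : 1 ≤ K ^ 2 := by nlinarith
    nlinarith
  have hvn : σ ≤ ‖(t : ℂ) - A'‖ := by
    have h1 := (le_abs_self _).trans (Complex.abs_re_le_norm ((t : ℂ) - A'))
    rw [Complex.sub_re, Complex.ofReal_re, ← hv] at h1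
    exact ht1.trans h1
  have hτn : σ / 2 ≤ ‖τ₂‖ := by
    have h1 := norm_sub_norm_le (conj τ₁) (conj τ₁ - τ₂)
    rw [sub_sub_cancel, RCLike.norm_conj, ← hσ, norm_sub_rev] at h1
    linarith
  rw [← hD]
  have h9 : ‖D‖ ^ 4 ≤ (9 * K ^ 2 * η * σ) ^ 4 := pow_le_pow_left₀ (norm_nonneg _) hDn 4
  have h10 : σ ^ 2 * (σ / 2) ^ 2 ≤ ‖(t : ℂ) - A'‖ ^ 2 * ‖τ₂‖ ^ 2 :=
    mul_le_mul (pow_le_pow_left₀ hσ0.le hvn 2) (pow_le_pow_left₀ (by positivity) hτn 2)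
      (by positivity) (by positivity)
  refine ⟨?_, lt_of_lt_of_le (by positivity) (mul_le_mul_of_nonneg_left h10 (by positivity))⟩
  calc ‖D‖ ^ 4 ≤ (9 * K ^ 2 * η * σ) ^ 4 := h9
    _ = (26244 * K ^ 8 * η) * (η ^ 3 * (σ ^ 2 * (σ / 2) ^ 2)) := by ring
    _ ≤ _ := by
        refine mul_le_mul_of_nonneg_left (mul_le_mul_of_nonneg_left h10 (by positivity))
          (by positivity)

/-- Lower bound for intervals. -/
def LB (ν : Measure ℝ) (c a₀ b₀ : ℝ) : Prop :=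
  ∀ a b : ℝ, a₀ ≤ a → a ≤ b → b ≤ b₀ → ENNReal.ofReal (c * (b - a)) ≤ ν (Set.Icc a b)

/-- The integrated bound. -/
theorem hyb {ν : Measure ℝ} {c α δ : ℝ} (hc : 0 < c) (hν : LB ν c (α - 4 * δ) (α + 4 * δ))
    {A A' τ₁ τ₂ : ℂ} {K η : ℝ} (hK : 1 ≤ K) (hη : 0 < η) (hA : |A.im| ≤ K * η)
    (hA' : |A'.im| ≤ K * η) (hτ : ‖τ₂ - conj τ₁‖ ≤ 2 * K * η)
    (hαA : |A.re - α| ≤ 2 * δ) (hαA' : |A'.re - α| ≤ 2 * δ)
    (h4 : 4 * K * η ≤ ‖τ₁‖) (hδ : ‖τ₁‖ ≤ δ) :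
    ENNReal.ofReal (c ^ 2 / (13122 * K ^ 8) * ‖τ₁‖) ≤
      ∫⁻ t, ∫⁻ s, ENNReal.ofReal (η ^ 3 * (‖(t : ℂ) - A'‖ ^ 2 * ‖τ₂‖ ^ 2))
        * (ENNReal.ofReal (‖((s : ℂ) - A) * ((t : ℂ) - A') - τ₁ * τ₂‖ ^ 4))⁻¹ ∂ν ∂ν := by
  obtain ⟨σ, hσ⟩ : ∃ σ, σ = ‖τ₁‖ := ⟨_, rfl⟩
  rw [← hσ] at h4 hδ ⊢
  have hσ0 : 0 < σ := lt_of_lt_of_le (by positivity) h4
  have hησ : 4 * η ≤ σ := by nlinarith
  obtain ⟨m, hm⟩ : ∃ m : ℝ, m = 26244 * K ^ 8 * η := ⟨_, rfl⟩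
  have hm0 : 0 < m := by rw [hm]; positivity
  rw [abs_le] at hαA hαA'
  have key : ∀ t ∈ Set.Icc (A'.re + σ) (A'.re + 2 * σ),
      ENNReal.ofReal (c * (2 * η)) * (ENNReal.ofReal m)⁻¹ ≤
      ∫⁻ s, ENNReal.ofReal (η ^ 3 * (‖(t : ℂ) - A'‖ ^ 2 * ‖τ₂‖ ^ 2))
        * (ENNReal.ofReal (‖((s : ℂ) - A) * ((t : ℂ) - A') - τ₁ * τ₂‖ ^ 4))⁻¹ ∂ν := by
    intro t ht
    obtain ⟨v, hv⟩ : ∃ v, v = t - A'.re := ⟨_, rfl⟩
    have hv1 : σ ≤ v := by rw [hv]; linarith [ht.1]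
    have hv2 : v ≤ 2 * σ := by rw [hv]; linarith [ht.2]
    have hv0 : 0 < v := hσ0.trans_le hv1
    have hq1 : σ ^ 2 / v ≤ σ := by
      rw [div_le_iff₀ hv0]; nlinarith
    have hq2 : 0 ≤ σ ^ 2 / v := by positivity
    obtain ⟨J, hJ⟩ : ∃ J, J = Set.Icc (A.re + σ ^ 2 / v - η) (A.re + σ ^ 2 / v + η) := ⟨_, rfl⟩
    have hνJ : ENNReal.ofReal (c * (2 * η)) ≤ ν J := by
      have := hν (A.re + σ ^ 2 / v - η) (A.re + σ ^ 2 / v + η) (by linarith) (by linarith)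
        (by linarith)
      rw [hJ]
      convert this using 3
      ring
    calc ENNReal.ofReal (c * (2 * η)) * (ENNReal.ofReal m)⁻¹
        ≤ ν J * (ENNReal.ofReal m)⁻¹ := mul_le_mul_left hνJ _
      _ = ∫⁻ _s in J, (ENNReal.ofReal m)⁻¹ ∂ν := by
          rw [setLIntegral_const, mul_comm]
      _ ≤ ∫⁻ s in J, ENNReal.ofReal (η ^ 3 * (‖(t : ℂ) - A'‖ ^ 2 * ‖τ₂‖ ^ 2))
        * (ENNReal.ofReal (‖((s : ℂ) - A) * ((t : ℂ) - A') - τ₁ * τ₂‖ ^ 4))⁻¹ ∂ν := by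
          refine setLIntegral_mono' (by rw [hJ]; exact measurableSet_Icc) fun s hs => ?_
          rw [hJ] at hs
          have hp := hyb_pt (A := A) (A' := A') (τ₁ := τ₁) (τ₂ := τ₂) (s := s) (t := t) hK hη hA hA'
            hτ hσ h4 (by rw [← hv]; exact hv1) (by rw [← hv]; exact hv2) (by
              rw [← hv]
              have e1 : (s - A.re) * v - σ ^ 2 = (s - A.re - σ ^ 2 / v) * v := by
                field_simp
              rw [e1, abs_mul, abs_of_pos hv0]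
              refine mul_le_mul_of_nonneg_right ?_ hv0.le
              rw [abs_le]
              constructor <;> linarith [hs.1, hs.2])
          rw [← hm] at hp
          obtain ⟨hp1, hp3⟩ := hp
          have hp2 := ENNReal.ofReal_le_ofReal hp1
          rw [ENNReal.ofReal_mul hm0.le] at hp2
          have hN0 : ENNReal.ofReal (η ^ 3 * (‖(t : ℂ) - A'‖ ^ 2 * ‖τ₂‖ ^ 2)) ≠ 0 := by
            rw [Ne, ENNReal.ofReal_eq_zero, not_le]
            exact hp3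
          have hm1 : ENNReal.ofReal m ≠ 0 := by
            rw [Ne, ENNReal.ofReal_eq_zero, not_le]
            exact hm0
          have hp4 := ENNReal.inv_le_inv.2 hp2
          rw [ENNReal.mul_inv (Or.inl hm1) (Or.inl ENNReal.ofReal_ne_top)] at hp4
          refine le_trans (le_of_eq ?_) (mul_le_mul_right hp4 _)
          rw [mul_left_comm, ENNReal.mul_inv_cancel hN0 ENNReal.ofReal_ne_top, mul_one]
      _ ≤ _ := setLIntegral_le_lintegral _ _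
  have hνT : ENNReal.ofReal (c * σ) ≤ ν (Set.Icc (A'.re + σ) (A'.re + 2 * σ)) := by
    have := hν (A'.re + σ) (A'.re + 2 * σ) (by linarith) (by linarith) (by linarith)
    convert this using 3
    ring
  calc ENNReal.ofReal (c ^ 2 / (13122 * K ^ 8) * σ)
      = ENNReal.ofReal (c * (2 * η)) * (ENNReal.ofReal m)⁻¹ * ENNReal.ofReal (c * σ) := by
        rw [← ENNReal.ofReal_inv_of_pos hm0, ← ENNReal.ofReal_mul (by positivity),
          ← ENNReal.ofReal_mul (by positivity), hm]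
        congr 1
        field_simp
        ring
    _ ≤ ENNReal.ofReal (c * (2 * η)) * (ENNReal.ofReal m)⁻¹
        * ν (Set.Icc (A'.re + σ) (A'.re + 2 * σ)) := mul_le_mul_right hνT _
    _ = ∫⁻ _t in Set.Icc (A'.re + σ) (A'.re + 2 * σ),
        ENNReal.ofReal (c * (2 * η)) * (ENNReal.ofReal m)⁻¹ ∂ν := by
        rw [setLIntegral_const]
    _ ≤ _ := (setLIntegral_mono' measurableSet_Icc key).trans (setLIntegral_le_lintegral _ _)

end

end Pool.Agent.T2H19
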