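import Pool.Agent.T2H19.R3
import Pool.Agent.T2H19.G5

/-! Random real symmetric matrices on the lattice with independent entries. -/

set_option autoImplicit false

namespace Pool.Agent.T2H19

open MeasureTheory ProbabilityTheory Filter Topology
open scoped BigOperators ComplexConjugate ENNReal

noncomputable section

/-- Configurations: one real variable for every unordered pair. -/
abbrev Om2 (d : ℕ) : Type := Sym2 (Zd d) → ℝ

/-- The random matrix. -/
def HS {d : ℕ} (t : Zd d → ℝ) (ω : Om2 d) (x y : Zd d) : ℂ := ((t (x - y) + ω s(x, y) : ℝ) : ℂ)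

/-- Second moments. -/
def S2 {d : ℕ} (μ : Sym2 (Zd d) → Measure ℝ) (h : Zd d) : ℝ≥0∞ :=
  if h = 0 then 0 else ∫⁻ r, ENNReal.ofReal (r ^ 2) ∂(μ s(0, h))

/-- Conditions on the model. -/
structure Mo {d : ℕ} (μ : Sym2 (Zd d) → Measure ℝ) (t : Zd d → ℝ) : Prop where
  sh : ∀ c x y : Zd d, μ s(x + c, y + c) = μ s(x, y)
  ts : ∀ h, t (-h) = t h
  tm : Summable fun h => t h ^ 2
  v2 : ∑' h : Zd d, S2 μ h ≠ ∞

/-- The shift. -/
def sS {d : ℕ} (c : Zd d) (ω : Om2 d) : Om2 d := fun e => ω (e.map (· + c))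

section

variable {d : ℕ} {μ : Sym2 (Zd d) → Measure ℝ} [∀ e, IsProbabilityMeasure (μ e)] {t : Zd d → ℝ}

theorem HS_s (t : Zd d → ℝ) (c : Zd d) (ω : Om2 d) (x y : Zd d) :
    HS t (sS c ω) x y = HS t ω (x + c) (y + c) := by
  unfold HS sS
  rw [Sym2.map_mk, add_sub_add_right_eq_sub]

theorem sS_mp (m : Mo μ t) (c : Zd d) :
    MeasurePreserving (sS c) (Measure.infinitePi μ) (Measure.infinitePi μ) := by
  refine ⟨measurable_pi_lambda _ fun _ => measurable_pi_apply _, ?_⟩
  have h := Measure.map_infinitePi_infinitePi_of_inj (P := μ)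
    (f := Sym2.map (· + c)) (Sym2.map.injective (add_left_injective c))
  refine h.trans ?_
  congr 1
  funext e
  induction e using Sym2.ind with
  | _ x y => exact m.sh c x y

theorem HS_cont (t : Zd d → ℝ) (x y : Zd d) : Continuous fun ω : Om2 d => HS t ω x y := by
  unfold HS
  exact Complex.continuous_ofReal.comp (continuous_const.add (continuous_apply _))

theorem HS_herm (hts : ∀ h, t (-h) = t h) (ω : Om2 d) (x y : Zd d) :
    HS t ω x y = conj (HS t ω y x) := by
  unfold HS
  rw [Complex.conj_ofReal, Sym2.eq_swap, ← neg_sub y x, hts]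

theorem evS_mp (e : Sym2 (Zd d)) :
    MeasurePreserving (fun ω : Om2 d => ω e) (Measure.infinitePi μ) (μ e) :=
  measurePreserving_eval_infinitePi μ e

theorem mu_diff (m : Mo μ t) (x y : Zd d) : μ s(x, y) = μ s(0, x - y) := by
  have h := m.sh y 0 (x - y)
  rw [zero_add, sub_add_cancel] at h
  rw [← h, Sym2.eq_swap]

/-- The bounding profile. -/
def PS {d : ℕ} (μ : Sym2 (Zd d) → Measure ℝ) (t : Zd d → ℝ) (h : Zd d) : ℝ :=
  2 * t h ^ 2 + 2 * (S2 μ h).toReal

theorem PS_nonneg (μ : Sym2 (Zd d) → Measure ℝ) (t : Zd d → ℝ) (h : Zd d) : 0 ≤ PS μ t h := by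
  unfold PS
  positivity

theorem PS_summable (m : Mo μ t) : Summable (PS μ t) := by
  unfold PS
  exact (m.tm.mul_left 2).add ((ENNReal.summable_toReal m.v2).mul_left 2)

theorem lint_HS (m : Mo μ t) {x y : Zd d} (hxy : x ≠ y) :
    ∫⁻ ω, ENNReal.ofReal (‖HS t ω x y‖ ^ 2) ∂(Measure.infinitePi μ)
      ≤ ENNReal.ofReal (PS μ t (x - y)) := by
  have h0 : x - y ≠ 0 := sub_ne_zero.2 hxy
  have h1 := (evS_mp (μ := μ) s(x, y)).lintegral_comp
    (f := fun r : ℝ => ENNReal.ofReal ((t (x - y) + r) ^ 2)) (by fun_prop)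
  have e1 : ∀ ω : Om2 d, ENNReal.ofReal (‖HS t ω x y‖ ^ 2)
      = ENNReal.ofReal ((t (x - y) + ω s(x, y)) ^ 2) := by
    intro ω
    unfold HS
    rw [Complex.norm_real, Real.norm_eq_abs, sq_abs]
  simp only [e1]
  rw [h1, mu_diff m x y]
  have h2 : S2 μ (x - y) = ∫⁻ r, ENNReal.ofReal (r ^ 2) ∂(μ s(0, x - y)) := by
    unfold S2
    rw [if_neg h0]
  have h3 : S2 μ (x - y) ≠ ∞ := ENNReal.ne_top_of_tsum_ne_top m.v2 _
  calc ∫⁻ r, ENNReal.ofReal ((t (x - y) + r) ^ 2) ∂(μ s(0, x - y))
      ≤ ∫⁻ r, (ENNReal.ofReal (2 * t (x - y) ^ 2) + 2 * ENNReal.ofReal (r ^ 2))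
          ∂(μ s(0, x - y)) := by
        refine lintegral_mono fun r => ?_
        have e2 : (2 : ℝ≥0∞) = ENNReal.ofReal 2 := by simp
        rw [e2, ← ENNReal.ofReal_mul (by norm_num), ← ENNReal.ofReal_add (by positivity)
          (by positivity)]
        refine ENNReal.ofReal_le_ofReal ?_
        nlinarith [sq_nonneg (t (x - y) - r)]
    _ = ENNReal.ofReal (2 * t (x - y) ^ 2) + 2 * S2 μ (x - y) := by
        rw [lintegral_add_left measurable_const, lintegral_const, measure_univ, mul_one,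
          lintegral_const_mul _ (by fun_prop), h2]
    _ = ENNReal.ofReal (PS μ t (x - y)) := by
        unfold PS
        rw [ENNReal.ofReal_add (by positivity) (by positivity), ENNReal.ofReal_mul (p := 2)
          (q := (S2 μ (x - y)).toReal) (by norm_num), ENNReal.ofReal_toReal h3]
        simp

theorem HS_sm (m : Mo μ t) :
    ∀ᵐ ω ∂(Measure.infinitePi μ), ∀ y, Summable fun x => ‖HS t ω x y‖ ^ 2 := by
  rw [ae_all_iff]
  intro y
  obtain ⟨q, hq⟩ : ∃ q : Zd d → Om2 d → ℂ, q = fun x ω => if x = y then 0 else HS t ω x y := ⟨_, rfl⟩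
  have hqm : ∀ x, Measurable (q x) := by
    intro x
    rw [hq]
    by_cases h : x = y
    · simp only [if_pos h]; exact measurable_const
    · simp only [if_neg h]; exact (HS_cont t x y).measurable
  have hqm2 : ∀ x, Measurable fun ω => ENNReal.ofReal (‖q x ω‖ ^ 2) := fun x =>
    ((hqm x).norm.pow_const 2).ennreal_ofReal
  have hlt : ∫⁻ ω, ∑' x, ENNReal.ofReal (‖q x ω‖ ^ 2) ∂(Measure.infinitePi μ) < ∞ := by
    rw [lintegral_tsum (fun x => (hqm2 x).aemeasurable)]
    have h2 : ∀ x, ∫⁻ ω, ENNReal.ofReal (‖q x ω‖ ^ 2) ∂(Measure.infinitePi μ)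
        ≤ ENNReal.ofReal (PS μ t (x - y)) := by
      intro x
      rw [hq]
      by_cases h : x = y
      · simp [h]
      · simp only [if_neg h]
        exact lint_HS m h
    refine (ENNReal.tsum_le_tsum h2).trans_lt ?_
    have h3 : Summable fun x : Zd d => PS μ t (x - y) :=
      ((Equiv.subRight y).summable_iff (f := fun x => PS μ t x)).2 (PS_summable m)
    rw [← ENNReal.ofReal_tsum_of_nonneg (fun x => PS_nonneg μ t _) h3]
    exact ENNReal.ofReal_lt_top
  filter_upwards [ae_lt_top (Measurable.tsum hqm2) hlt.ne] with ω hp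
  have hs : Summable fun x => ‖q x ω‖ ^ 2 := by
    have h2 := ENNReal.summable_toReal hp.ne
    refine h2.congr fun x => ?_
    rw [ENNReal.toReal_ofReal (by positivity)]
  have hcof : (fun x => ‖HS t ω x y‖ ^ 2) =ᶠ[cofinite] fun x => ‖q x ω‖ ^ 2 := by
    have : {y}ᶜ ∈ (cofinite : Filter (Zd d)) := (Set.finite_singleton y).compl_mem_cofinite
    filter_upwards [this] with x hx
    have hx' : x ≠ y := hx
    rw [hq]
    simp only [if_neg hx']
  exact (summable_congr_cofinite hcof).2 hs

/-- The averaged error. -/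
def DS {d : ℕ} (μ : Sym2 (Zd d) → Measure ℝ) (t : Zd d → ℝ) (n : ℕ) : ℝ :=
  ∑' h : Zd d, PS μ t h * ((Th d n h : ℝ) / (2 * n + 1 : ℝ) ^ d)

theorem DS_tendsto (m : Mo μ t) : Tendsto (DS μ t) atTop (𝓝 0) := by
  have h1 : Tendsto (fun n : ℕ => ∑' h : Zd d, PS μ t h * ((Th d n h : ℝ) / (2 * n + 1 : ℝ) ^ d))
      atTop (𝓝 (∑' _h : Zd d, 0)) := by
    refine tendsto_tsum_of_dominated_convergence (PS_summable m) (fun h => ?_)
      (Eventually.of_forall fun n h => ?_)
    · have := (Th_tendsto d h).const_mul (PS μ t h)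
      rwa [mul_zero] at this
    · rw [Real.norm_of_nonneg (mul_nonneg (PS_nonneg μ t _) (by positivity))]
      calc PS μ t h * ((Th d n h : ℝ) / (2 * n + 1 : ℝ) ^ d) ≤ PS μ t h * 1 :=
            mul_le_mul_of_nonneg_left (Th_le_one d n h) (PS_nonneg μ t _)
        _ = _ := mul_one _
  rw [tsum_zero] at h1
  exact h1

theorem sum_S (m : Mo μ t) (n : ℕ) :
    ∑ v : TV d n, ∑' w : Zd d, (if nm w ≤ n then 0 else ENNReal.ofReal (PS μ t (w - lf v)))
      ≤ ENNReal.ofReal ((2 * n + 1 : ℝ) ^ d * DS μ t n) := by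
  have hsm : Summable fun h : Zd d => PS μ t h * (Th d n h : ℝ) := by
    refine Summable.of_nonneg_of_le (fun h => mul_nonneg (PS_nonneg μ t _) (by positivity))
      (fun h => ?_) ((PS_summable m).mul_right ((2 * n + 1 : ℝ) ^ d))
    refine mul_le_mul_of_nonneg_left ?_ (PS_nonneg μ t _)
    have := Th_le_one d n h
    rwa [div_le_one (by positivity)] at this
  have e4 : ∀ v : TV d n, ∑' w : Zd d, (if nm w ≤ n then 0 else ENNReal.ofReal (PS μ t (w - lf v)))
      = ∑' h : Zd d, (if nm (lf v + h) ≤ n then 0 else ENNReal.ofReal (PS μ t h)) := by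
    intro v
    rw [← (Equiv.addLeft (lf v)).tsum_eq]
    refine tsum_congr fun h => ?_
    simp only [Equiv.coe_addLeft, add_sub_cancel_left]
  have e1 : ((2 * n + 1 : ℝ) ^ d * DS μ t n) = ∑' h : Zd d, (PS μ t h * (Th d n h : ℝ)) := by
    unfold DS
    rw [← tsum_mul_left (a := (2 * n + 1 : ℝ) ^ d)]
    refine tsum_congr fun h => ?_
    field_simp
  refine le_of_eq ?_
  rw [e1, ENNReal.ofReal_tsum_of_nonneg (fun h =>
    (mul_nonneg (PS_nonneg μ t _) (by positivity))) hsm]
  simp only [e4]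
  rw [← Summable.tsum_finsetSum fun _ _ => ENNReal.summable]
  refine tsum_congr fun h => ?_
  have e3 : ∀ v : TV d n, (if nm (lf v + h) ≤ n then 0 else ENNReal.ofReal (PS μ t h))
      = if ¬ nm (lf v + h) ≤ n then ENNReal.ofReal (PS μ t h) else 0 := by
    intro v
    by_cases hv : nm (lf v + h) ≤ n
    · rw [if_pos hv, if_neg (not_not.2 hv)]
    · rw [if_neg hv, if_pos hv]
  simp only [e3]
  rw [← Finset.sum_filter, Finset.sum_const, nsmul_eq_mul]
  rw [mul_comm (PS μ t h), ← ENNReal.ofReal_natCast, ← ENNReal.ofReal_mul (by positivity)]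
  rfl

/-- The model. -/
def mS (m : Mo μ t) : Mdl d (Om2 d) (Measure.infinitePi μ) where
  H := HS t
  M := fun n ω => fun u v : TV d n => HS t ω (lf u) (lf v)
  sh := sS
  D := DS μ t
  Hc := HS_cont t
  Hh := HS_herm m.ts
  Hsm := HS_sm m
  Mc := fun n => continuous_matrix fun u v => HS_cont t (lf u) (lf v)
  Mh := fun n ω => by
    ext a b
    rw [Matrix.conjTranspose_apply, HS_herm m.ts ω (lf a) (lf b)]
    rfl
  shm := sS_mp m
  Hs := HS_s t
  Dt := DS_tendsto m
  bd := fun n => by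
    refine le_trans (Finset.sum_le_sum fun v _ => ENNReal.tsum_le_tsum fun w => ?_) (sum_S m n)
    by_cases h : nm w ≤ n
    · simp only [if_pos h, lf_qt w h, sub_self, norm_zero]
      simp
    · simp only [if_neg h, sub_zero]
      refine lint_HS m ?_
      rintro rfl
      exact h (nm_lf v)

theorem good_ae (m : Mo μ t) : ∀ᵐ ω ∂(Measure.infinitePi μ), Good (HS t ω) := by
  filter_upwards [(mS m).ap_all, (mS m).adm_ae] with ω h1 h2
  exact ⟨h2, h1 h2⟩

/-- Resampling of one variable. -/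
theorem updS_mp (e : Sym2 (Zd d)) :
    MeasurePreserving (fun q : Om2 d × ℝ => Function.update q.1 e q.2)
      ((Measure.infinitePi μ).prod (μ e)) (Measure.infinitePi μ) := by
  classical
  have hm : Measurable fun q : Om2 d × ℝ => Function.update q.1 e q.2 := by
    refine measurable_pi_lambda _ fun i => ?_
    by_cases h : i = e
    · subst h
      simp only [Function.update_self]
      exact measurable_snd
    · simp only [Function.update_of_ne h]
      exact (measurable_pi_apply i).comp measurable_fst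
  refine ⟨hm, ?_⟩
  refine Measure.eq_infinitePi (μ := μ) fun s T hT => ?_
  have hms : MeasurableSet (Set.pi (s : Set (Sym2 (Zd d))) T) :=
    MeasurableSet.pi s.countable_toSet fun i _ => hT i
  rw [Measure.map_apply hm hms]
  have e1 : (fun q : Om2 d × ℝ => Function.update q.1 e q.2) ⁻¹' (Set.pi (s : Set (Sym2 (Zd d))) T)
      = (Set.pi ((s.erase e : Finset (Sym2 (Zd d))) : Set (Sym2 (Zd d))) T)
        ×ˢ (if e ∈ s then T e else Set.univ) := by
    ext ⟨ω, r⟩
    simp only [Set.mem_preimage, Set.mem_pi, Set.mem_prod, Finset.mem_coe, Finset.mem_erase]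
    constructor
    · intro h
      refine ⟨fun i hi => ?_, ?_⟩
      · have := h i hi.2
        rwa [Function.update_of_ne hi.1] at this
      · split_ifs with he
        · have := h e he
          rwa [Function.update_self] at this
        · trivial
    · rintro ⟨h1, h2⟩ i hi
      by_cases h : i = e
      · subst h
        rw [Function.update_self]
        rwa [if_pos hi] at h2
      · rw [Function.update_of_ne h]
        exact h1 i ⟨h, hi⟩
  rw [e1, Measure.prod_prod, Measure.infinitePi_pi μ fun i _ => hT i]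
  by_cases he : e ∈ s
  · rw [if_pos he, mul_comm, Finset.mul_prod_erase s (fun i => μ i (T i)) he]
  · rw [if_neg he, measure_univ, mul_one, Finset.erase_eq_of_notMem he]

end

end

end Pool.Agent.T2H19
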