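import Pool.Agent.T2H19.R4

/-! Resampling of the potential at two sites and of the hopping between them. -/

set_option autoImplicit false

namespace Pool.Agent.T2H19

open MeasureTheory ProbabilityTheory Filter Topology Matrix
open scoped BigOperators ComplexConjugate ENNReal

noncomputable section

variable {d : ℕ} {μ : Sym2 (Zd d) → Measure ℝ} [∀ e, IsProbabilityMeasure (μ e)] {t : Zd d → ℝ}

theorem gO_cont (hts : ∀ h, t (-h) = t h) (Λ : Finset (Zd d)) {z : ℂ} (hz : z.im ≠ 0)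
    (y x : Zd d) : Continuous fun ω : Om2 d => gO (HS t ω) Λ z y x := by
  have hherm : ∀ ω : Om2 d, (MD (HS t ω) Λ).IsHermitian := by
    intro ω
    ext a b
    rw [Matrix.conjTranspose_apply]
    unfold MD
    rw [HS_herm hts ω a b]
    rfl
  by_cases h : y ∈ Λ ∧ x ∈ Λ
  · have e : (fun ω : Om2 d => gO (HS t ω) Λ z y x)
        = fun ω => Gr (MD (HS t ω) Λ) z ⟨y, h.1⟩ ⟨x, h.2⟩ := by
      funext ω
      unfold gO
      rw [dif_pos h]
    rw [e]
    refine Gr_cont (fun ω : Om2 d => MD (HS t ω) Λ) (fun _ => z) hherm ?_ (fun _ => hz)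
      continuous_const _ _
    exact continuous_matrix fun a b => HS_cont t a b
  · have e : (fun ω : Om2 d => gO (HS t ω) Λ z y x) = fun _ => 0 := by
      funext ω
      unfold gO
      rw [dif_neg h]
    rw [e]
    exact continuous_const

theorem Gi_meas (hts : ∀ h, t (-h) = t h) {z : ℂ} (hz : z.im ≠ 0) (y x : Zd d) :
    Measurable fun ω : Om2 d => Gi (HS t ω) z y x := by
  unfold Gi
  exact (StronglyMeasurable.limUnder fun i =>
    ((gO_cont hts (bx d i) hz y x).measurable).stronglyMeasurable).measurable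

theorem Mk_meas (hts : ∀ h, t (-h) = t h) {z : ℂ} (hz : z.im ≠ 0) (x y : Zd d) (i j : Fin 2) :
    Measurable fun ω : Om2 d => Mk (HS t ω) z x y i j := by
  have h1 : Measurable fun ω : Om2 d => (Bk (HS t ω) z x y).det := by
    unfold Bk
    simp only [Matrix.det_fin_two_of]
    exact ((Gi_meas hts hz x x).mul (Gi_meas hts hz y y)).sub
      ((Gi_meas hts hz x y).mul (Gi_meas hts hz y x))
  simp only [Mk_eq]
  fin_cases i <;> fin_cases j
  · exact (Gi_meas hts hz y y).div h1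
  · exact (Gi_meas hts hz x y).neg.div h1
  · exact (Gi_meas hts hz y x).neg.div h1
  · exact (Gi_meas hts hz x x).div h1

/-- Change of the configuration at two sites. -/
theorem Mk_chg {ω ω' : Om2 d} (g : Good (HS t ω)) (g' : Good (HS t ω')) {z : ℂ} (hz : 0 < z.im)
    {x y : Zd d} (hxy : x ≠ y)
    (h : ∀ u v : Zd d, ¬ (u ∈ ({x, y} : Finset (Zd d)) ∧ v ∈ ({x, y} : Finset (Zd d))) →
      ω' s(u, v) = ω s(u, v)) :
    Mk (HS t ω') z x y = Mk (HS t ω) z x y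
      + !![((ω' s(x, x) - ω s(x, x) : ℝ) : ℂ), ((ω' s(x, y) - ω s(x, y) : ℝ) : ℂ);
        ((ω' s(x, y) - ω s(x, y) : ℝ) : ℂ), ((ω' s(y, y) - ω s(y, y) : ℝ) : ℂ)] := by
  have h1 := Mk_pert g g' hz hxy (fun u v => ((ω' s(u, v) - ω s(u, v) : ℝ) : ℂ))
    (fun u v => by
      unfold HS
      push_cast
      ring) (fun u v huv => by
      rw [h u v huv, sub_self, Complex.ofReal_zero])
  rw [h1, Sym2.eq_swap (a := y) (b := x)]

/-- The determinant of the inverse block. -/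
theorem Mk_det {H : Zd d → Zd d → ℂ} (g : Good H) {z : ℂ} (hz : 0 < z.im) {x y : Zd d}
    (hxy : x ≠ y) :
    Mk H z x y 0 0 * Mk H z x y 1 1 - Mk H z x y 0 1 * Mk H z x y 1 0 ≠ 0 ∧
    Gi H z x x = Mk H z x y 1 1
      / (Mk H z x y 0 0 * Mk H z x y 1 1 - Mk H z x y 0 1 * Mk H z x y 1 0) ∧
    Gi H z y x = -Mk H z x y 1 0
      / (Mk H z x y 0 0 * Mk H z x y 1 1 - Mk H z x y 0 1 * Mk H z x y 1 0) := by
  have hd := Bk_det g hz hxy
  have hM := Mk_eq H z x y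
  obtain ⟨D, hD⟩ : ∃ D, D = (Bk H z x y).det := ⟨_, rfl⟩
  have hD2 : D = Gi H z x x * Gi H z y y - Gi H z x y * Gi H z y x := by
    rw [hD]
    unfold Bk
    rw [Matrix.det_fin_two_of]
  rw [← hD] at hd hM
  have m00 : Mk H z x y 0 0 = Gi H z y y / D := by rw [hM]; rfl
  have m01 : Mk H z x y 0 1 = -Gi H z x y / D := by rw [hM]; rfl
  have m10 : Mk H z x y 1 0 = -Gi H z y x / D := by rw [hM]; rfl
  have m11 : Mk H z x y 1 1 = Gi H z x x / D := by rw [hM]; rfl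
  have e : Mk H z x y 0 0 * Mk H z x y 1 1 - Mk H z x y 0 1 * Mk H z x y 1 0 = 1 / D := by
    rw [m00, m01, m10, m11]
    field_simp
    rw [hD2]
    ring
  rw [e]
  refine ⟨one_div_ne_zero hd, ?_, ?_⟩
  · rw [m11]; field_simp
  · rw [m10]; field_simp

/-- The functional counting resonances. -/
def Fq (t : Zd d → ℝ) (E η : ℝ) (x y : Zd d) (ω : Om2 d) : ℝ≥0∞ :=
  ENNReal.ofReal (η ^ 3 * (‖Gi (HS t ω) ⟨E, η⟩ x x‖ ^ 2 * ‖Gi (HS t ω) ⟨E, η⟩ y x‖ ^ 2))

theorem Fq_meas (hts : ∀ h, t (-h) = t h) {E η : ℝ} (hη : 0 < η) (x y : Zd d) :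
    Measurable (Fq t E η x y) := by
  unfold Fq
  have h1 := Gi_meas (t := t) hts (z := ⟨E, η⟩) hη.ne' x x
  have h2 := Gi_meas (t := t) hts (z := ⟨E, η⟩) hη.ne' y x
  exact (((h1.norm.pow_const 2).mul (h2.norm.pow_const 2)).const_mul _).ennreal_ofReal

theorem Fq_eq {E η : ℝ} (hη : 0 < η) {x y : Zd d} (hxy : x ≠ y) {ω : Om2 d}
    (g : Good (HS t ω)) :
    Fq t E η x y ω = ENNReal.ofReal (η ^ 3 * (‖Mk (HS t ω) ⟨E, η⟩ x y 1 1‖ ^ 2
        * ‖Mk (HS t ω) ⟨E, η⟩ x y 1 0‖ ^ 2))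
      * (ENNReal.ofReal (‖Mk (HS t ω) ⟨E, η⟩ x y 0 0 * Mk (HS t ω) ⟨E, η⟩ x y 1 1
        - Mk (HS t ω) ⟨E, η⟩ x y 0 1 * Mk (HS t ω) ⟨E, η⟩ x y 1 0‖ ^ 4))⁻¹ := by
  obtain ⟨h1, h2, h3⟩ := Mk_det g (z := ⟨E, η⟩) hη hxy
  unfold Fq
  rw [h2, h3]
  obtain ⟨D, hD⟩ : ∃ D, D = Mk (HS t ω) ⟨E, η⟩ x y 0 0 * Mk (HS t ω) ⟨E, η⟩ x y 1 1
        - Mk (HS t ω) ⟨E, η⟩ x y 0 1 * Mk (HS t ω) ⟨E, η⟩ x y 1 0 := ⟨_, rfl⟩
  rw [← hD] at h1 ⊢
  have hD0 : 0 < ‖D‖ := norm_pos_iff.2 h1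
  rw [← ENNReal.ofReal_inv_of_pos (by positivity), ← ENNReal.ofReal_mul (by positivity)]
  congr 1
  rw [norm_div, norm_div, norm_neg]
  field_simp

/-- The good event for a pair of sites. -/
def GE (t : Zd d → ℝ) (E η K α δ : ℝ) (x y : Zd d) : Set (Om2 d) :=
  {ω | |(Mk (HS t ω) ⟨E, η⟩ x y 0 0).im| ≤ K * η ∧ |(Mk (HS t ω) ⟨E, η⟩ x y 1 1).im| ≤ K * η ∧
    ‖Mk (HS t ω) ⟨E, η⟩ x y 1 0 - conj (Mk (HS t ω) ⟨E, η⟩ x y 0 1)‖ ≤ 2 * K * η ∧
    |ω s(x, x) - (Mk (HS t ω) ⟨E, η⟩ x y 0 0).re - α| ≤ 2 * δ ∧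
    |ω s(y, y) - (Mk (HS t ω) ⟨E, η⟩ x y 1 1).re - α| ≤ 2 * δ}

theorem GE_meas (hts : ∀ h, t (-h) = t h) {E η : ℝ} (hη : 0 < η) (K α δ : ℝ) (x y : Zd d) :
    MeasurableSet (GE t E η K α δ x y) := by
  have h := fun i j => Mk_meas (t := t) hts (z := ⟨E, η⟩) hη.ne' x y i j
  have e : ∀ a : Sym2 (Zd d), Measurable fun ω : Om2 d => ω a := fun a => measurable_pi_apply a
  have hre : ∀ i j, Measurable fun ω : Om2 d => (Mk (HS t ω) ⟨E, η⟩ x y i j).re :=
    fun i j => Complex.measurable_re.comp (h i j)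
  have him : ∀ i j, Measurable fun ω : Om2 d => (Mk (HS t ω) ⟨E, η⟩ x y i j).im :=
    fun i j => Complex.measurable_im.comp (h i j)
  have habs : ∀ {f : Om2 d → ℝ}, Measurable f → Measurable fun ω => |f ω| := fun hf =>
    continuous_abs.measurable.comp hf
  unfold GE
  refine MeasurableSet.inter (measurableSet_le (habs (him 0 0)) measurable_const)
    (MeasurableSet.inter (measurableSet_le (habs (him 1 1)) measurable_const)
    (MeasurableSet.inter (measurableSet_le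
      ((h 1 0).sub (Complex.continuous_conj.measurable.comp (h 0 1))).norm measurable_const)
    (MeasurableSet.inter (measurableSet_le (habs (((e _).sub (hre 0 0)).sub_const _))
      measurable_const) (measurableSet_le (habs (((e _).sub (hre 1 1)).sub_const _))
      measurable_const))))

/-- Almost sure properties after resampling. -/
theorem ae_upd (e : Sym2 (Zd d)) {p : Om2 d → Prop}
    (hp : ∀ᵐ ω ∂(Measure.infinitePi μ), p ω) :
    ∀ᵐ ω ∂(Measure.infinitePi μ), ∀ᵐ r ∂(μ e), p (Function.update ω e r) := by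
  have := (updS_mp (μ := μ) e).quasiMeasurePreserving.ae hp
  exact Measure.ae_ae_of_ae_prod this

theorem lint_upd (e : Sym2 (Zd d)) {f : Om2 d → ℝ≥0∞} (hf : Measurable f) :
    ∫⁻ ω, f ω ∂(Measure.infinitePi μ)
      = ∫⁻ ω, ∫⁻ r, f (Function.update ω e r) ∂(μ e) ∂(Measure.infinitePi μ) := by
  have h := (updS_mp (μ := μ) e).lintegral_comp hf
  rw [← h]
  exact lintegral_prod _ (hf.comp (updS_mp (μ := μ) e).measurable).aemeasurable

theorem lint_upd_meas (e : Sym2 (Zd d)) {f : Om2 d → ℝ≥0∞} (hf : Measurable f) :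
    Measurable fun ω => ∫⁻ r, f (Function.update ω e r) ∂(μ e) :=
  (hf.comp (updS_mp (μ := μ) e).measurable).lintegral_prod_right'

theorem mu_diag (m : Mo μ t) (x : Zd d) : μ s(x, x) = μ s(0, 0) := by
  have := m.sh x 0 0
  rwa [zero_add] at this

/-- First lower bound. -/
theorem low0 (m : Mo μ t) {c α δ : ℝ} (hc : 0 < c)
    (hν : LB (μ s(0, 0)) c (α - 4 * δ) (α + 4 * δ)) {E η K : ℝ} (hη : 0 < η) (hK : 1 ≤ K)
    {x y : Zd d} (hxy : x ≠ y) :
    ENNReal.ofReal (c ^ 2 / (13122 * K ^ 8)) * ∫⁻ ω in GE t E η K α δ x y ∩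
        {ω | 4 * K * η ≤ ‖Mk (HS t ω) ⟨E, η⟩ x y 0 1‖ ∧ ‖Mk (HS t ω) ⟨E, η⟩ x y 0 1‖ ≤ δ},
        ENNReal.ofReal ‖Mk (HS t ω) ⟨E, η⟩ x y 0 1‖ ∂(Measure.infinitePi μ)
      ≤ ∫⁻ ω, Fq t E η x y ω ∂(Measure.infinitePi μ) := by
  have hF := Fq_meas (t := t) m.ts (E := E) hη x y
  have hMm := fun i j => Mk_meas (t := t) m.ts (z := ⟨E, η⟩) hη.ne' x y i j
  have hSm : MeasurableSet (GE t E η K α δ x y ∩
        {ω | 4 * K * η ≤ ‖Mk (HS t ω) ⟨E, η⟩ x y 0 1‖ ∧ ‖Mk (HS t ω) ⟨E, η⟩ x y 0 1‖ ≤ δ}) :=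
    (GE_meas m.ts hη K α δ x y).inter
      ((measurableSet_le measurable_const (hMm 0 1).norm).inter
        (measurableSet_le (hMm 0 1).norm measurable_const))
  rw [← lintegral_const_mul _ (hMm 0 1).norm.ennreal_ofReal, lint_upd s(x, x) hF,
    lint_upd s(y, y) (lint_upd_meas s(x, x) hF), ← lintegral_indicator hSm]
  have hg := good_ae m
  have hg1 : ∀ᵐ ω ∂(Measure.infinitePi μ), ∀ᵐ s ∂(μ s(y, y)), ∀ᵐ r ∂(μ s(x, x)),
      Good (HS t (Function.update (Function.update ω s(y, y) s) s(x, x) r)) :=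
    ae_upd s(y, y) (ae_upd s(x, x) hg)
  refine lintegral_mono_ae ?_
  filter_upwards [hg, hg1] with ω g hω
  by_cases hmem : ω ∈ GE t E η K α δ x y ∩
        {ω | 4 * K * η ≤ ‖Mk (HS t ω) ⟨E, η⟩ x y 0 1‖ ∧ ‖Mk (HS t ω) ⟨E, η⟩ x y 0 1‖ ≤ δ}
  swap
  · rw [Set.indicator_of_notMem hmem]
    exact bot_le
  rw [Set.indicator_of_mem hmem]
  obtain ⟨⟨h1, h2, h3, h4, h5⟩, h6, h7⟩ := hmem
  obtain ⟨A, hA⟩ : ∃ A : ℂ, A = (ω s(x, x) : ℂ) - Mk (HS t ω) ⟨E, η⟩ x y 0 0 := ⟨_, rfl⟩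
  obtain ⟨A', hA'⟩ : ∃ A' : ℂ, A' = (ω s(y, y) : ℂ) - Mk (HS t ω) ⟨E, η⟩ x y 1 1 := ⟨_, rfl⟩
  have hb := hyb hc hν (A := A) (A' := A') (τ₁ := Mk (HS t ω) ⟨E, η⟩ x y 0 1)
    (τ₂ := Mk (HS t ω) ⟨E, η⟩ x y 1 0) hK hη (by rw [hA]; simpa using h1)
    (by rw [hA']; simpa using h2) h3 (by rw [hA]; simpa using h4) (by rw [hA']; simpa using h5)
    h6 h7
  rw [ENNReal.ofReal_mul (by positivity)] at hb
  refine hb.trans ?_
  rw [mu_diag m x, mu_diag m y]
  rw [mu_diag m x, mu_diag m y] at hω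
  refine lintegral_mono_ae ?_
  filter_upwards [hω] with s hs
  refine lintegral_mono_ae ?_
  filter_upwards [hs] with r gr
  rw [Fq_eq hη hxy gr]
  have hxx : s(x, x) ≠ s(y, y) := by
    intro h
    rw [Sym2.eq_iff] at h
    rcases h with h | h
    · exact hxy h.1
    · exact hxy h.1
  have hyx : s(x, y) ≠ s(x, x) := by
    intro h
    rw [Sym2.eq_iff] at h
    rcases h with h | h
    · exact hxy h.2.symm
    · exact hxy h.2.symm
  have hyy : s(x, y) ≠ s(y, y) := by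
    intro h
    rw [Sym2.eq_iff] at h
    rcases h with h | h
    · exact hxy h.1
    · exact hxy h.1
  have hM := Mk_chg g gr (z := ⟨E, η⟩) hη hxy (fun u v huv => by
    rw [Function.update_of_ne, Function.update_of_ne]
    · intro h
      rw [Sym2.eq_iff] at h
      apply huv
      rcases h with h | h <;> simp [h.1, h.2]
    · intro h
      rw [Sym2.eq_iff] at h
      apply huv
      rcases h with h | h <;> simp [h.1, h.2])
  rw [Function.update_self, Function.update_of_ne hyx, Function.update_of_ne hyy,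
    Function.update_of_ne hxx.symm, Function.update_self, sub_self, Complex.ofReal_zero] at hM
  have m00 : Mk (HS t (Function.update (Function.update ω s(y, y) s) s(x, x) r)) ⟨E, η⟩ x y 0 0
      = (r : ℂ) - A := by
    rw [hM, Matrix.add_apply, hA]
    simp
    ring
  have m11 : Mk (HS t (Function.update (Function.update ω s(y, y) s) s(x, x) r)) ⟨E, η⟩ x y 1 1
      = (s : ℂ) - A' := by
    rw [hM, Matrix.add_apply, hA']
    simp
    ring
  have m01 : Mk (HS t (Function.update (Function.update ω s(y, y) s) s(x, x) r)) ⟨E, η⟩ x y 0 1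
      = Mk (HS t ω) ⟨E, η⟩ x y 0 1 := by
    rw [hM, Matrix.add_apply]
    simp
  have m10 : Mk (HS t (Function.update (Function.update ω s(y, y) s) s(x, x) r)) ⟨E, η⟩ x y 1 0
      = Mk (HS t ω) ⟨E, η⟩ x y 1 0 := by
    rw [hM, Matrix.add_apply]
    simp
  rw [m00, m11, m01, m10]

end

end Pool.Agent.T2H19
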