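import Pool.Agent.T2H19.R5

/-! Bounds for the number of resonances. -/

set_option autoImplicit false

namespace Pool.Agent.T2H19

open MeasureTheory ProbabilityTheory Filter Topology Matrix
open scoped BigOperators ComplexConjugate ENNReal

noncomputable section

variable {d : ℕ} {μ : Sym2 (Zd d) → Measure ℝ} [∀ e, IsProbabilityMeasure (μ e)] {t : Zd d → ℝ}

/-- Truncated first moment. -/
def e1 (κ : Measure ℝ) (δ : ℝ) : ℝ≥0∞ := ∫⁻ g in {g | |g| ≤ δ}, ENNReal.ofReal |g| ∂κ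

theorem abs_set_meas (δ : ℝ) : MeasurableSet {g : ℝ | |g| ≤ δ} :=
  measurableSet_le (continuous_abs.measurable) measurable_const

/-- Shifts do not decrease the first moment of symmetric variables. -/
theorem sym_shift {κ : Measure ℝ} [IsProbabilityMeasure κ] (hκ : κ.map (fun g => -g) = κ) (b : ℂ)
    {a δ : ℝ} :
    e1 κ δ ≤ ∫⁻ g in {g : ℝ | |g| ≤ δ ∧ a ≤ ‖(g : ℂ) + b‖}, ENNReal.ofReal ‖(g : ℂ) + b‖ ∂κ
      + ENNReal.ofReal a := by
  obtain ⟨S, hS⟩ : ∃ S : Set ℝ, S = {g : ℝ | |g| ≤ δ} := ⟨_, rfl⟩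
  have hSm : MeasurableSet S := by rw [hS]; exact abs_set_meas δ
  have hnm : Measurable fun g : ℝ => ‖(g : ℂ) + b‖ := by fun_prop
  have hf : Measurable fun g : ℝ => S.indicator (fun g : ℝ => ENNReal.ofReal ‖(g : ℂ) + b‖) g :=
    hnm.ennreal_ofReal.indicator hSm
  have hmp : MeasurePreserving (fun g : ℝ => -g) κ κ := ⟨measurable_neg, hκ⟩
  have h1 : ∫⁻ g in S, ENNReal.ofReal ‖(g : ℂ) + b‖ ∂κ
      = ∫⁻ g in S, ENNReal.ofReal ‖-(g : ℂ) + b‖ ∂κ := by
    rw [← lintegral_indicator hSm, ← lintegral_indicator hSm, ← hmp.lintegral_comp hf]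
    refine lintegral_congr fun g => ?_
    have hmem : -g ∈ S ↔ g ∈ S := by rw [hS]; simp
    by_cases h : g ∈ S
    · rw [Set.indicator_of_mem (hmem.2 h), Set.indicator_of_mem h]
      push_cast
      rfl
    · rw [Set.indicator_of_notMem (fun h2 => h (hmem.1 h2)), Set.indicator_of_notMem h]
  have h2 : 2 * e1 κ δ ≤ 2 * ∫⁻ g in S, ENNReal.ofReal ‖(g : ℂ) + b‖ ∂κ := by
    unfold e1
    rw [← hS]
    calc 2 * ∫⁻ g in S, ENNReal.ofReal |g| ∂κ = ∫⁻ g in S, 2 * ENNReal.ofReal |g| ∂κ := by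
          rw [lintegral_const_mul _ (by fun_prop)]
      _ ≤ ∫⁻ g in S, (ENNReal.ofReal ‖(g : ℂ) + b‖ + ENNReal.ofReal ‖-(g : ℂ) + b‖) ∂κ := by
          refine lintegral_mono fun g => ?_
          have e2 : (2 : ℝ≥0∞) = ENNReal.ofReal 2 := by simp
          rw [e2, ← ENNReal.ofReal_mul (by norm_num), ← ENNReal.ofReal_add (norm_nonneg _)
            (norm_nonneg _)]
          refine ENNReal.ofReal_le_ofReal ?_
          have h3 := norm_sub_le ((g : ℂ) + b) (-(g : ℂ) + b)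
          have e3 : (g : ℂ) + b - (-(g : ℂ) + b) = ((2 * g : ℝ) : ℂ) := by push_cast; ring
          rw [e3, Complex.norm_real, Real.norm_eq_abs, abs_mul, abs_two] at h3
          exact h3
      _ = _ := by
          rw [lintegral_add_left hnm.ennreal_ofReal, ← h1, two_mul]
  have h3 : e1 κ δ ≤ ∫⁻ g in S, ENNReal.ofReal ‖(g : ℂ) + b‖ ∂κ :=
    (ENNReal.mul_le_mul_iff_right (by norm_num) (by norm_num)).1 h2
  refine h3.trans ?_
  have hTm : MeasurableSet {g : ℝ | |g| ≤ δ ∧ a ≤ ‖(g : ℂ) + b‖} :=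
    (abs_set_meas δ).inter (measurableSet_le measurable_const hnm)
  rw [← lintegral_indicator hSm, ← lintegral_indicator hTm]
  calc ∫⁻ g, S.indicator (fun g : ℝ => ENNReal.ofReal ‖(g : ℂ) + b‖) g ∂κ
      ≤ ∫⁻ g, ({g : ℝ | |g| ≤ δ ∧ a ≤ ‖(g : ℂ) + b‖}.indicator
          (fun g : ℝ => ENNReal.ofReal ‖(g : ℂ) + b‖) g + ENNReal.ofReal a) ∂κ := by
        refine lintegral_mono fun g => ?_
        by_cases h : g ∈ S
        · rw [Set.indicator_of_mem h]
          by_cases h4 : a ≤ ‖(g : ℂ) + b‖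
          · rw [Set.indicator_of_mem]
            · exact le_self_add
            · exact ⟨by rw [hS] at h; exact h, h4⟩
          · push Not at h4
            exact (ENNReal.ofReal_le_ofReal h4.le).trans le_add_self
        · rw [Set.indicator_of_notMem h]
          exact bot_le
    _ = _ := by
        rw [lintegral_add_right _ measurable_const, lintegral_const, measure_univ, mul_one]

/-- Second lower bound. -/
theorem low1 (m : Mo μ t) {c α δ : ℝ} (hc : 0 < c)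
    (hν : LB (μ s(0, 0)) c (α - 4 * δ) (α + 4 * δ)) {E η K : ℝ} (hη : 0 < η) (hK : 1 ≤ K)
    {x y : Zd d} (hxy : x ≠ y) (hsym : (μ s(x, y)).map (fun g => -g) = μ s(x, y)) :
    ENNReal.ofReal (c ^ 2 / (13122 * K ^ 8)) * ((e1 (μ s(x, y)) (δ / 2)
        - ENNReal.ofReal (4 * K * η)) * (Measure.infinitePi μ) (GE t E η K α δ x y
          ∩ {ω | ‖Mk (HS t ω) ⟨E, η⟩ x y 0 1 - (ω s(x, y) : ℂ)‖ ≤ δ / 2}))
      ≤ ∫⁻ ω, Fq t E η x y ω ∂(Measure.infinitePi μ) := by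
  refine le_trans (mul_le_mul_right ?_ _) (low0 m hc hν hη hK hxy)
  have hMm := fun i j => Mk_meas (t := t) m.ts (z := ⟨E, η⟩) hη.ne' x y i j
  obtain ⟨T, hT⟩ : ∃ T : Set (Om2 d), T = GE t E η K α δ x y ∩
        {ω | 4 * K * η ≤ ‖Mk (HS t ω) ⟨E, η⟩ x y 0 1‖ ∧ ‖Mk (HS t ω) ⟨E, η⟩ x y 0 1‖ ≤ δ} :=
    ⟨_, rfl⟩
  obtain ⟨R, hR⟩ : ∃ R : Set (Om2 d), R = GE t E η K α δ x y
          ∩ {ω | ‖Mk (HS t ω) ⟨E, η⟩ x y 0 1 - (ω s(x, y) : ℂ)‖ ≤ δ / 2} := ⟨_, rfl⟩
  have hTm : MeasurableSet T := by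
    rw [hT]
    exact (GE_meas m.ts hη K α δ x y).inter
      ((measurableSet_le measurable_const (hMm 0 1).norm).inter
        (measurableSet_le (hMm 0 1).norm measurable_const))
  have hRm : MeasurableSet R := by
    rw [hR]
    refine (GE_meas m.ts hη K α δ x y).inter (measurableSet_le ?_ measurable_const)
    exact ((hMm 0 1).sub (Complex.measurable_ofReal.comp (measurable_pi_apply _))).norm
  rw [← hT, ← hR, ← lintegral_indicator hTm,
    lint_upd s(x, y) ((hMm 0 1).norm.ennreal_ofReal.indicator hTm)]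
  have hg := good_ae m
  have hg1 := ae_upd (μ := μ) s(x, y) hg
  rw [← lintegral_indicator_const hRm]
  refine lintegral_mono_ae ?_
  filter_upwards [hg, hg1] with ω g hω
  by_cases hmem : ω ∈ R
  swap
  · rw [Set.indicator_of_notMem hmem]
    exact bot_le
  rw [Set.indicator_of_mem hmem]
  rw [hR] at hmem
  obtain ⟨⟨h1, h2, h3, h4, h5⟩, h6⟩ := hmem
  have h6' : ‖Mk (HS t ω) ⟨E, η⟩ x y 0 1 - (ω s(x, y) : ℂ)‖ ≤ δ / 2 := h6
  obtain ⟨b, hb⟩ : ∃ b, b = Mk (HS t ω) ⟨E, η⟩ x y 0 1 - (ω s(x, y) : ℂ) := ⟨_, rfl⟩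
  rw [← hb] at h6'
  have hs := sym_shift hsym b (a := 4 * K * η) (δ := δ / 2)
  rw [tsub_le_iff_right]
  refine hs.trans (add_le_add ?_ le_rfl)
  rw [← lintegral_indicator]
  swap
  · have h8 : Measurable fun g : ℝ => ‖(g : ℂ) + b‖ := by fun_prop
    have h9 : MeasurableSet {g : ℝ | 4 * K * η ≤ ‖(g : ℂ) + b‖} :=
      measurableSet_le measurable_const h8
    exact (abs_set_meas (δ / 2)).inter h9
  refine lintegral_mono_ae ?_
  filter_upwards [hω] with r gr
  by_cases hr : r ∈ {g : ℝ | |g| ≤ δ / 2 ∧ 4 * K * η ≤ ‖(g : ℂ) + b‖}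
  swap
  · rw [Set.indicator_of_notMem hr]
    exact bot_le
  rw [Set.indicator_of_mem hr]
  have hyx : s(x, x) ≠ s(x, y) := by
    intro h
    rw [Sym2.eq_iff] at h
    rcases h with h | h
    · exact hxy h.2
    · exact hxy h.1
  have hyy : s(y, y) ≠ s(x, y) := by
    intro h
    rw [Sym2.eq_iff] at h
    rcases h with h | h
    · exact hxy h.1.symm
    · exact hxy h.2.symm
  have hM := Mk_chg g gr (z := ⟨E, η⟩) hη hxy (fun u v huv => by
    rw [Function.update_of_ne]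
    intro h
    rw [Sym2.eq_iff] at h
    apply huv
    rcases h with h | h <;> simp [h.1, h.2])
  rw [Function.update_self, Function.update_of_ne hyx, Function.update_of_ne hyy,
    sub_self, sub_self, Complex.ofReal_zero] at hM
  have m00 : Mk (HS t (Function.update ω s(x, y) r)) ⟨E, η⟩ x y 0 0
      = Mk (HS t ω) ⟨E, η⟩ x y 0 0 := by
    rw [hM, Matrix.add_apply]
    simp
  have m11 : Mk (HS t (Function.update ω s(x, y) r)) ⟨E, η⟩ x y 1 1
      = Mk (HS t ω) ⟨E, η⟩ x y 1 1 := by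
    rw [hM, Matrix.add_apply]
    simp
  have m01 : Mk (HS t (Function.update ω s(x, y) r)) ⟨E, η⟩ x y 0 1 = (r : ℂ) + b := by
    rw [hM, Matrix.add_apply, hb]
    simp
    ring
  have m10 : Mk (HS t (Function.update ω s(x, y) r)) ⟨E, η⟩ x y 1 0
      = Mk (HS t ω) ⟨E, η⟩ x y 1 0 + ((r : ℂ) - ω s(x, y)) := by
    rw [hM, Matrix.add_apply]
    simp
  have hmem2 : Function.update ω s(x, y) r ∈ T := by
    rw [hT]
    refine ⟨⟨?_, ?_, ?_, ?_, ?_⟩, ?_, ?_⟩
    · rw [m00]; exact h1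
    · rw [m11]; exact h2
    · rw [m10, m01, map_add, Complex.conj_ofReal]
      have e3 : Mk (HS t ω) ⟨E, η⟩ x y 1 0 + ((r : ℂ) - ω s(x, y)) - ((r : ℂ) + conj b)
          = Mk (HS t ω) ⟨E, η⟩ x y 1 0 - conj (Mk (HS t ω) ⟨E, η⟩ x y 0 1) := by
        rw [hb, map_sub, Complex.conj_ofReal]
        ring
      rw [e3]
      exact h3
    · rw [Function.update_of_ne hyx, m00]; exact h4
    · rw [Function.update_of_ne hyy, m11]; exact h5
    · rw [m01]; exact hr.2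
    · rw [m01]
      refine (norm_add_le _ _).trans ?_
      rw [Complex.norm_real, Real.norm_eq_abs]
      linarith [hr.1]
  rw [Set.indicator_of_mem hmem2, m01]

/-- The sum over the second site. -/
theorem up_sum (m : Mo μ t) {E η : ℝ} (hη : 0 < η) (x : Zd d) (F : Finset (Zd d)) :
    ∑ y ∈ F, ∫⁻ ω, Fq t E η x y ω ∂(Measure.infinitePi μ)
      ≤ ∫⁻ ω, ENNReal.ofReal (Gi (HS t ω) ⟨E, η⟩ x x).im ∂(Measure.infinitePi μ) := by
  rw [← lintegral_finsetSum _ fun y _ => Fq_meas m.ts hη x y]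
  refine lintegral_mono_ae ?_
  filter_upwards [good_ae m] with ω g
  unfold Fq
  rw [← ENNReal.ofReal_sum_of_nonneg fun _ _ => by positivity]
  refine ENNReal.ofReal_le_ofReal ?_
  have h1 := Gi_row g (z := ⟨E, η⟩) hη x F
  have h2 := Gi_le g (z := ⟨E, η⟩) hη x
  simp only at h1 h2
  rw [← Finset.mul_sum, ← Finset.mul_sum]
  obtain ⟨a, ha⟩ : ∃ a, a = ‖Gi (HS t ω) ⟨E, η⟩ x x‖ := ⟨_, rfl⟩
  rw [← ha] at h2 ⊢
  have ha0 : 0 ≤ a := by rw [ha]; exact norm_nonneg _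
  have h3 := (Gi_pos g (z := ⟨E, η⟩) hη x).le
  calc η ^ 3 * (a ^ 2 * ∑ y ∈ F, ‖Gi (HS t ω) ⟨E, η⟩ y x‖ ^ 2)
      = (η * a) ^ 2 * (η * ∑ y ∈ F, ‖Gi (HS t ω) ⟨E, η⟩ y x‖ ^ 2) := by ring
    _ ≤ 1 * (Gi (HS t ω) ⟨E, η⟩ x x).im := by
        refine mul_le_mul ?_ h1 (mul_nonneg hη.le (Finset.sum_nonneg fun _ _ => by positivity))
          (by norm_num)
        exact pow_le_one₀ (by positivity) h2
    _ = _ := one_mul _

/-- Rank one resampling. -/
theorem Gi_rank {ω : Om2 d} {x : Zd d} {r : ℝ} (g : Good (HS t ω))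
    (g' : Good (HS t (Function.update ω s(x, x) r))) {z : ℂ} (hz : 0 < z.im) :
    (Gi (HS t (Function.update ω s(x, x) r)) z x x)⁻¹
      = (r : ℂ) - ((ω s(x, x) : ℂ) + sf (HS t ω) z x) := by
  have h1 := Uc_pert g g' hz.ne' {x}
    (fun u v => ((Function.update ω s(x, x) r s(u, v) - ω s(u, v) : ℝ) : ℂ)) (fun u v => by
      unfold HS
      push_cast
      ring) (fun u v huv => by
      rw [Function.update_of_ne, sub_self, Complex.ofReal_zero]
      intro h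
      rw [Sym2.eq_iff] at h
      apply huv
      rcases h with h | h <;> simp [h.1, h.2]) x
  have h2 := congrArg (fun W : E2 (Zd d) => W x) h1
  simp only at h2
  rw [Finset.sum_singleton, Finset.sum_singleton, lp.coeFn_sub, Pi.sub_apply, lp.coeFn_smul,
    Pi.smul_apply, smul_eq_mul, Function.update_self, ← Gi_eq g hz.ne', ← Gi_eq g' hz.ne'] at h2
  have h3 := Gi_ne g hz x
  have h4 := Gi_ne g' hz x
  unfold sf
  field_simp
  rw [Complex.ofReal_sub] at h2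
  linear_combination -h2

end

end Pool.Agent.T2H19
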