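import Pool.Agent.T2H19.R6

/-! Averages over the potential at one site. -/

set_option autoImplicit false

namespace Pool.Agent.T2H19

open MeasureTheory ProbabilityTheory Filter Topology Matrix
open scoped BigOperators ComplexConjugate ENNReal

noncomputable section

/-- Bounded continuous densities. -/
structure Dens (κ : Measure ℝ) (ρ : ℝ → ℝ) (C : ℝ) : Prop where
  cont : Continuous ρ
  nn : ∀ x, 0 ≤ ρ x
  bd : ∀ x, ρ x ≤ C
  eq : κ = volume.withDensity fun x => ENNReal.ofReal (ρ x)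

theorem chv {f : ℝ → ℝ≥0∞} (hf : Measurable f) (c : ℝ) {b : ℝ} (hb : 0 < b) :
    ∫⁻ r, f r = ENNReal.ofReal b * ∫⁻ u, f (c + b * u) := by
  have h1 : ∫⁻ u, f (c + b * u) = ENNReal.ofReal b⁻¹ * ∫⁻ r, f r := by
    have hg : Measurable fun v => f (c + v) := hf.comp (measurable_const_add c)
    have e1 : ∫⁻ u, f (c + b * u) = ∫⁻ v, f (c + v) ∂(volume.map fun u => b * u) := by
      rw [lintegral_map hg (measurable_const_mul b)]
    rw [e1, Real.map_volume_mul_left hb.ne', lintegral_smul_measure, smul_eq_mul,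
      lintegral_add_left_eq_self f c, abs_of_pos (inv_pos.2 hb)]
  rw [h1, ← mul_assoc, ← ENNReal.ofReal_mul hb.le, mul_inv_cancel₀ hb.ne', ENNReal.ofReal_one,
    one_mul]

theorem lint_cauchy : ∫⁻ u : ℝ, ENNReal.ofReal (1 + u ^ 2)⁻¹ = ENNReal.ofReal Real.pi := by
  rw [← integral_univ_inv_one_add_sq, ofReal_integral_eq_lintegral_ofReal
    integrable_inv_one_add_sq (Eventually.of_forall fun u => by positivity)]

theorem nrm_sq (r : ℝ) (a : ℂ) : ‖(r : ℂ) - a‖ ^ 2 = (r - a.re) ^ 2 + a.im ^ 2 := by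
  rw [← Complex.normSq_eq_norm_sq, Complex.normSq_apply]
  simp
  ring

theorem pois_eq {κ : Measure ℝ} {ρ : ℝ → ℝ} {C : ℝ} (hκ : Dens κ ρ C) {a : ℂ} (ha : 0 < a.im) :
    ∫⁻ r : ℝ, ENNReal.ofReal (a.im / ‖(r : ℂ) - a‖ ^ 2) ∂κ
      = ∫⁻ u, ENNReal.ofReal (ρ (a.re + a.im * u)) * ENNReal.ofReal (1 + u ^ 2)⁻¹ := by
  have hm1 : Measurable fun r : ℝ => ENNReal.ofReal (ρ r) := hκ.cont.measurable.ennreal_ofReal
  have hm2 : Measurable fun r : ℝ => ENNReal.ofReal (a.im / ‖(r : ℂ) - a‖ ^ 2) := by fun_prop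
  rw [hκ.eq, lintegral_withDensity_eq_lintegral_mul _ hm1 hm2]
  simp only [Pi.mul_apply]
  have hm3 : Measurable fun r : ℝ => ENNReal.ofReal (ρ r)
      * ENNReal.ofReal (a.im / ‖(r : ℂ) - a‖ ^ 2) := hm1.mul hm2
  rw [chv hm3 a.re ha, ← lintegral_const_mul]
  · refine lintegral_congr fun u => ?_
    rw [mul_left_comm, ← ENNReal.ofReal_mul ha.le]
    congr 2
    rw [nrm_sq]
    have : a.re + a.im * u - a.re = a.im * u := by ring
    rw [this, mul_pow]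
    field_simp
    ring
  · have : Measurable fun u : ℝ => a.re + a.im * u := by fun_prop
    exact hm3.comp this

theorem weg2 {κ : Measure ℝ} {ρ : ℝ → ℝ} {C : ℝ} (hκ : Dens κ ρ C) {a : ℂ} (ha : 0 < a.im) :
    ∫⁻ r : ℝ, ENNReal.ofReal (a.im / ‖(r : ℂ) - a‖ ^ 2) ∂κ ≤ ENNReal.ofReal (C * Real.pi) := by
  have hC : 0 ≤ C := (hκ.nn 0).trans (hκ.bd 0)
  rw [pois_eq hκ ha, ENNReal.ofReal_mul hC, ← lint_cauchy, ← lintegral_const_mul _ (by fun_prop)]
  refine lintegral_mono fun u => mul_le_mul_left (ENNReal.ofReal_le_ofReal (hκ.bd _)) _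

theorem pois_lim {κ : Measure ℝ} {ρ : ℝ → ℝ} {C : ℝ} (hκ : Dens κ ρ C) (a : ℕ → ℂ)
    (ha : ∀ j, 0 < (a j).im) (h0 : Tendsto (fun j => (a j).im) atTop (𝓝 0)) {α : ℝ}
    (hα : Tendsto (fun j => (a j).re) atTop (𝓝 α)) (hρ : ρ α = 0) :
    Tendsto (fun j => ∫⁻ r : ℝ, ENNReal.ofReal ((a j).im / ‖(r : ℂ) - a j‖ ^ 2) ∂κ) atTop (𝓝 0) := by
  have hC : 0 ≤ C := (hκ.nn 0).trans (hκ.bd 0)
  simp only [fun j => pois_eq hκ (ha j)]
  have h1 : Tendsto (fun j => ∫⁻ u, ENNReal.ofReal (ρ ((a j).re + (a j).im * u))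
      * ENNReal.ofReal (1 + u ^ 2)⁻¹) atTop (𝓝 (∫⁻ _u : ℝ, 0)) := by
    refine tendsto_lintegral_of_dominated_convergence
      (fun u => ENNReal.ofReal C * ENNReal.ofReal (1 + u ^ 2)⁻¹) (fun j => ?_) (fun j => ?_) ?_ ?_
    · have hc : Continuous fun u : ℝ => ρ ((a j).re + (a j).im * u) :=
        hκ.cont.comp (by fun_prop)
      exact hc.measurable.ennreal_ofReal.mul (by fun_prop)
    · exact Eventually.of_forall fun u => mul_le_mul_left (ENNReal.ofReal_le_ofReal (hκ.bd _)) _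
    · rw [lintegral_const_mul _ (by fun_prop), lint_cauchy]
      exact ENNReal.mul_ne_top ENNReal.ofReal_ne_top ENNReal.ofReal_ne_top
    · refine Eventually.of_forall fun u => ?_
      have h2 : Tendsto (fun j => (a j).re + (a j).im * u) atTop (𝓝 (α + 0 * u)) :=
        hα.add (h0.mul_const u)
      rw [zero_mul, add_zero] at h2
      have h3 : Tendsto (fun j => ρ ((a j).re + (a j).im * u)) atTop (𝓝 (ρ α)) :=
        (hκ.cont.tendsto α).comp h2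
      rw [hρ] at h3
      have h4 := ENNReal.tendsto_ofReal h3
      rw [ENNReal.ofReal_zero] at h4
      have h5 := ENNReal.Tendsto.mul_const (b := ENNReal.ofReal (1 + u ^ 2)⁻¹) h4
        (Or.inr ENNReal.ofReal_ne_top)
      rwa [zero_mul] at h5
  rwa [lintegral_zero] at h1

theorem Dens.lb {κ : Measure ℝ} {ρ : ℝ → ℝ} {C : ℝ} (hκ : Dens κ ρ C) {c a₀ b₀ : ℝ}
    (h : ∀ x ∈ Set.Icc a₀ b₀, c ≤ ρ x) (hc : 0 ≤ c) : LB κ c a₀ b₀ := by
  intro a b h1 h2 h3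
  rw [hκ.eq, withDensity_apply _ measurableSet_Icc, ENNReal.ofReal_mul hc]
  calc ENNReal.ofReal c * ENNReal.ofReal (b - a) = ∫⁻ _x in Set.Icc a b, ENNReal.ofReal c := by
        rw [setLIntegral_const, Real.volume_Icc]
    _ ≤ _ := setLIntegral_mono' measurableSet_Icc fun x hx =>
        ENNReal.ofReal_le_ofReal (h x ⟨h1.trans hx.1, hx.2.trans h3⟩)

variable {d : ℕ} {μ : Sym2 (Zd d) → Measure ℝ} [∀ e, IsProbabilityMeasure (μ e)] {t : Zd d → ℝ}

/-- The self-energy with the potential. -/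
def aa (t : Zd d → ℝ) (z : ℂ) (x : Zd d) (ω : Om2 d) : ℂ := (ω s(x, x) : ℂ) + sf (HS t ω) z x

theorem aa_im {ω : Om2 d} (g : Good (HS t ω)) {z : ℂ} (hz : 0 < z.im) (x : Zd d) :
    (aa t z x ω).im = z.im * kap (HS t ω) z x := by
  unfold aa
  rw [Complex.add_im, Complex.ofReal_im, zero_add, sf_im g hz]

theorem aa_pos {ω : Om2 d} (g : Good (HS t ω)) {z : ℂ} (hz : 0 < z.im) (x : Zd d) :
    0 < (aa t z x ω).im := by
  rw [aa_im g hz]
  have := kap_one g hz x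
  positivity

/-- Wegner's bound. -/
theorem wegner (m : Mo μ t) {ρ : ℝ → ℝ} {C : ℝ} (hκ : Dens (μ s(0, 0)) ρ C) {z : ℂ}
    (hz : 0 < z.im) (x : Zd d) :
    ∫⁻ ω, ENNReal.ofReal (Gi (HS t ω) z x x).im ∂(Measure.infinitePi μ)
      ≤ ENNReal.ofReal (C * Real.pi) := by
  have hm := Gi_meas (t := t) m.ts hz.ne' x x
  have hm2 : Measurable fun ω : Om2 d => ENNReal.ofReal (Gi (HS t ω) z x x).im :=
    (Complex.measurable_im.comp hm).ennreal_ofReal
  rw [lint_upd s(x, x) hm2]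
  calc _ ≤ ∫⁻ _ω : Om2 d, ENNReal.ofReal (C * Real.pi) ∂(Measure.infinitePi μ) := by
        refine lintegral_mono_ae ?_
        filter_upwards [good_ae m, ae_upd (μ := μ) s(x, x) (good_ae m)] with ω g hω
        rw [mu_diag m x] at hω ⊢
        refine le_trans (le_of_eq (lintegral_congr_ae ?_)) (weg2 hκ (aa_pos g hz x))
        filter_upwards [hω] with r gr
        have h1 := Gi_rank g gr hz
        have h2 : Gi (HS t (Function.update ω s(x, x) r)) z x x = ((r : ℂ) - aa t z x ω)⁻¹ := by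
          unfold aa
          rw [← h1, inv_inv]
        rw [h2, Complex.inv_im, Complex.normSq_eq_norm_sq]
        simp
    _ = _ := by rw [lintegral_const, measure_univ, mul_one]

/-- The average of the squared Green function over one potential. -/
def Ph (μ : Sym2 (Zd d) → Measure ℝ) (t : Zd d → ℝ) (E η : ℝ) (ω : Om2 d) : ℝ≥0∞ :=
  ∫⁻ r, ENNReal.ofReal (η * ‖Gi (HS t (Function.update ω s(0, 0) r)) ⟨E, η⟩ 0 0‖ ^ 2) ∂(μ s(0, 0))

theorem Ph_fun_meas (hts : ∀ h, t (-h) = t h) {E η : ℝ} (hη : 0 < η) :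
    Measurable fun ω : Om2 d => ENNReal.ofReal (η * ‖Gi (HS t ω) ⟨E, η⟩ 0 0‖ ^ 2) :=
  (((Gi_meas (t := t) hts (z := ⟨E, η⟩) hη.ne' 0 0).norm.pow_const 2).const_mul η).ennreal_ofReal

theorem Ph_int (m : Mo μ t) {E η : ℝ} (hη : 0 < η) :
    ∫⁻ ω, ENNReal.ofReal (η * ‖Gi (HS t ω) ⟨E, η⟩ 0 0‖ ^ 2) ∂(Measure.infinitePi μ)
      = ∫⁻ ω, Ph μ t E η ω ∂(Measure.infinitePi μ) :=
  lint_upd s(0, 0) (Ph_fun_meas m.ts hη)

theorem Ph_meas (m : Mo μ t) {E η : ℝ} (hη : 0 < η) : Measurable (Ph μ t E η) :=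
  lint_upd_meas s(0, 0) (Ph_fun_meas m.ts hη)

theorem Ph_le (m : Mo μ t) {E η : ℝ} (hη : 0 < η) :
    ∀ᵐ ω ∂(Measure.infinitePi μ), Ph μ t E η ω ≤
      ENNReal.ofReal (1 / kap (HS t ω) ⟨E, η⟩ 0)
        * ∫⁻ r : ℝ, ENNReal.ofReal ((aa t ⟨E, η⟩ 0 ω).im / ‖(r : ℂ) - aa t ⟨E, η⟩ 0 ω‖ ^ 2)
          ∂(μ s(0, 0)) := by
  filter_upwards [good_ae m, ae_upd (μ := μ) s(0, 0) (good_ae m)] with ω g hω
  have hk := kap_one g (z := ⟨E, η⟩) hη 0
  have hk0 : 0 < kap (HS t ω) ⟨E, η⟩ 0 := by linarith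
  unfold Ph
  rw [← lintegral_const_mul _ (by fun_prop)]
  refine lintegral_mono_ae ?_
  filter_upwards [hω] with r gr
  have h1 := Gi_rank g gr (z := ⟨E, η⟩) hη
  have h2 : Gi (HS t (Function.update ω s(0, 0) r)) ⟨E, η⟩ 0 0
      = ((r : ℂ) - aa t ⟨E, η⟩ 0 ω)⁻¹ := by
    unfold aa
    rw [← h1, inv_inv]
  rw [← ENNReal.ofReal_mul (by positivity), h2, aa_im g (z := ⟨E, η⟩) hη, norm_inv]
  refine ENNReal.ofReal_le_ofReal (le_of_eq ?_)
  simp only
  field_simp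

end

end Pool.Agent.T2H19
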