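import Pool.Agent.T2H19.R7

/-! Localization at an energy leaves an event of positive probability. -/

set_option autoImplicit false

namespace Pool.Agent.T2H19

open MeasureTheory ProbabilityTheory Filter Topology Matrix
open scoped BigOperators ComplexConjugate ENNReal

noncomputable section

variable {d : ℕ} {μ : Sym2 (Zd d) → Measure ℝ} [∀ e, IsProbabilityMeasure (μ e)] {t : Zd d → ℝ}

/-- Distances to the real axis. -/
def et (j : ℕ) : ℝ := (1 / 2 : ℝ) ^ j

theorem et_pos (j : ℕ) : 0 < et j := by unfold et; positivity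

theorem et_anti {i j : ℕ} (h : i ≤ j) : et j ≤ et i :=
  pow_le_pow_of_le_one (by norm_num) (by norm_num) h

theorem et_lim : Tendsto et atTop (𝓝 0) :=
  tendsto_pow_atTop_nhds_zero_of_lt_one (by norm_num) (by norm_num)

/-- The event that the origin carries a localized state at the energy. -/
def Ae (t : Zd d → ℝ) (E K α δ : ℝ) (j0 : ℕ) : Set (Om2 d) :=
  {ω | ∀ j, j0 ≤ j → kap (HS t ω) ⟨E, et j⟩ 0 ≤ K ∧ |(aa t ⟨E, et j⟩ 0 ω).re - α| ≤ δ}

theorem Ae_meas (hts : ∀ h, t (-h) = t h) (E K α δ : ℝ) (j0 : ℕ) :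
    MeasurableSet (Ae t E K α δ j0) := by
  have h1 : Ae t E K α δ j0 = ⋂ j : ℕ, ⋂ _ : j0 ≤ j,
      ({ω | kap (HS t ω) ⟨E, et j⟩ 0 ≤ K} ∩ {ω | |(aa t ⟨E, et j⟩ 0 ω).re - α| ≤ δ}) := by
    ext ω
    simp only [Ae, Set.mem_ofPred_eq, Set.mem_iInter, Set.mem_inter_iff]
  rw [h1]
  refine MeasurableSet.iInter fun j => MeasurableSet.iInter fun _ => ?_
  have hG := Gi_meas (t := t) hts (z := ⟨E, et j⟩) (et_pos j).ne' 0 0
  refine MeasurableSet.inter (measurableSet_le ?_ measurable_const)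
    (measurableSet_le ?_ measurable_const)
  · unfold kap
    exact (Complex.measurable_im.comp hG).div ((hG.norm.pow_const 2).const_mul _)
  · unfold aa sf
    exact continuous_abs.measurable.comp (((Complex.measurable_re.comp
      ((Complex.measurable_ofReal.comp (measurable_pi_apply _)).add hG.inv.neg))).sub_const _)

/-- If no such event has positive probability, the averaged Green functions vanish. -/
theorem lim7 (m : Mo μ t) {ρ : ℝ → ℝ} {C : ℝ} (hκ : Dens (μ s(0, 0)) ρ C) (E : ℝ)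
    (h0 : ∀ (K : ℕ) (α δ c : ℚ) (j0 : ℕ), 0 < δ → 0 < c →
      LB (μ s(0, 0)) c (α - 4 * δ) (α + 4 * δ) →
      (Measure.infinitePi μ) (Ae t E K α δ j0) = 0) :
    Tendsto (fun j => ∫⁻ ω, ENNReal.ofReal (et j * ‖Gi (HS t ω) ⟨E, et j⟩ 0 0‖ ^ 2)
      ∂(Measure.infinitePi μ)) atTop (𝓝 0) := by
  have hnot : ∀ᵐ ω ∂(Measure.infinitePi μ), ∀ q : ℕ × ℚ × ℚ × ℚ × ℕ, 0 < q.2.2.1 →
      0 < q.2.2.2.1 →
      LB (μ s(0, 0)) q.2.2.2.1 (q.2.1 - 4 * q.2.2.1) (q.2.1 + 4 * q.2.2.1) →
      ω ∉ Ae t E q.1 q.2.1 q.2.2.1 q.2.2.2.2 := by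
    rw [ae_all_iff]
    rintro ⟨K, α, δ, c, j0⟩
    by_cases h : 0 < δ ∧ 0 < c ∧ LB (μ s(0, 0)) c (α - 4 * δ) (α + 4 * δ)
    · have h1 := h0 K α δ c j0 h.1 h.2.1 h.2.2
      have h2 : ∀ᵐ ω ∂(Measure.infinitePi μ), ω ∉ Ae t E K α δ j0 := by
        rw [ae_iff]
        simpa using h1
      filter_upwards [h2] with ω h3 _ _ _
      exact h3
    · exact Eventually.of_forall fun ω h1 h2 h3 => absurd ⟨h1, h2, h3⟩ h
  have hPle : ∀ᵐ ω ∂(Measure.infinitePi μ), ∀ j, Ph μ t E (et j) ω ≤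
      ENNReal.ofReal (1 / kap (HS t ω) ⟨E, et j⟩ 0)
        * ∫⁻ r : ℝ, ENNReal.ofReal ((aa t ⟨E, et j⟩ 0 ω).im / ‖(r : ℂ) - aa t ⟨E, et j⟩ 0 ω‖ ^ 2)
          ∂(μ s(0, 0)) := by
    rw [ae_all_iff]
    exact fun j => Ph_le m (et_pos j)
  have hC : 0 ≤ C := (hκ.nn 0).trans (hκ.bd 0)
  have hlim : ∀ᵐ ω ∂(Measure.infinitePi μ),
      Tendsto (fun j => Ph μ t E (et j) ω) atTop (𝓝 0) := by
    filter_upwards [good_ae m, hnot, hPle] with ω g hω hP
    have hk1 : ∀ j, 1 ≤ kap (HS t ω) ⟨E, et j⟩ 0 := fun j => kap_one g (z := ⟨E, et j⟩) (et_pos j) 0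
    have hmono : Monotone fun j => kap (HS t ω) ⟨E, et j⟩ 0 := fun i j hij =>
      kap_mono g (et_pos j) (et_anti hij) 0
    by_cases hb : ∃ K : ℕ, ∀ j, kap (HS t ω) ⟨E, et j⟩ 0 ≤ K
    · obtain ⟨K, hK⟩ := hb
      have hK1 : (1 : ℝ) ≤ K := (hk1 0).trans (hK 0)
      have hre : ∀ i j, |(aa t ⟨E, et i⟩ 0 ω).re - (aa t ⟨E, et j⟩ 0 ω).re|
          ≤ (et i + et j) * K := by
        intro i j
        have := sf_lim g (E := E) (et_pos i) (et_pos j) 0 (hK i) (hK j)
        unfold aa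
        rw [Complex.add_re, Complex.add_re, add_sub_add_left_eq_sub]
        exact this
      have hcs : CauchySeq fun j => (aa t ⟨E, et j⟩ 0 ω).re := by
        refine cauchySeq_of_le_tendsto_0 (fun N => 2 * et N * K) (fun i j N hi hj => ?_) ?_
        · rw [Real.dist_eq]
          refine (hre i j).trans (mul_le_mul_of_nonneg_right ?_ (by positivity))
          linarith [et_anti hi, et_anti hj]
        · have := (et_lim.const_mul 2).mul_const (K : ℝ)
          simpa using this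
      obtain ⟨α, hα⟩ := cauchySeq_tendsto_of_complete hcs
      have him : Tendsto (fun j => (aa t ⟨E, et j⟩ 0 ω).im) atTop (𝓝 0) := by
        have h1 : Tendsto (fun j => et j * K) atTop (𝓝 0) := by
          have := et_lim.mul_const (K : ℝ)
          simpa using this
        refine squeeze_zero (fun j => (aa_pos g (z := ⟨E, et j⟩) (et_pos j) 0).le) (fun j => ?_) h1
        rw [aa_im g (z := ⟨E, et j⟩) (et_pos j)]
        exact mul_le_mul_of_nonneg_left (hK j) (et_pos j).le
      rcases (hκ.nn α).eq_or_lt with hρ | hρ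
      · have h1 := pois_lim hκ (fun j => aa t ⟨E, et j⟩ 0 ω)
          (fun j => aa_pos g (z := ⟨E, et j⟩) (et_pos j) 0) him hα hρ.symm
        refine tendsto_of_tendsto_of_tendsto_of_le_of_le tendsto_const_nhds h1
          (fun j => bot_le) (fun j => (hP j).trans ?_)
        refine (mul_le_mul_left (ENNReal.ofReal_le_ofReal (?_ : _ ≤ (1 : ℝ))) _).trans
          (by rw [ENNReal.ofReal_one, one_mul])
        rw [div_le_one (by linarith [hk1 j])]
        exact hk1 j
      · exfalso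
        obtain ⟨c, hc0, hc1⟩ := exists_rat_btwn hρ
        have hc0' : (0 : ℚ) < c := by exact_mod_cast hc0
        have hcont := hκ.cont.continuousAt (x := α)
        have hev : ∀ᶠ x in 𝓝 α, (c : ℝ) < ρ x := hcont.eventually (lt_mem_nhds hc1)
        obtain ⟨ε, hε, hball⟩ := Metric.eventually_nhds_iff.1 hev
        obtain ⟨δ, hδ0, hδ1⟩ := exists_rat_btwn (show (0 : ℝ) < ε / 6 by positivity)
        have hδ0' : (0 : ℚ) < δ := by exact_mod_cast hδ0
        obtain ⟨β, hβ1, hβ2⟩ := exists_rat_btwn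
          (show α - (δ : ℝ) / 2 < α + (δ : ℝ) / 2 by linarith)
        have hLB : LB (μ s(0, 0)) c (β - 4 * δ) (β + 4 * δ) := by
          refine hκ.lb (fun x hx => ?_) hc0.le
          refine (hball ?_).le
          rw [Real.dist_eq, abs_lt]
          constructor <;> linarith [hx.1, hx.2]
        have hev2 : ∀ᶠ j in atTop, |(aa t ⟨E, et j⟩ 0 ω).re - α| < (δ : ℝ) / 2 := by
          have := Metric.tendsto_nhds.1 hα ((δ : ℝ) / 2) (by positivity)
          simpa only [Real.dist_eq] using this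
        obtain ⟨j0, hj0⟩ := eventually_atTop.1 hev2
        refine hω (K, β, δ, c, j0) hδ0' hc0' hLB fun j hj => ⟨hK j, ?_⟩
        have h3 := abs_lt.1 (hj0 j hj)
        simp only
        rw [abs_le]
        constructor <;> linarith [h3.1, h3.2]
    · push Not at hb
      have hinf : Tendsto (fun j => kap (HS t ω) ⟨E, et j⟩ 0) atTop atTop := by
        refine tendsto_atTop_atTop.2 fun b => ?_
        obtain ⟨K, hK⟩ := exists_nat_ge b
        obtain ⟨j, hj⟩ := hb K
        exact ⟨j, fun i hi => (hK.trans hj.le).trans (hmono hi)⟩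
      have h1 : Tendsto (fun j => ENNReal.ofReal (1 / kap (HS t ω) ⟨E, et j⟩ 0)
          * ENNReal.ofReal (C * Real.pi)) atTop (𝓝 0) := by
        have h2 : Tendsto (fun j => 1 / kap (HS t ω) ⟨E, et j⟩ 0) atTop (𝓝 0) := by
          simp only [one_div]
          exact tendsto_inv_atTop_zero.comp hinf
        have h3 := ENNReal.tendsto_ofReal h2
        rw [ENNReal.ofReal_zero] at h3
        have h4 := ENNReal.Tendsto.mul_const (b := ENNReal.ofReal (C * Real.pi)) h3
          (Or.inr ENNReal.ofReal_ne_top)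
        rwa [zero_mul] at h4
      refine tendsto_of_tendsto_of_tendsto_of_le_of_le tendsto_const_nhds h1
        (fun j => bot_le) (fun j => (hP j).trans ?_)
      exact mul_le_mul_right (weg2 hκ (aa_pos g (z := ⟨E, et j⟩) (et_pos j) 0)) _
  have h2 : Tendsto (fun j => ∫⁻ ω, Ph μ t E (et j) ω ∂(Measure.infinitePi μ)) atTop
      (𝓝 (∫⁻ _ω : Om2 d, 0 ∂(Measure.infinitePi μ))) := by
    refine tendsto_lintegral_of_dominated_convergence (fun _ => ENNReal.ofReal (C * Real.pi))
      (fun j => Ph_meas m (et_pos j)) (fun j => ?_) ?_ hlim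
    · filter_upwards [good_ae m, hPle] with ω g hP
      refine (hP j).trans ?_
      have hk1 := kap_one g (z := ⟨E, et j⟩) (et_pos j) 0
      calc _ ≤ ENNReal.ofReal 1 * ENNReal.ofReal (C * Real.pi) := by
            refine mul_le_mul' (ENNReal.ofReal_le_ofReal ?_)
              (weg2 hκ (aa_pos g (z := ⟨E, et j⟩) (et_pos j) 0))
            rw [div_le_one (by linarith)]
            exact hk1
        _ = _ := by rw [ENNReal.ofReal_one, one_mul]
    · rw [lintegral_const, measure_univ, mul_one]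
      exact ENNReal.ofReal_ne_top
  rw [lintegral_zero] at h2
  refine h2.congr fun j => ?_
  exact (Ph_int m (et_pos j)).symm

end

end Pool.Agent.T2H19
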