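import Pool.Agent.T2H19.R8

/-! Mixing of the shifts. -/

set_option autoImplicit false

namespace Pool.Agent.T2H19

open MeasureTheory ProbabilityTheory Filter Topology
open scoped BigOperators ENNReal symmDiff

noncomputable section

variable {d : ℕ} {μ : Sym2 (Zd d) → Measure ℝ} [∀ e, IsProbabilityMeasure (μ e)] {t : Zd d → ℝ}

theorem bad_fin (J : Finset (Sym2 (Zd d))) :
    {c : Zd d | ∃ e ∈ J, e.map (· + c) ∈ J}.Finite := by
  have h1 : {c : Zd d | ∃ e ∈ J, e.map (· + c) ∈ J}
      ⊆ ⋃ e ∈ J, ⋃ e' ∈ J, {c : Zd d | e.map (· + c) = e'} := by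
    rintro c ⟨e, he, he'⟩
    simp only [Set.mem_iUnion]
    exact ⟨e, he, _, he', rfl⟩
  refine Set.Finite.subset ?_ h1
  refine Set.Finite.biUnion J.finite_toSet fun e _ => Set.Finite.biUnion J.finite_toSet fun e' _ => ?_
  induction e using Sym2.ind with
  | _ x y =>
    induction e' using Sym2.ind with
    | _ x' y' =>
      refine Set.Finite.subset (Set.toFinite {x' - x, y' - x}) fun c hc => ?_
      have hc' : s(x + c, y + c) = s(x', y') := hc
      rw [Sym2.eq_iff] at hc'
      rcases hc' with h | h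
      · left
        rw [← h.1]
        abel
      · right
        rw [Set.mem_singleton_iff, ← h.1]
        abel

theorem cyl_indep (m : Mo μ t) (J : Finset (Sym2 (Zd d))) (S : Set (∀ _ : J, ℝ))
    (hS : MeasurableSet S) (c : Zd d) (hc : ¬ ∃ e ∈ J, e.map (· + c) ∈ J) :
    (Measure.infinitePi μ) (cylinder J S ∩ (sS c) ⁻¹' (cylinder J S))
      = (Measure.infinitePi μ) (cylinder J S) * (Measure.infinitePi μ) (cylinder J S) := by
  classical
  have hcm : MeasurableSet (cylinder (α := fun _ : Sym2 (Zd d) => ℝ) J S) :=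
    MeasurableSet.cylinder J hS
  obtain ⟨J', hJ'⟩ : ∃ J' : Finset (Sym2 (Zd d)), J' = J.image (Sym2.map (· + c)) := ⟨_, rfl⟩
  have hdis : Disjoint J J' := by
    rw [Finset.disjoint_left]
    intro e he he'
    rw [hJ', Finset.mem_image] at he'
    obtain ⟨e0, h0, h1⟩ := he'
    exact hc ⟨e0, h0, by rw [h1]; exact he⟩
  have hind : iIndepFun (fun (e : Sym2 (Zd d)) (ω : Om2 d) => ω e) (Measure.infinitePi μ) :=
    iIndepFun_infinitePi (X := fun _ r => r) (fun _ => measurable_id)
  have h1 := hind.indepFun_finset J J' hdis (fun e => measurable_pi_apply e)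
  have hmem : ∀ e : J, Sym2.map (· + c) (e : Sym2 (Zd d)) ∈ J' := by
    intro e
    rw [hJ', Finset.mem_image]
    exact ⟨e, e.2, rfl⟩
  obtain ⟨S', hS'⟩ : ∃ S' : Set (∀ _ : J', ℝ), S' = {f | (fun e : J => f ⟨_, hmem e⟩) ∈ S} := ⟨_, rfl⟩
  have hS'm : MeasurableSet S' := by
    rw [hS']
    have : Measurable fun f : (∀ _ : J', ℝ) => fun e : J => f ⟨_, hmem e⟩ :=
      measurable_pi_lambda _ fun e => measurable_pi_apply _
    exact this hS
  have h2 := h1.measure_inter_preimage_eq_mul S S' hS hS'm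
  have e1 : (fun (ω : Om2 d) (i : J) => ω i) ⁻¹' S = cylinder J S := rfl
  have e2 : (fun (ω : Om2 d) (i : J') => ω i) ⁻¹' S' = (sS c) ⁻¹' (cylinder J S) := by
    rw [hS']
    rfl
  rw [e1, e2] at h2
  rw [h2, (sS_mp m c).measure_preimage hcm.nullMeasurableSet]

/-- Mixing. -/
theorem mixing (m : Mo μ t) {A : Set (Om2 d)} (hA : MeasurableSet A) {ε : ℝ} (hε : 0 < ε) :
    ∃ B : Set (Zd d), B.Finite ∧ ∀ c, c ∉ B →
      (Measure.infinitePi μ).real A ^ 2 - ε
        ≤ (Measure.infinitePi μ).real (A ∩ (sS c) ⁻¹' A) := by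
  classical
  obtain ⟨P, hP⟩ : ∃ P : Measure (Om2 d), P = Measure.infinitePi μ := ⟨_, rfl⟩
  have hPp : IsProbabilityMeasure P := by rw [hP]; infer_instance
  rw [← hP]
  obtain ⟨T, hT, hTA⟩ := exists_measure_symmDiff_lt_of_generateFrom_isSetRing (μ := P)
    (C := measurableCylinders fun _ : Sym2 (Zd d) => ℝ) isSetRing_measurableCylinders
    ⟨{Set.univ}, Set.countable_singleton _, by
      rw [Set.singleton_subset_iff]
      exact univ_mem_measurableCylinders _, by simp⟩
    generateFrom_measurableCylinders.symm hA (ε := ENNReal.ofReal (ε / 4))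
    (by rw [ENNReal.ofReal_pos]; positivity)
  rw [mem_measurableCylinders] at hT
  obtain ⟨J, S, hS, rfl⟩ := hT
  refine ⟨_, bad_fin J, fun c hc => ?_⟩
  have h1 := cyl_indep m J S hS c hc
  rw [← hP] at h1
  obtain ⟨T, hT⟩ : ∃ T : Set (Om2 d), T = cylinder (α := fun _ : Sym2 (Zd d) => ℝ) J S :=
    ⟨_, rfl⟩
  rw [← hT] at h1 hTA
  have hTm : MeasurableSet T := by rw [hT]; exact MeasurableSet.cylinder J hS
  have hmp : MeasurePreserving (sS c) P P := by rw [hP]; exact sS_mp m c
  have hd : P.real (T ∆ A) < ε / 4 := by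
    have := (ENNReal.toReal_lt_toReal (measure_ne_top _ _) ENNReal.ofReal_ne_top).2 hTA
    rwa [ENNReal.toReal_ofReal (by positivity)] at this
  have h2 : P.real (T ∩ (sS c) ⁻¹' T) = P.real T * P.real T := by
    rw [Measure.real, h1, ENNReal.toReal_mul]
    rfl
  have hTd : P.real (T \ A) < ε / 4 :=
    (measureReal_mono Set.subset_union_left).trans_lt hd
  have hAd : P.real (A \ T) < ε / 4 :=
    (measureReal_mono Set.subset_union_right).trans_lt hd
  have h3 : P.real (T ∩ (sS c) ⁻¹' T) ≤ P.real (A ∩ (sS c) ⁻¹' A) + P.real (T \ A)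
      + P.real ((sS c) ⁻¹' (T \ A)) := by
    refine le_trans (measureReal_mono ?_) ((measureReal_union_le _ _).trans
      (add_le_add (measureReal_union_le _ _) le_rfl))
    rintro ω ⟨h4, h5⟩
    by_cases h6 : ω ∈ A
    · by_cases h7 : sS c ω ∈ A
      · exact Or.inl (Or.inl ⟨h6, h7⟩)
      · exact Or.inr ⟨h5, h7⟩
    · exact Or.inl (Or.inr ⟨h4, h6⟩)
  have h4 : P.real ((sS c) ⁻¹' (T \ A)) = P.real (T \ A) := by
    unfold Measure.real
    rw [hmp.measure_preimage (hTm.diff hA).nullMeasurableSet]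
  have h5 : P.real A ≤ P.real T + P.real (A \ T) := by
    refine le_trans (measureReal_mono ?_) (measureReal_union_le _ _)
    intro ω h6
    by_cases h7 : ω ∈ T
    · exact Or.inl h7
    · exact Or.inr ⟨h6, h7⟩
  have h6 : P.real A ≤ 1 := measureReal_le_one
  have h7 : 0 ≤ P.real A := measureReal_nonneg
  have h8 : 0 ≤ P.real T := measureReal_nonneg
  have h9 : P.real T ≤ 1 := measureReal_le_one
  have h10 : P.real A ^ 2 - ε / 2 ≤ P.real T * P.real T := by
    nlinarith
  linarith

end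

end Pool.Agent.T2H19
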