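import Pool.Agent.T2H19.W0

/-!
# Random Fourier series with power law coefficients, part 1: exponential moments
-/

set_option autoImplicit false
set_option linter.unusedSectionVars false

open MeasureTheory ProbabilityTheory Filter Topology
open scoped ENNReal

namespace Pool.Agent.T2H19.RF

open Pool.Agent.T2H19

variable {d : ℕ}

/-- sign of a coin -/
def eb (b : Bool) : ℝ := if b then 1 else -1

theorem sg_eq (r : (Fin d → ℤ) → Bool) (h : Fin d → ℤ) : sg r h = eb (r h) * eb (r (-h)) := by
  unfold sg eb
  cases r h <;> cases r (-h) <;> simp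

theorem measurable_eb : Measurable eb := measurable_of_finite _

theorem measurable_sg (h : Fin d → ℤ) : Measurable (fun r : (Fin d → ℤ) → Bool => sg r h) := by
  simp only [sg_eq]
  exact (measurable_eb.comp (measurable_pi_apply h)).mul
    (measurable_eb.comp (measurable_pi_apply (-h)))

theorem int_coin : ∫ b, eb b ∂coin = 0 := by
  unfold coin
  rw [integral_add_measure, integral_smul_measure, integral_smul_measure, integral_dirac,
    integral_dirac]
  · simp [eb]
  · exact (integrable_dirac (by simp)).smul_measure (by simp)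
  · exact (integrable_dirac (by simp)).smul_measure (by simp)

theorem int_eb (h : Fin d → ℤ) : ∫ r, eb (r h) ∂(PR d) = 0 := by
  have h1 := (measurePreserving_eval_infinitePi (fun _ : Fin d → ℤ => coin) h)
  have h2 := integral_map (μ := PR d) (φ := fun r => r h) (f := eb)
    (measurable_pi_apply h).aemeasurable measurable_eb.aestronglyMeasurable
  rw [← h2]
  have h3 : Measure.map (fun r : (Fin d → ℤ) → Bool => r h) (PR d) = coin := h1.map_eq
  rw [h3, int_coin]

theorem indep : iIndepFun (fun (h : Fin d → ℤ) (r : (Fin d → ℤ) → Bool) => r h) (PR d) :=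
  iIndepFun_infinitePi (X := fun _ ω => ω) (fun _ => measurable_id)

theorem int_sg {h : Fin d → ℤ} (hh : h ≠ 0) : ∫ r, sg r h ∂(PR d) = 0 := by
  have hne : h ≠ -h := by
    intro he
    apply hh
    funext i
    have := congrFun he i
    simp only [Pi.neg_apply, Pi.zero_apply] at this ⊢
    omega
  have h1 : IndepFun (fun r : (Fin d → ℤ) → Bool => eb (r h)) (fun r => eb (r (-h))) (PR d) :=
    (indep.indepFun hne).comp measurable_eb measurable_eb
  simp only [sg_eq]
  rw [h1.integral_fun_mul_eq_mul_integral
    (measurable_eb.comp (measurable_pi_apply h)).aestronglyMeasurable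
    (measurable_eb.comp (measurable_pi_apply (-h))).aestronglyMeasurable, int_eb, zero_mul]

theorem sg_cases (r : (Fin d → ℤ) → Bool) (h : Fin d → ℤ) : sg r h = 1 ∨ sg r h = -1 := by
  unfold sg
  split_ifs <;> simp

theorem exp_sg (r : (Fin d → ℤ) → Bool) (h : Fin d → ℤ) (c : ℝ) :
    Real.exp (sg r h * c) = Real.cosh c + Real.sinh c * sg r h := by
  rcases sg_cases r h with e | e
  · rw [e, one_mul, mul_one, Real.cosh_add_sinh]
  · rw [e, mul_neg_one, neg_one_mul, ← sub_eq_add_neg, Real.cosh_sub_sinh]

theorem int_exp_sg {h : Fin d → ℤ} (hh : h ≠ 0) (c : ℝ) :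
    ∫ r, Real.exp (sg r h * c) ∂(PR d) = Real.cosh c := by
  simp only [exp_sg]
  have hi : Integrable (fun r : (Fin d → ℤ) → Bool => Real.sinh c * sg r h) (PR d) := by
    refine Integrable.of_bound ((measurable_sg h).const_mul _).aestronglyMeasurable
      (|Real.sinh c|) (Eventually.of_forall fun r => ?_)
    rw [Real.norm_eq_abs, abs_mul]
    rcases sg_cases r h with e | e <;> rw [e] <;> simp
  rw [integral_add (integrable_const _) hi, integral_const, integral_const_mul, int_sg hh]
  simp

/-- the random sum -/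
noncomputable def XX (B : Finset (Fin d → ℤ)) (c : (Fin d → ℤ) → ℝ)
    (r : (Fin d → ℤ) → Bool) : ℝ := ∑ h ∈ B, sg r h * c h

theorem measurable_XX (B : Finset (Fin d → ℤ)) (c : (Fin d → ℤ) → ℝ) : Measurable (XX B c) :=
  Finset.measurable_sum _ (fun h _ => (measurable_sg h).mul_const _)

theorem XX_le (B : Finset (Fin d → ℤ)) (c : (Fin d → ℤ) → ℝ) (r : (Fin d → ℤ) → Bool) :
    |XX B c r| ≤ ∑ h ∈ B, |c h| := by
  refine (Finset.abs_sum_le_sum_abs _ _).trans (Finset.sum_le_sum fun h _ => ?_)
  rw [abs_mul]
  rcases sg_cases r h with e | e <;> rw [e] <;> simp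

theorem integrable_exp (B : Finset (Fin d → ℤ)) (c : (Fin d → ℤ) → ℝ) (t : ℝ) :
    Integrable (fun r => Real.exp (t * XX B c r)) (PR d) := by
  refine Integrable.of_bound ((measurable_XX B c).const_mul t).exp.aestronglyMeasurable
    (Real.exp (|t| * ∑ h ∈ B, |c h|)) (Eventually.of_forall fun r => ?_)
  rw [Real.norm_eq_abs, abs_of_pos (Real.exp_pos _)]
  apply Real.exp_le_exp.mpr
  refine (le_abs_self _).trans ?_
  rw [abs_mul]
  exact mul_le_mul_of_nonneg_left (XX_le B c r) (abs_nonneg _)

theorem mgf_le (c : (Fin d → ℤ) → ℝ) (hc : ∀ h, c (-h) = c h) (B : Finset (Fin d → ℤ)) :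
    (∀ h ∈ B, -h ∈ B) → 0 ∉ B →
      ∫ r, Real.exp (XX B c r) ∂(PR d) ≤ Real.exp (∑ h ∈ B, c h ^ 2) := by
  classical
  induction B using Finset.strongInduction with
  | H B ih =>
    intro hs h0
    rcases B.eq_empty_or_nonempty with rfl | ⟨a, ha⟩
    · simp [XX]
    · have ha0 : a ≠ 0 := fun h => h0 (h ▸ ha)
      have hne : a ≠ -a := by
        intro he
        apply ha0
        funext i
        have := congrFun he i
        simp only [Pi.neg_apply, Pi.zero_apply] at this ⊢
        omega
      have hna : -a ∈ B.erase a := Finset.mem_erase.mpr ⟨hne.symm, hs a ha⟩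
      set B' := (B.erase a).erase (-a) with hB'
      have hsum : ∀ f : (Fin d → ℤ) → ℝ, ∑ h ∈ B, f h = ∑ h ∈ B', f h + f (-a) + f a := by
        intro f
        rw [← Finset.sum_erase_add _ _ ha, ← Finset.sum_erase_add _ _ hna]
      have hlt : B' ⊂ B := by
        refine Finset.ssubset_of_subset_of_ssubset (Finset.erase_subset _ _)
          (Finset.erase_ssubset ha)
      have hs' : ∀ h ∈ B', -h ∈ B' := by
        intro h hh
        simp only [hB', Finset.mem_erase] at hh ⊢
        refine ⟨fun e => hh.2.1 (neg_injective e), fun e => hh.1 ?_, hs h hh.2.2⟩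
        rw [← e, neg_neg]
      have h0' : 0 ∉ B' := fun h => h0 (Finset.mem_of_mem_erase (Finset.mem_of_mem_erase h))
      have key := ih B' hlt hs' h0'
      -- independence
      have hdis : Disjoint B' {a, -a} := by
        rw [Finset.disjoint_left]
        intro h hh hh'
        simp only [hB', Finset.mem_erase] at hh
        rw [Finset.mem_insert, Finset.mem_singleton] at hh'
        rcases hh' with e | e
        · exact hh.2.1 e
        · exact hh.1 e
      have hind := (indep (d := d)).indepFun_finset B' {a, -a} hdis (fun h => measurable_pi_apply h)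
      let ext1 : (S : Finset (Fin d → ℤ)) → (S → Bool) → ((Fin d → ℤ) → Bool) :=
        fun S ω i => if hi : i ∈ S then ω ⟨i, hi⟩ else false
      have hφ : Measurable (fun ω : B' → Bool => Real.exp (XX B' c (ext1 B' ω))) :=
        measurable_of_finite _
      have hψ : Measurable (fun ω : ({a, -a} : Finset (Fin d → ℤ)) → Bool =>
          Real.exp (sg (ext1 {a, -a} ω) a * (2 * c a))) := measurable_of_finite _
      have hind2 := hind.comp hφ hψ
      have e1 : ((fun ω : B' → Bool => Real.exp (XX B' c (ext1 B' ω))) ∘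
          fun (r : (Fin d → ℤ) → Bool) (i : B') => r i) = fun r => Real.exp (XX B' c r) := by
        funext r
        simp only [Function.comp]
        congr 1
        refine Finset.sum_congr rfl fun h hh => ?_
        congr 1
        simp only [sg, ext1, dif_pos hh, dif_pos (hs' h hh)]
      have e2 : ((fun ω : ({a, -a} : Finset (Fin d → ℤ)) → Bool =>
          Real.exp (sg (ext1 {a, -a} ω) a * (2 * c a))) ∘
          fun (r : (Fin d → ℤ) → Bool) (i : ({a, -a} : Finset (Fin d → ℤ))) => r i) =
          fun r => Real.exp (sg r a * (2 * c a)) := by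
        funext r
        simp only [Function.comp]
        congr 2
        have k1 : a ∈ ({a, -a} : Finset (Fin d → ℤ)) := by simp
        have k2 : -a ∈ ({a, -a} : Finset (Fin d → ℤ)) := by simp
        simp only [sg, ext1, dif_pos k1, dif_pos k2]
      rw [e1, e2] at hind2
      have e3 : (fun r => Real.exp (XX B c r)) =
          fun r => Real.exp (XX B' c r) * Real.exp (sg r a * (2 * c a)) := by
        funext r
        rw [← Real.exp_add]
        congr 1
        unfold XX
        rw [hsum, sg_neg, hc]
        ring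
      rw [e3, hind2.integral_fun_mul_eq_mul_integral
        (measurable_XX B' c).exp.aestronglyMeasurable
        ((measurable_sg a).mul_const _).exp.aestronglyMeasurable, int_exp_sg ha0, hsum, hc]
      have e4 : Real.cosh (2 * c a) ≤ Real.exp (c a ^ 2 + c a ^ 2) := by
        refine (Real.cosh_le_exp_half_sq _).trans (Real.exp_le_exp.mpr (le_of_eq ?_))
        ring
      calc (∫ r, Real.exp (XX B' c r) ∂(PR d)) * Real.cosh (2 * c a)
          ≤ Real.exp (∑ h ∈ B', c h ^ 2) * Real.exp (c a ^ 2 + c a ^ 2) := by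
            refine mul_le_mul key e4 (Real.cosh_pos _).le (Real.exp_pos _).le
        _ = _ := by rw [← Real.exp_add]; congr 1; ring

theorem tail_one (c : (Fin d → ℤ) → ℝ) (hc : ∀ h, c (-h) = c h) (B : Finset (Fin d → ℤ))
    (hs : ∀ h ∈ B, -h ∈ B) (h0 : 0 ∉ B) {V L : ℝ} (hV : 0 < V) (hL : 0 < L)
    (hcV : ∑ h ∈ B, c h ^ 2 ≤ V) :
    (PR d).real {r | L ≤ XX B c r} ≤ Real.exp (-(L ^ 2 / (4 * V))) := by
  have ht : 0 ≤ L / (2 * V) := by positivity
  have h1 := measure_ge_le_exp_mul_mgf (μ := PR d) (X := XX B c) L ht (integrable_exp B c _)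
  have h2 : mgf (XX B c) (PR d) (L / (2 * V)) ≤ Real.exp ((L / (2 * V)) ^ 2 * V) := by
    have h3 := mgf_le (fun h => L / (2 * V) * c h) (fun h => by simp only [hc]) B hs h0
    have h4 : ∀ r, XX B (fun h => L / (2 * V) * c h) r = L / (2 * V) * XX B c r := by
      intro r
      unfold XX
      rw [Finset.mul_sum]
      exact Finset.sum_congr rfl fun h _ => by ring
    simp only [h4] at h3
    refine h3.trans (Real.exp_le_exp.mpr ?_)
    simp only [mul_pow, ← Finset.mul_sum]
    exact mul_le_mul_of_nonneg_left hcV (by positivity)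
  refine h1.trans ((mul_le_mul_of_nonneg_left h2 (Real.exp_pos _).le).trans ?_)
  rw [← Real.exp_add]
  apply Real.exp_le_exp.mpr
  apply le_of_eq
  field_simp
  ring

theorem tail_abs (c : (Fin d → ℤ) → ℝ) (hc : ∀ h, c (-h) = c h) (B : Finset (Fin d → ℤ))
    (hs : ∀ h ∈ B, -h ∈ B) (h0 : 0 ∉ B) {V L : ℝ} (hV : 0 < V) (hL : 0 < L)
    (hcV : ∑ h ∈ B, c h ^ 2 ≤ V) :
    PR d {r | L ≤ |XX B c r|} ≤ ENNReal.ofReal (2 * Real.exp (-(L ^ 2 / (4 * V)))) := by
  have h1 := tail_one c hc B hs h0 hV hL hcV
  have h2 := tail_one (fun h => - c h) (fun h => by simp only [hc]) B hs h0 hV hL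
    (by simpa using hcV)
  have h3 : ∀ r, XX B (fun h => - c h) r = - XX B c r := by
    intro r
    unfold XX
    rw [← Finset.sum_neg_distrib]
    exact Finset.sum_congr rfl fun h _ => by ring
  simp only [h3] at h2
  have hsub : {r | L ≤ |XX B c r|} ⊆ {r | L ≤ XX B c r} ∪ {r | L ≤ - XX B c r} := by
    intro r hr
    rcases le_abs.mp (show L ≤ |XX B c r| from hr) with h | h
    · exact Or.inl h
    · exact Or.inr h
  refine (measure_mono hsub).trans ((measure_union_le _ _).trans ?_)
  rw [two_mul, ENNReal.ofReal_add (Real.exp_pos _).le (Real.exp_pos _).le]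
  refine add_le_add ?_ ?_
  · rw [← ofReal_measureReal]
    exact ENNReal.ofReal_le_ofReal h1
  · rw [← ofReal_measureReal]
    exact ENNReal.ofReal_le_ofReal h2

end Pool.Agent.T2H19.RF
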