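import Pool.Agent.T2H19.RF

/-!
# Random Fourier series with power law coefficients, part 2: dyadic blocks
-/

set_option autoImplicit false
set_option linter.unusedSectionVars false

open MeasureTheory ProbabilityTheory Filter Topology
open scoped ENNReal

namespace Pool.Agent.T2H19.RF

open Pool.Agent.T2H19

variable {d : ℕ}

/-- the box -/
noncomputable def box (d : ℕ) (M : ℕ) : Finset (Fin d → ℤ) := Finset.Icc (fun _ => -(M : ℤ)) (fun _ => (M : ℤ))

theorem mem_box {M : ℕ} {h : Fin d → ℤ} : h ∈ box d M ↔ ∀ i, |h i| ≤ (M : ℤ) := by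
  unfold box
  rw [Finset.mem_Icc, Pi.le_def, Pi.le_def, ← forall_and]
  exact forall_congr' fun i => abs_le.symm

theorem card_box (M : ℕ) : (box d M).card = (2 * M + 1) ^ d := by
  unfold box
  rw [Pi.card_Icc]
  simp only [Int.card_Icc, Finset.prod_const, Finset.card_univ, Fintype.card_fin]
  congr 1
  omega

/-- the dyadic block -/
noncomputable def blk (d j : ℕ) : Finset (Fin d → ℤ) := by
  classical
  exact (box d (2 ^ (j + 1))).filter fun h => (2 : ℝ) ^ j ≤ ‖h‖ ∧ ‖h‖ < (2 : ℝ) ^ (j + 1)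

theorem mem_blk {j : ℕ} {h : Fin d → ℤ} :
    h ∈ blk d j ↔ (2 : ℝ) ^ j ≤ ‖h‖ ∧ ‖h‖ < (2 : ℝ) ^ (j + 1) := by
  unfold blk
  rw [Finset.mem_filter, and_iff_right_iff_imp]
  rintro ⟨_, h2⟩
  rw [mem_box]
  intro i
  have h3 := (norm_le_pi_norm h i).trans h2.le
  rw [Int.norm_eq_abs] at h3
  exact_mod_cast h3

theorem neg_mem_blk {j : ℕ} {h : Fin d → ℤ} (hh : h ∈ blk d j) : -h ∈ blk d j := by
  rw [mem_blk] at hh ⊢
  rwa [norm_neg]

theorem zero_notMem_blk (j : ℕ) : (0 : Fin d → ℤ) ∉ blk d j := by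
  rw [mem_blk, norm_zero]
  rintro ⟨h, _⟩
  have : (0 : ℝ) < 2 ^ j := by positivity
  linarith

theorem card_blk (j : ℕ) : ((blk d j).card : ℝ) ≤ 8 ^ d * ((2 : ℝ) ^ j) ^ d := by
  have h1 : (blk d j).card ≤ (2 * 2 ^ (j + 1) + 1) ^ d := by
    rw [← card_box]
    refine Finset.card_le_card ?_
    unfold blk
    exact Finset.filter_subset _ _
  have h2 : (2 * 2 ^ (j + 1) + 1) ^ d ≤ (8 * 2 ^ j) ^ d := by
    refine Nat.pow_le_pow_left ?_ d
    have : 1 ≤ 2 ^ j := Nat.one_le_two_pow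
    rw [pow_succ]
    omega
  have h3 : ((blk d j).card : ℝ) ≤ ((8 * 2 ^ j) ^ d : ℕ) := by exact_mod_cast h1.trans h2
  refine h3.trans (le_of_eq ?_)
  push_cast
  rw [mul_pow]

theorem norm_ge_one {h : Fin d → ℤ} (hh : h ≠ 0) : 1 ≤ ‖h‖ := by
  obtain ⟨i, hi⟩ := Function.ne_iff.mp hh
  refine le_trans ?_ (norm_le_pi_norm h i)
  rw [Int.norm_eq_abs]
  have : (1 : ℤ) ≤ |h i| := Int.one_le_abs hi
  exact_mod_cast this

theorem exists_blk {h : Fin d → ℤ} (hh : h ≠ 0) : ∃ j, h ∈ blk d j := by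
  obtain ⟨n, hn1, hn2⟩ := exists_nat_pow_near (norm_ge_one hh) (by norm_num : (1 : ℝ) < 2)
  exact ⟨n, mem_blk.mpr ⟨hn1, hn2⟩⟩

theorem blk_unique {h : Fin d → ℤ} {i j : ℕ} (hi : h ∈ blk d i) (hj : h ∈ blk d j) : i = j := by
  rw [mem_blk] at hi hj
  have h1 : (2 : ℝ) ^ i < 2 ^ (j + 1) := hi.1.trans_lt hj.2
  have h2 : (2 : ℝ) ^ j < 2 ^ (i + 1) := hj.1.trans_lt hi.2
  rw [pow_lt_pow_iff_right₀ (by norm_num)] at h1 h2
  omega

/-- real part of the monomials -/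
noncomputable def cs (h : Fin d → ℤ) (k : UnitAddTorus (Fin d)) : ℝ :=
  (UnitAddTorus.mFourier h k).re

theorem cs_neg (h : Fin d → ℤ) (k : UnitAddTorus (Fin d)) : cs (-h) k = cs h k := by
  unfold cs
  rw [UnitAddTorus.mFourier_neg, Complex.conj_re]

theorem norm_mF (h : Fin d → ℤ) (k : UnitAddTorus (Fin d)) :
    ‖UnitAddTorus.mFourier h k‖ ≤ 1 :=
  ((UnitAddTorus.mFourier h).norm_coe_le_norm k).trans UnitAddTorus.mFourier_norm.le

theorem cs_le (h : Fin d → ℤ) (k : UnitAddTorus (Fin d)) : |cs h k| ≤ 1 :=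
  (Complex.abs_re_le_norm _).trans (norm_mF h k)

theorem mF_coe (h : Fin d → ℤ) (x : Fin d → ℝ) :
    UnitAddTorus.mFourier h (fun i => (x i : UnitAddCircle)) =
      Complex.exp (Complex.I * ((2 * Real.pi * ∑ i, (h i : ℝ) * x i : ℝ) : ℂ)) := by
  show ∏ i, fourier (h i) ((x i : ℝ) : UnitAddCircle) = _
  simp only [fourier_coe_apply]
  rw [← Complex.exp_sum]
  congr 1
  push_cast
  rw [Finset.mul_sum, Finset.mul_sum]
  refine Finset.sum_congr rfl fun i _ => ?_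
  ring

theorem cs_lip (h : Fin d → ℤ) (x y : Fin d → ℝ) {ε : ℝ} (hε : ∀ i, |x i - y i| ≤ ε) :
    |cs h (fun i => (x i : UnitAddCircle)) - cs h (fun i => (y i : UnitAddCircle))| ≤
      2 * Real.pi * d * ‖h‖ * ε := by
  unfold cs
  rw [← Complex.sub_re]
  refine (Complex.abs_re_le_norm _).trans ?_
  rw [mF_coe, mF_coe]
  set a : ℝ := 2 * Real.pi * ∑ i, (h i : ℝ) * x i with ha
  set b : ℝ := 2 * Real.pi * ∑ i, (h i : ℝ) * y i with hb
  have h1 : Complex.exp (Complex.I * (a : ℂ)) - Complex.exp (Complex.I * (b : ℂ)) =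
      Complex.exp (Complex.I * (b : ℂ)) * (Complex.exp (Complex.I * ((a - b : ℝ) : ℂ)) - 1) := by
    rw [mul_sub, mul_one, ← Complex.exp_add]
    congr 2
    push_cast
    ring
  rw [h1, norm_mul]
  have h2 : ‖Complex.exp (Complex.I * (b : ℂ))‖ = 1 := by
    rw [mul_comm]; exact Complex.norm_exp_ofReal_mul_I b
  rw [h2, one_mul]
  refine Real.norm_exp_I_mul_ofReal_sub_one_le.trans ?_
  rw [Real.norm_eq_abs]
  have h3 : a - b = 2 * Real.pi * ∑ i, (h i : ℝ) * (x i - y i) := by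
    rw [ha, hb, ← mul_sub, ← Finset.sum_sub_distrib]
    congr 1
    exact Finset.sum_congr rfl fun i _ => by ring
  rw [h3, abs_mul, abs_of_pos (by positivity : (0 : ℝ) < 2 * Real.pi)]
  have h4 : |∑ i, (h i : ℝ) * (x i - y i)| ≤ d * (‖h‖ * ε) := by
    refine (Finset.abs_sum_le_sum_abs _ _).trans ?_
    have : ∀ i ∈ (Finset.univ : Finset (Fin d)), |(h i : ℝ) * (x i - y i)| ≤ ‖h‖ * ε := by
      intro i _
      rw [abs_mul]
      have h5 := norm_le_pi_norm h i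
      rw [Int.norm_eq_abs] at h5
      exact mul_le_mul (by exact_mod_cast h5) (hε i) (abs_nonneg _) (norm_nonneg _)
    refine (Finset.sum_le_sum this).trans (le_of_eq ?_)
    simp
  calc 2 * Real.pi * |∑ i, (h i : ℝ) * (x i - y i)| ≤ 2 * Real.pi * (d * (‖h‖ * ε)) := by
        gcongr
    _ = _ := by ring

end Pool.Agent.T2H19.RF
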