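import Pool.Agent.T2H19.RF2

/-!
# Random Fourier series with power law coefficients, part 3: the supremum of a block
-/

set_option autoImplicit false
set_option linter.unusedSectionVars false

open MeasureTheory ProbabilityTheory Filter Topology
open scoped ENNReal

namespace Pool.Agent.T2H19.RF

open Pool.Agent.T2H19

variable {d : ℕ}

theorem summable_exp {A κ ρ : ℝ} (hA : 0 ≤ A) (hκ : 0 < κ) (hρ : 1 < ρ) :
    Summable (fun j : ℕ => A ^ j * Real.exp (-(κ * ρ ^ j))) := by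
  obtain ⟨n, hn⟩ := pow_unbounded_of_one_lt (2 * A) hρ
  have hρn : 0 < ρ ^ n := by positivity
  have hg : Summable (fun j : ℕ => ((n.factorial : ℝ) / κ ^ n) * (1 / 2 : ℝ) ^ j) :=
    (summable_geometric_of_lt_one (by norm_num) (by norm_num)).mul_left _
  refine Summable.of_nonneg_of_le (fun j => by positivity) (fun j => ?_) hg
  have hx : 0 < κ * ρ ^ j := by positivity
  have h1 : Real.exp (-(κ * ρ ^ j)) ≤ n.factorial / (κ * ρ ^ j) ^ n := by
    rw [Real.exp_neg, inv_le_comm₀ (Real.exp_pos _) (by positivity), inv_div]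
    exact Real.pow_div_factorial_le_exp _ hx.le n
  have h2 : A / ρ ^ n ≤ 1 / 2 := by
    rw [div_le_div_iff₀ hρn (by norm_num)]
    linarith
  calc A ^ j * Real.exp (-(κ * ρ ^ j)) ≤ A ^ j * (n.factorial / (κ * ρ ^ j) ^ n) :=
        mul_le_mul_of_nonneg_left h1 (by positivity)
    _ = (n.factorial / κ ^ n) * (A / ρ ^ n) ^ j := by
        rw [mul_pow, div_pow, ← pow_mul, ← pow_mul, mul_comm j n]
        field_simp
    _ ≤ _ := by
        have h3 : 0 ≤ A / ρ ^ n := by positivity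
        gcongr

/-- the coefficient -/
noncomputable def pw (β : ℝ) (h : Fin d → ℤ) : ℝ := ‖h‖ ^ (-β)

theorem pw_nonneg (β : ℝ) (h : Fin d → ℤ) : 0 ≤ pw β h := Real.rpow_nonneg (norm_nonneg _) _

theorem pw_neg (β : ℝ) (h : Fin d → ℤ) : pw β (-h) = pw β h := by
  unfold pw
  rw [norm_neg]

theorem pw_le {β : ℝ} (hβ : 0 < β) {j : ℕ} {h : Fin d → ℤ} (hh : h ∈ blk d j) :
    pw β h ≤ ((2 : ℝ) ^ j) ^ (-β) :=
  Real.rpow_le_rpow_of_nonpos (by positivity) (mem_blk.mp hh).1 (by linarith)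

theorem pw_le_one {β : ℝ} (hβ : 0 < β) {j : ℕ} {h : Fin d → ℤ} (hh : h ∈ blk d j) :
    pw β h ≤ 1 := by
  refine (pw_le hβ hh).trans ?_
  refine Real.rpow_le_one_of_one_le_of_nonpos ?_ (by linarith)
  exact one_le_pow₀ (by norm_num)

/-- the ratio -/
noncomputable def rt (d : ℕ) (β : ℝ) : ℝ := (2 : ℝ) ^ (-(2 * β - d) / 4)

theorem rt_pos (d : ℕ) (β : ℝ) : 0 < rt d β := Real.rpow_pos_of_pos (by norm_num) _

theorem rt_lt {β : ℝ} (hβ : (d : ℝ) / 2 < β) : rt d β < 1 :=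
  Real.rpow_lt_one_of_one_lt_of_neg (by norm_num) (by linarith)

theorem var_le {β : ℝ} (hβ : 0 < β) (j : ℕ) (k : UnitAddTorus (Fin d)) :
    ∑ h ∈ blk d j, (pw β h * cs h k) ^ 2 ≤ 8 ^ d * (rt d β ^ j) ^ 4 := by
  have h1 : ∀ h ∈ blk d j, (pw β h * cs h k) ^ 2 ≤ (((2 : ℝ) ^ j) ^ (-β)) ^ 2 := by
    intro h hh
    rw [mul_pow]
    have h2 : cs h k ^ 2 ≤ 1 := by
      rw [← sq_abs]
      exact pow_le_one₀ (abs_nonneg _) (cs_le h k)
    calc pw β h ^ 2 * cs h k ^ 2 ≤ pw β h ^ 2 * 1 := by gcongr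
      _ = pw β h ^ 2 := mul_one _
      _ ≤ _ := pow_le_pow_left₀ (pw_nonneg _ _) (pw_le hβ hh) 2
  refine (Finset.sum_le_sum h1).trans ?_
  rw [Finset.sum_const, nsmul_eq_mul]
  calc ((blk d j).card : ℝ) * (((2 : ℝ) ^ j) ^ (-β)) ^ 2
      ≤ (8 ^ d * ((2 : ℝ) ^ j) ^ d) * (((2 : ℝ) ^ j) ^ (-β)) ^ 2 := by
        gcongr
        exact card_blk j
    _ = 8 ^ d * (rt d β ^ j) ^ 4 := by
        rw [mul_assoc]
        congr 1
        have e1 : ((2 : ℝ) ^ j) ^ d = (2 : ℝ) ^ ((j : ℝ) * d) := by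
          rw [← pow_mul, ← Real.rpow_natCast]
          push_cast
          rfl
        have e2 : (((2 : ℝ) ^ j) ^ (-β)) ^ 2 = (2 : ℝ) ^ ((j : ℝ) * (-β) * 2) := by
          rw [← Real.rpow_natCast 2 j, ← Real.rpow_mul (by norm_num), ← Real.rpow_natCast,
            ← Real.rpow_mul (by norm_num)]
          norm_num
        have e3 : (rt d β ^ j) ^ 4 = (2 : ℝ) ^ (-(2 * β - d) / 4 * j * 4) := by
          unfold rt
          rw [← Real.rpow_natCast _ j, ← Real.rpow_mul (by norm_num), ← Real.rpow_natCast,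
            ← Real.rpow_mul (by norm_num)]
          norm_num
        rw [e1, e2, e3, ← Real.rpow_add (by norm_num)]
        congr 1
        ring

/-- the polynomial of the block -/
noncomputable def Pr (β : ℝ) (j : ℕ) (r : (Fin d → ℤ) → Bool) (k : UnitAddTorus (Fin d)) : ℝ :=
  XX (blk d j) (fun h => pw β h * cs h k) r

/-- size of the grid -/
def NN (d j : ℕ) : ℕ := 2 ^ ((d + 2) * j)

/-- the grid -/
noncomputable def gr (j : ℕ) (m : Fin d → Fin (NN d j)) : UnitAddTorus (Fin d) :=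
  fun i => (((m i : ℕ) : ℝ) / NN d j : ℝ)

theorem NN_pos (d j : ℕ) : 0 < NN d j := by unfold NN; positivity

theorem approx {β : ℝ} (hβ : 0 < β) (j : ℕ) (r : (Fin d → ℤ) → Bool) (k : UnitAddTorus (Fin d)) :
    ∃ m : Fin d → Fin (NN d j), |Pr β j r k - Pr β j r (gr j m)| ≤
      (8 ^ d * (4 * Real.pi * d)) * (1 / 2) ^ j := by
  have hN : (0 : ℝ) < NN d j := by exact_mod_cast NN_pos d j
  let x : Fin d → ℝ := fun i => (AddCircle.equivIco 1 0 (k i)).1
  have hx : ∀ i, x i ∈ Set.Ico (0 : ℝ) (0 + 1) := fun i => (AddCircle.equivIco 1 0 (k i)).2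
  have hk : k = fun i => (x i : UnitAddCircle) := by
    funext i
    exact (AddCircle.coe_equivIco (p := 1) (a := 0) (y := k i)).symm
  have hm : ∀ i, ⌊(NN d j : ℝ) * x i⌋₊ < NN d j := by
    intro i
    rw [Nat.floor_lt (mul_nonneg hN.le (hx i).1)]
    have := (hx i).2
    rw [zero_add] at this
    calc (NN d j : ℝ) * x i < NN d j * 1 := mul_lt_mul_of_pos_left this hN
      _ = _ := mul_one _
  let m : Fin d → Fin (NN d j) := fun i => ⟨⌊(NN d j : ℝ) * x i⌋₊, hm i⟩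
  refine ⟨m, ?_⟩
  have hy : gr j m = fun i => ((((m i : ℕ) : ℝ) / NN d j : ℝ) : UnitAddCircle) := rfl
  have hclose : ∀ i, |x i - ((m i : ℕ) : ℝ) / NN d j| ≤ 1 / NN d j := by
    intro i
    have h1 := Nat.floor_le (mul_nonneg hN.le (hx i).1)
    have h2 := Nat.lt_floor_add_one ((NN d j : ℝ) * x i)
    have h3 : x i - ((m i : ℕ) : ℝ) / NN d j =
        ((NN d j : ℝ) * x i - (⌊(NN d j : ℝ) * x i⌋₊ : ℝ)) / NN d j := by
      show x i - ((⌊(NN d j : ℝ) * x i⌋₊ : ℕ) : ℝ) / NN d j = _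
      field_simp
    rw [h3, abs_div, abs_of_pos hN, abs_of_nonneg (by linarith)]
    gcongr
    linarith
  have h1 : Pr β j r k - Pr β j r (gr j m) =
      ∑ h ∈ blk d j, sg r h * (pw β h * (cs h k - cs h (gr j m))) := by
    unfold Pr XX
    rw [← Finset.sum_sub_distrib]
    exact Finset.sum_congr rfl fun h _ => by ring
  rw [h1]
  refine (Finset.abs_sum_le_sum_abs _ _).trans ?_
  have h2 : ∀ h ∈ blk d j, |sg r h * (pw β h * (cs h k - cs h (gr j m)))| ≤
      2 * Real.pi * d * 2 ^ (j + 1) * (1 / NN d j) := by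
    intro h hh
    rw [abs_mul, abs_mul, abs_of_nonneg (pw_nonneg β h)]
    have e1 : |sg r h| = 1 := by
      rcases sg_cases r h with e | e <;> rw [e] <;> simp
    rw [e1, one_mul]
    have e2 : |cs h k - cs h (gr j m)| ≤ 2 * Real.pi * d * ‖h‖ * (1 / NN d j) := by
      rw [hk, hy]
      exact cs_lip h _ _ hclose
    calc pw β h * |cs h k - cs h (gr j m)| ≤ 1 * (2 * Real.pi * d * ‖h‖ * (1 / NN d j)) := by
          refine mul_le_mul (pw_le_one hβ hh) e2 (abs_nonneg _) (by norm_num)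
      _ ≤ _ := by
          rw [one_mul]
          have := (mem_blk.mp hh).2.le
          gcongr
  refine (Finset.sum_le_sum h2).trans ?_
  rw [Finset.sum_const, nsmul_eq_mul]
  have h3 : (0 : ℝ) ≤ 2 * Real.pi * d * 2 ^ (j + 1) * (1 / NN d j) := by positivity
  calc ((blk d j).card : ℝ) * (2 * Real.pi * d * 2 ^ (j + 1) * (1 / NN d j))
      ≤ (8 ^ d * ((2 : ℝ) ^ j) ^ d) * (2 * Real.pi * d * 2 ^ (j + 1) * (1 / NN d j)) :=
        mul_le_mul_of_nonneg_right (card_blk j) h3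
    _ = (8 ^ d * (4 * Real.pi * d)) * (1 / 2) ^ j := by
        have h4 : ((NN d j : ℕ) : ℝ) = ((2 : ℝ) ^ j) ^ d * 2 ^ j * 2 ^ j := by
          unfold NN
          push_cast
          rw [← pow_mul, ← pow_add, ← pow_add]
          congr 1
          ring
        rw [h4, pow_succ, one_div_pow]
        have h5 : (0 : ℝ) < 2 ^ j := by positivity
        field_simp
        ring

/-- the bad event -/
def bad (β : ℝ) (j : ℕ) : Set ((Fin d → ℤ) → Bool) :=
  {r | ∃ m : Fin d → Fin (NN d j), rt d β ^ j ≤ |Pr β j r (gr j m)|}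

theorem bad_le {β : ℝ} (hβ : 0 < β) (j : ℕ) :
    PR d (bad β j) ≤ ENNReal.ofReal (((2 : ℝ) ^ ((d + 2) * d)) ^ j *
      (2 * Real.exp (-((1 / (4 * 8 ^ d)) * ((rt d β ^ 2)⁻¹) ^ j)))) := by
  have hr := rt_pos d β
  have h1 : ∀ m : Fin d → Fin (NN d j), PR d {r | rt d β ^ j ≤ |Pr β j r (gr j m)|} ≤
      ENNReal.ofReal (2 * Real.exp (-((1 / (4 * 8 ^ d)) * ((rt d β ^ 2)⁻¹) ^ j))) := by
    intro m
    have h2 := tail_abs (fun h => pw β h * cs h (gr j m))
      (fun h => by simp only [pw_neg, cs_neg]) (blk d j) (fun h => neg_mem_blk)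
      (zero_notMem_blk j) (V := 8 ^ d * (rt d β ^ j) ^ 4) (L := rt d β ^ j) (by positivity)
      (by positivity) (var_le hβ j _)
    refine h2.trans (le_of_eq ?_)
    congr 4
    have h5 : (rt d β ^ 2) ^ j = (rt d β ^ j) ^ 2 := by rw [← pow_mul, ← pow_mul, mul_comm]
    rw [inv_pow, h5]
    have : 0 < rt d β ^ j := by positivity
    field_simp
  have h3 : bad β j ⊆ ⋃ m : Fin d → Fin (NN d j), {r | rt d β ^ j ≤ |Pr β j r (gr j m)|} := by
    rintro r ⟨m, hm⟩
    exact Set.mem_iUnion.mpr ⟨m, hm⟩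
  refine (measure_mono h3).trans ((measure_iUnion_fintype_le _ _).trans ?_)
  refine (Finset.sum_le_sum fun m _ => h1 m).trans ?_
  rw [Finset.sum_const, nsmul_eq_mul, ← ENNReal.ofReal_natCast,
    ← ENNReal.ofReal_mul (by positivity)]
  refine le_of_eq ?_
  congr 2
  rw [Finset.card_univ, Fintype.card_fun, Fintype.card_fin, Fintype.card_fin, NN]
  push_cast
  rw [← pow_mul, ← pow_mul]
  congr 1
  ring

theorem ae_good {β : ℝ} (hβ : (d : ℝ) / 2 < β) :
    ∀ᵐ r ∂(PR d), ∀ᶠ j in atTop, ∀ k : UnitAddTorus (Fin d), |Pr β j r k| ≤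
      rt d β ^ j + (8 ^ d * (4 * Real.pi * d)) * (1 / 2) ^ j := by
  have hβ0 : 0 < β := lt_of_le_of_lt (by positivity) hβ
  have hr := rt_pos d β
  have hr1 := rt_lt hβ
  have hs : Summable (fun j : ℕ => ((2 : ℝ) ^ ((d + 2) * d)) ^ j *
      (2 * Real.exp (-((1 / (4 * 8 ^ d)) * ((rt d β ^ 2)⁻¹) ^ j)))) := by
    have h1 := (summable_exp (A := (2 : ℝ) ^ ((d + 2) * d)) (κ := 1 / (4 * 8 ^ d))
      (ρ := (rt d β ^ 2)⁻¹) (by positivity) (by positivity)
      ((one_lt_inv₀ (by positivity)).mpr (pow_lt_one₀ hr.le hr1 two_ne_zero))).mul_left 2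
    refine h1.congr fun j => by ring
  have h2 : ∑' j, PR d (bad (d := d) β j) ≠ ∞ := by
    refine ne_top_of_le_ne_top ?_ (ENNReal.tsum_le_tsum fun j => bad_le hβ0 j)
    rw [← ENNReal.ofReal_tsum_of_nonneg (fun j => by positivity) hs]
    exact ENNReal.ofReal_ne_top
  filter_upwards [ae_eventually_notMem h2] with r hr2
  filter_upwards [hr2] with j hj k
  obtain ⟨m, hm⟩ := approx hβ0 j r k
  have h3 : |Pr β j r (gr j m)| ≤ rt d β ^ j := by
    by_contra hc
    exact hj ⟨m, (not_le.mp hc).le⟩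
  calc |Pr β j r k| = |Pr β j r (gr j m) + (Pr β j r k - Pr β j r (gr j m))| := by
        congr 1; ring
    _ ≤ _ := (abs_add_le _ _).trans (add_le_add h3 hm)

end Pool.Agent.T2H19.RF
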