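import Pool.Agent.T2H19.RF3

/-!
# Random Fourier series with power law coefficients, part 4: the theorem
-/

set_option autoImplicit false
set_option linter.unusedSectionVars false

open MeasureTheory ProbabilityTheory Filter Topology
open scoped ENNReal

/-- We normalise the measure on `ℝ / ℤ` to have total volume 1. -/
noncomputable local instance : MeasureSpace UnitAddCircle := ⟨AddCircle.haarAddCircle⟩

/-- The measure on `ℝ / ℤ` is a Haar measure. -/
local instance : Measure.IsAddHaarMeasure (volume : Measure UnitAddCircle) :=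
  inferInstanceAs (Measure.IsAddHaarMeasure AddCircle.haarAddCircle)

/-- The measure on `ℝ / ℤ` is a probability measure. -/
local instance : IsProbabilityMeasure (volume : Measure UnitAddCircle) :=
  inferInstanceAs (IsProbabilityMeasure AddCircle.haarAddCircle)

namespace Pool.Agent.T2H19.RF

open Pool.Agent.T2H19

variable {d : ℕ}

/-- the Fourier coefficient as a continuous linear functional -/
noncomputable def cof (h : Fin d → ℤ) : C(UnitAddTorus (Fin d), ℂ) →L[ℂ] ℂ :=
  (innerSL ℂ (UnitAddTorus.mFourierLp (d := Fin d) 2 h)).comp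
    (ContinuousMap.toLp (E := ℂ) 2 (volume : Measure (UnitAddTorus (Fin d))) ℂ)

theorem cof_eq (h : Fin d → ℤ) (f : C(UnitAddTorus (Fin d), ℂ)) :
    cof h f = UnitAddTorus.mFourierCoeff f h := by
  rw [← UnitAddTorus.mFourierCoeff_toLp, ← UnitAddTorus.mFourierBasis_repr,
    HilbertBasis.repr_apply_apply, UnitAddTorus.coe_mFourierBasis]
  rfl

theorem cof_mF (h k : Fin d → ℤ) :
    cof h (UnitAddTorus.mFourier k) = if h = k then 1 else 0 := by
  have := orthonormal_iff_ite.mp (UnitAddTorus.orthonormal_mFourier (d := Fin d)) h k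
  exact this

/-- the block as a complex function -/
noncomputable def Pc (β : ℝ) (j : ℕ) (r : (Fin d → ℤ) → Bool) : C(UnitAddTorus (Fin d), ℂ) :=
  ∑ h ∈ blk d j, ((sg r h * pw β h : ℝ) : ℂ) • UnitAddTorus.mFourier h

theorem Pc_apply (β : ℝ) (j : ℕ) (r : (Fin d → ℤ) → Bool) (k : UnitAddTorus (Fin d)) :
    Pc β j r k = ∑ h ∈ blk d j, ((sg r h * pw β h : ℝ) : ℂ) * UnitAddTorus.mFourier h k := by
  unfold Pc
  rw [ContinuousMap.sum_apply]
  rfl

theorem Pc_real (β : ℝ) (j : ℕ) (r : (Fin d → ℤ) → Bool) (k : UnitAddTorus (Fin d)) :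
    Pc β j r k = (Pr β j r k : ℂ) := by
  have h1 : (starRingEnd ℂ) (Pc β j r k) = Pc β j r k := by
    rw [Pc_apply, map_sum]
    refine Finset.sum_nbij' (fun h => -h) (fun h => -h) (fun h hh => neg_mem_blk hh)
      (fun h hh => neg_mem_blk hh) (fun h _ => neg_neg h) (fun h _ => neg_neg h) (fun h _ => ?_)
    rw [map_mul, Complex.conj_ofReal, sg_neg, pw_neg, UnitAddTorus.mFourier_neg]
  have h2 : Pc β j r k = ((Pc β j r k).re : ℂ) := (Complex.conj_eq_iff_re.mp h1).symm
  rw [h2]
  congr 1
  rw [Pc_apply, Complex.re_sum]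
  unfold Pr XX cs
  refine Finset.sum_congr rfl fun h _ => ?_
  rw [Complex.re_ofReal_mul]
  ring

theorem cof_Pc (β : ℝ) (j : ℕ) (r : (Fin d → ℤ) → Bool) (h : Fin d → ℤ) :
    cof h (Pc β j r) = if h ∈ blk d j then ((sg r h * pw β h : ℝ) : ℂ) else 0 := by
  unfold Pc
  rw [map_sum]
  have : ∀ k ∈ blk d j, cof h (((sg r k * pw β k : ℝ) : ℂ) • UnitAddTorus.mFourier k) =
      if h = k then ((sg r k * pw β k : ℝ) : ℂ) else 0 := by
    intro k _
    rw [map_smul, cof_mF]
    split_ifs <;> simp
  rw [Finset.sum_congr rfl this, Finset.sum_ite_eq]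

theorem fourier : FourierStmt := by
  intro d β hβ
  have hβ0 : 0 < β := lt_of_le_of_lt (by positivity) hβ
  have hr := rt_pos d β
  have hr1 := rt_lt hβ
  filter_upwards [ae_good hβ] with r hgood
  have hC : (0 : ℝ) ≤ 8 ^ d * (4 * Real.pi * d) := by positivity
  have hsum : Summable (fun j => Pc β j r) := by
    have h1 : Summable (fun j : ℕ => rt d β ^ j + (8 ^ d * (4 * Real.pi * d)) * (1 / 2) ^ j) :=
      (summable_geometric_of_lt_one hr.le hr1).add
        ((summable_geometric_of_lt_one (by norm_num) (by norm_num)).mul_left _)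
    refine Summable.of_norm_bounded_eventually_nat h1 ?_
    filter_upwards [hgood] with j hj
    rw [ContinuousMap.norm_le _ (by positivity)]
    intro k
    rw [Pc_real, Complex.norm_real, Real.norm_eq_abs]
    exact hj k
  set B := ∑' j, Pc β j r with hB
  have hB1 : HasSum (fun j => Pc β j r) B := hsum.hasSum
  have hreal : ∀ k, ((B k).re : ℂ) = B k := by
    intro k
    have h1 : HasSum (fun j => Pc β j r k) (B k) := ContinuousMap.hasSum_apply hB1 k
    have h2 : HasSum (fun j => (Pc β j r k).im) (B k).im := Complex.hasSum_im h1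
    have h3 : (fun j => (Pc β j r k).im) = fun _ => 0 := by
      funext j
      rw [Pc_real, Complex.ofReal_im]
    rw [h3] at h2
    have h4 : (B k).im = 0 := h2.unique hasSum_zero
    apply Complex.ext
    · simp
    · simp [h4]
  refine ⟨⟨fun k => (B k).re, Complex.continuous_re.comp B.continuous⟩, fun h => ?_⟩
  have e1 : (fun k => (((⟨fun k => (B k).re, Complex.continuous_re.comp B.continuous⟩ :
      C(UnitAddTorus (Fin d), ℝ)) k : ℝ) : ℂ)) = B := by
    funext k
    exact hreal k
  rw [e1, ← cof_eq]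
  have h1 : HasSum (fun j => cof h (Pc β j r)) (cof h B) := hB1.mapL (cof h)
  simp only [cof_Pc] at h1
  by_cases hh : h = 0
  · subst hh
    simp only [zero_notMem_blk, if_false] at h1
    rw [h1.unique hasSum_zero, norm_zero, Real.zero_rpow (by linarith), mul_zero,
      Complex.ofReal_zero]
  · obtain ⟨j0, hj0⟩ := exists_blk hh
    have h2 : HasSum (fun j => if h ∈ blk d j then ((sg r h * pw β h : ℝ) : ℂ) else 0)
        (((sg r h * pw β h : ℝ) : ℂ)) := by
      have h3 := hasSum_ite_eq j0 (((sg r h * pw β h : ℝ) : ℂ))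
      have h4 : (fun j => if h ∈ blk d j then ((sg r h * pw β h : ℝ) : ℂ) else 0) =
          fun j => if j = j0 then ((sg r h * pw β h : ℝ) : ℂ) else 0 := by
        funext j
        by_cases hj : j = j0
        · rw [hj, if_pos hj0, if_pos rfl]
        · rw [if_neg hj, if_neg (fun hc => hj (blk_unique hc hj0))]
      rw [h4]
      exact h3
    rw [h1.unique h2]
    rfl

end Pool.Agent.T2H19.RF
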