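import Mathlib

/-! Resolvents of finite Hermitian matrices. -/

set_option autoImplicit false

namespace Pool.Agent.T2H19

open Matrix
open scoped BigOperators ComplexConjugate

noncomputable section

variable {V : Type*} [Fintype V] [DecidableEq V]

/-- The resolvent. -/
def Gr (M : Matrix V V ℂ) (z : ℂ) : Matrix V V ℂ := (M - z • (1 : Matrix V V ℂ))⁻¹

theorem herm_im (M : Matrix V V ℂ) (hM : M.IsHermitian) (u : V → ℂ) :
    (∑ x, conj (u x) * (M *ᵥ u) x).im = 0 := by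
  have h : conj (∑ x, conj (u x) * (M *ᵥ u) x) = ∑ x, conj (u x) * (M *ᵥ u) x := by
    simp only [Matrix.mulVec, dotProduct, map_sum, map_mul, Complex.conj_conj, Finset.mul_sum]
    rw [Finset.sum_comm]
    refine Finset.sum_congr rfl fun x _ => Finset.sum_congr rfl fun y _ => ?_
    have := hM.apply x y
    rw [← this]
    simp only [RCLike.star_def]
    ring_nf
  exact Complex.conj_eq_iff_im.1 h

/-- `‖u‖² |Im z| ≤ ‖u‖ ‖q‖`. -/
theorem norm_bd (M : Matrix V V ℂ) (hM : M.IsHermitian) (z : ℂ) (u q : V → ℂ)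
    (h : ∀ x, (M *ᵥ u) x - z * u x = q x) :
    z.im ^ 2 * ∑ x, ‖u x‖ ^ 2 ≤ ∑ x, ‖q x‖ ^ 2 := by
  have h1 : ∑ x, conj (u x) * (M *ᵥ u) x = ∑ x, conj (u x) * q x + z * ((∑ x, ‖u x‖ ^ 2 : ℝ) : ℂ) := by
    have : ∀ x, conj (u x) * (M *ᵥ u) x = conj (u x) * q x + z * ((‖u x‖ ^ 2 : ℝ) : ℂ) := by
      intro x
      rw [← h x]
      have := Complex.conj_mul' (u x)
      push_cast
      rw [← this]
      ring
    rw [Finset.sum_congr rfl fun x _ => this x, Finset.sum_add_distrib, ← Finset.mul_sum]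
    push_cast
    rfl
  have h2 := congrArg Complex.im h1
  rw [herm_im M hM u, Complex.add_im, Complex.mul_im, Complex.ofReal_im, Complex.ofReal_re,
    mul_zero, zero_add] at h2
  have hS : 0 ≤ ∑ x, ‖u x‖ ^ 2 := Finset.sum_nonneg fun _ _ => by positivity
  have h3 : |z.im| * ∑ x, ‖u x‖ ^ 2 ≤ ∑ x, ‖u x‖ * ‖q x‖ := by
    have e : z.im * ∑ x, ‖u x‖ ^ 2 = -(∑ x, conj (u x) * q x).im := by linarith
    rw [← abs_of_nonneg hS, ← abs_mul, e, abs_neg]
    refine (Complex.abs_im_le_norm _).trans ((norm_sum_le _ _).trans (le_of_eq ?_))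
    refine Finset.sum_congr rfl fun x _ => ?_
    rw [norm_mul, RCLike.norm_conj]
  have h4 := Finset.sum_mul_sq_le_sq_mul_sq Finset.univ (fun x => ‖u x‖) (fun x => ‖q x‖)
  have h5 : (|z.im| * ∑ x, ‖u x‖ ^ 2) ^ 2 ≤ (∑ x, ‖u x‖ ^ 2) * ∑ x, ‖q x‖ ^ 2 :=
    (pow_le_pow_left₀ (by positivity) h3 2).trans h4
  rcases eq_or_lt_of_le hS with h0 | h0
  · rw [← h0, mul_zero]
    exact Finset.sum_nonneg fun _ _ => by positivity
  · rw [mul_pow, sq_abs, sq (∑ x, ‖u x‖ ^ 2), ← mul_assoc, mul_comm (z.im ^ 2 * _),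
      ] at h5
    exact le_of_mul_le_mul_left h5 h0

theorem isUnit_det (M : Matrix V V ℂ) (hM : M.IsHermitian) {z : ℂ} (hz : z.im ≠ 0) :
    IsUnit (M - z • (1 : Matrix V V ℂ)).det := by
  rw [isUnit_iff_ne_zero]
  intro h
  obtain ⟨u, hu, h1⟩ := Matrix.exists_mulVec_eq_zero_iff.2 h
  have h2 := norm_bd M hM z u 0 (by
    intro x
    have := congrFun h1 x
    rw [Matrix.sub_mulVec, Matrix.smul_mulVec, Matrix.one_mulVec] at this
    simpa using this)
  simp only [Pi.zero_apply, norm_zero, ne_eq, OfNat.ofNat_ne_zero, not_false_eq_true, zero_pow,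
    Finset.sum_const_zero] at h2
  have hz2 : 0 < z.im ^ 2 := by positivity
  have h3 : ∑ x, ‖u x‖ ^ 2 ≤ 0 := by
    by_contra hc
    push Not at hc
    have := mul_pos hz2 hc
    linarith
  have h4 : ∀ x, ‖u x‖ ^ 2 = 0 := by
    have h5 := (Finset.sum_eq_zero_iff_of_nonneg (fun x _ => by positivity)).1
      (le_antisymm h3 (Finset.sum_nonneg fun x _ => by positivity : 0 ≤ ∑ x, ‖u x‖ ^ 2))
    exact fun x => h5 x (Finset.mem_univ x)
  apply hu
  funext x
  have := h4 x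
  simpa using this

theorem Gr_mul (M : Matrix V V ℂ) (hM : M.IsHermitian) {z : ℂ} (hz : z.im ≠ 0) :
    Gr M z * (M - z • (1 : Matrix V V ℂ)) = 1 :=
  Matrix.nonsing_inv_mul _ (isUnit_det M hM hz)

theorem mul_Gr (M : Matrix V V ℂ) (hM : M.IsHermitian) {z : ℂ} (hz : z.im ≠ 0) :
    (M - z • (1 : Matrix V V ℂ)) * Gr M z = 1 :=
  Matrix.mul_nonsing_inv _ (isUnit_det M hM hz)

theorem Gr_conjTranspose (M : Matrix V V ℂ) (hM : M.IsHermitian) (z : ℂ) :
    (Gr M z)ᴴ = Gr M (conj z) := by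
  unfold Gr
  rw [Matrix.conjTranspose_nonsing_inv, Matrix.conjTranspose_sub, hM.eq, Matrix.conjTranspose_smul,
    Matrix.conjTranspose_one]
  rfl

/-- Resolvent identity. -/
theorem Gr_sub (M N : Matrix V V ℂ) (hM : M.IsHermitian) (hN : N.IsHermitian) {z w : ℂ}
    (hz : z.im ≠ 0) (hw : w.im ≠ 0) :
    Gr M z - Gr N w = Gr M z * (N - M + (z - w) • (1 : Matrix V V ℂ)) * Gr N w := by
  have h1 : N - M + (z - w) • (1 : Matrix V V ℂ)
      = (N - w • (1 : Matrix V V ℂ)) - (M - z • (1 : Matrix V V ℂ)) := by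
    rw [sub_smul]; abel
  rw [h1, mul_sub, sub_mul, mul_assoc, mul_Gr N hN hw, Gr_mul M hM hz, mul_one, one_mul]

/-- Vector bound. -/
theorem Gr_vec (M : Matrix V V ℂ) (hM : M.IsHermitian) {z : ℂ} (hz : z.im ≠ 0) (q : V → ℂ) :
    z.im ^ 2 * ∑ x, ‖(Gr M z *ᵥ q) x‖ ^ 2 ≤ ∑ x, ‖q x‖ ^ 2 := by
  refine norm_bd M hM z _ q fun x => ?_
  have h1 : (M - z • (1 : Matrix V V ℂ)) *ᵥ (Gr M z *ᵥ q) = q := by
    rw [Matrix.mulVec_mulVec, mul_Gr M hM hz, Matrix.one_mulVec]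
  have h2 := congrFun h1 x
  rw [Matrix.sub_mulVec, Matrix.smul_mulVec, Matrix.one_mulVec] at h2
  simpa using h2

/-- Row vector bound. -/
theorem Gr_row (M : Matrix V V ℂ) (hM : M.IsHermitian) {z : ℂ} (hz : z.im ≠ 0) (q : V → ℂ) :
    z.im ^ 2 * ∑ x, ‖∑ y, q y * Gr M z y x‖ ^ 2 ≤ ∑ x, ‖q x‖ ^ 2 := by
  have hz' : (conj z).im ≠ 0 := by simpa using hz
  have h := Gr_vec M hM hz' (fun x => conj (q x))
  have e : ∀ x, (Gr M (conj z) *ᵥ (fun x => conj (q x))) x = conj (∑ y, q y * Gr M z y x) := by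
    intro x
    rw [← Gr_conjTranspose M hM z]
    simp only [Matrix.mulVec, dotProduct, Matrix.conjTranspose_apply, map_sum, map_mul,
      RCLike.star_def]
    exact Finset.sum_congr rfl fun y _ => mul_comm _ _
  simp only [e, RCLike.norm_conj, Complex.conj_im, neg_sq] at h
  exact h

/-- Ward identity, rows. -/
theorem ward_row (M : Matrix V V ℂ) (hM : M.IsHermitian) {z : ℂ} (hz : z.im ≠ 0) (x : V) :
    z.im * ∑ y, ‖Gr M z x y‖ ^ 2 = (Gr M z x x).im := by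
  have hz' : (conj z).im ≠ 0 := by simpa using hz
  have h := Gr_sub M M hM hM hz hz'
  rw [sub_self, zero_add, Matrix.mul_smul, Matrix.mul_one, Matrix.smul_mul,
    ← Gr_conjTranspose M hM z] at h
  have h1 := congrArg Complex.im (congrFun (congrFun h x) x)
  simp only [Matrix.sub_apply, Matrix.conjTranspose_apply, Matrix.smul_apply, Matrix.mul_apply,
    RCLike.star_def, Complex.sub_im, Complex.conj_im, sub_neg_eq_add, smul_eq_mul] at h1
  have e : ∑ y, Gr M z x y * conj (Gr M z x y) = ((∑ y, ‖Gr M z x y‖ ^ 2 : ℝ) : ℂ) := by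
    push_cast
    exact Finset.sum_congr rfl fun y _ => Complex.mul_conj' _
  rw [e, Complex.mul_im, Complex.sub_im, Complex.conj_im, Complex.ofReal_re, Complex.ofReal_im,
    mul_zero, zero_add] at h1
  linarith

/-- Ward identity, columns. -/
theorem ward_col (M : Matrix V V ℂ) (hM : M.IsHermitian) {z : ℂ} (hz : z.im ≠ 0) (x : V) :
    z.im * ∑ y, ‖Gr M z y x‖ ^ 2 = (Gr M z x x).im := by
  have hz' : (conj z).im ≠ 0 := by simpa using hz
  have h := ward_row M hM hz' x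
  rw [← Gr_conjTranspose M hM z] at h
  simp only [Matrix.conjTranspose_apply, RCLike.star_def, Complex.conj_im, RCLike.norm_conj] at h
  linarith

theorem im_nonneg (M : Matrix V V ℂ) (hM : M.IsHermitian) {z : ℂ} (hz : 0 < z.im) (x : V) :
    0 ≤ (Gr M z x x).im := by
  rw [← ward_row M hM hz.ne' x]
  positivity

theorem Gr_col_le (M : Matrix V V ℂ) (hM : M.IsHermitian) {z : ℂ} (hz : z.im ≠ 0) (x : V) :
    z.im ^ 2 * ∑ y, ‖Gr M z y x‖ ^ 2 ≤ 1 := by
  have h := Gr_vec M hM hz (Pi.single x 1)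
  have e : ∀ y, (Gr M z *ᵥ (Pi.single x 1 : V → ℂ)) y = Gr M z y x := by
    intro y
    rw [Matrix.mulVec_single_one]
    rfl
  simp only [e] at h
  refine h.trans (le_of_eq ?_)
  rw [Finset.sum_eq_single x]
  · simp
  · intro y _ hy
    simp [hy]
  · simp

theorem Gr_le (M : Matrix V V ℂ) (hM : M.IsHermitian) {z : ℂ} (hz : z.im ≠ 0) (x y : V) :
    ‖Gr M z x y‖ ≤ 1 / |z.im| := by
  have h := Gr_col_le M hM hz y
  have h1 : ‖Gr M z x y‖ ^ 2 ≤ ∑ y', ‖Gr M z y' y‖ ^ 2 :=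
    Finset.single_le_sum (f := fun y' => ‖Gr M z y' y‖ ^ 2) (fun _ _ => by positivity)
      (Finset.mem_univ x)
  have h2 : (|z.im| * ‖Gr M z x y‖) ^ 2 ≤ 1 ^ 2 := by
    rw [mul_pow, sq_abs, one_pow]
    exact (mul_le_mul_of_nonneg_left h1 (by positivity)).trans h
  have h3 := (pow_le_pow_iff_left₀ (by positivity) (by positivity) two_ne_zero).1 h2
  rw [le_div_iff₀ (abs_pos.2 hz)]
  linarith

theorem im_le (M : Matrix V V ℂ) (hM : M.IsHermitian) {z : ℂ} (hz : 0 < z.im) (x : V) :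
    (Gr M z x x).im ≤ 1 / z.im := by
  refine (le_abs_self _).trans ((Complex.abs_im_le_norm _).trans ?_)
  have := Gr_le M hM hz.ne' x x
  rwa [abs_of_pos hz] at this

end

end Pool.Agent.T2H19
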