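import Mathlib

/-! Boxes and tori. -/

set_option autoImplicit false

namespace Pool.Agent.T2H19

open Filter Topology
open scoped BigOperators

noncomputable section

/-- The lattice. -/
abbrev Zd (d : ℕ) : Type := Fin d → ℤ

/-- The torus with side `2 n + 1`. -/
abbrev TV (d n : ℕ) : Type := Fin d → ZMod (2 * n + 1)

/-- Maximum norm. -/
def nm {d : ℕ} (h : Zd d) : ℕ := Finset.univ.sup fun i => (h i).natAbs

theorem nm_le_iff {d : ℕ} (h : Zd d) (r : ℕ) : nm h ≤ r ↔ ∀ i, (h i).natAbs ≤ r := by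
  unfold nm
  rw [Finset.sup_le_iff]
  simp

theorem nm_eq_zero {d : ℕ} (h : Zd d) : nm h = 0 ↔ h = 0 := by
  rw [← Nat.le_zero, nm_le_iff]
  constructor
  · intro h1
    funext i
    have := h1 i
    simpa using this
  · intro h1 i
    rw [h1]
    simp

theorem nm_neg {d : ℕ} (h : Zd d) : nm (-h) = nm h := by
  unfold nm
  simp

theorem nm_norm {d : ℕ} (h : Zd d) : ‖h‖ = (nm h : ℝ) := by
  apply le_antisymm
  · rw [pi_norm_le_iff_of_nonneg (by positivity)]
    intro i
    have h1 : ((h i).natAbs : ℝ) ≤ nm h := by exact_mod_cast (nm_le_iff h (nm h)).1 le_rfl i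
    rw [Int.norm_eq_abs]
    have h2 : ((h i).natAbs : ℝ) = |(h i : ℝ)| := by
      rw [Nat.cast_natAbs]; push_cast; rfl
    rw [← h2]
    exact h1
  · have h1 : nm h ≤ ⌊‖h‖⌋₊ := by
      rw [nm_le_iff]
      intro i
      rw [Nat.le_floor_iff (norm_nonneg _)]
      have h2 : ((h i).natAbs : ℝ) = |(h i : ℝ)| := by
        rw [Nat.cast_natAbs]; push_cast; rfl
      rw [h2, ← Int.norm_eq_abs]
      exact norm_le_pi_norm h i
    exact (Nat.cast_le.2 h1).trans (Nat.floor_le (norm_nonneg _))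

/-- Representatives of the points of the torus. -/
def lf {d n : ℕ} (v : TV d n) : Zd d := fun i => (v i).valMinAbs

theorem lf_inj {d n : ℕ} : Function.Injective (lf : TV d n → Zd d) := by
  intro v w h
  funext i
  exact ZMod.injective_valMinAbs (congrFun h i)

theorem nm_lf {d n : ℕ} (v : TV d n) : nm (lf v) ≤ n := by
  rw [nm_le_iff]
  intro i
  have := ZMod.natAbs_valMinAbs_le (v i)
  have h2 : (2 * n + 1) / 2 = n := by omega
  rw [h2] at this
  exact this

/-- The point of the torus of a lattice point. -/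
def qt {d n : ℕ} (h : Zd d) : TV d n := fun i => ((h i : ℤ) : ZMod (2 * n + 1))

theorem lf_qt {d n : ℕ} (h : Zd d) (hh : nm h ≤ n) : lf (qt h : TV d n) = h := by
  funext i
  unfold lf qt
  rw [ZMod.valMinAbs_spec]
  refine ⟨rfl, ?_⟩
  have := (nm_le_iff h n).1 hh i
  simp only [Set.mem_Ioc]
  push_cast
  omega

theorem qt_lf {d n : ℕ} (v : TV d n) : qt (lf v) = v := by
  funext i
  exact ZMod.coe_valMinAbs (v i)

theorem qt_sub {d n : ℕ} (a b : Zd d) : (qt (a - b) : TV d n) = qt a - qt b := by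
  funext i
  simp [qt]

theorem qt_neg {d n : ℕ} (a : Zd d) : (qt (-a) : TV d n) = -qt a := by
  funext i
  simp [qt]

theorem lf_neg {d n : ℕ} (v : TV d n) : lf (-v) = -lf v := by
  have h1 : (-v : TV d n) = qt (-lf v) := by rw [qt_neg, qt_lf]
  rw [h1, lf_qt]
  rw [nm_neg]
  exact nm_lf v

theorem lf_sub {d n : ℕ} (v w : TV d n) (h : nm (lf v - lf w) ≤ n) :
    lf (v - w) = lf v - lf w := by
  have h1 : v - w = qt (lf v - lf w) := by rw [qt_sub, qt_lf, qt_lf]
  rw [h1, lf_qt _ h]

theorem lf_zero {d n : ℕ} : lf (0 : TV d n) = 0 := by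
  funext i
  simp [lf]

theorem lf_eq_zero {d n : ℕ} (v : TV d n) : lf v = 0 ↔ v = 0 := by
  constructor
  · intro h
    apply lf_inj
    rw [h, lf_zero]
  · rintro rfl
    exact lf_zero

theorem nm_lf_sub {d n : ℕ} (v w : TV d n) : nm (lf (v - w)) ≤ nm (lf v - lf w) := by
  rw [nm_le_iff]
  intro i
  refine le_trans ?_ ((nm_le_iff (lf v - lf w) _).1 le_rfl i)
  have h1 : (((v - w) i).valMinAbs : ZMod (2 * n + 1)) = (((lf v - lf w) i : ℤ) : ZMod (2 * n + 1)) := by
    rw [ZMod.coe_valMinAbs]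
    simp [lf]
  exact ZMod.natAbs_min_of_le_div_two (2 * n + 1) _ _ h1 (ZMod.natAbs_valMinAbs_le _)

theorem card_arc (n r : ℕ) (hr : r ≤ n) :
    (Finset.univ.filter fun a : ZMod (2 * n + 1) => a.valMinAbs.natAbs ≤ r).card = 2 * r + 1 := by
  have h1 : (Finset.univ.filter fun a : ZMod (2 * n + 1) => a.valMinAbs.natAbs ≤ r)
      = (Finset.Icc (-(r : ℤ)) r).image (fun k : ℤ => (k : ZMod (2 * n + 1))) := by
    ext a
    simp only [Finset.mem_filter, Finset.mem_univ, true_and, Finset.mem_image, Finset.mem_Icc]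
    constructor
    · intro h
      refine ⟨a.valMinAbs, ?_, ZMod.coe_valMinAbs a⟩
      omega
    · rintro ⟨k, hk, rfl⟩
      have : ((k : ZMod (2 * n + 1))).valMinAbs = k := by
        rw [ZMod.valMinAbs_spec]
        refine ⟨rfl, ?_⟩
        simp only [Set.mem_Ioc]
        push_cast
        omega
      rw [this]
      omega
  rw [h1, Finset.card_image_of_injOn, Int.card_Icc]
  · omega
  · intro a ha b hb hab
    simp only [Finset.coe_Icc, Set.mem_Icc] at ha hb
    have e1 : ∀ k : ℤ, -(r : ℤ) ≤ k ∧ k ≤ r → ((k : ZMod (2 * n + 1))).valMinAbs = k := by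
      intro k hk
      rw [ZMod.valMinAbs_spec]
      refine ⟨rfl, ?_⟩
      simp only [Set.mem_Ioc]
      push_cast
      omega
    rw [← e1 a ha, ← e1 b hb]
    exact congrArg _ hab

theorem card_ball (d n r : ℕ) (hr : r ≤ n) :
    (Finset.univ.filter fun v : TV d n => nm (lf v) ≤ r).card = (2 * r + 1) ^ d := by
  have h1 : (Finset.univ.filter fun v : TV d n => nm (lf v) ≤ r)
      = Fintype.piFinset fun _ : Fin d =>
        (Finset.univ.filter fun a : ZMod (2 * n + 1) => a.valMinAbs.natAbs ≤ r) := by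
    ext v
    simp only [Finset.mem_filter, Finset.mem_univ, true_and, Fintype.mem_piFinset, nm_le_iff]
    rfl
  rw [h1, Fintype.card_piFinset_const, card_arc n r hr]

theorem card_TV (d n : ℕ) : Fintype.card (TV d n) = (2 * n + 1) ^ d := by
  have := card_ball d n n le_rfl
  rw [← this, ← Finset.card_univ]
  congr 1
  ext v
  simp [nm_lf]

end

end Pool.Agent.T2H19
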