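import Mathlib

/-! Fair coins and random even signs on `ℤ^d`. -/

set_option autoImplicit false

namespace Pool.Agent.T2H19

open MeasureTheory
open scoped ENNReal

noncomputable section

/-- The fair coin. -/
def coin : Measure Bool :=
  (2⁻¹ : ℝ≥0∞) • Measure.dirac true + (2⁻¹ : ℝ≥0∞) • Measure.dirac false

instance : IsProbabilityMeasure coin := by
  constructor
  unfold coin
  rw [Measure.add_apply, Measure.smul_apply, Measure.smul_apply, measure_univ, measure_univ,
    smul_eq_mul, mul_one, ENNReal.inv_two_add_inv_two]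

/-- Random signs with `sg r (-h) = sg r h`. -/
def sg {d : ℕ} (r : (Fin d → ℤ) → Bool) (h : Fin d → ℤ) : ℝ := if r h = r (-h) then 1 else -1

theorem sg_neg {d : ℕ} (r : (Fin d → ℤ) → Bool) (h : Fin d → ℤ) : sg r (-h) = sg r h := by
  unfold sg
  rw [neg_neg]
  simp only [eq_comm]

theorem sg_sq {d : ℕ} (r : (Fin d → ℤ) → Bool) (h : Fin d → ℤ) : sg r h ^ 2 = 1 := by
  unfold sg
  split_ifs <;> norm_num

/-- The law of the coins. -/
def PR (d : ℕ) : Measure ((Fin d → ℤ) → Bool) := Measure.infinitePi fun _ => coin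

instance (d : ℕ) : IsProbabilityMeasure (PR d) := by
  unfold PR
  infer_instance

/-- The power law profile with random even signs has a continuous symbol. -/
def FourierStmt : Prop := ∀ (d : ℕ) (β : ℝ), (d : ℝ) / 2 < β →
  ∀ᵐ r ∂(PR d), ∃ b : C(UnitAddTorus (Fin d), ℝ), ∀ h : Fin d → ℤ,
    UnitAddTorus.mFourierCoeff (fun k => ((b k : ℝ) : ℂ)) h = ((sg r h * ‖h‖ ^ (-β) : ℝ) : ℂ)

end

end Pool.Agent.T2H19
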