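import Pool.Agent.T2H19.R3

/-! Perturbations by translation invariant hopping over one distance. -/

set_option autoImplicit false

namespace Pool.Agent.T2H19

open MeasureTheory Filter Topology Matrix
open scoped BigOperators ComplexConjugate ENNReal

noncomputable section

variable {d : ℕ}

/-- Shift of a vector. -/
def sE (c : Zd d) : E2 (Zd d) →ₗᵢ[ℂ] E2 (Zd d) where
  toFun U := ⟨fun u => U (u + c),
    mem2 (((Equiv.addRight c).summable_iff (f := fun y => ‖U y‖ ^ 2)).2 (sm2 U))⟩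
  map_add' U V := by
    apply lp.ext
    funext u
    rfl
  map_smul' a U := by
    apply lp.ext
    funext u
    rfl
  norm_map' U := by
    have h : ‖(⟨fun u => U (u + c), mem2 (((Equiv.addRight c).summable_iff
        (f := fun y => ‖U y‖ ^ 2)).2 (sm2 U))⟩ : E2 (Zd d))‖ ^ 2 = ‖U‖ ^ 2 := by
      rw [norm2, norm2]
      exact (Equiv.addRight c).tsum_eq fun y => ‖U y‖ ^ 2
    exact (pow_left_inj₀ (norm_nonneg _) (norm_nonneg _) two_ne_zero).1 h

theorem sE_apply (c : Zd d) (U : E2 (Zd d)) (u : Zd d) : sE c U u = U (u + c) := rfl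

/-- Hopping by `y` and `-y`. -/
def hop (y : Zd d) : E2 (Zd d) →ₗ[ℂ] E2 (Zd d) := (sE y).toLinearMap + (sE (-y)).toLinearMap

theorem hop_def (y : Zd d) (U : E2 (Zd d)) : hop y U = sE y U + sE (-y) U := rfl

theorem hop_norm (y : Zd d) (U : E2 (Zd d)) : ‖hop y U‖ ≤ 2 * ‖U‖ := by
  rw [hop_def]
  refine (norm_add_le _ _).trans (le_of_eq ?_)
  rw [(sE y).norm_map, (sE (-y)).norm_map]
  ring

/-- The resolvent identity for the perturbation. -/
theorem shift_UU {H H' : Zd d → Zd d → ℂ} (g : Good H) (g' : Good H') {z : ℂ} (hz : z.im ≠ 0)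
    (y : Zd d) (s : ℝ) (hD : ∀ u v, H' u v = H u v
      + (s : ℂ) * ((if u = v + y then 1 else 0) + (if u = v - y then 1 else 0))) (u x : Zd d) :
    Uc g hz x u - conj (Uc g' hz u x) = s * inner ℂ (hop y (Uc g' hz u)) (Uc g hz x)
      + (z - conj z) * inner ℂ (Uc g' hz u) (Uc g hz x) := by
  choose f hf using fun n : ℕ => g.ap z hz x (1 / ((n : ℝ) + 1)) (by positivity)
  have hlim : Tendsto (fun n : ℕ => 1 / ((n : ℝ) + 1)) atTop (𝓝 0) :=
    tendsto_one_div_add_atTop_nhds_zero_nat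
  have hT : Tendsto (fun n => Tz H g.adm z (f n)) atTop (𝓝 (dl x)) := by
    rw [tendsto_iff_norm_sub_tendsto_zero]
    exact squeeze_zero (fun _ => norm_nonneg _) hf hlim
  have hJ : Tendsto (fun n => Jf (f n)) atTop (𝓝 (Uc g hz x)) := by
    rw [tendsto_iff_norm_sub_tendsto_zero]
    have h6 := hlim.div_const |z.im|
    rw [zero_div] at h6
    refine squeeze_zero (fun _ => norm_nonneg _) (fun n => ?_) h6
    rw [le_div_iff₀ (abs_pos.2 hz), mul_comm]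
    exact (Uc_V g hz x (f n)).trans (hf n)
  obtain ⟨W, hW⟩ : ∃ W, W = Uc g' hz u := ⟨_, rfl⟩
  have hcl : ∀ v, inner ℂ (cl H' g'.adm v) W = inner ℂ (cl H g.adm v) W
      + (s : ℂ) * (hop y W : E2 (Zd d)) v := by
    intro v
    have e1 : cl H' g'.adm v = cl H g.adm v + (s : ℂ) • (dl (v + y) + dl (v - y)) := by
      apply lp.ext
      funext w
      rw [lp.coeFn_add, Pi.add_apply, lp.coeFn_smul, Pi.smul_apply, lp.coeFn_add, Pi.add_apply,
        dl_apply, dl_apply, smul_eq_mul]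
      show H' w v = H w v + _
      rw [hD]
    rw [e1, inner_add_left, inner_smul_left, inner_add_left, inner_dl, inner_dl,
      Complex.conj_ofReal, hop_def, lp.coeFn_add, Pi.add_apply, sE_apply, sE_apply, sub_eq_add_neg]
  have hU : ∀ v, inner ℂ (cl H' g'.adm v) W - z * W v = if v = u then 1 else 0 := by
    rw [hW]
    exact Uc_U g' hz u
  rw [← hW]
  have e2 : ∀ n, inner ℂ (Tz H g.adm z (f n)) W
      = conj (f n u) + inner ℂ (Jf (f n)) ((z - conj z) • W - (s : ℂ) • hop y W) := by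
    intro n
    have h3 := inner_Tz H g.adm (conj z) (f n) W
    rw [Complex.conj_conj] at h3
    have h4 : ∀ v ∈ (f n).support, conj (f n v) * (inner ℂ (cl H g.adm v) W
        - conj z * W v) = conj (f n v) * (if v = u then 1 else 0)
          + conj (f n v) * ((z - conj z) • W - (s : ℂ) • hop y W : E2 (Zd d)) v := by
      intro v _
      have h5 := hU v
      rw [hcl] at h5
      rw [lp.coeFn_sub, Pi.sub_apply, lp.coeFn_smul, Pi.smul_apply, lp.coeFn_smul, Pi.smul_apply,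
        smul_eq_mul, smul_eq_mul]
      linear_combination (conj (f n v)) * h5
    rw [h3, Finset.sum_congr rfl h4, Finset.sum_add_distrib, ← inner_Jf]
    congr 1
    simp only [mul_ite, mul_one, mul_zero]
    rw [Finset.sum_ite_eq']
    split_ifs with h
    · rfl
    · rw [Finsupp.notMem_support_iff.1 h, map_zero]
  have l1 : Tendsto (fun n => inner ℂ (Tz H g.adm z (f n)) W) atTop
      (𝓝 (inner ℂ (dl x) W)) := hT.inner tendsto_const_nhds
  have l2 : Tendsto (fun n => conj (f n u)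
        + inner ℂ (Jf (f n)) ((z - conj z) • W - (s : ℂ) • hop y W)) atTop
      (𝓝 (conj (Uc g hz x u) + inner ℂ (Uc g hz x) ((z - conj z) • W - (s : ℂ) • hop y W))) := by
    refine Tendsto.add ?_ (hJ.inner tendsto_const_nhds)
    have h1 : Tendsto (fun n => Jf (f n) u) atTop (𝓝 (Uc g hz x u)) := by
      have : Tendsto (fun n => inner ℂ (dl u) (Jf (f n))) atTop
          (𝓝 (inner ℂ (dl u) (Uc g hz x))) := tendsto_const_nhds.inner hJ
      simpa only [inner_dl] using this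
    simp only [Jf_apply] at h1
    exact (Complex.continuous_conj.tendsto _).comp h1
  simp only [e2] at l1
  have e3 := tendsto_nhds_unique l1 l2
  rw [inner_dl, inner_sub_right, inner_smul_right, inner_smul_right] at e3
  have e4 := congrArg conj e3
  rw [map_add, map_sub, map_mul, map_mul, map_sub, Complex.conj_conj, Complex.conj_conj,
    Complex.conj_ofReal, inner_conj_symm, inner_conj_symm] at e4
  linear_combination -e4

/-- The normalized column. -/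
def nc {H : Zd d → Zd d → ℂ} (g : Good H) {z : ℂ} (hz : 0 < z.im) (x : Zd d) : E2 (Zd d) :=
  (Gi H z x x)⁻¹ • Uc g hz.ne' x

theorem nc_apply {H : Zd d → Zd d → ℂ} (g : Good H) {z : ℂ} (hz : 0 < z.im) (x u : Zd d) :
    nc g hz x u = Gi H z u x / Gi H z x x := by
  unfold nc
  rw [lp.coeFn_smul, Pi.smul_apply, smul_eq_mul, Gi_eq g hz.ne' u x]
  ring

theorem nc_norm {H : Zd d → Zd d → ℂ} (g : Good H) {z : ℂ} (hz : 0 < z.im) (x : Zd d) :
    ‖nc g hz x‖ ^ 2 = kap H z x := by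
  have h3 : 0 < ‖Gi H z x x‖ := norm_pos_iff.2 (Gi_ne g hz x)
  unfold nc kap
  rw [norm_smul, norm_inv, mul_pow, inv_pow, Gi_eq g hz.ne' x x, ← norm_Uc g hz.ne' x]
  rw [Gi_eq g hz.ne' x x] at h3
  field_simp

theorem nc_le {H : Zd d → Zd d → ℂ} (g : Good H) {z : ℂ} (hz : 0 < z.im) (x : Zd d) {K : ℝ}
    (h : kap H z x ≤ K) : ‖nc g hz x‖ ≤ √K := by
  rw [← nc_norm g hz x] at h
  exact Real.le_sqrt_of_sq_le h

/-- Difference of the normalized columns. -/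
theorem nc_sub {H : Zd d → Zd d → ℂ} (g : Good H) {E η η' : ℝ} (hη : 0 < η) (h : η ≤ η')
    (x : Zd d) :
    ‖nc g (z := ⟨E, η⟩) hη x - nc g (z := ⟨E, η'⟩) (hη.trans_le h) x‖ ^ 2
      ≤ kap H ⟨E, η⟩ x - kap H ⟨E, η'⟩ x := by
  have hη' : 0 < η' := hη.trans_le h
  obtain ⟨z, hz⟩ : ∃ z : ℂ, z = ⟨E, η⟩ := ⟨_, rfl⟩
  obtain ⟨w, hw⟩ : ∃ w : ℂ, w = ⟨E, η'⟩ := ⟨_, rfl⟩
  have hz0 : 0 < z.im := by rw [hz]; exact hη
  have hw0 : 0 < w.im := by rw [hw]; exact hη'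
  have e0 : nc g (z := ⟨E, η⟩) hη x = nc g hz0 x := by subst hz; rfl
  have e1 : nc g (z := ⟨E, η'⟩) (hη.trans_le h) x = nc g hw0 x := by subst hw; rfl
  rw [e0, e1, ← hz, ← hw]
  have hU := inner_UU g hz0.ne' hw0.ne' x x
  have gz := Gi_ne g hz0 x
  have gw := Gi_ne g hw0 x
  have gwc : conj (Gi H w x x) ≠ 0 := by rwa [Ne, map_eq_zero]
  have hin : (z - conj w) * inner ℂ (nc g hw0 x) (nc g hz0 x) = sf H z x - conj (sf H w x) := by
    unfold nc sf
    rw [inner_smul_left, inner_smul_right, map_neg, map_inv₀]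
    rw [← Gi_eq g hz0.ne' x x, ← Gi_eq g hw0.ne' x x] at hU
    field_simp
    linear_combination hU
  have hzw : z - conj w = ((η + η' : ℝ) : ℂ) * Complex.I := by
    rw [hz, hw]
    apply Complex.ext <;> simp
  obtain ⟨I, hI⟩ : ∃ I : ℂ, I = inner ℂ (nc g hw0 x) (nc g hz0 x) := ⟨_, rfl⟩
  rw [← hI] at hin
  have him := congrArg Complex.im hin
  rw [hzw, Complex.sub_im, Complex.conj_im, sf_im g hz0, sf_im g hw0] at him
  have hre : (((η + η' : ℝ) : ℂ) * Complex.I * I).im = (η + η') * I.re := by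
    rw [mul_assoc, Complex.im_ofReal_mul]
    simp
  have hzi : z.im = η := by rw [hz]
  have hwi : w.im = η' := by rw [hw]
  rw [hre, hzi, hwi] at him
  have hn := @norm_sub_sq ℂ (E2 (Zd d)) _ _ _ (nc g hz0 x) (nc g hw0 x)
  rw [nc_norm, nc_norm, ← inner_conj_symm, ← hI] at hn
  have hre2 : RCLike.re (conj I) = I.re := by simp
  rw [hre2] at hn
  rw [hn]
  have hm := kap_mono g (E := E) hη h x
  rw [← hz, ← hw] at hm
  have hpos : 0 < η + η' := by linarith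
  have h5 : (η + η') * (kap H z x - 2 * I.re + kap H w x)
      ≤ (η + η') * (kap H z x - kap H w x) := by
    nlinarith
  exact le_of_mul_le_mul_left h5 hpos

/-- Perturbation of normalized vectors. -/
theorem near {k ε : ℝ} {p q : E2 (Zd d)} (hp : ‖p‖ ≤ k) (hq : ‖q‖ ≤ k) (hε : ε ≤ 1 / 4)
    {ρ ρ' : ℂ} (h1 : ‖ρ‖ ≤ ε) (h2 : ‖ρ'‖ ≤ ε) :
    ‖(1 - ρ * ρ')⁻¹ • (p - ρ' • q) - p‖ ≤ 2 * ε * k ∧
      ‖(1 - ρ * ρ')⁻¹ • (p - ρ' • q)‖ ≤ 2 * k := by
  have hε0 : 0 ≤ ε := (norm_nonneg _).trans h1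
  have hk0 : 0 ≤ k := (norm_nonneg _).trans hp
  have hρ : ‖ρ * ρ'‖ ≤ 1 / 16 := by
    rw [norm_mul]
    calc ‖ρ‖ * ‖ρ'‖ ≤ (1 / 4) * (1 / 4) :=
          mul_le_mul (h1.trans hε) (h2.trans hε) (norm_nonneg _) (by norm_num)
      _ = _ := by norm_num
  have h3 : 15 / 16 ≤ ‖1 - ρ * ρ'‖ := by
    have := norm_sub_norm_le (1 : ℂ) (ρ * ρ')
    rw [norm_one] at this
    linarith
  have hne : (1 - ρ * ρ') ≠ 0 := by
    intro h
    rw [h, norm_zero] at h3
    norm_num at h3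
  have e : (1 - ρ * ρ')⁻¹ • (p - ρ' • q) - p = (1 - ρ * ρ')⁻¹ • ((ρ * ρ') • p - ρ' • q) := by
    have : p = (1 - ρ * ρ')⁻¹ • ((1 - ρ * ρ') • p) := by
      rw [smul_smul, inv_mul_cancel₀ hne, one_smul]
    nth_rw 2 [this]
    rw [← smul_sub]
    congr 1
    rw [sub_smul, one_smul]
    abel
  have h4 : ‖(1 - ρ * ρ')⁻¹ • (p - ρ' • q) - p‖ ≤ 2 * ε * k := by
    rw [e, norm_smul, norm_inv]
    have h5 : ‖(ρ * ρ') • p - ρ' • q‖ ≤ 5 / 4 * ε * k := by
      refine (norm_sub_le _ _).trans ?_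
      rw [norm_smul, norm_smul, norm_mul]
      have h6 : ‖ρ‖ * ‖ρ'‖ * ‖p‖ ≤ (1 / 4) * ε * k :=
        mul_le_mul (mul_le_mul (h1.trans hε) h2 (norm_nonneg _) (by norm_num)) hp (norm_nonneg _)
          (by positivity)
      have h7 : ‖ρ'‖ * ‖q‖ ≤ ε * k := mul_le_mul h2 hq (norm_nonneg _) hε0
      linarith
    rw [inv_mul_le_iff₀ (by linarith)]
    refine h5.trans ?_
    have : 0 ≤ ε * k := mul_nonneg hε0 hk0
    nlinarith
  refine ⟨h4, ?_⟩
  have h5 := norm_add_le ((1 - ρ * ρ')⁻¹ • (p - ρ' • q) - p) p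
  rw [sub_add_cancel] at h5
  have : 2 * ε * k ≤ k := by nlinarith
  linarith

/-- Effective hopping before and after the change of the hopping over the distance `y`. -/
theorem ov {H H' : Zd d → Zd d → ℂ} (g : Good H) (g' : Good H') {z : ℂ} (hz : 0 < z.im)
    {y : Zd d} (hy : y ≠ 0) (s : ℝ) (hD : ∀ u v, H' u v = H u v
      + (s : ℂ) * ((if u = v + y then 1 else 0) + (if u = v - y then 1 else 0)))
    {K ε : ℝ} (hε : ε ≤ 1 / 4) (k1 : kap H z 0 ≤ K) (k2 : kap H z y ≤ K)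
    (k1' : kap H' z 0 ≤ K) (k2' : kap H' z y ≤ K)
    (r1 : ‖Gi H z y 0 / Gi H z 0 0‖ ≤ ε) (r2 : ‖Gi H z 0 y / Gi H z y y‖ ≤ ε)
    (r1' : ‖Gi H' z y 0 / Gi H' z 0 0‖ ≤ ε) (r2' : ‖Gi H' z 0 y / Gi H' z y y‖ ≤ ε) :
    |s| * (‖inner ℂ (hop y (nc g' hz 0)) (nc g hz y)‖ - 12 * ε * K) - 8 * K * z.im
      ≤ ‖Mk H z 0 y 0 1‖ + ‖Mk H' z 0 y 1 0‖ := by
  obtain ⟨a, ha⟩ : ∃ a, a = Gi H z 0 0 := ⟨_, rfl⟩
  obtain ⟨b, hb⟩ : ∃ b, b = Gi H z 0 y := ⟨_, rfl⟩
  obtain ⟨c, hc⟩ : ∃ c, c = Gi H z y 0 := ⟨_, rfl⟩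
  obtain ⟨e, he⟩ : ∃ e, e = Gi H z y y := ⟨_, rfl⟩
  obtain ⟨a', ha'⟩ : ∃ a', a' = Gi H' z 0 0 := ⟨_, rfl⟩
  obtain ⟨b', hb'⟩ : ∃ b', b' = Gi H' z 0 y := ⟨_, rfl⟩
  obtain ⟨c', hc'⟩ : ∃ c', c' = Gi H' z y 0 := ⟨_, rfl⟩
  obtain ⟨e', he'⟩ : ∃ e', e' = Gi H' z y y := ⟨_, rfl⟩
  have hdet := Bk_det g hz hy.symm
  have hdet' := Bk_det g' hz hy.symm
  have hd : (Bk H z 0 y).det = a * e - b * c := by
    unfold Bk
    rw [Matrix.det_fin_two_of, ha, hb, hc, he]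
  have hd' : (Bk H' z 0 y).det = a' * e' - b' * c' := by
    unfold Bk
    rw [Matrix.det_fin_two_of, ha', hb', hc', he']
  rw [hd] at hdet
  rw [hd'] at hdet'
  have m01 : Mk H z 0 y 0 1 = -b / (a * e - b * c) := by rw [Mk_eq, hd, hb]; rfl
  have m10 : Mk H' z 0 y 1 0 = -c' / (a' * e' - b' * c') := by rw [Mk_eq, hd', hc']; rfl
  have ga : a ≠ 0 := by rw [ha]; exact Gi_ne g hz 0
  have ge : e ≠ 0 := by rw [he]; exact Gi_ne g hz y
  have ga' : a' ≠ 0 := by rw [ha']; exact Gi_ne g' hz 0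
  have ge' : e' ≠ 0 := by rw [he']; exact Gi_ne g' hz y
  obtain ⟨U0, hU0⟩ : ∃ U, U = Uc g hz.ne' 0 := ⟨_, rfl⟩
  obtain ⟨Uy, hUy⟩ : ∃ U, U = Uc g hz.ne' y := ⟨_, rfl⟩
  obtain ⟨V0, hV0⟩ : ∃ U, U = Uc g' hz.ne' 0 := ⟨_, rfl⟩
  obtain ⟨Vy, hVy⟩ : ∃ U, U = Uc g' hz.ne' y := ⟨_, rfl⟩
  have s00 := shift_UU g g' hz.ne' y s hD 0 0
  have s0y := shift_UU g g' hz.ne' y s hD 0 y
  have sy0 := shift_UU g g' hz.ne' y s hD y 0
  have syy := shift_UU g g' hz.ne' y s hD y y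
  rw [← Gi_eq g hz.ne', ← Gi_eq g' hz.ne', ← hU0, ← hV0, ← ha, ← ha'] at s00
  rw [← Gi_eq g hz.ne', ← Gi_eq g' hz.ne', ← hUy, ← hV0, ← hb, ← hc'] at s0y
  rw [← Gi_eq g hz.ne', ← Gi_eq g' hz.ne', ← hU0, ← hVy, ← hc, ← hb'] at sy0
  rw [← Gi_eq g hz.ne', ← Gi_eq g' hz.ne', ← hUy, ← hVy, ← he, ← he'] at syy
  -- the vectors
  obtain ⟨p, hp⟩ : ∃ p, p = nc g hz y := ⟨_, rfl⟩
  obtain ⟨q, hq⟩ : ∃ q, q = nc g hz 0 := ⟨_, rfl⟩
  obtain ⟨p', hp'⟩ : ∃ p', p' = nc g' hz 0 := ⟨_, rfl⟩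
  obtain ⟨q', hq'⟩ : ∃ q', q' = nc g' hz y := ⟨_, rfl⟩
  have hp2 : p = e⁻¹ • Uy := by rw [hp, he, hUy]; rfl
  have hq2 : q = a⁻¹ • U0 := by rw [hq, ha, hU0]; rfl
  have hp2' : p' = a'⁻¹ • V0 := by rw [hp', ha', hV0]; rfl
  have hq2' : q' = e'⁻¹ • Vy := by rw [hq', he', hVy]; rfl
  rw [← hc, ← ha] at r1
  rw [← hb, ← he] at r2
  rw [← hc', ← ha'] at r1'
  rw [← hb', ← he'] at r2'
  obtain ⟨P, hP⟩ : ∃ P, P = (1 - c / a * (b / e))⁻¹ • (p - (b / e) • q) := ⟨_, rfl⟩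
  obtain ⟨P', hP'⟩ : ∃ P', P' = (1 - b' / e' * (c' / a'))⁻¹ • (p' - (c' / a') • q') := ⟨_, rfl⟩
  have n1 := near (nc_le g hz y k2) (nc_le g hz 0 k1) hε r1 r2
  have n2 := near (nc_le g' hz 0 k1') (nc_le g' hz y k2') hε r2' r1'
  rw [← hp, ← hq, ← hP] at n1
  rw [← hp', ← hq', ← hP'] at n2
  have hne : 1 - c / a * (b / e) ≠ 0 := by
    intro h
    apply hdet
    field_simp at h
    linear_combination h
  have hne' : 1 - b' / e' * (c' / a') ≠ 0 := by
    intro h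
    apply hdet'
    field_simp at h
    linear_combination h
  have hPU : P = (a * e - b * c)⁻¹ • (a • Uy - b • U0) := by
    rw [hP, hp2, hq2, smul_sub, smul_sub, smul_smul, smul_smul, smul_smul, smul_smul, smul_smul]
    congr 2
    · field_simp
    · field_simp
  have hPU' : P' = (a' * e' - b' * c')⁻¹ • (e' • V0 - c' • Vy) := by
    rw [hP', hp2', hq2', smul_sub, smul_sub, smul_smul, smul_smul, smul_smul, smul_smul, smul_smul]
    congr 2
    · field_simp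
    · field_simp
  have hid : conj (Mk H' z 0 y 1 0) - Mk H z 0 y 0 1
      = s * inner ℂ (hop y P') P + (z - conj z) * inner ℂ P' P := by
    rw [m10, m01, hPU, hPU', map_smul, map_sub, map_smul, map_smul]
    simp only [inner_smul_left, inner_smul_right, inner_sub_left, inner_sub_right]
    rw [map_div₀, map_neg, map_inv₀]
    have hdc : conj (a' * e' - b' * c') ≠ 0 := by rwa [Ne, map_eq_zero]
    obtain ⟨D', hD'⟩ : ∃ D', D' = conj (a' * e' - b' * c') := ⟨_, rfl⟩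
    obtain ⟨D₁, hD₁⟩ : ∃ D₁, D₁ = a * e - b * c := ⟨_, rfl⟩
    rw [← hD'] at hdc ⊢
    rw [← hD₁] at hdet ⊢
    have t00 : a - conj a' = s * inner ℂ (hop y V0) U0 + (z - conj z) * inner ℂ V0 U0 := s00
    have t0y : b - conj c' = s * inner ℂ (hop y V0) Uy + (z - conj z) * inner ℂ V0 Uy := s0y
    have ty0 : c - conj b' = s * inner ℂ (hop y Vy) U0 + (z - conj z) * inner ℂ Vy U0 := sy0
    have tyy : e - conj e' = s * inner ℂ (hop y Vy) Uy + (z - conj z) * inner ℂ Vy Uy := syy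
    have hD2 : D' = conj a' * conj e' - conj b' * conj c' := by
      rw [hD', map_sub, map_mul, map_mul]
    rw [eq_comm]
    field_simp
    linear_combination (conj e' * b) * t00 - (conj e' * a) * t0y - (conj c' * b) * ty0
      + (conj c' * a) * tyy - b * hD2 + conj c' * hD₁
  have hK0 : 0 ≤ K := by
    have := kap_one g hz 0
    linarith
  have hε0 : 0 ≤ ε := (norm_nonneg _).trans r1
  have hsK := Real.mul_self_sqrt hK0
  obtain ⟨k, hk⟩ : ∃ k, k = √K := ⟨_, rfl⟩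
  rw [← hk] at n1 n2 hsK
  have hk0 : 0 ≤ k := by rw [hk]; exact Real.sqrt_nonneg _
  have hpk : ‖p'‖ ≤ k := by rw [hp', hk]; exact nc_le g' hz 0 k1'
  have b1 : ‖inner ℂ (hop y P') P - inner ℂ (hop y p') p‖ ≤ 12 * ε * K := by
    have e1 : inner ℂ (hop y P') P - inner ℂ (hop y p') p
        = inner ℂ (hop y (P' - p')) P + inner ℂ (hop y p') (P - p) := by
      rw [map_sub, inner_sub_left, inner_sub_right]
      ring
    rw [e1]
    refine (norm_add_le _ _).trans ?_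
    have e2 : ‖inner ℂ (hop y (P' - p')) P‖ ≤ 2 * (2 * ε * k) * (2 * k) := by
      refine (norm_inner_le_norm _ _).trans ?_
      refine mul_le_mul ((hop_norm _ _).trans ?_) n1.2 (norm_nonneg _) (by positivity)
      linarith [n2.1]
    have e3 : ‖inner ℂ (hop y p') (P - p)‖ ≤ 2 * k * (2 * ε * k) := by
      refine (norm_inner_le_norm _ _).trans ?_
      refine mul_le_mul ((hop_norm _ _).trans ?_) n1.1 (norm_nonneg _) (by positivity)
      linarith
    nlinarith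
  have b2 : ‖inner ℂ P' P‖ ≤ 4 * K := by
    refine (norm_inner_le_norm _ _).trans ?_
    calc ‖P'‖ * ‖P‖ ≤ (2 * k) * (2 * k) :=
          mul_le_mul n2.2 n1.2 (norm_nonneg _) (by positivity)
      _ = 4 * K := by rw [← hsK]; ring
  have hzz : ‖z - conj z‖ = 2 * z.im := by
    have : z - conj z = ((2 * z.im : ℝ) : ℂ) * Complex.I := by
      apply Complex.ext <;> simp
      ring
    rw [this, norm_mul, Complex.norm_I, mul_one, Complex.norm_real,
      Real.norm_of_nonneg (by positivity)]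
  have b3 : ‖conj (Mk H' z 0 y 1 0) - Mk H z 0 y 0 1‖
      ≤ ‖Mk H z 0 y 0 1‖ + ‖Mk H' z 0 y 1 0‖ := by
    refine (norm_sub_le _ _).trans ?_
    rw [RCLike.norm_conj, add_comm]
  refine le_trans ?_ b3
  rw [hid]
  have b4 : ‖(s : ℂ) * inner ℂ (hop y P') P‖ ≤ ‖(s : ℂ) * inner ℂ (hop y P') P
      + (z - conj z) * inner ℂ P' P‖ + 2 * z.im * (4 * K) := by
    have h1 := norm_sub_le ((s : ℂ) * inner ℂ (hop y P') P + (z - conj z) * inner ℂ P' P)
      ((z - conj z) * inner ℂ P' P)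
    rw [add_sub_cancel_right, norm_mul (z - conj z), hzz] at h1
    have h2 := mul_le_mul_of_nonneg_left b2 (by positivity : 0 ≤ 2 * z.im)
    linarith
  rw [norm_mul, Complex.norm_real, Real.norm_eq_abs] at b4
  have b5 : ‖inner ℂ (hop y p') p‖ - 12 * ε * K ≤ ‖inner ℂ (hop y P') P‖ := by
    have := norm_sub_norm_le (inner ℂ (hop y p') p) (inner ℂ (hop y P') P)
    rw [norm_sub_rev] at b1
    linarith
  have b6 := mul_le_mul_of_nonneg_left b5 (abs_nonneg s)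
  rw [← hp, ← hp']
  linarith

end

end Pool.Agent.T2H19
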