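import Pool.Agent.T2H19.W9
import Pool.Agent.T2H19.R13

/-! Almost every choice of the signs. -/

set_option autoImplicit false

namespace Pool.Agent.T2H19

open MeasureTheory ProbabilityTheory Filter Topology
open scoped BigOperators ComplexConjugate ENNReal BoundedContinuousFunction

noncomputable section

variable {d : ℕ} {t a : Zd d → ℝ}

/-- The laws of a potential. -/
def mud (d : ℕ) (κ : Measure ℝ) (e : Sym2 (Zd d)) : Measure ℝ :=
  if e.IsDiag then κ else Measure.dirac 0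

instance (κ : Measure ℝ) [IsProbabilityMeasure κ] (e : Sym2 (Zd d)) :
    IsProbabilityMeasure (mud d κ e) := by
  unfold mud
  split_ifs <;> infer_instance

theorem mud_mk (κ : Measure ℝ) (x y : Zd d) :
    mud d κ s(x, y) = if x = y then κ else Measure.dirac 0 := by
  unfold mud
  simp only [Sym2.mk_isDiag_iff]

theorem mud_mr (κ : Measure ℝ) (ts : ∀ h, t (-h) = t h) (as : ∀ h, a (-h) = a h)
    (tm : Summable fun h => t h ^ 2) (am : Summable fun h => a h ^ 2) : Mr (mud d κ) t a := by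
  refine ⟨fun c x y => ?_, ts, as, tm, am, ?_⟩
  · rw [mud_mk, mud_mk]
    simp only [add_left_inj]
  · have h1 : ∀ h : Zd d, S2 (mud d κ) h = 0 := by
      intro h
      unfold S2
      split_ifs with h0
      · rfl
      · rw [mud_mk, if_neg (Ne.symm h0), lintegral_dirac' _ (by fun_prop)]
        simp
    rw [tsum_congr h1, tsum_zero]
    exact ENNReal.zero_ne_top

/-- Scaling of configurations. -/
theorem scale_mp (κ : Measure ℝ) [IsProbabilityMeasure κ] (σ : ℝ) :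
    MeasurePreserving (fun (ω : Om2 d) (e : Sym2 (Zd d)) => σ * ω e)
      (Measure.infinitePi (mud d κ)) (Measure.infinitePi (mud d (κ.map fun r => σ * r))) := by
  refine ⟨measurable_pi_lambda _ fun e => (measurable_const_mul σ).comp (measurable_pi_apply e), ?_⟩
  have h := Measure.infinitePi_map_pi (μ := mud d κ)
    (f := fun (_ : Sym2 (Zd d)) (r : ℝ) => σ * r) (fun _ => measurable_const_mul σ)
  refine h.trans ?_
  congr 1
  funext e
  unfold mud
  split_ifs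
  · rfl
  · rw [Measure.map_dirac' (measurable_const_mul σ), mul_zero]

theorem dens_scale {κ : Measure ℝ} {ρ : ℝ → ℝ} {C : ℝ} (h : Dens κ ρ C) {σ : ℝ} (hσ : σ ≠ 0) :
    Dens (κ.map fun r => σ * r) (fun x => |σ⁻¹| * ρ (σ⁻¹ * x)) (|σ⁻¹| * C) := by
  refine ⟨continuous_const.mul (h.cont.comp (continuous_const.mul continuous_id)),
    fun x => mul_nonneg (abs_nonneg _) (h.nn _),
    fun x => mul_le_mul_of_nonneg_left (h.bd _) (abs_nonneg _), ?_⟩
  have hρm : Measurable ρ := h.cont.measurable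
  ext s hs
  rw [Measure.map_apply (measurable_const_mul σ) hs, h.eq,
    withDensity_apply _ (measurable_const_mul σ hs), withDensity_apply _ hs,
    ← lintegral_indicator (measurable_const_mul σ hs), ← lintegral_indicator hs]
  have e1 : ∀ r : ℝ, ((fun r => σ * r) ⁻¹' s).indicator (fun r => ENNReal.ofReal (ρ r)) r
      = s.indicator (fun x => ENNReal.ofReal (ρ (σ⁻¹ * x))) (σ * r) := by
    intro r
    by_cases hr : σ * r ∈ s
    · rw [Set.indicator_of_mem (show r ∈ (fun r => σ * r) ⁻¹' s from hr), Set.indicator_of_mem hr,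
        inv_mul_cancel_left₀ hσ]
    · rw [Set.indicator_of_notMem (show r ∉ (fun r => σ * r) ⁻¹' s from hr),
        Set.indicator_of_notMem hr]
  have hg : Measurable (s.indicator (fun x => ENNReal.ofReal (ρ (σ⁻¹ * x)))) :=
    (hρm.comp (measurable_const_mul _)).ennreal_ofReal.indicator hs
  rw [lintegral_congr e1, ← lintegral_map hg (measurable_const_mul σ),
    Real.map_volume_mul_left hσ, lintegral_smul_measure, smul_eq_mul,
    ← lintegral_const_mul _ hg]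
  refine lintegral_congr fun x => ?_
  by_cases hx : x ∈ s
  · rw [Set.indicator_of_mem hx, Set.indicator_of_mem hx, ← ENNReal.ofReal_mul (abs_nonneg _)]
  · rw [Set.indicator_of_notMem hx, Set.indicator_of_notMem hx, mul_zero]

/-- The averaged Green functions. -/
def Fj (κ : Measure ℝ) (t a : Zd d → ℝ) (j : ℕ) (q : Rs d × (ℝ × ℝ)) : ℝ≥0∞ :=
  ∫⁻ ω, ENNReal.ofReal (et j * ‖Gi (HS (tt t a q.1) (fun e => q.2.1 * ω e)) ⟨q.2.2, et j⟩ 0 0‖ ^ 2)
    ∂(Measure.infinitePi (mud d κ))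

theorem Fj_meas (κ : Measure ℝ) [IsProbabilityMeasure κ] (ts : ∀ h, t (-h) = t h)
    (as : ∀ h, a (-h) = a h) (j : ℕ) : Measurable (Fj κ t a j) := by
  have h1 : Measurable fun p : (Rs d × (ℝ × ℝ)) × Om2 d =>
      Gi (HS (tt t a p.1.1) (fun e => p.1.2.1 * p.2 e)) ⟨p.1.2.2, et j⟩ 0 0 := by
    refine Gi_measG (fun p : (Rs d × (ℝ × ℝ)) × Om2 d => HS (tt t a p.1.1) (fun e => p.1.2.1 * p.2 e))
      (fun x y => ?_) (fun p x y => HS_herm (tt_even ts as p.1.1) _ x y)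
      (fun p => ⟨p.1.2.2, et j⟩) ?_ (fun _ => (et_pos j).ne') 0 0
    · unfold HS
      refine Complex.continuous_ofReal.comp (Continuous.add ?_ (Continuous.mul ?_ ?_))
      · exact (tt_cont t a (x - y)).comp (continuous_fst.comp continuous_fst)
      · exact continuous_fst.comp (continuous_snd.comp continuous_fst)
      · exact (continuous_apply s(x, y)).comp continuous_snd
    · have e : (fun p : (Rs d × (ℝ × ℝ)) × Om2 d => (⟨p.1.2.2, et j⟩ : ℂ))
          = fun p => ((p.1.2.2 : ℝ) : ℂ) + ((et j : ℝ) : ℂ) * Complex.I := by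
        funext p
        apply Complex.ext <;> simp
      rw [e]
      exact (Complex.continuous_ofReal.comp (continuous_snd.comp (continuous_snd.comp
        continuous_fst))).add continuous_const
  exact (((h1.norm.pow_const 2).const_mul (et j)).ennreal_ofReal).lintegral_prod_right'

theorem Fj_lim {κ : Measure ℝ} [IsProbabilityMeasure κ] {ρ : ℝ → ℝ} {C : ℝ} (hκ : Dens κ ρ C)
    (ts : ∀ h, t (-h) = t h) (as : ∀ h, a (-h) = a h)
    (tm : Summable fun h => t h ^ 2) (am : Summable fun h => a h ^ 2)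
    (hdiv : ¬ Summable fun h : Zd d => |a h|) {σ : ℝ} (hσ : σ ≠ 0) (E : ℝ) :
    ∀ᵐ r ∂(PR d), Tendsto (fun j => Fj κ t a j (r, (σ, E))) atTop (𝓝 0) := by
  have hP : IsProbabilityMeasure (κ.map fun r => σ * r) :=
    Measure.isProbabilityMeasure_map (measurable_const_mul σ).aemeasurable
  have m : Mr (mud d (κ.map fun r => σ * r)) t a := mud_mr _ ts as tm am
  have h00 : mud d (κ.map fun r => σ * r) s(0, 0) = κ.map fun r => σ * r := by
    rw [mud_mk, if_pos rfl]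
  have hD : Dens (mud d (κ.map fun r => σ * r) s(0, 0)) (fun x => |σ⁻¹| * ρ (σ⁻¹ * x))
      (|σ⁻¹| * C) := by
    rw [h00]
    exact dens_scale hκ hσ
  have h1 : ∀ᵐ r ∂(PR d), ∀ q : ℕ × ℚ × ℚ × ℚ × ℕ, 0 < q.2.2.1 → 0 < q.2.2.2.1 →
      LB (mud d (κ.map fun r => σ * r) s(0, 0)) q.2.2.2.1 (q.2.1 - 4 * q.2.2.1)
        (q.2.1 + 4 * q.2.2.1) →
      (Measure.infinitePi (mud d (κ.map fun r => σ * r)))
        (Ae (tt t a r) E q.1 q.2.1 q.2.2.1 q.2.2.2.2) = 0 := by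
    rw [ae_all_iff]
    rintro ⟨K, α, δ, c, j0⟩
    by_cases h : 0 < δ ∧ 0 < c ∧ LB (mud d (κ.map fun r => σ * r) s(0, 0)) c (α - 4 * δ) (α + 4 * δ)
    · have hδ' : (0 : ℝ) < δ := by exact_mod_cast h.1
      have hc' : (0 : ℝ) < c := by exact_mod_cast h.2.1
      have h2 := nullQ m hD hdiv E (K := (K : ℝ)) (by positivity) j0 hδ' hc' h.2.2
      unfold QQ at h2
      rw [Measure.measure_prod_null (Aj_meas m E K α δ j0)] at h2
      filter_upwards [h2] with r h3 _ _ _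
      exact h3
    · exact Eventually.of_forall fun r h1 h2 h3 => absurd ⟨h1, h2, h3⟩ h
  filter_upwards [h1] with r h2
  have h3 := lim7 (m.mo r) hD E fun K α δ c j0 hδ hc hLB => h2 (K, α, δ, c, j0) hδ hc hLB
  refine h3.congr fun j => ?_
  unfold Fj
  have hm : Measurable fun ω : Om2 d => ENNReal.ofReal
      (et j * ‖Gi (HS (tt t a r) ω) ⟨E, et j⟩ 0 0‖ ^ 2) :=
    (((Gi_meas (t := tt t a r) (m.mo r).ts (z := ⟨E, et j⟩) (et_pos j).ne' 0 0).norm.pow_const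
      2).const_mul _).ennreal_ofReal
  exact ((scale_mp κ σ).lintegral_comp hm).symm

theorem ae_lim {κ : Measure ℝ} [IsProbabilityMeasure κ] {ρ : ℝ → ℝ} {C : ℝ} (hκ : Dens κ ρ C)
    (ts : ∀ h, t (-h) = t h) (as : ∀ h, a (-h) = a h)
    (tm : Summable fun h => t h ^ 2) (am : Summable fun h => a h ^ 2)
    (hdiv : ¬ Summable fun h : Zd d => |a h|) (S : Measure ℝ) [SFinite S] (hS : S {0} = 0) :
    ∀ᵐ r ∂(PR d), ∀ᵐ σ ∂S, ∀ᵐ E : ℝ, Tendsto (fun j => Fj κ t a j (r, (σ, E))) atTop (𝓝 0) := by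
  have hm : MeasurableSet {q : Rs d × (ℝ × ℝ) | Tendsto (fun j => Fj κ t a j q) atTop (𝓝 0)} :=
    measurableSet_tendsto _ fun j => Fj_meas κ ts as j
  have hS' : ∀ᵐ σ ∂S, σ ≠ 0 := by
    rw [ae_iff]
    simpa using hS
  have h1 : ∀ᵐ p ∂(S.prod (volume : Measure ℝ)), ∀ᵐ r ∂(PR d),
      Tendsto (fun j => Fj κ t a j (r, p)) atTop (𝓝 0) := by
    filter_upwards [Measure.quasiMeasurePreserving_fst.ae hS'] with p hp
    exact Fj_lim hκ ts as tm am hdiv hp p.2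
  have h2 := (Measure.ae_ae_comm (μ := PR d) (ν := S.prod (volume : Measure ℝ))
    (p := fun r p => Tendsto (fun j => Fj κ t a j (r, p)) atTop (𝓝 0)) hm).2 h1
  filter_upwards [h2] with r hr
  exact Measure.ae_ae_of_ae_prod hr

theorem seq_pick' {Ω : Type*} [MeasurableSpace Ω] (P : Measure Ω) [SFinite P]
    (G : ℕ → Ω × ℝ → ℝ≥0∞) (hGm : ∀ j, Measurable (G j)) (B : ℝ≥0∞) (hB : B ≠ ∞)
    (hb : ∀ j E, ∫⁻ ω, G j (ω, E) ∂P ≤ B)
    (h0 : ∀ᵐ E, Tendsto (fun j => ∫⁻ ω, G j (ω, E) ∂P) atTop (𝓝 0)) :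
    ∃ j : ℕ → ℕ, ∀ᵐ ω ∂P, Tendsto (fun k : ℕ =>
      ∫⁻ E in Set.Icc (-((k : ℝ) + 1)) ((k : ℝ) + 1), G (j k) (ω, E)) atTop (𝓝 0) := by
  have hhm : ∀ j, Measurable fun E => ∫⁻ ω, G j (ω, E) ∂P := fun j =>
    (hGm j).lintegral_prod_left'
  have hI : ∀ k : ℕ, Tendsto (fun j => ∫⁻ E in Set.Icc (-((k : ℝ) + 1)) ((k : ℝ) + 1),
      ∫⁻ ω, G j (ω, E) ∂P) atTop (𝓝 0) := by
    intro k
    have h1 : Tendsto (fun j => ∫⁻ E in Set.Icc (-((k : ℝ) + 1)) ((k : ℝ) + 1),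
        ∫⁻ ω, G j (ω, E) ∂P) atTop
        (𝓝 (∫⁻ _E in Set.Icc (-((k : ℝ) + 1)) ((k : ℝ) + 1), 0)) := by
      refine tendsto_lintegral_of_dominated_convergence (fun _ => B)
        hhm (fun j => Eventually.of_forall (hb j)) ?_ (ae_restrict_of_ae h0)
      rw [setLIntegral_const]
      exact ENNReal.mul_ne_top hB (by
        rw [Real.volume_Icc]; exact ENNReal.ofReal_ne_top)
    rwa [lintegral_zero] at h1
  have hj : ∀ k : ℕ, ∃ j, ∫⁻ E in Set.Icc (-((k : ℝ) + 1)) ((k : ℝ) + 1),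
      ∫⁻ ω, G j (ω, E) ∂P ≤ ENNReal.ofReal ((1 / 2 : ℝ) ^ k) := by
    intro k
    have h1 := (tendsto_order.1 (hI k)).2 (ENNReal.ofReal ((1 / 2 : ℝ) ^ k))
      (ENNReal.ofReal_pos.2 (by positivity))
    obtain ⟨j, hj⟩ := h1.exists
    exact ⟨j, hj.le⟩
  choose j hj using hj
  refine ⟨j, ?_⟩
  have hFm : ∀ k : ℕ, Measurable fun ω : Ω =>
      ∫⁻ E in Set.Icc (-((k : ℝ) + 1)) ((k : ℝ) + 1), G (j k) (ω, E) :=
    fun k => (hGm (j k)).lintegral_prod_right'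
      (ν := volume.restrict (Set.Icc (-((k : ℝ) + 1)) ((k : ℝ) + 1)))
  have hlt : ∫⁻ ω : Ω, (∑' k : ℕ, ∫⁻ E in Set.Icc (-((k : ℝ) + 1)) ((k : ℝ) + 1),
      G (j k) (ω, E)) ∂P < ∞ := by
    rw [lintegral_tsum fun k => (hFm k).aemeasurable]
    have h1 : ∀ k : ℕ, ∫⁻ ω : Ω, (∫⁻ E in Set.Icc (-((k : ℝ) + 1)) ((k : ℝ) + 1),
        G (j k) (ω, E)) ∂P ≤ ENNReal.ofReal ((1 / 2 : ℝ) ^ k) := by
      intro k
      rw [lintegral_lintegral_swap (f := fun (ω : Ω) (E : ℝ) => G (j k) (ω, E))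
        (hGm (j k)).aemeasurable]
      exact hj k
    refine (ENNReal.tsum_le_tsum h1).trans_lt ?_
    rw [← ENNReal.ofReal_tsum_of_nonneg (fun k => by positivity) summable_geometric_two]
    exact ENNReal.ofReal_lt_top
  filter_upwards [ae_lt_top (Measurable.tsum hFm) hlt.ne] with ω hω
  exact ENNReal.tendsto_atTop_zero_of_tsum_ne_top hω.ne

/-- Purely continuous spectrum from the averaged Green functions at almost every energy. -/
theorem main_E {μ : Sym2 (Zd d) → Measure ℝ} [∀ e, IsProbabilityMeasure (μ e)] {t : Zd d → ℝ}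
    (m : Mo μ t) {ρ : ℝ → ℝ} {C : ℝ} (hκ : Dens (μ s(0, 0)) ρ C)
    (hlim : ∀ᵐ E : ℝ, Tendsto (fun j => ∫⁻ ω, ENNReal.ofReal
      (et j * ‖Gi (HS t ω) ⟨E, et j⟩ 0 0‖ ^ 2) ∂(Measure.infinitePi μ)) atTop (𝓝 0)) :
    ∀ᵐ ω ∂(Measure.infinitePi μ), ∃ hH : Adm (HS t ω),
      (∀ z : ℂ, z.im ≠ 0 → ∀ x, Ap (HS t ω) hH z x) ∧
      ∀ x, ∃ ν : Measure ℝ, IsProbabilityMeasure ν ∧ (∀ E : ℝ, ν {E} = 0) ∧
        ∀ z : ℂ, z.im ≠ 0 → ∀ U : E2 (Zd d), IsU _ hH z x U →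
          U x = ∫ E : ℝ, 1 / ((E : ℂ) - z) ∂ν := by
  obtain ⟨j, hj⟩ := seq_pick' (Measure.infinitePi μ)
    (fun j q => ENNReal.ofReal (et j) * (mS m).F2 (et j) q.1 q.2)
    (fun j => ((mS m).F2_meas (et_pos j)).const_mul _) (ENNReal.ofReal (C * Real.pi))
    ENNReal.ofReal_ne_top (fun j E => F2_bound m hκ (et_pos j) E)
    (hlim.mono fun E h => h.congr fun j => (F2_int m (et_pos j) E).symm)
  refine (mS m).main (fun k => et (j k)) (fun k => et_pos _) (fun ν => ∀ E : ℝ, ν {E} = 0) ?_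
  refine hj.mono fun ω hω ν hν hF E => ?_
  have hFm : ∀ k, Measurable ((mS m).F2 (et (j k)) ω) := fun k =>
    measE ((mS m).F2_meas (et_pos _)) ω
  refine atom_seq2 ν (fun k => et (j k)) (fun k => et_pos _)
    (fun k => (mS m).F2 (et (j k)) ω) hFm ?_ ?_ (fun k => et_le_one _) E
  · intro k E'
    exact hF k E'
  · exact hω

/-- Purely continuous spectrum for almost all signs. -/
theorem main_W {κ : Measure ℝ} [IsProbabilityMeasure κ] {ρ : ℝ → ℝ} {C : ℝ} (hκ : Dens κ ρ C)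
    (ts : ∀ h, t (-h) = t h) (as : ∀ h, a (-h) = a h)
    (tm : Summable fun h => t h ^ 2) (am : Summable fun h => a h ^ 2)
    (hdiv : ¬ Summable fun h : Zd d => |a h|) (S : Measure ℝ) [SFinite S] (hS : S {0} = 0) :
    ∀ᵐ r ∂(PR d), ∀ᵐ σ ∂S, ∀ᵐ ω ∂(Measure.infinitePi (mud d (κ.map fun v => σ * v))),
      ∃ hH : Adm (HS (tt t a r) ω),
      (∀ z : ℂ, z.im ≠ 0 → ∀ x, Ap (HS (tt t a r) ω) hH z x) ∧
      ∀ x, ∃ ν : Measure ℝ, IsProbabilityMeasure ν ∧ (∀ E : ℝ, ν {E} = 0) ∧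
        ∀ z : ℂ, z.im ≠ 0 → ∀ U : E2 (Zd d), IsU _ hH z x U →
          U x = ∫ E : ℝ, 1 / ((E : ℂ) - z) ∂ν := by
  have hS' : ∀ᵐ σ ∂S, σ ≠ 0 := by
    rw [ae_iff]
    simpa using hS
  filter_upwards [ae_lim hκ ts as tm am hdiv S hS] with r hr
  filter_upwards [hr, hS'] with σ h1 hσ
  have hP : IsProbabilityMeasure (κ.map fun r => σ * r) :=
    Measure.isProbabilityMeasure_map (measurable_const_mul σ).aemeasurable
  have m : Mr (mud d (κ.map fun r => σ * r)) t a := mud_mr _ ts as tm am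
  have hD : Dens (mud d (κ.map fun r => σ * r) s(0, 0)) (fun x => |σ⁻¹| * ρ (σ⁻¹ * x))
      (|σ⁻¹| * C) := by
    rw [mud_mk, if_pos rfl]
    exact dens_scale hκ hσ
  refine main_E (m.mo r) hD ?_
  filter_upwards [h1] with E hE
  refine hE.congr fun j => ?_
  unfold Fj
  have hm : Measurable fun ω : Om2 d => ENNReal.ofReal
      (et j * ‖Gi (HS (tt t a r) ω) ⟨E, et j⟩ 0 0‖ ^ 2) :=
    (((Gi_meas (t := tt t a r) (m.mo r).ts (z := ⟨E, et j⟩) (et_pos j).ne' 0 0).norm.pow_const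
      2).const_mul _).ennreal_ofReal
  exact (scale_mp κ σ).lintegral_comp hm

end

end Pool.Agent.T2H19
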