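import Pool.Agent.T2H19.W10

/-! Transfer to potentials. -/

set_option autoImplicit false

namespace Pool.Agent.T2H19

open MeasureTheory ProbabilityTheory Filter Topology
open scoped BigOperators ComplexConjugate ENNReal

noncomputable section

variable {d : ℕ} {t a : Zd d → ℝ}

/-- Diagonal configurations. -/
def dgv (v : Zd d → ℝ) : Sym2 (Zd d) → ℝ :=
  Sym2.lift ⟨fun x y => if x = y then v x else 0, fun x y => by
    by_cases h : x = y
    · subst h; rfl
    · simp only [if_neg h, if_neg (Ne.symm h)]⟩

theorem dgv_mk (v : Zd d → ℝ) (x y : Zd d) : dgv v s(x, y) = if x = y then v x else 0 := rfl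

theorem indep_diag {Ω : Type*} [MeasurableSpace Ω] (P : Measure Ω) [IsProbabilityMeasure P]
    (ξ : Zd d → Ω → ℝ) (hI : iIndepFun ξ P) :
    iIndepFun (fun (e : Sym2 (Zd d)) (ω : Ω) => dgv (fun x => ξ x ω) e) P := by
  classical
  rw [iIndepFun_iff_measure_inter_preimage_eq_mul] at hI ⊢
  intro S sets hS
  by_cases h : ∃ e ∈ S, ¬ e.IsDiag ∧ (0 : ℝ) ∉ sets e
  · obtain ⟨e, he, hd, h0⟩ := h
    have h1 : (fun ω : Ω => dgv (fun x => ξ x ω) e) ⁻¹' sets e = ∅ := by
      induction e using Sym2.ind with
      | _ x y =>
        rw [Sym2.mk_isDiag_iff] at hd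
        ext ω
        simp only [Set.mem_preimage, Set.mem_empty_iff_false, iff_false]
        rw [dgv_mk, if_neg hd]
        exact h0
    have h2 : (⋂ i ∈ S, (fun ω : Ω => dgv (fun x => ξ x ω) i) ⁻¹' sets i) = ∅ := by
      rw [Set.eq_empty_iff_forall_notMem]
      intro ω hω
      rw [Set.mem_iInter₂] at hω
      have := hω e he
      rw [h1] at this
      exact this
    rw [h2, measure_empty, Finset.prod_eq_zero he]
    rw [h1, measure_empty]
  · push Not at h
    obtain ⟨T, hT⟩ : ∃ T : Finset (Zd d), T = S.preimage (fun x => s(x, x)) (fun x _ y _ hxy => by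
      rw [Sym2.eq_iff] at hxy
      rcases hxy with h | h
      · exact h.1
      · exact h.1) := ⟨_, rfl⟩
    have hmem : ∀ x, x ∈ T ↔ s(x, x) ∈ S := by
      intro x
      rw [hT, Finset.mem_preimage]
    have h1 : (⋂ i ∈ S, (fun ω : Ω => dgv (fun x => ξ x ω) i) ⁻¹' sets i)
        = ⋂ x ∈ T, ξ x ⁻¹' sets s(x, x) := by
      ext ω
      simp only [Set.mem_iInter, Set.mem_preimage]
      constructor
      · intro h3 x hx
        have h4 := h3 s(x, x) ((hmem x).1 hx)
        rwa [dgv_mk, if_pos rfl] at h4
      · intro h3 e he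
        induction e using Sym2.ind with
        | _ x y =>
          rw [dgv_mk]
          by_cases hxy : x = y
          · subst hxy
            rw [if_pos rfl]
            exact h3 x ((hmem x).2 he)
          · rw [if_neg hxy]
            exact h _ he (by rwa [Sym2.mk_isDiag_iff])
    have h2 : ∏ i ∈ S, P ((fun ω : Ω => dgv (fun x => ξ x ω) i) ⁻¹' sets i)
        = ∏ x ∈ T, P (ξ x ⁻¹' sets s(x, x)) := by
      have h3 : ∏ x ∈ T, P (ξ x ⁻¹' sets s(x, x))
          = ∏ e ∈ T.image (fun x => s(x, x)),
            P ((fun ω : Ω => dgv (fun x => ξ x ω) e) ⁻¹' sets e) := by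
        rw [Finset.prod_image]
        · refine Finset.prod_congr rfl fun x _ => ?_
          congr 1
          ext ω
          simp only [Set.mem_preimage]
          rw [dgv_mk, if_pos rfl]
        · intro x _ y _ hxy
          have hxy' : s(x, x) = s(y, y) := hxy
          rw [Sym2.eq_iff] at hxy'
          rcases hxy' with h | h
          · exact h.1
          · exact h.1
      rw [h3]
      symm
      refine Finset.prod_subset (fun e he => ?_) (fun e he he' => ?_)
      · rw [Finset.mem_image] at he
        obtain ⟨x, hx, rfl⟩ := he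
        exact (hmem x).1 hx
      · have hd : ¬ e.IsDiag := by
          induction e using Sym2.ind with
          | _ x y =>
            rw [Sym2.mk_isDiag_iff]
            rintro rfl
            exact he' (Finset.mem_image.2 ⟨x, (hmem x).2 he, rfl⟩)
        have h0 := h e he hd
        have h4 : (fun ω : Ω => dgv (fun x => ξ x ω) e) ⁻¹' sets e = Set.univ := by
          induction e using Sym2.ind with
          | _ x y =>
            rw [Sym2.mk_isDiag_iff] at hd
            ext ω
            simp only [Set.mem_preimage, Set.mem_univ, iff_true]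
            rw [dgv_mk, if_neg hd]
            exact h0
        rw [h4, measure_univ]
    rw [h1, h2]
    exact hI T fun x hx => hS _ ((hmem x).1 hx)

/-- Transfer to random potentials. -/
theorem trans_pot {Ω : Type*} [MeasurableSpace Ω] (P : Measure Ω) [IsProbabilityMeasure P]
    (ξ : Zd d → Ω → ℝ) (hξ : ∀ x, Measurable (ξ x)) (hI : iIndepFun ξ P) {κ : Measure ℝ}
    [IsProbabilityMeasure κ] (hκ : ∀ x, P.map (ξ x) = κ) (σ : ℝ) {R : Om2 d → Prop}
    (h : ∀ᵐ ω ∂(Measure.infinitePi (mud d (κ.map fun v => σ * v))), R ω) :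
    ∀ᵐ ω ∂P, R (dgv fun x => σ * ξ x ω) := by
  have hI' : iIndepFun (fun x ω => σ * ξ x ω) P :=
    hI.comp (fun _ r => σ * r) (fun _ => measurable_const_mul _)
  have hm : ∀ e, Measurable fun ω : Ω => dgv (fun x => σ * ξ x ω) e := by
    intro e
    induction e using Sym2.ind with
    | _ x y =>
      simp only [dgv_mk]
      by_cases hxy : x = y
      · simp only [if_pos hxy]
        exact (measurable_const_mul σ).comp (hξ x)
      · simp only [if_neg hxy]
        exact measurable_const
  have hlaw : (fun e => P.map fun ω : Ω => dgv (fun x => σ * ξ x ω) e)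
      = mud d (κ.map fun v => σ * v) := by
    funext e
    induction e using Sym2.ind with
    | _ x y =>
      rw [mud_mk]
      by_cases hxy : x = y
      · rw [if_pos hxy, ← hκ x, Measure.map_map (measurable_const_mul σ) (hξ x)]
        congr 1
        funext ω
        rw [dgv_mk, if_pos hxy]
        rfl
      · rw [if_neg hxy]
        have e1 : (fun ω : Ω => dgv (fun x => σ * ξ x ω) s(x, y)) = fun _ => (0 : ℝ) := by
          funext ω
          rw [dgv_mk, if_neg hxy]
        rw [e1, Measure.map_const, measure_univ, one_smul]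
  rw [← hlaw] at h
  exact trans_ae P (fun (e : Sym2 (Zd d)) (ω : Ω) => dgv (fun x => σ * ξ x ω) e) hm
    (indep_diag P _ hI') h

end

end Pool.Agent.T2H19
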