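import Pool.Agent.T2H19.W1
import Pool.Agent.T2H19.R10

/-! The overlap of two localized states. -/

set_option autoImplicit false

namespace Pool.Agent.T2H19

open MeasureTheory Filter Topology Matrix
open scoped BigOperators ComplexConjugate ENNReal

noncomputable section

variable {d : ℕ}

/-- Truncation of a vector. -/
def tr (Λ : Finset (Zd d)) (U : E2 (Zd d)) : E2 (Zd d) := ∑ u ∈ Λ, U u • dl u

theorem tr_apply (Λ : Finset (Zd d)) (U : E2 (Zd d)) (u : Zd d) :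
    tr Λ U u = if u ∈ Λ then U u else 0 := by
  unfold tr
  rw [sum_coord]
  have e : ∀ v ∈ Λ, (U v • (dl v : E2 (Zd d))) u = if u = v then U v else 0 := by
    intro v _
    rw [lp.coeFn_smul, Pi.smul_apply, dl_apply]
    simp
  rw [Finset.sum_congr rfl e, Finset.sum_ite_eq]

theorem inner_tr (Λ : Finset (Zd d)) (U V : E2 (Zd d)) :
    inner ℂ (tr Λ U) V = ∑ u ∈ Λ, conj (U u) * V u := by
  unfold tr
  rw [sum_inner]
  refine Finset.sum_congr rfl fun u _ => ?_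
  rw [inner_smul_left, inner_dl]

theorem norm_tr (Λ : Finset (Zd d)) (U : E2 (Zd d)) :
    ‖tr Λ U‖ ^ 2 = ∑ u ∈ Λ, ‖U u‖ ^ 2 := by
  have h : inner ℂ (tr Λ U) (tr Λ U) = ((‖tr Λ U‖ ^ 2 : ℝ) : ℂ) := by
    rw [inner_self_eq_norm_sq_to_K]
    push_cast
    rfl
  rw [inner_tr] at h
  have e : ∀ u ∈ Λ, conj (U u) * (tr Λ U : E2 (Zd d)) u = ((‖U u‖ ^ 2 : ℝ) : ℂ) := by
    intro u hu
    rw [tr_apply, if_pos hu, Complex.conj_mul']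
    push_cast
    rfl
  rw [Finset.sum_congr rfl e, ← Complex.ofReal_sum] at h
  exact (Complex.ofReal_injective h).symm

theorem norm_sub_tr (Λ : Finset (Zd d)) (U : E2 (Zd d)) :
    ‖U - tr Λ U‖ ^ 2 = ‖U‖ ^ 2 - ∑ u ∈ Λ, ‖U u‖ ^ 2 := by
  have h := @norm_sub_sq ℂ (E2 (Zd d)) _ _ _ U (tr Λ U)
  have h2 : RCLike.re (inner ℂ U (tr Λ U)) = ∑ u ∈ Λ, ‖U u‖ ^ 2 := by
    rw [← inner_conj_symm, inner_tr]
    have e : ∀ u ∈ Λ, conj (U u) * U u = ((‖U u‖ ^ 2 : ℝ) : ℂ) := by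
      intro u _
      rw [Complex.conj_mul']
      push_cast
      rfl
    rw [Finset.sum_congr rfl e, ← Complex.ofReal_sum, Complex.conj_ofReal]
    exact Complex.ofReal_re _
  rw [h, h2, norm_tr]
  ring

/-- The error functional. -/
def er (H : Zd d → Zd d → ℂ) (E η η' : ℝ) (Λ : Finset (Zd d)) : ℝ :=
  √(kap H ⟨E, η⟩ 0 - kap H ⟨E, η'⟩ 0)
    + √(kap H ⟨E, η'⟩ 0 - ∑ u ∈ Λ, ‖Gi H ⟨E, η'⟩ u 0 / Gi H ⟨E, η'⟩ 0 0‖ ^ 2)

theorem er_bd {H : Zd d → Zd d → ℂ} (g : Good H) {E η η' : ℝ} (hη : 0 < η) (h : η ≤ η')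
    (Λ : Finset (Zd d)) :
    ‖nc g (z := ⟨E, η⟩) hη 0 - tr Λ (nc g (z := ⟨E, η'⟩) (hη.trans_le h) 0)‖ ≤ er H E η η' Λ := by
  have h1 := nc_sub g (E := E) hη h 0
  have h2 := norm_sub_tr Λ (nc g (z := ⟨E, η'⟩) (hη.trans_le h) 0)
  rw [nc_norm] at h2
  simp only [nc_apply] at h2
  have h3 := norm_sub_le_norm_sub_add_norm_sub (nc g (z := ⟨E, η⟩) hη 0)
    (nc g (z := ⟨E, η'⟩) (hη.trans_le h) 0) (tr Λ (nc g (z := ⟨E, η'⟩) (hη.trans_le h) 0))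
  refine h3.trans (add_le_add ?_ ?_)
  · exact Real.le_sqrt_of_sq_le h1
  · exact Real.le_sqrt_of_sq_le h2.le

/-- Lower bound for the overlap. -/
theorem overlap {H H' : Zd d → Zd d → ℂ} (g : Good H) (g' : Good H') {E η η' K : ℝ}
    (hη : 0 < η) (h : η ≤ η') (k : kap H ⟨E, η⟩ 0 ≤ K) (k' : kap H' ⟨E, η⟩ 0 ≤ K)
    (Λ : Finset (Zd d)) {y : Zd d} (hΛ : ∀ u ∈ Λ, ∀ v ∈ Λ, u ≠ v + (y + y)) :
    ‖∑ u ∈ Λ, conj (Gi H' ⟨E, η'⟩ u 0 / Gi H' ⟨E, η'⟩ 0 0) * (Gi H ⟨E, η'⟩ u 0 / Gi H ⟨E, η'⟩ 0 0)‖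
        - 2 * √K * (er H E η η' Λ + er H' E η η' Λ)
      ≤ ‖inner ℂ (nc g' (z := ⟨E, η⟩) hη 0) (nc g (z := ⟨E, η⟩) hη 0)
        + inner ℂ (nc g' (z := ⟨E, η⟩) hη 0) (sE (-(y + y)) (nc g (z := ⟨E, η⟩) hη 0))‖ := by
  have hη' : 0 < η' := hη.trans_le h
  obtain ⟨p, hp⟩ : ∃ p, p = nc g (z := ⟨E, η⟩) hη 0 := ⟨_, rfl⟩
  obtain ⟨p', hp'⟩ : ∃ p', p' = nc g' (z := ⟨E, η⟩) hη 0 := ⟨_, rfl⟩
  obtain ⟨q, hq⟩ : ∃ q, q = tr Λ (nc g (z := ⟨E, η'⟩) hη' 0) := ⟨_, rfl⟩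
  obtain ⟨q', hq'⟩ : ∃ q', q' = tr Λ (nc g' (z := ⟨E, η'⟩) hη' 0) := ⟨_, rfl⟩
  have e1 : ‖p - q‖ ≤ er H E η η' Λ := by rw [hp, hq]; exact er_bd g hη h Λ
  have e2 : ‖p' - q'‖ ≤ er H' E η η' Λ := by rw [hp', hq']; exact er_bd g' hη h Λ
  have n1 : ‖p‖ ≤ √K := by rw [hp]; exact nc_le g (z := ⟨E, η⟩) hη 0 k
  have n2 : ‖q'‖ ≤ √K := by
    refine Real.le_sqrt_of_sq_le ?_
    rw [hq', norm_tr]
    simp only [nc_apply]
    exact (kap_row g' (z := ⟨E, η'⟩) hη' 0 Λ).trans ((kap_mono g' hη h 0).trans k')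
  have h1 : inner ℂ q' q = ∑ u ∈ Λ, conj (Gi H' ⟨E, η'⟩ u 0 / Gi H' ⟨E, η'⟩ 0 0)
      * (Gi H ⟨E, η'⟩ u 0 / Gi H ⟨E, η'⟩ 0 0) := by
    rw [hq', inner_tr]
    refine Finset.sum_congr rfl fun u hu => ?_
    rw [hq, tr_apply, if_pos hu, nc_apply, nc_apply]
  have h2 : inner ℂ q' (sE (-(y + y)) q) = 0 := by
    rw [hq', inner_tr]
    refine Finset.sum_eq_zero fun u hu => ?_
    rw [sE_apply, hq, tr_apply, if_neg, mul_zero]
    intro hv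
    exact hΛ u hu _ hv (by abel)
  have hs0 := Real.sqrt_nonneg K
  have b1 : ‖inner ℂ p' p - inner ℂ q' q‖ ≤ √K * (er H E η η' Λ + er H' E η η' Λ) := by
    have e3 : inner ℂ p' p - inner ℂ q' q = inner ℂ (p' - q') p + inner ℂ q' (p - q) := by
      rw [inner_sub_left, inner_sub_right]
      ring
    rw [e3]
    refine (norm_add_le _ _).trans ?_
    have h4 := (norm_inner_le_norm (𝕜 := ℂ) (p' - q') p).trans
      (mul_le_mul e2 n1 (norm_nonneg _) ((norm_nonneg _).trans e2))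
    have h5 := (norm_inner_le_norm (𝕜 := ℂ) q' (p - q)).trans
      (mul_le_mul n2 e1 (norm_nonneg _) hs0)
    linarith
  have b2 : ‖inner ℂ p' (sE (-(y + y)) p)‖ ≤ √K * (er H E η η' Λ + er H' E η η' Λ) := by
    have e3 : inner ℂ p' (sE (-(y + y)) p) = inner ℂ (p' - q') (sE (-(y + y)) p)
        + inner ℂ q' (sE (-(y + y)) (p - q)) := by
      rw [map_sub, inner_sub_left, inner_sub_right, h2]
      ring
    rw [e3]
    refine (norm_add_le _ _).trans ?_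
    have h4 := (norm_inner_le_norm (𝕜 := ℂ) (p' - q') (sE (-(y + y)) p)).trans
      (mul_le_mul e2 (((sE (-(y + y))).norm_map p).le.trans n1) (norm_nonneg _)
        ((norm_nonneg _).trans e2))
    have h5 := (norm_inner_le_norm (𝕜 := ℂ) q' (sE (-(y + y)) (p - q))).trans
      (mul_le_mul n2 (((sE (-(y + y))).norm_map (p - q)).le.trans e1) (norm_nonneg _) hs0)
    linarith
  rw [← hp, ← hp', ← h1]
  have h6 := norm_sub_norm_le (inner ℂ q' q) (-(inner ℂ p' p - inner ℂ q' q)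
    - inner ℂ p' (sE (-(y + y)) p))
  have h7 : inner ℂ q' q - (-(inner ℂ p' p - inner ℂ q' q) - inner ℂ p' (sE (-(y + y)) p))
      = inner ℂ p' p + inner ℂ p' (sE (-(y + y)) p) := by ring
  rw [h7] at h6
  have h8 := norm_sub_le (-(inner ℂ p' p - inner ℂ q' q)) (inner ℂ p' (sE (-(y + y)) p))
  rw [norm_neg] at h8
  linarith

/-- Shift covariance of the normalized columns. -/
theorem nc_shift {H Hs : Zd d → Zd d → ℂ} (g : Good H) (gs : Good Hs) (y : Zd d)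
    (hs : ∀ u v, Hs u v = H (u + y) (v + y)) {z : ℂ} (hz : 0 < z.im) :
    sE y (nc g hz y) = nc gs hz 0 := by
  apply lp.ext
  funext u
  show sE y (nc g hz y) u = nc gs hz 0 u
  rw [sE_apply, nc_apply, nc_apply, Gi_shift g gs y hs hz.ne', Gi_shift g gs y hs hz.ne', zero_add]

theorem hop_inner {H Hs H' : Zd d → Zd d → ℂ} (g : Good H) (gs : Good Hs) (g' : Good H')
    (y : Zd d) (hs : ∀ u v, Hs u v = H (u + y) (v + y)) {z : ℂ} (hz : 0 < z.im) :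
    inner ℂ (hop y (nc g' hz 0)) (nc g hz y) = inner ℂ (nc g' hz 0) (nc gs hz 0)
      + inner ℂ (nc g' hz 0) (sE (-(y + y)) (nc gs hz 0)) := by
  have h1 := nc_shift g gs y hs hz
  have h2 : nc g hz y = sE (-y) (nc gs hz 0) := by
    rw [← h1]
    apply lp.ext
    funext u
    show _ = sE (-y) (sE y (nc g hz y)) u
    rw [sE_apply, sE_apply, neg_add_cancel_right]
  have h3 : inner ℂ (sE (-y) (nc g' hz 0)) (nc g hz y) = inner ℂ (nc g' hz 0) (nc gs hz 0) := by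
    rw [h2, (sE (-y)).inner_map_map]
  have h4 : inner ℂ (sE y (nc g' hz 0)) (nc g hz y)
      = inner ℂ (nc g' hz 0) (sE (-(y + y)) (nc gs hz 0)) := by
    have h5 : nc g hz y = sE y (sE (-(y + y)) (nc gs hz 0)) := by
      rw [h2]
      apply lp.ext
      funext u
      show sE (-y) (nc gs hz 0) u = sE y (sE (-(y + y)) (nc gs hz 0)) u
      have h6 : u + -y = u + y + -(y + y) := by abel
      rw [sE_apply, sE_apply, sE_apply, h6]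
    rw [h5, (sE y).inner_map_map]
  rw [hop_def, inner_add_left, h3, h4, add_comm]

/-- The effective hopping between two sites cannot be small for both signs of the hopping. -/
theorem two_signs {H Hs H' : Zd d → Zd d → ℂ} (g : Good H) (gs : Good Hs) (g' : Good H')
    {E η η' K ε : ℝ} (hη : 0 < η) (h : η ≤ η') {y : Zd d} (hy : y ≠ 0)
    (hs : ∀ u v, Hs u v = H (u + y) (v + y)) (s : ℝ) (hD : ∀ u v, H' u v = H u v
      + (s : ℂ) * ((if u = v + y then 1 else 0) + (if u = v - y then 1 else 0)))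
    (hε : ε ≤ 1 / 4) (k1 : kap H ⟨E, η⟩ 0 ≤ K) (k2 : kap H ⟨E, η⟩ y ≤ K)
    (k1' : kap H' ⟨E, η⟩ 0 ≤ K) (k2' : kap H' ⟨E, η⟩ y ≤ K)
    (r1 : ‖Gi H ⟨E, η⟩ y 0 / Gi H ⟨E, η⟩ 0 0‖ ≤ ε) (r2 : ‖Gi H ⟨E, η⟩ 0 y / Gi H ⟨E, η⟩ y y‖ ≤ ε)
    (r1' : ‖Gi H' ⟨E, η⟩ y 0 / Gi H' ⟨E, η⟩ 0 0‖ ≤ ε)
    (r2' : ‖Gi H' ⟨E, η⟩ 0 y / Gi H' ⟨E, η⟩ y y‖ ≤ ε)
    (Λ : Finset (Zd d)) (hΛ : ∀ u ∈ Λ, ∀ v ∈ Λ, u ≠ v + (y + y)) :
    |s| * (‖∑ u ∈ Λ, conj (Gi H' ⟨E, η'⟩ u 0 / Gi H' ⟨E, η'⟩ 0 0)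
        * (Gi Hs ⟨E, η'⟩ u 0 / Gi Hs ⟨E, η'⟩ 0 0)‖
      - 2 * √K * (er Hs E η η' Λ + er H' E η η' Λ) - 12 * ε * K) - 8 * K * η
      ≤ ‖Mk H ⟨E, η⟩ 0 y 0 1‖ + ‖Mk H' ⟨E, η⟩ 0 y 1 0‖ := by
  have h1 := ov g g' (z := ⟨E, η⟩) hη hy s hD hε k1 k2 k1' k2' r1 r2 r1' r2'
  refine le_trans ?_ h1
  have hks : kap Hs ⟨E, η⟩ 0 ≤ K := by
    refine le_trans (le_of_eq ?_) k2
    unfold kap
    rw [Gi_shift g gs y hs (z := ⟨E, η⟩) hη.ne', zero_add]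
  have h2 := overlap gs g' (E := E) hη h hks k1' Λ hΛ
  rw [hop_inner g gs g' y hs (z := ⟨E, η⟩) hη]
  have h3 := mul_le_mul_of_nonneg_left h2 (abs_nonneg s)
  simp only
  linarith

end

end Pool.Agent.T2H19
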