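import Pool.Agent.T2H19.W0
import Pool.Agent.T2H19.W2
import Pool.Agent.T2H19.R12

/-! The model with random translation invariant hopping. -/

set_option autoImplicit false

namespace Pool.Agent.T2H19

open MeasureTheory ProbabilityTheory Filter Topology
open scoped BigOperators ComplexConjugate ENNReal

noncomputable section

variable {d : ℕ}

/-- Configurations of the coins. -/
abbrev Rs (d : ℕ) : Type := Zd d → Bool

/-- The hopping. -/
def tt (t a : Zd d → ℝ) (r : Rs d) (h : Zd d) : ℝ := t h + sg r h * a h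

/-- Flip of one coin. -/
def fl (y : Zd d) (r : Rs d) : Rs d := fun h => if h = y then !(r h) else r h

theorem sg_fl {y : Zd d} (hy : y ≠ 0) (r : Rs d) (h : Zd d) :
    sg (fl y r) h = if h = y ∨ h = -y then -sg r h else sg r h := by
  have hyy : -y ≠ y := by
    intro h1
    apply hy
    funext i
    have := congrFun h1 i
    simp only [Pi.neg_apply] at this
    show y i = 0
    omega
  unfold sg fl
  by_cases h1 : h = y
  · subst h1
    simp only [if_true, true_or, hyy, if_false]
    cases hr : r h <;> cases hr2 : r (-h) <;> simp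
  · by_cases h2 : h = -y
    · subst h2
      simp only [neg_neg, if_true, or_true, hyy, if_false]
      cases hr : r y <;> cases hr2 : r (-y) <;> simp
    · have h3 : -h ≠ y := fun h4 => h2 (by rw [← h4, neg_neg])
      simp only [h1, h2, h3, if_false, or_self]

theorem coin_not : coin.map (fun b => !b) = coin := by
  unfold coin
  rw [Measure.map_add _ _ (measurable_of_finite _), Measure.map_smul, Measure.map_smul,
    Measure.map_dirac' (measurable_of_finite _), Measure.map_dirac' (measurable_of_finite _),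
    add_comm]
  rfl

theorem fl_mp (y : Zd d) : MeasurePreserving (fl y) (PR d) (PR d) := by
  refine ⟨measurable_pi_lambda _ fun h => (measurable_of_finite
    (fun b : Bool => if h = y then !b else b)).comp (measurable_pi_apply h), ?_⟩
  have h := Measure.infinitePi_map_pi (μ := fun _ : Zd d => coin)
    (f := fun (h : Zd d) (b : Bool) => if h = y then !b else b) (fun _ => measurable_of_finite _)
  refine h.trans ?_
  unfold PR
  congr 1
  funext h
  by_cases hh : h = y
  · simp only [hh, if_true]
    exact coin_not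
  · simp only [hh, if_false]
    exact Measure.map_id'

theorem tt_even {t a : Zd d → ℝ} (ht : ∀ h, t (-h) = t h) (ha : ∀ h, a (-h) = a h) (r : Rs d)
    (h : Zd d) : tt t a r (-h) = tt t a r h := by
  unfold tt
  rw [ht, ha, sg_neg]

theorem tt_cont (t a : Zd d → ℝ) (h : Zd d) : Continuous fun r : Rs d => tt t a r h := by
  unfold tt sg
  refine continuous_const.add (Continuous.mul ?_ continuous_const)
  have h1 : Continuous fun q : Bool × Bool => if q.1 = q.2 then (1 : ℝ) else -1 :=
    continuous_of_discreteTopology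
  have h2 : Continuous fun r : Rs d => (r h, r (-h)) :=
    (continuous_apply h).prodMk (continuous_apply (-h))
  exact h1.comp h2

/-- The conditions on the model, for all coins. -/
structure Mr (μ : Sym2 (Zd d) → Measure ℝ) (t a : Zd d → ℝ) : Prop where
  sh : ∀ c x y : Zd d, μ s(x + c, y + c) = μ s(x, y)
  ts : ∀ h, t (-h) = t h
  as : ∀ h, a (-h) = a h
  tm : Summable fun h => t h ^ 2
  am : Summable fun h => a h ^ 2
  v2 : ∑' h : Zd d, S2 μ h ≠ ∞

theorem Mr.mo {μ : Sym2 (Zd d) → Measure ℝ} {t a : Zd d → ℝ} (m : Mr μ t a) (r : Rs d) :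
    Mo μ (tt t a r) := by
  refine ⟨m.sh, tt_even m.ts m.as r, ?_, m.v2⟩
  refine Summable.of_nonneg_of_le (fun h => sq_nonneg _) (fun h => ?_)
    ((m.tm.mul_left 2).add (m.am.mul_left 2))
  unfold tt
  have h1 := sg_sq r h
  nlinarith [sq_nonneg (t h - sg r h * a h)]

/-- Change of the sign at one distance. -/
theorem HS_fl {t a : Zd d → ℝ} (ha : ∀ h, a (-h) = a h) {y : Zd d} (hy : y ≠ 0) (r : Rs d)
    (ω : Om2 d) (u v : Zd d) : HS (tt t a (fl y r)) ω u v = HS (tt t a r) ω u v
      + ((-2 * sg r y * a y : ℝ) : ℂ) * ((if u = v + y then 1 else 0)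
        + (if u = v - y then 1 else 0)) := by
  have hyy : y ≠ -y := by
    intro h1
    apply hy
    funext i
    have := congrFun h1 i
    simp only [Pi.neg_apply] at this
    show y i = 0
    omega
  have e1 : (u = v + y) ↔ u - v = y := by rw [sub_eq_iff_eq_add']
  have e2 : (u = v - y) ↔ u - v = -y := by rw [sub_eq_iff_eq_add', sub_eq_add_neg]
  unfold HS tt
  rw [sg_fl hy]
  simp only [e1, e2]
  by_cases h1 : u - v = y
  · rw [h1, if_pos (Or.inl rfl), if_pos rfl, if_neg hyy]
    push_cast
    ring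
  · by_cases h2 : u - v = -y
    · rw [h2, if_pos (Or.inr rfl), if_neg hyy.symm, if_pos rfl, sg_neg, ha]
      push_cast
      ring
    · rw [if_neg (by tauto), if_neg h1, if_neg h2]
      push_cast
      ring

section meas

variable {T : Type*} [TopologicalSpace T]

theorem gO_contG (Hf : T → Zd d → Zd d → ℂ) (hc : ∀ x y, Continuous fun p => Hf p x y)
    (hh : ∀ p x y, Hf p x y = conj (Hf p y x)) (zf : T → ℂ) (hzc : Continuous zf)
    (hz : ∀ p, (zf p).im ≠ 0) (Λ : Finset (Zd d)) (y x : Zd d) :
    Continuous fun p => gO (Hf p) Λ (zf p) y x := by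
  have hherm : ∀ p, (MD (Hf p) Λ).IsHermitian := by
    intro p
    ext a b
    rw [Matrix.conjTranspose_apply]
    unfold MD
    rw [hh p a b]
    rfl
  by_cases h : y ∈ Λ ∧ x ∈ Λ
  · have e : (fun p => gO (Hf p) Λ (zf p) y x)
        = fun p => Gr (MD (Hf p) Λ) (zf p) ⟨y, h.1⟩ ⟨x, h.2⟩ := by
      funext p
      unfold gO
      rw [dif_pos h]
    rw [e]
    refine Gr_cont (fun p => MD (Hf p) Λ) zf hherm ?_ hz hzc _ _
    exact continuous_matrix fun a b => hc a b
  · have e : (fun p => gO (Hf p) Λ (zf p) y x) = fun _ => 0 := by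
      funext p
      unfold gO
      rw [dif_neg h]
    rw [e]
    exact continuous_const

theorem Gi_measG [MeasurableSpace T] [OpensMeasurableSpace T] (Hf : T → Zd d → Zd d → ℂ)
    (hc : ∀ x y, Continuous fun p => Hf p x y)
    (hh : ∀ p x y, Hf p x y = conj (Hf p y x)) (zf : T → ℂ) (hzc : Continuous zf)
    (hz : ∀ p, (zf p).im ≠ 0) (y x : Zd d) :
    Measurable fun p => Gi (Hf p) (zf p) y x := by
  unfold Gi
  exact (StronglyMeasurable.limUnder fun i =>
    ((gO_contG Hf hc hh zf hzc hz (bx d i) y x).measurable).stronglyMeasurable).measurable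

end meas

theorem HSr_cont (t a : Zd d → ℝ) (x y : Zd d) :
    Continuous fun q : Rs d × Om2 d => HS (tt t a q.1) q.2 x y := by
  unfold HS
  refine Complex.continuous_ofReal.comp (Continuous.add ?_ ?_)
  · exact (tt_cont t a (x - y)).comp continuous_fst
  · exact (continuous_apply s(x, y)).comp continuous_snd

variable {μ : Sym2 (Zd d) → Measure ℝ} {t a : Zd d → ℝ}

theorem Gr_meas (m : Mr μ t a) {z : ℂ} (hz : z.im ≠ 0) (y x : Zd d) :
    Measurable fun q : Rs d × Om2 d => Gi (HS (tt t a q.1) q.2) z y x :=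
  Gi_measG (fun q : Rs d × Om2 d => HS (tt t a q.1) q.2) (HSr_cont t a)
    (fun q x y => HS_herm (tt_even m.ts m.as q.1) q.2 x y) (fun _ => z) continuous_const
    (fun _ => hz) y x

theorem kapr_meas (m : Mr μ t a) {z : ℂ} (hz : z.im ≠ 0) (x : Zd d) :
    Measurable fun q : Rs d × Om2 d => kap (HS (tt t a q.1) q.2) z x := by
  unfold kap
  exact (Complex.measurable_im.comp (Gr_meas m hz x x)).div
    (((Gr_meas m hz x x).norm.pow_const 2).const_mul _)

theorem Mkr_meas (m : Mr μ t a) {z : ℂ} (hz : z.im ≠ 0) (x y : Zd d) (i j : Fin 2) :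
    Measurable fun q : Rs d × Om2 d => Mk (HS (tt t a q.1) q.2) z x y i j := by
  have h1 : Measurable fun q : Rs d × Om2 d => (Bk (HS (tt t a q.1) q.2) z x y).det := by
    unfold Bk
    simp only [Matrix.det_fin_two_of]
    exact ((Gr_meas m hz x x).mul (Gr_meas m hz y y)).sub
      ((Gr_meas m hz x y).mul (Gr_meas m hz y x))
  simp only [Mk_eq]
  fin_cases i <;> fin_cases j
  · exact (Gr_meas m hz y y).div h1
  · exact (Gr_meas m hz x y).neg.div h1
  · exact (Gr_meas m hz y x).neg.div h1
  · exact (Gr_meas m hz x x).div h1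

/-- The joint event that the origin carries a localized state at the energy. -/
def Aj (t a : Zd d → ℝ) (E K α δ : ℝ) (j0 : ℕ) : Set (Rs d × Om2 d) :=
  {q | q.2 ∈ Ae (tt t a q.1) E K α δ j0}

theorem Aj_meas (m : Mr μ t a) (E K α δ : ℝ) (j0 : ℕ) : MeasurableSet (Aj t a E K α δ j0) := by
  have h1 : Aj t a E K α δ j0 = ⋂ j : ℕ, ⋂ _ : j0 ≤ j,
      ({q | kap (HS (tt t a q.1) q.2) ⟨E, et j⟩ 0 ≤ K}
        ∩ {q | |(aa (tt t a q.1) ⟨E, et j⟩ 0 q.2).re - α| ≤ δ}) := by
    ext q
    simp only [Aj, Ae, Set.mem_ofPred_eq, Set.mem_iInter, Set.mem_inter_iff]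
  rw [h1]
  refine MeasurableSet.iInter fun j => MeasurableSet.iInter fun _ => ?_
  have hG := Gr_meas m (z := ⟨E, et j⟩) (et_pos j).ne' 0 0
  refine MeasurableSet.inter (measurableSet_le (kapr_meas m (z := ⟨E, et j⟩) (et_pos j).ne' 0)
    measurable_const) (measurableSet_le ?_ measurable_const)
  unfold aa sf
  have e1 : Measurable fun q : Rs d × Om2 d => ((q.2 s(0, 0) : ℝ) : ℂ) :=
    Complex.measurable_ofReal.comp ((measurable_pi_apply _).comp measurable_snd)
  exact continuous_abs.measurable.comp (((Complex.measurable_re.comp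
    (e1.add hG.inv.neg))).sub_const _)

end

end Pool.Agent.T2H19
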