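import Pool.Agent.T2H19.W3

/-! Mixing for functions of coins and entries. -/

set_option autoImplicit false

namespace Pool.Agent.T2H19

open MeasureTheory ProbabilityTheory Filter Topology
open scoped BigOperators ComplexConjugate ENNReal BoundedContinuousFunction

noncomputable section

variable {d : ℕ} {μ : Sym2 (Zd d) → Measure ℝ} {t a : Zd d → ℝ}

/-- Truncation of configurations. -/
def tn (n : ℕ) (q : Rs d × Om2 d) : Rs d × Om2 d :=
  (fun h => if h ∈ bx d n then q.1 h else false,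
    fun e => if e ∈ (bx d n).sym2 then q.2 e else 0)

theorem tn_tendsto (q : Rs d × Om2 d) : Tendsto (fun n => tn n q) atTop (𝓝 q) := by
  refine Tendsto.prodMk_nhds (tendsto_pi_nhds.2 fun h => ?_) (tendsto_pi_nhds.2 fun e => ?_)
  · refine tendsto_const_nhds.congr' ?_
    filter_upwards [bx_exh d {h}] with n hn
    rw [if_pos (hn (Finset.mem_singleton_self h))]
  · induction e using Sym2.ind with
    | _ x y =>
      refine tendsto_const_nhds.congr' ?_
      filter_upwards [bx_exh d {x, y}] with n hn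
      rw [if_pos]
      rw [Finset.mk_mem_sym2_iff]
      exact ⟨hn (by simp), hn (by simp)⟩

theorem tn_cont (n : ℕ) : Continuous (tn (d := d) n) := by
  refine Continuous.prodMk (continuous_pi fun h => ?_) (continuous_pi fun e => ?_)
  · by_cases hh : h ∈ bx d n
    · simp only [hh, if_true]
      exact (continuous_apply h).comp continuous_fst
    · simp only [hh, if_false]
      exact continuous_const
  · by_cases hh : e ∈ (bx d n).sym2
    · simp only [hh, if_true]
      exact (continuous_apply e).comp continuous_snd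
    · simp only [hh, if_false]
      exact continuous_const

theorem tn_fl {n : ℕ} {y : Zd d} (hy : y ∉ bx d n) (q : Rs d × Om2 d) :
    tn n (fl y q.1, q.2) = tn n q := by
  unfold tn fl
  refine Prod.ext ?_ rfl
  funext h
  simp only
  by_cases hh : h ∈ bx d n
  · have : h ≠ y := fun h1 => hy (h1 ▸ hh)
    simp only [hh, this, if_true, if_false]
  · simp only [hh, if_false]

/-- The joint law. -/
def QQ (μ : Sym2 (Zd d) → Measure ℝ) : Measure (Rs d × Om2 d) :=
  (PR d).prod (Measure.infinitePi μ)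

section

variable [∀ e, IsProbabilityMeasure (μ e)]

instance : IsProbabilityMeasure (QQ μ) := by
  unfold QQ
  infer_instance

theorem flQ_mp (y : Zd d) :
    MeasurePreserving (fun q : Rs d × Om2 d => (fl y q.1, q.2)) (QQ μ) (QQ μ) :=
  (fl_mp y).prod (MeasurePreserving.id _)

theorem sQ_mp (m : Mr μ t a) (y : Zd d) :
    MeasurePreserving (fun q : Rs d × Om2 d => (q.1, sS y q.2)) (QQ μ) (QQ μ) :=
  (MeasurePreserving.id _).prod (sS_mp (m.mo (fun _ => false)) y)

theorem bint {Ω E : Type*} [MeasurableSpace Ω] {P : Measure Ω} [IsFiniteMeasure P]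
    [NormedAddCommGroup E] [MeasurableSpace E] [BorelSpace E] [SecondCountableTopology E]
    {f : Ω → E} (hf : Measurable f) {B : ℝ} (hB : ∀ q, ‖f q‖ ≤ B) : Integrable f P :=
  Integrable.of_bound hf.aestronglyMeasurable B (Eventually.of_forall hB)

/-- The inequality of Jensen for squares. -/
theorem jen {Ω : Type*} [MeasurableSpace Ω] {P : Measure Ω} [IsProbabilityMeasure P] {f : Ω → ℝ}
    (hf : Measurable f) {B : ℝ} (hB : ∀ q, ‖f q‖ ≤ B) : (∫ q, f q ∂P) ^ 2 ≤ ∫ q, f q ^ 2 ∂P := by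
  obtain ⟨c, hc⟩ : ∃ c, c = ∫ q, f q ∂P := ⟨_, rfl⟩
  have hi := bint (P := P) hf hB
  have hi2 : Integrable (fun q => f q ^ 2) P := by
    refine bint (P := P) (hf.pow_const 2) (B := B ^ 2) fun q => ?_
    rw [norm_pow]
    exact pow_le_pow_left₀ (norm_nonneg _) (hB q) 2
  have h1 : 0 ≤ ∫ q, (f q - c) ^ 2 ∂P := integral_nonneg fun q => sq_nonneg _
  have h2 : ∫ q, (f q - c) ^ 2 ∂P = ∫ q, f q ^ 2 ∂P - c ^ 2 := by
    have e : ∀ q, (f q - c) ^ 2 = f q ^ 2 - 2 * c * f q + c ^ 2 := fun q => by ring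
    simp only [e]
    have i1 : Integrable (fun q => 2 * c * f q) P := hi.const_mul _
    have i2 : Integrable (fun q => f q ^ 2 - 2 * c * f q) P := hi2.sub i1
    rw [integral_add i2 (integrable_const _), integral_sub hi2 i1, integral_const_mul, ← hc,
      integral_const]
    simp
    ring
  rw [← hc]
  linarith

/-- Independence of far parts. -/
theorem indep_far (m : Mr μ t a) (h : (Rs d × Om2 d) →ᵇ ℂ) (n : ℕ) {y : Zd d}
    (hy : ∀ u ∈ bx d n, ∀ v ∈ bx d n, u ≠ v + y) (r : Rs d) :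
    ∫ ω, conj (h (tn n (r, ω))) * h (tn n (r, sS y ω)) ∂(Measure.infinitePi μ)
      = conj (∫ ω, h (tn n (r, ω)) ∂(Measure.infinitePi μ))
        * ∫ ω, h (tn n (r, ω)) ∂(Measure.infinitePi μ) := by
  classical
  obtain ⟨J, hJ⟩ : ∃ J : Finset (Sym2 (Zd d)), J = (bx d n).sym2 := ⟨_, rfl⟩
  obtain ⟨J', hJ'⟩ : ∃ J' : Finset (Sym2 (Zd d)), J' = J.image (Sym2.map (· + y)) := ⟨_, rfl⟩
  have hdis : Disjoint J J' := by
    rw [Finset.disjoint_left]
    intro e he he'
    rw [hJ', Finset.mem_image] at he'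
    obtain ⟨e0, h0, h1⟩ := he'
    induction e0 using Sym2.ind with
    | _ x x' =>
      rw [← h1, hJ, Sym2.map_mk, Finset.mk_mem_sym2_iff] at he
      rw [hJ, Finset.mk_mem_sym2_iff] at h0
      exact hy _ he.1 _ h0.1 rfl
  have hmem : ∀ e : Sym2 (Zd d), e ∈ J → Sym2.map (· + y) e ∈ J' := by
    intro e he
    rw [hJ', Finset.mem_image]
    exact ⟨e, he, rfl⟩
  have hind : iIndepFun (fun (e : Sym2 (Zd d)) (ω : Om2 d) => ω e) (Measure.infinitePi μ) :=
    iIndepFun_infinitePi (X := fun _ r => r) (fun _ => measurable_id)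
  have h1 := hind.indepFun_finset J J' hdis (fun e => measurable_pi_apply e)
  obtain ⟨φ, hφ⟩ : ∃ φ : (J → ℝ) → ℂ, φ = fun x =>
      conj (h ((fun i => if i ∈ bx d n then r i else false),
        fun e => if he : e ∈ J then x ⟨e, he⟩ else 0)) := ⟨_, rfl⟩
  obtain ⟨ψ, hψ⟩ : ∃ ψ : (J' → ℝ) → ℂ, ψ = fun x =>
      h ((fun i => if i ∈ bx d n then r i else false),
        fun e => if he : e ∈ J then x ⟨_, hmem e he⟩ else 0) := ⟨_, rfl⟩
  have hφm : Measurable φ := by
    have hc : Continuous φ := by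
      rw [hφ]
      refine Complex.continuous_conj.comp (h.continuous.comp (continuous_const.prodMk
        (continuous_pi fun e => ?_)))
      by_cases he : e ∈ J
      · simp only [he, dif_pos]
        exact continuous_apply _
      · simp only [he, dif_neg, not_false_eq_true]
        exact continuous_const
    exact hc.measurable
  have hψm : Measurable ψ := by
    have hc : Continuous ψ := by
      rw [hψ]
      refine h.continuous.comp (continuous_const.prodMk (continuous_pi fun e => ?_))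
      by_cases he : e ∈ J
      · simp only [he, dif_pos]
        exact continuous_apply _
      · simp only [he, dif_neg, not_false_eq_true]
        exact continuous_const
    exact hc.measurable
  have h2 := h1.comp hφm hψm
  have e1 : (φ ∘ fun (ω : Om2 d) (i : J) => ω i) = fun ω => conj (h (tn n (r, ω))) := by
    funext ω
    rw [hφ]
    simp only [Function.comp]
    unfold tn
    rw [← hJ]
    congr 3
  have e2 : (ψ ∘ fun (ω : Om2 d) (i : J') => ω i) = fun ω => h (tn n (r, sS y ω)) := by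
    funext ω
    rw [hψ]
    simp only [Function.comp]
    unfold tn sS
    rw [← hJ]
    congr 2
  have m0 : Measurable fun ω : Om2 d => h (tn n (r, ω)) :=
    (h.continuous.comp ((tn_cont n).comp (continuous_const.prodMk continuous_id))).measurable
  have hmp := sS_mp (m.mo (fun _ => false)) y
  have m1 : Measurable fun ω : Om2 d => h (tn n (r, sS y ω)) := m0.comp hmp.measurable
  have h3 := h2.integral_fun_mul_eq_mul_integral
    (by rw [e1]; exact (Complex.continuous_conj.measurable.comp m0).aestronglyMeasurable)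
    (by rw [e2]; exact m1.aestronglyMeasurable)
  have h4 : ∫ ω, h (tn n (r, sS y ω)) ∂(Measure.infinitePi μ)
      = ∫ ω, h (tn n (r, ω)) ∂(Measure.infinitePi μ) := by
    have := integral_map (μ := Measure.infinitePi μ) hmp.measurable.aemeasurable
      (f := fun ω => h (tn n (r, ω))) m0.aestronglyMeasurable
    rw [hmp.map_eq] at this
    exact this.symm
  rw [e1, e2] at h3
  have h5 : ∀ ω : Om2 d, (φ ∘ fun (ω : Om2 d) (i : J) => ω i) ω = conj (h (tn n (r, ω))) :=
    fun ω => congrFun e1 ω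
  refine Eq.trans ?_ (h3.trans ?_)
  · rfl
  · rw [h4]
    congr 1
    exact integral_conj

/-- Continuous functions of finitely many variables are dense. -/
theorem cyl_approx {f : Rs d × Om2 d → ℂ} (hf : Measurable f) {B : ℝ} (hB : ∀ q, ‖f q‖ ≤ B)
    {ε : ℝ} (hε : 0 < ε) : ∃ (h : (Rs d × Om2 d) →ᵇ ℂ) (n : ℕ),
      ∫ q, ‖f q - h (tn n q)‖ ^ 2 ∂(QQ μ) ≤ ε := by
  have hfL : MemLp f (ENNReal.ofReal 2) (QQ μ) :=
    MemLp.of_bound hf.aestronglyMeasurable B (Eventually.of_forall hB)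
  obtain ⟨h, hh, -⟩ := hfL.exists_boundedContinuous_integral_rpow_sub_le (by norm_num)
    (ε := ε / 4) (by positivity)
  have hlim : Tendsto (fun n => ∫ q, ‖h q - h (tn n q)‖ ^ 2 ∂(QQ μ)) atTop
      (𝓝 (∫ _q, (0 : ℝ) ∂(QQ μ))) := by
    refine tendsto_integral_of_dominated_convergence (fun _ => (2 * ‖h‖) ^ 2) (fun n => ?_)
      (integrable_const _) (fun n => Eventually.of_forall fun q => ?_)
      (Eventually.of_forall fun q => ?_)
    · exact ((h.continuous.sub (h.continuous.comp (tn_cont n))).norm.pow 2).measurable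
        |>.aestronglyMeasurable
    · rw [norm_pow, norm_norm]
      refine pow_le_pow_left₀ (norm_nonneg _) ?_ 2
      refine (norm_sub_le _ _).trans ?_
      linarith [h.norm_coe_le_norm q, h.norm_coe_le_norm (tn n q)]
    · have h1 : Tendsto (fun n => h (tn n q)) atTop (𝓝 (h q)) :=
        (h.continuous.tendsto q).comp (tn_tendsto q)
      have h2 := ((tendsto_const_nhds (x := h q)).sub h1).norm.pow 2
      simpa using h2
  rw [integral_zero] at hlim
  obtain ⟨n, hn⟩ := ((tendsto_order.1 hlim).2 (ε / 4) (by positivity)).exists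
  refine ⟨h, n, ?_⟩
  have hm1 : Measurable fun q => h q := h.continuous.measurable
  have hm2 : Measurable fun q => h (tn n q) := (h.continuous.comp (tn_cont n)).measurable
  have i1 : Integrable (fun q => ‖f q - h q‖ ^ 2) (QQ μ) := by
    refine bint (B := (B + ‖h‖) ^ 2) ((hf.sub hm1).norm.pow_const 2) fun q => ?_
    rw [norm_pow, norm_norm]
    refine pow_le_pow_left₀ (norm_nonneg _) ((norm_sub_le _ _).trans ?_) 2
    linarith [hB q, h.norm_coe_le_norm q]
  have i2 : Integrable (fun q => ‖h q - h (tn n q)‖ ^ 2) (QQ μ) := by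
    refine bint (B := (2 * ‖h‖) ^ 2) ((hm1.sub hm2).norm.pow_const 2) fun q => ?_
    rw [norm_pow, norm_norm]
    refine pow_le_pow_left₀ (norm_nonneg _) ((norm_sub_le _ _).trans ?_) 2
    linarith [h.norm_coe_le_norm q, h.norm_coe_le_norm (tn n q)]
  have i3 : Integrable (fun q => ‖f q - h (tn n q)‖ ^ 2) (QQ μ) := by
    refine bint (B := (B + ‖h‖) ^ 2) ((hf.sub hm2).norm.pow_const 2) fun q => ?_
    rw [norm_pow, norm_norm]
    refine pow_le_pow_left₀ (norm_nonneg _) ((norm_sub_le _ _).trans ?_) 2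
    linarith [hB q, h.norm_coe_le_norm (tn n q)]
  have e1 : ∫ q, ‖f q - h q‖ ^ 2 ∂(QQ μ) ≤ ε / 4 := by
    refine le_trans (le_of_eq ?_) hh
    refine integral_congr_ae (Eventually.of_forall fun q => ?_)
    simp only
    rw [← Real.rpow_natCast]
    norm_num
  calc ∫ q, ‖f q - h (tn n q)‖ ^ 2 ∂(QQ μ)
      ≤ ∫ q, (2 * ‖f q - h q‖ ^ 2 + 2 * ‖h q - h (tn n q)‖ ^ 2) ∂(QQ μ) := by
        refine integral_mono i3 ((i1.const_mul 2).add (i2.const_mul 2)) fun q => ?_
        have h1 := norm_add_le (f q - h q) (h q - h (tn n q))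
        rw [sub_add_sub_cancel] at h1
        have h2 := pow_le_pow_left₀ (norm_nonneg _) h1 2
        simp only
        nlinarith [sq_nonneg (‖f q - h q‖ - ‖h q - h (tn n q)‖)]
    _ = 2 * ∫ q, ‖f q - h q‖ ^ 2 ∂(QQ μ) + 2 * ∫ q, ‖h q - h (tn n q)‖ ^ 2 ∂(QQ μ) := by
        rw [integral_add (i1.const_mul 2) (i2.const_mul 2), integral_const_mul, integral_const_mul]
    _ ≤ ε := by linarith

/-- The far flips and shifts. -/
theorem mixF (m : Mr μ t a) {f : Rs d × Om2 d → ℂ} (hf : Measurable f) {B : ℝ}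
    (hB : ∀ q, ‖f q‖ ≤ B) {ε : ℝ} (hε : 0 < ε) :
    ∃ S : Set (Zd d), S.Finite ∧ ∀ y, y ∉ S → ‖∫ q, f q ∂(QQ μ)‖ ^ 2 - ε
      ≤ (∫ q, conj (f (fl y q.1, q.2)) * f (q.1, sS y q.2) ∂(QQ μ)).re := by
  have hB0 : 0 ≤ B := (norm_nonneg _).trans (hB (fun _ => false, fun _ => 0))
  obtain ⟨τ, hτ⟩ : ∃ τ : ℝ, τ = min 1 (ε / (4 * B + 2)) := ⟨_, rfl⟩
  have hτ0 : 0 < τ := by rw [hτ]; positivity
  have hτ1 : τ ≤ 1 := by rw [hτ]; exact min_le_left _ _
  have hτ2 : τ * (4 * B + 2) ≤ ε := by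
    have : τ ≤ ε / (4 * B + 2) := by rw [hτ]; exact min_le_right _ _
    rwa [le_div_iff₀ (by positivity)] at this
  obtain ⟨h, n, hn⟩ := cyl_approx (μ := μ) hf hB (ε := τ ^ 2) (by positivity)
  obtain ⟨G, hG⟩ : ∃ G : Rs d × Om2 d → ℂ, G = fun q => h (tn n q) := ⟨_, rfl⟩
  have hGm : Measurable G := by rw [hG]; exact (h.continuous.comp (tn_cont n)).measurable
  have hGb : ∀ q, ‖G q‖ ≤ ‖h‖ := fun q => by rw [hG]; exact h.norm_coe_le_norm _
  have hdif : ∀ q, ‖f q - G q‖ ≤ B + ‖h‖ := fun q =>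
    (norm_sub_le _ _).trans (add_le_add (hB q) (hGb q))
  have hdm : Measurable fun q => ‖f q - G q‖ := (hf.sub hGm).norm
  have i1 : Integrable (fun q => ‖f q - G q‖) (QQ μ) :=
    bint (B := B + ‖h‖) hdm fun q => by rw [norm_norm]; exact hdif q
  have i2 : Integrable (fun q => ‖f q - G q‖ ^ 2) (QQ μ) :=
    bint (B := (B + ‖h‖) ^ 2) (hdm.pow_const 2) fun q => by
      rw [norm_pow, norm_norm]
      exact pow_le_pow_left₀ (norm_nonneg _) (hdif q) 2
  have e2 : ∫ q, ‖f q - G q‖ ^ 2 ∂(QQ μ) ≤ τ ^ 2 := by rw [hG]; exact hn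
  have e1 : ∫ q, ‖f q - G q‖ ∂(QQ μ) ≤ τ := by
    have h1 := jen (P := QQ μ) hdm (B := B + ‖h‖) (fun q => by rw [norm_norm]; exact hdif q)
    exact (pow_le_pow_iff_left₀ (integral_nonneg fun q => norm_nonneg _) hτ0.le two_ne_zero).1
      (h1.trans e2)
  -- the exceptional set
  refine ⟨(bx d n : Set (Zd d)) ∪ ⋃ u ∈ bx d n, ⋃ v ∈ bx d n, {u - v},
    (bx d n).finite_toSet.union (Set.Finite.biUnion (bx d n).finite_toSet fun u _ =>
      Set.Finite.biUnion (bx d n).finite_toSet fun v _ => Set.finite_singleton _), fun y hy => ?_⟩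
  rw [Set.mem_union, not_or] at hy
  obtain ⟨hy1, hy2⟩ := hy
  have hy1' : y ∉ bx d n := hy1
  have hy3 : ∀ u ∈ bx d n, ∀ v ∈ bx d n, u ≠ v + y := by
    intro u hu v hv huv
    apply hy2
    simp only [Set.mem_iUnion, Set.mem_singleton_iff]
    exact ⟨u, hu, v, hv, by rw [huv]; abel⟩
  have mp1 := flQ_mp (μ := μ) y
  have mp2 := sQ_mp m y
  -- the cylinder function
  have c1 : ∫ q, conj (G (fl y q.1, q.2)) * G (q.1, sS y q.2) ∂(QQ μ)
      = ∫ r, conj (∫ ω, G (r, ω) ∂(Measure.infinitePi μ)) * ∫ ω, G (r, ω) ∂(Measure.infinitePi μ)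
        ∂(PR d) := by
    have h1 : ∀ q : Rs d × Om2 d, conj (G (fl y q.1, q.2)) * G (q.1, sS y q.2)
        = conj (G q) * G (q.1, sS y q.2) := by
      intro q
      rw [hG]
      simp only
      rw [tn_fl hy1']
    simp only [h1]
    unfold QQ
    rw [integral_prod]
    · refine integral_congr_ae (Eventually.of_forall fun r => ?_)
      rw [hG]
      exact indep_far m h n hy3 r
    · refine bint (B := ‖h‖ * ‖h‖) ?_ fun q => ?_
      · exact (Complex.continuous_conj.measurable.comp hGm).mul (hGm.comp mp2.measurable)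
      · rw [norm_mul, RCLike.norm_conj]
        exact mul_le_mul (hGb _) (hGb _) (norm_nonneg _) (norm_nonneg _)
  obtain ⟨A, hA⟩ : ∃ A : Rs d → ℂ, A = fun r => ∫ ω, G (r, ω) ∂(Measure.infinitePi μ) := ⟨_, rfl⟩
  have hAm : Measurable A := by
    rw [hA]
    exact (hGm.stronglyMeasurable.integral_prod_right' (ν := Measure.infinitePi μ)).measurable
  have hAb : ∀ r, ‖A r‖ ≤ ‖h‖ := by
    intro r
    rw [hA]
    refine (norm_integral_le_of_norm_le_const (Eventually.of_forall fun ω => hGb (r, ω))).trans ?_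
    simp
  have c2 : ‖∫ q, G q ∂(QQ μ)‖ ^ 2 ≤ (∫ q, conj (G (fl y q.1, q.2)) * G (q.1, sS y q.2) ∂(QQ μ)).re := by
    rw [c1]
    have h1 : ∫ q, G q ∂(QQ μ) = ∫ r, A r ∂(PR d) := by
      unfold QQ
      rw [integral_prod _ (bint hGm hGb), hA]
    have h2 : ∫ r, conj (∫ ω, G (r, ω) ∂(Measure.infinitePi μ))
        * ∫ ω, G (r, ω) ∂(Measure.infinitePi μ) ∂(PR d) = ((∫ r, ‖A r‖ ^ 2 ∂(PR d) : ℝ) : ℂ) := by
      rw [← integral_complex_ofReal]
      refine integral_congr_ae (Eventually.of_forall fun r => ?_)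
      show conj (∫ ω, G (r, ω) ∂(Measure.infinitePi μ)) * ∫ ω, G (r, ω) ∂(Measure.infinitePi μ)
        = ((‖A r‖ ^ 2 : ℝ) : ℂ)
      rw [hA, Complex.conj_mul']
      push_cast
      rfl
    rw [h2, Complex.ofReal_re, h1]
    have h3 := jen (P := PR d) (f := fun r => ‖A r‖) hAm.norm (B := ‖h‖)
      (fun r => by rw [norm_norm]; exact hAb r)
    refine le_trans ?_ h3
    exact pow_le_pow_left₀ (norm_nonneg _) (norm_integral_le_integral_norm _) 2
  -- comparison
  have hfi : Integrable f (QQ μ) := bint hf hB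
  have hGi : Integrable G (QQ μ) := bint hGm hGb
  have c3 : ‖∫ q, f q ∂(QQ μ)‖ ≤ ‖∫ q, G q ∂(QQ μ)‖ + τ := by
    have h1 : ‖∫ q, f q ∂(QQ μ) - ∫ q, G q ∂(QQ μ)‖ ≤ τ := by
      rw [← integral_sub hfi hGi]
      exact (norm_integral_le_integral_norm _).trans e1
    have h2 := norm_le_norm_add_norm_sub' (∫ q, f q ∂(QQ μ)) (∫ q, G q ∂(QQ μ))
    linarith
  have c4 : ‖∫ q, f q ∂(QQ μ)‖ ≤ B :=
    (norm_integral_le_of_norm_le_const (Eventually.of_forall hB)).trans (by simp)
  have m1 : Measurable fun q : Rs d × Om2 d => conj (f (fl y q.1, q.2)) * f (q.1, sS y q.2) :=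
    (Complex.continuous_conj.measurable.comp (hf.comp mp1.measurable)).mul (hf.comp mp2.measurable)
  have m2 : Measurable fun q : Rs d × Om2 d => conj (G (fl y q.1, q.2)) * G (q.1, sS y q.2) :=
    (Complex.continuous_conj.measurable.comp (hGm.comp mp1.measurable)).mul
      (hGm.comp mp2.measurable)
  have i3 : Integrable (fun q : Rs d × Om2 d => conj (f (fl y q.1, q.2)) * f (q.1, sS y q.2))
      (QQ μ) := bint (B := B * B) m1 fun q => by
    rw [norm_mul, RCLike.norm_conj]
    exact mul_le_mul (hB _) (hB _) (norm_nonneg _) hB0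
  have i4 : Integrable (fun q : Rs d × Om2 d => conj (G (fl y q.1, q.2)) * G (q.1, sS y q.2))
      (QQ μ) := bint (B := ‖h‖ * ‖h‖) m2 fun q => by
    rw [norm_mul, RCLike.norm_conj]
    exact mul_le_mul (hGb _) (hGb _) (norm_nonneg _) (norm_nonneg _)
  have i5 : Integrable (fun q : Rs d × Om2 d => ‖f (fl y q.1, q.2) - G (fl y q.1, q.2)‖) (QQ μ) :=
    (mp1.integrable_comp i1.aestronglyMeasurable).2 i1
  have i6 : Integrable (fun q : Rs d × Om2 d => ‖f (q.1, sS y q.2) - G (q.1, sS y q.2)‖) (QQ μ) :=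
    (mp2.integrable_comp i1.aestronglyMeasurable).2 i1
  have i7 : Integrable (fun q : Rs d × Om2 d => ‖f (fl y q.1, q.2) - G (fl y q.1, q.2)‖ ^ 2)
      (QQ μ) := (mp1.integrable_comp i2.aestronglyMeasurable).2 i2
  have i8 : Integrable (fun q : Rs d × Om2 d => ‖f (q.1, sS y q.2) - G (q.1, sS y q.2)‖ ^ 2)
      (QQ μ) := (mp2.integrable_comp i2.aestronglyMeasurable).2 i2
  have ch : ∀ {T : Rs d × Om2 d → Rs d × Om2 d}, MeasurePreserving T (QQ μ) (QQ μ) →
      ∀ {w : Rs d × Om2 d → ℝ}, Measurable w → ∫ q, w (T q) ∂(QQ μ) = ∫ q, w q ∂(QQ μ) := by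
    intro T hT w hw
    have := integral_map (μ := QQ μ) hT.measurable.aemeasurable (f := w) hw.aestronglyMeasurable
    rw [hT.map_eq] at this
    exact this.symm
  have k1 := ch mp1 hdm
  have k2 := ch mp2 hdm
  have k3 := ch mp1 (hdm.pow_const 2)
  have k4 := ch mp2 (hdm.pow_const 2)
  have c5 : ‖∫ q, conj (f (fl y q.1, q.2)) * f (q.1, sS y q.2) ∂(QQ μ)
      - ∫ q, conj (G (fl y q.1, q.2)) * G (q.1, sS y q.2) ∂(QQ μ)‖ ≤ 2 * B * τ + τ ^ 2 := by
    rw [← integral_sub i3 i4]
    refine (norm_integral_le_integral_norm _).trans ?_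
    calc ∫ q : Rs d × Om2 d, ‖conj (f (fl y q.1, q.2)) * f (q.1, sS y q.2)
          - conj (G (fl y q.1, q.2)) * G (q.1, sS y q.2)‖ ∂(QQ μ)
        ≤ ∫ q : Rs d × Om2 d, (B * ‖f (fl y q.1, q.2) - G (fl y q.1, q.2)‖
          + B * ‖f (q.1, sS y q.2) - G (q.1, sS y q.2)‖
          + ((1 / 2) * ‖f (fl y q.1, q.2) - G (fl y q.1, q.2)‖ ^ 2
          + (1 / 2) * ‖f (q.1, sS y q.2) - G (q.1, sS y q.2)‖ ^ 2)) ∂(QQ μ) := by
          refine integral_mono (i3.sub i4).norm (((i5.const_mul B).add (i6.const_mul B)).add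
            ((i7.const_mul _).add (i8.const_mul _))) fun q => ?_
          simp only
          have h1 : conj (f (fl y q.1, q.2)) * f (q.1, sS y q.2)
              - conj (G (fl y q.1, q.2)) * G (q.1, sS y q.2)
              = conj (f (fl y q.1, q.2) - G (fl y q.1, q.2)) * f (q.1, sS y q.2)
                + conj (f (fl y q.1, q.2)) * (f (q.1, sS y q.2) - G (q.1, sS y q.2))
                - conj (f (fl y q.1, q.2) - G (fl y q.1, q.2))
                  * (f (q.1, sS y q.2) - G (q.1, sS y q.2)) := by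
            simp only [map_sub]
            ring
          rw [h1]
          have h2 := norm_sub_le (conj (f (fl y q.1, q.2) - G (fl y q.1, q.2)) * f (q.1, sS y q.2)
                + conj (f (fl y q.1, q.2)) * (f (q.1, sS y q.2) - G (q.1, sS y q.2)))
                (conj (f (fl y q.1, q.2) - G (fl y q.1, q.2))
                  * (f (q.1, sS y q.2) - G (q.1, sS y q.2)))
          have h3 := norm_add_le (conj (f (fl y q.1, q.2) - G (fl y q.1, q.2)) * f (q.1, sS y q.2))
                (conj (f (fl y q.1, q.2)) * (f (q.1, sS y q.2) - G (q.1, sS y q.2)))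
          rw [norm_mul, norm_mul, RCLike.norm_conj, RCLike.norm_conj] at h3
          rw [norm_mul (conj (f (fl y q.1, q.2) - G (fl y q.1, q.2))), RCLike.norm_conj] at h2
          have h4 := hB (fl y q.1, q.2)
          have h5 := hB (q.1, sS y q.2)
          have h6 := norm_nonneg (f (fl y q.1, q.2) - G (fl y q.1, q.2))
          have h7 := norm_nonneg (f (q.1, sS y q.2) - G (q.1, sS y q.2))
          have h8 := mul_le_mul_of_nonneg_left h5 h6
          have h9 := mul_le_mul_of_nonneg_right h4 h7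
          nlinarith [sq_nonneg (‖f (fl y q.1, q.2) - G (fl y q.1, q.2)‖
            - ‖f (q.1, sS y q.2) - G (q.1, sS y q.2)‖)]
      _ = B * ∫ q, ‖f q - G q‖ ∂(QQ μ) + B * ∫ q, ‖f q - G q‖ ∂(QQ μ)
          + ((1 / 2) * ∫ q, ‖f q - G q‖ ^ 2 ∂(QQ μ) + (1 / 2) * ∫ q, ‖f q - G q‖ ^ 2 ∂(QQ μ)) := by
          have j1 : Integrable (fun q : Rs d × Om2 d => B * ‖f (fl y q.1, q.2) - G (fl y q.1, q.2)‖
            + B * ‖f (q.1, sS y q.2) - G (q.1, sS y q.2)‖) (QQ μ) :=
            (i5.const_mul B).add (i6.const_mul B)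
          have j2 : Integrable (fun q : Rs d × Om2 d =>
            (1 / 2) * ‖f (fl y q.1, q.2) - G (fl y q.1, q.2)‖ ^ 2
            + (1 / 2) * ‖f (q.1, sS y q.2) - G (q.1, sS y q.2)‖ ^ 2) (QQ μ) :=
            (i7.const_mul _).add (i8.const_mul _)
          rw [integral_add j1 j2, integral_add (i5.const_mul B) (i6.const_mul B),
            integral_add (i7.const_mul _) (i8.const_mul _), integral_const_mul,
            integral_const_mul, integral_const_mul, integral_const_mul, k1, k2, k3, k4]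
      _ ≤ 2 * B * τ + τ ^ 2 := by nlinarith
  have c6 := (Complex.abs_re_le_norm _).trans c5
  rw [Complex.sub_re, abs_le] at c6
  have c7 : ‖∫ q, f q ∂(QQ μ)‖ ^ 2 ≤ ‖∫ q, G q ∂(QQ μ)‖ ^ 2 + τ * (2 * B) := by
    have h1 := norm_nonneg (∫ q, G q ∂(QQ μ))
    have h2 := norm_nonneg (∫ q, f q ∂(QQ μ))
    rcases le_or_gt (‖∫ q, f q ∂(QQ μ)‖) (‖∫ q, G q ∂(QQ μ)‖) with h3 | h3
    · nlinarith
    · nlinarith
  have h9 : τ ^ 2 ≤ τ := by nlinarith
  linarith [c6.1]

end

end

end Pool.Agent.T2H19
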