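import Pool.Agent.T2H19.W4

/-! Bounds on the joint space. -/

set_option autoImplicit false

namespace Pool.Agent.T2H19

open MeasureTheory ProbabilityTheory Filter Topology
open scoped BigOperators ComplexConjugate ENNReal BoundedContinuousFunction

noncomputable section

variable {d : ℕ} {μ : Sym2 (Zd d) → Measure ℝ} {t a : Zd d → ℝ}
  [∀ e, IsProbabilityMeasure (μ e)]

theorem lint_QQ {f : Rs d × Om2 d → ℝ≥0∞} (hf : Measurable f) :
    ∫⁻ q, f q ∂(QQ μ) = ∫⁻ r, ∫⁻ ω, f (r, ω) ∂(Measure.infinitePi μ) ∂(PR d) := by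
  unfold QQ
  exact lintegral_prod _ hf.aemeasurable

theorem lint_mono_QQ {f g : Rs d × Om2 d → ℝ≥0∞} (hf : Measurable f) (hg : Measurable g)
    (h : ∀ r, ∀ᵐ ω ∂(Measure.infinitePi μ), f (r, ω) ≤ g (r, ω)) :
    ∫⁻ q, f q ∂(QQ μ) ≤ ∫⁻ q, g q ∂(QQ μ) := by
  rw [lint_QQ hf, lint_QQ hg]
  exact lintegral_mono fun r => lintegral_mono_ae (h r)

/-- Far flips have a small influence. -/
theorem inflF {f : Rs d × Om2 d → ℂ} (hf : Measurable f) {B : ℝ} (hB : ∀ q, ‖f q‖ ≤ B) {ε : ℝ}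
    (hε : 0 < ε) : ∃ S : Set (Zd d), S.Finite ∧ ∀ y, y ∉ S →
      ∫ q, ‖f (fl y q.1, q.2) - f q‖ ∂(QQ μ) ≤ ε := by
  obtain ⟨h, n, hn⟩ := cyl_approx (μ := μ) hf hB (ε := (ε / 2) ^ 2) (by positivity)
  obtain ⟨G, hG⟩ : ∃ G : Rs d × Om2 d → ℂ, G = fun q => h (tn n q) := ⟨_, rfl⟩
  have hGm : Measurable G := by rw [hG]; exact (h.continuous.comp (tn_cont n)).measurable
  have hGb : ∀ q, ‖G q‖ ≤ ‖h‖ := fun q => by rw [hG]; exact h.norm_coe_le_norm _
  have hdif : ∀ q, ‖f q - G q‖ ≤ B + ‖h‖ := fun q =>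
    (norm_sub_le _ _).trans (add_le_add (hB q) (hGb q))
  have hdm : Measurable fun q => ‖f q - G q‖ := (hf.sub hGm).norm
  have i1 : Integrable (fun q => ‖f q - G q‖) (QQ μ) :=
    bint (B := B + ‖h‖) hdm fun q => by rw [norm_norm]; exact hdif q
  have e1 : ∫ q, ‖f q - G q‖ ∂(QQ μ) ≤ ε / 2 := by
    have h1 := jen (P := QQ μ) hdm (B := B + ‖h‖) (fun q => by rw [norm_norm]; exact hdif q)
    have e2 : ∫ q, ‖f q - G q‖ ^ 2 ∂(QQ μ) ≤ (ε / 2) ^ 2 := by rw [hG]; exact hn
    exact (pow_le_pow_iff_left₀ (integral_nonneg fun q => norm_nonneg _) (by positivity)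
      two_ne_zero).1 (h1.trans e2)
  refine ⟨(bx d n : Set (Zd d)), (bx d n).finite_toSet, fun y hy => ?_⟩
  have hy1 : y ∉ bx d n := hy
  have mp1 := flQ_mp (μ := μ) y
  have i5 : Integrable (fun q : Rs d × Om2 d => ‖f (fl y q.1, q.2) - G (fl y q.1, q.2)‖) (QQ μ) :=
    (mp1.integrable_comp i1.aestronglyMeasurable).2 i1
  have k1 : ∫ q : Rs d × Om2 d, ‖f (fl y q.1, q.2) - G (fl y q.1, q.2)‖ ∂(QQ μ)
      = ∫ q, ‖f q - G q‖ ∂(QQ μ) := by
    have := integral_map (μ := QQ μ) mp1.measurable.aemeasurable (f := fun q => ‖f q - G q‖)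
      hdm.aestronglyMeasurable
    rw [mp1.map_eq] at this
    exact this.symm
  calc ∫ q, ‖f (fl y q.1, q.2) - f q‖ ∂(QQ μ)
      ≤ ∫ q : Rs d × Om2 d, (‖f (fl y q.1, q.2) - G (fl y q.1, q.2)‖ + ‖f q - G q‖) ∂(QQ μ) := by
        refine integral_mono (bint (B := B + B) ((hf.comp mp1.measurable).sub hf).norm fun q => ?_)
          (i5.add i1) fun q => ?_
        · rw [norm_norm]
          exact (norm_sub_le _ _).trans (add_le_add (hB _) (hB _))
        · simp only
          have h1 : G (fl y q.1, q.2) = G q := by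
            rw [hG]
            simp only
            rw [tn_fl hy1]
          have h2 : f (fl y q.1, q.2) - f q
              = (f (fl y q.1, q.2) - G (fl y q.1, q.2)) - (f q - G q) := by
            rw [h1]; ring
          rw [h2]
          exact norm_sub_le _ _
    _ = ∫ q, ‖f q - G q‖ ∂(QQ μ) + ∫ q, ‖f q - G q‖ ∂(QQ μ) := by
        rw [integral_add i5 i1, k1]
    _ ≤ ε := by linarith

/-- Far flips hardly change an event. -/
theorem inflS {A : Set (Rs d × Om2 d)} (hA : MeasurableSet A) {ε : ℝ} (hε : 0 < ε) :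
    ∃ S : Set (Zd d), S.Finite ∧ ∀ y, y ∉ S →
      (QQ μ).real {q | (fl y q.1, q.2) ∈ A ∧ q ∉ A} ≤ ε ∧
      (QQ μ).real {q | q ∈ A ∧ (fl y q.1, q.2) ∉ A} ≤ ε := by
  obtain ⟨f, hf⟩ : ∃ f : Rs d × Om2 d → ℂ, f = A.indicator (fun _ => 1) := ⟨_, rfl⟩
  have hfm : Measurable f := by rw [hf]; exact measurable_const.indicator hA
  have hfb : ∀ q, ‖f q‖ ≤ 1 := by
    intro q
    rw [hf]
    by_cases hq : q ∈ A
    · rw [Set.indicator_of_mem hq]; simp
    · rw [Set.indicator_of_notMem hq]; simp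
  obtain ⟨S, hS, h⟩ := inflF (μ := μ) hfm hfb hε
  refine ⟨S, hS, fun y hy => ?_⟩
  have h1 := h y hy
  have mp1 := flQ_mp (μ := μ) y
  have hfi : Integrable (fun q : Rs d × Om2 d => ‖f (fl y q.1, q.2) - f q‖) (QQ μ) :=
    bint (B := 1 + 1) ((hfm.comp mp1.measurable).sub hfm).norm fun q => by
      rw [norm_norm]
      exact (norm_sub_le _ _).trans (add_le_add (hfb _) (hfb _))
  have key : ∀ D : Set (Rs d × Om2 d), MeasurableSet D →
      (∀ q ∈ D, 1 ≤ ‖f (fl y q.1, q.2) - f q‖) → (QQ μ).real D ≤ ε := by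
    intro D hD hD1
    refine le_trans ?_ h1
    rw [← integral_indicator_one hD]
    refine integral_mono (bint (B := 1) (measurable_one.indicator hD) fun q => ?_) hfi fun q => ?_
    · by_cases hq : q ∈ D
      · rw [Set.indicator_of_mem hq]; simp
      · rw [Set.indicator_of_notMem hq]; simp
    · by_cases hq : q ∈ D
      · rw [Set.indicator_of_mem hq]
        exact hD1 q hq
      · rw [Set.indicator_of_notMem hq]
        exact norm_nonneg _
  constructor
  · refine key _ ((mp1.measurable hA).inter hA.compl) fun q hq => ?_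
    rw [hf, Set.indicator_of_mem hq.1, Set.indicator_of_notMem hq.2]
    simp
  · refine key _ (hA.inter (mp1.measurable hA).compl) fun q hq => ?_
    rw [hf, Set.indicator_of_mem hq.1, Set.indicator_of_notMem hq.2]
    simp

/-- Large off-diagonal parts. -/
def Rj (t a : Zd d → ℝ) (z : ℂ) (ε : ℝ) (y : Zd d) : Set (Rs d × Om2 d) :=
  {q | ε < ‖Gi (HS (tt t a q.1) q.2) z y 0 / Gi (HS (tt t a q.1) q.2) z 0 0‖}

theorem Rj_meas (m : Mr μ t a) {z : ℂ} (hz : z.im ≠ 0) (ε : ℝ) (y : Zd d) :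
    MeasurableSet (Rj t a z ε y) :=
  measurableSet_lt measurable_const (((Gr_meas m hz y 0).div (Gr_meas m hz 0 0)).norm)

theorem bsumQ (m : Mr μ t a) {E K α δ : ℝ} {j0 j : ℕ} (hj : j0 ≤ j) {ε : ℝ} (hε : 0 < ε)
    (hK : 0 ≤ K) (F : Finset (Zd d)) :
    ∑ y ∈ F, (QQ μ).real (Aj t a E K α δ j0 ∩ Rj t a ⟨E, et j⟩ ε y) ≤ K / ε ^ 2 := by
  have hη := et_pos j
  have hAm := Aj_meas m E K α δ j0
  have hRm := fun y => Rj_meas m (z := ⟨E, et j⟩) hη.ne' ε y
  have h1 : ∑ y ∈ F, (QQ μ) (Aj t a E K α δ j0 ∩ Rj t a ⟨E, et j⟩ ε y)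
      ≤ ENNReal.ofReal (K / ε ^ 2) := by
    have e1 : ∀ y ∈ F, (QQ μ) (Aj t a E K α δ j0 ∩ Rj t a ⟨E, et j⟩ ε y)
        = ∫⁻ r, (Measure.infinitePi μ) (Ae (tt t a r) E K α δ j0 ∩ Re1 (tt t a r) ⟨E, et j⟩ ε y)
          ∂(PR d) := by
      intro y _
      unfold QQ
      rw [Measure.prod_apply (hAm.inter (hRm y))]
      rfl
    rw [Finset.sum_congr rfl e1, ← lintegral_finsetSum' _ fun y _ => ?_]
    · calc _ ≤ ∫⁻ _r : Rs d, ENNReal.ofReal (K / ε ^ 2) ∂(PR d) := by
            refine lintegral_mono fun r => ?_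
            have h2 := bsum (m.mo r) (E := E) (α := α) (δ := δ) hj hε hK F
            have h3 := ENNReal.ofReal_le_ofReal h2
            rw [ENNReal.ofReal_sum_of_nonneg fun _ _ => measureReal_nonneg] at h3
            refine le_trans (Finset.sum_le_sum fun y _ => ?_) h3
            rw [Measure.real, ENNReal.ofReal_toReal (measure_ne_top _ _)]
        _ = _ := by rw [lintegral_const, measure_univ, mul_one]
    · have := measurable_measure_prodMk_left (ν := Measure.infinitePi μ) (hAm.inter (hRm y))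
      exact this.aemeasurable
  have h2 := ENNReal.toReal_mono ENNReal.ofReal_ne_top h1
  rw [ENNReal.toReal_sum (fun _ _ => measure_ne_top _ _), ENNReal.toReal_ofReal (by positivity)] at h2
  exact h2

/-- The good pairs with a hopping of moderate size. -/
def Vs (t a : Zd d → ℝ) (E η K α δ : ℝ) (y : Zd d) : Set (Rs d × Om2 d) :=
  {q | q.2 ∈ GE (tt t a q.1) E η K α δ 0 y ∧ 4 * K * η ≤ ‖Mk (HS (tt t a q.1) q.2) ⟨E, η⟩ 0 y 0 1‖
    ∧ ‖Mk (HS (tt t a q.1) q.2) ⟨E, η⟩ 0 y 0 1‖ ≤ δ}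

theorem Vs_meas (m : Mr μ t a) {E η : ℝ} (hη : 0 < η) (K α δ : ℝ) (y : Zd d) :
    MeasurableSet (Vs t a E η K α δ y) := by
  have h := fun i j => Mkr_meas m (z := ⟨E, η⟩) hη.ne' 0 y i j
  have e : ∀ b : Sym2 (Zd d), Measurable fun q : Rs d × Om2 d => q.2 b := fun b =>
    (measurable_pi_apply b).comp measurable_snd
  have hre : ∀ i j, Measurable fun q : Rs d × Om2 d =>
      (Mk (HS (tt t a q.1) q.2) ⟨E, η⟩ 0 y i j).re := fun i j => Complex.measurable_re.comp (h i j)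
  have him : ∀ i j, Measurable fun q : Rs d × Om2 d =>
      (Mk (HS (tt t a q.1) q.2) ⟨E, η⟩ 0 y i j).im := fun i j => Complex.measurable_im.comp (h i j)
  have habs : ∀ {f : Rs d × Om2 d → ℝ}, Measurable f → Measurable fun q => |f q| := fun hf =>
    continuous_abs.measurable.comp hf
  unfold Vs GE
  refine MeasurableSet.inter (MeasurableSet.inter (measurableSet_le (habs (him 0 0)) measurable_const)
    (MeasurableSet.inter (measurableSet_le (habs (him 1 1)) measurable_const)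
    (MeasurableSet.inter (measurableSet_le
      ((h 1 0).sub (Complex.continuous_conj.measurable.comp (h 0 1))).norm measurable_const)
    (MeasurableSet.inter (measurableSet_le (habs (((e _).sub (hre 0 0)).sub_const _))
      measurable_const) (measurableSet_le (habs (((e _).sub (hre 1 1)).sub_const _))
      measurable_const)))))
    ((measurableSet_le measurable_const (h 0 1).norm).inter
      (measurableSet_le (h 0 1).norm measurable_const))

/-- The hopping on the good pairs. -/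
def Vf (t a : Zd d → ℝ) (E η K α δ : ℝ) (y : Zd d) : Rs d × Om2 d → ℝ≥0∞ :=
  (Vs t a E η K α δ y).indicator fun q =>
    ENNReal.ofReal ‖Mk (HS (tt t a q.1) q.2) ⟨E, η⟩ 0 y 0 1‖

theorem Vf_meas (m : Mr μ t a) {E η : ℝ} (hη : 0 < η) (K α δ : ℝ) (y : Zd d) :
    Measurable (Vf t a E η K α δ y) :=
  (Mkr_meas m (z := ⟨E, η⟩) hη.ne' 0 y 0 1).norm.ennreal_ofReal.indicator
    (Vs_meas m hη K α δ y)

theorem lowQ (m : Mr μ t a) {ρ : ℝ → ℝ} {C : ℝ} (hκ : Dens (μ s(0, 0)) ρ C) {c α δ : ℝ}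
    (hc : 0 < c) (hν : LB (μ s(0, 0)) c (α - 4 * δ) (α + 4 * δ)) {E η K : ℝ} (hη : 0 < η)
    (hK : 1 ≤ K) (F : Finset (Zd d)) (hF : ∀ y ∈ F, y ≠ 0) :
    ENNReal.ofReal (c ^ 2 / (13122 * K ^ 8)) * ∑ y ∈ F, ∫⁻ q, Vf t a E η K α δ y q ∂(QQ μ)
      ≤ ENNReal.ofReal (C * Real.pi) := by
  have hVm := fun y => Vf_meas m (E := E) hη K α δ y
  rw [← lintegral_finsetSum _ fun y _ => hVm y, ← lintegral_const_mul _
    (Finset.measurable_sum _ fun y _ => hVm y), lint_QQ ((Finset.measurable_sum _ fun y _ =>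
      hVm y).const_mul _)]
  calc _ ≤ ∫⁻ _r : Rs d, ENNReal.ofReal (C * Real.pi) ∂(PR d) := by
        refine lintegral_mono fun r => ?_
        have hsec : ∀ y, Measurable fun ω : Om2 d => Vf t a E η K α δ y (r, ω) := fun y =>
          (hVm y).comp measurable_prodMk_left
        rw [lintegral_const_mul _ (Finset.measurable_sum _ fun y _ => hsec y),
          lintegral_finsetSum _ fun y _ => hsec y, Finset.mul_sum]
        have h1 := up_sum (m.mo r) (E := E) hη 0 F
        have h2 := wegner (m.mo r) hκ (z := ⟨E, η⟩) hη 0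
        refine le_trans (Finset.sum_le_sum fun y hy => ?_) (h1.trans h2)
        refine le_trans (mul_le_mul_right (le_of_eq ?_) _)
          (low0 (m.mo r) hc hν (E := E) hη hK (hF y hy).symm)
        have hMm := Mk_meas (t := tt t a r) (m.mo r).ts (z := ⟨E, η⟩) hη.ne' 0 y 0 1
        have hSm : MeasurableSet (GE (tt t a r) E η K α δ 0 y ∩
            {ω : Om2 d | 4 * K * η ≤ ‖Mk (HS (tt t a r) ω) ⟨E, η⟩ 0 y 0 1‖ ∧
              ‖Mk (HS (tt t a r) ω) ⟨E, η⟩ 0 y 0 1‖ ≤ δ}) :=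
          (GE_meas (m.mo r).ts hη K α δ 0 y).inter
            ((measurableSet_le measurable_const hMm.norm).inter
              (measurableSet_le hMm.norm measurable_const))
        rw [← lintegral_indicator hSm]
        rfl
    _ = _ := by rw [lintegral_const, measure_univ, mul_one]

end

end Pool.Agent.T2H19
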