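import Pool.Agent.T2H19.W5

/-! The choice of the scale and of the truncation. -/

set_option autoImplicit false

namespace Pool.Agent.T2H19

open MeasureTheory ProbabilityTheory Filter Topology
open scoped BigOperators ComplexConjugate ENNReal BoundedContinuousFunction

noncomputable section

variable {d : ℕ} {μ : Sym2 (Zd d) → Measure ℝ} {t a : Zd d → ℝ}
  [∀ e, IsProbabilityMeasure (μ e)]

theorem erj_meas (m : Mr μ t a) (E : ℝ) {η η' : ℝ} (hη : 0 < η) (hη' : 0 < η')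
    (Λ : Finset (Zd d)) : Measurable fun q : Rs d × Om2 d => er (HS (tt t a q.1) q.2) E η η' Λ := by
  unfold er
  have h1 := kapr_meas m (z := ⟨E, η⟩) hη.ne' 0
  have h2 := kapr_meas m (z := ⟨E, η'⟩) hη'.ne' 0
  have h3 : Measurable fun q : Rs d × Om2 d => ∑ u ∈ Λ, ‖Gi (HS (tt t a q.1) q.2) ⟨E, η'⟩ u 0
      / Gi (HS (tt t a q.1) q.2) ⟨E, η'⟩ 0 0‖ ^ 2 :=
    Finset.measurable_sum _ fun u _ => ((Gr_meas m (z := ⟨E, η'⟩) hη'.ne' u 0).div
      (Gr_meas m (z := ⟨E, η'⟩) hη'.ne' 0 0)).norm.pow_const 2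
  exact (h1.sub h2).sqrt.add (h2.sub h3).sqrt

theorem sqrt_le_tau {x τ : ℝ} (hx : 0 ≤ x) (hτ : 0 < τ) : √x ≤ τ + x / τ := by
  rcases le_or_gt (√x) τ with h | h
  · have : 0 ≤ x / τ := by positivity
    linarith
  · have h1 : √x * τ ≤ x := by
      calc √x * τ ≤ √x * √x := mul_le_mul_of_nonneg_left h.le (Real.sqrt_nonneg _)
        _ = x := Real.mul_self_sqrt hx
    have h2 : √x ≤ x / τ := by rwa [le_div_iff₀ hτ]
    linarith

theorem choose_iL (m : Mr μ t a) (E α δ : ℝ) {K : ℝ} (hK : 0 ≤ K) (j0 : ℕ) {τ : ℝ} (hτ : 0 < τ) :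
    ∃ i, j0 ≤ i ∧ ∃ Λ : Finset (Zd d), (0 : Zd d) ∈ Λ ∧ ∀ j, i ≤ j →
      ∫⁻ q in Aj t a E K α δ j0, ENNReal.ofReal (er (HS (tt t a q.1) q.2) E (et j) (et i) Λ) ∂(QQ μ)
        ≤ ENNReal.ofReal τ := by
  obtain ⟨A, hA⟩ : ∃ A, A = Aj t a E K α δ j0 := ⟨_, rfl⟩
  have hAm : MeasurableSet A := by rw [hA]; exact Aj_meas m E K α δ j0
  have hAK : ∀ q ∈ A, ∀ j, j0 ≤ j → kap (HS (tt t a q.1) q.2) ⟨E, et j⟩ 0 ≤ K := by
    intro q hq j hj
    rw [hA] at hq
    exact (hq j hj).1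
  rw [← hA]
  obtain ⟨τ', hτ'⟩ : ∃ τ' : ℝ, τ' = τ / 4 := ⟨_, rfl⟩
  have hτ0 : 0 < τ' := by rw [hτ']; positivity
  have km := fun j => kapr_meas m (z := ⟨E, et j⟩) (et_pos j).ne' 0
  obtain ⟨R, hR⟩ : ∃ R : ℕ → ℝ≥0∞, R = fun j =>
    ∫⁻ q in A, ENNReal.ofReal (kap (HS (tt t a q.1) q.2) ⟨E, et j⟩ 0) ∂(QQ μ) := ⟨_, rfl⟩
  -- monotonicity in the restricted integrals
  have hmono : ∀ {f g : Rs d × Om2 d → ℝ≥0∞}, Measurable f → Measurable g →
      (∀ r, ∀ᵐ ω ∂(Measure.infinitePi μ), (r, ω) ∈ A → f (r, ω) ≤ g (r, ω)) →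
      ∫⁻ q in A, f q ∂(QQ μ) ≤ ∫⁻ q in A, g q ∂(QQ μ) := by
    intro f g hf hg h
    rw [← lintegral_indicator hAm, ← lintegral_indicator hAm]
    refine lint_mono_QQ (hf.indicator hAm) (hg.indicator hAm) fun r => ?_
    filter_upwards [h r] with ω hω
    by_cases hq : (r, ω) ∈ A
    · rw [Set.indicator_of_mem hq, Set.indicator_of_mem hq]
      exact hω hq
    · rw [Set.indicator_of_notMem hq]
      exact bot_le
  have hRK : ∀ j, j0 ≤ j → R j ≤ ENNReal.ofReal K := by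
    intro j hj
    rw [hR]
    calc _ ≤ ∫⁻ _q in A, ENNReal.ofReal K ∂(QQ μ) :=
          setLIntegral_mono' hAm fun q hq => ENNReal.ofReal_le_ofReal (hAK q hq j hj)
      _ ≤ ENNReal.ofReal K * 1 := by
          rw [setLIntegral_const]
          exact mul_le_mul_right prob_le_one _
      _ = _ := mul_one _
  have hRt : ∀ j, j0 ≤ j → R j ≠ ∞ := fun j hj =>
    ne_top_of_le_ne_top ENNReal.ofReal_ne_top (hRK j hj)
  have hRm : ∀ i j, i ≤ j → R i ≤ R j := by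
    intro i j hij
    rw [hR]
    refine hmono (km i).ennreal_ofReal (km j).ennreal_ofReal fun r => ?_
    filter_upwards [good_ae (m.mo r)] with ω g _
    exact ENNReal.ofReal_le_ofReal (kap_mono g (et_pos j) (et_anti hij) 0)
  -- the scale
  obtain ⟨i, hi, hiR⟩ : ∃ i, j0 ≤ i ∧ ∀ j, i ≤ j → R j ≤ R i + ENNReal.ofReal (τ' ^ 2) := by
    have h1 : Tendsto (fun k => R (j0 + k)) atTop (𝓝 (⨆ k, R (j0 + k))) :=
      tendsto_atTop_iSup fun k l hkl => hRm _ _ (by omega)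
    have h2 : (⨆ k, R (j0 + k)) ≠ ∞ :=
      ne_top_of_le_ne_top ENNReal.ofReal_ne_top (iSup_le fun k => hRK _ (by omega))
    have h3 : Tendsto (fun k => R (j0 + k) + ENNReal.ofReal (τ' ^ 2)) atTop
        (𝓝 ((⨆ k, R (j0 + k)) + ENNReal.ofReal (τ' ^ 2))) := h1.add_const _
    have h4 : (⨆ k, R (j0 + k)) < (⨆ k, R (j0 + k)) + ENNReal.ofReal (τ' ^ 2) :=
      ENNReal.lt_add_right h2 (by rw [Ne, ENNReal.ofReal_eq_zero, not_le]; positivity)
    obtain ⟨k, hk⟩ := ((tendsto_order.1 h3).1 _ h4).exists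
    refine ⟨j0 + k, by omega, fun j hj => ?_⟩
    obtain ⟨l, rfl⟩ := Nat.exists_eq_add_of_le (show j0 ≤ j by omega)
    exact (le_iSup (fun k => R (j0 + k)) l).trans hk.le
  -- the truncation
  have sm : ∀ n, Measurable fun q : Rs d × Om2 d => ∑ u ∈ bx d n, ‖Gi (HS (tt t a q.1) q.2)
      ⟨E, et i⟩ u 0 / Gi (HS (tt t a q.1) q.2) ⟨E, et i⟩ 0 0‖ ^ 2 := fun n =>
    Finset.measurable_sum _ fun u _ => ((Gr_meas m (z := ⟨E, et i⟩) (et_pos i).ne' u 0).div
      (Gr_meas m (z := ⟨E, et i⟩) (et_pos i).ne' 0 0)).norm.pow_const 2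
  obtain ⟨n, hn0, hn⟩ : ∃ n, (0 : Zd d) ∈ bx d n ∧
      ∫⁻ q in A, ENNReal.ofReal (kap (HS (tt t a q.1) q.2) ⟨E, et i⟩ 0
        - ∑ u ∈ bx d n, ‖Gi (HS (tt t a q.1) q.2) ⟨E, et i⟩ u 0
          / Gi (HS (tt t a q.1) q.2) ⟨E, et i⟩ 0 0‖ ^ 2) ∂(QQ μ) ≤ ENNReal.ofReal (τ' ^ 2) := by
    have hae : ∀ᵐ q ∂((QQ μ).restrict A), Tendsto (fun n => ENNReal.ofReal
        (kap (HS (tt t a q.1) q.2) ⟨E, et i⟩ 0 - ∑ u ∈ bx d n, ‖Gi (HS (tt t a q.1) q.2)
          ⟨E, et i⟩ u 0 / Gi (HS (tt t a q.1) q.2) ⟨E, et i⟩ 0 0‖ ^ 2)) atTop (𝓝 0) := by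
      refine ae_restrict_of_ae ?_
      unfold QQ
      refine (Measure.ae_prod_iff_ae_ae ?_).2 (Eventually.of_forall fun r => ?_)
      · exact measurableSet_tendsto _ fun n => ((km i).sub (sm n)).ennreal_ofReal
      · filter_upwards [good_ae (m.mo r)] with ω g
        have hz : 0 < (⟨E, et i⟩ : ℂ).im := et_pos i
        have h1 : Tendsto (fun n => ∑ u ∈ bx d n, ‖(nc g hz 0) u‖ ^ 2) atTop
            (𝓝 (∑' u, ‖(nc g hz 0) u‖ ^ 2)) :=
          (sm2 (nc g hz 0)).hasSum.comp (tendsto_atTop.2 fun s => bx_exh d s)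
        rw [← norm2, nc_norm] at h1
        simp only [nc_apply] at h1
        have h2 := ENNReal.tendsto_ofReal (h1.const_sub (kap (HS (tt t a r) ω) ⟨E, et i⟩ 0))
        rwa [sub_self, ENNReal.ofReal_zero] at h2
    have hlim := tendsto_lintegral_of_dominated_convergence (μ := (QQ μ).restrict A)
      (fun _ => ENNReal.ofReal K) (fun n => ((km i).sub (sm n)).ennreal_ofReal) (fun n => by
        refine (ae_restrict_iff' hAm).2 (Eventually.of_forall fun q hq => ?_)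
        refine ENNReal.ofReal_le_ofReal ?_
        have h1 := hAK q hq i hi
        have h2 : 0 ≤ ∑ u ∈ bx d n, ‖Gi (HS (tt t a q.1) q.2)
          ⟨E, et i⟩ u 0 / Gi (HS (tt t a q.1) q.2) ⟨E, et i⟩ 0 0‖ ^ 2 :=
          Finset.sum_nonneg fun _ _ => by positivity
        simp only [Pi.sub_apply]
        linarith) (by
        rw [lintegral_const]
        exact ENNReal.mul_ne_top ENNReal.ofReal_ne_top (measure_ne_top _ _)) hae
    rw [lintegral_zero] at hlim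
    have h5 := (tendsto_order.1 hlim).2 (ENNReal.ofReal (τ' ^ 2))
      (ENNReal.ofReal_pos.2 (by positivity))
    obtain ⟨n, hn1, hn2⟩ := (h5.and (bx_exh d {0})).exists
    exact ⟨n, hn2 (Finset.mem_singleton_self _), hn1.le⟩
  refine ⟨i, hi, bx d n, hn0, fun j hj => ?_⟩
  have hj0 : j0 ≤ j := hi.trans hj
  have hdiff : ∫⁻ q in A, ENNReal.ofReal (kap (HS (tt t a q.1) q.2) ⟨E, et j⟩ 0
      - kap (HS (tt t a q.1) q.2) ⟨E, et i⟩ 0) ∂(QQ μ) ≤ ENNReal.ofReal (τ' ^ 2) := by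
    have h1 : ∫⁻ q in A, ENNReal.ofReal (kap (HS (tt t a q.1) q.2) ⟨E, et j⟩ 0
        - kap (HS (tt t a q.1) q.2) ⟨E, et i⟩ 0) ∂(QQ μ) + R i ≤ R j := by
      rw [hR]
      simp only
      rw [← lintegral_add_right _ (km i).ennreal_ofReal]
      refine hmono (((km j).sub (km i)).ennreal_ofReal.add (km i).ennreal_ofReal)
        (km j).ennreal_ofReal fun r => ?_
      filter_upwards [good_ae (m.mo r)] with ω g _
      have h2 := kap_mono g (E := E) (et_pos j) (et_anti hj) 0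
      have h3 := kap_one g (z := ⟨E, et i⟩) (et_pos i) 0
      rw [← ENNReal.ofReal_add (by simpa using h2) (by linarith)]
      simp
    have h2 := h1.trans (hiR j hj)
    rw [add_comm (R i)] at h2
    exact (ENNReal.add_le_add_iff_right (hRt i hi)).1 h2
  calc ∫⁻ q in A, ENNReal.ofReal (er (HS (tt t a q.1) q.2) E (et j) (et i) (bx d n)) ∂(QQ μ)
      ≤ ∫⁻ q in A, (ENNReal.ofReal (2 * τ') + (ENNReal.ofReal (1 / τ')
        * ENNReal.ofReal (kap (HS (tt t a q.1) q.2) ⟨E, et j⟩ 0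
          - kap (HS (tt t a q.1) q.2) ⟨E, et i⟩ 0)
        + ENNReal.ofReal (1 / τ') * ENNReal.ofReal (kap (HS (tt t a q.1) q.2) ⟨E, et i⟩ 0
        - ∑ u ∈ bx d n, ‖Gi (HS (tt t a q.1) q.2) ⟨E, et i⟩ u 0
          / Gi (HS (tt t a q.1) q.2) ⟨E, et i⟩ 0 0‖ ^ 2))) ∂(QQ μ) := by
        refine hmono (erj_meas m E (et_pos j) (et_pos i) _).ennreal_ofReal
          (measurable_const.add (((((km j).sub (km i)).ennreal_ofReal).const_mul _).add
            (((km i).sub (sm n)).ennreal_ofReal.const_mul _))) fun r => ?_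
        filter_upwards [good_ae (m.mo r)] with ω g _
        have h2 := kap_mono g (E := E) (et_pos j) (et_anti hj) 0
        have h3 := kap_row g (z := ⟨E, et i⟩) (et_pos i) 0 (bx d n)
        have h4 := sqrt_le_tau (sub_nonneg.2 h2) hτ0
        have h5 := sqrt_le_tau (sub_nonneg.2 h3) hτ0
        rw [← ENNReal.ofReal_mul (by positivity), ← ENNReal.ofReal_mul (by positivity),
          ← ENNReal.ofReal_add (mul_nonneg (by positivity) (sub_nonneg.2 h2))
            (mul_nonneg (by positivity) (sub_nonneg.2 h3)),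
          ← ENNReal.ofReal_add (by positivity) (add_nonneg
            (mul_nonneg (by positivity) (sub_nonneg.2 h2))
            (mul_nonneg (by positivity) (sub_nonneg.2 h3)))]
        refine ENNReal.ofReal_le_ofReal ?_
        unfold er
        rw [one_div_mul_eq_div, one_div_mul_eq_div]
        linarith
    _ = ENNReal.ofReal (2 * τ') * (QQ μ) A + (ENNReal.ofReal (1 / τ')
        * ∫⁻ q in A, ENNReal.ofReal (kap (HS (tt t a q.1) q.2) ⟨E, et j⟩ 0
          - kap (HS (tt t a q.1) q.2) ⟨E, et i⟩ 0) ∂(QQ μ)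
        + ENNReal.ofReal (1 / τ') * ∫⁻ q in A, ENNReal.ofReal
          (kap (HS (tt t a q.1) q.2) ⟨E, et i⟩ 0
        - ∑ u ∈ bx d n, ‖Gi (HS (tt t a q.1) q.2) ⟨E, et i⟩ u 0
          / Gi (HS (tt t a q.1) q.2) ⟨E, et i⟩ 0 0‖ ^ 2) ∂(QQ μ)) := by
        have e1 : Measurable fun q : Rs d × Om2 d => ENNReal.ofReal
            (kap (HS (tt t a q.1) q.2) ⟨E, et j⟩ 0 - kap (HS (tt t a q.1) q.2) ⟨E, et i⟩ 0) :=
          ((km j).sub (km i)).ennreal_ofReal
        have e2 : Measurable fun q : Rs d × Om2 d => ENNReal.ofReal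
            (kap (HS (tt t a q.1) q.2) ⟨E, et i⟩ 0 - ∑ u ∈ bx d n, ‖Gi (HS (tt t a q.1) q.2)
              ⟨E, et i⟩ u 0 / Gi (HS (tt t a q.1) q.2) ⟨E, et i⟩ 0 0‖ ^ 2) :=
          ((km i).sub (sm n)).ennreal_ofReal
        rw [lintegral_add_left measurable_const, setLIntegral_const, lintegral_add_left
          (e1.const_mul _), lintegral_const_mul _ e1, lintegral_const_mul _ e2]
    _ ≤ ENNReal.ofReal (2 * τ') * 1 + (ENNReal.ofReal (1 / τ') * ENNReal.ofReal (τ' ^ 2)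
        + ENNReal.ofReal (1 / τ') * ENNReal.ofReal (τ' ^ 2)) := by
        gcongr
        exact prob_le_one
    _ = ENNReal.ofReal τ := by
        rw [mul_one, ← ENNReal.ofReal_mul (by positivity), ← ENNReal.ofReal_add (by positivity)
          (by positivity), ← ENNReal.ofReal_add (by positivity) (by positivity)]
        congr 1
        rw [hτ']
        field_simp
        ring

end

end Pool.Agent.T2H19
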