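import Pool.Agent.T2H19.W6

/-! The inequality for a pair of sites. -/

set_option autoImplicit false

namespace Pool.Agent.T2H19

open MeasureTheory ProbabilityTheory Filter Topology
open scoped BigOperators ComplexConjugate ENNReal BoundedContinuousFunction

noncomputable section

variable {d : ℕ} {μ : Sym2 (Zd d) → Measure ℝ} {t a : Zd d → ℝ}
  [∀ e, IsProbabilityMeasure (μ e)]

/-- Normalized Green functions. -/
def qn (t a : Zd d → ℝ) (E η : ℝ) (u : Zd d) (q : Rs d × Om2 d) : ℂ :=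
  Gi (HS (tt t a q.1) q.2) ⟨E, η⟩ u 0 / Gi (HS (tt t a q.1) q.2) ⟨E, η⟩ 0 0

theorem cs_sum (Λ : Finset (Zd d)) (f g : Zd d → ℂ) {K : ℝ} (hf : ∑ u ∈ Λ, ‖f u‖ ^ 2 ≤ K)
    (hg : ∑ u ∈ Λ, ‖g u‖ ^ 2 ≤ K) : ‖∑ u ∈ Λ, conj (f u) * g u‖ ≤ K := by
  refine (norm_sum_le _ _).trans ?_
  have h1 : ∑ u ∈ Λ, ‖conj (f u) * g u‖ ≤ ∑ u ∈ Λ, (‖f u‖ ^ 2 / 2 + ‖g u‖ ^ 2 / 2) := by
    refine Finset.sum_le_sum fun u _ => ?_
    rw [norm_mul, RCLike.norm_conj]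
    nlinarith [sq_nonneg (‖f u‖ - ‖g u‖)]
  rw [Finset.sum_add_distrib, ← Finset.sum_div, ← Finset.sum_div] at h1
  linarith

/-- The exceptional event. -/
def Ux (t a : Zd d → ℝ) (E K α δ ε L' : ℝ) (j0 j : ℕ) (y : Zd d) : Set (Rs d × Om2 d) :=
  {q | (fl y q.1, q.2) ∈ Aj t a E K α δ j0 ∧ q ∉ Aj t a E K α δ j0}
  ∪ (fun q : Rs d × Om2 d => (q.1, sS y q.2)) ⁻¹'
      {q | q ∈ Aj t a E K α δ j0 ∧ (fl y q.1, q.2) ∉ Aj t a E K α δ j0}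
  ∪ (Aj t a E K α δ j0 ∩ Rj t a ⟨E, et j⟩ ε y)
  ∪ (fun q : Rs d × Om2 d => (q.1, sS y q.2)) ⁻¹' (Aj t a E K α δ j0 ∩ Rj t a ⟨E, et j⟩ ε (-y))
  ∪ (fun q : Rs d × Om2 d => (fl y q.1, q.2)) ⁻¹' (Aj t a E K α δ j0 ∩ Rj t a ⟨E, et j⟩ ε y)
  ∪ (fun q : Rs d × Om2 d => (fl y q.1, q.2)) ⁻¹' ((fun q : Rs d × Om2 d => (q.1, sS y q.2)) ⁻¹'
      (Aj t a E K α δ j0 ∩ Rj t a ⟨E, et j⟩ ε (-y)))
  ∪ {q | L' < |q.2 s(0, 0)|} ∪ {q | L' < |q.2 s(y, y)|} ∪ {q | δ / 4 < |q.2 s(0, y)|}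

theorem Vf_ge {E η K α δ : ℝ} {y : Zd d} {q : Rs d × Om2 d}
    (h : q.2 ∈ GE (tt t a q.1) E η K α δ 0 y)
    (hd : ‖Mk (HS (tt t a q.1) q.2) ⟨E, η⟩ 0 y 0 1‖ ≤ δ) :
    ENNReal.ofReal ‖Mk (HS (tt t a q.1) q.2) ⟨E, η⟩ 0 y 0 1‖
      ≤ Vf t a E η K α δ y q + ENNReal.ofReal (4 * K * η) := by
  by_cases h1 : 4 * K * η ≤ ‖Mk (HS (tt t a q.1) q.2) ⟨E, η⟩ 0 y 0 1‖
  · unfold Vf
    rw [Set.indicator_of_mem (show q ∈ Vs t a E η K α δ y from ⟨h, h1, hd⟩)]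
    exact le_self_add
  · exact (ENNReal.ofReal_le_ofReal (not_le.1 h1).le).trans le_add_self

/-- The inequality on the good event. -/
theorem good_pair (m : Mr μ t a) {E K α δ : ℝ} {j0 i j : ℕ} (hi : j0 ≤ i) (hij : i ≤ j)
    {ε L L' : ℝ} (hδ : 0 < δ) (hε0 : 0 < ε) (hε : ε ≤ 1 / 4) (hL : |α| + δ + K + L' ≤ L)
    (hεL : 2 * ε * L ≤ δ / 4) {y : Zd d} (hy : y ≠ 0) (Λ : Finset (Zd d))
    (hΛ : ∀ u ∈ Λ, ∀ v ∈ Λ, u ≠ v + (y + y)) (r : Rs d) :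
    ∀ᵐ ω ∂(Measure.infinitePi μ), (fl y r, ω) ∈ Aj t a E K α δ j0 →
      (r, sS y ω) ∈ Aj t a E K α δ j0 → (r, ω) ∉ Ux t a E K α δ ε L' j0 j y →
      ENNReal.ofReal (2 * |a y| * ‖∑ u ∈ Λ, conj (qn t a E (et i) u (fl y r, ω))
        * qn t a E (et i) u (r, sS y ω)‖)
      ≤ Vf t a E (et j) (4 * (K + 1)) α δ y (r, ω) + Vf t a E (et j) (4 * (K + 1)) α δ y (fl y r, ω)
        + ENNReal.ofReal ((10 * (4 * (K + 1)) + 8 * K) * et j)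
        + ENNReal.ofReal (4 * √K * |a y|)
          * (ENNReal.ofReal (er (HS (tt t a r) (sS y ω)) E (et j) (et i) Λ)
            + ENNReal.ofReal (er (HS (tt t a (fl y r)) ω) E (et j) (et i) Λ))
        + ENNReal.ofReal (24 * ε * K * |a y|) := by
  have hη := et_pos j
  have hj : j0 ≤ j := hi.trans hij
  filter_upwards [good_ae (m.mo r), good_ae (m.mo (fl y r)),
    (sS_mp (m.mo r) y).quasiMeasurePreserving.ae (good_ae (m.mo r)),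
    (sS_mp (m.mo r) y).quasiMeasurePreserving.ae (good_ae (m.mo (fl y r))),
    incl (m.mo r) (E := E) (K := K) (α := α) (j0 := j0) hj hδ hε0 (by linarith) hL hεL hy,
    incl (m.mo (fl y r)) (E := E) (K := K) (α := α) (j0 := j0) hj hδ hε0 (by linarith) hL hεL hy]
    with ω g g' gs gs' i1 i2 hA' hAs hU
  simp only [Ux, Set.mem_union, Set.mem_preimage, Set.mem_ofPred_eq, Set.mem_inter_iff, not_or,
    not_and, not_not] at hU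
  obtain ⟨⟨⟨⟨⟨⟨⟨⟨u1, u2⟩, u3⟩, u4⟩, u5⟩, u6⟩, u7⟩, u8⟩, u9⟩ := hU
  have hA := u1 hA'
  have hAs' := u2 hAs
  have r1 := u3 hA
  have r2 := u4 hAs
  have r1' := u5 hA'
  have r2' := u6 hAs'
  have hz : (⟨E, et j⟩ : ℂ).im ≠ 0 := hη.ne'
  simp only [Rj, Set.mem_ofPred_eq, not_lt] at r1 r2 r1' r2'
  rw [Gi_sS g gs hz, Gi_sS g gs hz, neg_add_cancel, zero_add] at r2
  rw [Gi_sS g' gs' hz, Gi_sS g' gs' hz, neg_add_cancel, zero_add] at r2'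
  have j1 := i1 ⟨hA, hAs⟩
  have j2 := i2 ⟨hA', hAs'⟩
  simp only [Set.mem_union, Set.mem_inter_iff, Set.mem_preimage] at j1 j2
  have n3 : ¬ (ω ∈ Ae (tt t a r) E K α δ j0 ∧ ω ∈ Re1 (tt t a r) ⟨E, et j⟩ ε y) :=
    fun h => u3 h.1 h.2
  have n4 : ¬ (sS y ω ∈ Ae (tt t a r) E K α δ j0 ∧ sS y ω ∈ Re1 (tt t a r) ⟨E, et j⟩ ε (-y)) :=
    fun h => u4 h.1 h.2
  have n5 : ¬ (ω ∈ Ae (tt t a (fl y r)) E K α δ j0 ∧ ω ∈ Re1 (tt t a (fl y r)) ⟨E, et j⟩ ε y) :=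
    fun h => u5 h.1 h.2
  have n6 : ¬ (sS y ω ∈ Ae (tt t a (fl y r)) E K α δ j0
      ∧ sS y ω ∈ Re1 (tt t a (fl y r)) ⟨E, et j⟩ ε (-y)) :=
    fun h => u6 h.1 h.2
  have G1 : ω ∈ GP (tt t a r) E (et j) (4 * (K + 1)) α δ y := by
    rcases j1 with ((((h | h) | h) | h) | h) | h
    · exact h
    · exact absurd h n3
    · exact absurd h n4
    · exact absurd h u7
    · exact absurd h u8
    · exact absurd h u9
  have G2 : ω ∈ GP (tt t a (fl y r)) E (et j) (4 * (K + 1)) α δ y := by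
    rcases j2 with ((((h | h) | h) | h) | h) | h
    · exact h
    · exact absurd h n5
    · exact absurd h n6
    · exact absurd h u7
    · exact absurd h u8
    · exact absurd h u9
  rw [not_lt] at u9
  have sz : ∀ r', ω ∈ GP (tt t a r') E (et j) (4 * (K + 1)) α δ y →
      ‖Mk (HS (tt t a r') ω) ⟨E, et j⟩ 0 y 0 1‖ ≤ δ := by
    intro r' hG
    have h1 : ‖Mk (HS (tt t a r') ω) ⟨E, et j⟩ 0 y 0 1 - (ω s(0, y) : ℂ)‖ ≤ δ / 2 := hG.2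
    have h2 := norm_sub_norm_le (Mk (HS (tt t a r') ω) ⟨E, et j⟩ 0 y 0 1) (ω s(0, y) : ℂ)
    rw [Complex.norm_real, Real.norm_eq_abs] at h2
    linarith
  have v1 := Vf_ge (t := t) (a := a) (q := (r, ω)) G1.1 (sz r G1)
  have v2 := Vf_ge (t := t) (a := a) (q := (fl y r, ω)) G2.1 (sz (fl y r) G2)
  -- the columns
  have hk1 : kap (HS (tt t a r) ω) ⟨E, et j⟩ 0 ≤ K := (hA j hj).1
  have hk1' : kap (HS (tt t a (fl y r)) ω) ⟨E, et j⟩ 0 ≤ K := (hA' j hj).1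
  have hk2 : kap (HS (tt t a r) ω) ⟨E, et j⟩ y ≤ K := by
    have h1 : kap (HS (tt t a r) (sS y ω)) ⟨E, et j⟩ 0 ≤ K := (hAs j hj).1
    have h2 : kap (HS (tt t a r) (sS y ω)) ⟨E, et j⟩ 0 = kap (HS (tt t a r) ω) ⟨E, et j⟩ y := by
      unfold kap
      rw [Gi_sS g gs hz, zero_add]
    rwa [h2] at h1
  have hk2' : kap (HS (tt t a (fl y r)) ω) ⟨E, et j⟩ y ≤ K := by
    have h1 : kap (HS (tt t a (fl y r)) (sS y ω)) ⟨E, et j⟩ 0 ≤ K := (hAs' j hj).1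
    have h2 : kap (HS (tt t a (fl y r)) (sS y ω)) ⟨E, et j⟩ 0
        = kap (HS (tt t a (fl y r)) ω) ⟨E, et j⟩ y := by
      unfold kap
      rw [Gi_sS g' gs' hz, zero_add]
    rwa [h2] at h1
  have hT := two_signs g gs g' (E := E) (η := et j) (η' := et i) (K := K) (ε := ε) hη (et_anti hij)
    hy (HS_s (tt t a r) y ω) (-2 * sg r y * a y) (HS_fl m.as hy r ω) hε hk1 hk2 hk1' hk2' r1 r2
    r1' r2' Λ hΛ
  have habs : |-2 * sg r y * a y| = 2 * |a y| := by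
    have h1 : |sg r y| = 1 := by
      have := sg_sq r y
      rw [← sq_abs] at this
      nlinarith [abs_nonneg (sg r y)]
    rw [abs_mul, abs_mul, h1, abs_neg, abs_two, mul_one]
  rw [habs] at hT
  have hM : ‖Mk (HS (tt t a (fl y r)) ω) ⟨E, et j⟩ 0 y 1 0‖
      ≤ ‖Mk (HS (tt t a (fl y r)) ω) ⟨E, et j⟩ 0 y 0 1‖ + 2 * (4 * (K + 1)) * et j := by
    have h1 := G2.1.2.2.1
    have h2 := norm_sub_norm_le (Mk (HS (tt t a (fl y r)) ω) ⟨E, et j⟩ 0 y 1 0)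
      (conj (Mk (HS (tt t a (fl y r)) ω) ⟨E, et j⟩ 0 y 0 1))
    rw [RCLike.norm_conj] at h2
    linarith
  have hK0 : 0 ≤ K := by
    have := kap_one g (z := ⟨E, et j⟩) hη 0
    linarith
  obtain ⟨S, hS⟩ : ∃ S, S = ‖∑ u ∈ Λ, conj (qn t a E (et i) u (fl y r, ω))
        * qn t a E (et i) u (r, sS y ω)‖ := ⟨_, rfl⟩
  have hS' : ‖∑ u ∈ Λ, conj (Gi (HS (tt t a (fl y r)) ω) ⟨E, et i⟩ u 0
      / Gi (HS (tt t a (fl y r)) ω) ⟨E, et i⟩ 0 0) * (Gi (HS (tt t a r) (sS y ω)) ⟨E, et i⟩ u 0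
      / Gi (HS (tt t a r) (sS y ω)) ⟨E, et i⟩ 0 0)‖ = S := hS.symm
  rw [hS'] at hT
  rw [← hS]
  obtain ⟨e1, he1⟩ : ∃ e1, e1 = er (HS (tt t a r) (sS y ω)) E (et j) (et i) Λ := ⟨_, rfl⟩
  obtain ⟨e2, he2⟩ : ∃ e2, e2 = er (HS (tt t a (fl y r)) ω) E (et j) (et i) Λ := ⟨_, rfl⟩
  have e10 : 0 ≤ e1 := by rw [he1]; exact add_nonneg (Real.sqrt_nonneg _) (Real.sqrt_nonneg _)
  have e20 : 0 ≤ e2 := by rw [he2]; exact add_nonneg (Real.sqrt_nonneg _) (Real.sqrt_nonneg _)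
  rw [← he1, ← he2] at hT ⊢
  obtain ⟨x1, hx1⟩ : ∃ x1, x1 = ‖Mk (HS (tt t a r) ω) ⟨E, et j⟩ 0 y 0 1‖ := ⟨_, rfl⟩
  obtain ⟨x2, hx2⟩ : ∃ x2, x2 = ‖Mk (HS (tt t a (fl y r)) ω) ⟨E, et j⟩ 0 y 0 1‖ := ⟨_, rfl⟩
  have x10 : 0 ≤ x1 := by rw [hx1]; exact norm_nonneg _
  have x20 : 0 ≤ x2 := by rw [hx2]; exact norm_nonneg _
  simp only at v1 v2
  rw [← hx1] at hT v1
  rw [← hx2] at hM v2
  have ha0 := abs_nonneg (a y)
  have hs0 := Real.sqrt_nonneg K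
  have hfin : 2 * |a y| * S ≤ x1 + x2 + (2 * (4 * (K + 1)) + 8 * K) * et j
      + 4 * √K * |a y| * (e1 + e2) + 24 * ε * K * |a y| := by
    linarith
  refine (ENNReal.ofReal_le_ofReal hfin).trans ?_
  refine ENNReal.ofReal_add_le.trans (add_le_add ?_ le_rfl)
  refine ENNReal.ofReal_add_le.trans (add_le_add ?_ ?_)
  · refine ENNReal.ofReal_add_le.trans ((add_le_add (ENNReal.ofReal_add_le.trans
      (add_le_add v1 v2)) le_rfl).trans (le_of_eq ?_))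
    have h5 : (10 * (4 * (K + 1)) + 8 * K) * et j = 4 * (4 * (K + 1)) * et j
        + 4 * (4 * (K + 1)) * et j + (2 * (4 * (K + 1)) + 8 * K) * et j := by ring
    rw [h5, ENNReal.ofReal_add (by positivity) (by positivity),
      ENNReal.ofReal_add (by positivity) (by positivity)]
    ring
  · rw [ENNReal.ofReal_mul (by positivity)]
    exact mul_le_mul_right ENNReal.ofReal_add_le _

end

end Pool.Agent.T2H19
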