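import Pool.Agent.T2H19.W7

/-! The integrated inequality for a pair of sites. -/

set_option autoImplicit false

namespace Pool.Agent.T2H19

open MeasureTheory ProbabilityTheory Filter Topology
open scoped BigOperators ComplexConjugate ENNReal BoundedContinuousFunction

noncomputable section

variable {d : ℕ} {μ : Sym2 (Zd d) → Measure ℝ} {t a : Zd d → ℝ}
  [∀ e, IsProbabilityMeasure (μ e)]

theorem qn_meas (m : Mr μ t a) (E : ℝ) {η : ℝ} (hη : 0 < η) (u : Zd d) :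
    Measurable (qn t a E η u) :=
  (Gr_meas m (z := ⟨E, η⟩) hη.ne' u 0).div (Gr_meas m (z := ⟨E, η⟩) hη.ne' 0 0)

/-- The event with bounded columns. -/
def Ax (t a : Zd d → ℝ) (E K α δ : ℝ) (j0 i : ℕ) : Set (Rs d × Om2 d) :=
  (Aj t a E K α δ j0 ∩ {q | Gi (HS (tt t a q.1) q.2) ⟨E, et i⟩ 0 0 ≠ 0})
    ∩ ⋂ u : Zd d, {q | ‖qn t a E (et i) u q‖ ≤ √K}

theorem Ax_meas (m : Mr μ t a) (E K α δ : ℝ) (j0 i : ℕ) :
    MeasurableSet (Ax t a E K α δ j0 i) := by
  unfold Ax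
  refine ((Aj_meas m E K α δ j0).inter ?_).inter (MeasurableSet.iInter fun u =>
    measurableSet_le (qn_meas m E (et_pos i) u).norm measurable_const)
  exact (Gr_meas m (z := ⟨E, et i⟩) (et_pos i).ne' 0 0) (measurableSet_singleton (0 : ℂ)).compl

theorem Ax_ae (m : Mr μ t a) (E K α δ : ℝ) {j0 i : ℕ} (hi : j0 ≤ i) (r : Rs d) :
    ∀ᵐ ω ∂(Measure.infinitePi μ), (r, ω) ∈ Aj t a E K α δ j0 → (r, ω) ∈ Ax t a E K α δ j0 i := by
  filter_upwards [good_ae (m.mo r)] with ω g hω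
  refine ⟨⟨hω, Gi_ne g (z := ⟨E, et i⟩) (et_pos i) 0⟩, Set.mem_iInter.2 fun u => ?_⟩
  have h1 := kap_row g (z := ⟨E, et i⟩) (et_pos i) 0 {u}
  rw [Finset.sum_singleton] at h1
  exact Real.le_sqrt_of_sq_le (h1.trans (hω i hi).1)

/-- Truncated normalized Green functions. -/
def fu (t a : Zd d → ℝ) (E K α δ : ℝ) (j0 i : ℕ) (u : Zd d) : Rs d × Om2 d → ℂ :=
  (Ax t a E K α δ j0 i).indicator (qn t a E (et i) u)

theorem fu_meas (m : Mr μ t a) (E K α δ : ℝ) (j0 i : ℕ) (u : Zd d) :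
    Measurable (fu t a E K α δ j0 i u) :=
  (qn_meas m E (et_pos i) u).indicator (Ax_meas m E K α δ j0 i)

theorem fu_bd (t a : Zd d → ℝ) (E K α δ : ℝ) (j0 i : ℕ) (u : Zd d) (q : Rs d × Om2 d) :
    ‖fu t a E K α δ j0 i u q‖ ≤ √K := by
  unfold fu
  by_cases h : q ∈ Ax t a E K α δ j0 i
  · rw [Set.indicator_of_mem h]
    exact Set.mem_iInter.1 h.2 u
  · rw [Set.indicator_of_notMem h, norm_zero]
    exact Real.sqrt_nonneg K

theorem fu_zero (t a : Zd d → ℝ) (E K α δ : ℝ) (j0 i : ℕ) :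
    fu t a E K α δ j0 i 0 = (Ax t a E K α δ j0 i).indicator 1 := by
  funext q
  unfold fu
  by_cases h : q ∈ Ax t a E K α δ j0 i
  · rw [Set.indicator_of_mem h, Set.indicator_of_mem h]
    exact div_self h.1.2
  · rw [Set.indicator_of_notMem h, Set.indicator_of_notMem h]

/-- The product of the truncated functions. -/
def Wf (t a : Zd d → ℝ) (E K α δ : ℝ) (j0 i : ℕ) (Λ : Finset (Zd d)) (y : Zd d)
    (q : Rs d × Om2 d) : ℝ :=
  ‖∑ u ∈ Λ, conj (fu t a E K α δ j0 i u (fl y q.1, q.2)) * fu t a E K α δ j0 i u (q.1, sS y q.2)‖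

theorem Wf_sum_meas (m : Mr μ t a) (E K α δ : ℝ) (j0 i : ℕ) (u y : Zd d) :
    Measurable fun q : Rs d × Om2 d => conj (fu t a E K α δ j0 i u (fl y q.1, q.2))
      * fu t a E K α δ j0 i u (q.1, sS y q.2) :=
  (Complex.continuous_conj.measurable.comp ((fu_meas m E K α δ j0 i u).comp
    (flQ_mp (μ := μ) y).measurable)).mul ((fu_meas m E K α δ j0 i u).comp (sQ_mp m y).measurable)

theorem Wf_meas (m : Mr μ t a) (E K α δ : ℝ) (j0 i : ℕ) (Λ : Finset (Zd d)) (y : Zd d) :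
    Measurable (Wf t a E K α δ j0 i Λ y) :=
  (Finset.measurable_sum _ fun u _ => Wf_sum_meas m E K α δ j0 i u y).norm

/-- Lower bound for the product. -/
theorem Wf_low (m : Mr μ t a) (E K α δ : ℝ) (j0 i : ℕ) (Λ : Finset (Zd d)) {ε : ℝ} (hε : 0 < ε) :
    ∃ S : Set (Zd d), S.Finite ∧ ∀ y, y ∉ S →
      ∑ u ∈ Λ, ‖∫ q, fu t a E K α δ j0 i u q ∂(QQ μ)‖ ^ 2 - Λ.card * ε
        ≤ ∫ q, Wf t a E K α δ j0 i Λ y q ∂(QQ μ) := by
  choose S hS h using fun u => mixF m (fu_meas m E K α δ j0 i u) (fu_bd t a E K α δ j0 i u) hε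
  refine ⟨⋃ u ∈ Λ, S u, Λ.finite_toSet.biUnion fun u _ => hS u, fun y hy => ?_⟩
  simp only [Set.mem_iUnion, not_exists] at hy
  have h1 : ∑ u ∈ Λ, (‖∫ q, fu t a E K α δ j0 i u q ∂(QQ μ)‖ ^ 2 - ε)
      ≤ ∑ u ∈ Λ, (∫ q, conj (fu t a E K α δ j0 i u (fl y q.1, q.2))
        * fu t a E K α δ j0 i u (q.1, sS y q.2) ∂(QQ μ)).re :=
    Finset.sum_le_sum fun u hu => h u y (hy u hu)
  rw [Finset.sum_sub_distrib, Finset.sum_const, nsmul_eq_mul] at h1
  refine h1.trans ?_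
  have hi : ∀ u ∈ Λ, Integrable (fun q : Rs d × Om2 d =>
      conj (fu t a E K α δ j0 i u (fl y q.1, q.2)) * fu t a E K α δ j0 i u (q.1, sS y q.2))
      (QQ μ) := fun u _ => by
    refine bint (B := √K * √K) (Wf_sum_meas m E K α δ j0 i u y) fun q => ?_
    rw [norm_mul, RCLike.norm_conj]
    exact mul_le_mul (fu_bd _ _ _ _ _ _ _ _ _ _) (fu_bd _ _ _ _ _ _ _ _ _ _) (norm_nonneg _)
      (Real.sqrt_nonneg _)
  rw [← Complex.re_sum, ← integral_finsetSum Λ hi]
  exact (Complex.re_le_norm _).trans (norm_integral_le_integral_norm _)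

theorem Ux_meas (m : Mr μ t a) (E K α δ ε L' : ℝ) (j0 j : ℕ) (y : Zd d) :
    MeasurableSet (Ux t a E K α δ ε L' j0 j y) := by
  have hA := Aj_meas m E K α δ j0
  have hf := (flQ_mp (μ := μ) y).measurable
  have hs := (sQ_mp m y).measurable
  have hR := fun x => Rj_meas m (z := ⟨E, et j⟩) (et_pos j).ne' ε x
  have e : ∀ b : Sym2 (Zd d), Measurable fun q : Rs d × Om2 d => |q.2 b| := fun b =>
    continuous_abs.measurable.comp ((measurable_pi_apply b).comp measurable_snd)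
  unfold Ux
  refine MeasurableSet.union (MeasurableSet.union (MeasurableSet.union (MeasurableSet.union
    (MeasurableSet.union (MeasurableSet.union (MeasurableSet.union (MeasurableSet.union ?_ ?_) ?_)
      ?_) ?_) ?_) ?_) ?_) ?_
  · exact (hf hA).inter hA.compl
  · exact hs (hA.inter (hf hA).compl)
  · exact hA.inter (hR y)
  · exact hs (hA.inter (hR (-y)))
  · exact hf (hA.inter (hR y))
  · exact hf (hs (hA.inter (hR (-y))))
  · exact measurableSet_lt measurable_const (e _)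
  · exact measurableSet_lt measurable_const (e _)
  · exact measurableSet_lt measurable_const (e _)

/-- The integrated inequality. -/
theorem pair_int (m : Mr μ t a) {E K α δ : ℝ} {j0 i j : ℕ} (hi : j0 ≤ i) (hij : i ≤ j)
    {ε L L' : ℝ} (hδ : 0 < δ) (hε0 : 0 < ε) (hε : ε ≤ 1 / 4) (hL : |α| + δ + K + L' ≤ L)
    (hεL : 2 * ε * L ≤ δ / 4) {y : Zd d} (hy : y ≠ 0) (Λ : Finset (Zd d))
    (hΛ : ∀ u ∈ Λ, ∀ v ∈ Λ, u ≠ v + (y + y)) {τ : ℝ}
    (hτ : ∫⁻ q in Aj t a E K α δ j0, ENNReal.ofReal (er (HS (tt t a q.1) q.2) E (et j) (et i) Λ)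
      ∂(QQ μ) ≤ ENNReal.ofReal τ) :
    ∫⁻ q, ENNReal.ofReal (2 * |a y| * Wf t a E K α δ j0 i Λ y q) ∂(QQ μ)
      ≤ ∫⁻ q, Vf t a E (et j) (4 * (K + 1)) α δ y q ∂(QQ μ)
        + ∫⁻ q, Vf t a E (et j) (4 * (K + 1)) α δ y q ∂(QQ μ)
        + ENNReal.ofReal ((10 * (4 * (K + 1)) + 8 * K) * et j)
        + ENNReal.ofReal (4 * √K * |a y|) * (ENNReal.ofReal τ + ENNReal.ofReal τ)
        + ENNReal.ofReal (24 * ε * K * |a y|)
        + ENNReal.ofReal (2 * K * |a y|) * (QQ μ) (Ux t a E K α δ ε L' j0 j y) := by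
  obtain ⟨V, hV⟩ : ∃ V, V = Vf t a E (et j) (4 * (K + 1)) α δ y := ⟨_, rfl⟩
  have hVm : Measurable V := by rw [hV]; exact Vf_meas m (et_pos j) _ _ _ _
  obtain ⟨e, he⟩ : ∃ e : Rs d × Om2 d → ℝ≥0∞, e = (Aj t a E K α δ j0).indicator fun q =>
    ENNReal.ofReal (er (HS (tt t a q.1) q.2) E (et j) (et i) Λ) := ⟨_, rfl⟩
  have hem : Measurable e := by
    rw [he]
    exact (erj_meas m E (et_pos j) (et_pos i) Λ).ennreal_ofReal.indicator (Aj_meas m E K α δ j0)
  have heτ : ∫⁻ q, e q ∂(QQ μ) ≤ ENNReal.ofReal τ := by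
    rw [he, lintegral_indicator (Aj_meas m E K α δ j0)]
    exact hτ
  have hf := flQ_mp (μ := μ) y
  have hs := sQ_mp m y
  have hUm := Ux_meas m E K α δ ε L' j0 j y
  rw [← hV]
  obtain ⟨U, hU⟩ : ∃ U, U = Ux t a E K α δ ε L' j0 j y := ⟨_, rfl⟩
  rw [← hU] at hUm ⊢
  have hVf : Measurable fun q : Rs d × Om2 d => V (fl y q.1, q.2) := hVm.comp hf.measurable
  have hef : Measurable fun q : Rs d × Om2 d => e (fl y q.1, q.2) := hem.comp hf.measurable
  have hes : Measurable fun q : Rs d × Om2 d => e (q.1, sS y q.2) := hem.comp hs.measurable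
  have hUi : Measurable (U.indicator (1 : Rs d × Om2 d → ℝ≥0∞)) := measurable_one.indicator hUm
  have hea : Measurable fun q : Rs d × Om2 d => e (q.1, sS y q.2) + e (fl y q.1, q.2) :=
    hes.add hef
  have key : ∫⁻ q, ENNReal.ofReal (2 * |a y| * Wf t a E K α δ j0 i Λ y q) ∂(QQ μ)
      ≤ ∫⁻ q, (V q + V (fl y q.1, q.2) + ENNReal.ofReal ((10 * (4 * (K + 1)) + 8 * K) * et j)
        + ENNReal.ofReal (4 * √K * |a y|) * (e (q.1, sS y q.2) + e (fl y q.1, q.2))
        + ENNReal.ofReal (24 * ε * K * |a y|)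
        + ENNReal.ofReal (2 * K * |a y|) * U.indicator (1 : Rs d × Om2 d → ℝ≥0∞) q) ∂(QQ μ) := by
    refine lint_mono_QQ ((Wf_meas m E K α δ j0 i Λ y).const_mul _).ennreal_ofReal
      (((((hVm.add hVf).add_const _).add (hea.const_mul _)).add_const _).add
        (hUi.const_mul _)) fun r => ?_
    filter_upwards [good_pair m (E := E) (α := α) hi hij hδ hε0 hε hL hεL hy Λ hΛ r,
      good_ae (m.mo (fl y r)), (sS_mp (m.mo r) y).quasiMeasurePreserving.ae (good_ae (m.mo r))]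
      with ω h1 g' gs
    by_cases hq : (fl y r, ω) ∈ Ax t a E K α δ j0 i ∧ (r, sS y ω) ∈ Ax t a E K α δ j0 i
    · obtain ⟨hq1, hq2⟩ := hq
      have hW : Wf t a E K α δ j0 i Λ y (r, ω) = ‖∑ u ∈ Λ, conj (qn t a E (et i) u (fl y r, ω))
          * qn t a E (et i) u (r, sS y ω)‖ := by
        unfold Wf fu
        congr 1
        refine Finset.sum_congr rfl fun u _ => ?_
        rw [Set.indicator_of_mem hq1, Set.indicator_of_mem hq2]
      have hA1 := hq1.1.1
      have hA2 := hq2.1.1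
      rw [hW]
      by_cases hqU : (r, ω) ∈ U
      · rw [Set.indicator_of_mem hqU, Pi.one_apply, mul_one]
        refine le_trans (ENNReal.ofReal_le_ofReal ?_) le_add_self
        have h2 := cs_sum Λ (fun u => qn t a E (et i) u (fl y r, ω))
          (fun u => qn t a E (et i) u (r, sS y ω))
          ((kap_row g' (z := ⟨E, et i⟩) (et_pos i) 0 Λ).trans (hA1 i hi).1)
          ((kap_row gs (z := ⟨E, et i⟩) (et_pos i) 0 Λ).trans (hA2 i hi).1)
        have := mul_le_mul_of_nonneg_left h2 (by positivity : 0 ≤ 2 * |a y|)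
        linarith
      · refine le_trans (h1 hA1 hA2 (by rw [← hU]; exact hqU)) ?_
        refine le_trans (le_of_eq ?_) le_self_add
        rw [hV, he, Set.indicator_of_mem hA1, Set.indicator_of_mem hA2]
    · have hW : Wf t a E K α δ j0 i Λ y (r, ω) = 0 := by
        unfold Wf fu
        rw [Finset.sum_eq_zero, norm_zero]
        intro u _
        rcases not_and_or.1 hq with h | h
        · rw [Set.indicator_of_notMem h, map_zero, zero_mul]
        · rw [Set.indicator_of_notMem h, mul_zero]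
      rw [hW, mul_zero, ENNReal.ofReal_zero]
      exact bot_le
  refine key.trans ?_
  have c1 : ∀ c : ℝ≥0∞, ∫⁻ _q : Rs d × Om2 d, c ∂(QQ μ) = c := fun c => by
    rw [lintegral_const, measure_univ, mul_one]
  rw [lintegral_add_right _ (hUi.const_mul _), lintegral_add_right _ measurable_const,
    lintegral_add_right _ (hea.const_mul _), lintegral_add_right _ measurable_const,
    lintegral_add_right _ hVf, lintegral_const_mul _ hUi, lintegral_const_mul _ hea,
    lintegral_add_right _ hef, c1, c1, hf.lintegral_comp hVm, hf.lintegral_comp hem,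
    hs.lintegral_comp hem, lintegral_indicator_one hUm]
  gcongr

end

end Pool.Agent.T2H19
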