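import Pool.Agent.T2H19.W8

/-! No localized states for random signs of the hopping. -/

set_option autoImplicit false

namespace Pool.Agent.T2H19

open MeasureTheory ProbabilityTheory Filter Topology
open scoped BigOperators ComplexConjugate ENNReal BoundedContinuousFunction

noncomputable section

variable {d : ℕ} {μ : Sym2 (Zd d) → Measure ℝ} {t a : Zd d → ℝ}
  [∀ e, IsProbabilityMeasure (μ e)]

/-- Finite sets with a large sum. -/
theorem big_F (hdiv : ¬ Summable fun h : Zd d => |a h|) {B : Set (Zd d)} (hB : B.Finite) (M : ℝ) :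
    ∃ F : Finset (Zd d), (∀ y ∈ F, y ∉ B ∧ y ≠ 0) ∧ M < ∑ y ∈ F, |a y| := by
  classical
  by_contra hcon
  push Not at hcon
  apply hdiv
  obtain ⟨B', hB'⟩ : ∃ B' : Finset (Zd d), B' = insert 0 hB.toFinset := ⟨_, rfl⟩
  refine summable_of_sum_le (c := ∑ y ∈ B', |a y| + M) (fun h => abs_nonneg _) fun F => ?_
  have h1 := hcon (F.filter fun y => y ∉ B') (fun y hy => by
    rw [Finset.mem_filter, hB', Finset.mem_insert, not_or, Set.Finite.mem_toFinset] at hy
    exact ⟨hy.2.2, hy.2.1⟩)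
  have h2 : ∑ y ∈ F.filter (fun y => y ∈ B'), |a y| ≤ ∑ y ∈ B', |a y| := by
    refine Finset.sum_le_sum_of_subset_of_nonneg (fun y hy => (Finset.mem_filter.1 hy).2)
      fun _ _ _ => abs_nonneg _
  rw [← Finset.sum_filter_add_sum_filter_not F (fun y => y ∈ B')]
  linarith

theorem fin_double (Λ : Finset (Zd d)) :
    {y : Zd d | ∃ u ∈ Λ, ∃ v ∈ Λ, u = v + (y + y)}.Finite := by
  classical
  have h1 : Set.InjOn (fun y : Zd d => y + y)
      ((fun y : Zd d => y + y) ⁻¹' (((Λ ×ˢ Λ).image fun p => p.1 - p.2 : Finset (Zd d)) :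
        Set (Zd d))) := by
    intro y _ y' _ h
    funext i
    have := congrFun h i
    simp only [Pi.add_apply] at this
    omega
  refine (((Λ ×ˢ Λ).image fun p => p.1 - p.2).finite_toSet.preimage h1).subset ?_
  rintro y ⟨u, hu, v, hv, h⟩
  simp only [Set.mem_preimage, Finset.coe_image, Set.mem_image, Finset.mem_coe, Finset.mem_product]
  refine ⟨(u, v), ⟨hu, hv⟩, ?_⟩
  show u - v = y + y
  rw [h]
  exact add_sub_cancel_left v (y + y)

theorem Vf_fin (E η K α δ : ℝ) (y : Zd d) :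
    ∫⁻ q, Vf t a E η K α δ y q ∂(QQ μ) ≠ ∞ := by
  refine ne_top_of_le_ne_top (b := ENNReal.ofReal δ) ENNReal.ofReal_ne_top ?_
  calc _ ≤ ∫⁻ _q : Rs d × Om2 d, ENNReal.ofReal δ ∂(QQ μ) := by
        refine lintegral_mono fun q => ?_
        unfold Vf
        by_cases h : q ∈ Vs t a E η K α δ y
        · rw [Set.indicator_of_mem h]
          exact ENNReal.ofReal_le_ofReal h.2.2
        · rw [Set.indicator_of_notMem h]
          exact bot_le
    _ = _ := by rw [lintegral_const, measure_univ, mul_one]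

/-- The inequality for one distance, in real numbers. -/
theorem pair_real (m : Mr μ t a) {E K α δ : ℝ} {j0 i j : ℕ} (hi : j0 ≤ i) (hij : i ≤ j)
    {ε L L' : ℝ} (hδ : 0 < δ) (hε0 : 0 < ε) (hε : ε ≤ 1 / 4) (hL : |α| + δ + K + L' ≤ L)
    (hεL : 2 * ε * L ≤ δ / 4) {y : Zd d} (hy : y ≠ 0) (Λ : Finset (Zd d))
    (hΛ : ∀ u ∈ Λ, ∀ v ∈ Λ, u ≠ v + (y + y)) {τ : ℝ} (hτ0 : 0 ≤ τ) (hK : 0 ≤ K)
    (hτ : ∫⁻ q in Aj t a E K α δ j0, ENNReal.ofReal (er (HS (tt t a q.1) q.2) E (et j) (et i) Λ)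
      ∂(QQ μ) ≤ ENNReal.ofReal τ) :
    2 * |a y| * ∫ q, Wf t a E K α δ j0 i Λ y q ∂(QQ μ)
      ≤ 2 * (∫⁻ q, Vf t a E (et j) (4 * (K + 1)) α δ y q ∂(QQ μ)).toReal
        + (10 * (4 * (K + 1)) + 8 * K) * et j + 8 * √K * |a y| * τ + 24 * ε * K * |a y|
        + 2 * K * |a y| * (QQ μ).real (Ux t a E K α δ ε L' j0 j y) := by
  have h := pair_int m (E := E) (α := α) hi hij hδ hε0 hε hL hεL hy Λ hΛ hτ
  have hη := et_pos j
  have hWb : ∀ q, ‖2 * |a y| * Wf t a E K α δ j0 i Λ y q‖ ≤ 2 * |a y| * (Λ.card * (√K * √K)) := by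
    intro q
    rw [norm_mul, Real.norm_of_nonneg (by positivity)]
    refine mul_le_mul_of_nonneg_left ?_ (by positivity)
    unfold Wf
    rw [norm_norm]
    refine (norm_sum_le _ _).trans ?_
    rw [← nsmul_eq_mul]
    refine Finset.sum_le_card_nsmul _ _ _ fun u _ => ?_
    rw [norm_mul, RCLike.norm_conj]
    exact mul_le_mul (fu_bd _ _ _ _ _ _ _ _ _ _) (fu_bd _ _ _ _ _ _ _ _ _ _) (norm_nonneg _)
      (Real.sqrt_nonneg _)
  have hint : Integrable (fun q => 2 * |a y| * Wf t a E K α δ j0 i Λ y q) (QQ μ) :=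
    bint ((Wf_meas m E K α δ j0 i Λ y).const_mul _) hWb
  rw [← ofReal_integral_eq_lintegral_ofReal hint (Eventually.of_forall fun q =>
    mul_nonneg (by positivity) (norm_nonneg _)), integral_const_mul] at h
  have hVf := Vf_fin (μ := μ) (t := t) (a := a) E (et j) (4 * (K + 1)) α δ y
  obtain ⟨v, hv⟩ : ∃ v, v = (∫⁻ q, Vf t a E (et j) (4 * (K + 1)) α δ y q ∂(QQ μ)).toReal :=
    ⟨_, rfl⟩
  have hv0 : 0 ≤ v := by rw [hv]; exact ENNReal.toReal_nonneg
  have hv1 : ∫⁻ q, Vf t a E (et j) (4 * (K + 1)) α δ y q ∂(QQ μ) = ENNReal.ofReal v := by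
    rw [hv, ENNReal.ofReal_toReal hVf]
  obtain ⟨w, hw⟩ : ∃ w, w = (QQ μ).real (Ux t a E K α δ ε L' j0 j y) := ⟨_, rfl⟩
  have hw0 : 0 ≤ w := by rw [hw]; exact measureReal_nonneg
  have hw1 : (QQ μ) (Ux t a E K α δ ε L' j0 j y) = ENNReal.ofReal w := by
    rw [hw, Measure.real, ENNReal.ofReal_toReal (measure_ne_top _ _)]
  rw [hv1, hw1, ← ENNReal.ofReal_add hτ0 hτ0, ← ENNReal.ofReal_mul (by positivity),
    ← ENNReal.ofReal_mul (by positivity), ← ENNReal.ofReal_add hv0 hv0,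
    ← ENNReal.ofReal_add (by positivity) (by positivity),
    ← ENNReal.ofReal_add (by positivity) (by positivity),
    ← ENNReal.ofReal_add (by positivity) (by positivity),
    ← ENNReal.ofReal_add (by positivity) (by positivity),
    ENNReal.ofReal_le_ofReal_iff (by positivity)] at h
  rw [← hv, ← hw]
  linarith

theorem snd_real (L : ℝ) (e : Sym2 (Zd d)) :
    (QQ μ).real {q | L < |q.2 e|} = (μ e).real {r | L < |r|} := by
  have h1 : MeasurePreserving (Prod.snd : Rs d × Om2 d → Om2 d) (QQ μ) (Measure.infinitePi μ) :=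
    measurePreserving_snd
  have h2 := h1.measure_preimage (s := {ω : Om2 d | L < |ω e|})
    (measurableSet_lt measurable_const (continuous_abs.measurable.comp
      (measurable_pi_apply e))).nullMeasurableSet
  rw [← prob_coord (μ := μ) e L]
  unfold Measure.real
  rw [← h2]
  rfl

/-- The event has probability zero. -/
theorem nullQ (m : Mr μ t a) {ρ : ℝ → ℝ} {C : ℝ} (hκ : Dens (μ s(0, 0)) ρ C)
    (hdiv : ¬ Summable fun h : Zd d => |a h|) (E : ℝ) {K : ℝ} (hK : 0 ≤ K) {α δ c : ℝ} (j0 : ℕ)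
    (hδ : 0 < δ) (hc : 0 < c) (hLB : LB (μ s(0, 0)) c (α - 4 * δ) (α + 4 * δ)) :
    (QQ μ) (Aj t a E K α δ j0) = 0 := by
  by_contra hne
  obtain ⟨A, hA⟩ : ∃ A : Set (Rs d × Om2 d), A = Aj t a E K α δ j0 := ⟨_, rfl⟩
  obtain ⟨p, hp⟩ : ∃ p : ℝ, p = (QQ μ).real A := ⟨_, rfl⟩
  have hp0 : 0 < p := by
    rw [hp, hA]
    exact ENNReal.toReal_pos hne (measure_ne_top _ _)
  have hAm : MeasurableSet A := by rw [hA]; exact Aj_meas m E K α δ j0
  have hs0 := Real.sqrt_nonneg K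
  -- constants
  obtain ⟨a0, ha0⟩ : ∃ a0 : ℝ, a0 = p ^ 2 / (20 * (K + 1)) := ⟨_, rfl⟩
  have ha00 : 0 < a0 := by rw [ha0]; positivity
  have ha01 : 2 * K * (5 * a0) ≤ p ^ 2 / 2 := by
    have h1 : 2 * (K + 1) * (5 * a0) = p ^ 2 / 2 := by
      rw [ha0]; field_simp; ring
    nlinarith
  obtain ⟨τ, hτ⟩ : ∃ τ : ℝ, τ = p ^ 2 / (64 * (√K + 1)) := ⟨_, rfl⟩
  have hτ0 : 0 < τ := by rw [hτ]; positivity
  have hτ1 : 8 * √K * τ ≤ p ^ 2 / 8 := by
    have h1 : 8 * (√K + 1) * τ = p ^ 2 / 8 := by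
      rw [hτ]; field_simp; ring
    nlinarith
  obtain ⟨L', hL'0, hL'⟩ := tight (μ s(0, 0)) ha00
  obtain ⟨L, hL⟩ : ∃ L : ℝ, L = |α| + δ + K + L' + 1 := ⟨_, rfl⟩
  have hL0 : 0 < L := by rw [hL]; positivity
  obtain ⟨ε, hε⟩ : ∃ ε : ℝ, ε = min (1 / 4) (min (δ / (8 * L)) (p ^ 2 / (192 * (K + 1)))) :=
    ⟨_, rfl⟩
  have hε0 : 0 < ε := by rw [hε]; positivity
  have hε1 : ε ≤ 1 / 4 := by rw [hε]; exact min_le_left _ _
  have hε2 : 2 * ε * L ≤ δ / 4 := by
    have : ε ≤ δ / (8 * L) := by rw [hε]; exact (min_le_right _ _).trans (min_le_left _ _)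
    rw [le_div_iff₀ (by positivity)] at this
    linarith
  have hε3 : 24 * ε * K ≤ p ^ 2 / 8 := by
    have : ε ≤ p ^ 2 / (192 * (K + 1)) := by
      rw [hε]; exact (min_le_right _ _).trans (min_le_right _ _)
    rw [le_div_iff₀ (by positivity)] at this
    nlinarith
  -- the scale and the truncation
  obtain ⟨i, hi, Λ, hΛ0, hiΛ⟩ := choose_iL m E α δ hK j0 hτ0
  obtain ⟨ε3, hε3'⟩ : ∃ ε3 : ℝ, ε3 = p ^ 2 / (8 * (Λ.card + 1)) := ⟨_, rfl⟩
  have hε30 : 0 < ε3 := by rw [hε3']; positivity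
  have hε31 : Λ.card * ε3 ≤ p ^ 2 / 8 := by
    have h1 : ((Λ.card : ℝ) + 1) * ε3 = p ^ 2 / 8 := by
      rw [hε3']; field_simp
    nlinarith
  obtain ⟨S1, hS1, hmix⟩ := Wf_low m E K α δ j0 i Λ hε30
  obtain ⟨S2, hS2, hinf⟩ := inflS (μ := μ) hAm ha00
  have hfar := far_sets (m.mo fun _ => false) (δ := δ / 4) (a := a0) (by positivity) ha00
  have hdbl := fin_double Λ
  -- the first function
  have hWlow : ∀ y, y ∉ S1 → 7 / 8 * p ^ 2 ≤ ∫ q, Wf t a E K α δ j0 i Λ y q ∂(QQ μ) := by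
    intro y hy
    have h1 := hmix y hy
    have h2 : ‖∫ q, fu t a E K α δ j0 i 0 q ∂(QQ μ)‖ ^ 2
        ≤ ∑ u ∈ Λ, ‖∫ q, fu t a E K α δ j0 i u q ∂(QQ μ)‖ ^ 2 :=
      Finset.single_le_sum (f := fun u => ‖∫ q, fu t a E K α δ j0 i u q ∂(QQ μ)‖ ^ 2)
        (fun _ _ => by positivity) hΛ0
    have hXm := Ax_meas m E K α δ j0 i
    have h3 : ∫ q, fu t a E K α δ j0 i 0 q ∂(QQ μ) = ((QQ μ).real (Ax t a E K α δ j0 i) : ℂ) := by
      rw [fu_zero]
      have h4 := integral_indicator_const (μ := QQ μ) (1 : ℂ) hXm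
      rw [Complex.real_smul, mul_one] at h4
      exact h4
    have h5 : p ≤ (QQ μ).real (Ax t a E K α δ j0 i) := by
      rw [hp, hA]
      unfold Measure.real
      refine ENNReal.toReal_mono (measure_ne_top _ _) ?_
      rw [← lintegral_indicator_one (Aj_meas m E K α δ j0), ← lintegral_indicator_one hXm]
      refine lint_mono_QQ (measurable_one.indicator (Aj_meas m E K α δ j0))
        (measurable_one.indicator hXm) fun r => ?_
      filter_upwards [Ax_ae m E K α δ hi r] with ω h6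
      by_cases h7 : (r, ω) ∈ Aj t a E K α δ j0
      · rw [Set.indicator_of_mem h7, Set.indicator_of_mem (h6 h7)]
      · rw [Set.indicator_of_notMem h7]
        exact bot_le
    rw [h3, Complex.norm_real, Real.norm_of_nonneg measureReal_nonneg] at h2
    have h6 := pow_le_pow_left₀ hp0.le h5 2
    linarith
  obtain ⟨K1, hK1⟩ : ∃ K1 : ℝ, K1 = 4 * (K + 1) := ⟨_, rfl⟩
  have hK1' : 1 ≤ K1 := by rw [hK1]; linarith
  obtain ⟨c1, hc1⟩ : ∃ c1 : ℝ, c1 = c ^ 2 / (13122 * K1 ^ 8) := ⟨_, rfl⟩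
  have hc10 : 0 < c1 := by rw [hc1]; positivity
  have hC : 0 ≤ C := (hκ.nn 0).trans (hκ.bd 0)
  obtain ⟨Am, hAm1⟩ : ∃ Am : ℝ, Am = 1 + ∑' h, a h ^ 2 := ⟨_, rfl⟩
  have hAm0 : 0 ≤ Am := by
    rw [hAm1]
    have : 0 ≤ ∑' h, a h ^ 2 := tsum_nonneg fun h => sq_nonneg _
    linarith
  have haA : ∀ y, |a y| ≤ Am := by
    intro y
    have h1 : a y ^ 2 ≤ ∑' h, a h ^ 2 := m.am.le_tsum y fun _ _ => sq_nonneg _
    rw [← sq_abs] at h1
    rw [hAm1]
    nlinarith [sq_nonneg (|a y| - 1), abs_nonneg (a y)]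
  obtain ⟨F, hF, hM⟩ := big_F hdiv (hS1.union (hS2.union (hfar.union hdbl)))
    ((2 * (C * Real.pi / c1) + 16 * K * Am * (K / ε ^ 2)) / p ^ 2)
  -- the main inequality
  have key : ∀ j, i ≤ j → p ^ 2 * ∑ y ∈ F, |a y| ≤ 2 * (C * Real.pi / c1)
      + F.card * ((10 * K1 + 8 * K) * et j) + 16 * K * Am * (K / ε ^ 2) := by
    intro j hij
    have hj : j0 ≤ j := hi.trans hij
    have hη := et_pos j
    obtain ⟨b, hb⟩ : ∃ b : Zd d → ℝ, b = fun y => (QQ μ).real (A ∩ Rj t a ⟨E, et j⟩ ε y) :=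
      ⟨_, rfl⟩
    have hbs : ∀ F' : Finset (Zd d), ∑ y ∈ F', b y ≤ K / ε ^ 2 := by
      intro F'
      rw [hb, hA]
      exact bsumQ m hj hε0 hK F'
    have hb0 : ∀ y, 0 ≤ b y := fun y => by rw [hb]; exact measureReal_nonneg
    have hRm : ∀ y, MeasurableSet (Rj t a ⟨E, et j⟩ ε y) := fun y =>
      Rj_meas m (z := ⟨E, et j⟩) hη.ne' ε y
    obtain ⟨v, hv⟩ : ∃ v : Zd d → ℝ, v = fun y =>
      (∫⁻ q, Vf t a E (et j) (4 * (K + 1)) α δ y q ∂(QQ μ)).toReal := ⟨_, rfl⟩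
    have hv0 : ∀ y, 0 ≤ v y := fun y => by rw [hv]; exact ENNReal.toReal_nonneg
    have hvs : ∑ y ∈ F, v y ≤ C * Real.pi / c1 := by
      have h1 := lowQ m hκ (E := E) hc hLB hη hK1' F (fun y hy => (hF y hy).2)
      rw [← hc1, hK1] at h1
      have h2 : ∑ y ∈ F, ∫⁻ q, Vf t a E (et j) (4 * (K + 1)) α δ y q ∂(QQ μ)
          = ENNReal.ofReal (∑ y ∈ F, v y) := by
        rw [ENNReal.ofReal_sum_of_nonneg fun y _ => hv0 y]
        refine Finset.sum_congr rfl fun y _ => ?_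
        rw [hv, ENNReal.ofReal_toReal (Vf_fin _ _ _ _ _ _)]
      rw [h2, ← ENNReal.ofReal_mul hc10.le, ENNReal.ofReal_le_ofReal_iff (by positivity)] at h1
      rw [le_div_iff₀ hc10, mul_comm]
      exact h1
    have hUb : ∀ y ∈ F, (QQ μ).real (Ux t a E K α δ ε L' j0 j y)
        ≤ 5 * a0 + (2 * b y + 2 * b (-y)) := by
      intro y hy
      obtain ⟨hyB, hy0⟩ := hF y hy
      simp only [Set.mem_union, not_or] at hyB
      obtain ⟨-, hy2, hy3, -⟩ := hyB
      have i1 := (hinf y hy2).1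
      have i2 := (hinf y hy2).2
      have mf := flQ_mp (μ := μ) y
      have ms := sQ_mp m y
      have pr : ∀ {f : Rs d × Om2 d → Rs d × Om2 d} (_ : MeasurePreserving f (QQ μ) (QQ μ))
          {D : Set (Rs d × Om2 d)} (_ : MeasurableSet D), (QQ μ).real (f ⁻¹' D) = (QQ μ).real D := by
        intro f hf D hD
        unfold Measure.real
        rw [hf.measure_preimage hD.nullMeasurableSet]
      have hD2 : MeasurableSet {q : Rs d × Om2 d | q ∈ A ∧ (fl y q.1, q.2) ∉ A} :=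
        hAm.inter (mf.measurable hAm).compl
      have j2 := pr ms hD2
      have j4 := pr ms (hAm.inter (hRm (-y)))
      have j5 := pr mf (hAm.inter (hRm y))
      have j6 := pr mf (ms.measurable (hAm.inter (hRm (-y))))
      have j7 : (QQ μ).real {q : Rs d × Om2 d | L' < |q.2 s(0, 0)|} ≤ a0 := by
        rw [snd_real]; exact hL'
      have j8 : (QQ μ).real {q : Rs d × Om2 d | L' < |q.2 s(y, y)|} ≤ a0 := by
        rw [snd_real, mu_diag (m.mo fun _ => false) y]; exact hL'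
      have j9 : (QQ μ).real {q : Rs d × Om2 d | δ / 4 < |q.2 s(0, y)|} ≤ a0 := by
        rw [snd_real, ← prob_coord]
        by_contra hlt
        push Not at hlt
        exact hy3 ⟨hy0, hlt⟩
      have bd : b y = (QQ μ).real (A ∩ Rj t a ⟨E, et j⟩ ε y) := by rw [hb]
      have bd' : b (-y) = (QQ μ).real (A ∩ Rj t a ⟨E, et j⟩ ε (-y)) := by rw [hb]
      unfold Ux
      rw [← hA]
      have hu : ∀ (D D' : Set (Rs d × Om2 d)), (QQ μ).real (D ∪ D') ≤ (QQ μ).real D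
          + (QQ μ).real D' := fun D D' => measureReal_union_le D D'
      refine (hu _ _).trans ?_
      refine (add_le_add (hu _ _) le_rfl).trans ?_
      refine (add_le_add (add_le_add (hu _ _) le_rfl) le_rfl).trans ?_
      refine (add_le_add (add_le_add (add_le_add (hu _ _) le_rfl) le_rfl) le_rfl).trans ?_
      refine (add_le_add (add_le_add (add_le_add (add_le_add (hu _ _) le_rfl) le_rfl) le_rfl)
        le_rfl).trans ?_
      refine (add_le_add (add_le_add (add_le_add (add_le_add (add_le_add (hu _ _) le_rfl) le_rfl)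
        le_rfl) le_rfl) le_rfl).trans ?_
      refine (add_le_add (add_le_add (add_le_add (add_le_add (add_le_add (add_le_add (hu _ _)
        le_rfl) le_rfl) le_rfl) le_rfl) le_rfl) le_rfl).trans ?_
      refine (add_le_add (add_le_add (add_le_add (add_le_add (add_le_add (add_le_add (add_le_add
        (hu _ _) le_rfl) le_rfl) le_rfl) le_rfl) le_rfl) le_rfl) le_rfl).trans ?_
      rw [j2, j4, j5, j6, pr ms (hAm.inter (hRm (-y))), ← bd, ← bd']
      linarith
    have hper : ∀ y ∈ F, p ^ 2 * |a y| ≤ 2 * v y + (10 * K1 + 8 * K) * et j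
        + 4 * K * Am * (b y + b (-y)) := by
      intro y hy
      obtain ⟨hyB, hy0⟩ := hF y hy
      simp only [Set.mem_union, not_or] at hyB
      obtain ⟨hy1, -, -, hy4⟩ := hyB
      have hdis : ∀ u ∈ Λ, ∀ w ∈ Λ, u ≠ w + (y + y) := fun u hu w hw h =>
        hy4 ⟨u, hu, w, hw, h⟩
      have h1 := pair_real m (E := E) (α := α) (L := L) (L' := L') hi hij hδ hε0 hε1 (by rw [hL]; linarith)
        hε2 hy0 Λ hdis hτ0.le hK (hiΛ j hij)
      have h2 := hWlow y hy1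
      have h3 := hUb y hy
      have hay := abs_nonneg (a y)
      have hbb : 0 ≤ b y + b (-y) := add_nonneg (hb0 _) (hb0 _)
      have h4 : 2 * |a y| * (7 / 8 * p ^ 2) ≤ 2 * |a y| * ∫ q, Wf t a E K α δ j0 i Λ y q ∂(QQ μ) :=
        mul_le_mul_of_nonneg_left h2 (by positivity)
      have h5 : 2 * K * |a y| * (QQ μ).real (Ux t a E K α δ ε L' j0 j y)
          ≤ 2 * K * |a y| * (5 * a0 + (2 * b y + 2 * b (-y))) :=
        mul_le_mul_of_nonneg_left h3 (by positivity)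
      have h6 : |a y| * (2 * K * (5 * a0)) ≤ |a y| * (p ^ 2 / 2) :=
        mul_le_mul_of_nonneg_left ha01 hay
      have h7 : |a y| * (8 * √K * τ) ≤ |a y| * (p ^ 2 / 8) := mul_le_mul_of_nonneg_left hτ1 hay
      have h8 : |a y| * (24 * ε * K) ≤ |a y| * (p ^ 2 / 8) := mul_le_mul_of_nonneg_left hε3 hay
      have h9 : 4 * K * |a y| * (b y + b (-y)) ≤ 4 * K * Am * (b y + b (-y)) := by
        have := mul_le_mul_of_nonneg_left (haA y) (by positivity : 0 ≤ 4 * K)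
        exact mul_le_mul_of_nonneg_right this hbb
      have hv' : v y = (∫⁻ q, Vf t a E (et j) (4 * (K + 1)) α δ y q ∂(QQ μ)).toReal := by rw [hv]
      rw [← hv', ← hK1] at h1
      linarith
    have hsum := Finset.sum_le_sum hper
    have hse : ∑ y ∈ F, (2 * v y + (10 * K1 + 8 * K) * et j + 4 * K * Am * (b y + b (-y)))
        = 2 * ∑ y ∈ F, v y + F.card * ((10 * K1 + 8 * K) * et j)
          + 4 * K * Am * (∑ y ∈ F, b y + ∑ y ∈ F, b (-y)) := by
      rw [Finset.sum_add_distrib, Finset.sum_add_distrib, Finset.sum_const, nsmul_eq_mul,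
        Finset.mul_sum, ← Finset.sum_add_distrib, Finset.mul_sum]
    rw [← Finset.mul_sum, hse] at hsum
    have h1 := hbs F
    have h2 : ∑ y ∈ F, b (-y) ≤ K / ε ^ 2 := by
      have := hbs (F.map (Equiv.neg (Zd d)).toEmbedding)
      rwa [Finset.sum_map] at this
    have h3 : 4 * K * Am * (∑ y ∈ F, b y + ∑ y ∈ F, b (-y)) ≤ 4 * K * Am * (2 * (K / ε ^ 2)) :=
      mul_le_mul_of_nonneg_left (by linarith) (by positivity)
    have h4 : 0 ≤ K * Am * (K / ε ^ 2) := by positivity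
    linarith
  have hlim : Tendsto (fun j => 2 * (C * Real.pi / c1)
      + F.card * ((10 * K1 + 8 * K) * et j) + 16 * K * Am * (K / ε ^ 2)) atTop
      (𝓝 (2 * (C * Real.pi / c1) + F.card * ((10 * K1 + 8 * K) * 0) + 16 * K * Am * (K / ε ^ 2))) :=
    (((et_lim.const_mul (10 * K1 + 8 * K)).const_mul (F.card : ℝ)).const_add _).add_const _
  have h1 := ge_of_tendsto hlim (eventually_atTop.2 ⟨i, key⟩)
  rw [mul_zero, mul_zero, add_zero] at h1
  rw [div_lt_iff₀ (by positivity)] at hM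
  linarith

end

end Pool.Agent.T2H19
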